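import Pool.Agent.Helper52.TS.SB1L

/-!
# Set B1 of the column `b`: the certificates, order 0, part b
-/

set_option autoImplicit false
set_option maxRecDepth 100000

namespace Pool.Agent.Helper52.TS

open Pool.Agent.Helper83.Cert Pool.Agent.Helper83.TS Pool.Agent.Helper20.TS


theorem l003 : Ck (gL01 3 []) (pW (vL1 3 0 (hA (Ex.v 11) (Ex.v 23)))) :=
  .mk' 1000000 (.add (.add (.add (.add (.add (.mul (.pp [(1, 5020260)]) (.sq [(1, -1), (2, -17), (3, -41), (5,
    -32), (7, 1), (11, 21), (13, 100), (19, -54), (23, 67)])) (.mul (.pp [(1, 190860)]) (.sq [(1,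
    -71), (2, 78), (3, 86), (5, -72), (7, -19), (11, 100), (13, -4), (19, 11), (23, 66)]))) (.add
    (.mul (.g 20) (.add (.add (.add (.add (.mul (.pp [(1, 672168)]) (.sq [(2, 18), (3, 3), (5, 33),
    (7, 100), (11, -8), (13, 14), (19, -97), (23, -22)])) (.mul (.pp [(1, 65808)]) (.sq [(2, 36), (3,
    3), (5, -68), (7, 3), (11, -4), (13, 100), (19, -14), (23, 78)]))) (.add (.mul (.pp [(1, 555324)])
    (.sq [(1, 2), (2, 63), (3, -5), (5, 76), (7, 7), (11, -100), (13, -27), (19, -22), (23, -13)]))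
    (.mul (.pp [(1, 53244)]) (.sq [(1, 77), (2, -62), (3, -41), (5, 16), (7, 36), (11, -32), (13,
    -100), (19, 1), (23, -60)])))) (.add (.add (.mul (.pp [(1, 176316)]) (.sq [(1, -34), (2, -4), (3,
    23), (5, 100), (7, -15), (11, -62), (13, 11), (19, 33), (23, -15)])) (.mul (.pp [(1, 5077944)])
    (.sq [(2, -7), (3, 100), (5, -7), (7, -7), (11, -65), (13, -7), (19, -7), (23, -7)]))) (.add (.mul
    (.pp [(1, 1116)]) (.sq [(2, 98), (3, 100), (5, 39), (7, -15), (11, -65), (13, 14), (19, 7), (23,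
    96)])) (.add (.mul (.g 20) (.add (.add (.pp [(1, 1897968000)]) (.add (.mul (.g 1) (.pp [(1,
    1988232000)])) (.mul (.g 6) (.pp [(1, 654072000)])))) (.add (.mul (.g 19) (.pp [(1, 318830400)]))
    (.add (.mul (.g 20) (.pp [(1, 368251200)])) (.mul (.g 21) (.pp [(1, 102336000)])))))) (.mul (.g 8)
    (.add (.add (.pp [(1, 72623040000)]) (.mul (.g 3) (.pp [(1, 10798800000)]))) (.add (.mul (.g 9)
    (.pp [(1, 672078000)])) (.add (.mul (.g 13) (.pp [(1, 1470960000)])) (.mul (.g 21) (.pp [(1,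
    1225896000)])))))))))) (.add (.add (.add (.mul (.g 13) (.add (.add (.pp [(1, 3084600000)]) (.mul
    (.g 16) (.pp [(1, 8266080000)]))) (.add (.mul (.g 17) (.pp [(1, 3099840000)])) (.mul (.g 18) (.pp
    [(1, 5450160000)]))))) (.mul (.g 1) (.add (.pp [(1, 11324280000)]) (.add (.mul (.g 3) (.pp [(1,
    13803000000)])) (.mul (.g 6) (.pp [(1, 12685920000)])))))) (.add (.mul (.g 19) (.add (.mul (.g 5)
    (.pp [(1, 2057808000)])) (.add (.mul (.g 11) (.pp [(1, 1469112000)])) (.mul (.g 19) (.pp [(1,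
    98284800)]))))) (.mul (.g 3) (.add (.mul (.g 2) (.pp [(1, 755160000)])) (.mul (.g 12) (.pp [(1,
    6320160000)])))))) (.add (.add (.mul (.g 21) (.add (.mul (.g 15) (.pp [(1, 335736000)])) (.mul (.g
    18) (.pp [(1, 924576000)])))) (.mul (.g 6) (.mul (.g 6) (.pp [(1, 763440000)])))) (.add (.mul (.g
    7) (.pp [(1, 2652120000)])) (.add (.mul (.g 11) (.mul (.g 17) (.pp [(1, 2033160000)]))) (.mul (.g
    16) (.mul (.g 16) (.pp [(1, 13009440000)]))))))))) (.add (.mul (.g 8) (.add (.add (.add (.mul (.pp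
    [(1, 1484820)]) (.sq [(2, -68), (3, -3), (5, -11), (7, 66), (13, 100), (19, -90), (23, 42)]))
    (.mul (.pp [(1, 12940980)]) (.sq [(2, -18), (3, 100), (5, -18), (7, -18), (11, 57), (13, -18),
    (19, -18), (23, -18)]))) (.add (.mul (.pp [(1, 4990620)]) (.sq [(3, -5), (5, 34), (7, -86), (11,
    -4), (13, 100), (19, 45), (23, 1)])) (.add (.mul (.pp [(1, 2365080)]) (.sq [(1, 100), (2, -83),
    (3, -55), (5, 37), (7, 17), (11, -14), (13, -83), (19, -33), (23, 52)])) (.mul (.g 3) (.add (.add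
    (.mul (.g 1) (.pp [(1, 98800200000)])) (.mul (.g 3) (.pp [(1, 43734000000)]))) (.add (.mul (.g 8)
    (.pp [(1, 37171800000)])) (.add (.mul (.g 13) (.pp [(1, 25902000000)])) (.mul (.g 18) (.pp [(1,
    34136400000)]))))))))) (.add (.add (.mul (.g 4) (.add (.add (.mul (.g 8) (.pp [(1, 36604800000)]))
    (.mul (.g 12) (.pp [(1, 37134000000)]))) (.add (.mul (.g 17) (.pp [(1, 51861000000)])) (.mul (.g
    21) (.pp [(1, 8184600000)]))))) (.add (.mul (.g 1) (.add (.pp [(1, 34654200000)]) (.add (.mul (.g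
    12) (.pp [(1, 154734600000)])) (.mul (.g 16) (.pp [(1, 483000000)]))))) (.mul (.g 8) (.add (.pp
    [(1, 4506000000)]) (.add (.mul (.g 9) (.pp [(1, 10970670000)])) (.mul (.g 16) (.pp [(1,
    25413000000)]))))))) (.add (.mul (.g 19) (.add (.mul (.g 13) (.pp [(1, 2984760000)])) (.add (.mul
    (.g 18) (.pp [(1, 1813920000)])) (.mul (.g 19) (.pp [(1, 970416000)]))))) (.add (.mul (.g 0) (.mul
    (.g 13) (.pp [(1, 1643610000)]))) (.mul (.g 12) (.mul (.g 16) (.pp [(1, 20104800000)]))))))))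
    (.mul (.g 5) (.add (.add (.add (.mul (.pp [(1, 155160)]) (.sq [(1, 15), (2, -7), (3, 100), (5,
    72), (7, 82), (11, -57), (13, -92), (19, -32), (23, 40)])) (.add (.mul (.pp [(1, 1019400)]) (.sq
    [(1, 6), (2, 55), (3, -82), (11, -21), (13, 100), (19, -52)])) (.mul (.pp [(1, 2709360)]) (.sq
    [(2, -38), (3, -100), (5, -16), (7, 22), (11, 64), (13, 36), (19, 55), (23, 46)])))) (.add (.add
    (.mul (.pp [(1, 884460)]) (.sq [(1, 91), (2, -56), (3, -100), (5, 70), (7, 26), (11, 7), (13,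
    -35), (19, -59), (23, 1)])) (.mul (.pp [(1, 1854540)]) (.sq [(2, -35), (3, 19), (5, -100), (7,
    96), (11, -40), (13, -67), (19, 40), (23, -30)]))) (.add (.mul (.pp [(1, 758160)]) (.sq [(2, 100),
    (3, 15), (5, -7), (7, 12), (11, 97), (13, -73), (19, 2), (23, -10)])) (.mul (.pp [(1, 1756860)])
    (.sq [(2, 41), (3, 2), (5, -20), (7, 11), (11, 22), (13, -9), (19, -29), (23, 100)]))))) (.add
    (.add (.add (.mul (.g 0) (.add (.add (.pp [(1, 13236330000)]) (.mul (.g 3) (.pp [(1,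
    7270530000)]))) (.add (.mul (.g 9) (.pp [(1, 17220000)])) (.mul (.g 21) (.pp [(1, 539364000)])))))
    (.mul (.g 3) (.add (.mul (.g 6) (.pp [(1, 127216800000)])) (.add (.mul (.g 15) (.pp [(1,
    170814000000)])) (.mul (.g 19) (.pp [(1, 15408000000)])))))) (.add (.mul (.g 9) (.add (.mul (.g
    12) (.pp [(1, 754260000)])) (.mul (.g 13) (.pp [(1, 952470000)])))) (.mul (.g 2) (.mul (.g 4) (.pp
    [(1, 15607800000)]))))) (.add (.add (.mul (.g 7) (.pp [(1, 79280400000)])) (.mul (.g 12) (.mul (.g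
    16) (.pp [(1, 139620000000)])))) (.add (.mul (.g 18) (.mul (.g 21) (.pp [(1, 489600000)]))) (.mul
    (.g 19) (.mul (.g 19) (.pp [(1, 2496720000)]))))))))))) (.add (.add (.mul (.g 1) (.add (.add (.add
    (.mul (.pp [(1, 1740180)]) (.sq [(2, 1), (3, 87), (5, 34), (11, 32), (13, 28), (19, -100), (23,
    -24)])) (.mul (.pp [(1, 168360)]) (.sq [(2, -95), (3, -13), (5, -99), (7, -9), (11, 68), (13, 22),
    (19, 4), (23, 100)]))) (.add (.mul (.pp [(1, 5673480)]) (.sq [(1, 75), (2, -17), (3, -57), (5,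
    100), (7, -84), (11, 43), (13, 37), (19, -67), (23, 17)])) (.add (.mul (.pp [(1, 1382520)]) (.sq
    [(2, 3), (3, -46), (5, 6), (7, 3), (11, 76), (13, 100), (19, 27), (23, -50)])) (.mul (.pp [(1,
    989400)]) (.sq [(1, -46), (2, -9), (3, -100), (5, -31), (7, 15), (11, 10), (13, 94), (19, 49),
    (23, 77)]))))) (.add (.add (.mul (.pp [(1, 717360)]) (.sq [(1, -3), (2, -3), (3, -100), (5, -17),
    (7, 83), (11, 85), (13, 9), (19, 8), (23, 2)])) (.mul (.g 0) (.add (.add (.pp [(1, 6823410000)])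
    (.mul (.g 2) (.pp [(1, 2980110000)]))) (.add (.mul (.g 15) (.pp [(1, 1396650000)])) (.add (.mul
    (.g 19) (.pp [(1, 124830000)])) (.mul (.g 21) (.pp [(1, 1101162000)]))))))) (.add (.mul (.g 13)
    (.add (.mul (.g 9) (.pp [(1, 2294520000)])) (.add (.mul (.g 11) (.pp [(1, 88108800000)])) (.mul
    (.g 15) (.pp [(1, 8475000000)]))))) (.add (.mul (.g 18) (.add (.pp [(1, 145524000000)]) (.add
    (.mul (.g 4) (.pp [(1, 107365800000)])) (.mul (.g 18) (.pp [(1, 187880400000)]))))) (.mul (.g 3)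
    (.mul (.g 7) (.pp [(1, 8296200000)])))))))) (.mul (.g 21) (.add (.add (.add (.mul (.pp [(1,
    303996)]) (.sq [(1, 13), (2, 19), (3, 43), (5, 100), (7, -44), (11, 2), (13, -48), (19, -25), (23,
    22)])) (.mul (.pp [(1, 374796)]) (.sq [(1, -54), (2, -1), (3, 100), (5, -56), (7, 27), (11, 9),
    (13, -43), (19, 12), (23, 16)]))) (.add (.mul (.pp [(1, 45576)]) (.sq [(2, 100), (3, -22), (5, 3),
    (7, 1), (11, 35), (13, -53), (19, -1), (23, 38)])) (.mul (.g 16) (.add (.add (.pp [(1,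
    824760000)]) (.mul (.g 9) (.pp [(1, 152970000)]))) (.add (.mul (.g 11) (.pp [(1, 124320000)]))
    (.mul (.g 21) (.pp [(1, 1106304000)]))))))) (.add (.add (.mul (.g 7) (.add (.mul (.g 0) (.pp [(1,
    701484000)])) (.add (.mul (.g 11) (.pp [(1, 1506600000)])) (.mul (.g 13) (.pp [(1,
    1462560000)]))))) (.mul (.g 6) (.add (.mul (.g 3) (.pp [(1, 608880000)])) (.mul (.g 18) (.pp [(1,
    3638280000)]))))) (.add (.mul (.g 21) (.add (.mul (.g 0) (.pp [(1, 446400000)])) (.mul (.g 21)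
    (.pp [(1, 393988800)])))) (.add (.mul (.g 12) (.mul (.g 13) (.pp [(1, 2354760000)]))) (.mul (.g
    18) (.mul (.g 18) (.pp [(1, 5935800000)]))))))))) (.add (.mul (.g 7) (.add (.add (.mul (.pp [(1,
    145380)]) (.sq [(2, 100), (3, 23), (5, -22), (7, -59), (11, 7), (13, 83), (19, 61), (23, -22)]))
    (.add (.mul (.pp [(1, 2314860)]) (.sq [(1, 2), (2, 100), (3, 45), (5, 49), (7, -72), (11, 16),
    (13, -19), (19, -2), (23, -15)])) (.mul (.g 3) (.add (.mul (.g 6) (.pp [(1, 98725200000)])) (.add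
    (.mul (.g 7) (.pp [(1, 14749800000)])) (.mul (.g 13) (.pp [(1, 28505400000)]))))))) (.add (.mul
    (.g 16) (.add (.mul (.g 6) (.pp [(1, 15162600000)])) (.add (.mul (.g 16) (.pp [(1, 43261800000)]))
    (.mul (.g 17) (.pp [(1, 30629400000)]))))) (.add (.mul (.g 0) (.add (.mul (.g 6) (.pp [(1,
    6874710000)])) (.mul (.g 13) (.pp [(1, 2450670000)])))) (.mul (.g 7) (.mul (.g 13) (.pp [(1,
    19503600000)]))))))) (.add (.mul (.g 16) (.add (.add (.mul (.pp [(1, 1079040)]) (.sq [(2, -1), (3,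
    5), (5, 76), (7, 2), (11, 100), (13, -17), (19, -70), (23, -3)])) (.mul (.g 13) (.add (.mul (.g 6)
    (.pp [(1, 98247000000)])) (.add (.mul (.g 12) (.pp [(1, 87538800000)])) (.mul (.g 19) (.pp [(1,
    1346040000)])))))) (.add (.mul (.g 19) (.add (.mul (.g 3) (.pp [(1, 3705000000)])) (.mul (.g 19)
    (.pp [(1, 1292496000)])))) (.mul (.g 11) (.mul (.g 12) (.pp [(1, 84101400000)])))))) (.mul (.g 3)
    (.add (.add (.mul (.pp [(1, 4073820)]) (.sq [(1, 94), (2, 100), (3, 85), (5, -20), (7, -81), (11,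
    67), (13, -60), (19, -5), (23, -32)])) (.mul (.pp [(1, 251280)]) (.sq [(1, 1), (2, -4), (3, 1),
    (5, -100), (7, 26), (11, -76), (13, -71), (19, 84), (23, -47)]))) (.add (.mul (.pp [(1, 800820)])
    (.sq [(1, 27), (2, 13), (3, -5), (5, -44), (7, -15), (11, 4), (13, 100), (19, -41), (23, 15)]))
    (.mul (.g 6) (.mul (.g 6) (.pp [(1, 94166400000)])))))))))) (.add (.add (.add (.mul (.g 9) (.add
    (.add (.mul (.pp [(1, 828)]) (.sq [(1, 56), (2, -34), (3, -68), (5, 99), (7, -99), (11, 93), (13,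
    -22), (19, -54), (23, 100)])) (.mul (.pp [(1, 59661)]) (.sq [(1, 86), (2, 24), (3, -61), (5, 37),
    (7, 19), (11, -100), (13, -26), (19, -45), (23, -36)]))) (.add (.mul (.pp [(1, 60789)]) (.sq [(1,
    8), (2, -6), (3, -14), (5, 100), (7, -25), (11, -79), (13, 51), (19, -6), (23, -47)])) (.mul (.pp
    [(1, 332526)]) (.sq [(1, 58), (2, 38), (3, 100), (5, 10), (7, -71), (11, -23), (13, -76), (19,
    -14), (23, -7)]))))) (.mul (.g 19) (.add (.add (.mul (.pp [(1, 815100)]) (.sq [(2, 5), (3, -1),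
    (5, 25), (7, 8), (11, 27), (13, 100), (19, 45), (23, -98)])) (.mul (.pp [(1, 186120)]) (.sq [(1,
    33), (2, 43), (3, 58), (5, 100), (7, -93), (11, 18), (13, 70), (19, -77), (23, 53)]))) (.add (.mul
    (.pp [(1, 562932)]) (.sq [(1, -41), (2, 14), (3, 32), (5, -74), (7, 22), (11, -14), (13, 100),
    (19, -12), (23, 10)])) (.mul (.pp [(1, 804612)]) (.sq [(1, 4), (2, 93), (3, -56), (5, -7), (7,
    -41), (11, 64), (13, 100), (19, -8), (23, 35)])))))) (.add (.mul (.g 12) (.add (.mul (.pp [(1,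
    178080)]) (.sq [(1, 43), (2, -31), (3, -12), (5, 100), (7, -29), (11, 8), (13, -65), (19, -26),
    (23, 13)])) (.add (.mul (.pp [(1, 863640)]) (.sq [(1, -100), (2, -55), (3, 13), (5, 44), (7, 21),
    (11, -86), (13, 69), (19, 77), (23, -75)])) (.mul (.pp [(1, 613200)]) (.sq [(1, -29), (2, -24),
    (3, 15), (5, 95), (7, -35), (11, 90), (13, 100), (19, -69), (23, 21)]))))) (.add (.mul (.g 13)
    (.add (.mul (.pp [(1, 1070340)]) (.sq [(2, 24), (3, -7), (5, 5), (7, 56), (11, 100), (13, -30),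
    (19, -70), (23, 22)])) (.add (.mul (.pp [(1, 388680)]) (.sq [(1, -49), (2, -57), (3, 23), (5, 27),
    (7, 19), (11, -34), (13, 100), (19, -10)])) (.mul (.g 6) (.mul (.g 18) (.pp [(1,
    13744200000)])))))) (.mul (.g 15) (.add (.mul (.pp [(1, 2577420)]) (.sq [(2, -58), (3, -1), (5,
    -1), (7, -1), (11, 100), (13, 81), (19, -12), (23, 4)])) (.add (.mul (.pp [(1, 4804020)]) (.sq
    [(1, 26), (2, 82), (3, 49), (5, -4), (7, -33), (11, 83), (13, -100), (19, -45), (23, 71)])) (.mul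
    (.pp [(1, 6166800)]) (.sq [(1, 3), (2, -10), (3, 11), (5, -25), (7, 10), (11, 8), (13, 50), (19,
    -43), (23, 20)])))))))) (.add (.add (.mul (.g 0) (.add (.mul (.pp [(1, 36825)]) (.sq [(2, -44),
    (3, 8), (5, 89), (7, 62), (11, 80), (13, 32), (19, -100), (23, -5)])) (.mul (.pp [(1, 10857)])
    (.sq [(1, -78), (2, -18), (3, -9), (5, 60), (7, 22), (11, -97), (13, 100), (19, 77), (23,
    -82)])))) (.add (.mul (.g 10) (.add (.mul (.pp [(1, 1644720)]) (.sq [(1, 6), (2, -15), (3, -50),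
    (5, 42), (7, -30), (11, 100), (13, 10), (19, -37), (23, 29)])) (.mul (.pp [(1, 1244280)]) (.sq
    [(2, 100), (3, 30), (5, -20), (7, -6), (11, -72), (13, 76), (19, -15), (23, 5)])))) (.mul (.g 2)
    (.mul (.pp [(1, 1434060)]) (.sq [(1, 36), (2, -36), (3, -86), (5, 27), (7, -41), (11, 100), (13,
    32), (19, -25), (23, 51)]))))) (.add (.mul (.g 4) (.mul (.pp [(1, 1837860)]) (.sq [(1, -21), (2,
    -55), (3, -45), (5, 55), (7, 64), (11, 37), (13, 100), (19, -66), (23, -15)]))) (.add (.mul (.g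
    11) (.mul (.pp [(1, 4484820)]) (.sq [(1, 45), (2, 39), (3, -6), (5, -26), (7, -66), (11, 100),
    (13, -37), (19, 1), (23, 35)]))) (.mul (.g 17) (.mul (.pp [(1, 1471740)]) (.sq [(1, -22), (2,
    100), (3, 26), (5, 14), (7, -58), (11, 68), (13, -80), (19, 75), (23, -14)])))))))) (.pp [(1,
    21901024296), (2, 6195228), (3, 7041660), (4, 5657148), (5, 5910624), (6, 5743452), (7, 6405972),
    (8, 5344320), (9, 5835180), (10, 6688128), (11, 5569668), (12, 6751740), (13, 6251220), (14,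
    6244404), (15, 6609810), (18, 5560800), (19, 6017112), (20, 5960760), (21, 6642678), (22,
    5922480), (23, 5923260), (25, 5888592), (26, 6168780), (27, 5999820), (28, 6783000), (30,
    5300760), (33, 5400078), (35, 6520590), (38, 5944356), (39, 5556096), (42, 6571920), (44,
    5712720), (45, 5980380), (46, 5864508), (49, 4827852), (50, 5904540), (52, 6247740), (55,
    5227176), (57, 4202916), (63, 5563080), (65, 4803612), (66, 6563400), (69, 4989024), (70,
    5841720), (75, 6039420), (76, 5747940), (77, 6137298), (78, 5846040), (91, 5621226), (92,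
    5454840), (95, 6004242), (98, 4789020), (99, 6467260), (105, 6195600), (110, 6672720), (114,
    5342280), (115, 6347766), (117, 6016620), (121, 6027102), (125, 6252200), (130, 5632920), (133,
    5998542), (138, 5017200), (143, 6779202), (147, 6232980), (154, 5104200), (161, 7559058), (165,
    5989320), (169, 4916139), (171, 6052380), (175, 5438880), (182, 6189360), (190, 6086520), (195,
    6441480), (207, 5299560), (209, 6763218), (230, 6454320), (231, 5380800), (242, 5709180), (245,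
    6292140), (247, 7158960), (253, 5319270), (266, 7805280), (273, 6156000), (275, 6057720), (285,
    6089640), (286, 6034080), (299, 6751938), (322, 5966880), (325, 5906340), (338, 5310360), (343,
    6243520), (345, 5672760), (361, 5801280), (363, 5704420), (385, 5220360), (399, 5852400), (418,
    5966400), (429, 5609760), (437, 6349344), (455, 6412920), (475, 5791800), (483, 6427560), (494,
    6238680), (506, 6299400), (507, 6249840), (529, 5696358), (539, 5432040), (575, 6145980), (598,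
    6330600), (605, 6132420), (627, 6566040), (637, 6451320), (665, 6148680), (715, 6458760), (722,
    5092860), (741, 5836080), (759, 6529080), (805, 5278200), (845, 6556260), (847, 5799300), (874,
    6182760), (897, 6142920), (931, 6289020), (1001, 7372680), (1045, 6284880), (1058, 6350940),
    (1083, 6592080), (1127, 6437460), (1183, 6000600), (1235, 5912520), (1265, 6503640), (1311,
    6415080), (1331, 5985880), (1463, 7667040), (1495, 5969040), (1573, 6268680), (1587, 5988240),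
    (1729, 6342840), (1771, 5598120), (1805, 6069420), (1859, 5414700), (2093, 4674360), (2185,
    5873160), (2197, 6353460), (2299, 6112740), (2527, 5291340), (2645, 6090120), (2717, 4626240),
    (2783, 6413940), (3059, 6183120), (3211, 5865660), (3289, 5666160), (3703, 4582620), (3887,
    6160860), (3971, 5403120), (4693, 5934060), (4807, 6015000), (5681, 5745480), (5819, 5910240),
    (6859, 6218520), (6877, 6068460), (8303, 5608560), (10051, 6182160), (12167, 6392540)])) (by norm_num)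
    (by decide +kernel)

theorem l004 : Ck (gL01 4 []) (pW (vL1 4 0 (hA (Ex.v 11) (Ex.v 23)))) :=
  .mk' 500000 (.add (.add (.add (.add (.add (.mul (.pp [(1, 795300)]) (.sq [(1, -13), (2, -68), (3, -40), (5,
    100), (7, -40), (11, -2), (13, 98), (19, -33), (23, 21)])) (.mul (.g 20) (.add (.add (.add (.mul
    (.pp [(1, 46626)]) (.sq [(2, -54), (3, 9), (5, 45), (7, -1), (11, -100), (13, 100), (19, 2), (23,
    -12)])) (.add (.mul (.pp [(1, 196194)]) (.sq [(1, 59), (2, 52), (5, -12), (7, -58), (13, 100),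
    (19, -58), (23, -24)])) (.mul (.pp [(1, 218472)]) (.sq [(1, 5), (2, -41), (3, 20), (5, -96), (7,
    50), (11, 70), (13, -58), (19, 100), (23, -93)])))) (.add (.mul (.pp [(1, 1800408)]) (.sq [(2,
    -7), (3, 100), (5, -7), (7, -7), (11, -65), (13, -7), (19, -7), (23, -7)])) (.add (.mul (.pp [(1,
    51402)]) (.sq [(2, 47), (3, 100), (5, 18), (7, -12), (11, 5), (13, -76), (19, 18), (23, -27)]))
    (.mul (.g 13) (.add (.add (.pp [(1, 1714080000)]) (.add (.mul (.g 9) (.pp [(1, 577371000)])) (.mul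
    (.g 11) (.pp [(1, 2434380000)])))) (.add (.add (.mul (.g 13) (.pp [(1, 791160000)])) (.mul (.g 16)
    (.pp [(1, 2254140000)]))) (.add (.mul (.g 17) (.pp [(1, 864180000)])) (.mul (.g 21) (.pp [(1,
    689028000)]))))))))) (.add (.add (.mul (.g 6) (.add (.add (.pp [(1, 3461400000)]) (.add (.mul (.g
    3) (.pp [(1, 7320060000)])) (.mul (.g 4) (.pp [(1, 4288860000)])))) (.add (.mul (.g 7) (.pp [(1,
    6198480000)])) (.add (.mul (.g 19) (.pp [(1, 1390392000)])) (.mul (.g 21) (.pp [(1,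
    514788000)])))))) (.add (.mul (.g 1) (.add (.add (.pp [(1, 11113560000)]) (.mul (.g 8) (.pp [(1,
    15423660000)]))) (.add (.mul (.g 19) (.pp [(1, 409224000)])) (.mul (.g 20) (.pp [(1,
    1082592000)]))))) (.mul (.g 7) (.add (.mul (.g 2) (.pp [(1, 3057420000)])) (.add (.mul (.g 3) (.pp
    [(1, 5185020000)])) (.mul (.g 18) (.pp [(1, 8805300000)]))))))) (.add (.add (.mul (.g 8) (.add
    (.pp [(1, 31217160000)]) (.add (.mul (.g 19) (.pp [(1, 3819600000)])) (.mul (.g 21) (.pp [(1,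
    513096000)]))))) (.mul (.g 19) (.add (.mul (.g 18) (.pp [(1, 539316000)])) (.mul (.g 20) (.pp [(1,
    32635200)]))))) (.add (.mul (.g 17) (.mul (.g 17) (.pp [(1, 11391360000)]))) (.mul (.g 20) (.pp
    [(1, 3536748000)])))))))) (.add (.mul (.g 8) (.add (.add (.add (.mul (.pp [(1, 46560)]) (.sq [(2,
    -13), (3, 57), (5, 100), (7, -8), (11, 37), (13, -83), (19, -60), (23, -94)])) (.add (.mul (.pp
    [(1, 8544300)]) (.sq [(2, -18), (3, 100), (5, -18), (7, -18), (11, 57), (13, -18), (19, -18), (23,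
    -18)])) (.mul (.pp [(1, 987870)]) (.sq [(1, 17), (2, -34), (3, -18), (5, 100), (7, -28), (11, 23),
    (13, -28), (19, 27), (23, -31)])))) (.add (.mul (.g 12) (.add (.add (.mul (.g 3) (.pp [(1,
    49644900000)])) (.add (.mul (.g 4) (.pp [(1, 28611900000)])) (.mul (.g 8) (.pp [(1,
    23483100000)])))) (.add (.mul (.g 13) (.pp [(1, 9342600000)])) (.add (.mul (.g 16) (.pp [(1,
    26395800000)])) (.mul (.g 21) (.pp [(1, 277620000)])))))) (.add (.mul (.g 8) (.add (.mul (.g 3)
    (.pp [(1, 28813800000)])) (.add (.mul (.g 9) (.pp [(1, 6122310000)])) (.mul (.g 13) (.pp [(1,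
    16026900000)]))))) (.mul (.g 6) (.add (.pp [(1, 44109000000)]) (.mul (.g 15) (.pp [(1,
    7364700000)]))))))) (.add (.add (.mul (.g 13) (.add (.mul (.g 5) (.pp [(1, 7569000000)])) (.mul
    (.g 21) (.pp [(1, 4139760000)])))) (.add (.mul (.g 0) (.mul (.g 0) (.pp [(1, 109428750)]))) (.mul
    (.g 1) (.pp [(1, 65751000000)])))) (.add (.add (.mul (.g 3) (.mul (.g 17) (.pp [(1, 798300000)])))
    (.mul (.g 4) (.mul (.g 11) (.pp [(1, 88692000000)])))) (.add (.mul (.g 16) (.mul (.g 21) (.pp [(1,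
    13509540000)]))) (.mul (.g 18) (.mul (.g 19) (.pp [(1, 2511660000)])))))))) (.add (.mul (.g 6)
    (.add (.add (.add (.mul (.pp [(1, 1489200)]) (.sq [(2, -3), (3, -43), (5, -17), (7, -29), (11,
    100), (13, -17), (19, 13), (23, 1)])) (.add (.mul (.pp [(1, 480180)]) (.sq [(2, 16), (5, 96), (7,
    27), (11, -61), (13, -100), (19, 16), (23, 79)])) (.mul (.pp [(1, 1315020)]) (.sq [(1, 3), (2,
    57), (3, -63), (5, -21), (7, 5), (11, -100), (13, 40), (19, 52), (23, -57)])))) (.add (.mul (.pp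
    [(1, 2362740)]) (.sq [(2, -61), (3, -1), (5, 23), (7, -7), (11, -20), (13, -30), (19, 100), (23,
    29)])) (.add (.mul (.g 18) (.add (.add (.mul (.g 11) (.pp [(1, 4977900000)])) (.mul (.g 15) (.pp
    [(1, 10873500000)]))) (.add (.mul (.g 16) (.pp [(1, 19011300000)])) (.mul (.g 21) (.pp [(1,
    472500000)]))))) (.mul (.g 2) (.add (.mul (.g 5) (.pp [(1, 10208100000)])) (.add (.mul (.g 6) (.pp
    [(1, 11154300000)])) (.mul (.g 15) (.pp [(1, 31336200000)])))))))) (.add (.add (.mul (.g 7) (.add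
    (.mul (.g 1) (.pp [(1, 69910800000)])) (.mul (.g 9) (.pp [(1, 557955000)])))) (.add (.mul (.g 0)
    (.pp [(1, 6312600000)])) (.mul (.g 4) (.mul (.g 5) (.pp [(1, 19653900000)]))))) (.add (.add (.mul
    (.g 11) (.mul (.g 19) (.pp [(1, 5995140000)]))) (.mul (.g 13) (.pp [(1, 47969700000)]))) (.add
    (.mul (.g 16) (.pp [(1, 57359700000)])) (.mul (.g 21) (.pp [(1, 13258080000)]))))))) (.mul (.g 7)
    (.add (.add (.add (.mul (.pp [(1, 1754100)]) (.sq [(2, -22), (3, -100), (5, -69), (7, 19), (11,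
    72), (13, 76), (19, -56), (23, -40)])) (.mul (.pp [(1, 911280)]) (.sq [(3, -1), (5, 100), (7,
    -52), (11, -8), (13, -3), (19, -40), (23, 71)]))) (.add (.mul (.pp [(1, 285090)]) (.sq [(1, -8),
    (2, 31), (3, 4), (5, -42), (7, -4), (11, 100), (13, -8), (23, -20)])) (.mul (.g 0) (.add (.add
    (.pp [(1, 5883915000)]) (.mul (.g 2) (.pp [(1, 1245000)]))) (.add (.mul (.g 4) (.pp [(1,
    660480000)])) (.mul (.g 16) (.pp [(1, 874830000)]))))))) (.add (.add (.mul (.g 3) (.add (.pp [(1,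
    1417500000)]) (.mul (.g 19) (.pp [(1, 3294840000)])))) (.mul (.g 4) (.add (.mul (.g 5) (.pp [(1,
    29268000000)])) (.mul (.g 16) (.pp [(1, 21067800000)]))))) (.add (.mul (.g 9) (.add (.mul (.g 9)
    (.pp [(1, 18678750)])) (.mul (.g 12) (.pp [(1, 1694820000)])))) (.add (.mul (.g 12) (.mul (.g 21)
    (.pp [(1, 3940200000)]))) (.mul (.g 13) (.pp [(1, 37503900000)])))))))))) (.add (.add (.mul (.g 1)
    (.add (.add (.add (.mul (.pp [(1, 1913160)]) (.sq [(2, 12), (3, 1), (5, -24), (7, 93), (11, 100),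
    (13, 1), (19, 7), (23, 60)])) (.add (.mul (.pp [(1, 280680)]) (.sq [(2, 37), (3, -58), (5, 23),
    (7, 74), (11, -20), (13, -100), (19, -16), (23, 45)])) (.mul (.pp [(1, 3708630)]) (.sq [(1, 14),
    (2, 32), (3, 29), (5, 100), (7, -64), (11, -28), (13, 13), (19, -53), (23, -30)])))) (.add (.mul
    (.pp [(1, 2878950)]) (.sq [(2, 31), (3, 21), (5, 100), (7, -8), (11, 50), (13, -72), (19, -63),
    (23, -35)])) (.add (.mul (.pp [(1, 859020)]) (.sq [(1, 7), (2, -76), (3, 98), (5, 57), (7, -72),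
    (11, 22), (13, 43), (19, -100), (23, 2)])) (.mul (.pp [(1, 1454370)]) (.sq [(1, 39), (2, -74), (3,
    -100), (5, 29), (7, -11), (11, 30), (13, 37), (19, -35), (23, 13)]))))) (.add (.add (.mul (.pp
    [(1, 1533840)]) (.sq [(2, -1), (3, -12), (5, 46), (7, -21), (11, -19), (13, 85), (23, -100)]))
    (.add (.mul (.g 18) (.add (.pp [(1, 160770600000)]) (.add (.mul (.g 4) (.pp [(1, 73491300000)]))
    (.mul (.g 17) (.pp [(1, 9004500000)]))))) (.mul (.g 0) (.pp [(1, 10521030000)])))) (.add (.mul (.g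
    2) (.mul (.g 4) (.pp [(1, 34195500000)]))) (.add (.mul (.g 3) (.mul (.g 16) (.pp [(1,
    3337500000)]))) (.mul (.g 11) (.mul (.g 13) (.pp [(1, 35932200000)])))))))) (.mul (.g 5) (.add
    (.add (.add (.mul (.pp [(1, 365670)]) (.sq [(1, 2), (2, -12), (3, 7), (5, 100), (7, -68), (11,
    -17), (13, 57), (19, -75), (23, 33)])) (.mul (.pp [(1, 776760)]) (.sq [(1, 8), (2, -82), (3, -9),
    (5, 32), (7, -12), (11, -27), (13, 58), (19, -23), (23, -100)]))) (.add (.mul (.pp [(1, 87390)])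
    (.sq [(2, 34), (3, 100), (5, 78), (7, -33), (11, -68), (13, -59), (19, 56), (23, 34)])) (.mul (.pp
    [(1, 464580)]) (.sq [(1, 48), (2, -40), (3, 10), (5, 57), (7, 62), (11, -23), (13, -100), (19,
    -69), (23, -60)])))) (.add (.add (.mul (.pp [(1, 218400)]) (.sq [(1, 50), (2, -33), (3, -88), (5,
    -89), (7, 100), (11, -61), (13, -23), (19, -7), (23, 3)])) (.mul (.g 3) (.add (.add (.pp [(1,
    11353800000)]) (.mul (.g 0) (.pp [(1, 2214480000)]))) (.add (.mul (.g 12) (.pp [(1,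
    13050300000)])) (.mul (.g 19) (.pp [(1, 4860300000)])))))) (.add (.mul (.g 4) (.add (.pp [(1,
    1056300000)]) (.mul (.g 17) (.pp [(1, 10126500000)])))) (.add (.mul (.g 9) (.mul (.g 12) (.pp [(1,
    465825000)]))) (.mul (.g 11) (.mul (.g 13) (.pp [(1, 35241600000)]))))))))) (.add (.mul (.g 11)
    (.add (.add (.mul (.pp [(1, 1132380)]) (.sq [(2, -1), (3, -2), (5, 80), (7, -1), (11, 100), (13,
    -2), (19, -42), (23, -32)])) (.add (.mul (.pp [(1, 1421850)]) (.sq [(1, -4), (2, -33), (3, -34),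
    (5, 37), (7, -50), (11, 100), (13, 62), (19, -28), (23, 86)])) (.mul (.pp [(1, 520890)]) (.sq [(1,
    7), (2, 100), (3, 55), (5, 23), (7, -16), (11, -7), (13, -88), (19, 11), (23, -30)])))) (.add
    (.mul (.g 13) (.add (.mul (.g 9) (.pp [(1, 295125000)])) (.add (.mul (.g 13) (.pp [(1,
    21345000000)])) (.mul (.g 18) (.pp [(1, 1056600000)]))))) (.add (.mul (.g 16) (.add (.mul (.g 12)
    (.pp [(1, 96644700000)])) (.add (.mul (.g 19) (.pp [(1, 8493120000)])) (.mul (.g 21) (.pp [(1,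
    544620000)]))))) (.mul (.g 21) (.mul (.g 21) (.pp [(1, 367332000)]))))))) (.add (.mul (.g 21)
    (.add (.add (.mul (.pp [(1, 1008750)]) (.sq [(2, 2), (3, -5), (5, 100), (7, -12), (13, -3), (19,
    1), (23, -21)])) (.add (.mul (.pp [(1, 63522)]) (.sq [(1, 3), (2, 60), (3, -71), (5, -16), (11,
    -14), (13, 100), (19, -47), (23, -12)])) (.mul (.pp [(1, 306678)]) (.sq [(2, -6), (3, 100), (5,
    -34), (7, -83), (11, -14), (13, -5), (19, 12), (23, -3)])))) (.add (.add (.mul (.g 16) (.add (.mul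
    (.g 19) (.pp [(1, 125448000)])) (.mul (.g 21) (.pp [(1, 222504000)])))) (.mul (.g 0) (.mul (.g 21)
    (.pp [(1, 107291400)])))) (.add (.mul (.g 12) (.mul (.g 18) (.pp [(1, 801420000)]))) (.mul (.g 13)
    (.pp [(1, 2843760000)])))))) (.mul (.g 4) (.add (.add (.mul (.pp [(1, 3488310)]) (.sq [(2, 2), (3,
    2), (5, -30), (7, 100), (11, 2), (13, 2), (19, -43), (23, -43)])) (.add (.mul (.pp [(1, 715260)])
    (.sq [(1, -31), (2, -46), (3, -27), (5, 41), (7, 93), (11, -66), (13, 98), (19, 28), (23, -100)]))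
    (.mul (.pp [(1, 195090)]) (.sq [(1, 19), (2, -100), (3, 55), (5, -38), (7, 14), (11, 97), (13,
    47), (19, -48), (23, -9)])))) (.add (.mul (.pp [(1, 2124240)]) (.sq [(2, 49), (3, 50), (5, -6),
    (7, -7), (11, 16), (13, -18), (19, -2), (23, 2)])) (.add (.mul (.pp [(1, 304200)]) (.sq [(2, -70),
    (3, 7), (5, 46), (7, 7), (11, -67), (13, -100), (19, 13), (23, 25)])) (.mul (.pp [(1,
    78779700000)]) (.sq [(19, -1), (23, 1)])))))))))) (.add (.add (.add (.mul (.g 12) (.add (.add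
    (.mul (.pp [(1, 1178970)]) (.sq [(1, -16), (2, -33), (3, 43), (5, 35), (7, 15), (11, 100), (13,
    -2), (19, -10), (23, -30)])) (.mul (.pp [(1, 3398520)]) (.sq [(1, -18), (2, -34), (3, -60), (5,
    25), (7, -16), (11, -13), (13, 100), (19, 2), (23, -24)]))) (.add (.mul (.pp [(1, 3363360)]) (.sq
    [(1, -8), (2, -9), (3, 13), (5, 100), (7, -7), (11, 1), (13, -24), (19, -15), (23, -7)])) (.add
    (.mul (.pp [(1, 742200)]) (.sq [(2, 9), (3, 71), (5, 5), (7, -31), (11, 11), (13, -11), (19, 100),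
    (23, -64)])) (.mul (.g 13) (.mul (.g 16) (.pp [(1, 11425500000)]))))))) (.mul (.g 19) (.add (.add
    (.mul (.pp [(1, 39576)]) (.sq [(1, -72), (2, 63), (3, 75), (5, 5), (7, -3), (11, 19), (13, -1),
    (19, -43), (23, 100)])) (.mul (.pp [(1, 42864)]) (.sq [(2, -100), (5, -41), (7, 3), (11, -24),
    (13, 96), (19, -38), (23, -10)]))) (.add (.mul (.pp [(1, 197076)]) (.sq [(1, -2), (2, -10), (3,
    100), (5, -2), (7, -47), (11, 4), (13, 22), (19, -39), (23, 31)])) (.add (.mul (.pp [(1, 213120)])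
    (.sq [(1, 28), (2, -33), (3, -31), (5, 100), (7, -44), (11, 61), (13, 55), (19, -53), (23, 23)]))
    (.mul (.g 16) (.mul (.g 19) (.pp [(1, 356100000)])))))))) (.add (.mul (.g 13) (.add (.add (.mul
    (.pp [(1, 534930)]) (.sq [(1, -43), (2, -66), (3, -21), (5, -52), (7, -79), (11, 100), (13, -37),
    (19, 63), (23, 87)])) (.mul (.pp [(1, 169530)]) (.sq [(2, -8), (3, 64), (5, -80), (7, -43), (11,
    -2), (13, -62), (19, 8), (23, 100)]))) (.add (.mul (.pp [(1, 268800)]) (.sq [(2, 100), (3, -11),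
    (5, -8), (7, -39), (11, -13), (13, 66), (19, -10), (23, 33)])) (.mul (.pp [(1, 1181670)]) (.sq
    [(2, 13), (3, -14), (5, 60), (7, 5), (11, 100), (13, -47), (19, -49), (23, -2)]))))) (.add (.mul
    (.g 10) (.add (.mul (.pp [(1, 626250)]) (.sq [(2, -9), (3, -99), (5, 51), (7, -18), (11, 70), (13,
    -65), (19, 31), (23, -100)])) (.add (.mul (.pp [(1, 1169460)]) (.sq [(2, -100), (3, 99), (5, -1),
    (7, -4), (11, 5), (13, 14), (23, 2)])) (.mul (.pp [(1, 586770)]) (.sq [(2, 9), (3, -45), (5, -17),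
    (7, -4), (11, 55), (13, 3), (23, 100)]))))) (.mul (.g 3) (.add (.mul (.pp [(1, 1404240)]) (.sq
    [(2, -12), (3, -73), (5, -36), (7, 92), (11, 100), (13, 58), (19, 25), (23, -74)])) (.mul (.pp
    [(1, 1347450)]) (.sq [(1, 4), (2, -57), (3, 72), (5, -15), (7, -8), (11, 14), (13, 100), (19,
    -39), (23, -5)]))))))) (.add (.add (.mul (.g 2) (.mul (.pp [(1, 51780)]) (.sq [(1, 33), (2, 27),
    (3, -28), (5, -100), (7, 10), (11, 80), (13, -61), (19, 63), (23, -41)]))) (.mul (.g 9) (.mul (.pp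
    [(1, 29517)]) (.sq [(1, -7), (2, 46), (3, -9), (5, -11), (7, -6), (11, -100), (13, -32), (19, 76),
    (23, -36)])))) (.add (.mul (.g 15) (.mul (.pp [(1, 932790)]) (.sq [(1, 6), (2, 74), (3, 64), (5,
    -13), (7, 34), (11, 29), (13, -100), (19, -61), (23, 7)]))) (.add (.mul (.g 16) (.mul (.pp [(1,
    5110350)]) (.sq [(1, -15), (2, -10), (3, -12), (5, 64), (7, -2), (11, 100), (13, 3), (19, -27),
    (23, -6)]))) (.mul (.g 18) (.mul (.pp [(1, 1430280)]) (.sq [(1, -81), (2, 58), (3, 31), (5, -40),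
    (7, 86), (11, 100), (13, -37), (19, -1), (23, 2)])))))))) (.pp [(1, 1128587691), (2, 2922768), (3,
    3081060), (4, 3022236), (5, 3032100), (6, 2748264), (7, 3213894), (8, 2734350), (9, 3030735), (10,
    3165720), (11, 3239400), (12, 3221130), (13, 3141684), (14, 2848788), (15, 3163350), (18,
    2922570), (19, 2993700), (20, 2985840), (21, 2695116), (22, 2998716), (23, 3059424), (25,
    2877381), (26, 2665428), (27, 3127530), (28, 3327780), (30, 2828040), (33, 2975292), (35,
    3048996), (38, 3507936), (39, 2920464), (42, 3453240), (44, 2995560), (45, 3119580), (46,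
    2956092), (49, 3534420), (50, 3035880), (52, 3083610), (55, 2425296), (57, 2849616), (63,
    3136560), (65, 2912952), (66, 3034140), (69, 2846676), (70, 2993040), (75, 2811210), (76,
    2654130), (77, 3257532), (78, 2638920), (91, 2872704), (92, 2709060), (95, 2465808), (98,
    2592750), (99, 2938220), (105, 2775060), (110, 2799120), (114, 2752020), (115, 3112812), (117,
    2964870), (121, 3070692), (125, 2959000), (130, 3349800), (133, 2387580), (138, 2983080), (143,
    2793072), (147, 2943810), (154, 3014340), (161, 2561268), (165, 3325800), (169, 3244608), (171,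
    2746110), (175, 3313500), (182, 2997720), (190, 3027000), (195, 2925420), (207, 2866800), (209,
    2967228), (230, 3191100), (231, 2823300), (242, 2847000), (245, 3117210), (247, 2749680), (253,
    3125064), (266, 3179100), (273, 3273900), (275, 3094500), (285, 3450480), (286, 3167040), (299,
    3005820), (322, 3564840), (325, 3236670), (338, 3253590), (343, 3157120), (345, 2749020), (361,
    3763476), (363, 3066530), (385, 2963880), (399, 3278700), (418, 2930280), (429, 3278340), (437,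
    3357732), (455, 3215460), (475, 2788800), (483, 3469860), (494, 3493500), (506, 3142020), (507,
    2917380), (529, 3343158), (539, 2421120), (575, 2837370), (598, 3172380), (605, 2901600), (627,
    2761680), (637, 3127740), (665, 2917860), (715, 3094140), (722, 2716410), (741, 3291660), (759,
    2988720), (805, 2925300), (845, 2749260), (847, 3269880), (874, 2606460), (897, 3140700), (931,
    2228280), (1001, 2694060), (1045, 3282600), (1058, 2850810), (1083, 2883600), (1127, 2064930),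
    (1183, 3107070), (1235, 2595600), (1265, 3197220), (1311, 3095220), (1331, 2845430), (1463,
    3472440), (1495, 2792520), (1573, 2918190), (1587, 2711130), (1729, 3007860), (1771, 2841180),
    (1805, 3176760), (1859, 2892240), (2093, 3125340), (2185, 3417300), (2197, 2930040), (2299,
    3046320), (2527, 3649170), (2645, 3008280), (2717, 3529500), (2783, 2312850), (3059, 3348840),
    (3211, 2785710), (3289, 3081660), (3703, 3708240), (3887, 2708970), (3971, 2819430), (4693,
    2841930), (4807, 2767080), (5681, 3067320), (5819, 3284730), (6859, 2622040), (6877, 3047430),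
    (8303, 2754240), (10051, 2843400), (12167, 2613460)])) (by norm_num)
    (by decide +kernel)

theorem l102 : Ck (gL11 2 []) (pW (vL1 2 0 (hM (Ex.v 11)))) :=
  .mk' 1000000 (.add (.add (.add (.add (.add (.mul (.g 8) (.add (.add (.add (.mul (.pp [(1, 840840)]) (.sq [(1,
    -8), (2, 2), (3, -37), (5, -13), (7, -30), (11, 36), (13, 100), (19, -25), (23, -14)])) (.add
    (.mul (.pp [(1, 839880)]) (.sq [(3, -95), (5, 25), (7, 27), (11, -27), (13, 24), (19, -100), (23,
    99)])) (.mul (.pp [(1, 8048640)]) (.sq [(2, 100), (3, 5), (5, -1), (7, 77), (11, -1), (13, -64),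
    (23, -1)])))) (.add (.add (.mul (.pp [(1, 1122720)]) (.sq [(1, -8), (2, 100), (3, -4), (5, -32),
    (11, 3), (13, 22), (19, 1), (23, 5)])) (.mul (.pp [(1, 8798280)]) (.sq [(2, -18), (3, 100), (5,
    -18), (7, -18), (11, 57), (13, -18), (19, -18), (23, -18)]))) (.add (.mul (.pp [(1, 402060)]) (.sq
    [(1, 13), (2, -14), (3, -4), (5, -100), (7, 12), (11, -94), (13, 9), (19, -17), (23, 32)])) (.mul
    (.g 13) (.add (.add (.pp [(1, 96330000000)]) (.add (.mul (.g 10) (.pp [(1, 12887400000)])) (.mul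
    (.g 11) (.pp [(1, 5068200000)])))) (.add (.add (.mul (.g 15) (.pp [(1, 133722000000)])) (.mul (.g
    16) (.pp [(1, 5916000000)]))) (.add (.mul (.g 20) (.pp [(1, 2798520000)])) (.mul (.g 21) (.pp [(1,
    7903680000)]))))))))) (.add (.add (.add (.mul (.g 8) (.add (.add (.mul (.g 2) (.pp [(1,
    96870000000)])) (.add (.mul (.g 7) (.pp [(1, 86949600000)])) (.mul (.g 9) (.pp [(1,
    11432520000)])))) (.add (.mul (.g 16) (.pp [(1, 21540000000)])) (.add (.mul (.g 17) (.pp [(1,
    91799400000)])) (.mul (.g 18) (.pp [(1, 11439600000)])))))) (.mul (.g 1) (.add (.add (.pp [(1,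
    195774000000)]) (.mul (.g 2) (.pp [(1, 168798000000)]))) (.add (.mul (.g 3) (.pp [(1,
    17017200000)])) (.mul (.g 9) (.pp [(1, 6632700000)])))))) (.add (.mul (.g 16) (.add (.mul (.g 0)
    (.pp [(1, 2205390000)])) (.add (.mul (.g 10) (.pp [(1, 45991800000)])) (.mul (.g 19) (.pp [(1,
    21164280000)]))))) (.mul (.g 20) (.add (.pp [(1, 83060160000)]) (.add (.mul (.g 9) (.pp [(1,
    667134000)])) (.mul (.g 19) (.pp [(1, 1108368000)]))))))) (.add (.add (.mul (.g 7) (.add (.pp [(1,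
    284613600000)]) (.mul (.g 21) (.pp [(1, 4064640000)])))) (.mul (.g 18) (.add (.mul (.g 4) (.pp
    [(1, 12423000000)])) (.mul (.g 18) (.pp [(1, 13079400000)]))))) (.add (.mul (.g 3) (.mul (.g 11)
    (.pp [(1, 27431400000)]))) (.mul (.g 12) (.mul (.g 12) (.pp [(1, 95896800000)])))))))) (.mul (.g
    20) (.add (.add (.add (.add (.mul (.pp [(1, 146712)]) (.sq [(1, -6), (2, -15), (3, -83), (5,
    -100), (7, 19), (11, -13), (13, -14), (19, 20), (23, 85)])) (.mul (.pp [(1, 4865496)]) (.sq [(2,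
    -7), (3, 100), (5, -7), (7, -7), (11, -65), (13, -7), (19, -7), (23, -7)]))) (.add (.mul (.pp [(1,
    39360)]) (.sq [(2, 19), (3, 100), (5, -10), (7, 24), (11, -2), (13, 46), (19, -75), (23, 77)]))
    (.mul (.pp [(1, 2628960)]) (.sq [(2, 100), (5, -14), (7, 11), (11, -1), (23, -40)])))) (.add (.add
    (.mul (.pp [(1, 917640)]) (.sq [(1, -56), (2, 3), (3, 100), (5, -42), (7, 37), (11, 5), (13, -65),
    (19, 13), (23, 8)])) (.mul (.pp [(1, 11016)]) (.sq [(1, -16), (2, 34), (3, -31), (5, -12), (7,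
    55), (11, -58), (13, 91), (19, -81), (23, 100)]))) (.add (.mul (.pp [(1, 944664)]) (.sq [(2, -7),
    (3, -31), (5, -76), (7, 100), (11, 39), (13, 43), (19, -10), (23, -33)])) (.add (.mul (.pp [(1,
    518964)]) (.sq [(1, 22), (2, -2), (3, -21), (5, -80), (7, -24), (11, 100), (13, 13), (19, -51),
    (23, 6)])) (.mul (.g 3) (.add (.add (.mul (.g 1) (.pp [(1, 2468880000)])) (.mul (.g 5) (.pp [(1,
    2643000000)]))) (.add (.mul (.g 13) (.pp [(1, 3824280000)])) (.add (.mul (.g 20) (.pp [(1,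
    484200000)])) (.mul (.g 21) (.pp [(1, 81144000)])))))))))) (.add (.add (.add (.mul (.g 13) (.add
    (.add (.mul (.g 5) (.pp [(1, 22749360000)])) (.mul (.g 7) (.pp [(1, 15117840000)]))) (.add (.mul
    (.g 13) (.pp [(1, 11788680000)])) (.mul (.g 16) (.pp [(1, 37197120000)]))))) (.mul (.g 1) (.add
    (.pp [(1, 19419720000)]) (.add (.mul (.g 16) (.pp [(1, 15763200000)])) (.mul (.g 18) (.pp [(1,
    4771680000)])))))) (.add (.mul (.g 20) (.add (.pp [(1, 535632000)]) (.add (.mul (.g 12) (.pp [(1,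
    3530856000)])) (.mul (.g 19) (.pp [(1, 597283200)]))))) (.mul (.g 7) (.add (.mul (.g 16) (.pp [(1,
    29334120000)])) (.mul (.g 18) (.pp [(1, 5377560000)])))))) (.add (.add (.mul (.g 10) (.add (.mul
    (.g 16) (.pp [(1, 30837480000)])) (.mul (.g 18) (.pp [(1, 13032240000)])))) (.mul (.g 5) (.pp [(1,
    12872280000)]))) (.add (.mul (.g 6) (.mul (.g 17) (.pp [(1, 2840760000)]))) (.add (.mul (.g 15)
    (.mul (.g 19) (.pp [(1, 567960000)]))) (.mul (.g 21) (.pp [(1, 814032000)]))))))))) (.add (.mul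
    (.g 1) (.add (.add (.add (.mul (.pp [(1, 1922880)]) (.sq [(1, -16), (2, 100), (3, 88), (5, 11),
    (7, 66), (11, 51), (13, -83), (19, 74), (23, 3)])) (.add (.mul (.pp [(1, 7259100)]) (.sq [(2,
    -14), (3, -29), (5, 2), (7, 35), (11, 100), (13, -21), (19, 23), (23, 19)])) (.mul (.pp [(1,
    2099520)]) (.sq [(1, 61), (2, -13), (3, 8), (5, 100), (7, -40), (11, -17), (13, -42), (19, 8),
    (23, -51)])))) (.add (.mul (.pp [(1, 2294460)]) (.sq [(2, 31), (3, -33), (5, 100), (7, -16), (11,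
    -73), (13, 31), (19, 29), (23, 4)])) (.add (.mul (.pp [(1, 1267080)]) (.sq [(1, 26), (2, 2), (3,
    -51), (5, 77), (11, -24), (13, 100), (19, -77), (23, -26)])) (.mul (.pp [(1, 8529420)]) (.sq [(2,
    100), (3, -71), (11, 70)]))))) (.add (.add (.mul (.pp [(1, 15170520)]) (.sq [(3, -24), (5, -100),
    (7, 47), (11, -35), (13, -31), (19, 47), (23, 39)])) (.add (.mul (.g 16) (.add (.add (.pp [(1,
    39722400000)]) (.mul (.g 0) (.pp [(1, 2782260000)]))) (.add (.mul (.g 2) (.pp [(1, 23314200000)]))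
    (.add (.mul (.g 3) (.pp [(1, 51767400000)])) (.mul (.g 19) (.pp [(1, 27407760000)])))))) (.mul (.g
    13) (.add (.pp [(1, 67605000000)]) (.add (.mul (.g 11) (.pp [(1, 76779600000)])) (.mul (.g 15)
    (.pp [(1, 139341000000)]))))))) (.add (.add (.mul (.g 18) (.add (.pp [(1, 235008600000)]) (.add
    (.mul (.g 4) (.pp [(1, 128920800000)])) (.mul (.g 12) (.pp [(1, 133552800000)]))))) (.mul (.g 0)
    (.add (.pp [(1, 7932450000)]) (.mul (.g 3) (.pp [(1, 2364300000)]))))) (.add (.mul (.g 2) (.add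
    (.mul (.g 4) (.pp [(1, 22435200000)])) (.mul (.g 7) (.pp [(1, 212418000000)])))) (.mul (.g 7) (.pp
    [(1, 227156400000)]))))))) (.mul (.g 10) (.add (.add (.add (.mul (.pp [(1, 595080)]) (.sq [(1,
    -8), (2, -4), (3, 100), (5, 23), (7, 6), (11, 36), (13, -12), (19, 1), (23, -54)])) (.add (.mul
    (.pp [(1, 730860)]) (.sq [(2, 83), (3, -40), (5, -79), (7, 42), (11, -52), (13, 100), (19, -78),
    (23, 1)])) (.mul (.pp [(1, 848160)]) (.sq [(2, 90), (3, -100), (5, 2), (7, -12), (11, 38), (13,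
    -37), (19, -4), (23, 20)])))) (.add (.mul (.pp [(1, 155820)]) (.sq [(1, 20), (2, 54), (3, -15),
    (5, -52), (7, -38), (11, 100), (13, 3), (19, 3), (23, -77)])) (.add (.mul (.pp [(1, 1378260)])
    (.sq [(2, 1), (3, -25), (5, 28), (7, -28), (11, -100), (19, 88), (23, 39)])) (.mul (.pp [(1,
    394440)]) (.sq [(1, 49), (2, -61), (3, -19), (5, -59), (7, 100), (11, 3), (13, -66), (19, -5),
    (23, -34)]))))) (.add (.add (.mul (.g 9) (.add (.pp [(1, 11719530000)]) (.mul (.g 21) (.pp [(1,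
    614772000)])))) (.add (.mul (.g 10) (.add (.mul (.g 4) (.pp [(1, 1229400000)])) (.mul (.g 18) (.pp
    [(1, 1205400000)])))) (.mul (.g 13) (.add (.mul (.g 11) (.pp [(1, 55176600000)])) (.mul (.g 17)
    (.pp [(1, 40439400000)])))))) (.add (.mul (.g 16) (.add (.mul (.g 18) (.pp [(1, 29637000000)]))
    (.mul (.g 19) (.pp [(1, 8172720000)])))) (.add (.mul (.g 0) (.mul (.g 2) (.pp [(1, 5440410000)])))
    (.mul (.g 12) (.pp [(1, 21465000000)]))))))))) (.add (.add (.mul (.g 16) (.add (.add (.add (.mul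
    (.pp [(1, 7720080)]) (.sq [(2, -24), (3, 100), (5, -18), (7, 41), (11, 19), (13, 10), (23, -71)]))
    (.mul (.pp [(1, 811320)]) (.sq [(2, 13), (3, 18), (5, -100), (7, -41), (11, -37), (13, -60), (19,
    4), (23, 87)]))) (.add (.mul (.pp [(1, 2868600)]) (.sq [(1, 7), (2, 11), (3, 69), (5, -100), (7,
    3), (11, 86), (13, 5), (19, 34), (23, -8)])) (.mul (.pp [(1, 391800)]) (.sq [(1, -13), (2, 100),
    (5, 1), (7, -8), (11, 49), (13, -24), (19, -8), (23, -9)])))) (.add (.add (.mul (.g 19) (.add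
    (.add (.mul (.g 6) (.pp [(1, 7206000000)])) (.mul (.g 12) (.pp [(1, 10341120000)]))) (.add (.mul
    (.g 15) (.pp [(1, 72240000)])) (.mul (.g 21) (.pp [(1, 638088000)]))))) (.mul (.g 7) (.add (.mul
    (.g 5) (.pp [(1, 16753200000)])) (.add (.mul (.g 11) (.pp [(1, 78475200000)])) (.mul (.g 21) (.pp
    [(1, 479160000)])))))) (.add (.mul (.g 12) (.add (.mul (.g 5) (.pp [(1, 28939800000)])) (.mul (.g
    17) (.pp [(1, 111257400000)])))) (.mul (.g 21) (.pp [(1, 4640640000)])))))) (.mul (.g 5) (.add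
    (.add (.add (.mul (.pp [(1, 315600)]) (.sq [(1, -34), (2, -24), (3, 32), (5, 80), (7, -100), (11,
    -50), (13, 55), (19, -49), (23, 54)])) (.mul (.pp [(1, 4385100)]) (.sq [(1, -1), (2, 27), (3,
    -21), (5, -73), (7, 9), (11, 100), (13, -5), (19, 35), (23, 12)]))) (.add (.mul (.pp [(1,
    4102620)]) (.sq [(2, 100), (3, 70), (11, -71)])) (.add (.mul (.pp [(1, 421680)]) (.sq [(2, 100),
    (3, -21), (5, -47), (7, 45), (11, -34), (13, 70), (19, -92), (23, -1)])) (.mul (.pp [(1,
    2892420)]) (.sq [(1, -60), (2, -66), (3, -2), (5, 23), (7, 100), (11, -50), (13, 54), (19, 14),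
    (23, -32)]))))) (.add (.add (.mul (.g 0) (.add (.pp [(1, 10473630000)]) (.mul (.g 17) (.pp [(1,
    2441100000)])))) (.mul (.g 4) (.mul (.g 11) (.pp [(1, 2006400000)])))) (.add (.mul (.g 7) (.pp
    [(1, 27130800000)])) (.add (.mul (.g 12) (.pp [(1, 89538600000)])) (.mul (.g 13) (.pp [(1,
    126481200000)])))))))) (.add (.mul (.g 7) (.add (.add (.mul (.pp [(1, 366180)]) (.sq [(1, -39),
    (2, 100), (3, 28), (5, 37), (7, 47), (11, 29), (13, -88), (19, -73), (23, 100)])) (.mul (.pp [(1,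
    2528460)]) (.sq [(5, 71), (7, -100), (19, 71)]))) (.add (.mul (.g 6) (.add (.pp [(1,
    191644200000)]) (.add (.mul (.g 15) (.pp [(1, 163875600000)])) (.mul (.g 18) (.pp [(1,
    5038800000)]))))) (.add (.mul (.g 13) (.add (.pp [(1, 1686000000)]) (.add (.mul (.g 3) (.pp [(1,
    18447600000)])) (.mul (.g 11) (.pp [(1, 63757200000)]))))) (.mul (.g 11) (.mul (.g 21) (.pp [(1,
    6072600000)]))))))) (.add (.mul (.g 21) (.add (.add (.mul (.pp [(1, 47244)]) (.sq [(1, -48), (2,
    -2), (3, -43), (5, 59), (11, -27), (13, 100), (19, -78), (23, -9)])) (.mul (.pp [(1, 546684)])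
    (.sq [(1, 18), (2, -32), (3, 100), (5, -98), (7, -31), (11, -14), (13, -11), (19, 14), (23,
    -4)]))) (.add (.mul (.pp [(1, 371652)]) (.sq [(2, 9), (3, -12), (5, 100), (11, 32), (13, 1), (19,
    -1), (23, -12)])) (.add (.mul (.g 21) (.add (.mul (.g 0) (.pp [(1, 386118000)])) (.add (.mul (.g
    3) (.pp [(1, 394752000)])) (.mul (.g 21) (.pp [(1, 435782400)]))))) (.mul (.g 6) (.mul (.g 11)
    (.pp [(1, 6795600000)]))))))) (.mul (.g 13) (.add (.add (.mul (.pp [(1, 217080)]) (.sq [(1, -2),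
    (2, 39), (3, -15), (5, 100), (7, -13), (11, 88), (13, 66), (19, -61), (23, 23)])) (.add (.mul (.pp
    [(1, 2439900)]) (.sq [(1, 17), (2, 6), (3, 10), (5, -64), (7, -7), (11, -2), (13, 100), (19, -6),
    (23, 9)])) (.mul (.pp [(1, 1013760)]) (.sq [(1, -14), (2, 5), (3, -40), (5, -48), (7, -14), (11,
    72), (13, -100), (19, 84), (23, 13)])))) (.add (.mul (.pp [(1, 13217400000)]) (.sq [(7, 1), (19,
    -1)])) (.add (.mul (.g 6) (.mul (.g 19) (.pp [(1, 959880000)]))) (.mul (.g 11) (.mul (.g 13) (.pp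
    [(1, 53817000000)]))))))))))) (.add (.add (.add (.mul (.g 12) (.add (.mul (.pp [(1, 8807340)])
    (.sq [(1, -32), (2, 37), (3, -43), (5, -9), (7, -11), (11, 52), (13, 100), (19, 32), (23, 8)]))
    (.add (.mul (.pp [(1, 2403420)]) (.sq [(2, 100), (3, 2), (5, -33), (7, -9), (11, 3), (13, -19),
    (19, -26), (23, 50)])) (.mul (.pp [(1, 157980)]) (.sq [(1, 61), (2, -38), (3, 70), (5, 29), (7,
    -4), (11, 45), (13, -48), (19, 36), (23, -100)]))))) (.mul (.g 2) (.add (.mul (.pp [(1, 893580)])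
    (.sq [(1, -8), (2, -17), (3, 36), (5, -89), (7, 41), (11, -86), (13, 100), (19, -21), (23, -3)]))
    (.mul (.g 6) (.mul (.g 6) (.pp [(1, 201986400000)])))))) (.add (.mul (.g 3) (.mul (.pp [(1,
    2058840)]) (.sq [(2, 70), (3, -22), (5, -55), (7, -21), (11, 100), (13, -83), (19, 91), (23,
    -1)]))) (.mul (.g 4) (.mul (.pp [(1, 516600)]) (.sq [(1, 31), (2, -24), (3, -64), (5, 84), (7,
    -5), (11, 61), (13, 97), (19, 32), (23, -100)]))))) (.add (.add (.mul (.g 9) (.mul (.pp [(1,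
    212823)]) (.sq [(1, 38), (2, 30), (3, 83), (5, 16), (7, -39), (11, 35), (13, -100), (19, 21), (23,
    -28)]))) (.mul (.g 15) (.mul (.pp [(1, 3782160)]) (.sq [(1, -40), (2, -26), (3, -52), (5, -16),
    (7, 28), (11, -46), (13, 100), (19, 23), (23, -15)])))) (.add (.mul (.g 17) (.mul (.pp [(1,
    270540)]) (.sq [(1, 6), (2, 32), (3, 84), (5, -100), (7, 19), (11, 2), (13, -24), (19, 23), (23,
    -37)]))) (.add (.mul (.g 18) (.mul (.pp [(1, 854820)]) (.sq [(2, -4), (3, 57), (5, 12), (7, -23),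
    (11, -100), (13, -97), (19, 16), (23, 2)]))) (.mul (.g 19) (.mul (.pp [(1, 2145876)]) (.sq [(1,
    -8), (2, 28), (3, -63), (5, 20), (7, -22), (11, -36), (13, 100), (23, 10)])))))))) (.pp [(1,
    21740076504), (2, 6136764), (3, 5593644), (4, 6198300), (5, 6319968), (6, 5035164), (7, 6227292),
    (8, 6213240), (9, 5571069), (10, 5971344), (11, 5202432), (12, 5896800), (13, 6581016), (14,
    5422812), (15, 6085368), (18, 5292420), (19, 6275124), (20, 6133380), (21, 5177358), (22,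
    5308428), (23, 6540384), (25, 6070680), (26, 6712104), (27, 5722620), (28, 6562080), (30,
    6152640), (33, 5242746), (35, 4956936), (38, 5310348), (39, 7081080), (42, 6358800), (44,
    6932400), (45, 6324600), (46, 6970992), (49, 7005597), (50, 6380760), (52, 6179940), (55,
    5757624), (57, 6537006), (63, 5495040), (65, 6512328), (66, 5579760), (69, 7012128), (70,
    6777960), (75, 5737920), (76, 5321040), (77, 6631326), (78, 6500760), (91, 5296872), (92,
    5667300), (95, 5660112), (98, 5502060), (99, 6510460), (105, 5855520), (110, 6862080), (114,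
    6769440), (115, 6398184), (117, 6232860), (121, 6649665), (125, 6353420), (130, 5870880), (133,
    4938978), (138, 5848080), (143, 6301896), (147, 6294660), (154, 6928200), (161, 4760760), (165,
    5732520), (169, 6098940), (171, 6527460), (175, 6035520), (182, 4348440), (190, 5492160), (195,
    6332640), (207, 6490740), (209, 6591126), (230, 5212320), (231, 5330160), (242, 6341760), (245,
    4821000), (247, 5473272), (253, 6060120), (266, 7094160), (273, 7447200), (275, 6609720), (285,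
    5710680), (286, 5367360), (299, 6505128), (322, 6326400), (325, 5569140), (338, 5831880), (343,
    6343540), (345, 5979360), (361, 6594153), (363, 6124840), (385, 4700760), (399, 7123800), (418,
    5391360), (429, 6128880), (437, 5695896), (455, 6755400), (475, 5958720), (483, 5764920), (494,
    5804760), (506, 6337920), (507, 5556660), (529, 6322164), (539, 6441660), (575, 6137580), (598,
    6579720), (605, 5919900), (627, 6481800), (637, 3564420), (665, 5618760), (715, 5435520), (722,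
    6069000), (741, 5177160), (759, 5976240), (805, 8074080), (845, 5829060), (847, 5296380), (874,
    6030000), (897, 3819600), (931, 6910380), (1001, 6516480), (1045, 6726480), (1058, 5728980),
    (1083, 4948320), (1127, 6458640), (1183, 6039660), (1235, 5897280), (1265, 6809040), (1311,
    6014760), (1331, 6195340), (1463, 5885400), (1495, 6003480), (1573, 5576280), (1587, 5576700),
    (1729, 8536320), (1771, 5861880), (1805, 6919860), (1859, 5968860), (2093, 7900920), (2185,
    5429880), (2197, 5820060), (2299, 6543060), (2527, 5442180), (2645, 5016660), (2717, 6003000),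
    (2783, 6143880), (3059, 4024920), (3211, 6314160), (3289, 5864880), (3703, 5608620), (3887,
    6270840), (3971, 6174360), (4693, 5772120), (4807, 5475480), (5681, 4300920), (5819, 5990520),
    (6859, 5794820), (6877, 5657700), (8303, 7002480), (10051, 6775380), (12167, 6155940)])) (by norm_num)
    (by decide +kernel)

theorem l103 : Ck (gL11 3 []) (pW (vL1 3 0 (hM (Ex.v 11)))) :=
  .mk' 1000000 (.add (.add (.add (.add (.add (.mul (.pp [(1, 5939220)]) (.sq [(1, -11), (2, -40), (3, 19), (5,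
    4), (7, 8), (11, -100), (13, 43), (19, 38), (23, -70)])) (.mul (.pp [(1, 7853460)]) (.sq [(1, 9),
    (2, -88), (3, -100), (5, 28), (7, 4), (11, 50), (13, 82), (19, -1), (23, 3)]))) (.add (.mul (.g
    20) (.add (.add (.add (.mul (.pp [(1, 6216)]) (.sq [(2, 7), (3, 1), (5, 52), (7, -1), (13, 100),
    (19, 18), (23, -83)])) (.add (.mul (.pp [(1, 122940)]) (.sq [(1, -30), (2, 67), (3, 6), (5, 100),
    (7, -11), (11, -59), (13, 17), (19, 17), (23, -7)])) (.mul (.pp [(1, 276732)]) (.sq [(1, -12), (3,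
    -84), (5, 12), (7, 20), (11, 12), (13, 15), (19, -21), (23, 100)])))) (.add (.add (.mul (.pp [(1,
    5584824)]) (.sq [(2, -7), (3, 100), (5, -7), (7, -7), (11, -65), (13, -7), (19, -7), (23, -7)]))
    (.mul (.pp [(1, 164316)]) (.sq [(1, 59), (2, 52), (5, -12), (7, -58), (13, 100), (19, -58), (23,
    -24)]))) (.add (.mul (.pp [(1, 53148)]) (.sq [(1, 90), (2, -47), (3, -94), (5, -100), (7, 63),
    (11, 2), (13, 18), (19, -38), (23, -64)])) (.mul (.pp [(1, 228072)]) (.sq [(2, 63), (3, 87), (5,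
    100), (7, -3), (11, 18), (13, 19), (19, -30), (23, -46)]))))) (.add (.add (.mul (.g 20) (.add
    (.add (.pp [(1, 1713480000)]) (.add (.mul (.g 1) (.pp [(1, 4619064000)])) (.mul (.g 4) (.pp [(1,
    880944000)])))) (.add (.add (.mul (.g 6) (.pp [(1, 2404392000)])) (.mul (.g 8) (.pp [(1,
    1356336000)]))) (.add (.mul (.g 19) (.pp [(1, 266457600)])) (.mul (.g 21) (.pp [(1,
    43204800)])))))) (.add (.mul (.g 8) (.add (.add (.pp [(1, 36410160000)]) (.mul (.g 1) (.pp [(1,
    7947720000)]))) (.add (.mul (.g 4) (.pp [(1, 8403960000)])) (.add (.mul (.g 9) (.pp [(1,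
    2224368000)])) (.mul (.g 19) (.pp [(1, 1175544000)])))))) (.mul (.g 13) (.add (.add (.mul (.g 2)
    (.pp [(1, 701040000)])) (.mul (.g 6) (.pp [(1, 1264200000)]))) (.add (.mul (.g 7) (.pp [(1,
    337800000)])) (.add (.mul (.g 16) (.pp [(1, 7250880000)])) (.mul (.g 17) (.pp [(1,
    6748800000)])))))))) (.add (.add (.mul (.g 11) (.add (.mul (.g 6) (.pp [(1, 1461720000)])) (.add
    (.mul (.g 16) (.pp [(1, 21330000000)])) (.mul (.g 21) (.pp [(1, 575160000)]))))) (.mul (.g 19)
    (.add (.pp [(1, 1054608000)]) (.mul (.g 2) (.pp [(1, 265968000)]))))) (.add (.mul (.g 21) (.add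
    (.pp [(1, 1307904000)]) (.mul (.g 5) (.pp [(1, 680808000)])))) (.mul (.g 3) (.mul (.g 12) (.pp
    [(1, 1005720000)])))))))) (.add (.mul (.g 7) (.add (.add (.add (.mul (.pp [(1, 1098480)]) (.sq
    [(1, 25), (2, -67), (3, 29), (5, 48), (7, -86), (11, 20), (13, 100), (19, -61), (23, 15)])) (.mul
    (.g 16) (.add (.add (.pp [(1, 16084800000)]) (.add (.mul (.g 4) (.pp [(1, 68770800000)])) (.mul
    (.g 8) (.pp [(1, 42637200000)])))) (.add (.mul (.g 10) (.pp [(1, 21483600000)])) (.add (.mul (.g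
    18) (.pp [(1, 48723600000)])) (.mul (.g 19) (.pp [(1, 2841120000)]))))))) (.add (.mul (.g 1) (.add
    (.add (.mul (.g 3) (.pp [(1, 79890600000)])) (.mul (.g 8) (.pp [(1, 17540400000)]))) (.add (.mul
    (.g 11) (.pp [(1, 14835000000)])) (.mul (.g 18) (.pp [(1, 16657200000)]))))) (.mul (.g 7) (.add
    (.mul (.g 12) (.pp [(1, 34879200000)])) (.add (.mul (.g 17) (.pp [(1, 25825800000)])) (.mul (.g
    18) (.pp [(1, 8458800000)]))))))) (.add (.add (.mul (.g 8) (.add (.pp [(1, 152133600000)]) (.add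
    (.mul (.g 8) (.pp [(1, 103296000000)])) (.mul (.g 13) (.pp [(1, 23076000000)]))))) (.mul (.g 10)
    (.add (.pp [(1, 28915800000)]) (.add (.mul (.g 6) (.pp [(1, 49145400000)])) (.mul (.g 11) (.pp
    [(1, 71093400000)])))))) (.add (.mul (.g 21) (.add (.mul (.g 0) (.pp [(1, 300588000)])) (.add
    (.mul (.g 15) (.pp [(1, 3211320000)])) (.mul (.g 18) (.pp [(1, 4752360000)]))))) (.add (.mul (.g
    5) (.mul (.g 17) (.pp [(1, 9504000000)]))) (.mul (.g 6) (.mul (.g 15) (.pp [(1,
    136279200000)])))))))) (.mul (.g 1) (.add (.add (.add (.mul (.pp [(1, 204180)]) (.sq [(1, -77),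
    (2, 79), (3, -29), (5, 100), (7, 81), (11, 37), (13, 58), (19, 42), (23, 98)])) (.mul (.pp [(1,
    171780)]) (.sq [(1, -5), (2, 30), (3, 93), (5, -32), (7, 76), (11, 12), (13, -100), (19, -9), (23,
    28)]))) (.add (.mul (.pp [(1, 3234240)]) (.sq [(1, -21), (2, 2), (3, -12), (5, -100), (7, 26),
    (11, 88), (13, -28), (19, 16), (23, 9)])) (.add (.mul (.pp [(1, 2612760)]) (.sq [(2, -63), (3,
    -41), (5, -39), (7, 84), (11, -12), (13, 25), (19, 70), (23, 100)])) (.mul (.pp [(1, 527400)])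
    (.sq [(2, 100), (3, -65), (5, -79), (7, 26), (11, 32), (13, -25), (19, 90), (23, 41)]))))) (.add
    (.add (.mul (.g 0) (.add (.add (.mul (.g 2) (.pp [(1, 6972870000)])) (.mul (.g 9) (.pp [(1,
    1131900000)]))) (.add (.mul (.g 13) (.pp [(1, 217320000)])) (.add (.mul (.g 15) (.pp [(1,
    756960000)])) (.mul (.g 21) (.pp [(1, 1869960000)])))))) (.add (.mul (.g 18) (.add (.add (.mul (.g
    1) (.pp [(1, 13711200000)])) (.mul (.g 4) (.pp [(1, 170033400000)]))) (.add (.mul (.g 8) (.pp [(1,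
    15310200000)])) (.add (.mul (.g 18) (.pp [(1, 245958600000)])) (.mul (.g 19) (.pp [(1,
    9840000000)])))))) (.mul (.g 4) (.add (.mul (.g 8) (.pp [(1, 592164000000)])) (.mul (.g 11) (.pp
    [(1, 45261600000)])))))) (.add (.mul (.g 3) (.mul (.g 17) (.pp [(1, 54642000000)]))) (.add (.mul
    (.g 12) (.pp [(1, 66223200000)])) (.mul (.g 13) (.mul (.g 21) (.pp [(1, 10795560000)])))))))))))
    (.add (.add (.mul (.g 3) (.add (.add (.add (.mul (.pp [(1, 490080)]) (.sq [(1, 12), (2, 22), (3,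
    -17), (5, -100), (7, 10), (11, 89), (13, 96), (19, -51), (23, 93)])) (.mul (.pp [(1, 1521840)])
    (.sq [(1, 2), (2, -7), (3, -22), (5, -3), (7, -15), (11, 50), (13, -35), (19, 100), (23, -84)])))
    (.add (.mul (.pp [(1, 937800)]) (.sq [(1, -65), (2, -75), (3, -70), (5, 21), (7, -54), (11, 39),
    (13, 100), (19, 79), (23, 31)])) (.mul (.g 5) (.add (.add (.mul (.g 0) (.pp [(1, 4539840000)]))
    (.mul (.g 2) (.pp [(1, 22814400000)]))) (.add (.mul (.g 6) (.pp [(1, 87697200000)])) (.mul (.g 21)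
    (.pp [(1, 6354360000)]))))))) (.add (.add (.mul (.g 6) (.add (.mul (.g 6) (.pp [(1,
    141100200000)])) (.add (.mul (.g 13) (.pp [(1, 38369400000)])) (.mul (.g 21) (.pp [(1,
    1507080000)]))))) (.mul (.g 8) (.add (.mul (.g 8) (.pp [(1, 118727400000)])) (.mul (.g 17) (.pp
    [(1, 48030000000)]))))) (.add (.mul (.g 10) (.add (.pp [(1, 117716400000)]) (.mul (.g 11) (.pp
    [(1, 17316000000)])))) (.mul (.g 16) (.mul (.g 16) (.pp [(1, 2242200000)]))))))) (.mul (.g 16)
    (.add (.add (.mul (.pp [(1, 1879620)]) (.sq [(1, -4), (2, -95), (3, 100), (5, -1), (7, 3), (11,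
    38), (13, 24), (19, -13), (23, -8)])) (.add (.mul (.pp [(1, 533460)]) (.sq [(1, 21), (2, -100),
    (3, -42), (5, 69), (7, -16), (11, 19), (13, 65), (19, -83), (23, 79)])) (.mul (.pp [(1, 368280)])
    (.sq [(1, 100), (2, 65), (3, -16), (5, -16), (7, -70), (11, -23), (13, 65), (19, -70), (23,
    65)])))) (.add (.add (.mul (.g 13) (.add (.add (.pp [(1, 17781600000)]) (.mul (.g 9) (.pp [(1,
    922890000)]))) (.add (.mul (.g 18) (.pp [(1, 8307600000)])) (.mul (.g 19) (.pp [(1,
    4492800000)]))))) (.mul (.g 4) (.add (.mul (.g 8) (.pp [(1, 45112800000)])) (.add (.mul (.g 17)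
    (.pp [(1, 5647200000)])) (.mul (.g 21) (.pp [(1, 6502800000)])))))) (.add (.mul (.g 12) (.add
    (.mul (.g 6) (.pp [(1, 5981400000)])) (.mul (.g 18) (.pp [(1, 6930600000)])))) (.mul (.g 19) (.add
    (.pp [(1, 7306320000)]) (.mul (.g 16) (.pp [(1, 6087720000)]))))))))) (.add (.mul (.g 8) (.add
    (.add (.mul (.pp [(1, 1907340)]) (.sq [(1, -16), (2, 2), (3, 60), (5, 60), (7, -11), (11, 44),
    (13, -34), (19, -21), (23, -100)])) (.add (.mul (.g 13) (.add (.mul (.g 0) (.pp [(1, 138030000)]))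
    (.add (.mul (.g 17) (.pp [(1, 16514400000)])) (.mul (.g 21) (.pp [(1, 2624160000)]))))) (.mul (.g
    9) (.add (.mul (.g 8) (.pp [(1, 9692250000)])) (.mul (.g 19) (.pp [(1, 87840000)])))))) (.add
    (.mul (.g 18) (.add (.mul (.g 18) (.pp [(1, 1617600000)])) (.mul (.g 19) (.pp [(1,
    2564040000)])))) (.add (.mul (.g 4) (.pp [(1, 119053200000)])) (.mul (.g 21) (.mul (.g 21) (.pp
    [(1, 302088000)]))))))) (.add (.mul (.g 5) (.add (.add (.add (.mul (.pp [(1, 2912700)]) (.sq [(2,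
    23), (3, -64), (5, 7), (7, 100), (11, 3), (13, -55), (19, 17), (23, 5)])) (.mul (.pp [(1,
    1033620)]) (.sq [(1, 6), (2, 55), (3, -82), (11, -21), (13, 100), (19, -52)]))) (.add (.mul (.pp
    [(1, 8494080)]) (.sq [(1, 14), (2, -6), (3, 11), (5, -3), (7, 30), (11, -100), (13, -12), (19,
    20), (23, 1)])) (.mul (.pp [(1, 1325280)]) (.sq [(1, 39), (2, -29), (3, 3), (5, 100), (7, 28),
    (11, -22), (13, -64), (19, -21), (23, -31)])))) (.add (.add (.mul (.pp [(1, 2170020)]) (.sq [(1,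
    -21), (2, 10), (3, 21), (5, 30), (7, 57), (11, -100), (13, 40), (19, -12), (23, 66)])) (.mul (.pp
    [(1, 4005360)]) (.sq [(1, -2), (2, -24), (3, 43), (5, -22), (7, 15), (11, -17), (13, 25), (19,
    -20), (23, -100)]))) (.add (.mul (.g 0) (.add (.mul (.g 4) (.pp [(1, 83850000)])) (.mul (.g 21)
    (.pp [(1, 1635018000)])))) (.mul (.g 9) (.mul (.g 9) (.pp [(1, 25956000)]))))))) (.mul (.g 10)
    (.add (.add (.mul (.pp [(1, 259440)]) (.sq [(2, -32), (3, 100), (5, -11), (11, -57), (13, -82),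
    (19, 58), (23, -57)])) (.add (.mul (.pp [(1, 3314100)]) (.sq [(1, -4), (2, -8), (3, -10), (7,
    -74), (11, 50), (13, -37), (19, 100), (23, 10)])) (.mul (.pp [(1, 18780)]) (.sq [(2, -90), (3,
    68), (5, -100), (7, -53), (11, 54), (13, 16), (19, 50), (23, -1)])))) (.add (.mul (.pp [(1,
    93480)]) (.sq [(1, 91), (2, 95), (3, -41), (5, -25), (7, -13), (11, 38), (13, -100), (19, -70),
    (23, 97)])) (.add (.mul (.g 4) (.add (.mul (.g 10) (.pp [(1, 768000000)])) (.mul (.g 17) (.pp [(1,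
    8882400000)])))) (.mul (.g 9) (.add (.mul (.g 0) (.pp [(1, 1125355500)])) (.mul (.g 19) (.pp [(1,
    374568000)])))))))))))) (.add (.add (.add (.mul (.g 21) (.add (.add (.mul (.pp [(1, 755388)]) (.sq
    [(2, -4), (3, 25), (5, 100), (7, -39), (11, -17), (13, 13), (19, -12), (23, -57)])) (.add (.mul
    (.pp [(1, 44352)]) (.sq [(1, -7), (2, -38), (3, -87), (5, -45), (7, 16), (11, 33), (13, 100), (19,
    -11), (23, 72)])) (.mul (.pp [(1, 787728)]) (.sq [(1, 40), (2, -20), (3, -47), (5, 100), (7, -7),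
    (11, 46), (13, -9), (19, -53), (23, -2)])))) (.add (.mul (.pp [(1, 327156)]) (.sq [(1, -1), (2,
    -3), (3, -44), (5, 100), (7, 8), (11, 5), (13, -2), (19, -5), (23, 29)])) (.add (.mul (.g 21)
    (.add (.mul (.g 0) (.pp [(1, 373598400)])) (.mul (.g 21) (.pp [(1, 81134400)])))) (.mul (.g 13)
    (.mul (.g 18) (.pp [(1, 830520000)]))))))) (.mul (.g 13) (.add (.add (.mul (.pp [(1, 5405820)])
    (.sq [(1, -8), (2, -6), (3, 12), (5, -23), (7, -100), (11, -6), (13, 25), (19, 73), (23, 34)]))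
    (.mul (.pp [(1, 442620)]) (.sq [(1, -57), (2, -19), (3, 1), (5, 80), (7, -36), (11, 2), (13, -8),
    (19, 100), (23, -49)]))) (.add (.mul (.pp [(1, 508440)]) (.sq [(2, 100), (3, 8), (5, -35), (7,
    22), (11, -23), (13, -52), (19, 45), (23, -40)])) (.add (.mul (.pp [(1, 299100)]) (.sq [(1, 16),
    (2, 33), (3, 26), (5, 100), (7, -30), (11, -8), (13, -7), (19, -25), (23, -42)])) (.mul (.g 13)
    (.mul (.g 19) (.pp [(1, 1903320000)])))))))) (.add (.mul (.g 6) (.add (.add (.mul (.pp [(1,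
    353520)]) (.sq [(1, -22), (2, 55), (3, 100), (5, -40), (7, 6), (11, -73), (13, -30), (19, 6), (23,
    21)])) (.mul (.pp [(1, 523200)]) (.sq [(2, -85), (3, 32), (5, -100), (7, 14), (11, 32), (13, -23),
    (19, 51), (23, -16)]))) (.add (.mul (.pp [(1, 2472480)]) (.sq [(1, -4), (2, -24), (3, -21), (5,
    -100), (7, 56), (11, 36), (13, 29), (19, -1), (23, -2)])) (.mul (.g 11) (.mul (.g 19) (.pp [(1,
    2043000000)])))))) (.add (.mul (.g 12) (.add (.mul (.pp [(1, 871140)]) (.sq [(1, 1), (2, -15), (3,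
    -67), (5, -49), (7, 9), (11, 100), (13, 4), (19, 8), (23, 29)])) (.add (.mul (.pp [(1, 797640)])
    (.sq [(1, 3), (2, -19), (3, 67), (5, -49), (7, -2), (11, 22), (13, -100), (19, 19), (23, -9)]))
    (.mul (.pp [(1, 82380)]) (.sq [(1, 39), (2, -64), (3, 15), (5, 15), (7, -11), (11, 30), (13, -97),
    (19, -69), (23, 100)]))))) (.mul (.g 0) (.add (.mul (.pp [(1, 151317)]) (.sq [(1, -27), (2, -17),
    (3, -14), (5, 14), (7, -42), (11, 17), (13, -61), (19, 100), (23, -10)])) (.mul (.pp [(1, 15495)])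
    (.sq [(2, -37), (3, -3), (5, -5), (7, -3), (11, 100), (13, 99), (19, -29), (23, 12)]))))))) (.add
    (.add (.mul (.g 18) (.add (.mul (.pp [(1, 2298540)]) (.sq [(1, -45), (2, 100), (3, 6), (5, 4), (7,
    43), (11, -2), (13, -81), (19, -10), (23, 35)])) (.mul (.pp [(1, 2538420)]) (.sq [(1, -84), (2,
    3), (3, 44), (5, -40), (7, 13), (11, -45), (13, -2), (19, 100), (23, -27)])))) (.add (.mul (.g 19)
    (.add (.mul (.pp [(1, 1725960)]) (.sq [(1, 20), (2, 7), (3, -70), (5, 32), (7, 4), (11, 2), (13,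
    100), (19, -1), (23, -25)])) (.mul (.pp [(1, 4027020)]) (.sq [(1, -19), (2, -3), (3, -6), (5,
    -21), (7, 8), (11, -2), (13, 100), (19, -25), (23, 11)])))) (.mul (.g 2) (.mul (.pp [(1, 914340)])
    (.sq [(1, 20), (2, 88), (3, 49), (5, 45), (7, 1), (11, 53), (13, -100), (19, -72), (23, 46)])))))
    (.add (.mul (.g 4) (.mul (.pp [(1, 2476140)]) (.sq [(2, -12), (3, 19), (5, 7), (7, 62), (11, 100),
    (13, -50), (23, -56)]))) (.add (.mul (.g 9) (.mul (.pp [(1, 49269)]) (.sq [(2, 59), (3, 60), (5,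
    28), (7, -46), (11, 100), (13, -73), (19, -3), (23, 8)]))) (.mul (.g 11) (.mul (.pp [(1,
    1138440)]) (.sq [(1, 100), (2, 59), (3, -24), (5, 5), (7, -80), (11, 1), (13, 59), (19, -80), (23,
    59)])))))))) (.pp [(1, 22668357525), (2, 6305010), (3, 6279768), (4, 6335235), (5, 5283180), (6,
    5594814), (7, 4432452), (8, 5637840), (9, 5907591), (10, 6111090), (11, 6300762), (12, 6353880),
    (13, 5390922), (14, 5833074), (15, 6107442), (18, 5783820), (19, 6078564), (20, 5421840), (21,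
    6469854), (22, 6209790), (23, 5841228), (25, 5899707), (26, 6086550), (27, 5928720), (28,
    6185940), (30, 5557680), (33, 5523420), (35, 8143386), (38, 6551424), (39, 5930286), (42,
    5232720), (44, 5926740), (45, 5707980), (46, 6353652), (49, 8068311), (50, 5445720), (52,
    6349620), (55, 7015908), (57, 5671266), (63, 4903140), (65, 5714082), (66, 5972520), (69,
    4564416), (70, 7055760), (75, 5786040), (76, 6783480), (77, 6867228), (78, 5908200), (91,
    5780706), (92, 5799600), (95, 5751702), (98, 6895740), (99, 6007120), (105, 5467800), (110,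
    6142920), (114, 6719040), (115, 6221976), (117, 6124620), (121, 5478681), (125, 6215360), (130,
    6824760), (133, 5944998), (138, 6115200), (143, 5678094), (147, 5362200), (154, 5441040), (161,
    7164624), (165, 6152760), (169, 6465411), (171, 6687840), (175, 6229620), (182, 5314560), (190,
    5668320), (195, 6619320), (207, 6971760), (209, 5451840), (230, 5835960), (231, 7281360), (242,
    5768460), (245, 7092180), (247, 6550512), (253, 5655132), (266, 5432520), (273, 7720800), (275,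
    5823360), (285, 6585840), (286, 6123600), (299, 7502916), (322, 4819080), (325, 6776220), (338,
    6185940), (343, 5527660), (345, 6861360), (361, 5959530), (363, 5969140), (385, 4596120), (399,
    6285240), (418, 6423840), (429, 5889480), (437, 6743880), (455, 4498800), (475, 6311040), (483,
    6684240), (494, 4674000), (506, 6626520), (507, 6137040), (529, 6865020), (539, 5341020), (575,
    5602080), (598, 6920400), (605, 5967180), (627, 5621280), (637, 5028120), (665, 3554040), (715,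
    5370840), (722, 5599500), (741, 4768200), (759, 5070360), (805, 4963680), (845, 5845920), (847,
    6236640), (874, 6238200), (897, 4755480), (931, 5350860), (1001, 5621760), (1045, 6575400), (1058,
    6182220), (1083, 5839680), (1127, 5757240), (1183, 5544180), (1235, 6501120), (1265, 5969760),
    (1311, 6452400), (1331, 6189760), (1463, 6282840), (1495, 5350320), (1573, 6187440), (1587,
    6030060), (1729, 7628040), (1771, 5448360), (1805, 6318180), (1859, 5935620), (2093, 7218720),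
    (2185, 6609240), (2197, 6099180), (2299, 6219540), (2527, 5941020), (2645, 5752440), (2717,
    6398880), (2783, 5824920), (3059, 5350560), (3211, 6182640), (3289, 6724920), (3703, 4695180),
    (3887, 6170160), (3971, 5680800), (4693, 5728860), (4807, 6269040), (5681, 4249680), (5819,
    7071720), (6859, 6418380), (6877, 5825520), (8303, 5556300), (10051, 5756460), (12167, 6141080)])) (by norm_num)
    (by decide +kernel)

theorem l104 : Ck (gL11 4 []) (pW (vL1 4 0 (hM (Ex.v 11)))) :=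
  .mk' 1000000 (.add (.add (.add (.add (.add (.mul (.pp [(1, 435000)]) (.sq [(1, -14), (2, -30), (3, -50), (5,
    -19), (7, -69), (11, 100), (13, 83), (19, -21), (23, 79)])) (.mul (.g 20) (.add (.add (.add (.mul
    (.pp [(1, 185388)]) (.sq [(1, -25), (2, 100), (3, -73), (5, 15), (7, -2), (11, 4), (13, 56), (19,
    31), (23, -32)])) (.add (.mul (.pp [(1, 411768)]) (.sq [(1, -17), (2, -60), (3, -24), (5, -78),
    (7, 13), (11, -9), (13, 100), (19, 1), (23, 23)])) (.mul (.pp [(1, 248628)]) (.sq [(2, -100), (3,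
    -1), (5, 24), (7, 1), (11, -4), (13, 28), (19, 61), (23, -80)])))) (.add (.mul (.pp [(1,
    5879100)]) (.sq [(2, -7), (3, 100), (5, -7), (7, -7), (11, -65), (13, -7), (19, -7), (23, -7)]))
    (.add (.mul (.g 8) (.add (.add (.pp [(1, 33724560000)]) (.add (.mul (.g 0) (.pp [(1, 422436000)]))
    (.mul (.g 3) (.pp [(1, 13071120000)])))) (.add (.mul (.g 9) (.pp [(1, 2097714000)])) (.add (.mul
    (.g 19) (.pp [(1, 1745256000)])) (.mul (.g 21) (.pp [(1, 725616000)])))))) (.mul (.g 13) (.add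
    (.add (.pp [(1, 5965920000)]) (.mul (.g 2) (.pp [(1, 16888920000)]))) (.add (.mul (.g 3) (.pp [(1,
    7086120000)])) (.add (.mul (.g 7) (.pp [(1, 14650320000)])) (.mul (.g 11) (.pp [(1,
    362880000)]))))))))) (.add (.add (.mul (.g 16) (.add (.add (.mul (.g 2) (.pp [(1, 4895520000)]))
    (.mul (.g 3) (.pp [(1, 579360000)]))) (.add (.mul (.g 10) (.pp [(1, 5200800000)])) (.add (.mul (.g
    16) (.pp [(1, 958800000)])) (.mul (.g 21) (.pp [(1, 528504000)])))))) (.add (.mul (.g 20) (.add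
    (.pp [(1, 4219200000)]) (.add (.mul (.g 7) (.pp [(1, 271344000)])) (.mul (.g 19) (.pp [(1,
    153139200)]))))) (.mul (.g 1) (.add (.pp [(1, 32047080000)]) (.mul (.g 15) (.pp [(1,
    24747120000)])))))) (.add (.add (.mul (.g 5) (.add (.mul (.g 3) (.pp [(1, 14215920000)])) (.mul
    (.g 21) (.pp [(1, 126720000)])))) (.mul (.g 6) (.add (.pp [(1, 14248800000)]) (.mul (.g 7) (.pp
    [(1, 12726240000)]))))) (.add (.mul (.g 18) (.add (.mul (.g 17) (.pp [(1, 3250080000)])) (.mul (.g
    21) (.pp [(1, 98760000)])))) (.mul (.g 10) (.pp [(1, 9765360000)])))))))) (.add (.mul (.g 1) (.add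
    (.add (.add (.mul (.pp [(1, 4512180)]) (.sq [(1, 1), (2, 6), (3, 32), (5, 100), (7, -53), (11,
    -4), (13, 59), (19, -42), (23, -38)])) (.add (.mul (.pp [(1, 1239960)]) (.sq [(2, -100), (3, 14),
    (5, 44), (7, -4), (11, 24), (13, -39), (19, 70), (23, -93)])) (.mul (.pp [(1, 2825100)]) (.sq [(2,
    -17), (3, 100), (5, 29), (7, 10), (11, 16), (13, -34), (19, -94), (23, -5)])))) (.add (.mul (.pp
    [(1, 452340)]) (.sq [(1, -87), (2, 63), (3, 49), (5, -100), (7, 32), (13, 61), (19, 65), (23,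
    -2)])) (.add (.mul (.pp [(1, 1450140)]) (.sq [(2, -83), (3, -35), (5, -41), (7, 23), (11, 61),
    (13, -2), (19, -6), (23, 100)])) (.mul (.pp [(1, 3835200)]) (.sq [(1, -29), (2, -43), (3, 100),
    (5, -31), (11, 34), (13, -90), (19, 37), (23, -6)]))))) (.add (.add (.mul (.pp [(1, 11177580)])
    (.sq [(1, 18), (2, -14), (3, -77), (5, 11), (7, -26), (11, 100), (13, 6), (19, 6), (23, -9)]))
    (.add (.mul (.g 4) (.add (.add (.mul (.g 2) (.pp [(1, 49468800000)])) (.mul (.g 3) (.pp [(1,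
    113875200000)]))) (.add (.mul (.g 8) (.pp [(1, 640411800000)])) (.mul (.g 18) (.pp [(1,
    77653800000)]))))) (.mul (.g 0) (.add (.mul (.g 9) (.pp [(1, 72703500)])) (.add (.mul (.g 15) (.pp
    [(1, 8527830000)])) (.mul (.g 21) (.pp [(1, 2015340000)]))))))) (.add (.add (.mul (.g 13) (.add
    (.pp [(1, 9930600000)]) (.add (.mul (.g 9) (.pp [(1, 568710000)])) (.mul (.g 11) (.pp [(1,
    43962600000)]))))) (.mul (.g 19) (.add (.pp [(1, 1276080000)]) (.add (.mul (.g 9) (.pp [(1,
    975234000)])) (.mul (.g 18) (.pp [(1, 17401800000)])))))) (.add (.mul (.g 3) (.mul (.g 15) (.pp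
    [(1, 69361200000)]))) (.mul (.g 18) (.mul (.g 18) (.pp [(1, 326698800000)])))))))) (.add (.mul (.g
    6) (.add (.add (.add (.mul (.pp [(1, 3945060)]) (.sq [(2, 63), (3, -70), (5, 9), (7, 16), (11,
    -82), (13, -13), (19, 52), (23, 100)])) (.mul (.pp [(1, 577440)]) (.sq [(2, -100), (3, 88), (5,
    2), (7, -21), (11, 60), (13, 11), (19, 18), (23, 5)]))) (.add (.mul (.pp [(1, 2285460)]) (.sq [(1,
    1), (2, 32), (3, -3), (5, 51), (7, -43), (11, -100), (13, -28), (19, -61), (23, 93)])) (.add (.mul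
    (.pp [(1, 1427580)]) (.sq [(1, -6), (2, -32), (3, -100), (5, 15), (7, 15), (11, 27), (13, 89),
    (19, 37), (23, 25)])) (.mul (.pp [(1, 514200)]) (.sq [(1, -2), (2, -88), (3, 39), (5, 29), (7, 3),
    (11, -25), (13, -43), (19, 100), (23, 58)]))))) (.add (.add (.mul (.pp [(1, 1260720)]) (.sq [(2,
    38), (3, 28), (5, -37), (7, 71), (11, 39), (13, -100), (19, -9), (23, 62)])) (.add (.mul (.g 9)
    (.add (.add (.mul (.g 0) (.pp [(1, 108747000)])) (.mul (.g 7) (.pp [(1, 5475120000)]))) (.add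
    (.mul (.g 10) (.pp [(1, 451080000)])) (.mul (.g 19) (.pp [(1, 717822000)]))))) (.mul (.g 21) (.add
    (.add (.mul (.g 2) (.pp [(1, 6180240000)])) (.mul (.g 3) (.pp [(1, 750840000)]))) (.add (.mul (.g
    13) (.pp [(1, 1423920000)])) (.mul (.g 16) (.pp [(1, 214080000)]))))))) (.add (.mul (.g 13) (.add
    (.pp [(1, 84348600000)]) (.mul (.g 2) (.pp [(1, 11651400000)])))) (.add (.mul (.g 16) (.add (.mul
    (.g 8) (.pp [(1, 14103000000)])) (.mul (.g 19) (.pp [(1, 3822720000)])))) (.mul (.g 17) (.mul (.g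
    18) (.pp [(1, 20135400000)])))))))) (.mul (.g 4) (.add (.add (.add (.mul (.pp [(1, 878160)]) (.sq
    [(2, -36), (3, -75), (5, 43), (7, 65), (11, -57), (13, 100), (19, 6), (23, -55)])) (.mul (.pp [(1,
    611580)]) (.sq [(1, 2), (2, -24), (3, 70), (5, 83), (7, 2), (11, -61), (13, 73), (19, 9), (23,
    -100)]))) (.add (.mul (.pp [(1, 156077400000)]) (.sq [(19, -1), (23, 1)])) (.mul (.pp [(1,
    3624720)]) (.sq [(2, -7), (3, -23), (5, 12), (7, 63), (11, 100), (13, 18), (19, -27), (23,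
    -37)])))) (.add (.add (.mul (.pp [(1, 2064720)]) (.sq [(2, 2), (3, 2), (5, -30), (7, 100), (11,
    2), (13, 2), (19, -43), (23, -43)])) (.mul (.g 7) (.add (.add (.pp [(1, 63670200000)]) (.mul (.g
    5) (.pp [(1, 28329000000)]))) (.add (.mul (.g 8) (.pp [(1, 52704000000)])) (.add (.mul (.g 10)
    (.pp [(1, 2274600000)])) (.mul (.g 19) (.pp [(1, 6089280000)]))))))) (.add (.mul (.g 8) (.add
    (.add (.pp [(1, 179910000000)]) (.mul (.g 5) (.pp [(1, 46288800000)]))) (.add (.mul (.g 8) (.pp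
    [(1, 131829000000)])) (.mul (.g 16) (.pp [(1, 42031800000)]))))) (.add (.mul (.g 5) (.add (.mul
    (.g 0) (.pp [(1, 1489950000)])) (.mul (.g 10) (.pp [(1, 69024000000)])))) (.mul (.g 16) (.add
    (.mul (.g 16) (.pp [(1, 16944000000)])) (.mul (.g 21) (.pp [(1, 6681600000)])))))))))))) (.add
    (.add (.mul (.g 13) (.add (.add (.add (.mul (.pp [(1, 1230180)]) (.sq [(1, -4), (2, 19), (3, -7),
    (5, -65), (7, 26), (11, -94), (13, 100), (19, 38), (23, -29)])) (.mul (.pp [(1, 1680)]) (.sq [(1,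
    5), (2, 91), (3, 17), (5, 42), (7, -50), (11, 38), (13, -100), (19, 7), (23, 18)]))) (.add (.mul
    (.pp [(1, 2517840)]) (.sq [(2, -28), (3, 100), (5, -9), (7, -1), (11, -10), (13, 11), (19, 19),
    (23, -97)])) (.add (.mul (.pp [(1, 368460)]) (.sq [(2, 39), (3, 24), (5, -85), (7, -30), (11, 18),
    (13, -100), (19, 82), (23, 4)])) (.mul (.pp [(1, 46009800000)]) (.sq [(7, 1), (19, -1)]))))) (.add
    (.add (.mul (.g 16) (.add (.mul (.g 5) (.pp [(1, 16136400000)])) (.add (.mul (.g 16) (.pp [(1,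
    10222200000)])) (.mul (.g 21) (.pp [(1, 8204280000)]))))) (.add (.mul (.g 3) (.add (.mul (.g 7)
    (.pp [(1, 5588400000)])) (.mul (.g 10) (.pp [(1, 24397800000)])))) (.mul (.g 8) (.mul (.g 21) (.pp
    [(1, 2024280000)]))))) (.add (.mul (.g 10) (.mul (.g 18) (.pp [(1, 32296800000)]))) (.add (.mul
    (.g 11) (.mul (.g 11) (.pp [(1, 24465000000)]))) (.mul (.g 13) (.mul (.g 17) (.pp [(1,
    34247400000)])))))))) (.mul (.g 21) (.add (.add (.add (.mul (.pp [(1, 545244)]) (.sq [(2, 100),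
    (3, 17), (5, 5), (7, 40), (11, -62), (13, -4), (19, -71), (23, 19)])) (.mul (.pp [(1, 327588)])
    (.sq [(2, 100), (3, -20), (7, -92), (11, 3), (13, 29), (19, 58), (23, 21)]))) (.add (.mul (.pp
    [(1, 1197924)]) (.sq [(2, -5), (3, 18), (5, 100), (7, -14), (11, -17), (13, -2), (19, -9), (23,
    12)])) (.mul (.pp [(1, 370032)]) (.sq [(1, -17), (2, 4), (3, 93), (5, -100), (7, -31), (11, -5),
    (13, 73), (19, -36), (23, 22)])))) (.add (.add (.mul (.g 8) (.add (.mul (.g 12) (.pp [(1,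
    7121040000)])) (.add (.mul (.g 16) (.pp [(1, 7812840000)])) (.mul (.g 18) (.pp [(1,
    3227880000)]))))) (.mul (.g 21) (.add (.mul (.g 0) (.pp [(1, 735193200)])) (.mul (.g 21) (.pp [(1,
    172320000)]))))) (.add (.mul (.g 7) (.mul (.g 18) (.pp [(1, 1448640000)]))) (.mul (.g 10) (.mul
    (.g 16) (.pp [(1, 3706320000)])))))))) (.add (.mul (.g 10) (.add (.add (.mul (.pp [(1, 50760)])
    (.sq [(1, 19), (3, 35), (5, 66), (7, -10), (11, -13), (13, -100), (19, 27), (23, -3)])) (.add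
    (.mul (.pp [(1, 504960)]) (.sq [(2, 32), (3, 100), (5, -19), (11, -5), (13, 40), (19, -98), (23,
    27)])) (.mul (.pp [(1, 3923280)]) (.sq [(1, 7), (2, -53), (3, 4), (5, -19), (7, -8), (11, -100),
    (13, 26), (19, 82), (23, -20)])))) (.add (.add (.mul (.pp [(1, 580260)]) (.sq [(1, -31), (2, -28),
    (3, -78), (5, -16), (7, 60), (11, 100), (13, 14), (19, -22), (23, -48)])) (.mul (.pp [(1,
    919080)]) (.sq [(2, -34), (3, 10), (5, 74), (7, -59), (11, -69), (13, 100), (19, -13), (23,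
    -66)]))) (.add (.mul (.pp [(1, 1049100)]) (.sq [(1, -55), (2, -26), (3, 75), (5, -22), (7, -43),
    (11, 3), (13, 67), (19, 14), (23, -100)])) (.mul (.g 19) (.add (.mul (.g 9) (.pp [(1,
    157596000)])) (.mul (.g 18) (.pp [(1, 4703040000)])))))))) (.add (.mul (.g 12) (.add (.add (.mul
    (.pp [(1, 503100)]) (.sq [(1, -82), (2, 100), (3, 64), (5, 6), (7, 20), (11, -94), (13, 65), (19,
    48), (23, -22)])) (.add (.mul (.pp [(1, 5611800)]) (.sq [(1, 23), (2, 38), (3, -100), (5, -21),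
    (7, -18), (11, -18), (13, 33), (19, 42), (23, -7)])) (.mul (.pp [(1, 1976340)]) (.sq [(1, 52), (2,
    -23), (3, 32), (5, 100), (7, -27), (11, -16), (13, -13), (19, -7), (23, -70)])))) (.add (.add
    (.mul (.pp [(1, 3119640)]) (.sq [(1, -28), (2, -16), (3, 100), (5, -54), (7, -38), (11, -54), (13,
    76), (19, 28), (23, -37)])) (.mul (.pp [(1, 1660560)]) (.sq [(1, -32), (2, 12), (3, -38), (5, 55),
    (7, -24), (11, 12), (13, 100), (19, -31), (23, 23)]))) (.add (.mul (.pp [(1, 122940)]) (.sq [(1,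
    46), (2, 41), (3, 92), (5, 100), (7, -64), (11, 3), (13, -51), (19, -32), (23, 22)])) (.mul (.g
    16) (.add (.mul (.g 17) (.pp [(1, 126481200000)])) (.mul (.g 19) (.pp [(1, 7038480000)]))))))))
    (.mul (.g 5) (.add (.add (.mul (.pp [(1, 4140)]) (.sq [(1, -93), (2, 6), (3, -19), (5, -72), (7,
    45), (11, 13), (13, 100), (19, -18), (23, 38)])) (.add (.mul (.pp [(1, 85440)]) (.sq [(2, -25),
    (3, -60), (5, 39), (7, -75), (11, 5), (13, 100), (19, -29), (23, -41)])) (.mul (.pp [(1, 16320)])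
    (.sq [(1, 13), (2, -55), (3, 100), (11, 53), (13, -97)])))) (.add (.add (.mul (.pp [(1, 1054140)])
    (.sq [(1, -2), (2, -80), (3, 7), (5, -28), (7, 1), (11, -95), (13, 12), (19, 100), (23, 14)]))
    (.mul (.pp [(1, 341880)]) (.sq [(1, 3), (2, -18), (3, 78), (5, 76), (7, 83), (11, -79), (13, -27),
    (19, -100), (23, -44)]))) (.add (.mul (.pp [(1, 6310500)]) (.sq [(1, -1), (2, -43), (3, -68), (5,
    11), (7, 15), (11, 100), (13, 12), (19, -4), (23, -92)])) (.mul (.g 0) (.mul (.g 9) (.pp [(1,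
    1208040000)]))))))))))) (.add (.add (.add (.mul (.g 8) (.add (.add (.mul (.pp [(1, 576180)]) (.sq
    [(1, -17), (2, -74), (3, 34), (5, 57), (7, 28), (11, 81), (13, -84), (19, -18), (23, 100)])) (.mul
    (.pp [(1, 1730700)]) (.sq [(2, -18), (3, 100), (5, -18), (7, -18), (11, 57), (13, -18), (19, -18),
    (23, -18)]))) (.add (.mul (.pp [(1, 1037400)]) (.sq [(1, -24), (2, 73), (3, -24), (5, 15), (7,
    -34), (11, 100), (13, 5), (19, 3), (23, 31)])) (.add (.mul (.g 8) (.add (.mul (.g 3) (.pp [(1,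
    2901000000)])) (.mul (.g 9) (.pp [(1, 10587840000)])))) (.mul (.g 16) (.mul (.g 19) (.pp [(1,
    4102800000)]))))))) (.mul (.g 7) (.add (.mul (.pp [(1, 375060)]) (.sq [(1, -28), (2, -29), (3,
    -44), (7, 6), (11, 100), (13, 33), (19, -35), (23, -83)])) (.add (.mul (.g 19) (.add (.mul (.g 3)
    (.pp [(1, 9513720000)])) (.mul (.g 16) (.pp [(1, 141360000)])))) (.mul (.g 9) (.mul (.g 9) (.pp
    [(1, 153357000)]))))))) (.add (.mul (.g 16) (.add (.mul (.pp [(1, 469560)]) (.sq [(1, -21), (2,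
    -26), (3, -100), (5, -47), (7, 78), (11, 29), (13, -43), (19, 78), (23, 37)])) (.add (.mul (.pp
    [(1, 586920)]) (.sq [(2, 2), (3, 5), (5, -76), (7, 67), (11, -100), (13, -23), (19, 13), (23,
    -11)])) (.mul (.pp [(1, 1465380)]) (.sq [(1, -18), (2, 100), (3, -87), (5, -18), (7, -21), (11,
    55), (13, 7), (19, -10), (23, 33)]))))) (.add (.mul (.g 3) (.add (.mul (.pp [(1, 228060)]) (.sq
    [(1, 17), (2, -89), (3, 84), (5, 23), (7, -97), (11, 46), (13, 100), (19, -80), (23, 66)])) (.mul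
    (.pp [(1, 995700)]) (.sq [(1, -3), (2, 9), (3, -59), (5, 49), (7, 14), (11, 6), (13, 100), (19,
    8), (23, -23)])))) (.mul (.g 9) (.add (.mul (.pp [(1, 40131)]) (.sq [(1, 14), (2, -2), (3, 39),
    (5, -46), (7, 5), (11, 100), (13, -94), (19, 26), (23, -3)])) (.mul (.pp [(1, 25197)]) (.sq [(2,
    66), (3, 13), (5, -100), (7, 47), (13, -100), (19, 21), (23, 24)]))))))) (.add (.add (.mul (.g 19)
    (.add (.mul (.pp [(1, 901512)]) (.sq [(1, -16), (2, 7), (3, -55), (5, 3), (7, -47), (11, 28), (13,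
    100), (19, -13), (23, 64)])) (.mul (.pp [(1, 3813696)]) (.sq [(1, -3), (2, 9), (3, -17), (5, -9),
    (7, -11), (11, 7), (13, 100), (23, -9)])))) (.add (.mul (.g 0) (.mul (.pp [(1, 24780)]) (.sq [(1,
    -58), (2, 96), (3, -17), (5, 98), (7, 27), (11, 1), (13, -100), (19, 63), (23, -17)]))) (.mul (.g
    2) (.mul (.pp [(1, 529020)]) (.sq [(1, 12), (2, -58), (3, -97), (5, 90), (7, -62), (11, 79), (13,
    100), (19, -52), (23, 49)]))))) (.add (.mul (.g 11) (.mul (.pp [(1, 1011840)]) (.sq [(1, 13), (2,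
    -69), (3, -100), (5, 4), (7, -6), (11, -11), (13, 52), (19, 62), (23, -24)]))) (.add (.mul (.g 15)
    (.mul (.pp [(1, 1160040)]) (.sq [(2, -86), (3, -20), (5, 2), (7, -2), (11, 100), (13, 51), (19,
    -7), (23, 7)]))) (.mul (.g 17) (.mul (.pp [(1, 295620)]) (.sq [(2, -61), (3, 16), (5, 10), (7,
    -93), (11, 100), (13, 61), (19, 48), (23, 16)])))))))) (.pp [(1, 14914713564), (2, 5530320), (3,
    5953296), (4, 5836104), (5, 6149400), (6, 6484776), (7, 5105652), (8, 6468360), (9, 5992752), (10,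
    7271112), (11, 5956788), (12, 5810160), (13, 5715888), (14, 5388336), (15, 7086372), (18,
    6336240), (19, 6840132), (20, 6352740), (21, 5979216), (22, 4778880), (23, 6664884), (25,
    6132840), (26, 6763368), (27, 6119520), (28, 6149040), (30, 5600400), (33, 6130200), (35,
    5783028), (38, 7924380), (39, 5795292), (42, 6131400), (44, 6160680), (45, 6453540), (46,
    4850940), (49, 6870564), (50, 6038400), (52, 5449200), (55, 5868792), (57, 4865826), (63,
    6618360), (65, 5149200), (66, 5368320), (69, 6018030), (70, 4658880), (75, 5523600), (76,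
    5509800), (77, 7459032), (78, 4512480), (91, 6124260), (92, 6457680), (95, 6407016), (98,
    6454140), (99, 5891440), (105, 5365200), (110, 6410280), (114, 5143200), (115, 6137124), (117,
    6025740), (121, 6403800), (125, 5955500), (130, 5356560), (133, 4662510), (138, 6529680), (143,
    5391960), (147, 7278660), (154, 4267920), (161, 3926394), (165, 5835240), (169, 6112464), (171,
    6328920), (175, 6290880), (182, 7323000), (190, 5851560), (195, 6079440), (207, 5546760), (209,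
    5955048), (230, 6320640), (231, 5934240), (242, 6423780), (245, 6120000), (247, 6477264), (253,
    5827728), (266, 6297000), (273, 5174520), (275, 6168900), (285, 5397480), (286, 6384000), (299,
    5640540), (322, 7312200), (325, 5814840), (338, 5381340), (343, 7131740), (345, 6187800), (361,
    5196579), (363, 6251380), (385, 5301960), (399, 3923760), (418, 7056240), (429, 6741000), (437,
    6873684), (455, 4895880), (475, 6458940), (483, 5505600), (494, 5215200), (506, 7106760), (507,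
    5943240), (529, 6653973), (539, 4809840), (575, 5775600), (598, 5178120), (605, 6231600), (627,
    5562480), (637, 5304420), (665, 5821440), (715, 5673720), (722, 6001200), (741, 7110960), (759,
    5546760), (805, 5802240), (845, 6973140), (847, 4540860), (874, 5303760), (897, 6395400), (931,
    4391280), (1001, 5952480), (1045, 6501960), (1058, 5277840), (1083, 7850700), (1127, 4490940),
    (1183, 6653280), (1235, 7318200), (1265, 6226080), (1311, 6154080), (1331, 5638720), (1463,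
    8974920), (1495, 6409560), (1573, 6158940), (1587, 6057900), (1729, 5469000), (1771, 6322440),
    (1805, 5445240), (1859, 6396480), (2093, 7003320), (2185, 5873880), (2197, 6382740), (2299,
    6708840), (2527, 7752660), (2645, 6062280), (2717, 6351960), (2783, 7267680), (3059, 7858920),
    (3211, 5340120), (3289, 5649120), (3703, 7158180), (3887, 5917740), (3971, 4129020), (4693,
    5932020), (4807, 4966680), (5681, 6063480), (5819, 5924340), (6859, 5700260), (6877, 5672580),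
    (8303, 5195880), (10051, 5629680), (12167, 5972840)])) (by norm_num)
    (by decide +kernel)

theorem g00 : Ck (gG01 []) (pW (vG1 0 (hA (Ex.v 13) (Ex.v 23)))) :=
  .mk' 1000000 (.add (.add (.add (.add (.add (.mul (.pp [(1, 3987180)]) (.sq [(1, 58), (2, 8), (3, -20), (5,
    -26), (7, 65), (11, -100), (13, -39), (19, -49), (23, -28)])) (.add (.mul (.pp [(1, 4025100)])
    (.sq [(1, 40), (2, 60), (3, -60), (5, 24), (7, 40), (11, -100), (13, 71), (19, -60)])) (.mul (.g
    8) (.add (.add (.add (.mul (.pp [(1, 138600)]) (.sq [(1, -10), (2, 100), (3, -60), (5, 31), (7,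
    -8), (11, 29), (13, -10), (19, -14), (23, 9)])) (.add (.mul (.pp [(1, 207060)]) (.sq [(2, 100),
    (3, 43), (5, -23), (7, -23), (11, 43), (13, -23), (19, -23), (23, -23)])) (.mul (.pp [(1,
    877260)]) (.sq [(2, 59), (3, 1), (5, -77), (7, 14), (13, 100), (19, -2), (23, -2)])))) (.add (.add
    (.mul (.pp [(1, 340020)]) (.sq [(1, -8), (2, -11), (3, 100), (5, 12), (7, 65), (11, 59), (13, 37),
    (19, -75), (23, 40)])) (.mul (.pp [(1, 3219600)]) (.sq [(1, 63), (2, -27), (3, 35), (5, 2), (7,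
    -100), (11, 39), (13, 27), (19, 15), (23, 26)]))) (.add (.mul (.g 14) (.add (.add (.pp [(1,
    145340400000)]) (.add (.mul (.g 2) (.pp [(1, 27407400000)])) (.mul (.g 4) (.pp [(1,
    5677200000)])))) (.add (.mul (.g 7) (.pp [(1, 967800000)])) (.add (.mul (.g 21) (.pp [(1,
    9724200000)])) (.mul (.g 22) (.pp [(1, 7305000000)])))))) (.mul (.g 7) (.add (.add (.mul (.g 3)
    (.pp [(1, 215115000000)])) (.mul (.g 8) (.pp [(1, 42801600000)]))) (.add (.mul (.g 20) (.pp [(1,
    16735680000)])) (.mul (.g 22) (.pp [(1, 4233720000)])))))))) (.add (.add (.mul (.g 8) (.add (.mul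
    (.g 9) (.pp [(1, 160694400000)])) (.add (.mul (.g 17) (.pp [(1, 170005800000)])) (.mul (.g 18)
    (.pp [(1, 102326400000)]))))) (.add (.mul (.g 1) (.add (.pp [(1, 621616200000)]) (.mul (.g 4) (.pp
    [(1, 24949800000)])))) (.mul (.g 3) (.add (.mul (.g 3) (.pp [(1, 45303000000)])) (.mul (.g 19)
    (.pp [(1, 3544800000)])))))) (.add (.add (.mul (.g 9) (.add (.mul (.g 10) (.pp [(1,
    15197400000)])) (.mul (.g 13) (.pp [(1, 43050000000)])))) (.mul (.g 20) (.add (.mul (.g 18) (.pp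
    [(1, 22702440000)])) (.mul (.g 20) (.pp [(1, 11797968000)]))))) (.add (.mul (.g 22) (.add (.mul
    (.g 2) (.pp [(1, 1264320000)])) (.mul (.g 19) (.pp [(1, 4841520000)])))) (.mul (.g 10) (.mul (.g
    17) (.pp [(1, 21981000000)])))))))))) (.add (.mul (.g 21) (.add (.add (.add (.mul (.pp [(1,
    22348800)]) (.sq [(2, -2), (3, 50), (5, -5), (7, -5), (11, -2), (13, -33), (19, -5), (23, -5)]))
    (.add (.mul (.pp [(1, 159636)]) (.sq [(1, 77), (2, -6), (3, -100), (5, -21), (7, 44), (11, -29),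
    (13, 13), (19, -96), (23, 79)])) (.mul (.pp [(1, 53124)]) (.sq [(1, -30), (2, -34), (3, 12), (5,
    -100), (7, -1), (11, 39), (13, 30), (19, 43), (23, 76)])))) (.add (.add (.mul (.pp [(1, 412524)])
    (.sq [(2, 15), (3, -8), (5, -64), (7, 38), (11, 100), (13, -13), (19, -34), (23, 48)])) (.mul (.pp
    [(1, 66828)]) (.sq [(1, -8), (2, 89), (3, -100), (5, -21), (7, -3), (11, 33), (13, -57), (19, -2),
    (23, -4)]))) (.add (.mul (.pp [(1, 11865600000)]) (.sq [(2, 1), (11, -1)])) (.mul (.pp [(1,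
    56328)]) (.sq [(2, -10), (3, 12), (5, 92), (7, 46), (11, -49), (13, -61), (19, -60), (23,
    100)]))))) (.add (.add (.mul (.g 1) (.add (.pp [(1, 22038960000)]) (.add (.mul (.g 5) (.pp [(1,
    4647960000)])) (.mul (.g 20) (.pp [(1, 2756544000)]))))) (.add (.mul (.g 9) (.add (.mul (.g 5)
    (.pp [(1, 3448560000)])) (.add (.mul (.g 10) (.pp [(1, 4302120000)])) (.mul (.g 22) (.pp [(1,
    557856000)]))))) (.mul (.g 14) (.add (.mul (.g 3) (.pp [(1, 3927480000)])) (.add (.mul (.g 11)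
    (.pp [(1, 127008000)])) (.mul (.g 18) (.pp [(1, 8810280000)]))))))) (.add (.add (.mul (.g 10)
    (.add (.pp [(1, 48285960000)]) (.mul (.g 11) (.pp [(1, 1674870000)])))) (.mul (.g 17) (.add (.mul
    (.g 7) (.pp [(1, 6749760000)])) (.mul (.g 21) (.pp [(1, 1575576000)]))))) (.add (.mul (.g 21)
    (.mul (.g 21) (.pp [(1, 150820800)]))) (.mul (.g 22) (.pp [(1, 565560000)]))))))) (.add (.mul (.g
    22) (.add (.add (.add (.mul (.pp [(1, 209868)]) (.sq [(1, 20), (2, 47), (3, -100), (5, 98), (7,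
    -47), (11, -55), (13, 79), (19, 4), (23, 32)])) (.add (.mul (.pp [(1, 405360)]) (.sq [(2, -100),
    (3, 78), (5, -2), (7, -6), (11, 14), (13, -99), (19, 23), (23, 22)])) (.mul (.pp [(1, 412560)])
    (.sq [(1, 28), (2, 18), (3, -67), (5, -4), (7, -22), (11, 81), (13, 28), (19, -31), (23, 100)]))))
    (.add (.mul (.pp [(1, 164220)]) (.sq [(1, 9), (2, 100), (5, -94), (7, 4), (11, -26), (13, 2), (19,
    2), (23, -3)])) (.add (.mul (.pp [(1, 453336)]) (.sq [(2, -33), (3, 76), (5, 7), (7, 34), (11,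
    82), (13, 40), (19, -100), (23, 45)])) (.mul (.pp [(1, 3960)]) (.sq [(2, -100), (3, -69), (5, -5),
    (7, -38), (11, 74), (13, 22), (19, -28), (23, -47)]))))) (.add (.add (.mul (.g 17) (.add (.add
    (.mul (.g 3) (.pp [(1, 5288520000)])) (.mul (.g 10) (.pp [(1, 3685080000)]))) (.add (.mul (.g 17)
    (.pp [(1, 3153960000)])) (.add (.mul (.g 18) (.pp [(1, 11716080000)])) (.mul (.g 22) (.pp [(1,
    5856000)])))))) (.add (.mul (.g 22) (.add (.pp [(1, 434184000)]) (.add (.mul (.g 3) (.pp [(1,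
    1867176000)])) (.mul (.g 22) (.pp [(1, 676353600)]))))) (.mul (.g 10) (.add (.pp [(1,
    3547680000)]) (.mul (.g 2) (.pp [(1, 1363560000)])))))) (.add (.mul (.g 14) (.add (.pp [(1,
    8460720000)]) (.mul (.g 19) (.pp [(1, 2846400000)])))) (.add (.mul (.g 0) (.mul (.g 1) (.pp [(1,
    3225144000)]))) (.mul (.g 13) (.pp [(1, 7990080000)]))))))) (.mul (.g 1) (.add (.add (.add (.mul
    (.pp [(1, 5938200)]) (.sq [(2, -17), (3, 36), (5, -16), (7, 3), (11, 60), (13, -75), (19, 44),
    (23, -100)])) (.mul (.pp [(1, 6158460)]) (.sq [(2, 6), (3, 100), (5, -60), (7, -37), (11, -8),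
    (13, -56), (19, -2), (23, -9)]))) (.add (.mul (.pp [(1, 2186040)]) (.sq [(2, 21), (3, -70), (5,
    -85), (7, -36), (11, 100), (13, 40), (19, -13), (23, 48)])) (.add (.mul (.pp [(1, 3713160)]) (.sq
    [(2, -100), (3, 100), (5, -27), (7, 21), (11, 39), (13, 52), (19, -26), (23, 31)])) (.mul (.pp
    [(1, 1556880)]) (.sq [(2, -100), (3, -76), (5, -28), (7, -1), (11, 41), (13, 55), (19, 79), (23,
    -23)]))))) (.add (.add (.mul (.g 0) (.add (.pp [(1, 10857600000)]) (.add (.mul (.g 0) (.pp [(1,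
    483190500)])) (.mul (.g 3) (.pp [(1, 1456770000)]))))) (.add (.mul (.g 19) (.add (.pp [(1,
    366156000000)]) (.add (.mul (.g 4) (.pp [(1, 43410000000)])) (.mul (.g 20) (.pp [(1,
    8317920000)]))))) (.mul (.g 3) (.add (.mul (.g 2) (.pp [(1, 120315600000)])) (.mul (.g 7) (.pp
    [(1, 143900400000)])))))) (.add (.mul (.g 14) (.add (.pp [(1, 262922400000)]) (.mul (.g 16) (.pp
    [(1, 35473800000)])))) (.add (.mul (.g 10) (.pp [(1, 206523000000)])) (.mul (.g 20) (.pp [(1,
    15828480000)])))))))))) (.add (.add (.mul (.g 3) (.add (.add (.mul (.pp [(1, 204660)]) (.sq [(1,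
    -31), (2, 32), (3, 100), (5, 33), (7, -19), (11, 21), (13, -5), (19, 24), (23, -64)])) (.add (.mul
    (.pp [(1, 5833740)]) (.sq [(2, 79), (3, -40), (5, 29), (7, 42), (11, -7), (13, 100), (19, -57),
    (23, -8)])) (.mul (.pp [(1, 7195380)]) (.sq [(2, -41), (3, 3), (5, 6), (7, -12), (11, 100), (13,
    25), (19, -26), (23, 45)])))) (.add (.add (.mul (.g 5) (.add (.add (.mul (.g 2) (.pp [(1,
    126741600000)])) (.mul (.g 6) (.pp [(1, 113572800000)]))) (.add (.mul (.g 10) (.pp [(1,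
    9286200000)])) (.mul (.g 18) (.pp [(1, 71725800000)]))))) (.mul (.g 10) (.add (.mul (.g 7) (.pp
    [(1, 33170400000)])) (.add (.mul (.g 16) (.pp [(1, 153173400000)])) (.mul (.g 20) (.pp [(1,
    20815080000)])))))) (.add (.mul (.g 13) (.add (.pp [(1, 33598200000)]) (.add (.mul (.g 11) (.pp
    [(1, 4436520000)])) (.mul (.g 13) (.pp [(1, 151072800000)]))))) (.mul (.g 6) (.mul (.g 7) (.pp
    [(1, 190348200000)]))))))) (.add (.mul (.g 14) (.add (.add (.add (.mul (.pp [(1, 6126000000)])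
    (.sq [(2, 1), (3, -1), (11, -1)])) (.mul (.pp [(1, 99840)]) (.sq [(2, 94), (3, 55), (5, -22), (7,
    76), (11, -41), (13, -100), (19, 35), (23, -82)]))) (.add (.mul (.pp [(1, 1575540)]) (.sq [(1,
    22), (2, 100), (3, -40), (5, 23), (7, 4), (11, 70), (13, 4), (19, -14), (23, -34)])) (.mul (.g 6)
    (.add (.pp [(1, 207039600000)]) (.mul (.g 18) (.pp [(1, 23576400000)])))))) (.add (.add (.mul (.g
    7) (.add (.mul (.g 11) (.pp [(1, 2978760000)])) (.mul (.g 19) (.pp [(1, 33044400000)])))) (.mul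
    (.g 10) (.add (.mul (.g 0) (.pp [(1, 2193780000)])) (.mul (.g 17) (.pp [(1, 71487600000)])))))
    (.add (.mul (.g 11) (.mul (.g 11) (.pp [(1, 36580500)]))) (.add (.mul (.g 13) (.pp [(1,
    178228200000)])) (.mul (.g 17) (.pp [(1, 48912000000)]))))))) (.mul (.g 13) (.add (.add (.add
    (.mul (.pp [(1, 1651620)]) (.sq [(2, 7), (3, -54), (5, -48), (7, 11), (11, 28), (13, 100), (19,
    -56), (23, 87)])) (.mul (.pp [(1, 1707720)]) (.sq [(1, -3), (2, 39), (3, -77), (5, 40), (7, 32),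
    (11, -100), (13, -14), (19, 46), (23, 16)]))) (.add (.mul (.pp [(1, 13440)]) (.sq [(2, 18), (3,
    -32), (5, 92), (7, -50), (11, -6), (13, -100), (19, -13), (23, 22)])) (.mul (.pp [(1, 1222320)])
    (.sq [(2, -36), (3, 41), (5, 100), (7, -57), (11, -10), (13, 33), (19, 25), (23, 72)])))) (.add
    (.add (.mul (.g 13) (.add (.pp [(1, 38584800000)]) (.mul (.g 4) (.pp [(1, 5489400000)])))) (.mul
    (.g 20) (.add (.pp [(1, 27909120000)]) (.mul (.g 18) (.pp [(1, 1163760000)]))))) (.add (.mul (.g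
    7) (.mul (.g 17) (.pp [(1, 16516200000)]))) (.mul (.g 11) (.pp [(1, 3748740000)])))))))) (.add
    (.mul (.g 10) (.add (.add (.mul (.pp [(1, 3604800)]) (.sq [(2, -100), (3, -46), (5, -85), (7,
    -34), (11, -40), (13, 3), (19, 96), (23, 26)])) (.add (.mul (.pp [(1, 1136400)]) (.sq [(2, 100),
    (3, 1), (5, -77), (7, 54), (11, -21), (13, -3), (19, -49), (23, 71)])) (.mul (.g 10) (.add (.mul
    (.g 9) (.pp [(1, 1047000000)])) (.add (.mul (.g 11) (.pp [(1, 9096660000)])) (.mul (.g 17) (.pp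
    [(1, 113306400000)]))))))) (.add (.mul (.g 7) (.mul (.g 7) (.pp [(1, 6485400000)]))) (.add (.mul
    (.g 9) (.mul (.g 20) (.pp [(1, 10020720000)]))) (.mul (.g 18) (.mul (.g 18) (.pp [(1,
    5013000000)]))))))) (.add (.mul (.g 20) (.add (.add (.mul (.pp [(1, 590352)]) (.sq [(2, -12), (3,
    -41), (5, -38), (7, -100), (11, 62), (13, -60), (19, 61), (23, 55)])) (.add (.mul (.pp [(1,
    1486596)]) (.sq [(1, -7), (2, 19), (3, 25), (5, -8), (7, 4), (11, 20), (13, 100), (19, -20), (23,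
    -5)])) (.mul (.pp [(1, 3026964)]) (.sq [(2, 100), (3, -45), (5, -14), (7, 9), (11, -3), (13, 5),
    (19, 7), (23, 8)])))) (.add (.add (.mul (.pp [(1, 130416)]) (.sq [(1, 7), (2, 100), (3, -50), (5,
    35), (7, -10), (11, -90), (13, 7), (19, -46), (23, 15)])) (.mul (.pp [(1, 787584)]) (.sq [(2, 86),
    (3, 86), (5, -23), (7, -23), (11, -100), (13, -23), (19, -23), (23, -23)]))) (.add (.mul (.g 17)
    (.mul (.g 17) (.pp [(1, 12975240000)]))) (.mul (.g 20) (.mul (.g 20) (.pp [(1, 456460800)])))))))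
    (.mul (.g 5) (.add (.add (.mul (.pp [(1, 2486280)]) (.sq [(1, 97), (2, 2), (3, -10), (5, -33), (7,
    39), (11, -100), (13, -39), (19, -38), (23, 6)])) (.add (.mul (.pp [(1, 44580)]) (.sq [(2, 79),
    (3, -65), (5, 26), (7, 1), (11, -100), (13, -55), (19, -17), (23, -8)])) (.mul (.pp [(1,
    1090920)]) (.sq [(1, 92), (2, 89), (3, -47), (11, -92), (13, 100), (19, -50)])))) (.add (.mul (.pp
    [(1, 4345440)]) (.sq [(2, -82), (3, -37), (5, -19), (7, -64), (11, 100), (13, 5), (19, 61), (23,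
    80)])) (.add (.mul (.pp [(1, 689880)]) (.sq [(2, -75), (3, -72), (5, -48), (7, 28), (11, -61),
    (13, 100), (19, 35), (23, -57)])) (.mul (.pp [(1, 3014220)]) (.sq [(2, 6), (3, -75), (5, -53), (7,
    36), (11, 42), (13, 94), (19, -1), (23, 100)])))))))))) (.add (.add (.add (.mul (.g 7) (.add (.add
    (.mul (.pp [(1, 503760)]) (.sq [(2, -20), (3, 51), (5, 2), (7, 54), (11, 60), (13, 100), (19,
    -48), (23, 21)])) (.mul (.pp [(1, 2667600)]) (.sq [(2, 32), (3, 100), (5, 96), (7, 17), (11, 40),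
    (13, -83), (19, -22), (23, -49)]))) (.add (.mul (.pp [(1, 201540)]) (.sq [(1, -24), (2, 18), (3,
    100), (5, -2), (7, -83), (11, 94), (13, -7), (19, 53), (23, -8)])) (.mul (.pp [(1, 2168340)]) (.sq
    [(1, 78), (2, 33), (3, -17), (5, -62), (7, 93), (11, -63), (13, -31), (19, -100), (23, 16)])))))
    (.add (.mul (.g 2) (.add (.mul (.pp [(1, 2769480)]) (.sq [(1, -8), (2, -10), (3, 58), (7, -7),
    (11, -1), (13, 100), (19, -14), (23, 3)])) (.mul (.pp [(1, 1282980)]) (.sq [(2, 40), (3, 65), (5,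
    -96), (7, -9), (11, 100), (13, -36), (19, 24), (23, -21)])))) (.mul (.g 12) (.add (.mul (.pp [(1,
    3014760)]) (.sq [(2, 2), (3, 100), (5, -59), (7, 3), (11, 24), (13, -60), (19, -7), (23, -14)]))
    (.mul (.pp [(1, 81720)]) (.sq [(3, 48), (5, -4), (7, 13), (11, -62), (13, 100), (19, -17), (23,
    -1)])))))) (.add (.mul (.g 0) (.mul (.pp [(1, 241710)]) (.sq [(2, 74), (3, 2), (5, 1), (7, 2),
    (11, -100), (13, -62), (19, -5), (23, 2)]))) (.add (.mul (.g 4) (.mul (.pp [(1, 398940)]) (.sq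
    [(2, 76), (3, -39), (5, 9), (7, 27), (11, 89), (13, 100), (19, -50), (23, 5)]))) (.mul (.g 6)
    (.mul (.pp [(1, 1286340)]) (.sq [(1, -9), (2, 18), (3, 7), (5, 26), (7, -100), (11, 82), (13, 18),
    (19, 24), (23, 67)])))))) (.add (.add (.mul (.g 9) (.mul (.pp [(1, 5376540)]) (.sq [(1, -19), (2,
    30), (3, 100), (5, -1), (7, -42), (11, 77), (13, -4), (19, -3), (23, 15)]))) (.add (.mul (.g 11)
    (.mul (.pp [(1, 90579)]) (.sq [(1, 14), (2, -66), (3, 83), (5, 91), (7, -48), (11, 16), (13,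
    -100), (19, -28), (23, 33)]))) (.mul (.g 16) (.mul (.pp [(1, 4056420)]) (.sq [(1, 79), (2, 31),
    (3, 31), (5, -33), (11, 9), (13, 28), (19, -100), (23, 33)]))))) (.add (.mul (.g 17) (.mul (.pp
    [(1, 2761800)]) (.sq [(1, -18), (2, 66), (3, -77), (5, -13), (7, 1), (11, 100), (13, -18), (19,
    9), (23, 3)]))) (.add (.mul (.g 18) (.mul (.pp [(1, 2798220)]) (.sq [(2, -39), (3, 59), (5, -12),
    (7, -12), (11, -39), (13, 100), (19, -12), (23, -12)]))) (.mul (.g 19) (.mul (.pp [(1, 202380)])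
    (.sq [(1, 31), (2, -91), (3, 32), (5, -100), (7, 8), (11, 20), (13, 6), (19, 13), (23,
    21)])))))))) (.pp [(1, 26818217556), (2, 6173412), (3, 5653392), (4, 5513232), (5, 5835156), (6,
    6681804), (7, 6421236), (8, 5614740), (9, 5519649), (10, 5364060), (11, 6507504), (12, 5981700),
    (13, 6705672), (14, 6554832), (15, 6583242), (18, 5839800), (19, 5690244), (20, 5925480), (21,
    6055392), (22, 5992752), (23, 5467788), (25, 6015579), (26, 7545120), (27, 6009300), (28,
    5887620), (30, 5475000), (33, 4696272), (35, 5666664), (38, 6272256), (39, 6138192), (42,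
    6748920), (44, 5229280), (45, 6254280), (46, 5766780), (49, 6190692), (50, 6085080), (52,
    6458160), (55, 5419440), (57, 6785448), (63, 5742000), (65, 5631648), (66, 6085200), (69,
    5695614), (70, 5338560), (75, 5378640), (76, 6437820), (77, 6238008), (78, 6140280), (91,
    7150872), (92, 6481560), (95, 6607812), (98, 6138540), (99, 5926920), (105, 5724480), (110,
    6090000), (114, 5613720), (115, 5794662), (117, 5763820), (121, 5466504), (125, 6175280), (130,
    5985000), (133, 4744056), (138, 5802600), (143, 6142608), (147, 6515880), (154, 5795760), (161,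
    7306320), (165, 6416880), (169, 5510256), (171, 6627900), (175, 5441940), (182, 7104600), (190,
    6429720), (195, 6413160), (207, 6197460), (209, 5353488), (230, 6502320), (231, 5329680), (242,
    6054460), (245, 6049860), (247, 4412736), (253, 6044160), (266, 5457960), (273, 5934600), (275,
    5387640), (285, 5781120), (286, 5526720), (299, 5581800), (322, 6076680), (325, 6931740), (338,
    5970900), (343, 4941340), (345, 5305560), (361, 6348534), (363, 5346600), (385, 6702720), (399,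
    4770600), (418, 6759480), (429, 6621480), (437, 6374328), (455, 6733080), (475, 6341940), (483,
    6099480), (494, 4391160), (506, 6276840), (507, 5667700), (529, 5844453), (539, 7727400), (575,
    6194880), (598, 5520720), (605, 6228780), (627, 7436880), (637, 6273960), (665, 6342240), (715,
    6513600), (722, 6048900), (741, 5201760), (759, 7013160), (805, 5854320), (845, 5778060), (847,
    4782300), (874, 5443560), (897, 6622560), (931, 7164480), (1001, 5207400), (1045, 5487960), (1058,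
    5998620), (1083, 6183540), (1127, 7329360), (1183, 5785860), (1235, 5544960), (1265, 6539880),
    (1311, 6090960), (1331, 5844940), (1463, 5316240), (1495, 5726640), (1573, 6321600), (1587,
    5893740), (1729, 5350440), (1771, 4098120), (1805, 5649180), (1859, 5172360), (2093, 6570960),
    (2185, 6241680), (2197, 6329200), (2299, 6857400), (2527, 5694540), (2645, 6382200), (2717,
    6105240), (2783, 7265340), (3059, 4345920), (3211, 6474180), (3289, 6733920), (3703, 5411040),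
    (3887, 6600660), (3971, 6169860), (4693, 6663120), (4807, 5592720), (5681, 5607480), (5819,
    6412200), (6859, 6126900), (6877, 5900340), (8303, 6648780), (10051, 5893380), (12167, 6185480)])) (by norm_num)
    (by decide +kernel)

theorem g10 : Ck (gG11 []) (pW (vG1 0 (hM (Ex.v 13)))) :=
  .mk' 1000000 (.add (.add (.add (.add (.add (.mul (.pp [(1, 7412820)]) (.sq [(1, -22), (2, 60), (3, -74), (5,
    -38), (7, -53), (11, 35), (13, 100), (19, 39), (23, 77)])) (.mul (.g 8) (.add (.add (.add (.mul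
    (.pp [(1, 549600)]) (.sq [(1, 40), (2, 25), (3, 4), (5, 69), (7, -62), (11, 89), (13, -25), (19,
    -43), (23, 100)])) (.mul (.pp [(1, 12064620)]) (.sq [(2, 100), (3, 43), (5, -23), (7, -23), (11,
    43), (13, -23), (19, -23), (23, -23)]))) (.add (.mul (.g 8) (.add (.add (.mul (.g 3) (.pp [(1,
    48933600000)])) (.add (.mul (.g 4) (.pp [(1, 51634200000)])) (.mul (.g 5) (.pp [(1,
    68523600000)])))) (.add (.add (.mul (.g 9) (.pp [(1, 215682000000)])) (.mul (.g 11) (.pp [(1,
    709290000)]))) (.add (.mul (.g 17) (.pp [(1, 68269800000)])) (.mul (.g 18) (.pp [(1,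
    15751200000)])))))) (.add (.mul (.g 7) (.add (.add (.mul (.g 1) (.pp [(1, 38209200000)])) (.mul
    (.g 11) (.pp [(1, 4430430000)]))) (.add (.mul (.g 16) (.pp [(1, 64270800000)])) (.mul (.g 21) (.pp
    [(1, 3330120000)]))))) (.mul (.g 13) (.add (.add (.pp [(1, 215355000000)]) (.mul (.g 12) (.pp [(1,
    8415000000)]))) (.add (.mul (.g 16) (.pp [(1, 10285800000)])) (.mul (.g 20) (.pp [(1,
    4695360000)])))))))) (.add (.add (.mul (.g 17) (.add (.add (.mul (.g 4) (.pp [(1, 15943800000)]))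
    (.mul (.g 10) (.pp [(1, 15057000000)]))) (.add (.mul (.g 19) (.pp [(1, 36110040000)])) (.mul (.g
    21) (.pp [(1, 6678360000)]))))) (.add (.mul (.g 19) (.add (.mul (.g 1) (.pp [(1, 54528240000)]))
    (.add (.mul (.g 4) (.pp [(1, 6829440000)])) (.mul (.g 19) (.pp [(1, 10728576000)]))))) (.mul (.g
    10) (.add (.mul (.g 4) (.pp [(1, 96953400000)])) (.mul (.g 18) (.pp [(1, 24853800000)])))))) (.add
    (.mul (.g 21) (.add (.pp [(1, 24981600000)]) (.mul (.g 18) (.pp [(1, 1013400000)])))) (.add (.mul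
    (.g 1) (.pp [(1, 402230400000)])) (.mul (.g 3) (.mul (.g 3) (.pp [(1, 10740000000)]))))))))) (.add
    (.mul (.g 10) (.add (.add (.add (.mul (.pp [(1, 2365320)]) (.sq [(1, -13), (2, -73), (3, -67), (5,
    100), (7, 38), (11, -45), (13, 30), (19, 6), (23, 63)])) (.mul (.pp [(1, 3081480)]) (.sq [(2,
    -10), (3, 41), (5, -24), (7, -7), (11, 100), (13, 27), (19, -1), (23, 4)]))) (.add (.mul (.g 13)
    (.add (.add (.pp [(1, 116790000000)]) (.add (.mul (.g 6) (.pp [(1, 81191400000)])) (.mul (.g 11)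
    (.pp [(1, 1401150000)])))) (.add (.mul (.g 16) (.pp [(1, 18995400000)])) (.add (.mul (.g 17) (.pp
    [(1, 96252600000)])) (.mul (.g 21) (.pp [(1, 879720000)])))))) (.mul (.g 3) (.add (.add (.pp [(1,
    186027000000)]) (.mul (.g 6) (.pp [(1, 56547000000)]))) (.add (.mul (.g 16) (.pp [(1,
    1624800000)])) (.mul (.g 21) (.pp [(1, 8282760000)]))))))) (.add (.add (.mul (.g 20) (.add (.add
    (.mul (.g 9) (.pp [(1, 5725320000)])) (.mul (.g 11) (.pp [(1, 1532652000)]))) (.add (.mul (.g 19)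
    (.pp [(1, 4772688000)])) (.mul (.g 21) (.pp [(1, 3481896000)]))))) (.mul (.g 7) (.add (.mul (.g 2)
    (.pp [(1, 89733600000)])) (.add (.mul (.g 7) (.pp [(1, 52273200000)])) (.mul (.g 18) (.pp [(1,
    37004400000)])))))) (.add (.mul (.g 1) (.add (.mul (.g 2) (.pp [(1, 392911800000)])) (.mul (.g 9)
    (.pp [(1, 220734000000)])))) (.add (.mul (.g 10) (.add (.mul (.g 11) (.pp [(1, 10115310000)]))
    (.mul (.g 21) (.pp [(1, 1789440000)])))) (.mul (.g 16) (.mul (.g 19) (.pp [(1,
    3691680000)])))))))) (.add (.mul (.g 1) (.add (.add (.add (.mul (.pp [(1, 2458740)]) (.sq [(2,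
    -99), (3, 100), (5, 2), (11, 8), (13, 19), (19, -8), (23, -17)])) (.add (.mul (.pp [(1, 3538140)])
    (.sq [(2, 8), (3, -69), (5, -26), (7, 19), (11, -40), (13, 100), (19, -28), (23, 86)])) (.mul (.pp
    [(1, 2941140)]) (.sq [(2, 16), (3, 70), (5, 29), (11, 37), (13, -11), (19, -100)])))) (.add (.mul
    (.pp [(1, 1477320)]) (.sq [(2, 25), (3, -12), (5, 38), (7, 1), (11, 78), (13, 100), (19, -21),
    (23, -56)])) (.add (.mul (.pp [(1, 3162540)]) (.sq [(1, -2), (2, -20), (3, 67), (5, -43), (7, 52),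
    (11, -100), (13, -17), (19, -51), (23, -37)])) (.mul (.pp [(1, 3787680)]) (.sq [(2, 25), (3, 33),
    (5, -98), (7, 22), (11, 100), (13, 11), (19, 1), (23, 96)]))))) (.add (.add (.mul (.g 3) (.add
    (.add (.pp [(1, 15156000000)]) (.mul (.g 7) (.pp [(1, 307047000000)]))) (.add (.mul (.g 15) (.pp
    [(1, 111700200000)])) (.mul (.g 19) (.pp [(1, 12869280000)]))))) (.add (.mul (.g 18) (.add (.add
    (.pp [(1, 344848800000)]) (.mul (.g 7) (.pp [(1, 118959600000)]))) (.add (.mul (.g 17) (.pp [(1,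
    67060800000)])) (.mul (.g 21) (.pp [(1, 862080000)]))))) (.mul (.g 20) (.add (.pp [(1,
    33145680000)]) (.add (.mul (.g 19) (.pp [(1, 4322112000)])) (.mul (.g 20) (.pp [(1,
    2685672000)]))))))) (.add (.mul (.g 0) (.add (.pp [(1, 3708060000)]) (.mul (.g 15) (.pp [(1,
    10999560000)])))) (.add (.mul (.g 11) (.mul (.g 13) (.pp [(1, 16542840000)]))) (.mul (.g 12) (.mul
    (.g 21) (.pp [(1, 19851000000)])))))))) (.mul (.g 13) (.add (.add (.add (.mul (.pp [(1, 1950240)])
    (.sq [(2, 10), (3, 4), (5, -86), (7, 55), (13, 100), (23, -10)])) (.mul (.pp [(1, 1010700)]) (.sq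
    [(1, 26), (2, 73), (3, -27), (5, 46), (7, 21), (11, -43), (13, 100), (19, -80), (23, 63)]))) (.add
    (.mul (.g 16) (.add (.add (.pp [(1, 23995800000)]) (.mul (.g 6) (.pp [(1, 66225600000)]))) (.add
    (.mul (.g 18) (.pp [(1, 3165000000)])) (.mul (.g 19) (.pp [(1, 6418080000)]))))) (.add (.mul (.g
    7) (.add (.mul (.g 4) (.pp [(1, 3763800000)])) (.add (.mul (.g 9) (.pp [(1, 31122600000)])) (.mul
    (.g 11) (.pp [(1, 7876860000)]))))) (.mul (.g 20) (.add (.pp [(1, 10535880000)]) (.add (.mul (.g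
    3) (.pp [(1, 407280000)])) (.mul (.g 17) (.pp [(1, 1864080000)])))))))) (.add (.add (.mul (.g 0)
    (.mul (.g 18) (.pp [(1, 8854050000)]))) (.mul (.g 5) (.pp [(1, 69601200000)]))) (.add (.mul (.g 6)
    (.pp [(1, 116576400000)])) (.add (.mul (.g 12) (.pp [(1, 137922600000)])) (.mul (.g 21) (.pp [(1,
    26920440000)])))))))))) (.add (.add (.mul (.g 12) (.add (.add (.add (.mul (.pp [(1, 526140)]) (.sq
    [(2, 78), (3, 82), (5, -6), (7, 57), (11, 12), (13, -35), (19, -100), (23, 18)])) (.mul (.pp [(1,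
    1071120)]) (.sq [(2, 20), (3, -76), (5, -16), (7, 19), (11, 55), (13, 100), (19, -38)]))) (.add
    (.mul (.pp [(1, 172680)]) (.sq [(2, -66), (3, 94), (5, -54), (7, 7), (11, 39), (13, 11), (19, 15),
    (23, -100)])) (.mul (.pp [(1, 597180)]) (.sq [(1, -47), (2, 100), (3, -41), (5, 71), (7, -18),
    (11, -2), (13, 63), (19, -25), (23, -60)])))) (.add (.add (.mul (.g 9) (.add (.mul (.g 11) (.pp
    [(1, 8423160000)])) (.add (.mul (.g 19) (.pp [(1, 759480000)])) (.mul (.g 21) (.pp [(1,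
    5528760000)]))))) (.mul (.g 20) (.add (.pp [(1, 27627840000)]) (.add (.mul (.g 3) (.pp [(1,
    4708560000)])) (.mul (.g 19) (.pp [(1, 2369664000)])))))) (.add (.mul (.g 12) (.add (.mul (.g 3)
    (.pp [(1, 46214400000)])) (.mul (.g 11) (.pp [(1, 518280000)])))) (.add (.mul (.g 0) (.mul (.g 4)
    (.pp [(1, 538680000)]))) (.mul (.g 19) (.pp [(1, 665040000)]))))))) (.add (.mul (.g 3) (.add (.add
    (.mul (.pp [(1, 2000700)]) (.sq [(2, -80), (3, -54), (5, -40), (7, 42), (11, -33), (13, -100),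
    (19, 8), (23, 33)])) (.add (.mul (.pp [(1, 3398100)]) (.sq [(1, -10), (2, -31), (3, -39), (5, 3),
    (7, 15), (11, 4), (13, 36), (19, -48), (23, 100)])) (.mul (.g 5) (.add (.pp [(1, 118055400000)])
    (.add (.mul (.g 15) (.pp [(1, 119391600000)])) (.mul (.g 20) (.pp [(1, 10501560000)]))))))) (.add
    (.mul (.g 6) (.add (.mul (.g 6) (.pp [(1, 146634600000)])) (.mul (.g 7) (.pp [(1, 7286400000)]))))
    (.add (.mul (.g 16) (.add (.mul (.g 16) (.pp [(1, 14598600000)])) (.mul (.g 21) (.pp [(1,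
    1537200000)])))) (.mul (.g 21) (.mul (.g 21) (.pp [(1, 1277664000)]))))))) (.mul (.g 19) (.add
    (.add (.add (.mul (.pp [(1, 259644)]) (.sq [(5, -68), (7, 73), (11, 7), (13, -100)])) (.mul (.pp
    [(1, 294516)]) (.sq [(2, -21), (3, 39), (5, -100), (7, 24), (11, -40), (13, 80), (19, -11), (23,
    19)]))) (.add (.mul (.pp [(1, 29076)]) (.sq [(1, -1), (2, 100), (3, -50), (5, -54), (7, -16), (11,
    -77), (13, 33), (19, 14), (23, -1)])) (.mul (.pp [(1, 80400)]) (.sq [(2, 100), (3, 1), (5, -9),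
    (7, 3), (11, 21), (13, 15), (19, -10), (23, 17)])))) (.add (.add (.mul (.g 16) (.add (.mul (.g 16)
    (.pp [(1, 48987000000)])) (.mul (.g 20) (.pp [(1, 1847424000)])))) (.mul (.g 21) (.add (.pp [(1,
    1282440000)]) (.mul (.g 6) (.pp [(1, 748152000)]))))) (.add (.mul (.g 7) (.mul (.g 20) (.pp [(1,
    1944000)]))) (.mul (.g 19) (.mul (.g 19) (.pp [(1, 392035200)]))))))))) (.add (.mul (.g 20) (.add
    (.add (.mul (.pp [(1, 703560)]) (.sq [(1, -59), (2, -28), (3, 100), (5, -2), (7, 45), (11, 33),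
    (13, 1), (19, -2), (23, -5)])) (.add (.mul (.pp [(1, 21181560000)]) (.sq [(2, 1), (11, -1)]))
    (.mul (.pp [(1, 23278176)]) (.sq [(2, -2), (3, 50), (5, -5), (7, -5), (11, -2), (13, -33), (19,
    -5), (23, -5)])))) (.add (.add (.mul (.pp [(1, 953352)]) (.sq [(1, -12), (2, 41), (3, -14), (5,
    -44), (7, -31), (11, 100), (13, 2), (19, 7), (23, 25)])) (.mul (.pp [(1, 209076)]) (.sq [(2, 51),
    (3, 81), (5, 100), (7, -94), (11, -12), (13, 41), (19, -7), (23, 79)]))) (.add (.mul (.pp [(1,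
    184692)]) (.sq [(1, 33), (2, 19), (3, -100), (5, -34), (7, 35), (11, -67), (13, 31), (19, -48),
    (23, 36)])) (.mul (.g 7) (.mul (.g 17) (.pp [(1, 5927880000)]))))))) (.add (.mul (.g 5) (.add
    (.add (.mul (.pp [(1, 852900)]) (.sq [(2, 100), (3, -92), (5, 11), (7, -26), (11, 93), (13, -65),
    (19, 27), (23, 12)])) (.add (.mul (.pp [(1, 1744080)]) (.sq [(1, -29), (2, -3), (3, 69), (5, 30),
    (7, -93), (11, -40), (13, -53), (19, 82), (23, 100)])) (.mul (.pp [(1, 791340)]) (.sq [(1, -45),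
    (2, 10), (3, 70), (5, 100), (7, -18), (11, 28), (13, 38), (19, -22), (23, -59)])))) (.add (.mul
    (.pp [(1, 2104320)]) (.sq [(1, -46), (2, -48), (3, 60), (5, -30), (7, 80), (11, 100), (13, -21),
    (19, 2), (23, 55)])) (.add (.mul (.pp [(1, 1106460)]) (.sq [(1, -23), (2, 65), (3, -43), (5, 52),
    (7, -32), (11, 12), (13, 100), (19, -22), (23, -14)])) (.mul (.g 0) (.mul (.g 4) (.pp [(1,
    545400000)]))))))) (.mul (.g 17) (.add (.add (.mul (.pp [(1, 3038160)]) (.sq [(2, 79), (3, -89),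
    (5, -9), (7, -31), (11, -100), (13, -13), (19, 38), (23, 9)])) (.mul (.pp [(1, 2556060)]) (.sq
    [(2, -39), (3, 59), (5, -12), (7, -12), (11, -39), (13, 100), (19, -12), (23, -12)]))) (.add (.mul
    (.pp [(1, 3980580)]) (.sq [(1, -2), (2, -19), (3, -48), (5, 9), (7, 17), (13, 100), (19, -26),
    (23, 38)])) (.add (.mul (.pp [(1, 317640)]) (.sq [(1, 29), (2, 12), (3, 45), (5, -67), (7, -36),
    (11, 67), (13, 100), (19, -36), (23, 29)])) (.mul (.pp [(1, 6241620)]) (.sq [(2, 75), (3, -8), (5,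
    -5), (7, -100), (11, 33), (13, -28), (19, 49), (23, 21)])))))))))) (.add (.add (.add (.mul (.g 21)
    (.add (.mul (.pp [(1, 168156)]) (.sq [(1, -18), (2, 55), (3, -26), (5, -100), (7, 58), (11, 8),
    (13, 63), (19, 8), (23, 1)])) (.add (.mul (.pp [(1, 565548)]) (.sq [(2, -9), (3, 100), (5, -39),
    (7, -5), (11, 96), (13, 6), (19, -41), (23, -27)])) (.mul (.g 21) (.add (.mul (.g 11) (.pp [(1,
    71200800)])) (.mul (.g 21) (.pp [(1, 710803200)]))))))) (.mul (.g 2) (.add (.mul (.pp [(1,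
    2461140)]) (.sq [(1, -25), (2, -40), (3, -69), (5, 20), (7, -38), (11, 54), (13, 100), (19, 46),
    (23, 57)])) (.mul (.pp [(1, 1134660)]) (.sq [(1, 79), (2, -77), (3, -63), (5, -14), (7, 63), (11,
    -100), (13, 51), (19, -60), (23, 3)]))))) (.add (.mul (.g 4) (.add (.mul (.pp [(1, 1139640)]) (.sq
    [(2, 88), (3, -46), (5, -1), (7, -25), (11, -100), (13, 65), (19, -28), (23, 54)])) (.mul (.g 16)
    (.mul (.g 16) (.pp [(1, 7011600000)]))))) (.add (.mul (.g 6) (.add (.mul (.pp [(1, 1825020)]) (.sq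
    [(1, -99), (2, -100), (3, 58), (5, 67), (7, 38), (11, 72), (13, -33), (19, 50), (23, 4)])) (.mul
    (.pp [(1, 342960)]) (.sq [(1, -21), (2, 30), (3, 12), (5, -96), (7, 100), (11, 95), (13, 24), (19,
    -59), (23, -63)])))) (.mul (.g 9) (.add (.mul (.pp [(1, 4648920)]) (.sq [(1, 18), (2, -58), (3,
    -100), (5, 58), (7, -40), (11, -36), (13, 31), (19, 47), (23, 9)])) (.mul (.pp [(1, 2838780)])
    (.sq [(1, -12), (2, 9), (3, 100), (5, -9), (7, -18), (11, -33), (13, -70), (19, 2), (23,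
    -2)]))))))) (.add (.add (.mul (.g 15) (.add (.mul (.pp [(1, 7202640)]) (.sq [(1, 43), (2, 44), (3,
    -18), (5, -30), (7, 48), (11, -100), (13, -3), (19, -52), (23, -16)])) (.mul (.pp [(1, 1145160)])
    (.sq [(2, 21), (3, 62), (5, -1), (7, -37), (11, 100), (13, 23), (19, -33), (23, 65)])))) (.add
    (.mul (.g 0) (.mul (.pp [(1, 202566)]) (.sq [(2, 21), (3, 62), (5, -1), (7, -37), (11, 100), (13,
    23), (19, -33), (23, 65)]))) (.mul (.g 7) (.mul (.pp [(1, 2869920)]) (.sq [(2, 100), (3, -99), (5,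
    22), (7, -5), (11, 4), (13, -13), (19, 5), (23, 10)]))))) (.add (.mul (.g 11) (.mul (.pp [(1,
    14361)]) (.sq [(1, -34), (2, -17), (3, 100), (5, 39), (7, -6), (11, 61), (13, -85), (19, 5), (23,
    -26)]))) (.add (.mul (.g 16) (.mul (.pp [(1, 3550380)]) (.sq [(1, -4), (2, 4), (3, -62), (5, 48),
    (7, -42), (11, 73), (13, 100), (19, 3), (23, 25)]))) (.mul (.g 18) (.mul (.pp [(1, 2297880)]) (.sq
    [(1, -100), (2, 48), (3, 29), (5, 26), (7, -19), (11, 50), (13, -11), (19, 57), (23, 2)]))))))))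
    (.pp [(1, 23264258244), (2, 5822112), (3, 6198636), (4, 6459597), (5, 6447420), (6, 5550168), (7,
    6376740), (8, 5801700), (9, 6298392), (10, 6256554), (11, 5375508), (12, 5781300), (13, 5506404),
    (14, 6487656), (15, 6255096), (18, 5579460), (19, 4977984), (20, 5877000), (21, 4649064), (22,
    5364018), (23, 5876712), (25, 6065733), (26, 6532026), (27, 5971920), (28, 5091840), (30,
    5929680), (33, 7150680), (35, 7066320), (38, 5911086), (39, 6379224), (42, 9623400), (44,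
    5512840), (45, 5531880), (46, 5628696), (49, 5349354), (50, 6168840), (52, 5803500), (55,
    5697978), (57, 6607464), (63, 5337540), (65, 5922930), (66, 5563680), (69, 6520056), (70,
    4533720), (75, 5574240), (76, 6602580), (77, 5981148), (78, 5706240), (91, 6156576), (92,
    6222240), (95, 4897614), (98, 6294780), (99, 6795720), (105, 6933600), (110, 6187560), (114,
    4269360), (115, 5934864), (117, 5742040), (121, 5647683), (125, 5825660), (130, 5668320), (133,
    6413616), (138, 4745640), (143, 5768634), (147, 6122760), (154, 6385920), (161, 6595500), (165,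
    6308880), (169, 6526449), (171, 6427500), (175, 5669160), (182, 5624040), (190, 6520440), (195,
    6221520), (207, 6113820), (209, 6766086), (230, 6845160), (231, 7364040), (242, 5833780), (245,
    5476980), (247, 5615598), (253, 6554844), (266, 5312640), (273, 6782880), (275, 5841600), (285,
    5773920), (286, 5957040), (299, 6900600), (322, 5713440), (325, 6306180), (338, 5847420), (343,
    5854420), (345, 5653800), (361, 6727665), (363, 5658420), (385, 5464440), (399, 4999800), (418,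
    5832960), (429, 5952720), (437, 6006768), (455, 4707360), (475, 6397440), (483, 7220880), (494,
    6392880), (506, 6287400), (507, 5552560), (529, 6274218), (539, 6420000), (575, 5972280), (598,
    6991560), (605, 6009120), (627, 4389240), (637, 6436680), (665, 6679320), (715, 6350640), (722,
    6047160), (741, 5907720), (759, 5190840), (805, 6428760), (845, 5420460), (847, 6384720), (874,
    6400320), (897, 5975760), (931, 6688380), (1001, 5529480), (1045, 6066480), (1058, 6091020),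
    (1083, 6226080), (1127, 8039880), (1183, 4873020), (1235, 6503400), (1265, 6619920), (1311,
    5901360), (1331, 6352060), (1463, 6132120), (1495, 6365760), (1573, 6265140), (1587, 5441160),
    (1729, 6453360), (1771, 6906240), (1805, 5872740), (1859, 6250740), (2093, 5168280), (2185,
    5433240), (2197, 6177580), (2299, 5959320), (2527, 5552280), (2645, 5691720), (2717, 6593400),
    (2783, 5708400), (3059, 2789160), (3211, 6448080), (3289, 6598320), (3703, 3946260), (3887,
    6824760), (3971, 5465940), (4693, 5963580), (4807, 5067480), (5681, 5256360), (5819, 5269440),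
    (6859, 6044280), (6877, 5891880), (8303, 6777480), (10051, 7363320), (12167, 6279680)])) (by norm_num)
    (by decide +kernel)

end Pool.Agent.Helper52.TS
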