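import Pool.Agent.Helper52.TS.SB1L

/-!
# Set B1 of the column `b`: the certificates, order 1, part a
-/

set_option autoImplicit false
set_option maxRecDepth 100000

namespace Pool.Agent.Helper52.TS

open Pool.Agent.Helper83.Cert Pool.Agent.Helper83.TS Pool.Agent.Helper20.TS


theorem p11 : Ck (gP1 1 []) (pW (vP1 1 1)) :=
  .mk' 1000000 (.add (.add (.add (.add (.add (.mul (.pp [(1, 1769340)]) (.sq [(1, -36), (2, -59), (3, 22), (5,
    73), (7, -7), (13, 100), (17, 10), (19, -26), (23, -16)])) (.mul (.pp [(1, 2260440)]) (.sq [(1,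
    -65), (2, 44), (3, 31), (5, -13), (7, 12), (13, 100), (17, -55), (19, -29), (23, 27)]))) (.add
    (.mul (.pp [(1, 4380)]) (.sq [(1, -2), (2, -100), (3, -17), (5, 13), (7, -32), (13, 65), (17, 82),
    (19, 18), (23, -39)])) (.add (.mul (.g 13) (.add (.add (.add (.mul (.pp [(1, 2302320)]) (.sq [(2,
    36), (3, -87), (5, -6), (7, 69), (13, -100), (17, -54), (19, 77), (23, -68)])) (.add (.mul (.pp
    [(1, 61260)]) (.sq [(2, -38), (3, -80), (5, 4), (7, 100), (13, 59), (17, 56), (19, -58), (23,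
    -13)])) (.mul (.pp [(1, 2330340)]) (.sq [(2, -24), (3, 54), (5, 100), (7, -49), (13, -39), (17,
    37), (19, -12), (23, -35)])))) (.add (.add (.mul (.pp [(1, 1683000)]) (.sq [(2, 100), (3, -13),
    (5, 62), (7, -78), (17, -7), (19, 12), (23, -23)])) (.mul (.pp [(1, 963060)]) (.sq [(1, -15), (2,
    2), (3, -28), (5, -6), (7, -13), (13, -10), (17, -22), (19, 100), (23, 14)]))) (.add (.mul (.pp
    [(1, 2187540)]) (.sq [(1, -11), (2, 37), (3, 12), (5, -100), (7, -15), (13, 81), (17, 42), (19,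
    -41), (23, -15)])) (.mul (.pp [(1, 5104320)]) (.sq [(1, 27), (2, 67), (3, -63), (5, 28), (7, -1),
    (13, 69), (17, -100), (19, 2), (23, -1)]))))) (.add (.add (.add (.mul (.g 7) (.add (.add (.pp [(1,
    46327800000)]) (.mul (.g 1) (.pp [(1, 10384800000)]))) (.add (.mul (.g 9) (.pp [(1,
    142050600000)])) (.add (.mul (.g 10) (.pp [(1, 50895000000)])) (.mul (.g 11) (.pp [(1,
    84057000000)])))))) (.mul (.g 13) (.add (.add (.pp [(1, 21497400000)]) (.mul (.g 11) (.pp [(1,
    65221200000)]))) (.add (.mul (.g 15) (.pp [(1, 31819200000)])) (.add (.mul (.g 20) (.pp [(1,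
    6853080000)])) (.mul (.g 21) (.pp [(1, 1938360000)]))))))) (.add (.mul (.g 16) (.add (.add (.mul
    (.g 3) (.pp [(1, 57460200000)])) (.mul (.g 9) (.pp [(1, 49000200000)]))) (.add (.mul (.g 11) (.pp
    [(1, 53413800000)])) (.add (.mul (.g 17) (.pp [(1, 66424800000)])) (.mul (.g 19) (.pp [(1,
    8200440000)])))))) (.mul (.g 18) (.add (.add (.pp [(1, 12665400000)]) (.mul (.g 2) (.pp [(1,
    3849000000)]))) (.add (.mul (.g 3) (.pp [(1, 42369000000)])) (.add (.mul (.g 12) (.pp [(1,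
    5056200000)])) (.mul (.g 21) (.pp [(1, 7146960000)])))))))) (.add (.add (.mul (.g 8) (.add (.mul
    (.g 1) (.pp [(1, 15255000000)])) (.add (.mul (.g 6) (.pp [(1, 29371200000)])) (.mul (.g 9) (.pp
    [(1, 39999600000)]))))) (.mul (.g 0) (.add (.mul (.g 2) (.pp [(1, 7647360000)])) (.mul (.g 11)
    (.pp [(1, 5641110000)]))))) (.add (.mul (.g 12) (.add (.mul (.g 9) (.pp [(1, 76461000000)])) (.mul
    (.g 20) (.pp [(1, 1444200000)])))) (.mul (.g 17) (.add (.mul (.g 6) (.pp [(1, 192940800000)]))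
    (.mul (.g 11) (.pp [(1, 70807800000)]))))))))) (.mul (.g 7) (.add (.add (.add (.mul (.pp [(1,
    1522920)]) (.sq [(1, -10), (2, 90), (3, 3), (5, -100), (7, 7), (13, -17), (17, -19), (19, 46),
    (23, -23)])) (.mul (.pp [(1, 4465920)]) (.sq [(1, 6), (2, 100), (3, -32), (5, 37), (7, -48), (13,
    -18), (17, -2), (19, 27), (23, 3)]))) (.add (.mul (.pp [(1, 6554760)]) (.sq [(2, -64), (3, -1),
    (5, -10), (7, -11), (13, 76), (17, 100), (19, -48), (23, -34)])) (.add (.mul (.g 7) (.add (.add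
    (.pp [(1, 232357800000)]) (.add (.mul (.g 3) (.pp [(1, 9507600000)])) (.mul (.g 9) (.pp [(1,
    87900600000)])))) (.add (.add (.mul (.g 10) (.pp [(1, 27498000000)])) (.mul (.g 11) (.pp [(1,
    8715000000)]))) (.add (.mul (.g 16) (.pp [(1, 40188000000)])) (.mul (.g 17) (.pp [(1,
    54327000000)])))))) (.mul (.g 17) (.add (.add (.mul (.g 0) (.pp [(1, 6879840000)])) (.add (.mul
    (.g 6) (.pp [(1, 150178800000)])) (.mul (.g 9) (.pp [(1, 2584800000)])))) (.add (.mul (.g 11) (.pp
    [(1, 95227200000)])) (.add (.mul (.g 16) (.pp [(1, 145779600000)])) (.mul (.g 20) (.pp [(1,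
    5209080000)]))))))))) (.add (.add (.mul (.g 0) (.add (.pp [(1, 11484300000)]) (.add (.mul (.g 3)
    (.pp [(1, 8804820000)])) (.mul (.g 19) (.pp [(1, 244950000)]))))) (.add (.mul (.g 9) (.add (.mul
    (.g 3) (.pp [(1, 9910800000)])) (.add (.mul (.g 11) (.pp [(1, 699600000)])) (.mul (.g 18) (.pp
    [(1, 36780000000)]))))) (.mul (.g 16) (.add (.mul (.g 5) (.pp [(1, 46068600000)])) (.add (.mul (.g
    11) (.pp [(1, 35470200000)])) (.mul (.g 19) (.pp [(1, 12559320000)]))))))) (.add (.mul (.g 6)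
    (.add (.mul (.g 6) (.pp [(1, 12174000000)])) (.mul (.g 10) (.pp [(1, 13311600000)])))) (.add (.mul
    (.g 18) (.add (.mul (.g 3) (.pp [(1, 24555000000)])) (.mul (.g 18) (.pp [(1, 49207200000)]))))
    (.mul (.g 5) (.pp [(1, 254994600000)])))))))))) (.add (.add (.mul (.g 5) (.add (.add (.add (.mul
    (.pp [(1, 2275860)]) (.sq [(2, -11), (3, -3), (5, -73), (7, 100), (13, -71), (17, 43), (19, -2),
    (23, 39)])) (.add (.mul (.pp [(1, 769740)]) (.sq [(1, -17), (2, 77), (3, -67), (5, -100), (7, 50),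
    (13, -85), (17, -31), (19, 83), (23, 59)])) (.mul (.pp [(1, 1585920)]) (.sq [(1, -3), (2, 26), (3,
    100), (5, 63), (7, 83), (13, -84), (17, -71), (19, -9), (23, 61)])))) (.add (.mul (.pp [(1,
    2699340)]) (.sq [(2, -51), (3, -30), (5, -6), (7, 79), (13, 36), (17, -100), (19, 14), (23, 27)]))
    (.add (.mul (.pp [(1, 671280)]) (.sq [(2, 36), (3, 13), (5, -93), (7, 1), (13, 71), (17, 100),
    (19, 16), (23, -17)])) (.mul (.g 19) (.add (.add (.mul (.g 0) (.pp [(1, 37104000)])) (.mul (.g 2)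
    (.pp [(1, 2452080000)]))) (.add (.mul (.g 5) (.pp [(1, 749040000)])) (.add (.mul (.g 8) (.pp [(1,
    6449280000)])) (.mul (.g 20) (.pp [(1, 3658536000)]))))))))) (.add (.add (.mul (.g 0) (.add (.pp
    [(1, 27200400000)]) (.add (.mul (.g 3) (.pp [(1, 10521030000)])) (.mul (.g 8) (.pp [(1,
    3831930000)]))))) (.add (.mul (.g 11) (.add (.mul (.g 5) (.pp [(1, 37939200000)])) (.add (.mul (.g
    10) (.pp [(1, 31816800000)])) (.mul (.g 11) (.pp [(1, 2040000000)]))))) (.mul (.g 17) (.add (.mul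
    (.g 2) (.pp [(1, 41925000000)])) (.add (.mul (.g 12) (.pp [(1, 201570600000)])) (.mul (.g 21) (.pp
    [(1, 3593160000)]))))))) (.add (.mul (.g 9) (.add (.pp [(1, 73142400000)]) (.mul (.g 2) (.pp [(1,
    4605000000)])))) (.add (.mul (.g 6) (.pp [(1, 25899600000)])) (.mul (.g 18) (.mul (.g 18) (.pp
    [(1, 16263000000)])))))))) (.add (.mul (.g 0) (.add (.add (.add (.mul (.pp [(1, 85563)]) (.sq [(1,
    -16), (2, 100), (3, 10), (5, -9), (7, 36), (13, 13), (17, 14), (19, 14), (23, -24)])) (.mul (.pp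
    [(1, 77787)]) (.sq [(1, -47), (2, 10), (3, -26), (5, 100), (7, 11), (13, -72), (17, 36), (19, 6),
    (23, 26)]))) (.add (.mul (.pp [(1, 163434)]) (.sq [(1, 4), (2, 26), (3, 52), (5, -20), (7, 5),
    (13, 51), (17, 25), (19, 41), (23, -100)])) (.mul (.pp [(1, 9240)]) (.sq [(1, 2), (2, -9), (3,
    87), (5, 23), (7, -5), (13, -100), (17, -11), (19, 17), (23, 19)])))) (.add (.add (.mul (.g 21)
    (.add (.add (.mul (.g 1) (.pp [(1, 2490606000)])) (.add (.mul (.g 6) (.pp [(1, 517590000)])) (.mul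
    (.g 8) (.pp [(1, 594240000)])))) (.add (.mul (.g 16) (.pp [(1, 294114000)])) (.add (.mul (.g 17)
    (.pp [(1, 1674000)])) (.mul (.g 21) (.pp [(1, 646167600)])))))) (.mul (.g 17) (.add (.add (.mul
    (.g 1) (.pp [(1, 3974910000)])) (.mul (.g 11) (.pp [(1, 4231140000)]))) (.add (.mul (.g 16) (.pp
    [(1, 3620760000)])) (.mul (.g 17) (.pp [(1, 677310000)])))))) (.add (.mul (.g 2) (.add (.mul (.g
    6) (.pp [(1, 1921860000)])) (.mul (.g 16) (.pp [(1, 790170000)])))) (.mul (.g 10) (.mul (.g 11)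
    (.pp [(1, 864960000)]))))))) (.mul (.g 17) (.add (.add (.mul (.pp [(1, 11460)]) (.sq [(1, -8), (2,
    -5), (3, -43), (5, 100), (7, 8), (13, -37), (17, 70), (19, -47), (23, 12)])) (.mul (.g 20) (.add
    (.add (.mul (.g 6) (.pp [(1, 27410640000)])) (.mul (.g 11) (.pp [(1, 51680880000)]))) (.add (.mul
    (.g 17) (.pp [(1, 2311080000)])) (.mul (.g 21) (.pp [(1, 924120000)])))))) (.add (.mul (.g 21)
    (.add (.mul (.g 10) (.pp [(1, 1520280000)])) (.add (.mul (.g 11) (.pp [(1, 4507440000)])) (.mul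
    (.g 19) (.pp [(1, 537648000)]))))) (.add (.mul (.g 6) (.add (.mul (.g 12) (.pp [(1,
    20338200000)])) (.mul (.g 16) (.pp [(1, 83644800000)])))) (.mul (.g 16) (.mul (.g 17) (.pp [(1,
    12603000000)]))))))))) (.add (.mul (.g 9) (.add (.add (.mul (.pp [(1, 556320)]) (.sq [(1, -43),
    (2, 73), (3, -71), (5, 3), (7, 1), (13, 94), (17, -100), (23, 1)])) (.add (.mul (.pp [(1,
    2704560)]) (.sq [(2, -95), (3, -64), (5, 16), (7, -2), (13, 1), (17, 100), (19, 15), (23, -54)]))
    (.mul (.pp [(1, 5020740)]) (.sq [(1, -44), (2, 21), (3, 35), (5, -51), (7, -14), (13, 100), (17,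
    -25), (19, -7), (23, 2)])))) (.add (.add (.mul (.pp [(1, 1071540)]) (.sq [(1, 41), (2, -45), (3,
    -15), (5, -72), (7, 58), (13, -100), (17, -15), (19, -32), (23, 44)])) (.mul (.g 1) (.mul (.g 9)
    (.pp [(1, 31273800000)])))) (.add (.mul (.g 6) (.mul (.g 18) (.pp [(1, 14169000000)]))) (.mul (.g
    10) (.mul (.g 16) (.pp [(1, 75079200000)]))))))) (.add (.mul (.g 19) (.add (.add (.mul (.pp [(1,
    822360)]) (.sq [(1, -52), (2, 37), (3, 33), (5, -2), (7, 6), (13, 100), (17, 21), (19, -31), (23,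
    3)])) (.mul (.pp [(1, 1150740)]) (.sq [(1, -25), (2, 24), (3, -11), (5, 20), (7, -8), (13, 100),
    (17, 21), (19, -10), (23, -13)]))) (.add (.mul (.pp [(1, 291036)]) (.sq [(1, -22), (2, 22), (3,
    8), (5, -71), (7, -1), (13, 100), (17, -18), (19, -30), (23, 31)])) (.add (.mul (.pp [(1,
    242304)]) (.sq [(1, -64), (2, 71), (3, -70), (5, -9), (7, 5), (13, 93), (17, -100), (19, 5), (23,
    5)])) (.mul (.g 16) (.mul (.g 19) (.pp [(1, 726816000)]))))))) (.mul (.g 21) (.add (.add (.mul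
    (.pp [(1, 49392)]) (.sq [(1, 48), (2, 72), (3, 3), (5, -100), (13, 92), (17, 18), (19, -52), (23,
    -33)])) (.mul (.pp [(1, 169980)]) (.sq [(1, -7), (2, -25), (3, 21), (5, 17), (7, 41), (13, 100),
    (17, -72), (19, -89), (23, -5)]))) (.add (.mul (.pp [(1, 555684)]) (.sq [(1, -48), (2, -35), (3,
    -63), (5, 63), (7, 11), (13, 100), (17, 71), (19, -33), (23, -29)])) (.add (.mul (.pp [(1,
    777480)]) (.sq [(1, 7), (2, 16), (3, 44), (5, 100), (7, -5), (13, -37), (17, 8), (19, -39), (23,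
    26)])) (.mul (.g 18) (.mul (.g 18) (.pp [(1, 9524640000)]))))))))))) (.add (.add (.add (.mul (.g
    1) (.add (.add (.mul (.pp [(1, 972720)]) (.sq [(2, 100), (3, 39), (5, -44), (7, 10), (13, 7), (17,
    58), (19, -48), (23, -15)])) (.mul (.pp [(1, 2923740)]) (.sq [(1, -95), (2, 18), (3, 36), (5,
    -32), (7, 100), (13, -13), (17, -40), (19, 35), (23, 37)]))) (.add (.mul (.pp [(1, 3106620)]) (.sq
    [(1, 23), (2, -65), (3, -25), (5, 100), (7, 12), (13, -50), (17, 60), (19, -39), (23, 35)])) (.mul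
    (.g 18) (.mul (.g 18) (.pp [(1, 275762400000)])))))) (.mul (.g 8) (.add (.add (.mul (.pp [(1,
    549900)]) (.sq [(1, 7), (2, -3), (3, -53), (5, 100), (7, -33), (13, 54), (17, -52), (19, -33),
    (23, 24)])) (.mul (.pp [(1, 5880360)]) (.sq [(1, 4), (2, 37), (3, 62), (5, -41), (7, -22), (13,
    27), (17, -100), (19, -22), (23, 52)]))) (.add (.mul (.pp [(1, 621660)]) (.sq [(1, 75), (2, 9),
    (3, 32), (5, 100), (7, -58), (13, -82), (17, -36), (19, -15), (23, 2)])) (.mul (.pp [(1,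
    3893160)]) (.sq [(1, -28), (2, -59), (3, -12), (5, 28), (7, -27), (13, 100), (17, 18), (19, 36),
    (23, -47)])))))) (.add (.mul (.g 10) (.add (.add (.mul (.pp [(1, 1022460)]) (.sq [(1, -38), (2,
    -31), (3, 58), (5, 6), (7, -7), (13, 100), (17, 9), (19, -10), (23, -14)])) (.mul (.pp [(1,
    957960)]) (.sq [(1, 10), (2, 25), (3, -7), (5, -9), (7, 11), (13, -23), (17, 100), (19, 18), (23,
    -44)]))) (.add (.mul (.pp [(1, 300)]) (.sq [(2, 17), (3, -75), (5, -37), (7, 19), (13, -20), (17,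
    -30), (19, 100), (23, -74)])) (.mul (.pp [(1, 610200)]) (.sq [(1, -5), (2, -47), (3, -73), (5,
    10), (7, 57), (13, 100), (17, 29), (19, -54), (23, -14)]))))) (.add (.mul (.g 2) (.add (.mul (.pp
    [(1, 178560)]) (.sq [(1, 3), (2, 26), (3, 41), (5, 100), (7, -68), (13, 20), (17, -55), (19, 8),
    (23, -2)])) (.add (.mul (.pp [(1, 69840)]) (.sq [(1, -13), (2, -44), (3, -23), (5, 31), (7, 5),
    (13, 7), (17, 100), (19, 20), (23, -51)])) (.mul (.pp [(1, 2560440)]) (.sq [(2, 9), (3, 6), (5,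
    -17), (7, -95), (13, 49), (17, -24), (19, -36), (23, 100)]))))) (.mul (.g 3) (.add (.mul (.pp [(1,
    591240)]) (.sq [(1, -26), (2, -32), (3, -17), (5, 100), (7, -10), (13, 96), (17, -63), (19, -17),
    (23, -8)])) (.add (.mul (.pp [(1, 1087920)]) (.sq [(1, 12), (2, -9), (3, 34), (5, 19), (7, -45),
    (13, 56), (17, -65), (19, 79), (23, -100)])) (.mul (.pp [(1, 2590980)]) (.sq [(1, -35), (2, 16),
    (3, -1), (5, 18), (7, 10), (13, 100), (17, -41), (19, -53), (23, 13)])))))))) (.add (.add (.mul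
    (.g 6) (.add (.mul (.pp [(1, 229140)]) (.sq [(1, -22), (2, -73), (3, 1), (5, -2), (7, 100), (13,
    -8), (17, 31), (19, -1)])) (.mul (.pp [(1, 449400)]) (.sq [(2, 10), (3, 33), (5, 100), (7, 19),
    (13, -41), (17, -6), (19, -36), (23, 43)])))) (.add (.mul (.g 11) (.add (.mul (.pp [(1, 718140)])
    (.sq [(1, -10), (2, -6), (3, -8), (5, -77), (7, -79), (13, -76), (17, -7), (19, 100), (23, 50)]))
    (.mul (.pp [(1, 4440540)]) (.sq [(1, 11), (2, 5), (3, -16), (5, 100), (7, 12), (13, -36), (17,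
    -8), (19, -12), (23, 1)])))) (.mul (.g 16) (.add (.mul (.pp [(1, 216000)]) (.sq [(2, -18), (3,
    45), (5, -40), (7, 14), (13, -71), (17, -91), (19, 100), (23, 21)])) (.mul (.pp [(1, 486420)])
    (.sq [(1, -16), (2, 30), (3, -10), (5, 100), (7, -16), (13, -41), (17, 58), (19, 43), (23,
    -87)])))))) (.add (.mul (.g 15) (.mul (.pp [(1, 1890360)]) (.sq [(1, -34), (2, -78), (3, 3), (5,
    9), (7, -18), (13, 100), (17, 52), (19, 42), (23, -67)]))) (.add (.mul (.g 18) (.mul (.pp [(1,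
    243780)]) (.sq [(1, -8), (2, 41), (3, 15), (5, 31), (7, -5), (13, -62), (17, -35), (19, -57), (23,
    100)]))) (.mul (.g 20) (.mul (.pp [(1, 513624)]) (.sq [(1, 10), (2, -62), (3, 13), (5, -55), (7,
    -6), (13, 29), (17, 100), (19, -14), (23, -14)])))))))) (.pp [(1, 1975467399), (2, 6453024), (3,
    5916228), (4, 6551436), (5, 6018612), (6, 5250264), (7, 6678978), (8, 5930400), (9, 6020352), (10,
    5877888), (12, 6261600), (13, 5849196), (14, 6351204), (15, 6480684), (17, 6380652), (18,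
    6196560), (19, 6283536), (20, 6111060), (21, 5006100), (23, 6726780), (25, 6047631), (26,
    5399616), (27, 6509340), (28, 6169620), (30, 5923440), (34, 6002784), (35, 5590320), (38,
    5432040), (39, 6836412), (42, 5649120), (45, 6134940), (46, 5585448), (49, 5759553), (50,
    6176760), (51, 6347016), (52, 5876520), (57, 5479320), (63, 6490560), (65, 5419482), (68,
    5941200), (69, 5879928), (70, 5605200), (75, 6149520), (76, 5761800), (78, 6832320), (85,
    6615012), (91, 5315196), (92, 5265120), (95, 5995308), (98, 5719500), (102, 5647080), (105,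
    6111600), (114, 6425520), (115, 5551152), (117, 6165240), (119, 5733612), (125, 5697500), (130,
    5904240), (133, 6072960), (138, 6460800), (147, 7041540), (153, 6059400), (161, 5533356), (169,
    6433413), (170, 6197040), (171, 5507040), (175, 5941440), (182, 4751640), (190, 6626280), (195,
    5924160), (207, 5373660), (221, 7148280), (230, 5451120), (238, 4974600), (245, 5617140), (247,
    5462448), (255, 5350080), (266, 6595200), (273, 6333840), (285, 5709000), (289, 4711902), (299,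
    6440136), (322, 7002120), (323, 5892084), (325, 6644040), (338, 6483060), (343, 6431160), (345,
    4930440), (357, 5845680), (361, 5981958), (391, 5966376), (399, 5918280), (425, 5497380), (437,
    6356760), (442, 5698560), (455, 6897240), (475, 6332160), (483, 5719080), (494, 6693120), (507,
    5499360), (529, 5833584), (575, 5637300), (578, 6148320), (595, 6775440), (598, 6609120), (637,
    5269620), (646, 6559080), (663, 6431400), (665, 5977680), (722, 5970180), (741, 4731600), (782,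
    6586680), (805, 5761800), (833, 4759920), (845, 6501720), (867, 5931540), (874, 5267520), (897,
    5890920), (931, 6038340), (969, 6256680), (1058, 5985300), (1083, 6325320), (1105, 5113800),
    (1127, 5430720), (1173, 6208800), (1183, 7010280), (1235, 4025280), (1311, 6710760), (1445,
    6123720), (1495, 6107640), (1547, 5921160), (1587, 6369180), (1615, 6270120), (1729, 6652440),
    (1805, 6244260), (1955, 6095760), (2023, 5593860), (2093, 5943720), (2185, 7249320), (2197,
    5734560), (2261, 6831600), (2527, 5795400), (2645, 6832440), (2737, 6920040), (2873, 5009940),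
    (3059, 6917400), (3211, 5553960), (3703, 6056220), (3757, 6208140), (3887, 5561820), (4199,
    6859440), (4693, 6507300), (4913, 5937120), (5083, 5486640), (5491, 6609720), (5681, 6651600),
    (6137, 5440500), (6647, 6414000), (6859, 5906280), (6877, 6132480), (7429, 5995320), (8303,
    5005020), (8993, 5311920), (10051, 5847420), (12167, 5754300)])) (by norm_num)
    (by decide +kernel)

theorem p12 : Ck (gP1 2 []) (pW (vP1 2 1)) :=
  .mk' 1000000 (.add (.add (.add (.add (.add (.mul (.pp [(1, 1823520)]) (.sq [(1, -60), (2, -61), (3, 32), (5,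
    -15), (7, -26), (13, 100), (17, 43), (19, 55), (23, -40)])) (.mul (.pp [(1, 661200)]) (.sq [(1,
    -1), (2, -45), (3, -10), (5, 100), (7, -24), (13, 31), (17, 10), (19, -3), (23, -21)]))) (.add
    (.mul (.pp [(1, 1659060)]) (.sq [(1, 50), (2, -42), (3, 5), (5, 87), (7, -41), (13, -65), (17,
    100), (19, 20), (23, -39)])) (.add (.mul (.g 7) (.add (.add (.add (.add (.mul (.pp [(1, 4056840)])
    (.sq [(1, -9), (2, -22), (3, -54), (5, 14), (7, -43), (13, 100), (17, 5), (19, -16), (23, 2)]))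
    (.mul (.pp [(1, 1443960)]) (.sq [(2, 81), (3, -52), (5, -16), (7, 57), (13, -52), (17, -100), (19,
    28), (23, 31)]))) (.add (.mul (.pp [(1, 4920)]) (.sq [(2, 35), (3, -16), (5, 100), (7, 24), (13,
    29), (17, 19), (19, 24), (23, -42)])) (.mul (.pp [(1, 3448680)]) (.sq [(2, 38), (3, 11), (5,
    -100), (7, 24), (13, 82), (17, 5), (19, -19), (23, -5)])))) (.add (.add (.mul (.pp [(1, 235680)])
    (.sq [(2, 72), (3, -21), (5, 35), (7, -25), (13, 100), (17, -41), (23, 25)])) (.mul (.pp [(1,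
    321420)]) (.sq [(1, -35), (2, 13), (3, -25), (5, -43), (7, 52), (13, -36), (17, -17), (19, 17),
    (23, 100)]))) (.add (.mul (.pp [(1, 885300)]) (.sq [(2, 100), (3, 54), (5, 4), (7, 45), (13, -14),
    (17, 63), (19, 5), (23, -46)])) (.add (.mul (.pp [(1, 4769160)]) (.sq [(5, 71), (7, -100), (19,
    71)])) (.mul (.g 16) (.add (.add (.mul (.g 0) (.pp [(1, 2066520000)])) (.add (.mul (.g 7) (.pp
    [(1, 52822200000)])) (.mul (.g 8) (.pp [(1, 71627400000)])))) (.add (.mul (.g 12) (.pp [(1,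
    17514000000)])) (.add (.mul (.g 15) (.pp [(1, 37328400000)])) (.mul (.g 19) (.pp [(1,
    11875800000)])))))))))) (.add (.add (.add (.mul (.g 18) (.add (.add (.pp [(1, 9609000000)]) (.add
    (.mul (.g 1) (.pp [(1, 239227800000)])) (.mul (.g 6) (.pp [(1, 13310400000)])))) (.add (.mul (.g
    12) (.pp [(1, 15788400000)])) (.add (.mul (.g 13) (.pp [(1, 41232000000)])) (.mul (.g 20) (.pp
    [(1, 14460000000)])))))) (.mul (.g 6) (.add (.pp [(1, 62029200000)]) (.add (.mul (.g 2) (.pp [(1,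
    60575400000)])) (.mul (.g 15) (.pp [(1, 42088200000)])))))) (.add (.mul (.g 10) (.add (.mul (.g 0)
    (.pp [(1, 2098350000)])) (.add (.mul (.g 11) (.pp [(1, 24047400000)])) (.mul (.g 17) (.pp [(1,
    62261400000)]))))) (.add (.mul (.g 13) (.add (.pp [(1, 106447200000)]) (.add (.mul (.g 15) (.pp
    [(1, 24021600000)])) (.mul (.g 20) (.pp [(1, 47542560000)]))))) (.mul (.g 3) (.add (.mul (.g 5)
    (.pp [(1, 30307800000)])) (.mul (.g 7) (.pp [(1, 14805000000)]))))))) (.add (.add (.mul (.g 9)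
    (.add (.pp [(1, 48328200000)]) (.mul (.g 17) (.pp [(1, 10819200000)])))) (.mul (.g 11) (.add (.mul
    (.g 8) (.pp [(1, 27220800000)])) (.mul (.g 17) (.pp [(1, 101944200000)]))))) (.add (.mul (.g 0)
    (.mul (.g 21) (.pp [(1, 858900000)]))) (.add (.mul (.g 1) (.mul (.g 2) (.pp [(1, 18127200000)])))
    (.mul (.g 7) (.pp [(1, 82046400000)])))))))) (.mul (.g 13) (.add (.add (.add (.mul (.pp [(1,
    9203160)]) (.sq [(2, -7), (3, 100), (5, -4), (7, -8), (13, -6), (17, 38), (19, -2), (23, 28)]))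
    (.add (.mul (.pp [(1, 3138960)]) (.sq [(1, -19), (2, -7), (3, 6), (5, 52), (7, -21), (13, 65),
    (17, 25), (19, -100), (23, -21)])) (.mul (.pp [(1, 1413600)]) (.sq [(1, 43), (2, 17), (3, -21),
    (5, 93), (7, 1), (13, -2), (17, -100), (19, 11), (23, 1)])))) (.add (.add (.mul (.pp [(1,
    2131080)]) (.sq [(2, 37), (5, 50), (7, -12), (13, 33), (17, -24), (19, 100), (23, -8)])) (.mul
    (.pp [(1, 2211540)]) (.sq [(2, 100), (3, -84), (5, -7), (7, -100), (13, -43), (17, 94), (19, -1),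
    (23, 95)]))) (.add (.mul (.g 16) (.add (.add (.pp [(1, 103050000000)]) (.add (.mul (.g 4) (.pp
    [(1, 13080000000)])) (.mul (.g 6) (.pp [(1, 89683800000)])))) (.add (.add (.mul (.g 10) (.pp [(1,
    42650400000)])) (.mul (.g 13) (.pp [(1, 48863400000)]))) (.add (.mul (.g 16) (.pp [(1,
    11374800000)])) (.mul (.g 18) (.pp [(1, 36090600000)])))))) (.mul (.g 13) (.add (.add (.pp [(1,
    26589600000)]) (.mul (.g 1) (.pp [(1, 18427800000)]))) (.add (.mul (.g 3) (.pp [(1,
    47879400000)])) (.add (.mul (.g 11) (.pp [(1, 26512800000)])) (.mul (.g 20) (.pp [(1,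
    25867800000)]))))))))) (.add (.add (.mul (.g 0) (.add (.pp [(1, 734940000)]) (.add (.mul (.g 11)
    (.pp [(1, 4168380000)])) (.mul (.g 20) (.pp [(1, 1906362000)]))))) (.add (.mul (.g 9) (.add (.pp
    [(1, 1087200000)]) (.add (.mul (.g 5) (.pp [(1, 69210000000)])) (.mul (.g 18) (.pp [(1,
    31375200000)]))))) (.mul (.g 18) (.add (.pp [(1, 23592600000)]) (.mul (.g 20) (.pp [(1,
    10799640000)])))))) (.add (.add (.mul (.g 3) (.mul (.g 21) (.pp [(1, 8804160000)]))) (.mul (.g 6)
    (.pp [(1, 11763600000)]))) (.add (.mul (.g 8) (.mul (.g 11) (.pp [(1, 13170600000)]))) (.mul (.g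
    15) (.mul (.g 20) (.pp [(1, 18396960000)]))))))))))) (.add (.add (.mul (.g 10) (.add (.add (.add
    (.mul (.pp [(1, 8768400000)]) (.sq [(7, 1), (19, -1)])) (.add (.mul (.pp [(1, 574500)]) (.sq [(1,
    -10), (2, 100), (3, 59), (5, 66), (7, 33), (13, -81), (17, -59), (19, 5), (23, -9)])) (.mul (.pp
    [(1, 813540)]) (.sq [(1, -16), (2, 68), (3, -14), (5, 10), (7, -39), (13, -6), (17, -9), (19,
    -43), (23, 100)])))) (.add (.mul (.pp [(1, 2053560)]) (.sq [(2, 100), (3, -35), (5, 9), (7, 15),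
    (13, -79), (17, 51), (19, 69), (23, -38)])) (.add (.mul (.pp [(1, 1182660)]) (.sq [(1, -5), (2,
    9), (3, -52), (5, 14), (7, 27), (13, 100), (17, -18), (19, -50), (23, -10)])) (.mul (.pp [(1,
    55440)]) (.sq [(2, 11), (3, 100), (5, -56), (7, 35), (13, 11), (17, -21), (19, -19), (23,
    -14)]))))) (.add (.add (.mul (.pp [(1, 269100)]) (.sq [(2, -4), (3, 13), (5, -59), (7, -41), (13,
    -5), (17, 100), (19, -18), (23, 96)])) (.add (.mul (.pp [(1, 2338380)]) (.sq [(1, -1), (2, 8), (3,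
    20), (5, -28), (7, 3), (13, 20), (17, 1), (19, 100), (23, -96)])) (.mul (.g 5) (.add (.add (.pp
    [(1, 81654600000)]) (.mul (.g 8) (.pp [(1, 17689200000)]))) (.add (.mul (.g 18) (.pp [(1,
    31434600000)])) (.mul (.g 20) (.pp [(1, 2473680000)]))))))) (.add (.mul (.g 16) (.add (.add (.mul
    (.g 9) (.pp [(1, 67828800000)])) (.mul (.g 10) (.pp [(1, 29634000000)]))) (.add (.mul (.g 20) (.pp
    [(1, 670680000)])) (.mul (.g 21) (.pp [(1, 5569680000)]))))) (.add (.mul (.g 21) (.add (.mul (.g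
    10) (.pp [(1, 754440000)])) (.mul (.g 18) (.pp [(1, 253080000)])))) (.mul (.g 8) (.mul (.g 11)
    (.pp [(1, 23282400000)])))))))) (.add (.mul (.g 0) (.add (.add (.add (.mul (.pp [(1, 76476)]) (.sq
    [(1, 2), (2, 100), (3, 14), (5, -7), (7, -29), (13, 39), (17, -5), (19, 51), (23, -28)])) (.mul
    (.pp [(1, 782517)]) (.sq [(3, 74), (5, -19), (7, -1), (13, 100), (19, -1), (23, -68)]))) (.add
    (.mul (.pp [(1, 28146)]) (.sq [(1, -5), (2, 12), (3, -36), (5, -2), (7, -10), (13, 100), (17,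
    -24), (19, -46), (23, 27)])) (.mul (.g 5) (.add (.add (.pp [(1, 9845340000)]) (.mul (.g 4) (.pp
    [(1, 5845680000)]))) (.add (.mul (.g 15) (.pp [(1, 7228830000)])) (.mul (.g 21) (.pp [(1,
    2863512000)]))))))) (.add (.add (.mul (.g 1) (.add (.pp [(1, 5878380000)]) (.add (.mul (.g 3) (.pp
    [(1, 12283950000)])) (.mul (.g 12) (.pp [(1, 541920000)]))))) (.mul (.g 6) (.add (.mul (.g 17)
    (.pp [(1, 2083530000)])) (.mul (.g 18) (.pp [(1, 10287330000)]))))) (.add (.mul (.g 21) (.add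
    (.mul (.g 11) (.pp [(1, 389490000)])) (.mul (.g 21) (.pp [(1, 457389600)])))) (.mul (.g 16) (.mul
    (.g 20) (.pp [(1, 337620000)]))))))) (.mul (.g 6) (.add (.add (.add (.mul (.pp [(1, 2334000)])
    (.sq [(1, 3), (2, -13), (3, 10), (5, -34), (7, -26), (13, 100), (17, -39), (19, -3), (23, -29)]))
    (.mul (.g 16) (.add (.pp [(1, 6630600000)]) (.add (.mul (.g 3) (.pp [(1, 74862000000)])) (.mul (.g
    19) (.pp [(1, 4064640000)])))))) (.add (.mul (.g 2) (.add (.mul (.g 12) (.pp [(1, 21301800000)]))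
    (.mul (.g 21) (.pp [(1, 20046360000)])))) (.mul (.g 4) (.add (.mul (.g 6) (.pp [(1,
    152243400000)])) (.mul (.g 17) (.pp [(1, 73300800000)])))))) (.add (.add (.mul (.g 8) (.mul (.g
    11) (.pp [(1, 42972600000)]))) (.mul (.g 9) (.pp [(1, 7767600000)]))) (.add (.mul (.g 12) (.mul
    (.g 15) (.pp [(1, 34261800000)]))) (.mul (.g 18) (.mul (.g 18) (.pp [(1, 19344000000)])))))))))
    (.add (.mul (.g 19) (.add (.add (.add (.mul (.pp [(1, 563304)]) (.sq [(1, -41), (2, 1), (3, 7),
    (5, 80), (7, -62), (13, 100), (17, 17), (19, 54), (23, -46)])) (.mul (.pp [(1, 304428)]) (.sq [(3,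
    57), (5, 28), (13, 100), (17, 49), (23, -87)]))) (.add (.mul (.pp [(1, 1872672)]) (.sq [(1, -14),
    (2, 24), (3, -8), (5, -6), (7, -22), (13, 100), (17, -15), (19, -26), (23, -2)])) (.mul (.pp [(1,
    94620)]) (.sq [(1, 42), (2, -48), (3, 20), (5, 16), (7, -13), (13, -53), (17, 100), (19, 24), (23,
    -41)])))) (.add (.add (.mul (.g 16) (.add (.mul (.g 17) (.pp [(1, 2596800000)])) (.add (.mul (.g
    18) (.pp [(1, 1066440000)])) (.mul (.g 19) (.pp [(1, 284808000)]))))) (.mul (.g 1) (.mul (.g 20)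
    (.pp [(1, 206088000)])))) (.add (.mul (.g 5) (.mul (.g 18) (.pp [(1, 7707480000)]))) (.mul (.g 11)
    (.mul (.g 21) (.pp [(1, 753192000)]))))))) (.add (.mul (.g 17) (.add (.add (.mul (.pp [(1,
    396600)]) (.sq [(2, -14), (5, -91), (7, -29), (13, 100), (17, 35), (19, -8), (23, 21)])) (.add
    (.mul (.pp [(1, 1814160)]) (.sq [(1, 64), (2, -32), (3, -100), (5, -20), (7, -12), (13, 34), (17,
    24), (19, -15), (23, -30)])) (.mul (.g 20) (.add (.mul (.g 11) (.pp [(1, 42156720000)])) (.add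
    (.mul (.g 20) (.pp [(1, 141432000)])) (.mul (.g 21) (.pp [(1, 2439408000)]))))))) (.add (.mul (.g
    1) (.mul (.g 8) (.pp [(1, 52156800000)]))) (.add (.mul (.g 5) (.mul (.g 18) (.pp [(1,
    22651800000)]))) (.mul (.g 16) (.mul (.g 21) (.pp [(1, 7478880000)]))))))) (.mul (.g 5) (.add
    (.add (.mul (.pp [(1, 3286440)]) (.sq [(2, 2), (3, -80), (5, 100), (7, -4), (13, -30), (17, 57),
    (23, 4)])) (.mul (.pp [(1, 424560)]) (.sq [(1, -83), (2, -8), (3, -24), (5, -69), (7, 100), (13,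
    32), (17, 42), (19, 9), (23, -3)]))) (.add (.mul (.pp [(1, 1592940)]) (.sq [(2, 80), (3, 2), (5,
    -6), (7, -12), (13, 57), (17, -69), (19, -3), (23, -100)])) (.add (.mul (.pp [(1, 4485840)]) (.sq
    [(2, -29), (3, -26), (5, 9), (7, -100), (13, 98), (17, 47), (19, -60), (23, 13)])) (.mul (.g 9)
    (.pp [(1, 70510200000)])))))))))) (.add (.add (.add (.mul (.g 11) (.add (.add (.mul (.pp [(1,
    3761640)]) (.sq [(1, -54), (2, -10), (3, -31), (5, -39), (7, 100), (13, -33), (17, 72), (19, -41),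
    (23, 32)])) (.mul (.pp [(1, 1246560)]) (.sq [(1, -37), (2, -44), (3, -47), (5, 47), (7, -46), (13,
    100), (17, 64), (19, 42), (23, -33)]))) (.add (.mul (.pp [(1, 783300)]) (.sq [(2, 74), (5, 100),
    (13, -23), (19, 1), (23, -63)])) (.mul (.g 11) (.mul (.g 20) (.pp [(1, 16181520000)])))))) (.mul
    (.g 1) (.add (.mul (.pp [(1, 15882480)]) (.sq [(1, -59), (2, 30), (3, 27), (5, -9), (7, -38), (13,
    100), (17, -12), (19, 19), (23, -23)])) (.add (.mul (.pp [(1, 2998980)]) (.sq [(2, 8), (3, -100),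
    (5, 7), (7, -6), (13, -63), (17, 92), (19, -22), (23, 33)])) (.mul (.g 18) (.mul (.g 18) (.pp [(1,
    236415000000)]))))))) (.add (.mul (.g 9) (.add (.mul (.pp [(1, 1867560)]) (.sq [(1, -58), (2,
    100), (3, 29), (5, -51), (7, 14), (13, 57), (17, -49), (19, 24), (23, 14)])) (.add (.mul (.pp [(1,
    1215720)]) (.sq [(1, -16), (2, 63), (3, 1), (5, -1), (7, -14), (13, 100), (17, 2), (19, -2), (23,
    -20)])) (.mul (.pp [(1, 3871020)]) (.sq [(2, -43), (3, -2), (5, 23), (7, 8), (13, -54), (17, -22),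
    (19, 100), (23, -82)]))))) (.add (.mul (.g 16) (.add (.mul (.pp [(1, 857520)]) (.sq [(3, -73), (5,
    100), (13, -18), (17, 70), (23, 2)])) (.add (.mul (.pp [(1, 203400)]) (.sq [(1, -37), (2, 11), (5,
    -28), (7, 4), (13, 9), (17, 100), (19, 30), (23, -31)])) (.mul (.g 18) (.mul (.g 18) (.pp [(1,
    11058000000)])))))) (.mul (.g 21) (.add (.mul (.pp [(1, 210408)]) (.sq [(1, -22), (2, 97), (3,
    -15), (5, -19), (7, -3), (13, -92), (17, -25), (19, 100), (23, 41)])) (.add (.mul (.pp [(1,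
    660888)]) (.sq [(2, -1), (3, 22), (5, 100), (7, -34), (13, -8), (17, -52), (19, -31), (23, 25)]))
    (.mul (.g 18) (.mul (.g 18) (.pp [(1, 13316400000)]))))))))) (.add (.add (.mul (.g 4) (.add (.mul
    (.pp [(1, 4437960)]) (.sq [(1, -82), (2, -84), (3, -58), (13, 100), (17, 7), (23, 36)])) (.mul
    (.pp [(1, 1584180)]) (.sq [(1, -11), (2, 31), (3, 27), (5, -100), (7, 7), (13, -63), (17, -38),
    (19, 76), (23, 19)])))) (.add (.mul (.g 12) (.add (.mul (.pp [(1, 2274420)]) (.sq [(1, 9), (2,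
    -29), (3, 17), (5, 100), (7, -3), (13, 10), (17, 15), (19, -37), (23, -20)])) (.mul (.pp [(1,
    945180)]) (.sq [(1, 18), (2, 100), (3, -40), (5, 26), (7, -15), (13, -77), (17, -22), (19, 25),
    (23, -2)])))) (.mul (.g 20) (.add (.mul (.pp [(1, 387204)]) (.sq [(1, 26), (2, -16), (3, 8), (5,
    86), (7, -33), (13, -49), (17, 100), (19, 28), (23, -45)])) (.mul (.pp [(1, 189996)]) (.sq [(1,
    -50), (2, -22), (3, 25), (5, 30), (7, -28), (13, 100), (17, 7), (19, 16), (23, -22)])))))) (.add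
    (.mul (.g 2) (.mul (.pp [(1, 1235580)]) (.sq [(1, 6), (2, -60), (3, -49), (5, 100), (7, 3), (13,
    17), (17, 21), (19, -82), (23, 35)]))) (.add (.mul (.g 8) (.mul (.pp [(1, 63120)]) (.sq [(1, -55),
    (2, -49), (3, -62), (5, 100), (7, 26), (13, 43), (17, 47), (19, -8), (23, -20)]))) (.mul (.g 15)
    (.mul (.pp [(1, 3169140)]) (.sq [(1, -46), (2, 24), (3, -12), (5, 8), (7, -26), (13, 100), (17,
    -83), (19, -21), (23, 43)])))))))) (.pp [(1, 7543184766), (2, 6298512), (3, 6382680), (4,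
    5766300), (5, 6605880), (6, 6528072), (7, 6205152), (8, 6197460), (9, 6510060), (10, 6289992),
    (12, 6077520), (13, 5842992), (14, 6729792), (15, 6186276), (17, 5755188), (18, 6911100), (19,
    5182428), (20, 5928720), (21, 6935340), (23, 5432460), (25, 6289617), (26, 4644792), (27,
    6616380), (28, 6396840), (30, 6186600), (34, 5115672), (35, 6052518), (38, 6726216), (39,
    4935672), (42, 6147120), (45, 5919000), (46, 5466624), (49, 5849517), (50, 6409860), (51,
    5703576), (52, 5628000), (57, 5608884), (63, 5901000), (65, 5327184), (68, 5955540), (69,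
    6796440), (70, 6008880), (75, 5785860), (76, 6446760), (78, 5781840), (85, 5551272), (91,
    5299032), (92, 5738160), (95, 5071734), (98, 7006800), (102, 4564200), (105, 5839080), (114,
    5646240), (115, 5448672), (117, 5486760), (119, 5126808), (125, 6186440), (130, 6163440), (133,
    6570858), (138, 5047440), (147, 5243700), (153, 6343380), (161, 6348000), (169, 6279504), (170,
    6379200), (171, 5529480), (175, 6150900), (182, 5175960), (190, 5764800), (195, 6849600), (207,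
    6302760), (221, 6877152), (230, 6042840), (238, 5195880), (245, 5834400), (247, 4673208), (255,
    5288400), (266, 5504760), (273, 5618160), (285, 5906640), (289, 5990808), (299, 7392024), (322,
    5371680), (323, 6086424), (325, 5634120), (338, 6870780), (343, 6680500), (345, 6081840), (357,
    7357200), (361, 6438909), (391, 4765848), (399, 6269160), (425, 5588460), (437, 6637680), (442,
    6422760), (455, 6083040), (475, 5150460), (483, 6661080), (494, 6703680), (507, 6235320), (529,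
    4945110), (575, 5732640), (578, 6197400), (595, 5757240), (598, 6039000), (637, 5227980), (646,
    5952840), (663, 6582120), (665, 5928360), (722, 5326080), (741, 6351120), (782, 8000760), (805,
    6407400), (833, 6237960), (845, 5979000), (867, 5196540), (874, 5652360), (897, 6106080), (931,
    4986900), (969, 6495480), (1058, 6187260), (1083, 5552820), (1105, 5917080), (1127, 5883600),
    (1173, 3667320), (1183, 6556500), (1235, 6812040), (1311, 5840280), (1445, 6366840), (1495,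
    5940600), (1547, 7013880), (1587, 5049360), (1615, 6266040), (1729, 6627960), (1805, 6546120),
    (1955, 6697440), (2023, 5874480), (2093, 6781200), (2185, 6372480), (2197, 5850240), (2261,
    5839200), (2527, 6921420), (2645, 6129240), (2737, 4880880), (2873, 5497860), (3059, 5986680),
    (3211, 5736300), (3703, 5197860), (3757, 6246060), (3887, 5381940), (4199, 5649840), (4693,
    6361200), (4913, 6042660), (5083, 5404080), (5491, 6230460), (5681, 6488160), (6137, 6455040),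
    (6647, 6295380), (6859, 5442860), (6877, 5517660), (7429, 6704520), (8303, 5144280), (8993,
    7845840), (10051, 6466260), (12167, 6772320)])) (by norm_num)
    (by decide +kernel)

theorem p13le : Ck (gP1 3 (leB 2 5)) (pW (vP1 3 1)) :=
  .mk' 1000000 (.add (.add (.add (.add (.add (.mul (.pp [(1, 1967640)]) (.sq [(1, 6), (2, -13), (3, -41), (5,
    30), (7, -9), (13, -57), (17, 100), (19, -14)])) (.add (.mul (.pp [(1, 2663220)]) (.sq [(1, 76),
    (2, 27), (3, 29), (5, 77), (7, 8), (13, -10), (17, -100), (19, -48), (23, 40)])) (.mul (.pp [(1,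
    876120)]) (.sq [(1, -81), (2, -2), (3, -41), (5, -100), (7, 91), (13, -1), (17, 46), (19, 26),
    (23, -76)])))) (.add (.mul (.pp [(1, 5143260)]) (.sq [(1, -28), (2, -33), (3, -42), (5, 100), (7,
    -57), (13, 51), (17, 22), (19, 11), (23, 3)])) (.add (.mul (.pp [(1, 5096460)]) (.sq [(1, -51),
    (2, -75), (3, -51), (5, 36), (7, -31), (13, 61), (17, 100), (19, -13), (23, 54)])) (.mul (.pp [(1,
    3964200)]) (.sq [(1, -77), (2, -33), (3, 26), (5, -100), (7, 97), (13, 36), (17, 65), (19, -34),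
    (23, 71)]))))) (.add (.add (.mul (.g 18) (.add (.add (.add (.mul (.pp [(1, 582780)]) (.sq [(1,
    48), (2, -35), (3, 43), (5, 94), (7, -94), (13, 100), (17, -34), (19, -71), (23, 49)])) (.add
    (.mul (.pp [(1, 1228140)]) (.sq [(1, 26), (2, 13), (3, -54), (5, -100), (7, 47), (13, 73), (17,
    -41), (19, -60), (23, 64)])) (.mul (.pp [(1, 1765440)]) (.sq [(1, 86), (2, -18), (3, 52), (5, 75),
    (7, 13), (13, -59), (17, 10), (19, -100), (23, -37)])))) (.add (.mul (.g 12) (.add (.add (.add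
    (.pp [(1, 31086000000)]) (.mul (.g 3) (.pp [(1, 20182800000)]))) (.add (.mul (.g 5) (.pp [(1,
    789600000)])) (.mul (.g 8) (.pp [(1, 48957000000)])))) (.add (.add (.mul (.g 11) (.pp [(1,
    179182800000)])) (.mul (.g 17) (.pp [(1, 96681000000)]))) (.add (.mul (.g 18) (.pp [(1,
    4762200000)])) (.mul (.g 22) (.pp [(1, 11756760000)])))))) (.add (.mul (.g 21) (.add (.add (.pp
    [(1, 4088280000)]) (.add (.mul (.g 5) (.pp [(1, 7524600000)])) (.mul (.g 6) (.pp [(1,
    1736880000)])))) (.add (.add (.mul (.g 9) (.pp [(1, 714120000)])) (.mul (.g 10) (.pp [(1,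
    2136720000)]))) (.add (.mul (.g 18) (.pp [(1, 2464560000)])) (.mul (.g 19) (.pp [(1,
    2856840000)])))))) (.mul (.g 9) (.add (.add (.mul (.g 5) (.pp [(1, 16261800000)])) (.mul (.g 9)
    (.pp [(1, 21316800000)]))) (.add (.mul (.g 17) (.pp [(1, 15520200000)])) (.mul (.g 19) (.pp [(1,
    12874200000)])))))))) (.add (.add (.mul (.g 0) (.add (.mul (.g 0) (.pp [(1, 307317000)])) (.add
    (.mul (.g 5) (.pp [(1, 1838910000)])) (.mul (.g 17) (.pp [(1, 1980840000)]))))) (.add (.mul (.g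
    19) (.add (.mul (.g 1) (.pp [(1, 207988800000)])) (.add (.mul (.g 7) (.pp [(1, 23708400000)]))
    (.mul (.g 19) (.pp [(1, 4080000000)]))))) (.mul (.g 10) (.add (.mul (.g 8) (.pp [(1,
    19576200000)])) (.mul (.g 10) (.pp [(1, 444600000)])))))) (.add (.mul (.g 15) (.add (.mul (.g 17)
    (.pp [(1, 4411680000)])) (.mul (.g 18) (.pp [(1, 10731480000)])))) (.add (.mul (.g 1) (.mul (.g 7)
    (.pp [(1, 12863400000)]))) (.mul (.g 17) (.mul (.g 22) (.pp [(1, 8790480000)])))))))) (.add (.mul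
    (.g 20) (.add (.add (.add (.mul (.pp [(1, 188604)]) (.sq [(1, -30), (2, -56), (3, 11), (5, 100),
    (7, -28), (13, 74), (17, 98), (19, -9), (23, 11)])) (.add (.mul (.pp [(1, 1644420)]) (.sq [(2,
    41), (3, -9), (5, 13), (7, 100), (13, -24), (17, -22), (19, -66), (23, 92)])) (.mul (.pp [(1,
    353400)]) (.sq [(1, 24), (2, 34), (3, 62), (5, 58), (7, 15), (13, -100), (17, 20), (19, -26), (23,
    20)])))) (.add (.mul (.pp [(1, 141336)]) (.sq [(2, -4), (3, -100), (5, -88), (7, 91), (13, 95),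
    (17, 50), (19, -97), (23, -71)])) (.add (.mul (.pp [(1, 373752)]) (.sq [(1, 86), (2, -60), (3,
    44), (5, 97), (7, -53), (13, -43), (17, -100), (19, -17), (23, 34)])) (.mul (.pp [(1, 3641652)])
    (.sq [(1, 60), (2, -5), (3, -9), (5, -14), (7, -9), (13, -100), (17, 17), (19, 8), (23, -15)])))))
    (.add (.add (.mul (.g 17) (.add (.add (.add (.mul (.g 1) (.pp [(1, 7766400000)])) (.mul (.g 2)
    (.pp [(1, 1274640000)]))) (.add (.mul (.g 7) (.pp [(1, 2011080000)])) (.mul (.g 8) (.pp [(1,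
    3429840000)])))) (.add (.add (.mul (.g 12) (.pp [(1, 5163480000)])) (.mul (.g 15) (.pp [(1,
    2485584000)]))) (.add (.mul (.g 19) (.pp [(1, 4754160000)])) (.add (.mul (.g 20) (.pp [(1,
    776664000)])) (.mul (.g 21) (.pp [(1, 214176000)]))))))) (.add (.mul (.g 5) (.add (.add (.pp [(1,
    7689960000)]) (.mul (.g 4) (.pp [(1, 3977640000)]))) (.add (.mul (.g 9) (.pp [(1, 5183520000)]))
    (.add (.mul (.g 10) (.pp [(1, 2869680000)])) (.mul (.g 22) (.pp [(1, 1006128000)])))))) (.mul (.g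
    15) (.add (.add (.mul (.g 3) (.pp [(1, 8644920000)])) (.mul (.g 13) (.pp [(1, 473400000)]))) (.add
    (.mul (.g 16) (.pp [(1, 1022376000)])) (.mul (.g 19) (.pp [(1, 2424336000)]))))))) (.add (.add
    (.mul (.g 0) (.add (.mul (.g 8) (.pp [(1, 207858000)])) (.mul (.g 13) (.pp [(1, 735456000)]))))
    (.mul (.g 1) (.add (.mul (.g 11) (.pp [(1, 13440000)])) (.mul (.g 21) (.pp [(1, 1821360000)])))))
    (.add (.mul (.g 9) (.add (.mul (.g 9) (.pp [(1, 16015560000)])) (.mul (.g 12) (.pp [(1,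
    960000000)])))) (.mul (.g 19) (.add (.mul (.g 21) (.pp [(1, 2662368000)])) (.mul (.g 22) (.pp [(1,
    1371960000)]))))))))) (.mul (.g 0) (.add (.add (.mul (.pp [(1, 62649)]) (.sq [(2, -40), (3, 5),
    (5, 51), (7, 6), (13, -47), (17, 97), (19, -40), (23, 100)])) (.add (.mul (.pp [(1, 47418)]) (.sq
    [(2, -75), (3, 86), (5, -46), (7, 15), (13, 100), (17, -5), (19, -15), (23, 35)])) (.mul (.g 1)
    (.add (.add (.add (.pp [(1, 1708200000)]) (.mul (.g 0) (.pp [(1, 400435500)]))) (.add (.mul (.g 6)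
    (.pp [(1, 1032900000)])) (.mul (.g 9) (.pp [(1, 2489790000)])))) (.add (.add (.mul (.g 10) (.pp
    [(1, 1053030000)])) (.mul (.g 11) (.pp [(1, 3720210000)]))) (.add (.mul (.g 17) (.pp [(1,
    47490000)])) (.mul (.g 22) (.pp [(1, 3057234000)])))))))) (.add (.mul (.g 22) (.add (.add (.pp
    [(1, 114690000)]) (.add (.mul (.g 3) (.pp [(1, 102756000)])) (.mul (.g 8) (.pp [(1,
    488160000)])))) (.add (.mul (.g 13) (.pp [(1, 776682000)])) (.add (.mul (.g 21) (.pp [(1,
    458702400)])) (.mul (.g 22) (.pp [(1, 144462000)])))))) (.add (.mul (.g 5) (.add (.add (.pp [(1,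
    3478890000)]) (.mul (.g 3) (.pp [(1, 27692430000)]))) (.add (.mul (.g 4) (.pp [(1, 1782780000)]))
    (.add (.mul (.g 17) (.pp [(1, 2706990000)])) (.mul (.g 19) (.pp [(1, 1760040000)])))))) (.mul (.g
    15) (.add (.pp [(1, 4421832000)]) (.add (.mul (.g 12) (.pp [(1, 662526000)])) (.mul (.g 21) (.pp
    [(1, 25461600)]))))))))))) (.add (.mul (.g 15) (.add (.add (.mul (.pp [(1, 151992)]) (.sq [(1,
    -27), (2, -26), (3, -44), (5, 52), (7, 6), (13, -49), (17, 100), (19, 21), (23, 36)])) (.mul (.g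
    3) (.add (.add (.pp [(1, 12725160000)]) (.add (.mul (.g 2) (.pp [(1, 18536520000)])) (.mul (.g 6)
    (.pp [(1, 52773480000)])))) (.add (.mul (.g 11) (.pp [(1, 10404840000)])) (.add (.mul (.g 21) (.pp
    [(1, 2117544000)])) (.mul (.g 22) (.pp [(1, 51648000)]))))))) (.add (.mul (.g 10) (.add (.add (.pp
    [(1, 4107600000)]) (.mul (.g 2) (.pp [(1, 2227560000)]))) (.add (.mul (.g 11) (.pp [(1,
    417600000)])) (.add (.mul (.g 19) (.pp [(1, 3473760000)])) (.mul (.g 21) (.pp [(1,
    231864000)])))))) (.add (.mul (.g 4) (.add (.add (.mul (.g 2) (.pp [(1, 3218640000)])) (.mul (.g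
    11) (.pp [(1, 8019360000)]))) (.add (.mul (.g 17) (.pp [(1, 30308280000)])) (.mul (.g 21) (.pp
    [(1, 1287240000)]))))) (.mul (.g 7) (.add (.pp [(1, 17586120000)]) (.mul (.g 16) (.pp [(1,
    51022080000)])))))))) (.add (.mul (.g 5) (.add (.add (.mul (.pp [(1, 607800)]) (.sq [(1, 25), (2,
    -8), (3, -46), (5, 40), (7, 86), (13, -59), (17, 66), (19, -100), (23, 53)])) (.add (.mul (.pp
    [(1, 503580)]) (.sq [(1, -55), (2, 9), (3, -19), (5, -36), (7, 20), (13, 17), (17, 100), (19,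
    -37), (23, 6)])) (.mul (.pp [(1, 254580)]) (.sq [(1, -51), (2, -60), (3, -20), (5, 69), (7, -6),
    (13, 33), (17, -29), (19, 100), (23, -26)])))) (.add (.add (.mul (.pp [(1, 620220)]) (.sq [(1,
    -28), (2, 39), (3, -60), (5, 21), (7, -15), (13, -75), (17, 100), (19, 28), (23, -27)])) (.mul (.g
    10) (.add (.add (.mul (.g 1) (.pp [(1, 32532000000)])) (.add (.mul (.g 5) (.pp [(1,
    12004200000)])) (.mul (.g 10) (.pp [(1, 7847400000)])))) (.add (.mul (.g 11) (.pp [(1,
    13941600000)])) (.add (.mul (.g 21) (.pp [(1, 106560000)])) (.mul (.g 22) (.pp [(1,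
    1422840000)]))))))) (.add (.mul (.g 7) (.add (.mul (.g 7) (.pp [(1, 7218000000)])) (.mul (.g 19)
    (.pp [(1, 3270000000)])))) (.mul (.g 4) (.mul (.g 13) (.pp [(1, 38707200000)]))))))) (.mul (.g 13)
    (.add (.add (.mul (.pp [(1, 1582740)]) (.sq [(1, -87), (2, 3), (3, 52), (5, -35), (7, 100), (13,
    56), (17, 13), (19, -53), (23, 28)])) (.add (.mul (.pp [(1, 845460)]) (.sq [(1, 71), (2, 4), (3,
    69), (5, 89), (7, 30), (13, -27), (17, -10), (19, -100), (23, 2)])) (.mul (.pp [(1, 316920)]) (.sq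
    [(1, -74), (2, 62), (3, 26), (5, 100), (7, 31), (13, -13), (17, 24), (19, -5), (23, -39)]))))
    (.add (.mul (.g 3) (.mul (.g 13) (.pp [(1, 17693400000)]))) (.add (.mul (.g 9) (.mul (.g 9) (.pp
    [(1, 691800000)]))) (.mul (.g 10) (.mul (.g 10) (.pp [(1, 2607600000)]))))))))))) (.add (.add
    (.add (.mul (.g 4) (.add (.add (.mul (.pp [(1, 295080)]) (.sq [(1, -40), (2, -39), (3, 11), (5,
    -22), (7, 28), (13, 65), (17, 100), (19, -22), (23, -53)])) (.mul (.pp [(1, 1143420)]) (.sq [(1,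
    -38), (2, -55), (3, -56), (5, -44), (7, -18), (13, 100), (17, 21), (19, 10), (23, -2)]))) (.add
    (.mul (.pp [(1, 1121220)]) (.sq [(1, 62), (2, -10), (3, -44), (5, -8), (7, 73), (13, -56), (17,
    78), (19, -100), (23, 37)])) (.mul (.pp [(1, 102900)]) (.sq [(3, -14), (5, -72), (7, 25), (13,
    -54), (17, 100), (19, 2), (23, -55)]))))) (.add (.mul (.g 21) (.add (.add (.mul (.pp [(1, 64116)])
    (.sq [(1, -13), (2, -92), (3, 17), (5, 48), (7, -29), (13, 52), (17, 100), (19, -46), (23, 96)]))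
    (.mul (.pp [(1, 1708116)]) (.sq [(1, -10), (2, -36), (3, -5), (5, 12), (7, 28), (13, -57), (17,
    100), (19, 1), (23, -28)]))) (.add (.mul (.pp [(1, 1359288)]) (.sq [(1, 100), (2, 25), (3, 28),
    (5, 59), (7, -99), (13, -61), (17, 5), (19, -12), (23, -3)])) (.mul (.pp [(1, 633180)]) (.sq [(1,
    38), (2, 84), (5, -59), (7, 100), (13, -55), (17, -100), (19, -46), (23, 42)]))))) (.mul (.g 1)
    (.add (.mul (.pp [(1, 6043560)]) (.sq [(1, -33), (2, 25), (3, -12), (5, 100), (7, 7), (13, -33),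
    (17, 83), (19, -34), (23, 35)])) (.add (.mul (.pp [(1, 3129240)]) (.sq [(2, -21), (3, 100), (5,
    28), (7, 40), (13, 17), (17, -71), (19, 17), (23, 13)])) (.mul (.g 19) (.mul (.g 19) (.pp [(1,
    33594000000)])))))))) (.add (.mul (.g 11) (.add (.mul (.pp [(1, 7980)]) (.sq [(1, -13), (2, -23),
    (3, -44), (5, 63), (7, -42), (13, 18), (17, 100), (19, -49), (23, 90)])) (.add (.mul (.pp [(1,
    289980)]) (.sq [(1, -7), (2, 100), (3, 33), (5, -88), (7, 18), (13, -32), (17, -22), (19, 1), (23,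
    -62)])) (.mul (.pp [(1, 585360)]) (.sq [(1, -35), (2, -37), (3, -32), (5, -9), (7, -11), (17,
    100), (19, 10), (23, -25)]))))) (.add (.mul (.g 17) (.add (.mul (.pp [(1, 822000)]) (.sq [(1,
    -48), (2, 16), (3, -33), (5, 2), (7, -18), (13, 10), (17, 100), (19, -11), (23, 1)])) (.add (.mul
    (.pp [(1, 3287880)]) (.sq [(1, 16), (2, 48), (3, 84), (5, 34), (7, 12), (13, 29), (17, -100), (19,
    -39), (23, 70)])) (.mul (.pp [(1, 1281660)]) (.sq [(1, -40), (2, -26), (3, 36), (5, -60), (7,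
    100), (13, 3), (17, 43), (19, -39), (23, 34)]))))) (.mul (.g 22) (.add (.mul (.pp [(1, 135384)])
    (.sq [(1, 33), (2, 34), (3, 39), (5, -11), (7, 27), (13, -4), (17, -100), (19, -11), (23, -14)]))
    (.add (.mul (.pp [(1, 342180)]) (.sq [(1, 20), (2, 31), (3, 21), (5, 100), (7, 63), (13, -78),
    (17, -28), (19, -13), (23, -8)])) (.mul (.pp [(1, 1656300)]) (.sq [(1, -1), (2, -8), (5, 100), (7,
    -22), (13, 15), (17, -2), (19, 4), (23, -5)])))))))) (.add (.add (.mul (.g 3) (.add (.mul (.pp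
    [(1, 893820)]) (.sq [(1, -2), (2, -71), (3, -100), (5, 22), (7, -33), (13, 66), (17, 68), (19,
    -11), (23, -14)])) (.mul (.pp [(1, 294420)]) (.sq [(1, -14), (2, -21), (3, 3), (5, 100), (7, 9),
    (13, -52), (17, 79), (19, 3), (23, -1)])))) (.add (.mul (.g 6) (.add (.mul (.pp [(1, 1277400)])
    (.sq [(1, -100), (2, 10), (3, -14), (5, -9), (7, -27), (13, 33), (17, 72), (19, 61), (23, -66)]))
    (.mul (.pp [(1, 803880)]) (.sq [(1, 11), (2, 27), (3, 13), (5, 10), (7, -52), (13, 69), (17,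
    -100), (19, -11), (23, 90)])))) (.mul (.g 9) (.add (.mul (.pp [(1, 516240)]) (.sq [(1, 54), (2,
    -9), (3, -51), (5, 52), (7, -30), (13, -100), (17, 100), (19, -24), (23, 27)])) (.mul (.pp [(1,
    288000)]) (.sq [(1, -9), (2, 8), (3, -5), (5, -100), (7, 68), (13, -4), (17, 64), (19, -44), (23,
    -11)])))))) (.add (.add (.mul (.g 10) (.add (.mul (.pp [(1, 493800)]) (.sq [(2, -39), (3, -5), (5,
    -68), (7, 64), (13, -100), (17, 9), (19, 48), (23, -61)])) (.mul (.pp [(1, 154620)]) (.sq [(1, 8),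
    (2, 92), (3, 45), (5, -36), (7, -25), (13, -38), (17, -100), (19, 40), (23, 11)])))) (.mul (.g 12)
    (.mul (.pp [(1, 554520)]) (.sq [(1, 11), (2, 38), (3, 16), (5, 59), (7, -56), (13, 62), (17,
    -100), (19, -4), (23, 40)])))) (.add (.mul (.g 14) (.pp [(1, 529961)])) (.mul (.g 16) (.mul (.pp
    [(1, 4001040)]) (.sq [(1, -23), (2, -58), (3, -72), (5, -29), (7, 57), (13, -20), (17, 100), (19,
    -25), (23, 18)])))))))) (.pp [(1, 2811739488), (2, 4320600), (3, 4901556), (4, 5984694), (5,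
    3898764), (6, 6332592), (7, 4508916), (8, 6426000), (9, 5311281), (10, 7109448), (12, 5936940),
    (13, 6764136), (14, 5649228), (15, 4380222), (17, 7329960), (18, 6383520), (19, 7824384), (20,
    5670540), (21, 5305308), (23, 7218984), (25, 6174633), (26, 7082880), (27, 5602920), (28,
    6341460), (30, 6242760), (34, 6913932), (35, 8200188), (38, 6501204), (39, 6685194), (42,
    5160720), (45, 5769300), (46, 7165236), (49, 7205850), (50, 5943900), (51, 5984874), (52,
    5194200), (57, 7772304), (63, 6723240), (65, 5688822), (68, 5852160), (69, 6434280), (70,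
    6441120), (75, 5958780), (76, 6046620), (78, 5428680), (85, 8009454), (91, 7062228), (92,
    5978520), (95, 5837016), (98, 5665440), (102, 6503400), (105, 6783600), (114, 5670240), (115,
    6844248), (117, 5798460), (119, 7265760), (125, 5907320), (130, 6179040), (133, 5725740), (138,
    5579760), (147, 6110040), (153, 6249480), (161, 5433828), (169, 6190113), (170, 5355120), (171,
    5843520), (175, 5090340), (182, 5677200), (190, 5344560), (195, 6215760), (207, 5505300), (221,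
    4294506), (230, 5468160), (238, 6399120), (245, 5770260), (247, 4785936), (255, 5864640), (266,
    6734880), (273, 6873120), (285, 6742800), (289, 5929491), (299, 4288824), (322, 6890640), (323,
    4435716), (325, 6223200), (338, 6123660), (343, 5604580), (345, 6074280), (357, 6175440), (361,
    5586270), (391, 5904948), (399, 6104640), (425, 6121380), (437, 4265292), (442, 5938920), (455,
    5446200), (475, 5976480), (483, 6068040), (494, 6371880), (507, 5334720), (529, 6549042), (575,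
    5497440), (578, 6058920), (595, 5719440), (598, 5666880), (637, 5962140), (646, 6336960), (663,
    6756720), (665, 6200400), (722, 5516400), (741, 6223440), (782, 5871360), (805, 5194560), (833,
    5608440), (845, 6067500), (867, 5755800), (874, 4810080), (897, 4961640), (931, 5840760), (969,
    5957520), (1058, 5719260), (1083, 5283780), (1105, 5489160), (1127, 6403500), (1173, 6298920),
    (1183, 5660880), (1235, 6558480), (1311, 5750880), (1445, 6636840), (1495, 6740880), (1547,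
    6865920), (1587, 6400860), (1615, 5133720), (1729, 5365680), (1805, 6160620), (1955, 5603520),
    (2023, 4753500), (2093, 5763960), (2185, 5884800), (2197, 5736720), (2261, 5547600), (2527,
    6436020), (2645, 6340020), (2737, 5702760), (2873, 6294300), (3059, 5997120), (3211, 6127740),
    (3703, 5465700), (3757, 6042120), (3887, 6302640), (4199, 5962680), (4693, 6431400), (4913,
    6024660), (5083, 5883960), (5491, 5632680), (5681, 7067280), (6137, 6846420), (6647, 6322200),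
    (6859, 5773980), (6877, 6383700), (7429, 6766800), (8303, 6381360), (8993, 5599200), (10051,
    6543480), (12167, 5692200)])) (by norm_num)
    (by decide +kernel)

theorem p13ge : Ck (gP1 3 (geB 2 5)) (pW (vP1 3 1)) :=
  .mk' 1000000 (.add (.add (.add (.add (.add (.mul (.pp [(1, 1099320)]) (.sq [(1, 10), (2, 27), (3, 60), (5,
    -38), (7, 32), (13, 38), (17, -95), (19, -100), (23, 98)])) (.add (.mul (.pp [(1, 255240)]) (.sq
    [(1, 8), (2, 36), (3, 48), (5, -45), (7, -39), (13, 37), (17, -61), (19, -46), (23, 100)])) (.mul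
    (.g 5) (.add (.add (.add (.mul (.pp [(1, 1824900)]) (.sq [(1, -8), (2, -1), (3, -60), (5, 100),
    (7, -48), (13, 54), (17, -52), (19, -8), (23, 15)])) (.add (.mul (.pp [(1, 1675800)]) (.sq [(1,
    26), (2, -20), (3, -33), (5, -90), (7, 100), (13, -40), (17, 47), (19, -58), (23, 7)])) (.mul (.pp
    [(1, 5344260)]) (.sq [(1, -54), (2, 100), (3, 64), (5, -79), (7, -5), (13, 36), (17, -77), (19,
    23), (23, -2)])))) (.add (.mul (.pp [(1, 212640)]) (.sq [(1, -25), (2, -16), (3, 20), (5, 97), (7,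
    -100), (13, 94), (17, 35), (19, -36), (23, 24)])) (.add (.mul (.pp [(1, 1993140)]) (.sq [(2, -23),
    (3, 13), (5, 28), (7, -25), (13, 24), (17, 6), (19, -69), (23, 100)])) (.mul (.g 0) (.add (.add
    (.pp [(1, 7169340000)]) (.add (.mul (.g 3) (.pp [(1, 15937470000)])) (.mul (.g 4) (.pp [(1,
    2202480000)])))) (.add (.add (.mul (.g 9) (.pp [(1, 4341750000)])) (.mul (.g 12) (.pp [(1,
    5700300000)]))) (.add (.mul (.g 17) (.pp [(1, 172530000)])) (.mul (.g 22) (.pp [(1,
    1714512000)]))))))))) (.add (.add (.mul (.g 7) (.add (.add (.pp [(1, 7526400000)]) (.add (.mul (.g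
    3) (.pp [(1, 37830600000)])) (.mul (.g 5) (.pp [(1, 2698800000)])))) (.add (.add (.mul (.g 9) (.pp
    [(1, 56938800000)])) (.mul (.g 12) (.pp [(1, 24456000000)]))) (.add (.mul (.g 18) (.pp [(1,
    29958000000)])) (.mul (.g 20) (.pp [(1, 6408120000)])))))) (.add (.mul (.g 20) (.add (.add (.mul
    (.g 9) (.pp [(1, 11904120000)])) (.add (.mul (.g 11) (.pp [(1, 8706480000)])) (.mul (.g 15) (.pp
    [(1, 6319656000)])))) (.add (.mul (.g 17) (.pp [(1, 8197920000)])) (.add (.mul (.g 21) (.pp [(1,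
    874632000)])) (.mul (.g 22) (.pp [(1, 2689920000)])))))) (.mul (.g 18) (.add (.add (.mul (.g 12)
    (.pp [(1, 25891200000)])) (.mul (.g 13) (.pp [(1, 22330800000)]))) (.add (.mul (.g 17) (.pp [(1,
    19013400000)])) (.add (.mul (.g 19) (.pp [(1, 55364400000)])) (.mul (.g 21) (.pp [(1,
    17665320000)])))))))) (.add (.add (.mul (.g 10) (.add (.add (.mul (.g 6) (.pp [(1, 9517200000)]))
    (.mul (.g 8) (.pp [(1, 20080200000)]))) (.add (.mul (.g 11) (.pp [(1, 26080200000)])) (.mul (.g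
    19) (.pp [(1, 4062600000)]))))) (.mul (.g 15) (.add (.pp [(1, 5077920000)]) (.add (.mul (.g 6)
    (.pp [(1, 17718120000)])) (.mul (.g 11) (.pp [(1, 10703520000)])))))) (.add (.mul (.g 9) (.mul (.g
    9) (.pp [(1, 13555800000)]))) (.mul (.g 12) (.mul (.g 13) (.pp [(1, 1730400000)])))))))))) (.add
    (.mul (.g 13) (.add (.add (.add (.mul (.pp [(1, 4225320)]) (.sq [(1, 53), (2, 72), (3, -91), (5,
    13), (7, -2), (13, -37), (17, -77), (19, 8), (23, 100)])) (.mul (.pp [(1, 2487480)]) (.sq [(2,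
    37), (3, 15), (5, -8), (7, -2), (13, -31), (17, 100), (19, -69), (23, 49)]))) (.add (.mul (.pp
    [(1, 113880)]) (.sq [(1, -95), (2, -41), (3, -76), (5, -32), (7, 100), (13, -6), (17, 48), (23,
    51)])) (.add (.mul (.pp [(1, 165840)]) (.sq [(1, 7), (2, -66), (3, -23), (5, 100), (7, -47), (13,
    -99), (17, 4), (19, -19), (23, 52)])) (.mul (.g 17) (.add (.add (.add (.mul (.g 1) (.pp [(1,
    54733200000)])) (.mul (.g 4) (.pp [(1, 40654200000)]))) (.add (.mul (.g 7) (.pp [(1,
    66898800000)])) (.mul (.g 10) (.pp [(1, 13696200000)])))) (.add (.add (.mul (.g 12) (.pp [(1,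
    10032000000)])) (.mul (.g 15) (.pp [(1, 25722360000)]))) (.add (.mul (.g 18) (.pp [(1,
    73535400000)])) (.mul (.g 20) (.pp [(1, 2786280000)]))))))))) (.add (.add (.mul (.g 0) (.add (.add
    (.mul (.g 6) (.pp [(1, 3477180000)])) (.add (.mul (.g 7) (.pp [(1, 2332650000)])) (.mul (.g 10)
    (.pp [(1, 1250310000)])))) (.add (.mul (.g 11) (.pp [(1, 1984650000)])) (.add (.mul (.g 19) (.pp
    [(1, 25710000)])) (.mul (.g 21) (.pp [(1, 171612000)])))))) (.mul (.g 15) (.add (.add (.mul (.g 6)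
    (.pp [(1, 30656160000)])) (.mul (.g 7) (.pp [(1, 1735800000)]))) (.add (.mul (.g 10) (.pp [(1,
    10688040000)])) (.add (.mul (.g 11) (.pp [(1, 22195680000)])) (.mul (.g 21) (.pp [(1,
    214608000)]))))))) (.add (.mul (.g 13) (.add (.add (.pp [(1, 64662000000)]) (.mul (.g 9) (.pp [(1,
    3670800000)]))) (.add (.mul (.g 11) (.pp [(1, 65284800000)])) (.mul (.g 21) (.pp [(1,
    10527120000)]))))) (.add (.mul (.g 19) (.add (.add (.mul (.g 6) (.pp [(1, 34486200000)])) (.mul
    (.g 10) (.pp [(1, 21991800000)]))) (.add (.mul (.g 12) (.pp [(1, 21670200000)])) (.mul (.g 22)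
    (.pp [(1, 9544680000)]))))) (.mul (.g 9) (.add (.mul (.g 8) (.pp [(1, 2212200000)])) (.mul (.g 10)
    (.pp [(1, 11060400000)]))))))))) (.add (.mul (.g 1) (.add (.add (.add (.mul (.pp [(1, 1832460)])
    (.sq [(2, -15), (3, -27), (5, 99), (7, -1), (13, -42), (17, 100), (19, -8), (23, -39)])) (.mul
    (.pp [(1, 2064060)]) (.sq [(2, 100), (3, 1), (5, -35), (7, 5), (13, -69), (17, 24), (19, -10),
    (23, 11)]))) (.add (.mul (.pp [(1, 1883100)]) (.sq [(1, 1), (2, 22), (3, -15), (5, -23), (7,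
    -100), (13, 81), (17, 68), (19, -67), (23, 62)])) (.mul (.pp [(1, 5299560)]) (.sq [(1, 73), (2,
    -27), (3, 26), (5, 74), (7, -8), (13, -100), (17, -16), (19, 22), (23, 14)])))) (.add (.add (.mul
    (.g 0) (.add (.add (.add (.pp [(1, 1466520000)]) (.mul (.g 0) (.pp [(1, 49719000)]))) (.add (.mul
    (.g 2) (.pp [(1, 2672340000)])) (.mul (.g 6) (.pp [(1, 3660390000)])))) (.add (.add (.mul (.g 10)
    (.pp [(1, 1788810000)])) (.mul (.g 12) (.pp [(1, 2092140000)]))) (.add (.mul (.g 17) (.pp [(1,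
    1807890000)])) (.add (.mul (.g 18) (.pp [(1, 79110000)])) (.mul (.g 22) (.pp [(1,
    3641970000)]))))))) (.mul (.g 19) (.add (.add (.mul (.g 7) (.pp [(1, 64741800000)])) (.mul (.g 9)
    (.pp [(1, 11092200000)]))) (.add (.mul (.g 15) (.pp [(1, 23262360000)])) (.add (.mul (.g 19) (.pp
    [(1, 211571400000)])) (.mul (.g 20) (.pp [(1, 11461800000)]))))))) (.add (.mul (.g 17) (.add (.mul
    (.g 10) (.pp [(1, 18994800000)])) (.add (.mul (.g 15) (.pp [(1, 451560000)])) (.mul (.g 20) (.pp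
    [(1, 3100080000)]))))) (.add (.mul (.g 18) (.add (.mul (.g 10) (.pp [(1, 37975800000)])) (.add
    (.mul (.g 12) (.pp [(1, 70797600000)])) (.mul (.g 15) (.pp [(1, 19935480000)]))))) (.mul (.g 6)
    (.mul (.g 20) (.pp [(1, 225600000)])))))))) (.mul (.g 18) (.add (.add (.add (.mul (.pp [(1,
    441060)]) (.sq [(1, 44), (2, 42), (3, 27), (5, 4), (7, -85), (13, 100), (17, -6), (19, -32), (23,
    -12)])) (.mul (.pp [(1, 2122860)]) (.sq [(1, 28), (2, -8), (3, -100), (5, 12), (7, -79), (13, 28),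
    (17, -15), (19, 87), (23, -13)]))) (.add (.mul (.pp [(1, 6125280)]) (.sq [(1, -17), (2, -36), (3,
    -28), (5, 1), (7, -31), (13, 26), (17, 36), (19, -28), (23, 100)])) (.mul (.g 22) (.add (.add
    (.mul (.g 0) (.pp [(1, 625188000)])) (.add (.mul (.g 7) (.pp [(1, 5991480000)])) (.mul (.g 10)
    (.pp [(1, 533760000)])))) (.add (.mul (.g 15) (.pp [(1, 18456000)])) (.add (.mul (.g 17) (.pp [(1,
    2663040000)])) (.mul (.g 22) (.pp [(1, 1431936000)])))))))) (.add (.add (.mul (.g 10) (.add (.mul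
    (.g 6) (.pp [(1, 6986400000)])) (.add (.mul (.g 7) (.pp [(1, 26853600000)])) (.mul (.g 20) (.pp
    [(1, 250680000)]))))) (.mul (.g 11) (.add (.mul (.g 12) (.pp [(1, 80118000000)])) (.mul (.g 21)
    (.pp [(1, 32092440000)]))))) (.add (.mul (.g 17) (.add (.mul (.g 20) (.pp [(1, 5836680000)]))
    (.mul (.g 21) (.pp [(1, 3354240000)])))) (.mul (.g 12) (.mul (.g 18) (.pp [(1,
    43721400000)])))))))))) (.add (.add (.mul (.g 22) (.add (.add (.add (.mul (.pp [(1, 22788)]) (.sq
    [(1, 23), (2, -90), (3, 12), (5, 100), (7, -27), (13, 18), (17, 30), (19, -31), (23, 14)])) (.mul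
    (.pp [(1, 1216296)]) (.sq [(1, 9), (2, -6), (3, -18), (5, 100), (7, -46), (13, -13), (17, 46),
    (19, 4), (23, -37)]))) (.add (.mul (.pp [(1, 91104)]) (.sq [(1, 41), (2, 77), (3, 5), (5, 60), (7,
    -86), (13, -8), (17, -100), (19, -1), (23, 53)])) (.mul (.pp [(1, 473232)]) (.sq [(1, -48), (2,
    -55), (3, 7), (5, 92), (7, -8), (13, 100), (17, -51), (19, 8), (23, -41)])))) (.add (.add (.mul
    (.pp [(1, 945804)]) (.sq [(1, -2), (2, 53), (3, -6), (5, 60), (7, -47), (13, -37), (17, 25), (19,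
    -37), (23, 100)])) (.mul (.g 0) (.add (.mul (.g 17) (.pp [(1, 1344030000)])) (.mul (.g 22) (.pp
    [(1, 144332400)]))))) (.add (.mul (.g 6) (.mul (.g 9) (.pp [(1, 2648760000)]))) (.mul (.g 17)
    (.mul (.g 20) (.pp [(1, 1056840000)]))))))) (.add (.mul (.g 15) (.add (.add (.mul (.pp [(1,
    122124)]) (.sq [(1, 26), (2, 54), (3, 32), (5, 48), (7, 55), (13, -100), (17, 23), (19, -51), (23,
    6)])) (.mul (.pp [(1, 712236)]) (.sq [(1, 9), (2, 29), (3, -2), (5, -19), (7, -15), (13, 100),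
    (17, -52), (19, -70), (23, 43)]))) (.add (.mul (.pp [(1, 268272)]) (.sq [(2, 2), (5, -10), (7, 5),
    (13, 50), (17, 5), (19, -27), (23, 7)])) (.mul (.pp [(1, 140640)]) (.sq [(2, 35), (3, -82), (5,
    88), (7, -29), (13, -97), (17, 31), (19, -59), (23, 100)]))))) (.mul (.g 17) (.add (.add (.mul
    (.pp [(1, 307500)]) (.sq [(1, -57), (2, -13), (3, 29), (5, -63), (7, 3), (13, 26), (17, 26), (19,
    100), (23, -57)])) (.mul (.pp [(1, 727800)]) (.sq [(1, -10), (2, 100), (3, 3), (5, -85), (7, -1),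
    (13, -5), (17, -41), (19, 9), (23, 15)]))) (.add (.mul (.pp [(1, 1371300)]) (.sq [(1, -17), (2,
    100), (3, 9), (5, 32), (7, -28), (13, -38), (17, 19), (19, 27), (23, -45)])) (.mul (.pp [(1,
    1214640)]) (.sq [(1, 62), (2, 53), (3, 53), (5, 64), (7, -60), (13, -40), (17, 5), (19, -100),
    (23, 96)]))))))) (.add (.mul (.g 20) (.add (.add (.mul (.pp [(1, 407436)]) (.sq [(1, -98), (2,
    -11), (3, 1), (5, -42), (7, 55), (13, 100), (17, 41), (19, 50), (23, -74)])) (.mul (.pp [(1,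
    1610412)]) (.sq [(1, -40), (2, -42), (3, 27), (5, -6), (7, -1), (13, 100), (17, -25), (19, -19),
    (23, 4)]))) (.add (.mul (.pp [(1, 245664)]) (.sq [(1, 21), (2, -65), (3, -31), (5, 33), (7, -32),
    (13, -53), (17, 100), (19, 47), (23, -47)])) (.mul (.pp [(1, 3420636)]) (.sq [(1, -43), (2, 16),
    (3, -18), (5, 17), (7, 5), (13, 100), (17, 15), (19, -19), (23, -17)]))))) (.add (.mul (.g 4)
    (.add (.mul (.pp [(1, 340020)]) (.sq [(1, -13), (2, 38), (3, 33), (5, -100), (7, 83), (13, -75),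
    (17, -77), (19, 58), (23, -44)])) (.add (.mul (.pp [(1, 700920)]) (.sq [(1, -70), (2, -22), (3,
    -55), (5, -36), (7, 43), (13, -41), (17, 100), (19, 73), (23, -34)])) (.mul (.pp [(1, 544740)])
    (.sq [(1, -35), (2, -6), (3, 31), (5, 68), (7, -82), (13, 100), (17, -32), (19, 23), (23,
    -11)]))))) (.mul (.g 7) (.add (.mul (.pp [(1, 132720)]) (.sq [(1, -31), (2, -49), (3, -83), (5,
    -19), (7, -16), (13, 57), (17, 82), (19, 99), (23, -100)])) (.add (.mul (.pp [(1, 6089220)]) (.sq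
    [(5, -71), (7, 100), (23, -71)])) (.mul (.pp [(1, 2234760)]) (.sq [(1, 1), (2, -70), (3, -37), (5,
    87), (7, -25), (13, 45), (17, 100), (19, -30), (23, -17)]))))))))) (.add (.add (.add (.mul (.g 9)
    (.add (.mul (.pp [(1, 1901580)]) (.sq [(1, -45), (2, -26), (3, -13), (5, -18), (7, 2), (13, -59),
    (17, 66), (19, 100), (23, -37)])) (.add (.mul (.pp [(1, 627000)]) (.sq [(1, -5), (2, 18), (3,
    -50), (5, -53), (7, -20), (13, 100), (17, -70), (19, -16), (23, 10)])) (.mul (.pp [(1, 188520)])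
    (.sq [(1, 13), (2, 15), (3, 33), (5, -41), (7, 46), (13, 2), (17, -15), (19, -99), (23, 100)])))))
    (.add (.mul (.g 21) (.add (.mul (.pp [(1, 270480)]) (.sq [(1, -82), (2, -38), (3, 37), (5, -93),
    (7, 87), (13, -2), (17, 100), (19, 70), (23, -58)])) (.add (.mul (.pp [(1, 64260)]) (.sq [(1,
    -20), (2, -97), (3, -12), (5, 83), (7, -56), (13, 66), (17, 100), (19, 5), (23, -28)])) (.mul (.pp
    [(1, 235740)]) (.sq [(1, -14), (2, 82), (3, 83), (5, -30), (7, -27), (13, 33), (17, -100), (19,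
    -18), (23, 58)]))))) (.mul (.g 0) (.add (.mul (.pp [(1, 352143)]) (.sq [(1, -13), (2, -8), (3, 9),
    (5, 100), (7, 10), (13, 10), (17, 27), (19, -49), (23, -10)])) (.mul (.pp [(1, 199935)]) (.sq [(1,
    4), (2, -30), (3, 29), (5, -59), (7, 29), (13, 100), (17, 45), (19, -64), (23, 15)])))))) (.add
    (.mul (.g 8) (.add (.mul (.pp [(1, 1089420)]) (.sq [(1, -9), (2, 2), (3, 3), (5, 100), (7, -73),
    (13, 25), (17, 16), (19, 26), (23, -32)])) (.mul (.pp [(1, 1175040)]) (.sq [(1, 20), (2, 78), (3,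
    47), (5, -15), (7, 100), (13, -86), (17, -57), (19, -72), (23, 9)])))) (.add (.mul (.g 10) (.add
    (.mul (.pp [(1, 385980)]) (.sq [(1, -61), (2, -14), (3, 23), (5, 41), (7, 71), (13, 93), (17, 2),
    (19, -100), (23, 36)])) (.mul (.pp [(1, 181260)]) (.sq [(1, -1), (2, 45), (3, -26), (5, -100), (7,
    40), (13, -31), (17, -54), (19, -25), (23, 82)])))) (.mul (.g 12) (.add (.mul (.pp [(1, 3804480)])
    (.sq [(1, -42), (2, -35), (3, -7), (5, 18), (7, -13), (13, 100), (17, 8), (19, 38), (23, -66)]))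
    (.mul (.pp [(1, 2081820)]) (.sq [(1, -58), (2, 6), (5, 30), (7, -14), (13, -44), (17, 100), (19,
    60), (23, -5)]))))))) (.add (.add (.mul (.g 19) (.add (.mul (.pp [(1, 1261740)]) (.sq [(1, -18),
    (2, -6), (3, -28), (5, -21), (7, -4), (13, 100), (17, -42), (19, -12), (23, -7)])) (.mul (.pp [(1,
    3342000)]) (.sq [(1, -43), (2, -13), (3, -22), (5, -5), (7, 57), (13, -32), (17, 46), (19, 75),
    (23, -100)])))) (.add (.mul (.g 2) (.mul (.pp [(1, 338940)]) (.sq [(1, 11), (2, -4), (3, -16), (5,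
    -27), (7, 5), (13, -54), (17, 31), (19, 97), (23, -100)]))) (.mul (.g 3) (.mul (.pp [(1,
    1319700)]) (.sq [(1, -13), (2, -53), (3, -57), (5, -39), (7, 11), (13, -6), (17, 50), (19, 95),
    (23, -100)]))))) (.add (.mul (.g 6) (.mul (.pp [(1, 222480)]) (.sq [(1, 5), (2, 35), (3, -100),
    (5, -15), (7, 26), (13, -53), (17, 64), (19, 39), (23, -59)]))) (.add (.mul (.g 11) (.mul (.pp
    [(1, 1005660)]) (.sq [(1, 11), (2, 100), (3, 9), (5, 22), (7, -14), (13, -43), (17, -77), (19,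
    23), (23, -27)]))) (.mul (.g 16) (.mul (.pp [(1, 3810780)]) (.sq [(1, -85), (2, -41), (3, -73),
    (5, -20), (13, 64), (17, 100), (19, 64), (23, -30)])))))))) (.pp [(1, 669398427), (2, 6480300),
    (3, 5827170), (4, 5686128), (5, 6243924), (6, 6609756), (7, 5123880), (8, 6211020), (9, 5331354),
    (10, 5286420), (12, 5725860), (13, 6132828), (14, 4349292), (15, 5391774), (17, 5453946), (18,
    6530700), (19, 5680074), (20, 6117780), (21, 6924114), (23, 5911308), (25, 6272487), (26,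
    4770840), (27, 5956680), (28, 6197040), (30, 5754120), (34, 6719724), (35, 6126894), (38,
    6295584), (39, 6446628), (42, 6060360), (45, 6141600), (46, 6597612), (49, 6396723), (50,
    6070740), (51, 6412992), (52, 6045540), (57, 5645370), (63, 5583660), (65, 6786456), (68,
    6232200), (69, 5894646), (70, 6023160), (75, 6121740), (76, 5949780), (78, 6491400), (85,
    5052942), (91, 6752928), (92, 5933760), (95, 6085776), (98, 6634380), (102, 5831880), (105,
    5563920), (114, 5233440), (115, 5821002), (117, 6263460), (119, 4976370), (125, 5744900), (130,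
    6224640), (133, 6884244), (138, 5564880), (147, 6528900), (153, 6035700), (161, 5631810), (169,
    6200808), (170, 5711280), (171, 6135960), (175, 6348960), (182, 6698760), (190, 6569760), (195,
    6353400), (207, 6619080), (221, 5226108), (230, 5561520), (238, 6274920), (245, 6421680), (247,
    5357772), (255, 5959200), (266, 5528640), (273, 5928960), (285, 6756240), (289, 5987274), (299,
    4964400), (322, 7129800), (323, 7478310), (325, 5640660), (338, 6197160), (343, 5659960), (345,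
    6507240), (357, 5636160), (361, 5768295), (391, 7090998), (399, 4884240), (425, 6082200), (437,
    6046860), (442, 5574000), (455, 5478960), (475, 6115440), (483, 5711760), (494, 5285160), (507,
    5261460), (529, 6293103), (575, 6066660), (578, 5891400), (595, 6561720), (598, 6403680), (637,
    7073400), (646, 5939640), (663, 5769960), (665, 4714920), (722, 6307560), (741, 5824800), (782,
    5555760), (805, 5847480), (833, 6356760), (845, 5700300), (867, 5994660), (874, 6034680), (897,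
    5795280), (931, 5745660), (969, 6234360), (1058, 5275380), (1083, 6475920), (1105, 5838600),
    (1127, 6018600), (1173, 6026520), (1183, 5209980), (1235, 6509760), (1311, 6369720), (1445,
    6156300), (1495, 6537600), (1547, 5763720), (1587, 5682540), (1615, 5850600), (1729, 4980600),
    (1805, 5942400), (1955, 6093480), (2023, 6492960), (2093, 5214000), (2185, 6535800), (2197,
    6138840), (2261, 6221160), (2527, 6284700), (2645, 5170980), (2737, 5702160), (2873, 6679620),
    (3059, 5962920), (3211, 6684540), (3703, 6697320), (3757, 6333600), (3887, 5727180), (4199,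
    6520800), (4693, 6181140), (4913, 6083820), (5083, 6527040), (5491, 5290980), (5681, 6684000),
    (6137, 5728380), (6647, 5996220), (6859, 5975220), (6877, 6106140), (7429, 4905720), (8303,
    5761980), (8993, 6041760), (10051, 6505140), (12167, 5513420)])) (by norm_num)
    (by decide +kernel)

theorem p14le : Ck (gP1 4 (leB 2 5)) (pW (vP1 4 1)) :=
  .mk' 1000000 (.add (.add (.add (.add (.add (.mul (.pp [(1, 5528700)]) (.sq [(1, -100), (2, -59), (3, -60), (5,
    -60), (7, 27), (13, 69), (17, 100), (19, 29), (23, -19)])) (.mul (.pp [(1, 4103940)]) (.sq [(1,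
    -19), (2, -11), (3, 16), (5, 100), (7, -38), (13, 61), (17, 22), (19, -37), (23, -4)]))) (.add
    (.mul (.g 6) (.add (.add (.add (.add (.mul (.pp [(1, 169380)]) (.sq [(2, -64), (3, -5), (5, -42),
    (7, 70), (13, 43), (17, 100), (19, 26), (23, -19)])) (.mul (.pp [(1, 2555880)]) (.sq [(2, -37),
    (3, 5), (5, -16), (7, -56), (13, 100), (17, -5), (19, -6), (23, 9)]))) (.add (.mul (.pp [(1,
    2673060)]) (.sq [(2, 1), (3, -29), (5, -24), (7, -15), (13, 1), (17, 100), (19, 75), (23, -27)]))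
    (.mul (.pp [(1, 3903000)]) (.sq [(2, -29), (3, -18), (5, 56), (7, -4), (13, 100), (17, -44), (19,
    4), (23, -93)])))) (.add (.add (.mul (.pp [(1, 3913140)]) (.sq [(2, 1), (3, -84), (5, 29), (7,
    -6), (17, -100), (19, 12), (23, 65)])) (.mul (.g 2) (.add (.add (.mul (.g 6) (.pp [(1,
    754955400000)])) (.mul (.g 10) (.pp [(1, 4862400000)]))) (.add (.mul (.g 20) (.pp [(1,
    14428080000)])) (.mul (.g 22) (.pp [(1, 1042320000)])))))) (.add (.mul (.g 4) (.add (.add (.pp
    [(1, 73544400000)]) (.mul (.g 16) (.pp [(1, 657726000000)]))) (.add (.mul (.g 21) (.pp [(1,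
    8932320000)])) (.mul (.g 22) (.pp [(1, 1752000000)]))))) (.mul (.g 9) (.add (.pp [(1,
    32038200000)]) (.add (.mul (.g 10) (.pp [(1, 9841200000)])) (.mul (.g 18) (.pp [(1,
    88422000000)])))))))) (.add (.add (.add (.mul (.g 11) (.add (.mul (.g 3) (.pp [(1, 62331600000)]))
    (.add (.mul (.g 8) (.pp [(1, 3174000000)])) (.mul (.g 12) (.pp [(1, 108751200000)]))))) (.mul (.g
    0) (.add (.pp [(1, 37345470000)]) (.mul (.g 19) (.pp [(1, 912930000)]))))) (.add (.mul (.g 1)
    (.add (.mul (.g 6) (.pp [(1, 88841400000)])) (.mul (.g 16) (.pp [(1, 61030800000)])))) (.mul (.g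
    18) (.add (.mul (.g 10) (.pp [(1, 65543400000)])) (.mul (.g 21) (.pp [(1, 3379200000)])))))) (.add
    (.add (.mul (.g 20) (.add (.mul (.g 8) (.pp [(1, 5119560000)])) (.mul (.g 21) (.pp [(1,
    3744384000)])))) (.mul (.g 22) (.add (.pp [(1, 20624280000)]) (.mul (.g 19) (.pp [(1,
    8069040000)]))))) (.add (.mul (.g 3) (.pp [(1, 4283400000)])) (.add (.mul (.g 12) (.pp [(1,
    74821800000)])) (.mul (.g 13) (.mul (.g 17) (.pp [(1, 106058400000)]))))))))) (.add (.mul (.g 10)
    (.add (.add (.add (.add (.mul (.pp [(1, 348420)]) (.sq [(2, 100), (3, 86), (5, -42), (7, 16), (13,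
    -36), (17, 94), (19, 9), (23, -54)])) (.mul (.pp [(1, 13801800000)]) (.sq [(7, 1), (19, -1)])))
    (.add (.mul (.pp [(1, 566520)]) (.sq [(2, -83), (3, 23), (5, 18), (7, -70), (13, 100), (17, 9),
    (19, 22), (23, -68)])) (.mul (.pp [(1, 1027140)]) (.sq [(2, -23), (3, 64), (5, -11), (7, 9), (13,
    100), (17, 31), (19, -51), (23, 87)])))) (.add (.add (.mul (.pp [(1, 362280)]) (.sq [(2, 46), (3,
    3), (5, 20), (7, -94), (13, -49), (17, 7), (19, 45), (23, 100)])) (.mul (.pp [(1, 1820100)]) (.sq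
    [(1, -24), (2, -15), (3, -77), (5, 32), (7, -30), (13, 100), (17, -26), (19, 5), (23, 23)])))
    (.add (.mul (.pp [(1, 737460)]) (.sq [(2, 1), (3, -100), (5, 78), (7, -13), (13, 8), (17, 61),
    (19, -56), (23, 21)])) (.mul (.pp [(1, 527040)]) (.sq [(1, 3), (2, -21), (3, 3), (5, 100), (7,
    -49), (13, -27), (17, 14), (19, -18), (23, 22)]))))) (.add (.add (.add (.mul (.g 17) (.add (.add
    (.mul (.g 9) (.pp [(1, 20095200000)])) (.mul (.g 13) (.pp [(1, 42283200000)]))) (.add (.mul (.g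
    18) (.pp [(1, 9251400000)])) (.mul (.g 20) (.pp [(1, 17535600000)]))))) (.mul (.g 8) (.add (.mul
    (.g 1) (.pp [(1, 18091800000)])) (.add (.mul (.g 10) (.pp [(1, 861000000)])) (.mul (.g 15) (.pp
    [(1, 7860120000)])))))) (.add (.mul (.g 10) (.add (.mul (.g 11) (.pp [(1, 1492800000)])) (.mul (.g
    20) (.pp [(1, 12235080000)])))) (.mul (.g 13) (.add (.mul (.g 5) (.pp [(1, 12912000000)])) (.mul
    (.g 19) (.pp [(1, 34425600000)])))))) (.add (.add (.mul (.g 22) (.add (.pp [(1, 680160000)]) (.mul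
    (.g 11) (.pp [(1, 4012560000)])))) (.mul (.g 1) (.pp [(1, 786000000)]))) (.add (.mul (.g 2) (.mul
    (.g 18) (.pp [(1, 5052000000)]))) (.mul (.g 15) (.pp [(1, 15290520000)]))))))) (.mul (.g 20) (.add
    (.add (.add (.mul (.pp [(1, 82692)]) (.sq [(3, -100), (5, 77), (7, 100), (13, 13), (17, 40), (19,
    -53), (23, 44)])) (.add (.mul (.pp [(1, 417384)]) (.sq [(2, -68), (3, -9), (5, -49), (7, 93), (13,
    47), (17, -9), (19, -23), (23, -100)])) (.mul (.pp [(1, 842316)]) (.sq [(2, -10), (3, 40), (5,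
    16), (7, 7), (13, 100), (19, -59), (23, 13)])))) (.add (.mul (.pp [(1, 408876)]) (.sq [(2, -8),
    (3, -3), (5, 7), (7, -60), (13, 100), (17, 11), (19, 33), (23, -58)])) (.add (.mul (.pp [(1,
    593544)]) (.sq [(1, 1), (2, 67), (3, 46), (5, -100), (7, 8), (13, 64), (17, -55), (19, -22), (23,
    -17)])) (.mul (.pp [(1, 1240956)]) (.sq [(1, 4), (2, 39), (3, -20), (5, 100), (7, -66), (13, 74),
    (17, 20), (19, -31), (23, -12)]))))) (.add (.add (.mul (.pp [(1, 452916)]) (.sq [(1, -62), (2,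
    70), (3, -22), (5, -24), (7, -6), (13, 100), (17, -91), (19, -6), (23, -22)])) (.add (.mul (.g 17)
    (.add (.add (.pp [(1, 1583400000)]) (.mul (.g 2) (.pp [(1, 12802560000)]))) (.add (.mul (.g 11)
    (.pp [(1, 7001640000)])) (.add (.mul (.g 20) (.pp [(1, 900768000)])) (.mul (.g 22) (.pp [(1,
    1380024000)])))))) (.mul (.g 19) (.add (.add (.mul (.g 1) (.pp [(1, 2353080000)])) (.mul (.g 9)
    (.pp [(1, 20636160000)]))) (.add (.mul (.g 12) (.pp [(1, 229440000)])) (.mul (.g 22) (.pp [(1,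
    1777224000)]))))))) (.add (.add (.mul (.g 21) (.add (.mul (.g 0) (.pp [(1, 71815200)])) (.mul (.g
    11) (.pp [(1, 2925768000)])))) (.mul (.g 3) (.mul (.g 15) (.pp [(1, 1580784000)])))) (.add (.mul
    (.g 7) (.mul (.g 22) (.pp [(1, 735576000)]))) (.mul (.g 9) (.pp [(1, 4915080000)])))))))))) (.add
    (.add (.mul (.g 15) (.add (.add (.add (.mul (.pp [(1, 246660)]) (.sq [(1, -67), (2, 17), (3, -17),
    (5, -26), (7, 70), (13, 51), (17, 100), (19, 79), (23, 8)])) (.mul (.pp [(1, 473928)]) (.sq [(2,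
    41), (3, -8), (5, -12), (7, 100), (13, 31), (17, -82), (19, -2)]))) (.add (.mul (.pp [(1, 47640)])
    (.sq [(2, -3), (3, -85), (5, 100), (7, -56), (13, 5), (17, -33), (19, -36), (23, -32)])) (.add
    (.mul (.g 4) (.add (.add (.mul (.g 0) (.pp [(1, 3414390000)])) (.mul (.g 7) (.pp [(1,
    8297640000)]))) (.add (.mul (.g 8) (.pp [(1, 5775120000)])) (.mul (.g 16) (.pp [(1,
    233847240000)]))))) (.mul (.g 19) (.add (.pp [(1, 11704200000)]) (.add (.mul (.g 1) (.pp [(1,
    8156640000)])) (.mul (.g 22) (.pp [(1, 2880672000)])))))))) (.add (.add (.mul (.g 3) (.add (.mul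
    (.g 7) (.pp [(1, 143336520000)])) (.mul (.g 18) (.pp [(1, 30968400000)])))) (.mul (.g 9) (.add
    (.pp [(1, 37126920000)]) (.mul (.g 8) (.pp [(1, 3455160000)]))))) (.add (.mul (.g 11) (.add (.pp
    [(1, 6421440000)]) (.mul (.g 1) (.pp [(1, 7982040000)])))) (.add (.mul (.g 21) (.add (.pp [(1,
    5014416000)]) (.mul (.g 18) (.pp [(1, 812928000)])))) (.mul (.g 0) (.pp [(1, 6384324000)])))))))
    (.add (.mul (.g 18) (.add (.add (.mul (.pp [(1, 14849880)]) (.sq [(1, -8), (2, 17), (3, -2), (5,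
    5), (7, -18), (13, -5), (17, 11), (19, -18), (23, 100)])) (.add (.mul (.pp [(1, 866880)]) (.sq
    [(2, 53), (3, -5), (5, 54), (7, -62), (13, 35), (17, 100), (19, -76), (23, 24)])) (.mul (.g 21)
    (.add (.add (.pp [(1, 17919000000)]) (.add (.mul (.g 7) (.pp [(1, 2358720000)])) (.mul (.g 9) (.pp
    [(1, 2505840000)])))) (.add (.add (.mul (.g 11) (.pp [(1, 8431680000)])) (.mul (.g 17) (.pp [(1,
    8831520000)]))) (.add (.mul (.g 18) (.pp [(1, 1851240000)])) (.mul (.g 22) (.pp [(1,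
    1675488000)])))))))) (.add (.add (.mul (.g 17) (.add (.add (.mul (.g 4) (.pp [(1, 21170400000)]))
    (.mul (.g 9) (.pp [(1, 83215200000)]))) (.add (.mul (.g 12) (.pp [(1, 3681600000)])) (.mul (.g 22)
    (.pp [(1, 7452600000)]))))) (.mul (.g 1) (.add (.mul (.g 0) (.pp [(1, 4259220000)])) (.mul (.g 2)
    (.pp [(1, 4522200000)]))))) (.add (.mul (.g 9) (.mul (.g 13) (.pp [(1, 56076000000)]))) (.mul (.g
    11) (.mul (.g 12) (.pp [(1, 176671200000)]))))))) (.mul (.g 13) (.add (.add (.add (.mul (.pp [(1,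
    4246680)]) (.sq [(1, -8), (2, 69), (3, 100), (5, 19), (7, -49), (13, 40), (17, 19), (19, -9), (23,
    -29)])) (.mul (.pp [(1, 3031980)]) (.sq [(1, -43), (2, -46), (3, 4), (5, -26), (13, -38), (17,
    100), (19, 5)]))) (.add (.mul (.pp [(1, 234840)]) (.sq [(2, 100), (3, -37), (5, 50), (7, -29),
    (13, 14), (17, 54), (19, -88), (23, 56)])) (.mul (.pp [(1, 489060)]) (.sq [(1, -44), (2, 20), (3,
    -16), (5, -37), (7, -44), (13, 100), (17, 45), (19, -24), (23, 47)])))) (.add (.add (.mul (.g 13)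
    (.add (.add (.pp [(1, 36526800000)]) (.mul (.g 9) (.pp [(1, 2884800000)]))) (.add (.mul (.g 11)
    (.pp [(1, 27984000000)])) (.add (.mul (.g 17) (.pp [(1, 5619600000)])) (.mul (.g 21) (.pp [(1,
    5055600000)])))))) (.mul (.g 0) (.mul (.g 19) (.pp [(1, 797670000)])))) (.add (.mul (.g 4) (.mul
    (.g 17) (.pp [(1, 24699600000)]))) (.add (.mul (.g 12) (.mul (.g 16) (.pp [(1, 2383800000)])))
    (.mul (.g 22) (.mul (.g 22) (.pp [(1, 2504688000)])))))))))) (.add (.mul (.g 1) (.add (.add (.mul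
    (.pp [(1, 1962780)]) (.sq [(2, -100), (3, -50), (5, 5), (7, 18), (13, -7), (17, 51), (19, 6), (23,
    93)])) (.add (.mul (.pp [(1, 10727220)]) (.sq [(1, 11), (2, 4), (3, 8), (5, 100), (7, 8), (13,
    -22), (17, -7), (19, -15), (23, 33)])) (.mul (.pp [(1, 3662100)]) (.sq [(1, 1), (2, 53), (3, -13),
    (5, 13), (13, 60), (17, -100), (19, -4), (23, -9)])))) (.add (.add (.mul (.pp [(1, 1057140)]) (.sq
    [(2, -100), (3, 20), (5, 11), (7, -31), (13, 98), (17, 22), (19, -43), (23, -22)])) (.mul (.pp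
    [(1, 2851680)]) (.sq [(1, 13), (2, -95), (3, -74), (5, 44), (7, 100), (13, -61), (17, -39), (19,
    66), (23, -2)]))) (.add (.mul (.pp [(1, 1005060)]) (.sq [(2, 75), (3, -19), (5, 100), (7, -10),
    (13, -96), (17, 71), (19, -10), (23, -94)])) (.mul (.g 0) (.add (.add (.mul (.g 0) (.pp [(1,
    30744000)])) (.mul (.g 7) (.pp [(1, 7022550000)]))) (.add (.mul (.g 11) (.pp [(1, 549540000)]))
    (.mul (.g 22) (.pp [(1, 3545874000)]))))))))) (.add (.mul (.g 22) (.add (.mul (.pp [(1, 764304)])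
    (.sq [(2, 1), (3, -37), (5, 100), (7, -5), (13, -6), (17, 17), (19, -2), (23, -6)])) (.add (.mul
    (.pp [(1, 1235820)]) (.sq [(2, -27), (3, 64), (5, 100), (7, 14), (13, -11), (17, -64), (19, 26),
    (23, 1)])) (.mul (.g 0) (.add (.add (.pp [(1, 139800000)]) (.mul (.g 8) (.pp [(1, 924042000)])))
    (.add (.mul (.g 17) (.pp [(1, 1065390000)])) (.mul (.g 22) (.pp [(1, 308084400)])))))))) (.mul (.g
    9) (.add (.add (.mul (.pp [(1, 2954340)]) (.sq [(1, -7), (2, 74), (3, 21), (5, 100), (7, -43),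
    (13, 32), (17, -82), (19, -20), (23, -6)])) (.mul (.pp [(1, 725100)]) (.sq [(1, -45), (2, 67), (3,
    -24), (5, -17), (7, -15), (13, 100), (17, -73), (19, -15), (23, -24)]))) (.add (.mul (.pp [(1,
    1135080)]) (.sq [(1, -14), (2, 2), (3, -9), (5, -62), (7, -31), (13, 41), (17, 100), (19, -31),
    (23, -9)])) (.mul (.g 9) (.mul (.g 9) (.pp [(1, 24923400000)])))))))))) (.add (.add (.add (.mul
    (.g 5) (.add (.mul (.pp [(1, 1315440)]) (.sq [(1, -12), (2, -47), (3, -61), (5, 1), (7, 75), (13,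
    -16), (17, 100), (19, -46), (23, -29)])) (.add (.mul (.pp [(1, 1001940)]) (.sq [(2, -100), (3,
    -71), (5, 60), (7, -59), (13, 7), (17, 97), (23, 58)])) (.mul (.pp [(1, 1678440)]) (.sq [(1, -50),
    (2, 3), (3, -50), (5, -100), (7, 77), (13, -29), (17, 51), (19, 15), (23, -1)]))))) (.mul (.g 8)
    (.add (.mul (.pp [(1, 324180)]) (.sq [(1, -28), (2, -84), (3, -13), (5, 100), (7, 43), (13, 26),
    (17, 42), (19, -74), (23, 69)])) (.mul (.pp [(1, 668280)]) (.sq [(1, 3), (2, -10), (3, -43), (5,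
    -1), (7, -8), (13, -14), (17, 100), (19, -3), (23, -80)]))))) (.add (.mul (.g 16) (.add (.mul (.pp
    [(1, 4895880)]) (.sq [(2, -5), (3, 53), (5, -12), (7, 13), (13, 51), (17, -100), (19, -22), (23,
    65)])) (.mul (.pp [(1, 942780)]) (.sq [(1, 99), (2, 7), (3, 97), (5, 5), (13, -53), (17, -53),
    (19, -100), (23, 95)])))) (.add (.mul (.g 17) (.add (.mul (.pp [(1, 792420)]) (.sq [(1, -3), (2,
    -9), (3, 24), (5, 100), (7, -64), (13, 60), (17, -5), (19, -14), (23, -1)])) (.mul (.pp [(1,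
    4480020)]) (.sq [(2, -31), (3, -79), (5, 81), (7, 4), (13, 8), (17, 100), (19, -93), (23, 9)]))))
    (.mul (.g 0) (.mul (.pp [(1, 64143)]) (.sq [(1, -2), (2, -59), (3, 83), (5, 14), (7, -70), (13,
    100), (17, 95), (19, -49), (23, 31)])))))) (.add (.add (.mul (.g 3) (.mul (.pp [(1, 1478160)])
    (.sq [(1, -33), (2, -100), (3, 3), (5, 6), (7, 16), (13, 33), (17, 71), (19, 47), (23, -65)])))
    (.add (.mul (.g 4) (.mul (.pp [(1, 1972800)]) (.sq [(1, -45), (2, 29), (3, -7), (5, 90), (7, 17),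
    (13, 100), (17, -79), (19, -40), (23, 4)]))) (.mul (.g 11) (.mul (.pp [(1, 2260020)]) (.sq [(1,
    -6), (2, 93), (3, 85), (5, -25), (7, 24), (13, -47), (17, -100), (19, 48), (23, 5)]))))) (.add
    (.mul (.g 12) (.mul (.pp [(1, 1706220)]) (.sq [(1, -30), (2, -52), (3, 57), (5, -6), (7, -17),
    (13, 31), (17, 100), (19, 21), (23, -42)]))) (.add (.mul (.g 14) (.pp [(1, 2771322)])) (.mul (.g
    21) (.mul (.pp [(1, 390960)]) (.sq [(1, -15), (2, -9), (3, 66), (5, 100), (7, -52), (13, 37), (17,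
    76), (19, -27), (23, -35)])))))))) (.pp [(1, 35780392404), (2, 6246240), (3, 5046144), (4,
    5050155), (5, 5982408), (6, 5919618), (7, 6592260), (8, 6221040), (9, 5476671), (10, 6153084),
    (12, 5698800), (13, 6982128), (14, 5919276), (15, 6511548), (17, 6398568), (18, 7073940), (19,
    6577164), (20, 5225820), (21, 7107564), (23, 6111036), (25, 5930556), (26, 4807368), (27,
    6230280), (28, 6317640), (30, 4833360), (34, 7657626), (35, 5645472), (38, 5262018), (39,
    6625824), (42, 4421880), (45, 5656080), (46, 6690402), (49, 5697096), (50, 7039560), (51,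
    6219366), (52, 6379800), (57, 6246798), (63, 6372180), (65, 6718344), (68, 5310060), (69,
    6487926), (70, 6715680), (75, 5669820), (76, 6349980), (78, 6185400), (85, 6567732), (91,
    6383472), (92, 5707260), (95, 5231172), (98, 5712180), (102, 5204880), (105, 6065280), (114,
    7654440), (115, 6657756), (117, 6103020), (119, 4947492), (125, 6200000), (130, 6192720), (133,
    5019516), (138, 5571720), (147, 5231760), (153, 5798640), (161, 6589644), (169, 5011020), (170,
    7282920), (171, 6023040), (175, 5921700), (182, 5316600), (190, 4745040), (195, 6618240), (207,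
    6238200), (221, 6872304), (230, 6087720), (238, 6552360), (245, 5802840), (247, 6141744), (255,
    6038400), (266, 6365880), (273, 6022560), (285, 6339600), (289, 4840995), (299, 4734072), (322,
    6949680), (323, 5590926), (325, 5638800), (338, 6843060), (343, 6286700), (345, 5515800), (357,
    6522840), (361, 5922891), (391, 5480094), (399, 5880720), (425, 6092520), (437, 5838750), (442,
    4982640), (455, 5414160), (475, 5814000), (483, 7563840), (494, 6815160), (507, 5850360), (529,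
    5368995), (575, 6433740), (578, 6567540), (595, 5995680), (598, 5765040), (637, 5372940), (646,
    4920960), (663, 6202560), (665, 6702000), (722, 6725400), (741, 5433360), (782, 6094080), (805,
    5317680), (833, 6178500), (845, 6195900), (867, 6046860), (874, 5909520), (897, 5177520), (931,
    7189080), (969, 5852400), (1058, 5760600), (1083, 5532780), (1105, 5082120), (1127, 6043140),
    (1173, 6247800), (1183, 6442260), (1235, 6816000), (1311, 5639520), (1445, 5822040), (1495,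
    5665440), (1547, 6891720), (1587, 5992740), (1615, 5841960), (1729, 5662680), (1805, 5982840),
    (1955, 5686920), (2023, 6409800), (2093, 6268320), (2185, 5415600), (2197, 6188880), (2261,
    5816880), (2527, 5465520), (2645, 5976660), (2737, 5343720), (2873, 5811480), (3059, 5585040),
    (3211, 5509020), (3703, 6004800), (3757, 5749620), (3887, 6246960), (4199, 6353520), (4693,
    5781120), (4913, 5991420), (5083, 6234480), (5491, 6241980), (5681, 6516840), (6137, 6035640),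
    (6647, 6443880), (6859, 6091400), (6877, 5962200), (7429, 6009840), (8303, 5914440), (8993,
    6376800), (10051, 6340440), (12167, 6396500)])) (by norm_num)
    (by decide +kernel)

theorem p14ge : Ck (gP1 4 (geB 2 5)) (pW (vP1 4 1)) :=
  .mk' 250000 (.add (.add (.add (.add (.add (.mul (.pp [(1, 598200)]) (.sq [(1, -73), (2, 85), (3, 81), (5,
    -99), (7, 33), (13, 67), (17, -100), (19, 11), (23, 19)])) (.mul (.pp [(1, 924960)]) (.sq [(1,
    -37), (3, 20), (5, 54), (7, -66), (13, 100), (17, -25), (19, -18), (23, 29)]))) (.add (.mul (.g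
    13) (.add (.add (.add (.mul (.pp [(1, 39780)]) (.sq [(1, -13), (2, -52), (3, -19), (5, -73), (7,
    -61), (13, -8), (17, 19), (19, 100), (23, 37)])) (.add (.mul (.pp [(1, 187575)]) (.sq [(1, -38),
    (2, -74), (3, 30), (5, -4), (13, -83), (17, 100), (19, 31)])) (.mul (.pp [(1, 125580)]) (.sq [(1,
    46), (2, 100), (3, 45), (5, 33), (7, -4), (13, -70), (17, 31), (19, -44), (23, -6)])))) (.add
    (.add (.mul (.pp [(1, 355905)]) (.sq [(2, 17), (3, 82), (5, -100), (7, 7), (13, 21), (17, -55),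
    (19, -15), (23, 50)])) (.mul (.pp [(1, 209625)]) (.sq [(1, -27), (2, -59), (3, 96), (5, 10), (7,
    -63), (13, 65), (17, 100), (19, -75), (23, -52)]))) (.add (.mul (.pp [(1, 135240)]) (.sq [(2, 67),
    (3, -86), (5, -15), (7, -43), (13, -54), (17, 32), (19, -12), (23, 100)])) (.mul (.g 10) (.add
    (.add (.mul (.g 7) (.pp [(1, 2812500000)])) (.add (.mul (.g 10) (.pp [(1, 649350000)])) (.mul (.g
    11) (.pp [(1, 864600000)])))) (.add (.mul (.g 17) (.pp [(1, 744600000)])) (.add (.mul (.g 18) (.pp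
    [(1, 2117400000)])) (.mul (.g 19) (.pp [(1, 90900000)]))))))))) (.add (.add (.mul (.g 9) (.add
    (.add (.mul (.g 8) (.pp [(1, 2305800000)])) (.mul (.g 9) (.pp [(1, 8151300000)]))) (.add (.mul (.g
    12) (.pp [(1, 2601450000)])) (.add (.mul (.g 17) (.pp [(1, 10251000000)])) (.mul (.g 22) (.pp [(1,
    20250000)])))))) (.add (.mul (.g 13) (.add (.add (.pp [(1, 4640550000)]) (.mul (.g 17) (.pp [(1,
    6646500000)]))) (.add (.mul (.g 19) (.pp [(1, 2172600000)])) (.mul (.g 21) (.pp [(1,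
    8564670000)]))))) (.mul (.g 15) (.add (.add (.pp [(1, 4927800000)]) (.mul (.g 0) (.pp [(1,
    255046500)]))) (.add (.mul (.g 8) (.pp [(1, 1346610000)])) (.mul (.g 21) (.pp [(1,
    1969032000)]))))))) (.add (.add (.mul (.g 0) (.add (.pp [(1, 204007500)]) (.mul (.g 7) (.pp [(1,
    2160007500)])))) (.mul (.g 4) (.add (.pp [(1, 2040600000)]) (.mul (.g 19) (.pp [(1,
    4374600000)]))))) (.add (.mul (.g 17) (.add (.mul (.g 3) (.pp [(1, 8037150000)])) (.mul (.g 12)
    (.pp [(1, 7192800000)])))) (.mul (.g 18) (.add (.mul (.g 7) (.pp [(1, 39692850000)])) (.mul (.g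
    18) (.pp [(1, 37170000000)]))))))))) (.add (.mul (.g 6) (.add (.add (.add (.mul (.pp [(1,
    112050)]) (.sq [(1, -10), (2, 69), (3, -11), (5, 17), (7, -3), (13, -41), (17, 100), (19, 1), (23,
    29)])) (.mul (.pp [(1, 268860)]) (.sq [(2, -21), (3, -4), (5, 6), (7, -93), (13, -32), (17, 100),
    (19, 31), (23, 50)]))) (.add (.mul (.pp [(1, 444390)]) (.sq [(1, -3), (2, 10), (3, 78), (5, 100),
    (7, -8), (13, -7), (17, -24), (19, -51), (23, -22)])) (.add (.mul (.g 0) (.add (.add (.mul (.g 4)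
    (.pp [(1, 2170582500)])) (.add (.mul (.g 9) (.pp [(1, 961200000)])) (.mul (.g 11) (.pp [(1,
    1374585000)])))) (.add (.mul (.g 12) (.pp [(1, 1577317500)])) (.add (.mul (.g 15) (.pp [(1,
    300718500)])) (.mul (.g 19) (.pp [(1, 1627605000)])))))) (.mul (.g 9) (.add (.add (.pp [(1,
    15321000000)]) (.mul (.g 9) (.pp [(1, 6222750000)]))) (.add (.mul (.g 18) (.pp [(1, 2329350000)]))
    (.mul (.g 22) (.pp [(1, 2117100000)])))))))) (.add (.add (.mul (.g 10) (.add (.add (.pp [(1,
    14563800000)]) (.mul (.g 11) (.pp [(1, 15267000000)]))) (.add (.mul (.g 18) (.pp [(1,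
    1469400000)])) (.mul (.g 20) (.pp [(1, 1414230000)]))))) (.add (.mul (.g 6) (.add (.mul (.g 2)
    (.pp [(1, 34777950000)])) (.add (.mul (.g 4) (.pp [(1, 5093700000)])) (.mul (.g 11) (.pp [(1,
    13076850000)]))))) (.mul (.g 15) (.add (.pp [(1, 6800280000)]) (.add (.mul (.g 17) (.pp [(1,
    3441030000)])) (.mul (.g 21) (.pp [(1, 1098036000)]))))))) (.add (.mul (.g 17) (.add (.mul (.g 7)
    (.pp [(1, 147900000)])) (.mul (.g 20) (.pp [(1, 553530000)])))) (.add (.mul (.g 22) (.add (.mul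
    (.g 11) (.pp [(1, 547320000)])) (.mul (.g 19) (.pp [(1, 404340000)])))) (.mul (.g 4) (.pp [(1,
    13866600000)]))))))) (.mul (.g 18) (.add (.add (.add (.mul (.pp [(1, 749835)]) (.sq [(2, 11), (3,
    -37), (5, -29), (7, -16), (13, 100), (17, 3), (19, -10), (23, -8)])) (.mul (.pp [(1, 20655)]) (.sq
    [(1, -25), (2, -66), (3, 87), (5, 100), (7, -63), (13, 55), (17, -30), (19, -46), (23, 36)])))
    (.add (.mul (.g 17) (.add (.add (.mul (.g 4) (.pp [(1, 7265850000)])) (.add (.mul (.g 9) (.pp [(1,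
    1980450000)])) (.mul (.g 12) (.pp [(1, 3994650000)])))) (.add (.mul (.g 15) (.pp [(1,
    373350000)])) (.add (.mul (.g 20) (.pp [(1, 2005320000)])) (.mul (.g 22) (.pp [(1,
    1145040000)])))))) (.mul (.g 7) (.add (.mul (.g 15) (.pp [(1, 2328990000)])) (.add (.mul (.g 19)
    (.pp [(1, 4570200000)])) (.mul (.g 21) (.pp [(1, 8366430000)]))))))) (.add (.add (.mul (.g 11)
    (.add (.mul (.g 12) (.pp [(1, 13618200000)])) (.add (.mul (.g 15) (.pp [(1, 204570000)])) (.mul
    (.g 21) (.pp [(1, 7926330000)]))))) (.mul (.g 1) (.add (.mul (.g 12) (.pp [(1, 40886400000)]))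
    (.mul (.g 19) (.pp [(1, 8116350000)]))))) (.add (.mul (.g 5) (.add (.mul (.g 4) (.pp [(1,
    3091350000)])) (.mul (.g 15) (.pp [(1, 6878580000)])))) (.add (.mul (.g 9) (.mul (.g 9) (.pp [(1,
    705150000)]))) (.mul (.g 21) (.mul (.g 21) (.pp [(1, 23442000)]))))))))))) (.add (.add (.mul (.g
    20) (.add (.add (.add (.mul (.pp [(1, 26955)]) (.sq [(1, 31), (2, 14), (3, 38), (5, 70), (7, -91),
    (13, 100), (17, 19), (19, -63), (23, 4)])) (.mul (.pp [(1, 72309)]) (.sq [(1, 20), (2, -53), (3,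
    -2), (5, 6), (7, 4), (13, -63), (17, 100), (19, 24), (23, -19)]))) (.add (.mul (.pp [(1, 146856)])
    (.sq [(1, 37), (2, -38), (3, 46), (5, 33), (13, -33), (17, -100), (19, -11), (23, -33)])) (.mul
    (.pp [(1, 94491)]) (.sq [(1, 3), (2, 99), (3, -66), (5, 100), (7, -6), (13, 70), (17, -51), (19,
    -36), (23, -32)])))) (.add (.add (.mul (.pp [(1, 142281)]) (.sq [(2, -38), (3, -6), (5, -52), (7,
    -5), (13, 100), (17, 19), (19, 23), (23, -67)])) (.mul (.g 17) (.add (.add (.mul (.g 5) (.pp [(1,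
    1166910000)])) (.add (.mul (.g 8) (.pp [(1, 1421280000)])) (.mul (.g 10) (.pp [(1,
    1216980000)])))) (.add (.mul (.g 11) (.pp [(1, 326820000)])) (.add (.mul (.g 20) (.pp [(1,
    105762000)])) (.mul (.g 22) (.pp [(1, 118488000)]))))))) (.add (.mul (.g 1) (.add (.mul (.g 9)
    (.pp [(1, 3387180000)])) (.add (.mul (.g 16) (.pp [(1, 65220000)])) (.mul (.g 19) (.pp [(1,
    5349840000)]))))) (.mul (.g 7) (.add (.mul (.g 4) (.pp [(1, 2148660000)])) (.mul (.g 9) (.pp [(1,
    3143820000)])))))))) (.add (.mul (.g 0) (.add (.add (.mul (.g 22) (.add (.add (.mul (.g 1) (.pp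
    [(1, 356559000)])) (.add (.mul (.g 5) (.pp [(1, 462888000)])) (.mul (.g 8) (.pp [(1,
    120352500)])))) (.add (.mul (.g 11) (.pp [(1, 42375000)])) (.add (.mul (.g 17) (.pp [(1,
    145786500)])) (.mul (.g 22) (.pp [(1, 102970200)])))))) (.mul (.g 7) (.add (.add (.mul (.g 4) (.pp
    [(1, 515370000)])) (.mul (.g 11) (.pp [(1, 1543530000)]))) (.add (.mul (.g 19) (.pp [(1,
    2190855000)])) (.mul (.g 21) (.pp [(1, 358833000)])))))) (.add (.mul (.g 1) (.add (.pp [(1,
    5167642500)]) (.mul (.g 0) (.pp [(1, 101004750)])))) (.mul (.g 5) (.mul (.g 12) (.pp [(1,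
    72660000)])))))) (.mul (.g 10) (.add (.add (.add (.mul (.pp [(1, 940635)]) (.sq [(1, -1), (2, 7),
    (3, -30), (5, -1), (7, -19), (13, 100), (17, 50), (19, 2), (23, -7)])) (.mul (.pp [(1, 128880)])
    (.sq [(1, -40), (2, -28), (3, 100), (5, -45), (7, -45), (13, -47), (17, 10), (19, 84), (23,
    51)]))) (.add (.mul (.pp [(1, 40920)]) (.sq [(1, -3), (2, 50), (3, -89), (5, -90), (7, 22), (13,
    100), (17, -44), (19, 29), (23, -50)])) (.add (.mul (.pp [(1, 8475)]) (.sq [(1, -2), (2, 72), (3,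
    25), (5, 23), (13, 100), (17, -19), (19, -43), (23, -11)])) (.mul (.pp [(1, 10105050000)]) (.sq
    [(7, 1), (19, -1)]))))) (.add (.add (.mul (.pp [(1, 157170)]) (.sq [(1, -43), (2, -78), (3, 61),
    (5, 51), (13, 100), (17, -90), (19, -24), (23, -10)])) (.mul (.g 7) (.add (.pp [(1, 22367400000)])
    (.mul (.g 21) (.pp [(1, 2137710000)]))))) (.add (.mul (.g 17) (.add (.mul (.g 9) (.pp [(1,
    9396450000)])) (.mul (.g 22) (.pp [(1, 862770000)])))) (.add (.mul (.g 1) (.pp [(1, 8992050000)]))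
    (.mul (.g 10) (.mul (.g 11) (.pp [(1, 4137150000)])))))))))) (.add (.mul (.g 9) (.add (.add (.mul
    (.pp [(1, 484785)]) (.sq [(1, -82), (2, 85), (3, 13), (5, -44), (7, -3), (13, 100), (17, 18), (19,
    83), (23, -35)])) (.add (.mul (.pp [(1, 304095)]) (.sq [(1, -7), (2, 49), (3, 45), (5, 85), (7,
    -68), (13, 100), (17, 1), (19, -60), (23, 16)])) (.mul (.pp [(1, 265365)]) (.sq [(1, -11), (2,
    -62), (3, 11), (5, 12), (7, 15), (13, -23), (17, 100), (19, 26), (23, -40)])))) (.add (.add (.mul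
    (.g 7) (.add (.mul (.g 19) (.pp [(1, 145800000)])) (.mul (.g 21) (.pp [(1, 2314170000)])))) (.mul
    (.g 3) (.mul (.g 5) (.pp [(1, 223500000)])))) (.add (.mul (.g 8) (.mul (.g 17) (.pp [(1,
    6987000000)]))) (.mul (.g 9) (.mul (.g 9) (.pp [(1, 13299450000)]))))))) (.add (.mul (.g 15) (.add
    (.add (.mul (.pp [(1, 7755)]) (.sq [(1, -33), (2, -49), (3, 70), (5, 100), (7, -54), (13, 96),
    (17, 62), (19, -42), (23, -3)])) (.mul (.pp [(1, 92280)]) (.sq [(1, -6), (2, 16), (3, 100), (5,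
    26), (7, -8), (13, -21), (17, -44), (19, 18), (23, -15)]))) (.add (.mul (.pp [(1, 24618)]) (.sq
    [(1, 1), (2, 100), (3, -13), (5, 16), (7, 11), (13, -52), (17, -7), (19, -10), (23, 21)])) (.add
    (.mul (.g 1) (.add (.pp [(1, 108150000)]) (.mul (.g 4) (.pp [(1, 10235400000)])))) (.mul (.g 7)
    (.add (.mul (.g 5) (.pp [(1, 59160000)])) (.mul (.g 7) (.pp [(1, 10461810000)])))))))) (.mul (.g
    1) (.add (.mul (.pp [(1, 591465)]) (.sq [(1, -19), (2, -19), (3, -30), (5, -76), (7, -56), (13,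
    63), (17, 100), (19, -57), (23, -31)])) (.add (.mul (.pp [(1, 645480)]) (.sq [(1, 1), (2, 39), (3,
    -6), (5, 100), (7, -57), (13, 49), (17, 5), (19, -30), (23, -48)])) (.mul (.g 19) (.add (.mul (.g
    4) (.pp [(1, 8725800000)])) (.mul (.g 19) (.pp [(1, 48464550000)]))))))))))) (.add (.add (.add
    (.mul (.g 5) (.add (.add (.mul (.pp [(1, 354870)]) (.sq [(2, 100), (3, 14), (5, 12), (7, -26),
    (13, 12), (17, -2), (19, -67), (23, -6)])) (.mul (.pp [(1, 71445)]) (.sq [(2, -3), (3, -100), (5,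
    -96), (7, 83), (13, -13), (17, 55), (19, -31), (23, -8)]))) (.add (.mul (.pp [(1, 236610)]) (.sq
    [(1, -16), (2, -1), (3, -11), (5, 63), (7, -37), (13, -10), (17, 100), (19, -20), (23, -6)]))
    (.mul (.pp [(1, 35250)]) (.sq [(1, -9), (2, 19), (3, -13), (5, -100), (7, 19), (13, -43), (17,
    86), (19, 38), (23, 20)]))))) (.mul (.g 21) (.add (.add (.mul (.pp [(1, 81126)]) (.sq [(1, -5),
    (2, -100), (3, 34), (5, 96), (7, -36), (13, 37), (17, 75), (19, -10), (23, -29)])) (.mul (.pp [(1,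
    57321)]) (.sq [(1, 36), (2, 64), (3, -70), (5, 100), (7, -17), (13, -44), (17, -98), (19, 2), (23,
    -28)]))) (.add (.mul (.pp [(1, 83673)]) (.sq [(1, -18), (2, 32), (3, -3), (5, 74), (7, -15), (13,
    11), (17, -100), (19, -3), (23, 36)])) (.mul (.pp [(1, 127230)]) (.sq [(2, -2), (3, 2), (5, 63),
    (7, 13), (13, -100), (17, 100), (19, 3), (23, 4)])))))) (.add (.mul (.g 22) (.add (.mul (.pp [(1,
    488184)]) (.sq [(2, 2), (3, -14), (5, 100), (7, -8), (13, -4), (17, -9), (19, -4), (23, -3)]))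
    (.add (.mul (.pp [(1, 17559)]) (.sq [(1, 6), (2, -48), (3, -11), (5, -82), (7, -12), (13, 15),
    (17, -50), (19, -42), (23, 100)])) (.mul (.pp [(1, 44961)]) (.sq [(2, -81), (3, -42), (5, -3), (7,
    13), (13, -6), (17, 4), (19, 100), (23, -55)]))))) (.add (.mul (.g 4) (.add (.mul (.pp [(1,
    168120)]) (.sq [(1, -28), (2, -97), (3, 50), (5, 100), (7, -47), (13, 90), (17, 95), (19, -52),
    (23, -1)])) (.mul (.pp [(1, 231195)]) (.sq [(1, 28), (2, -52), (3, -70), (5, 22), (7, -26), (13,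
    -100), (17, 88), (19, 79), (23, -31)])))) (.mul (.g 16) (.add (.mul (.pp [(1, 276630)]) (.sq [(1,
    1), (2, 53), (3, 1), (5, 20), (7, -16), (13, 27), (17, -100), (19, -8), (23, 10)])) (.mul (.pp
    [(1, 98925)]) (.sq [(1, 72), (2, 100), (3, 91), (5, -34), (7, -44), (13, -69), (17, -64), (19,
    -16), (23, 21)]))))))) (.add (.add (.mul (.g 2) (.mul (.pp [(1, 268065)]) (.sq [(1, 21), (2, 32),
    (3, 3), (5, -26), (7, 45), (13, -100), (17, 7), (19, 33), (23, -24)]))) (.add (.mul (.g 3) (.mul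
    (.pp [(1, 203760)]) (.sq [(1, 28), (2, 43), (3, 29), (5, 63), (7, -37), (13, 15), (17, -100), (19,
    -22), (23, -1)]))) (.mul (.g 7) (.mul (.pp [(1, 27240)]) (.sq [(1, -92), (2, -100), (3, -49), (5,
    86), (7, 16), (13, 97), (17, 8), (23, 54)]))))) (.add (.mul (.g 8) (.mul (.pp [(1, 1264425)]) (.sq
    [(1, 28), (2, 100), (3, 5), (5, 2), (7, 9), (13, -87), (17, -1), (19, 27), (23, -29)]))) (.add
    (.mul (.g 11) (.mul (.pp [(1, 532065)]) (.sq [(1, 24), (2, -54), (3, -64), (5, 23), (7, -40), (13,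
    3), (17, 100), (19, -9), (23, -14)]))) (.mul (.g 17) (.mul (.pp [(1, 1090305)]) (.sq [(1, -1), (2,
    16), (3, 18), (5, 100), (7, -57), (13, 19), (17, -49), (23, 14)])))))))) (.pp [(1, 373103661), (2,
    1632840), (3, 1401042), (4, 1558602), (5, 1492260), (6, 1367646), (7, 2067945), (8, 1618035), (9,
    1332582), (10, 1472424), (12, 1397775), (13, 1532865), (14, 1298208), (15, 1719060), (17,
    1401027), (18, 1458735), (19, 1336404), (20, 1640055), (21, 1275174), (23, 1514046), (25,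
    1298958), (26, 1142676), (27, 1299015), (28, 1516050), (30, 1360740), (34, 1559004), (35,
    1223040), (38, 1704606), (39, 1825086), (42, 1481640), (45, 1633485), (46, 1469160), (49,
    1192983), (50, 1585710), (51, 1910064), (52, 1250835), (57, 1462626), (63, 1307895), (65,
    1924380), (68, 1410840), (69, 1638168), (70, 1669380), (75, 1291035), (76, 1421400), (78,
    1722660), (85, 1064616), (91, 1114848), (92, 1483140), (95, 1664388), (98, 1398840), (102,
    1408290), (105, 1416540), (114, 1511850), (115, 1568550), (117, 1503195), (119, 1495494), (125,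
    1556825), (130, 1667520), (133, 1840560), (138, 1580550), (147, 1488255), (153, 1755690), (161,
    1527468), (169, 1565715), (170, 1356330), (171, 1620330), (175, 1542750), (182, 1558470), (190,
    1278660), (195, 1632690), (207, 1661730), (221, 1485996), (230, 1478790), (238, 1783500), (245,
    1624605), (247, 1579968), (255, 1414470), (266, 1712940), (273, 1353120), (285, 1680510), (289,
    1558611), (299, 1406424), (322, 1641240), (323, 1629474), (325, 1509195), (338, 1781160), (343,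
    1463525), (345, 1570320), (357, 1665990), (361, 1430202), (391, 1567620), (399, 1852980), (425,
    1592235), (437, 1487652), (442, 1258620), (455, 1469070), (475, 1550460), (483, 1676010), (494,
    1559760), (507, 1273935), (529, 1495761), (575, 1603860), (578, 1661715), (595, 1090620), (598,
    1427760), (637, 1587360), (646, 1343160), (663, 1622940), (665, 1368090), (722, 1462725), (741,
    1454250), (782, 1335660), (805, 1525350), (833, 1747740), (845, 1352595), (867, 1148790), (874,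
    1351560), (897, 1571790), (931, 1761465), (969, 1483530), (1058, 1493010), (1083, 1329450), (1105,
    1548930), (1127, 1592205), (1173, 1044960), (1183, 1517475), (1235, 1356750), (1311, 1389510),
    (1445, 1601460), (1495, 1438080), (1547, 1480320), (1587, 1417890), (1615, 1805640), (1729,
    1400670), (1805, 1502370), (1955, 1825260), (2023, 1449465), (2093, 1457160), (2185, 1423140),
    (2197, 1499340), (2261, 1153770), (2527, 1177845), (2645, 1406625), (2737, 1423560), (2873,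
    1497330), (3059, 1279560), (3211, 1670205), (3703, 1389885), (3757, 1477605), (3887, 1522170),
    (4199, 1486650), (4693, 1392555), (4913, 1491345), (5083, 1602780), (5491, 1660575), (5681,
    1547010), (6137, 1373610), (6647, 1579740), (6859, 1698980), (6877, 1628070), (7429, 1475310),
    (8303, 1556565), (8993, 1521000), (10051, 1496175), (12167, 1518860)])) (by norm_num)
    (by decide +kernel)

theorem y1 : Ck (gY1 []) (pW (vY1 1)) :=
  .mk' 250000 (.add (.add (.add (.add (.add (.mul (.g 15) (.add (.add (.add (.mul (.pp [(1, 1910430)]) (.sq [(2,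
    100), (3, -31), (5, -31), (7, -31), (13, -31), (19, -31), (23, 100)])) (.add (.mul (.pp [(1,
    1915035)]) (.sq [(1, 5), (2, -78), (3, -27), (5, 19), (7, -29), (13, -8), (19, -100), (23, 73)]))
    (.mul (.g 7) (.add (.add (.mul (.g 9) (.pp [(1, 97569900000)])) (.mul (.g 10) (.pp [(1,
    18301950000)]))) (.add (.mul (.g 13) (.pp [(1, 11131500000)])) (.add (.mul (.g 14) (.pp [(1,
    40946100000)])) (.mul (.g 16) (.pp [(1, 21731400000)])))))))) (.add (.mul (.g 11) (.add (.add (.pp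
    [(1, 18442950000)]) (.mul (.g 8) (.pp [(1, 27439950000)]))) (.add (.mul (.g 10) (.pp [(1,
    40201200000)])) (.add (.mul (.g 14) (.pp [(1, 39825150000)])) (.mul (.g 19) (.pp [(1,
    9486300000)])))))) (.add (.mul (.g 15) (.add (.add (.mul (.g 10) (.pp [(1, 41875350000)])) (.mul
    (.g 13) (.pp [(1, 54444150000)]))) (.add (.mul (.g 15) (.pp [(1, 11602350000)])) (.mul (.g 19)
    (.pp [(1, 9965490000)]))))) (.mul (.g 14) (.add (.pp [(1, 21906300000)]) (.add (.mul (.g 2) (.pp
    [(1, 31532850000)])) (.mul (.g 16) (.pp [(1, 35715300000)])))))))) (.add (.add (.mul (.g 18) (.add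
    (.mul (.g 9) (.pp [(1, 12292710000)])) (.add (.mul (.g 16) (.pp [(1, 4601130000)])) (.mul (.g 18)
    (.pp [(1, 1196178000)]))))) (.add (.mul (.g 19) (.add (.mul (.g 2) (.pp [(1, 1062300000)])) (.add
    (.mul (.g 10) (.pp [(1, 1031580000)])) (.mul (.g 19) (.pp [(1, 1534872000)]))))) (.mul (.g 5)
    (.add (.pp [(1, 64071750000)]) (.mul (.g 13) (.pp [(1, 3902400000)])))))) (.add (.mul (.g 0) (.mul
    (.g 6) (.pp [(1, 1520062500)]))) (.add (.mul (.g 8) (.mul (.g 17) (.pp [(1, 918030000)]))) (.mul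
    (.g 9) (.pp [(1, 3882450000)]))))))) (.mul (.g 11) (.add (.add (.add (.mul (.pp [(1, 2152755)])
    (.sq [(2, -27), (3, -33), (5, -100), (7, 50), (13, -28), (19, -3), (23, 33)])) (.add (.mul (.pp
    [(1, 237585)]) (.sq [(2, -20), (3, -95), (5, 100), (7, 75), (19, -58), (23, -52)])) (.mul (.pp
    [(1, 588255)]) (.sq [(2, -100), (3, -71), (23, 71)])))) (.add (.mul (.pp [(1, 247815)]) (.sq [(2,
    -25), (3, -100), (5, -28), (7, -1), (13, -93), (19, -33), (23, 98)])) (.add (.mul (.g 14) (.add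
    (.add (.pp [(1, 42174900000)]) (.add (.mul (.g 4) (.pp [(1, 14249400000)])) (.mul (.g 6) (.pp [(1,
    4848450000)])))) (.add (.mul (.g 8) (.pp [(1, 712800000)])) (.add (.mul (.g 13) (.pp [(1,
    12847950000)])) (.mul (.g 19) (.pp [(1, 619230000)])))))) (.mul (.g 2) (.add (.mul (.g 7) (.pp
    [(1, 3690150000)])) (.add (.mul (.g 8) (.pp [(1, 21914550000)])) (.mul (.g 16) (.pp [(1,
    46055850000)])))))))) (.add (.add (.mul (.g 9) (.add (.mul (.g 7) (.pp [(1, 206250000)])) (.add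
    (.mul (.g 8) (.pp [(1, 2896350000)])) (.mul (.g 18) (.pp [(1, 2917530000)]))))) (.add (.mul (.g 6)
    (.add (.pp [(1, 68043150000)]) (.mul (.g 16) (.pp [(1, 57469650000)])))) (.mul (.g 19) (.add (.pp
    [(1, 8455890000)]) (.mul (.g 16) (.pp [(1, 7878570000)])))))) (.add (.mul (.g 1) (.pp [(1,
    74031750000)])) (.add (.mul (.g 5) (.pp [(1, 24246450000)])) (.mul (.g 8) (.mul (.g 11) (.pp [(1,
    22478700000)]))))))))) (.add (.mul (.g 5) (.add (.add (.add (.mul (.pp [(1, 659640)]) (.sq [(2,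
    -25), (3, -25), (5, 95), (7, 65), (13, -100), (19, 24), (23, -100)])) (.add (.mul (.pp [(1,
    125820)]) (.sq [(1, 1), (2, -15), (3, -12), (5, 100), (7, -40), (13, 9), (19, -64), (23, -44)]))
    (.mul (.pp [(1, 438675)]) (.sq [(2, 35), (3, 100), (5, -61), (7, -61), (13, 22), (19, 85), (23,
    21)])))) (.add (.mul (.pp [(1, 50835)]) (.sq [(2, 37), (3, 83), (5, 100), (7, -56), (13, 88), (19,
    46), (23, 1)])) (.add (.mul (.pp [(1, 266175)]) (.sq [(2, -37), (3, 3), (5, 71), (7, -100), (13,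
    -2), (19, 75), (23, 19)])) (.mul (.pp [(1, 82965)]) (.sq [(1, -14), (2, 100), (3, -18), (5, 73),
    (7, -26), (13, 45), (19, -48), (23, -25)]))))) (.add (.add (.mul (.pp [(1, 59670)]) (.sq [(1,
    -35), (2, -8), (3, -42), (5, 27), (7, 56), (13, 3), (19, -52), (23, 100)])) (.add (.mul (.pp [(1,
    2187270)]) (.sq [(1, 11), (2, 29), (3, 100), (5, 6), (7, -13), (13, 2), (19, 46), (23, -16)]))
    (.mul (.g 0) (.add (.add (.pp [(1, 3215767500)]) (.mul (.g 2) (.pp [(1, 2490000000)]))) (.add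
    (.mul (.g 4) (.pp [(1, 1062570000)])) (.mul (.g 8) (.pp [(1, 1208647500)]))))))) (.add (.add (.mul
    (.g 6) (.add (.mul (.g 1) (.pp [(1, 31236600000)])) (.mul (.g 2) (.pp [(1, 57922050000)])))) (.mul
    (.g 9) (.add (.pp [(1, 67176600000)]) (.mul (.g 9) (.pp [(1, 10192050000)]))))) (.add (.mul (.g
    10) (.add (.pp [(1, 20631450000)]) (.mul (.g 18) (.pp [(1, 2283570000)])))) (.mul (.g 16) (.add
    (.mul (.g 8) (.pp [(1, 21513600000)])) (.mul (.g 19) (.pp [(1, 1379640000)]))))))))) (.mul (.g 1)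
    (.add (.add (.add (.mul (.pp [(1, 247395)]) (.sq [(2, 64), (3, 18), (5, -37), (7, -62), (13, 100),
    (19, -7), (23, -7)])) (.mul (.pp [(1, 1508595)]) (.sq [(1, -4), (2, -17), (3, -17), (5, 100), (13,
    72), (19, -100), (23, -39)]))) (.add (.mul (.pp [(1, 5854095)]) (.sq [(1, -27), (2, 32), (3, 100),
    (5, -16), (7, -4), (13, 49), (19, 2), (23, -4)])) (.mul (.g 16) (.add (.add (.pp [(1,
    46547850000)]) (.mul (.g 1) (.pp [(1, 55443450000)]))) (.add (.mul (.g 4) (.pp [(1,
    22177650000)])) (.mul (.g 17) (.pp [(1, 1333710000)]))))))) (.add (.add (.mul (.g 0) (.add (.mul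
    (.g 3) (.pp [(1, 3146692500)])) (.mul (.g 8) (.pp [(1, 968422500)])))) (.mul (.g 2) (.add (.mul
    (.g 6) (.pp [(1, 15307350000)])) (.mul (.g 7) (.pp [(1, 12916800000)]))))) (.add (.mul (.g 13)
    (.add (.mul (.g 6) (.pp [(1, 4492500000)])) (.mul (.g 14) (.pp [(1, 2221650000)])))) (.add (.mul
    (.g 3) (.mul (.g 14) (.pp [(1, 1672950000)]))) (.mul (.g 9) (.pp [(1, 10026000000)]))))))))) (.add
    (.add (.mul (.g 14) (.add (.add (.mul (.pp [(1, 118830)]) (.sq [(1, -40), (2, 99), (3, -17), (5,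
    -91), (7, 7), (13, -6), (19, 100), (23, -40)])) (.add (.mul (.pp [(1, 81900)]) (.sq [(2, -62), (3,
    6), (5, 22), (7, 61), (13, -100), (19, 75), (23, -41)])) (.mul (.g 19) (.add (.add (.mul (.g 3)
    (.pp [(1, 2078040000)])) (.mul (.g 8) (.pp [(1, 302310000)]))) (.add (.mul (.g 16) (.pp [(1,
    7198620000)])) (.mul (.g 17) (.pp [(1, 505644000)]))))))) (.add (.add (.mul (.g 6) (.add (.pp [(1,
    10386600000)]) (.mul (.g 13) (.pp [(1, 3062100000)])))) (.mul (.g 9) (.add (.mul (.g 10) (.pp [(1,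
    15002400000)])) (.mul (.g 14) (.pp [(1, 1550850000)]))))) (.add (.mul (.g 17) (.add (.mul (.g 7)
    (.pp [(1, 819300000)])) (.mul (.g 8) (.pp [(1, 3202410000)])))) (.mul (.g 10) (.mul (.g 14) (.pp
    [(1, 1227750000)]))))))) (.mul (.g 6) (.add (.mul (.pp [(1, 26100)]) (.sq [(1, -53), (2, 78), (3,
    -82), (5, 100), (7, 34), (13, 88), (19, -71), (23, -11)])) (.add (.mul (.pp [(1, 189075)]) (.sq
    [(1, -1), (2, 28), (3, -32), (5, 100), (7, 18), (13, 10), (19, 11), (23, -89)])) (.mul (.g 2)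
    (.mul (.g 7) (.pp [(1, 47719200000)]))))))) (.add (.mul (.g 9) (.add (.mul (.pp [(1, 4000845)])
    (.sq [(1, -8), (2, 38), (3, 13), (5, 2), (7, -20), (13, 100), (19, -27), (23, -17)])) (.add (.mul
    (.g 7) (.mul (.g 8) (.pp [(1, 2708850000)]))) (.mul (.g 19) (.mul (.g 19) (.pp [(1,
    341886000)])))))) (.mul (.g 16) (.add (.mul (.pp [(1, 528615)]) (.sq [(1, -50), (2, 25), (3, -60),
    (5, 55), (7, 54), (13, 100), (19, -2), (23, -81)])) (.mul (.g 7) (.mul (.g 16) (.pp [(1,
    24096600000)])))))))) (.add (.add (.add (.mul (.g 18) (.add (.mul (.pp [(1, 696144)]) (.sq [(2,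
    -82), (3, 100), (5, -65), (7, 57), (13, 65), (19, -22), (23, -33)])) (.mul (.pp [(1, 165135)])
    (.sq [(3, 1), (5, 47), (7, 1), (13, 100), (19, 10), (23, -87)])))) (.mul (.g 0) (.mul (.pp [(1,
    984)]) (.sq [(1, 28), (2, 32), (3, -5), (5, -48), (7, 16), (13, -91), (19, 100), (23, -58)]))))
    (.add (.mul (.g 2) (.mul (.pp [(1, 690090)]) (.sq [(1, -55), (2, 54), (3, 17), (5, 40), (7, -13),
    (13, 100), (19, 44), (23, -62)]))) (.mul (.g 3) (.mul (.pp [(1, 15930)]) (.sq [(1, -52), (2, -6),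
    (3, 4), (5, 65), (7, -18), (13, 100), (19, -20), (23, -5)]))))) (.add (.add (.mul (.g 4) (.mul
    (.pp [(1, 242820)]) (.sq [(1, -44), (2, -39), (3, 40), (5, 86), (7, -23), (13, 100), (19, -42),
    (23, 4)]))) (.mul (.g 8) (.mul (.pp [(1, 3367620)]) (.sq [(1, -26), (2, -32), (3, 42), (5, -5),
    (7, -11), (13, 100), (19, -21)])))) (.add (.mul (.g 10) (.mul (.pp [(1, 633075)]) (.sq [(1, -18),
    (2, -20), (3, 32), (5, -2), (7, -20), (13, 100), (19, -42), (23, 25)]))) (.add (.mul (.g 13) (.mul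
    (.pp [(1, 119640)]) (.sq [(1, -29), (2, 47), (3, 15), (5, 100), (7, -3), (13, -18), (19, -2), (23,
    -3)]))) (.mul (.g 19) (.mul (.pp [(1, 532011)]) (.sq [(2, -63), (3, 68), (5, 100), (7, -60), (13,
    -5), (19, -7), (23, 3)])))))))) (.pp [(1, 3810149493), (2, 1483704), (3, 1211325), (4, 1253283),
    (5, 1587084), (6, 1133604), (7, 1560492), (8, 1503570), (9, 1332078), (10, 1759896), (12,
    1394490), (13, 1452678), (14, 1463964), (15, 1815270), (18, 1337520), (19, 1400565), (20,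
    1422060), (21, 1465530), (23, 1626924), (25, 1423743), (26, 1630152), (27, 1340205), (28,
    1614300), (30, 1611480), (35, 1476468), (38, 1386078), (39, 1574160), (42, 1345320), (45,
    1745220), (46, 1713456), (49, 1554054), (50, 1577220), (52, 1607340), (57, 1508106), (63,
    1305555), (65, 1408482), (69, 1870356), (70, 1481700), (75, 1351170), (76, 1728555), (78,
    1534530), (91, 1261536), (92, 1360545), (95, 1561110), (98, 1453020), (105, 1508490), (114,
    1486140), (115, 1513566), (117, 1595985), (125, 1489625), (130, 1521330), (133, 1460766), (138,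
    2016900), (147, 1711590), (161, 1574202), (169, 1588512), (171, 1643130), (175, 1592490), (182,
    1474920), (190, 1289190), (195, 1554240), (207, 1707375), (230, 1366440), (245, 1426470), (247,
    1582980), (266, 1512630), (273, 1542690), (285, 1577970), (299, 1702812), (322, 1469100), (325,
    1610580), (338, 1362120), (343, 1429615), (345, 1268250), (361, 1490265), (399, 1068900), (437,
    1333422), (455, 1581090), (475, 1455765), (483, 1480380), (494, 1555260), (507, 1577385), (529,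
    1196538), (575, 1415205), (598, 1510230), (637, 1489260), (665, 1586220), (722, 1502940), (741,
    1468860), (805, 1511850), (845, 1539375), (874, 1600170), (897, 1196610), (931, 1603065), (1058,
    1391955), (1083, 1607190), (1127, 1410615), (1183, 1481940), (1235, 1373460), (1311, 1680870),
    (1495, 1224540), (1587, 1421670), (1729, 1647960), (1805, 1480875), (2093, 1487880), (2185,
    1600800), (2197, 1500000), (2527, 1252440), (2645, 1553250), (3059, 1681110), (3211, 1428195),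
    (3703, 1507155), (3887, 1321440), (4693, 1495545), (5681, 1658550), (6859, 1606985), (6877,
    1608780), (8303, 1577610), (10051, 1465500), (12167, 1605330)])) (by norm_num)
    (by decide +kernel)

theorem c1le : Ck (gC1 (leB 2 5)) (pW (vC1 1)) :=
  .mk' 1000000 (.add (.add (.add (.add (.add (.mul (.pp [(1, 4345500)]) (.sq [(1, 8), (2, 21), (3, 4), (5, -1),
    (7, 76), (11, -100), (13, 48), (19, -78), (23, 14)])) (.add (.mul (.pp [(1, 3780480)]) (.sq [(1,
    55), (2, 40), (3, 10), (5, -48), (7, 58), (11, -80), (13, -100), (19, -34), (23, 6)])) (.mul (.g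
    10) (.add (.add (.add (.add (.mul (.pp [(1, 1043820)]) (.sq [(1, -31), (2, -61), (3, -55), (5,
    -1), (7, 100), (11, 49), (13, -38), (19, 8), (23, -29)])) (.mul (.pp [(1, 631080)]) (.sq [(2,
    -62), (3, 23), (5, -17), (7, 5), (11, -100), (13, 71), (19, 79), (23, -83)]))) (.add (.mul (.pp
    [(1, 1222740)]) (.sq [(2, 11), (3, 100), (5, 2), (7, -12), (11, 96), (13, -52), (19, 24), (23,
    -52)])) (.mul (.pp [(1, 36178080)]) (.sq [(2, -31), (11, 50)])))) (.add (.add (.mul (.pp [(1,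
    1132200)]) (.sq [(1, 1), (2, 50), (3, -35), (5, 40), (7, -17), (11, 100), (13, -99), (19, 79),
    (23, -59)])) (.mul (.pp [(1, 195360)]) (.sq [(1, -24), (2, -20), (3, 100), (5, 86), (7, 31), (11,
    -64), (13, -19), (19, -39), (23, -15)]))) (.add (.mul (.g 8) (.add (.add (.pp [(1, 155068200000)])
    (.mul (.g 3) (.pp [(1, 27610800000)]))) (.add (.mul (.g 18) (.pp [(1, 92479800000)])) (.mul (.g
    23) (.pp [(1, 3834720000)]))))) (.mul (.g 12) (.add (.add (.mul (.g 6) (.pp [(1, 27148200000)]))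
    (.mul (.g 11) (.pp [(1, 38551200000)]))) (.add (.mul (.g 14) (.pp [(1, 9249000000)])) (.mul (.g
    18) (.pp [(1, 62346600000)])))))))) (.add (.add (.add (.mul (.g 16) (.add (.add (.pp [(1,
    8473320000)]) (.mul (.g 2) (.pp [(1, 17278200000)]))) (.add (.mul (.g 3) (.pp [(1, 17132400000)]))
    (.mul (.g 23) (.pp [(1, 6676128000)]))))) (.mul (.g 1) (.add (.pp [(1, 196702800000)]) (.add (.mul
    (.g 17) (.pp [(1, 65231400000)])) (.mul (.g 18) (.pp [(1, 40891800000)])))))) (.add (.mul (.g 20)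
    (.add (.mul (.g 6) (.pp [(1, 148657800000)])) (.add (.mul (.g 10) (.pp [(1, 2401200000)])) (.mul
    (.g 20) (.pp [(1, 5932200000)]))))) (.mul (.g 2) (.add (.mul (.g 5) (.pp [(1, 1413000000)])) (.mul
    (.g 19) (.pp [(1, 3117000000)])))))) (.add (.add (.mul (.g 14) (.add (.mul (.g 22) (.pp [(1,
    2927040000)])) (.mul (.g 23) (.pp [(1, 5166960000)])))) (.mul (.g 11) (.pp [(1, 166677600000)])))
    (.add (.mul (.g 18) (.mul (.g 23) (.pp [(1, 18357360000)]))) (.mul (.g 19) (.mul (.g 21) (.pp [(1,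
    5051400000)])))))))))) (.add (.mul (.g 21) (.add (.add (.add (.mul (.pp [(1, 5990100)]) (.sq [(2,
    100), (3, -7), (5, -7), (7, -7), (11, -65), (13, -7), (19, -7), (23, -7)])) (.mul (.pp [(1,
    176436)]) (.sq [(1, -11), (2, 79), (3, 100), (5, -13), (7, -26), (11, 69), (13, 98), (19, 15),
    (23, -50)]))) (.add (.mul (.g 8) (.add (.add (.pp [(1, 50490360000)]) (.mul (.g 5) (.pp [(1,
    7228680000)]))) (.add (.mul (.g 12) (.pp [(1, 11121240000)])) (.add (.mul (.g 22) (.pp [(1,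
    3642840000)])) (.mul (.g 23) (.pp [(1, 804192000)])))))) (.add (.mul (.g 20) (.add (.add (.mul (.g
    1) (.pp [(1, 19235520000)])) (.mul (.g 4) (.pp [(1, 6213240000)]))) (.add (.mul (.g 5) (.pp [(1,
    36512400000)])) (.add (.mul (.g 16) (.pp [(1, 2841672000)])) (.mul (.g 23) (.pp [(1,
    3756912000)])))))) (.mul (.g 7) (.add (.mul (.g 7) (.pp [(1, 7887360000)])) (.add (.mul (.g 14)
    (.pp [(1, 7420440000)])) (.mul (.g 16) (.pp [(1, 547824000)])))))))) (.add (.add (.mul (.g 11)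
    (.add (.mul (.g 12) (.pp [(1, 3946560000)])) (.add (.mul (.g 18) (.pp [(1, 15688800000)])) (.mul
    (.g 23) (.pp [(1, 3160128000)]))))) (.add (.mul (.g 21) (.add (.pp [(1, 7080552000)]) (.add (.mul
    (.g 5) (.pp [(1, 5424024000)])) (.mul (.g 22) (.pp [(1, 161361600)]))))) (.mul (.g 3) (.add (.mul
    (.g 2) (.pp [(1, 18175440000)])) (.mul (.g 5) (.pp [(1, 3139560000)])))))) (.add (.mul (.g 0) (.pp
    [(1, 223566000)])) (.add (.mul (.g 12) (.mul (.g 22) (.pp [(1, 3889224000)]))) (.mul (.g 16) (.mul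
    (.g 18) (.pp [(1, 2815056000)])))))))) (.add (.mul (.g 19) (.add (.add (.add (.mul (.pp [(1,
    1139340)]) (.sq [(1, -2), (2, 1), (3, 100), (5, -26), (7, 1), (11, 74), (13, -25), (19, -1), (23,
    -11)])) (.mul (.pp [(1, 283080)]) (.sq [(1, -28), (2, -100), (3, 70), (5, -63), (7, 97), (11, -5),
    (13, 41), (19, -52)]))) (.add (.mul (.g 13) (.add (.add (.pp [(1, 57511800000)]) (.add (.mul (.g
    5) (.pp [(1, 29226600000)])) (.mul (.g 6) (.pp [(1, 25275000000)])))) (.add (.add (.mul (.g 12)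
    (.pp [(1, 228560400000)])) (.mul (.g 16) (.pp [(1, 3013080000)]))) (.add (.mul (.g 18) (.pp [(1,
    193324200000)])) (.mul (.g 20) (.pp [(1, 98569200000)])))))) (.mul (.g 22) (.add (.add (.mul (.g
    6) (.pp [(1, 6200880000)])) (.mul (.g 14) (.pp [(1, 12623760000)]))) (.add (.mul (.g 16) (.pp [(1,
    1090656000)])) (.mul (.g 23) (.pp [(1, 4107336000)]))))))) (.add (.add (.mul (.g 3) (.add (.mul
    (.g 8) (.pp [(1, 60695400000)])) (.mul (.g 23) (.pp [(1, 19059480000)])))) (.mul (.g 20) (.add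
    (.mul (.g 1) (.pp [(1, 48927600000)])) (.mul (.g 18) (.pp [(1, 7029000000)]))))) (.add (.mul (.g
    0) (.mul (.g 16) (.pp [(1, 161850000)]))) (.mul (.g 8) (.mul (.g 11) (.pp [(1,
    10057200000)]))))))) (.mul (.g 11) (.add (.add (.add (.mul (.pp [(1, 457140)]) (.sq [(1, 56), (2,
    23), (3, 60), (5, -23), (7, -4), (11, -3), (13, -38), (19, -30), (23, 100)])) (.mul (.pp [(1,
    401580)]) (.sq [(2, -100), (3, -8), (5, -7), (7, 34), (11, -67), (13, 76), (19, -28), (23, 76)])))
    (.add (.mul (.pp [(1, 1920360)]) (.sq [(1, -73), (2, -33), (3, -7), (5, 79), (7, -7), (11, 100),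
    (13, -25), (19, 37), (23, -40)])) (.add (.mul (.pp [(1, 1294440)]) (.sq [(1, -1), (2, 93), (3,
    -31), (5, 7), (7, 46), (11, 58), (13, 60), (19, -100), (23, -22)])) (.mul (.pp [(1, 2104080)])
    (.sq [(1, -65), (2, 8), (3, 52), (5, -77), (7, -1), (11, 75), (13, 64), (19, 4), (23, 100)])))))
    (.add (.add (.mul (.pp [(1, 497880)]) (.sq [(2, 42), (3, -100), (5, 33), (7, -79), (11, -69), (13,
    51), (19, 17), (23, 20)])) (.add (.mul (.g 3) (.add (.add (.mul (.g 5) (.pp [(1, 75193200000)]))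
    (.mul (.g 8) (.pp [(1, 28739400000)]))) (.add (.mul (.g 11) (.pp [(1, 45748800000)])) (.add (.mul
    (.g 13) (.pp [(1, 24651600000)])) (.mul (.g 17) (.pp [(1, 31527600000)])))))) (.mul (.g 11) (.add
    (.pp [(1, 14343000000)]) (.mul (.g 4) (.pp [(1, 4681800000)])))))) (.add (.mul (.g 23) (.add (.mul
    (.g 13) (.pp [(1, 10795200000)])) (.mul (.g 14) (.pp [(1, 1569840000)])))) (.add (.mul (.g 0)
    (.mul (.g 20) (.pp [(1, 1475310000)]))) (.mul (.g 1) (.mul (.g 6) (.pp [(1,
    67991400000)]))))))))))) (.add (.add (.mul (.g 3) (.add (.add (.mul (.pp [(1, 13959960)]) (.sq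
    [(2, -24), (3, -15), (5, 100), (7, -9), (11, 89), (13, 7), (19, -24), (23, 2)])) (.add (.mul (.pp
    [(1, 1083900)]) (.sq [(1, 15), (2, 41), (3, -33), (5, -21), (7, -10), (11, 100), (13, -23), (19,
    -13), (23, -35)])) (.mul (.pp [(1, 2327400)]) (.sq [(1, -1), (2, 37), (3, 4), (5, -12), (7, 71),
    (11, 3), (13, -100), (19, -30), (23, 52)])))) (.add (.add (.mul (.g 16) (.add (.add (.pp [(1,
    14108640000)]) (.mul (.g 2) (.pp [(1, 28820280000)]))) (.add (.mul (.g 6) (.pp [(1,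
    31189680000)])) (.mul (.g 23) (.pp [(1, 1181280000)]))))) (.mul (.g 8) (.add (.mul (.g 8) (.pp
    [(1, 16057800000)])) (.mul (.g 23) (.pp [(1, 29032440000)]))))) (.add (.mul (.g 13) (.mul (.g 14)
    (.pp [(1, 15507000000)]))) (.mul (.g 20) (.mul (.g 20) (.pp [(1, 10114800000)]))))))) (.add (.mul
    (.g 1) (.add (.add (.add (.mul (.pp [(1, 3659580)]) (.sq [(2, 91), (3, -39), (5, 100), (11, 8),
    (13, -42), (19, -11), (23, -22)])) (.mul (.pp [(1, 4494720)]) (.sq [(2, 86), (3, 14), (5, 21), (7,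
    -67), (11, -100), (13, 57), (19, -59), (23, -89)]))) (.add (.mul (.pp [(1, 3697020)]) (.sq [(1,
    44), (2, -24), (3, -21), (5, -28), (7, 24), (11, 100), (13, -26), (19, -30), (23, -22)])) (.mul
    (.pp [(1, 3303780)]) (.sq [(2, 48), (3, 100), (5, -16), (7, 3), (11, 79), (13, -79), (23, 27)]))))
    (.add (.add (.mul (.pp [(1, 361260)]) (.sq [(2, 11), (3, -5), (5, 12), (11, -74), (13, 100), (19,
    -32), (23, -12)])) (.mul (.g 0) (.add (.pp [(1, 2888160000)]) (.mul (.g 17) (.pp [(1,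
    3567720000)]))))) (.add (.mul (.g 8) (.add (.pp [(1, 668091600000)]) (.mul (.g 8) (.pp [(1,
    48793800000)])))) (.mul (.g 20) (.mul (.g 20) (.pp [(1, 125415000000)]))))))) (.mul (.g 14) (.add
    (.add (.mul (.pp [(1, 342360)]) (.sq [(1, -42), (2, -43), (3, 5), (5, 32), (7, -23), (11, 100),
    (13, 39), (19, 13), (23, -7)])) (.add (.mul (.pp [(1, 129900)]) (.sq [(1, 76), (2, -63), (3, -21),
    (5, 100), (7, -20), (11, -30), (13, 7), (19, -61), (23, -48)])) (.mul (.pp [(1, 3326940)]) (.sq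
    [(1, 88), (2, -100), (3, -12), (5, 11), (7, -8), (11, 37), (13, -16), (19, -37), (23, 45)]))))
    (.add (.add (.mul (.pp [(1, 3222480)]) (.sq [(2, 27), (3, 100), (5, -3), (7, 5), (11, -3), (19,
    -11), (23, 65)])) (.mul (.pp [(1, 5541000)]) (.sq [(2, 46), (3, -62), (5, 100), (7, -43), (11,
    19), (13, -6), (19, -1), (23, 60)]))) (.add (.mul (.pp [(1, 683460)]) (.sq [(1, -37), (2, -8), (3,
    -12), (5, 17), (11, -73), (13, 100), (19, -24)])) (.mul (.g 20) (.mul (.g 20) (.pp [(1,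
    11316000000)]))))))))) (.add (.mul (.g 23) (.add (.add (.mul (.pp [(1, 575484)]) (.sq [(2, -24),
    (3, -30), (5, 100), (7, -3), (11, -6), (13, 36), (19, -1), (23, 15)])) (.mul (.pp [(1, 458820)])
    (.sq [(2, 72), (3, 17), (5, 100), (7, 3), (11, -25), (13, -7), (19, -54), (23, 10)]))) (.add (.mul
    (.pp [(1, 1039392)]) (.sq [(1, 13), (2, -73), (3, -69), (5, -100), (7, 60), (11, -75), (13, 90),
    (19, -19), (23, -40)])) (.add (.mul (.g 0) (.add (.pp [(1, 1445694000)]) (.add (.mul (.g 7) (.pp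
    [(1, 1745118000)])) (.mul (.g 22) (.pp [(1, 228015600)]))))) (.mul (.g 8) (.mul (.g 23) (.pp [(1,
    1823088000)]))))))) (.add (.mul (.g 12) (.add (.add (.mul (.pp [(1, 6853800)]) (.sq [(1, -37), (2,
    -6), (3, -6), (5, -5), (7, -71), (11, 100), (13, -28), (19, 79), (23, 6)])) (.mul (.pp [(1,
    419280)]) (.sq [(1, -2), (2, 6), (3, -34), (5, 1), (7, -32), (11, 6), (13, 100), (19, -10), (23,
    7)]))) (.add (.mul (.pp [(1, 3245700)]) (.sq [(2, 49), (3, -12), (5, 100), (7, -66), (11, -41),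
    (13, -1), (19, -1), (23, 27)])) (.add (.mul (.pp [(1, 5208780)]) (.sq [(1, -33), (2, -29), (3,
    -56), (5, 42), (7, -30), (11, -10), (13, 100), (23, 36)])) (.mul (.g 8) (.mul (.g 8) (.pp [(1,
    64612800000)]))))))) (.mul (.g 22) (.add (.add (.mul (.pp [(1, 1055676)]) (.sq [(1, -4), (2, 100),
    (3, -22), (5, -6), (7, -6), (11, 18), (13, -53), (19, -16), (23, 51)])) (.mul (.pp [(1, 161964)])
    (.sq [(1, 27), (2, 3), (3, 30), (5, 100), (7, 3), (11, -49), (13, 72), (19, -85), (23, 6)])))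
    (.add (.mul (.pp [(1, 1368)]) (.sq [(1, 27), (2, -49), (3, 81), (5, 59), (7, -100), (11, 60), (13,
    -19), (19, 51), (23, -4)])) (.add (.mul (.pp [(1, 212700)]) (.sq [(2, -79), (3, -20), (5, -1), (7,
    -38), (11, -100), (13, 90), (19, 19), (23, 36)])) (.mul (.pp [(1, 7092)]) (.sq [(2, -39), (3, 48),
    (5, -17), (7, -2), (11, 14), (13, 91), (19, -34), (23, 100)])))))))))) (.add (.add (.add (.mul (.g
    13) (.add (.add (.mul (.pp [(1, 5016840)]) (.sq [(1, -41), (2, -4), (3, -11), (5, 14), (7, 30),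
    (11, -79), (13, 100), (19, -38), (23, -11)])) (.mul (.pp [(1, 1185480)]) (.sq [(2, -6), (3, 100),
    (5, -46), (7, 12), (11, -16), (13, 22), (19, -15), (23, 78)]))) (.add (.mul (.pp [(1, 3636120)])
    (.sq [(2, 71), (3, -8), (5, 100), (7, -68), (11, -58), (13, 2), (19, 2), (23, 29)])) (.mul (.pp
    [(1, 1558740)]) (.sq [(1, 100), (2, -51), (3, 29), (5, 68), (7, -94), (11, 12), (13, -40), (19,
    8), (23, -48)]))))) (.add (.mul (.g 0) (.add (.mul (.pp [(1, 96219)]) (.sq [(2, 33), (3, 33), (5,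
    -67), (7, -100), (11, 33), (13, 33), (19, 33), (23, -67)])) (.add (.mul (.pp [(1, 17508)]) (.sq
    [(2, 91), (3, -37), (5, 1), (7, 100), (11, 96), (13, -59), (19, -18), (23, -47)])) (.mul (.pp [(1,
    250452)]) (.sq [(1, 79), (2, 33), (3, 13), (5, -100), (7, -46), (11, -66), (13, 75), (19, -37),
    (23, -6)]))))) (.mul (.g 8) (.add (.mul (.pp [(1, 1604100)]) (.sq [(2, 22), (3, -19), (5, -96),
    (7, 5), (13, 100), (23, 12)])) (.add (.mul (.pp [(1, 5101680)]) (.sq [(2, 100), (3, -18), (5,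
    -18), (7, -18), (11, 57), (13, -18), (19, -18), (23, -18)])) (.mul (.g 8) (.mul (.g 18) (.pp [(1,
    67019400000)])))))))) (.add (.mul (.g 2) (.add (.mul (.pp [(1, 157320)]) (.sq [(1, 28), (2, 62),
    (3, 50), (5, -65), (7, 48), (11, 4), (13, -100), (19, -34), (23, -17)])) (.mul (.pp [(1,
    2397960)]) (.sq [(1, -17), (2, 14), (3, 4), (5, 51), (7, -69), (11, 100), (13, -13), (19, 39),
    (23, -17)])))) (.add (.mul (.g 5) (.add (.mul (.pp [(1, 1086480)]) (.sq [(1, -63), (2, -19), (3,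
    25), (5, -14), (7, -19), (11, 100), (13, 50), (19, 26), (23, 34)])) (.mul (.pp [(1, 977760)]) (.sq
    [(2, -55), (3, -61), (5, 7), (7, 42), (11, -13), (13, -100), (19, 45), (23, 84)])))) (.mul (.g 9)
    (.add (.mul (.pp [(1, 1406580)]) (.sq [(1, 33), (2, 17), (3, 16), (5, 64), (7, 32), (11, -100),
    (13, 41), (19, -75), (23, 9)])) (.mul (.pp [(1, 7986240)]) (.sq [(1, -66), (2, -40), (3, -3), (5,
    5), (7, -31), (11, 100), (13, 81), (19, 37), (23, 34)]))))))) (.add (.add (.mul (.g 20) (.add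
    (.mul (.pp [(1, 1225740)]) (.sq [(2, 26), (3, 100), (7, -14), (11, -27), (13, -25), (19, -8), (23,
    -54)])) (.mul (.pp [(1, 1816680)]) (.sq [(1, -26), (2, 13), (3, -2), (5, 45), (7, -31), (11, 100),
    (13, -11), (19, 20), (23, -7)])))) (.add (.mul (.g 6) (.mul (.pp [(1, 2838540)]) (.sq [(1, -1),
    (2, 42), (3, 82), (7, -2), (11, 7), (13, -100), (19, 6), (23, 49)]))) (.mul (.g 7) (.mul (.pp [(1,
    1681680)]) (.sq [(2, 47), (3, 100), (5, -16), (7, 4), (11, 77), (13, -83), (19, -3), (23,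
    28)]))))) (.add (.add (.mul (.g 15) (.pp [(1, 5074)])) (.mul (.g 16) (.mul (.pp [(1, 841200)])
    (.sq [(2, 39), (3, -100), (7, 32), (11, -14), (13, -64), (19, 2), (23, 14)])))) (.add (.mul (.g
    17) (.mul (.pp [(1, 92340)]) (.sq [(1, 53), (2, 73), (3, 56), (5, -100), (7, 36), (11, -42), (13,
    -54), (19, -43), (23, -16)]))) (.mul (.g 18) (.mul (.pp [(1, 4595400)]) (.sq [(1, 44), (2, -33),
    (3, -1), (5, 12), (7, 12), (11, -85), (13, -100), (19, 32), (23, -22)])))))))) (.pp [(1,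
    11449566672), (2, 6081516), (3, 5238144), (4, 5571759), (5, 4732824), (6, 6115950), (7, 5616888),
    (8, 6294780), (9, 5888607), (10, 6716238), (11, 6619800), (12, 5775540), (13, 7616184), (14,
    6049848), (15, 6328278), (18, 6619620), (19, 6416148), (20, 5848080), (21, 6612144), (22,
    7856046), (23, 6805932), (25, 5778339), (26, 4894254), (27, 6112500), (28, 5887440), (30,
    5709960), (33, 5310606), (35, 6066528), (38, 6017670), (39, 6787830), (42, 5993280), (44,
    5789740), (45, 6201300), (46, 6581574), (49, 5875020), (50, 5649720), (52, 6587040), (55,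
    7026870), (57, 6472494), (63, 5288520), (65, 5660022), (66, 6313320), (69, 7702806), (70,
    6497760), (75, 5416560), (76, 6301260), (77, 4590576), (78, 6360480), (91, 6916512), (92,
    6141780), (95, 7520238), (98, 6499860), (99, 5748120), (105, 5637840), (110, 5773320), (114,
    5999520), (115, 7157694), (117, 5332440), (121, 5020983), (125, 6023000), (130, 6183240), (133,
    6023400), (138, 5891040), (143, 5340774), (147, 5301960), (154, 5882400), (161, 3244776), (165,
    5609040), (169, 4264923), (171, 6541980), (175, 6846420), (182, 6886800), (190, 5752320), (195,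
    6120000), (207, 6804000), (209, 5446542), (230, 4755960), (231, 5480520), (242, 6049000), (245,
    6506280), (247, 5714718), (253, 5950230), (266, 4530960), (273, 5882400), (275, 5273220), (285,
    6461880), (286, 5555400), (299, 5538822), (322, 6408720), (325, 7113720), (338, 6092340), (343,
    6686020), (345, 6212640), (361, 5468247), (363, 5781300), (385, 6508320), (399, 6652800), (418,
    5393160), (429, 6825600), (437, 5620566), (455, 4686960), (475, 5500260), (483, 6250800), (494,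
    6361320), (506, 5731920), (507, 5300040), (529, 6728151), (539, 5962020), (575, 5802300), (598,
    5434320), (605, 5785440), (627, 6633000), (637, 6681840), (665, 5725200), (715, 6029040), (722,
    6348840), (741, 6478200), (759, 6343440), (805, 5431440), (845, 6000000), (847, 5946780), (874,
    5465040), (897, 4658880), (931, 4249560), (1001, 6835680), (1045, 5439480), (1058, 5509980),
    (1083, 5085180), (1127, 5738040), (1183, 6349800), (1235, 5852280), (1265, 5964360), (1311,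
    5477640), (1331, 6019900), (1463, 6263400), (1495, 6767520), (1573, 6683340), (1587, 5204100),
    (1729, 4614360), (1771, 7050120), (1805, 5766060), (1859, 5119260), (2093, 5655120), (2185,
    5528160), (2197, 6343200), (2299, 6022380), (2527, 7745820), (2645, 6053220), (2717, 6504120),
    (2783, 6950340), (3059, 8535720), (3211, 5911320), (3289, 5046840), (3703, 6836220), (3887,
    6837480), (3971, 6383460), (4693, 6349380), (4807, 5538840), (5681, 6173040), (5819, 5832240),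
    (6859, 5644680), (6877, 5305800), (8303, 5699340), (10051, 5691060), (12167, 6108820)])) (by norm_num)
    (by decide +kernel)

theorem c1ge : Ck (gC1 (geB 2 5)) (pW (vC1 1)) :=
  .mk' 250000 (.add (.add (.add (.add (.add (.mul (.pp [(1, 1317240)]) (.sq [(1, -47), (2, 15), (3, -18), (5,
    -26), (7, -34), (11, 57), (13, -3), (19, 100), (23, -52)])) (.mul (.g 14) (.add (.add (.add (.add
    (.mul (.pp [(1, 306585)]) (.sq [(2, -9), (3, 93), (5, 43), (7, -100), (11, 32), (13, 73), (19,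
    36), (23, 19)])) (.mul (.pp [(1, 384870)]) (.sq [(1, -49), (2, -33), (3, 100), (5, -17), (7, -8),
    (11, 59), (13, -35), (19, 98), (23, 15)]))) (.add (.mul (.pp [(1, 568920)]) (.sq [(1, -2), (2,
    27), (3, -85), (5, -46), (7, 12), (11, 84), (13, -43), (19, 22), (23, 100)])) (.mul (.pp [(1,
    343830)]) (.sq [(1, -21), (2, -11), (3, -28), (5, 61), (7, 32), (11, -100), (13, 44), (19, -12),
    (23, -25)])))) (.add (.add (.mul (.pp [(1, 684045)]) (.sq [(2, 100), (3, -33), (5, 64), (7, -27),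
    (11, -71), (13, -13), (19, 45), (23, 12)])) (.mul (.pp [(1, 927750)]) (.sq [(1, 41), (2, 100), (3,
    21), (5, 21), (7, -45), (11, 12), (13, -25), (19, -7), (23, -7)]))) (.add (.mul (.pp [(1,
    828165)]) (.sq [(1, -41), (2, -40), (3, 19), (5, -40), (11, -29), (13, 100), (19, -11)])) (.add
    (.mul (.pp [(1, 76920)]) (.sq [(2, 71), (3, -55), (5, -30), (7, -18), (11, 71), (13, 48), (19,
    -67), (23, 100)])) (.mul (.g 16) (.add (.add (.pp [(1, 2778270000)]) (.add (.mul (.g 6) (.pp [(1,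
    4338720000)])) (.mul (.g 12) (.pp [(1, 10166490000)])))) (.add (.mul (.g 18) (.pp [(1,
    3467520000)])) (.add (.mul (.g 20) (.pp [(1, 1530810000)])) (.mul (.g 22) (.pp [(1,
    2613186000)])))))))))) (.add (.add (.add (.mul (.g 10) (.add (.add (.pp [(1, 1489650000)]) (.mul
    (.g 2) (.pp [(1, 1294950000)]))) (.add (.mul (.g 8) (.pp [(1, 7137600000)])) (.add (.mul (.g 18)
    (.pp [(1, 22184550000)])) (.mul (.g 23) (.pp [(1, 409650000)])))))) (.mul (.g 14) (.add (.add (.pp
    [(1, 12670950000)]) (.mul (.g 3) (.pp [(1, 22305150000)]))) (.add (.mul (.g 12) (.pp [(1,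
    17368200000)])) (.add (.mul (.g 22) (.pp [(1, 3827910000)])) (.mul (.g 23) (.pp [(1,
    778680000)]))))))) (.add (.mul (.g 18) (.add (.mul (.g 1) (.pp [(1, 13377900000)])) (.add (.mul
    (.g 19) (.pp [(1, 18197550000)])) (.mul (.g 21) (.pp [(1, 2385960000)]))))) (.add (.mul (.g 20)
    (.add (.mul (.g 21) (.pp [(1, 3886770000)])) (.mul (.g 23) (.pp [(1, 656670000)])))) (.mul (.g 1)
    (.pp [(1, 9696300000)]))))) (.add (.add (.mul (.g 5) (.pp [(1, 8447250000)])) (.mul (.g 6) (.mul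
    (.g 11) (.pp [(1, 6900000000)])))) (.add (.mul (.g 7) (.mul (.g 23) (.pp [(1, 929790000)]))) (.add
    (.mul (.g 12) (.mul (.g 19) (.pp [(1, 8955600000)]))) (.mul (.g 13) (.mul (.g 22) (.pp [(1,
    38430000)])))))))))) (.add (.mul (.g 21) (.add (.add (.add (.mul (.pp [(1, 40731)]) (.sq [(1, 64),
    (2, -99), (3, -56), (5, -62), (7, 72), (11, 51), (13, 100), (19, -31), (23, -61)])) (.add (.mul
    (.pp [(1, 347421)]) (.sq [(1, -36), (2, 100), (3, 71), (5, -21), (7, 34), (11, 7), (13, -4), (19,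
    8), (23, -32)])) (.mul (.pp [(1, 112008)]) (.sq [(1, 53), (2, 40), (3, -57), (5, 100), (7, -38),
    (11, -42), (13, 75), (19, -47), (23, 8)])))) (.add (.add (.mul (.pp [(1, 692304)]) (.sq [(2, 41),
    (3, -50), (5, -21), (7, -14), (11, 12), (13, -25), (19, 29), (23, -11)])) (.mul (.pp [(1,
    163806)]) (.sq [(2, 100), (3, -7), (5, -7), (7, -7), (11, -65), (13, -7), (19, -7), (23, -7)])))
    (.add (.mul (.g 1) (.add (.add (.pp [(1, 1983480000)]) (.add (.mul (.g 5) (.pp [(1, 2478060000)]))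
    (.mul (.g 6) (.pp [(1, 2864040000)])))) (.add (.mul (.g 8) (.pp [(1, 22340670000)])) (.add (.mul
    (.g 20) (.pp [(1, 4756920000)])) (.mul (.g 21) (.pp [(1, 550038000)])))))) (.mul (.g 8) (.add
    (.add (.pp [(1, 3543780000)]) (.mul (.g 7) (.pp [(1, 2170890000)]))) (.add (.mul (.g 20) (.pp [(1,
    12809670000)])) (.mul (.g 21) (.pp [(1, 448122000)])))))))) (.add (.add (.mul (.g 22) (.add (.add
    (.mul (.g 5) (.pp [(1, 818190000)])) (.mul (.g 6) (.pp [(1, 341586000)]))) (.add (.mul (.g 12)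
    (.pp [(1, 343308000)])) (.mul (.g 19) (.pp [(1, 244596000)]))))) (.add (.mul (.g 23) (.add (.add
    (.mul (.g 16) (.pp [(1, 201039600)])) (.mul (.g 17) (.pp [(1, 359184000)]))) (.add (.mul (.g 19)
    (.pp [(1, 56334000)])) (.mul (.g 20) (.pp [(1, 261606000)]))))) (.mul (.g 11) (.add (.mul (.g 3)
    (.pp [(1, 10485480000)])) (.add (.mul (.g 11) (.pp [(1, 4678320000)])) (.mul (.g 18) (.pp [(1,
    8224080000)]))))))) (.add (.add (.mul (.g 21) (.add (.mul (.g 6) (.pp [(1, 1986624000)])) (.mul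
    (.g 21) (.pp [(1, 354270000)])))) (.mul (.g 3) (.mul (.g 5) (.pp [(1, 6898470000)])))) (.add (.mul
    (.g 7) (.mul (.g 10) (.pp [(1, 603450000)]))) (.mul (.g 12) (.mul (.g 12) (.pp [(1,
    1681350000)])))))))) (.add (.mul (.g 23) (.add (.add (.add (.mul (.pp [(1, 21348)]) (.sq [(1, 2),
    (2, 20), (3, 36), (5, 100), (7, 13), (11, -14), (13, 33), (19, -80), (23, -2)])) (.mul (.pp [(1,
    7845)]) (.sq [(2, -16), (3, -36), (5, 1), (7, -9), (11, 82), (13, 100), (19, -13), (23, -42)])))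
    (.add (.mul (.pp [(1, 76020)]) (.sq [(1, 11), (2, 76), (3, 28), (5, 1), (7, -22), (11, 46), (13,
    -43), (19, -54), (23, 100)])) (.add (.mul (.pp [(1, 167181)]) (.sq [(2, -3), (3, -5), (5, 100),
    (7, 8), (11, -22), (13, 13), (19, -8), (23, -3)])) (.mul (.pp [(1, 52593)]) (.sq [(1, -9), (2, 5),
    (3, 24), (5, -100), (7, 12), (11, 13), (13, 97), (19, -1), (23, 30)]))))) (.add (.add (.mul (.g 8)
    (.add (.add (.mul (.g 1) (.pp [(1, 6269850000)])) (.mul (.g 7) (.pp [(1, 6126390000)]))) (.add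
    (.mul (.g 8) (.pp [(1, 2572260000)])) (.mul (.g 12) (.pp [(1, 3117960000)]))))) (.add (.mul (.g
    19) (.add (.add (.mul (.g 2) (.pp [(1, 510960000)])) (.mul (.g 13) (.pp [(1, 939870000)]))) (.add
    (.mul (.g 16) (.pp [(1, 65694000)])) (.mul (.g 22) (.pp [(1, 157368000)]))))) (.mul (.g 10) (.add
    (.mul (.g 2) (.pp [(1, 1059300000)])) (.add (.mul (.g 7) (.pp [(1, 3299250000)])) (.mul (.g 18)
    (.pp [(1, 4282500000)]))))))) (.add (.mul (.g 11) (.add (.pp [(1, 7708440000)]) (.add (.mul (.g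
    20) (.pp [(1, 943800000)])) (.mul (.g 22) (.pp [(1, 58638000)]))))) (.add (.mul (.g 16) (.add
    (.mul (.g 1) (.pp [(1, 1182756000)])) (.mul (.g 12) (.pp [(1, 410016000)])))) (.mul (.g 23) (.add
    (.mul (.g 0) (.pp [(1, 63206400)])) (.mul (.g 23) (.pp [(1, 127402800)]))))))))) (.mul (.g 1)
    (.add (.add (.add (.mul (.pp [(1, 381615)]) (.sq [(1, 13), (2, -9), (3, 70), (5, 43), (7, -100),
    (11, 1), (13, 4), (19, 8), (23, 12)])) (.add (.mul (.pp [(1, 1081680)]) (.sq [(1, 4), (2, -53),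
    (3, 13), (5, -7), (11, -36), (13, 100), (19, -24), (23, 7)])) (.mul (.pp [(1, 797685)]) (.sq [(1,
    -12), (2, -9), (3, 23), (5, -20), (7, -23), (11, 100), (13, 45), (19, 11), (23, 3)])))) (.add
    (.mul (.pp [(1, 2879985)]) (.sq [(2, 60), (3, -1), (5, 100), (11, 19), (13, 2), (19, -79), (23,
    -3)])) (.add (.mul (.pp [(1, 729570)]) (.sq [(1, 41), (2, -13), (3, -26), (5, 100), (7, -30), (11,
    -34), (13, 15), (19, -38), (23, -25)])) (.mul (.g 6) (.add (.mul (.g 6) (.pp [(1, 428100000)]))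
    (.add (.mul (.g 8) (.pp [(1, 15864750000)])) (.mul (.g 11) (.pp [(1, 27798750000)])))))))) (.add
    (.add (.mul (.g 19) (.add (.pp [(1, 6915450000)]) (.add (.mul (.g 0) (.pp [(1, 1805505000)]))
    (.mul (.g 22) (.pp [(1, 5670660000)]))))) (.add (.mul (.g 20) (.add (.pp [(1, 40594350000)]) (.add
    (.mul (.g 1) (.pp [(1, 3394350000)])) (.mul (.g 7) (.pp [(1, 22341000000)]))))) (.mul (.g 8) (.add
    (.pp [(1, 128206200000)]) (.mul (.g 8) (.pp [(1, 71742600000)])))))) (.add (.mul (.g 16) (.add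
    (.pp [(1, 18280350000)]) (.mul (.g 0) (.pp [(1, 384711000)])))) (.add (.mul (.g 10) (.pp [(1,
    16611450000)])) (.mul (.g 11) (.pp [(1, 37235850000)])))))))))) (.add (.add (.mul (.g 11) (.add
    (.add (.mul (.pp [(1, 317550)]) (.sq [(2, -77), (3, -92), (5, -52), (7, 10), (11, -69), (13, 100),
    (19, -16), (23, 2)])) (.add (.mul (.pp [(1, 2086935)]) (.sq [(1, -9), (2, -20), (3, 16), (5, -50),
    (7, 11), (11, 100), (13, -5), (19, 3), (23, -20)])) (.mul (.pp [(1, 1969350)]) (.sq [(1, -7), (2,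
    100), (3, -4), (5, -1), (7, 48), (11, -37), (13, -28), (19, -36), (23, 37)])))) (.add (.add (.mul
    (.g 11) (.add (.add (.pp [(1, 9032550000)]) (.mul (.g 3) (.pp [(1, 2525550000)]))) (.add (.mul (.g
    4) (.pp [(1, 1440900000)])) (.add (.mul (.g 12) (.pp [(1, 9873450000)])) (.mul (.g 20) (.pp [(1,
    11921400000)])))))) (.mul (.g 8) (.add (.mul (.g 5) (.pp [(1, 24866400000)])) (.mul (.g 16) (.pp
    [(1, 3747690000)]))))) (.add (.mul (.g 2) (.mul (.g 19) (.pp [(1, 7842450000)]))) (.mul (.g 12)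
    (.mul (.g 16) (.pp [(1, 4301220000)]))))))) (.mul (.g 19) (.add (.add (.mul (.pp [(1, 846480)])
    (.sq [(1, -4), (2, 6), (3, 73), (5, 5), (7, -81), (11, 100), (13, 3), (19, -13), (23, 77)])) (.add
    (.mul (.pp [(1, 263625)]) (.sq [(1, 11), (2, -58), (3, 100), (5, 10), (7, 30), (11, 99), (13,
    -50), (19, -46), (23, 37)])) (.mul (.g 8) (.add (.add (.mul (.g 8) (.pp [(1, 10923450000)])) (.mul
    (.g 10) (.pp [(1, 22272300000)]))) (.add (.mul (.g 12) (.pp [(1, 21887400000)])) (.mul (.g 22)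
    (.pp [(1, 4297680000)]))))))) (.add (.mul (.g 12) (.add (.mul (.g 7) (.pp [(1, 691200000)])) (.add
    (.mul (.g 10) (.pp [(1, 16570500000)])) (.mul (.g 22) (.pp [(1, 10421430000)]))))) (.add (.mul (.g
    6) (.mul (.g 22) (.pp [(1, 3098460000)]))) (.mul (.g 10) (.mul (.g 10) (.pp [(1,
    4426950000)])))))))) (.add (.mul (.g 5) (.add (.add (.mul (.pp [(1, 696030)]) (.sq [(2, 87), (3,
    34), (5, -100), (7, 22), (11, -3), (13, -48), (19, -29), (23, -6)])) (.add (.mul (.pp [(1,
    951195)]) (.sq [(2, -55), (3, 7), (5, -1), (7, -66), (11, 100), (13, -5), (19, 20), (23, 89)]))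
    (.mul (.pp [(1, 1834080)]) (.sq [(1, -7), (2, 26), (3, -8), (11, 19), (13, -50), (19, 13)]))))
    (.add (.add (.mul (.pp [(1, 163515)]) (.sq [(1, -17), (2, 65), (3, 35), (5, 34), (7, -30), (11,
    100), (13, 30), (19, -11), (23, -44)])) (.mul (.pp [(1, 527625)]) (.sq [(1, -16), (2, -17), (3,
    20), (5, -80), (7, 21), (11, 100), (13, -36), (19, 23), (23, -8)]))) (.add (.mul (.g 16) (.add
    (.pp [(1, 326160000)]) (.add (.mul (.g 0) (.pp [(1, 996375000)])) (.mul (.g 8) (.pp [(1,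
    9809850000)]))))) (.mul (.g 10) (.pp [(1, 84119550000)])))))) (.add (.mul (.g 8) (.add (.mul (.pp
    [(1, 94035)]) (.sq [(2, 100), (3, -18), (5, -18), (7, -18), (11, 57), (13, -18), (19, -18), (23,
    -18)])) (.add (.mul (.pp [(1, 8321145)]) (.sq [(1, -25), (2, 100), (3, 22), (5, 19), (7, -19),
    (11, 14), (13, -18), (19, -11), (23, -15)])) (.mul (.g 8) (.mul (.g 10) (.pp [(1,
    24253050000)])))))) (.mul (.g 9) (.add (.mul (.pp [(1, 119925)]) (.sq [(1, -50), (2, 5), (3, -27),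
    (5, -13), (7, -38), (11, 38), (13, 13), (19, 100), (23, -50)])) (.add (.mul (.pp [(1, 315585)])
    (.sq [(1, -27), (2, 98), (3, 76), (5, -100), (7, 37), (11, 43), (13, -87), (19, 1), (23, 6)]))
    (.mul (.pp [(1, 1457175)]) (.sq [(1, 31), (2, -29), (3, 43), (5, 49), (7, -60), (11, 100), (13,
    -35), (19, -5), (23, 30)]))))))))) (.add (.add (.add (.mul (.g 20) (.add (.mul (.pp [(1,
    4315080)]) (.sq [(1, 6), (3, -1), (5, 7), (7, -22), (11, 50), (13, 23), (19, -24), (23, 40)]))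
    (.add (.mul (.pp [(1, 449265)]) (.sq [(1, -25), (2, -15), (3, -40), (5, 78), (7, -55), (11, -19),
    (13, 20), (19, 100), (23, -100)])) (.mul (.pp [(1, 442395)]) (.sq [(1, -28), (2, -31), (3, 2), (5,
    -9), (7, -27), (11, 100), (13, 48), (19, 74), (23, -29)]))))) (.mul (.g 10) (.add (.mul (.pp [(1,
    471330)]) (.sq [(1, -17), (2, -1), (3, 4), (5, 44), (7, 4), (11, 15), (13, 100), (19, -21), (23,
    -4)])) (.mul (.pp [(1, 1225035)]) (.sq [(1, 22), (2, 4), (3, -4), (5, -28), (7, 12), (11, 100),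
    (13, -5), (19, -24), (23, 3)]))))) (.add (.mul (.g 16) (.add (.mul (.pp [(1, 78849)]) (.sq [(1,
    -3), (2, -46), (3, 12), (5, -3), (7, -8), (11, 68), (13, 99), (19, 85), (23, -100)])) (.mul (.pp
    [(1, 487752)]) (.sq [(1, -14), (2, 54), (3, 28), (5, -83), (7, 12), (11, 100), (13, -45), (19,
    10), (23, 13)])))) (.add (.mul (.g 18) (.add (.mul (.pp [(1, 250995)]) (.sq [(1, -23), (2, 93),
    (3, 29), (5, -100), (7, 9), (11, 49), (13, -61), (19, -9), (23, 47)])) (.mul (.pp [(1, 958275)])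
    (.sq [(1, -10), (2, -38), (3, -53), (5, 14), (7, -61), (11, 29), (13, 8), (19, 100), (23,
    -49)])))) (.mul (.g 22) (.add (.mul (.pp [(1, 285516)]) (.sq [(1, 12), (2, -47), (3, 16), (5, 33),
    (7, -17), (11, -38), (13, 100), (19, 12), (23, -31)])) (.mul (.pp [(1, 57516)]) (.sq [(1, 52), (2,
    -51), (3, 27), (5, 70), (7, 13), (11, -27), (13, -30), (19, -100), (23, 74)]))))))) (.add (.add
    (.mul (.g 3) (.mul (.pp [(1, 3380085)]) (.sq [(1, -9), (2, -77), (3, -19), (5, 5), (7, -53), (11,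
    100), (13, -2), (19, 37), (23, 72)]))) (.mul (.g 4) (.mul (.pp [(1, 551265)]) (.sq [(1, -15), (2,
    55), (3, -16), (5, 57), (7, -46), (11, -54), (13, 24), (19, 58), (23, -100)])))) (.add (.mul (.g
    7) (.mul (.pp [(1, 667470)]) (.sq [(1, -12), (2, -99), (3, -53), (5, -18), (7, 59), (11, -4), (13,
    100), (19, 5), (23, -6)]))) (.add (.mul (.g 13) (.mul (.pp [(1, 439245)]) (.sq [(1, -16), (2,
    -13), (3, 45), (5, -20), (7, -10), (11, 53), (13, 100), (19, 59), (23, -58)]))) (.mul (.g 17)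
    (.mul (.pp [(1, 1574730)]) (.sq [(1, -16), (2, -81), (3, -19), (5, 13), (7, -60), (11, 72), (13,
    21), (19, 100), (23, -26)])))))))) (.pp [(1, 433187250), (2, 1497717), (3, 1649742), (4, 1920180),
    (5, 1279716), (6, 1733754), (7, 1565067), (8, 1396920), (9, 1561116), (10, 1751574), (11,
    1520817), (12, 1503885), (13, 1201125), (14, 1479744), (15, 1188774), (18, 1649235), (19,
    1544919), (20, 1346190), (21, 1723926), (22, 1454244), (23, 1138980), (25, 1949397), (26,
    1346880), (27, 1437675), (28, 1449120), (30, 1668210), (33, 1814076), (35, 1283940), (38,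
    1527780), (39, 1190340), (42, 1657470), (44, 1502290), (45, 1387755), (46, 1259694), (49,
    1307625), (50, 1449705), (52, 1352520), (55, 1273272), (57, 1361190), (63, 1550070), (65,
    1614930), (66, 1448550), (69, 1295646), (70, 1715310), (75, 1598145), (76, 1454670), (77,
    1564134), (78, 1277820), (91, 1484862), (92, 1491210), (95, 1520892), (98, 1400340), (99,
    1421100), (105, 1585590), (110, 1427610), (114, 1337850), (115, 1544694), (117, 1524270), (121,
    1838607), (125, 1268150), (130, 1467570), (133, 1727886), (138, 1502130), (143, 1228704), (147,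
    1432275), (154, 1563930), (161, 1762098), (165, 1238520), (169, 1740864), (171, 1509840), (175,
    1384635), (182, 1458510), (190, 1481370), (195, 1629930), (207, 1443360), (209, 1470960), (230,
    1064880), (231, 1633200), (242, 1437700), (245, 1409385), (247, 1477578), (253, 1660236), (266,
    1553070), (273, 1390440), (275, 1531695), (285, 1615230), (286, 1597620), (299, 1841730), (322,
    1821060), (325, 1494435), (338, 1619205), (343, 1407040), (345, 1411890), (361, 1406682), (363,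
    1548915), (385, 1738350), (399, 1557480), (418, 1463370), (429, 1338600), (437, 1708008), (455,
    1410810), (475, 1631370), (483, 1495170), (494, 1443030), (506, 1480830), (507, 1671690), (529,
    1629207), (539, 1389240), (575, 1421055), (598, 1627860), (605, 1314360), (627, 1450470), (637,
    1530705), (665, 1725330), (715, 1620690), (722, 1494690), (741, 1550790), (759, 1340970), (805,
    1574010), (845, 1383900), (847, 1506420), (874, 1260300), (897, 1472730), (931, 1761930), (1001,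
    1360500), (1045, 1396710), (1058, 1632495), (1083, 1441410), (1127, 1900380), (1183, 1493190),
    (1235, 1447020), (1265, 1634310), (1311, 1733730), (1331, 1423480), (1463, 1489650), (1495,
    1531770), (1573, 1447395), (1587, 1395660), (1729, 1491750), (1771, 1556250), (1805, 1380510),
    (1859, 1670850), (2093, 1472880), (2185, 1531830), (2197, 1416210), (2299, 1507230), (2527,
    1326300), (2645, 1565610), (2717, 1446390), (2783, 1296570), (3059, 813600), (3211, 1567605),
    (3289, 1738320), (3703, 1143945), (3887, 1471005), (3971, 1600965), (4693, 1524015), (4807,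
    1371390), (5681, 1425870), (5819, 1397250), (6859, 1531605), (6877, 1519455), (8303, 1738875),
    (10051, 1430610), (12167, 1607900)])) (by norm_num)
    (by decide +kernel)

end Pool.Agent.Helper52.TS
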