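import Pool.Agent.Helper52.TS.SB1L

/-!
# Set B1 of the column `b`: the certificates, order 1, part b
-/

set_option autoImplicit false
set_option maxRecDepth 100000

namespace Pool.Agent.Helper52.TS

open Pool.Agent.Helper83.Cert Pool.Agent.Helper83.TS Pool.Agent.Helper20.TS


theorem l013 : Ck (gL01 3 []) (pW (vL1 3 1 (hA (Ex.v 11) (Ex.v 23)))) :=
  .mk' 1000000 (.add (.add (.add (.add (.add (.mul (.pp [(1, 546600)]) (.sq [(1, 23), (2, 39), (3, 19), (5, -61),
    (7, 14), (11, 100), (13, -48), (19, -45), (23, 63)])) (.mul (.pp [(1, 940320)]) (.sq [(1, -6), (2,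
    -61), (3, 100), (5, 17), (7, -29), (11, -49), (13, 88), (19, -50), (23, 15)]))) (.add (.mul (.pp
    [(1, 3324360)]) (.sq [(1, 91), (2, -41), (3, 17), (5, 100), (7, -30), (11, -55), (13, -94), (19,
    -1), (23, -41)])) (.add (.mul (.g 8) (.add (.add (.add (.mul (.pp [(1, 1257660)]) (.sq [(2, -1),
    (3, -1), (5, 19), (13, -100), (19, 59), (23, -82)])) (.add (.mul (.pp [(1, 5199900)]) (.sq [(2,
    43), (3, 100), (5, -23), (7, -23), (11, 43), (13, -23), (19, -23), (23, -23)])) (.mul (.pp [(1,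
    1539360)]) (.sq [(1, -79), (2, 33), (3, 100), (5, -69), (7, -17), (11, 9), (13, 75), (19, 34),
    (23, -4)])))) (.add (.mul (.pp [(1, 2699880)]) (.sq [(2, 100), (3, -70), (5, -34), (7, -17), (11,
    6), (13, 91), (19, -26), (23, 36)])) (.add (.mul (.g 8) (.add (.add (.mul (.g 0) (.pp [(1,
    721110000)])) (.add (.mul (.g 3) (.pp [(1, 26460000000)])) (.mul (.g 9) (.pp [(1, 9179610000)]))))
    (.add (.add (.mul (.g 11) (.pp [(1, 11340000000)])) (.mul (.g 16) (.pp [(1, 81975000000)]))) (.add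
    (.mul (.g 17) (.pp [(1, 31254000000)])) (.mul (.g 18) (.pp [(1, 39200400000)])))))) (.mul (.g 16)
    (.add (.add (.pp [(1, 7180800000)]) (.mul (.g 7) (.pp [(1, 50420400000)]))) (.add (.mul (.g 16)
    (.pp [(1, 325800000)])) (.add (.mul (.g 18) (.pp [(1, 38443800000)])) (.mul (.g 20) (.pp [(1,
    34324800000)]))))))))) (.add (.add (.mul (.g 3) (.add (.add (.pp [(1, 31524000000)]) (.mul (.g 1)
    (.pp [(1, 75329400000)]))) (.add (.mul (.g 12) (.pp [(1, 19224600000)])) (.mul (.g 18) (.pp [(1,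
    50224800000)]))))) (.add (.mul (.g 12) (.add (.mul (.g 9) (.pp [(1, 119370000)])) (.mul (.g 20)
    (.pp [(1, 6975600000)])))) (.mul (.g 21) (.add (.mul (.g 0) (.pp [(1, 733230000)])) (.mul (.g 7)
    (.pp [(1, 10504800000)])))))) (.add (.add (.mul (.g 1) (.mul (.g 4) (.pp [(1, 245259600000)])))
    (.mul (.g 6) (.mul (.g 13) (.pp [(1, 22946400000)])))) (.add (.mul (.g 17) (.mul (.g 17) (.pp [(1,
    54549000000)]))) (.mul (.g 20) (.mul (.g 20) (.pp [(1, 9502920000)])))))))) (.mul (.g 1) (.add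
    (.add (.add (.mul (.pp [(1, 1147620)]) (.sq [(2, 81), (3, 86), (5, -100), (7, -50), (11, -7), (13,
    9), (19, 11), (23, -20)])) (.add (.mul (.pp [(1, 1865940)]) (.sq [(1, -4), (2, -3), (3, 100), (5,
    88), (7, -50), (11, -39), (13, 58), (19, -39), (23, -29)])) (.mul (.pp [(1, 793860)]) (.sq [(1,
    21), (2, 40), (3, -100), (5, 8), (11, 45), (13, 78), (19, -63), (23, -8)])))) (.add (.mul (.pp
    [(1, 2677620)]) (.sq [(1, -6), (2, 12), (3, -21), (5, 28), (7, -4), (11, 100), (13, 24), (19,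
    -23), (23, 19)])) (.add (.mul (.pp [(1, 5420640)]) (.sq [(2, -44), (3, 31), (5, -16), (11, -2),
    (13, 100), (19, -80), (23, -33)])) (.mul (.pp [(1, 3301260)]) (.sq [(2, 32), (3, 20), (5, 100),
    (7, -43), (11, 25), (13, -2), (19, -7), (23, -65)]))))) (.add (.add (.mul (.g 0) (.add (.add (.pp
    [(1, 1194120000)]) (.add (.mul (.g 2) (.pp [(1, 5106180000)])) (.mul (.g 9) (.pp [(1,
    197208000)])))) (.add (.mul (.g 11) (.pp [(1, 145830000)])) (.add (.mul (.g 15) (.pp [(1,
    6159870000)])) (.mul (.g 21) (.pp [(1, 2531616000)])))))) (.add (.mul (.g 18) (.add (.add (.pp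
    [(1, 84745800000)]) (.mul (.g 4) (.pp [(1, 37956600000)]))) (.add (.mul (.g 9) (.pp [(1,
    975960000)])) (.mul (.g 18) (.pp [(1, 200641800000)]))))) (.mul (.g 3) (.add (.mul (.g 7) (.pp
    [(1, 131049000000)])) (.add (.mul (.g 16) (.pp [(1, 16321800000)])) (.mul (.g 17) (.pp [(1,
    32013000000)]))))))) (.add (.add (.mul (.g 12) (.add (.pp [(1, 4366800000)]) (.mul (.g 12) (.pp
    [(1, 7721400000)])))) (.mul (.g 7) (.mul (.g 9) (.pp [(1, 4157070000)])))) (.add (.mul (.g 16)
    (.pp [(1, 41347200000)])) (.mul (.g 20) (.pp [(1, 4207200000)])))))))))) (.add (.add (.mul (.g 5)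
    (.add (.add (.add (.mul (.pp [(1, 2683800)]) (.sq [(1, 14), (2, 43), (3, -100), (11, 48), (13,
    76), (19, -67)])) (.add (.mul (.pp [(1, 222120)]) (.sq [(2, -20), (3, -11), (5, -52), (7, -3),
    (11, 84), (13, 19), (19, 56), (23, 100)])) (.mul (.pp [(1, 400320)]) (.sq [(1, -57), (2, 46), (3,
    -29), (5, 100), (7, -77), (11, 44), (13, 91), (19, 51), (23, -95)])))) (.add (.mul (.pp [(1,
    1843380)]) (.sq [(1, -43), (2, 100), (3, 45), (5, -35), (7, 37), (11, 51), (13, -18), (19, -51),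
    (23, -13)])) (.add (.mul (.pp [(1, 246780)]) (.sq [(1, 21), (2, -7), (3, -64), (5, 30), (7, -23),
    (11, 100), (13, -54), (19, 11), (23, 55)])) (.mul (.pp [(1, 1401060)]) (.sq [(1, -89), (2, 48),
    (3, -27), (5, 100), (7, 4), (11, -28), (13, 80), (19, -27), (23, -65)]))))) (.add (.add (.mul (.g
    0) (.add (.add (.pp [(1, 3331110000)]) (.mul (.g 3) (.pp [(1, 43680000)]))) (.add (.mul (.g 4)
    (.pp [(1, 889770000)])) (.add (.mul (.g 9) (.pp [(1, 612313500)])) (.mul (.g 11) (.pp [(1,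
    5502750000)])))))) (.add (.mul (.g 3) (.add (.mul (.g 6) (.pp [(1, 26227800000)])) (.add (.mul (.g
    15) (.pp [(1, 233830200000)])) (.mul (.g 19) (.pp [(1, 8639400000)]))))) (.mul (.g 4) (.add (.mul
    (.g 6) (.pp [(1, 24118200000)])) (.add (.mul (.g 12) (.pp [(1, 71931600000)])) (.mul (.g 16) (.pp
    [(1, 40055400000)]))))))) (.add (.add (.mul (.g 12) (.add (.mul (.g 5) (.pp [(1, 22279800000)]))
    (.mul (.g 20) (.pp [(1, 1262160000)])))) (.mul (.g 7) (.mul (.g 11) (.pp [(1, 71238000000)]))))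
    (.add (.mul (.g 15) (.mul (.g 21) (.pp [(1, 1879800000)]))) (.mul (.g 19) (.mul (.g 20) (.pp [(1,
    354864000)])))))))) (.add (.mul (.g 7) (.add (.add (.add (.mul (.pp [(1, 292260)]) (.sq [(2,
    -100), (3, 89), (5, 48), (7, -77), (11, -33), (13, -10), (19, 12), (23, 76)])) (.mul (.pp [(1,
    1667100)]) (.sq [(2, -73), (3, -1), (5, 9), (7, -2), (11, 67), (13, -100), (19, 2), (23, -1)])))
    (.add (.mul (.pp [(1, 654780)]) (.sq [(1, 47), (2, -62), (3, 62), (5, -79), (7, -49), (11, -21),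
    (13, -100), (19, -7), (23, 93)])) (.mul (.g 16) (.add (.add (.mul (.g 0) (.pp [(1, 1688280000)]))
    (.add (.mul (.g 6) (.pp [(1, 13517400000)])) (.mul (.g 13) (.pp [(1, 21828000000)])))) (.add (.add
    (.mul (.g 15) (.pp [(1, 22056000000)])) (.mul (.g 16) (.pp [(1, 12870600000)]))) (.add (.mul (.g
    17) (.pp [(1, 65933400000)])) (.mul (.g 18) (.pp [(1, 833400000)])))))))) (.add (.add (.mul (.g 6)
    (.add (.add (.mul (.g 3) (.pp [(1, 88333800000)])) (.mul (.g 9) (.pp [(1, 99870000)]))) (.add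
    (.mul (.g 12) (.pp [(1, 27885600000)])) (.add (.mul (.g 13) (.pp [(1, 7147200000)])) (.mul (.g 18)
    (.pp [(1, 6375600000)])))))) (.mul (.g 7) (.add (.pp [(1, 15216000000)]) (.mul (.g 9) (.pp [(1,
    47940000)]))))) (.add (.mul (.g 0) (.mul (.g 17) (.pp [(1, 1363620000)]))) (.mul (.g 20) (.mul (.g
    20) (.pp [(1, 35544000)]))))))) (.mul (.g 12) (.add (.add (.add (.mul (.pp [(1, 2119260)]) (.sq
    [(1, -69), (2, 93), (3, -11), (5, -44), (7, 100), (11, 91), (13, 39), (19, -29), (23, -17)]))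
    (.mul (.pp [(1, 729720)]) (.sq [(1, -57), (2, 42), (5, 100), (7, -99), (11, 37), (13, 91), (19,
    -22), (23, 62)]))) (.add (.mul (.pp [(1, 295500)]) (.sq [(2, -100), (3, 13), (5, -46), (7, -16),
    (11, 88), (13, -83), (19, -3), (23, 78)])) (.mul (.pp [(1, 15600)]) (.sq [(2, -92), (3, -1), (5,
    30), (11, 88), (13, -2), (19, 76), (23, -100)])))) (.add (.add (.mul (.g 16) (.add (.mul (.g 11)
    (.pp [(1, 57141600000)])) (.add (.mul (.g 13) (.pp [(1, 65474400000)])) (.mul (.g 21) (.pp [(1,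
    6933600000)]))))) (.mul (.g 6) (.add (.mul (.g 6) (.pp [(1, 47276400000)])) (.mul (.g 9) (.pp [(1,
    596400000)]))))) (.add (.mul (.g 12) (.add (.mul (.g 12) (.pp [(1, 29377200000)])) (.mul (.g 19)
    (.pp [(1, 4206360000)])))) (.mul (.g 17) (.mul (.g 17) (.pp [(1, 8330400000)]))))))))) (.add (.mul
    (.g 21) (.add (.add (.add (.mul (.pp [(1, 793956)]) (.sq [(2, 6), (3, 29), (5, 13), (7, -22), (11,
    97), (13, -71), (19, -23), (23, 100)])) (.mul (.pp [(1, 222672)]) (.sq [(1, -6), (2, -47), (3,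
    100), (5, 80), (7, -54), (11, -88), (13, 25), (19, -3), (23, -9)]))) (.add (.mul (.pp [(1,
    309360)]) (.sq [(2, -29), (3, -100), (5, 7), (7, -11), (11, 81), (13, -37), (19, 15), (23, -13)]))
    (.add (.mul (.pp [(1, 582396)]) (.sq [(2, -8), (3, -30), (5, 100), (7, 10), (11, 12), (13, -2),
    (19, -21), (23, 17)])) (.mul (.pp [(1, 327384)]) (.sq [(1, 24), (2, -7), (3, -36), (5, 100), (7,
    -76), (11, 32), (13, -42), (19, 26), (23, -37)]))))) (.add (.add (.mul (.pp [(1, 25524)]) (.sq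
    [(1, 5), (2, 76), (3, -69), (5, 100), (7, 34), (11, 74), (13, -51), (19, -14), (23, -17)])) (.mul
    (.g 0) (.mul (.g 21) (.pp [(1, 468649200)])))) (.add (.mul (.g 6) (.mul (.g 17) (.pp [(1,
    3079320000)]))) (.add (.mul (.g 11) (.mul (.g 19) (.pp [(1, 155256000)]))) (.mul (.g 18) (.mul (.g
    18) (.pp [(1, 11745120000)])))))))) (.add (.mul (.g 16) (.add (.add (.mul (.pp [(1, 1183260)])
    (.sq [(2, -59), (3, 100), (5, -53), (7, 39), (11, 39), (13, -46), (19, 27), (23, 6)])) (.mul (.pp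
    [(1, 902820)]) (.sq [(1, -1), (2, 4), (3, -100), (5, -15), (7, -23), (11, -14), (13, -9), (19,
    80)]))) (.add (.mul (.g 6) (.add (.mul (.g 0) (.pp [(1, 4464690000)])) (.mul (.g 13) (.pp [(1,
    37327800000)])))) (.add (.mul (.g 19) (.add (.mul (.g 11) (.pp [(1, 9355440000)])) (.mul (.g 19)
    (.pp [(1, 394872000)])))) (.mul (.g 17) (.mul (.g 17) (.pp [(1, 34875000000)]))))))) (.mul (.g 4)
    (.add (.add (.mul (.pp [(1, 2357340)]) (.sq [(1, -17), (2, 22), (3, -59), (5, 50), (7, 35), (11,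
    21), (13, 100), (19, -28), (23, -61)])) (.mul (.pp [(1, 350640)]) (.sq [(1, 50), (2, -82), (3,
    33), (5, -5), (7, 3), (11, 100), (13, 18), (19, -84), (23, 26)]))) (.add (.mul (.pp [(1, 385560)])
    (.sq [(1, 55), (2, 100), (3, -93), (5, 56), (7, -94), (11, 65), (13, -40), (19, -18), (23, 68)]))
    (.add (.mul (.pp [(1, 2090880)]) (.sq [(2, -2), (3, -2), (5, 43), (7, -100), (11, -2), (13, -2),
    (19, -2), (23, 77)])) (.mul (.g 6) (.mul (.g 17) (.pp [(1, 5450400000)]))))))))))) (.add (.add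
    (.add (.mul (.g 13) (.add (.add (.mul (.pp [(1, 55980)]) (.sq [(1, 29), (2, -15), (3, 100), (5,
    -44), (7, -7), (11, 15), (13, -85), (19, -8), (23, 22)])) (.mul (.pp [(1, 142380)]) (.sq [(1,
    -51), (2, -90), (3, -83), (5, 18), (7, 75), (11, 100), (13, 78), (19, 67), (23, -99)]))) (.add
    (.mul (.pp [(1, 304140)]) (.sq [(1, -48), (2, -4), (3, 21), (5, 100), (7, 28), (11, 6), (13, -71),
    (19, 82), (23, -77)])) (.add (.mul (.pp [(1, 888060)]) (.sq [(2, 5), (3, -78), (5, -24), (7, 100),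
    (11, -10), (13, 50), (19, -78), (23, -23)])) (.mul (.pp [(1, 904020)]) (.sq [(1, -49), (2, 100),
    (3, 67), (5, -11), (7, -47), (11, 78), (13, -35), (19, 7), (23, 86)])))))) (.mul (.g 19) (.add
    (.add (.mul (.pp [(1, 1225080)]) (.sq [(1, -33), (2, 18), (3, 25), (5, 7), (7, -5), (11, 26), (13,
    100), (19, 8), (23, -18)])) (.mul (.pp [(1, 13998960000)]) (.sq [(3, 1), (11, -1)]))) (.add (.mul
    (.pp [(1, 381984)]) (.sq [(1, -26), (2, 27), (3, -58), (5, 71), (7, -32), (11, 45), (13, 100),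
    (19, -47), (23, 28)])) (.add (.mul (.pp [(1, 7980)]) (.sq [(1, 56), (2, -100), (3, -22), (5, 86),
    (7, -26), (11, -30), (13, -23), (19, -11), (23, -35)])) (.mul (.pp [(1, 37512)]) (.sq [(2, -3),
    (3, 82), (5, 52), (7, -8), (11, 100), (13, 3), (19, -69), (23, 62)]))))))) (.add (.mul (.g 3)
    (.add (.add (.mul (.pp [(1, 474420)]) (.sq [(1, 22), (2, 32), (3, 43), (5, -29), (7, -53), (11,
    10), (13, 100), (19, -34), (23, 7)])) (.mul (.pp [(1, 1711860)]) (.sq [(1, -5), (2, 9), (3, -57),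
    (5, 23), (7, 22), (11, 22), (13, 100), (19, -63), (23, -3)]))) (.add (.mul (.pp [(1, 1274040)])
    (.sq [(2, 14), (3, -28), (5, -36), (11, 21), (13, 9), (19, 91), (23, -100)])) (.mul (.g 6) (.mul
    (.g 6) (.pp [(1, 126492600000)])))))) (.add (.mul (.g 0) (.add (.mul (.pp [(1, 37692)]) (.sq [(1,
    18), (2, 19), (3, 20), (5, -17), (7, 34), (11, 5), (13, -15), (19, -100), (23, 69)])) (.add (.mul
    (.pp [(1, 51255)]) (.sq [(1, 2), (2, -20), (3, 64), (5, -2), (7, 53), (11, 28), (13, -100), (19,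
    19), (23, -36)])) (.mul (.pp [(1, 279699)]) (.sq [(2, 21), (3, 61), (5, -9), (7, -4), (11, 33),
    (13, 100), (19, -70), (23, 2)]))))) (.mul (.g 9) (.add (.mul (.pp [(1, 78834)]) (.sq [(1, -46),
    (2, 78), (3, -17), (5, -100), (7, 81), (11, 96), (13, -78), (19, 59), (23, -5)])) (.add (.mul (.pp
    [(1, 47670)]) (.sq [(1, 17), (2, -30), (3, 16), (5, 7), (7, -22), (11, 100), (13, 66), (19, -72),
    (23, 37)])) (.mul (.pp [(1, 27537)]) (.sq [(1, -88), (2, 36), (3, -44), (5, 51), (7, 19), (11,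
    63), (13, 100), (19, -35), (23, 35)])))))))) (.add (.add (.mul (.g 11) (.add (.mul (.pp [(1,
    2530140)]) (.sq [(1, -3), (2, -68), (3, 56), (5, 51), (7, -34), (11, -16), (13, 100), (19, -31),
    (23, -28)])) (.add (.mul (.pp [(1, 900480)]) (.sq [(1, 23), (2, 23), (3, 93), (5, -13), (7, -9),
    (11, 1), (13, -100), (19, 27), (23, -20)])) (.mul (.pp [(1, 652260)]) (.sq [(1, 39), (2, -18), (3,
    53), (5, -54), (7, 11), (11, 33), (13, 19), (19, -100), (23, 66)]))))) (.add (.mul (.g 15) (.add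
    (.mul (.pp [(1, 2497200)]) (.sq [(1, -36), (2, -15), (3, 64), (5, 21), (7, -12), (11, -65), (13,
    100), (19, 6), (23, -42)])) (.add (.mul (.pp [(1, 857880)]) (.sq [(1, 6), (2, -47), (3, -84), (5,
    -100), (7, 1), (11, -5), (13, 66), (19, 25), (23, -7)])) (.mul (.pp [(1, 3178560)]) (.sq [(1,
    -12), (2, 100), (3, 5), (5, 23), (7, 4), (11, 100), (13, -40), (19, -72), (23, 86)]))))) (.mul (.g
    17) (.add (.mul (.pp [(1, 1793040)]) (.sq [(1, -54), (2, 32), (3, 79), (5, 31), (7, -45), (11,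
    100), (13, -25), (19, -20), (23, 87)])) (.add (.mul (.pp [(1, 2611200)]) (.sq [(2, -100), (3,
    -18), (5, 23), (7, 4), (11, -13), (13, -5), (19, 34), (23, -14)])) (.mul (.g 17) (.mul (.g 20)
    (.pp [(1, 57029640000)])))))))) (.add (.mul (.g 18) (.add (.mul (.pp [(1, 1305960)]) (.sq [(1,
    -64), (2, 2), (3, 36), (5, -100), (7, 71), (11, -75), (13, 85), (19, 26), (23, -56)])) (.mul (.pp
    [(1, 1029600)]) (.sq [(1, -2), (2, 53), (3, 100), (5, -17), (7, 7), (11, 16), (13, -54), (19,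
    -39), (23, 48)])))) (.add (.mul (.g 20) (.add (.mul (.pp [(1, 537888)]) (.sq [(2, -11), (3, 100),
    (5, -31), (7, 2), (11, 1), (13, 25), (19, -21), (23, 23)])) (.mul (.g 6) (.mul (.g 6) (.pp [(1,
    4906080000)]))))) (.mul (.g 2) (.mul (.pp [(1, 985560)]) (.sq [(1, 91), (2, 60), (3, -42), (5,
    -13), (7, -81), (11, 87), (13, -17), (19, -84), (23, 100)])))))))) (.pp [(1, 761739918), (2,
    5621568), (3, 5301912), (4, 5970819), (5, 4887768), (6, 5475966), (7, 6471072), (8, 5617380), (9,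
    5605749), (10, 6456834), (11, 6950424), (12, 5647200), (13, 7087680), (14, 5342712), (15,
    6316194), (18, 5997060), (19, 5605656), (20, 6479520), (21, 6437940), (22, 6758334), (23,
    5883180), (25, 6210528), (26, 6778752), (27, 6208560), (28, 6467340), (30, 6246120), (33,
    6560118), (35, 5408442), (38, 7281348), (39, 6954384), (42, 6046320), (44, 6603000), (45,
    6725640), (46, 6249204), (49, 6508500), (50, 5728380), (52, 6164460), (55, 5264328), (57,
    6707976), (63, 6407100), (65, 7740936), (66, 6012840), (69, 5437656), (70, 5810280), (75,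
    6261720), (76, 6266280), (77, 4764102), (78, 6177240), (91, 3832776), (92, 5928600), (95,
    6549450), (98, 5760060), (99, 6508300), (105, 4641240), (110, 6591000), (114, 7332840), (115,
    5212686), (117, 5624280), (121, 5642910), (125, 5835620), (130, 5793120), (133, 5429568), (138,
    5588040), (143, 4774800), (147, 5824920), (154, 6001800), (161, 6657210), (165, 6332640), (169,
    4520808), (171, 5576400), (175, 6403800), (182, 6274680), (190, 5960040), (195, 5723160), (207,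
    6122580), (209, 6688878), (230, 5926440), (231, 5559480), (242, 5835720), (245, 5906040), (247,
    6739224), (253, 5838210), (266, 5659920), (273, 5450760), (275, 5540700), (285, 5579040), (286,
    5041920), (299, 6544128), (322, 6198120), (325, 5836680), (338, 6343260), (343, 6074380), (345,
    7092480), (361, 5862132), (363, 6201760), (385, 6440880), (399, 6056160), (418, 5146680), (429,
    4969440), (437, 6326358), (455, 6906600), (475, 5685720), (483, 6686640), (494, 4417680), (506,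
    7016280), (507, 5590200), (529, 6236247), (539, 6303360), (575, 5511900), (598, 5359200), (605,
    6847980), (627, 5559240), (637, 5301720), (665, 6594840), (715, 6075600), (722, 4953120), (741,
    6200880), (759, 6821520), (805, 5506920), (845, 5754360), (847, 7386480), (874, 6635880), (897,
    6480840), (931, 5816400), (1001, 6768720), (1045, 6255720), (1058, 6507120), (1083, 5695440),
    (1127, 6844320), (1183, 8278740), (1235, 5383680), (1265, 6153480), (1311, 5505480), (1331,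
    6271000), (1463, 5328360), (1495, 4960440), (1573, 6043020), (1587, 5974200), (1729, 6110040),
    (1771, 6874080), (1805, 5804280), (1859, 6632340), (2093, 5365560), (2185, 6617280), (2197,
    6062160), (2299, 5325600), (2527, 7359360), (2645, 7503360), (2717, 5859240), (2783, 5659080),
    (3059, 4797120), (3211, 5809260), (3289, 6238560), (3703, 6316620), (3887, 4926720), (3971,
    6520020), (4693, 6221460), (4807, 4831080), (5681, 6655800), (5819, 5740680), (6859, 5720640),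
    (6877, 6457320), (8303, 5530680), (10051, 4902300), (12167, 5602160)])) (by norm_num)
    (by decide +kernel)

theorem l014 : Ck (gL01 4 []) (pW (vL1 4 1 (hA (Ex.v 11) (Ex.v 23)))) :=
  .mk' 1000000 (.add (.add (.add (.add (.add (.mul (.g 8) (.add (.add (.add (.mul (.pp [(1, 7616700)]) (.sq [(1,
    -1), (2, -74), (3, 100), (5, 8), (7, 6), (11, 30), (13, -29), (19, -35), (23, -3)])) (.add (.mul
    (.pp [(1, 799980)]) (.sq [(2, 100), (3, 68), (5, -91), (7, 18), (11, 25), (13, -9), (19, -4), (23,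
    77)])) (.mul (.pp [(1, 2701560)]) (.sq [(2, 98), (3, 96), (5, -36), (7, -33), (11, 100), (13, -1),
    (19, -33), (23, -47)])))) (.add (.add (.mul (.g 16) (.add (.add (.pp [(1, 53496600000)]) (.add
    (.mul (.g 2) (.pp [(1, 20558400000)])) (.mul (.g 3) (.pp [(1, 118158600000)])))) (.add (.add (.mul
    (.g 8) (.pp [(1, 4430400000)])) (.mul (.g 11) (.pp [(1, 44770800000)]))) (.add (.mul (.g 19) (.pp
    [(1, 12083040000)])) (.mul (.g 21) (.pp [(1, 3658920000)])))))) (.mul (.g 18) (.add (.add (.mul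
    (.g 1) (.pp [(1, 22085400000)])) (.add (.mul (.g 6) (.pp [(1, 8404800000)])) (.mul (.g 7) (.pp
    [(1, 9058800000)])))) (.add (.mul (.g 8) (.pp [(1, 44629200000)])) (.add (.mul (.g 17) (.pp [(1,
    12338400000)])) (.mul (.g 18) (.pp [(1, 10065000000)]))))))) (.add (.mul (.g 6) (.add (.add (.pp
    [(1, 15399000000)]) (.mul (.g 4) (.pp [(1, 43890600000)]))) (.add (.mul (.g 15) (.pp [(1,
    92856000000)])) (.mul (.g 20) (.pp [(1, 11902680000)]))))) (.mul (.g 1) (.add (.mul (.g 4) (.pp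
    [(1, 245403600000)])) (.add (.mul (.g 9) (.pp [(1, 2538900000)])) (.mul (.g 20) (.pp [(1,
    8499120000)])))))))) (.add (.add (.mul (.g 3) (.add (.mul (.g 5) (.pp [(1, 54104400000)])) (.add
    (.mul (.g 12) (.pp [(1, 113383200000)])) (.mul (.g 17) (.pp [(1, 17884200000)]))))) (.add (.mul
    (.g 7) (.add (.mul (.g 0) (.pp [(1, 137310000)])) (.add (.mul (.g 8) (.pp [(1, 3106800000)]))
    (.mul (.g 11) (.pp [(1, 5308800000)]))))) (.mul (.g 8) (.add (.mul (.g 9) (.pp [(1, 9069810000)]))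
    (.mul (.g 11) (.pp [(1, 17529000000)])))))) (.add (.add (.mul (.g 20) (.add (.mul (.g 13) (.pp
    [(1, 6117960000)])) (.mul (.g 20) (.pp [(1, 11432352000)])))) (.mul (.g 21) (.add (.mul (.g 9)
    (.pp [(1, 65628000)])) (.mul (.g 12) (.pp [(1, 9515280000)]))))) (.add (.mul (.g 0) (.mul (.g 11)
    (.pp [(1, 4757670000)]))) (.mul (.g 17) (.mul (.g 17) (.pp [(1, 5331600000)])))))))) (.mul (.g 1)
    (.add (.add (.add (.mul (.pp [(1, 1040460)]) (.sq [(1, 11), (2, 39), (3, -78), (5, 100), (7, 57),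
    (11, -37), (13, -47), (19, 34), (23, 41)])) (.add (.mul (.pp [(1, 3424140)]) (.sq [(2, -26), (3,
    -32), (5, -48), (7, 100), (11, -32), (13, -83), (19, 72), (23, 31)])) (.mul (.pp [(1, 1350900)])
    (.sq [(2, -92), (3, -100), (5, -4), (7, 90), (11, 8), (13, 75), (19, -28), (23, -39)])))) (.add
    (.mul (.pp [(1, 1815780)]) (.sq [(2, -9), (3, -93), (5, -3), (7, 28), (11, 15), (13, 12), (19,
    -8), (23, 100)])) (.add (.mul (.pp [(1, 3679680)]) (.sq [(1, 8), (2, -47), (3, 46), (5, 50), (7,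
    -33), (11, -89), (13, 9), (19, -3), (23, -100)])) (.mul (.pp [(1, 4455180)]) (.sq [(1, -5), (2,
    -28), (3, 100), (5, -12), (11, -32), (13, -40), (19, 14), (23, -2)]))))) (.add (.add (.mul (.g 13)
    (.add (.add (.pp [(1, 10972200000)]) (.mul (.g 6) (.pp [(1, 129856800000)]))) (.add (.mul (.g 13)
    (.pp [(1, 18204600000)])) (.add (.mul (.g 15) (.pp [(1, 16333800000)])) (.mul (.g 17) (.pp [(1,
    51498000000)])))))) (.add (.mul (.g 18) (.add (.add (.mul (.g 1) (.pp [(1, 11263200000)])) (.mul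
    (.g 4) (.pp [(1, 204125400000)]))) (.add (.mul (.g 17) (.pp [(1, 5193600000)])) (.mul (.g 18) (.pp
    [(1, 241492200000)]))))) (.mul (.g 0) (.add (.pp [(1, 3793080000)]) (.add (.mul (.g 0) (.pp [(1,
    312163500)])) (.mul (.g 21) (.pp [(1, 2516136000)]))))))) (.add (.mul (.g 4) (.add (.mul (.g 2)
    (.pp [(1, 79935600000)])) (.mul (.g 4) (.pp [(1, 53494200000)])))) (.add (.mul (.g 16) (.add (.mul
    (.g 17) (.pp [(1, 75664800000)])) (.mul (.g 19) (.pp [(1, 392400000)])))) (.mul (.g 12) (.mul (.g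
    15) (.pp [(1, 113469000000)]))))))))) (.add (.mul (.g 6) (.add (.add (.add (.mul (.pp [(1,
    1681140)]) (.sq [(2, -1), (3, -100), (5, -22), (7, 46), (11, -6), (13, 78), (19, -28), (23, 59)]))
    (.add (.mul (.pp [(1, 6448260)]) (.sq [(2, 100), (3, 38), (5, -7), (7, 6), (11, -10), (13, 44),
    (19, -80), (23, -38)])) (.mul (.pp [(1, 3198480)]) (.sq [(2, 100), (5, -10), (7, -8), (11, -28),
    (13, -16), (19, -25), (23, 70)])))) (.add (.mul (.pp [(1, 1171800)]) (.sq [(2, 26), (3, 31), (5,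
    100), (7, -87), (11, 65), (13, -19), (19, 46), (23, -31)])) (.add (.mul (.pp [(1, 2837280)]) (.sq
    [(2, 66), (3, -84), (5, 14), (7, 69), (11, -5), (13, -100), (19, -19), (23, 31)])) (.mul (.pp [(1,
    6423000)]) (.sq [(1, -6), (2, -22), (3, 17), (5, 100), (7, -4), (11, -17), (13, 21), (19, -27),
    (23, 7)]))))) (.add (.add (.mul (.g 12) (.add (.add (.pp [(1, 77140200000)]) (.mul (.g 6) (.pp
    [(1, 108369000000)]))) (.add (.mul (.g 15) (.pp [(1, 8510400000)])) (.mul (.g 17) (.pp [(1,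
    16173000000)]))))) (.add (.mul (.g 16) (.add (.add (.pp [(1, 7365000000)]) (.mul (.g 18) (.pp [(1,
    45093000000)]))) (.add (.mul (.g 19) (.pp [(1, 24242880000)])) (.mul (.g 20) (.pp [(1,
    5550000000)]))))) (.mul (.g 4) (.add (.mul (.g 6) (.pp [(1, 2761800000)])) (.add (.mul (.g 11)
    (.pp [(1, 64508400000)])) (.mul (.g 15) (.pp [(1, 53677200000)]))))))) (.add (.add (.mul (.g 20)
    (.add (.mul (.g 3) (.pp [(1, 2487480000)])) (.mul (.g 7) (.pp [(1, 579600000)])))) (.mul (.g 2)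
    (.mul (.g 15) (.pp [(1, 22401000000)])))) (.add (.mul (.g 13) (.mul (.g 19) (.pp [(1,
    11165160000)]))) (.mul (.g 18) (.mul (.g 21) (.pp [(1, 18761160000)])))))))) (.mul (.g 7) (.add
    (.add (.add (.mul (.pp [(1, 247080)]) (.sq [(2, 4), (5, 100), (7, -56), (11, 4), (19, -36), (23,
    75)])) (.mul (.g 19) (.add (.add (.mul (.g 3) (.pp [(1, 2744760000)])) (.mul (.g 9) (.pp [(1,
    729960000)]))) (.add (.mul (.g 17) (.pp [(1, 2834760000)])) (.mul (.g 19) (.pp [(1,
    246072000)])))))) (.add (.mul (.g 4) (.add (.pp [(1, 97537200000)]) (.add (.mul (.g 5) (.pp [(1,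
    52145400000)])) (.mul (.g 17) (.pp [(1, 3215400000)]))))) (.mul (.g 18) (.add (.pp [(1,
    7542600000)]) (.add (.mul (.g 11) (.pp [(1, 20473800000)])) (.mul (.g 21) (.pp [(1,
    1843920000)]))))))) (.add (.add (.mul (.g 3) (.add (.mul (.g 7) (.pp [(1, 62100000000)])) (.mul
    (.g 11) (.pp [(1, 44517000000)])))) (.mul (.g 12) (.add (.pp [(1, 5047800000)]) (.mul (.g 12) (.pp
    [(1, 2006400000)]))))) (.add (.mul (.g 0) (.mul (.g 21) (.pp [(1, 599682000)]))) (.add (.mul (.g
    7) (.mul (.g 17) (.pp [(1, 35485200000)]))) (.mul (.g 13) (.mul (.g 20) (.pp [(1,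
    26040000)])))))))))) (.add (.add (.mul (.g 5) (.add (.add (.add (.mul (.pp [(1, 458700)]) (.sq
    [(1, 33), (2, -52), (3, -81), (5, -88), (7, 100), (11, -8), (13, -90), (19, 26), (23, 86)])) (.mul
    (.pp [(1, 6329280)]) (.sq [(1, -50), (2, -3), (3, -22), (5, -16), (7, -3), (11, 100), (13, 71),
    (19, -27), (23, -42)]))) (.add (.mul (.pp [(1, 188100)]) (.sq [(2, 23), (3, 82), (5, 91), (7, 1),
    (11, 69), (13, -100), (19, 12), (23, -9)])) (.mul (.g 0) (.add (.add (.mul (.g 3) (.pp [(1,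
    761160000)])) (.mul (.g 4) (.pp [(1, 3594180000)]))) (.add (.mul (.g 9) (.pp [(1, 639322500)]))
    (.add (.mul (.g 11) (.pp [(1, 4159410000)])) (.mul (.g 21) (.pp [(1, 1555416000)])))))))) (.add
    (.add (.mul (.g 4) (.add (.mul (.g 5) (.pp [(1, 11105400000)])) (.mul (.g 17) (.pp [(1,
    20742600000)])))) (.mul (.g 16) (.add (.mul (.g 3) (.pp [(1, 3892800000)])) (.mul (.g 19) (.pp
    [(1, 2613720000)]))))) (.add (.mul (.g 9) (.mul (.g 13) (.pp [(1, 2075040000)]))) (.mul (.g 12)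
    (.mul (.g 12) (.pp [(1, 16398000000)]))))))) (.mul (.g 21) (.add (.add (.add (.mul (.pp [(1,
    501936)]) (.sq [(1, -27), (2, -4), (3, -18), (5, 100), (7, 24), (11, 71), (13, -25), (19, -17),
    (23, 15)])) (.mul (.pp [(1, 113052)]) (.sq [(2, 2), (3, 31), (5, 100), (7, -14), (11, -1), (13,
    17), (19, -23), (23, 1)]))) (.add (.mul (.pp [(1, 889548)]) (.sq [(1, -6), (2, -1), (3, -64), (5,
    100), (7, 12), (11, -15), (13, -22), (19, 45), (23, -50)])) (.mul (.pp [(1, 32664)]) (.sq [(1,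
    -11), (2, -6), (3, 100), (5, 4), (7, 35), (11, -14), (13, -37), (19, -16), (23, 4)])))) (.add
    (.add (.mul (.pp [(1, 678756)]) (.sq [(2, 100), (3, -97), (5, -11), (7, 9), (11, 31), (13, -54),
    (19, 66), (23, -24)])) (.mul (.g 0) (.add (.mul (.g 16) (.pp [(1, 227550000)])) (.add (.mul (.g
    17) (.pp [(1, 583320000)])) (.mul (.g 21) (.pp [(1, 548511600)])))))) (.add (.mul (.g 16) (.add
    (.mul (.g 19) (.pp [(1, 1761528000)])) (.mul (.g 21) (.pp [(1, 594552000)])))) (.mul (.g 21) (.mul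
    (.g 21) (.pp [(1, 207182400)])))))))) (.add (.mul (.g 19) (.add (.add (.mul (.pp [(1, 521136)])
    (.sq [(1, -100), (2, -2), (3, -22), (5, -75), (7, 53), (11, 89), (13, 43), (19, 51), (23, -1)]))
    (.add (.mul (.pp [(1, 375756)]) (.sq [(2, -1), (3, -17), (5, -41), (7, -1), (11, 54), (13, -100),
    (19, -1), (23, 70)])) (.mul (.pp [(1, 9063600000)]) (.sq [(3, 1), (11, -1)])))) (.add (.add (.mul
    (.pp [(1, 981360)]) (.sq [(1, -28), (2, 51), (3, -12), (5, 52), (7, 1), (11, -9), (13, 100), (19,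
    -50), (23, 3)])) (.mul (.pp [(1, 82980)]) (.sq [(1, 30), (2, -17), (3, -33), (5, 20), (7, 39),
    (11, -23), (13, -100), (19, -7), (23, -37)]))) (.add (.mul (.g 12) (.mul (.g 12) (.pp [(1,
    1405320000)]))) (.mul (.g 13) (.mul (.g 16) (.pp [(1, 5562240000)]))))))) (.add (.mul (.g 12)
    (.add (.add (.mul (.pp [(1, 847320)]) (.sq [(1, 7), (2, -70), (3, 21), (5, 100), (7, -86), (11,
    53), (13, 17), (19, -17), (23, 22)])) (.mul (.pp [(1, 4665840)]) (.sq [(2, -17), (3, 14), (5, 55),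
    (7, 18), (11, 100), (13, -66), (19, -7), (23, -8)]))) (.add (.mul (.pp [(1, 6424140)]) (.sq [(1,
    -100), (2, 11), (3, -36), (5, 22), (7, 37), (11, 62), (13, 50), (19, 29), (23, -18)])) (.mul (.g
    16) (.add (.mul (.g 11) (.pp [(1, 99377400000)])) (.mul (.g 13) (.pp [(1, 41938200000)])))))))
    (.mul (.g 3) (.add (.add (.mul (.pp [(1, 253500)]) (.sq [(1, 48), (2, -8), (3, 21), (5, 31), (7,
    8), (11, 62), (13, -100), (19, -3), (23, -16)])) (.mul (.pp [(1, 2198280)]) (.sq [(1, 58), (2,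
    -10), (3, 22), (5, 14), (7, -64), (11, 100), (13, 95), (19, -86), (23, 12)]))) (.add (.mul (.pp
    [(1, 1252740)]) (.sq [(1, -58), (2, -51), (3, -100), (5, 22), (7, -9), (11, 97), (13, 100), (19,
    1), (23, 17)])) (.mul (.g 17) (.mul (.g 17) (.pp [(1, 1915200000)])))))))))) (.add (.add (.add
    (.mul (.g 13) (.add (.add (.mul (.pp [(1, 946740)]) (.sq [(1, 20), (2, 100), (3, 18), (5, -43),
    (7, -25), (11, -5), (13, -80), (19, 55), (23, -5)])) (.mul (.pp [(1, 1346880)]) (.sq [(2, -79),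
    (3, 91), (5, -27), (7, -92), (11, 58), (13, 100), (19, 51), (23, 16)]))) (.add (.mul (.pp [(1,
    141779400000)]) (.sq [(7, 1), (19, -1)])) (.mul (.pp [(1, 1709520)]) (.sq [(1, 22), (2, 31), (3,
    -7), (5, -12), (7, -34), (11, -4), (13, 100), (19, -25), (23, -5)]))))) (.mul (.g 20) (.add (.add
    (.mul (.pp [(1, 819924)]) (.sq [(1, -82), (2, -33), (3, -22), (5, -69), (7, 17), (11, -40), (13,
    100), (19, 50), (23, -3)])) (.mul (.pp [(1, 90300)]) (.sq [(2, -22), (3, -5), (5, 24), (7, 3),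
    (11, 89), (13, -100), (19, 1), (23, 30)]))) (.add (.mul (.pp [(1, 269304)]) (.sq [(1, -40), (2,
    75), (3, -49), (5, -100), (7, 94), (11, 76), (13, -92), (19, 31), (23, 21)])) (.mul (.g 17) (.mul
    (.g 17) (.pp [(1, 59383680000)]))))))) (.add (.mul (.g 4) (.add (.mul (.pp [(1, 84195000000)])
    (.sq [(19, -1), (23, 1)])) (.add (.mul (.pp [(1, 7746840)]) (.sq [(2, 28), (3, 7), (5, -14), (7,
    -5), (11, 100), (13, 50), (19, -17), (23, -15)])) (.mul (.pp [(1, 2909700)]) (.sq [(2, 2), (3, 2),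
    (5, -30), (7, 100), (11, 2), (13, 2), (19, -43), (23, -43)]))))) (.add (.mul (.g 10) (.add (.mul
    (.pp [(1, 1898160)]) (.sq [(2, -91), (3, -35), (5, 66), (7, 100), (11, -80), (13, -54), (19, 70),
    (23, 24)])) (.add (.mul (.pp [(1, 2146020)]) (.sq [(1, 60), (2, -15), (3, -59), (5, -100), (7,
    -9), (11, 3), (13, -9), (19, -7), (23, -13)])) (.mul (.pp [(1, 203100)]) (.sq [(1, -93), (2, 60),
    (3, 60), (5, -35), (11, 65), (13, 100), (19, 35)]))))) (.mul (.g 2) (.add (.mul (.pp [(1,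
    7650600)]) (.sq [(1, -26), (2, -23), (3, -6), (5, -1), (7, -19), (11, -20), (13, 100), (19, -18),
    (23, 2)])) (.mul (.pp [(1, 2374800)]) (.sq [(2, 9), (3, 100), (5, -4), (7, -23), (11, -46), (13,
    30), (19, -12), (23, -8)]))))))) (.add (.add (.mul (.g 9) (.add (.mul (.pp [(1, 206685)]) (.sq
    [(1, -57), (2, 93), (3, 7), (5, -25), (7, -2), (11, -71), (13, 100), (19, 32), (23, -26)])) (.mul
    (.pp [(1, 160710)]) (.sq [(2, 19), (3, -20), (5, 1), (7, 15), (11, 100), (13, -11), (19, 1), (23,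
    -11)])))) (.mul (.g 16) (.add (.mul (.pp [(1, 405420)]) (.sq [(1, -16), (2, 100), (3, -46), (5,
    9), (7, -29), (11, -14), (13, -49), (19, 65), (23, -18)])) (.mul (.pp [(1, 3748140)]) (.sq [(2,
    -12), (3, 100), (5, -17), (7, 1), (11, -42), (13, -24), (19, 2), (23, -2)]))))) (.add (.mul (.g 0)
    (.mul (.pp [(1, 18735)]) (.sq [(2, 100), (3, -92), (5, -10), (7, 76), (11, -39), (13, -86), (19,
    -34), (23, 24)]))) (.add (.mul (.g 17) (.mul (.pp [(1, 636480)]) (.sq [(1, -98), (2, 69), (3, 58),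
    (5, 7), (7, 83), (11, 32), (13, -100), (19, 100), (23, -7)]))) (.mul (.g 18) (.mul (.pp [(1,
    7815060)]) (.sq [(1, -1), (2, -37), (3, 100), (5, -14), (7, -27), (11, -8), (13, 16), (19, -35),
    (23, 48)])))))))) (.pp [(1, 7165349979), (2, 5910546), (3, 5543046), (4, 4852809), (5, 6411714),
    (6, 6209922), (7, 7229700), (8, 5789040), (9, 5513667), (10, 7139742), (11, 6285666), (12,
    5970540), (13, 6472536), (14, 6032592), (15, 5909094), (18, 5946960), (19, 5784072), (20,
    5771280), (21, 6492996), (22, 5981934), (23, 5877672), (25, 5855205), (26, 7245084), (27,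
    5779380), (28, 7184580), (30, 6020880), (33, 6029274), (35, 6009840), (38, 5767596), (39,
    6734688), (42, 6111720), (44, 6286740), (45, 6130800), (46, 6324144), (49, 4963482), (50,
    6098040), (52, 6756300), (55, 6328974), (57, 6191448), (63, 6432660), (65, 5594628), (66,
    4503840), (69, 6155940), (70, 5469960), (75, 6209820), (76, 6061200), (77, 5592780), (78,
    6325680), (91, 4878252), (92, 5849820), (95, 5782356), (98, 6028020), (99, 6148300), (105,
    6458040), (110, 6149160), (114, 5343120), (115, 4922064), (117, 6399000), (121, 6136278), (125,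
    6108740), (130, 5684520), (133, 6973500), (138, 6374280), (143, 5105052), (147, 6364440), (154,
    5226960), (161, 7191780), (165, 6195240), (169, 4918734), (171, 6314700), (175, 5950920), (182,
    5382240), (190, 5917200), (195, 6117480), (207, 6176700), (209, 6154980), (230, 5641920), (231,
    6052200), (242, 5380320), (245, 5626560), (247, 5899428), (253, 5319900), (266, 6230160), (273,
    5528760), (275, 6212520), (285, 5879640), (286, 6591840), (299, 6187188), (322, 6351000), (325,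
    6123900), (338, 5293620), (343, 5324660), (345, 5433000), (361, 5525706), (363, 5685700), (385,
    5543520), (399, 4840080), (418, 7012440), (429, 6179520), (437, 6013188), (455, 5776200), (475,
    5708940), (483, 4767240), (494, 5572080), (506, 6135480), (507, 5678640), (529, 5506206), (539,
    7014840), (575, 6068580), (598, 5535480), (605, 6473100), (627, 6345720), (637, 6873000), (665,
    5796960), (715, 6163800), (722, 6363960), (741, 6293040), (759, 5165880), (805, 7194240), (845,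
    6234900), (847, 6480480), (874, 5395440), (897, 5373240), (931, 7840800), (1001, 6314520), (1045,
    6237360), (1058, 5927760), (1083, 6438180), (1127, 6610500), (1183, 6354120), (1235, 5930880),
    (1265, 5841840), (1311, 6801600), (1331, 5564200), (1463, 5495520), (1495, 6277920), (1573,
    5571900), (1587, 6306660), (1729, 5593080), (1771, 5686560), (1805, 6091980), (1859, 6640200),
    (2093, 5837760), (2185, 6655560), (2197, 6488520), (2299, 6078720), (2527, 4140060), (2645,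
    6011220), (2717, 6031440), (2783, 5893800), (3059, 4871280), (3211, 6463680), (3289, 6002640),
    (3703, 5868060), (3887, 5599260), (3971, 6115740), (4693, 6352560), (4807, 6163920), (5681,
    6157200), (5819, 6026160), (6859, 6483320), (6877, 6280260), (8303, 5775780), (10051, 6107040),
    (12167, 6109280)])) (by norm_num)
    (by decide +kernel)

theorem l112 : Ck (gL11 2 []) (pW (vL1 2 1 (hM (Ex.v 11)))) :=
  .mk' 1000000 (.add (.add (.add (.add (.add (.mul (.pp [(1, 3377760)]) (.sq [(1, -63), (2, -14), (3, 79), (5,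
    10), (7, -8), (11, -62), (13, 100), (19, 20), (23, -27)])) (.mul (.pp [(1, 6709500)]) (.sq [(1,
    -56), (2, -3), (3, -44), (5, -56), (7, -39), (11, 41), (13, 100), (19, 60), (23, 1)]))) (.add
    (.mul (.g 1) (.add (.add (.add (.mul (.pp [(1, 4543500)]) (.sq [(2, -49), (3, -29), (5, 28), (7,
    100), (11, -11), (13, -67), (19, 44), (23, 40)])) (.add (.mul (.pp [(1, 468420)]) (.sq [(1, -5),
    (2, 21), (3, -41), (5, 100), (7, -35), (11, -1), (13, 56), (19, 21), (23, -39)])) (.mul (.pp [(1,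
    3381120)]) (.sq [(1, 67), (2, 34), (3, -17), (5, 100), (7, -36), (11, 27), (13, -51), (19, 29),
    (23, -30)])))) (.add (.mul (.pp [(1, 3176640)]) (.sq [(1, -18), (2, 1), (3, 38), (5, 77), (11,
    -100), (13, 68), (19, -77), (23, -7)])) (.add (.mul (.pp [(1, 5866020)]) (.sq [(2, 3), (3, 44),
    (5, 100), (7, -43), (11, 40), (13, 2), (19, -55), (23, -20)])) (.mul (.g 0) (.add (.add (.pp [(1,
    4364700000)]) (.add (.mul (.g 3) (.pp [(1, 6057510000)])) (.mul (.g 9) (.pp [(1, 161481000)]))))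
    (.add (.mul (.g 13) (.pp [(1, 2655900000)])) (.add (.mul (.g 15) (.pp [(1, 537120000)])) (.mul (.g
    21) (.pp [(1, 1937790000)]))))))))) (.add (.add (.mul (.g 2) (.add (.add (.mul (.g 4) (.pp [(1,
    107985600000)])) (.mul (.g 7) (.pp [(1, 122013600000)]))) (.add (.mul (.g 13) (.pp [(1,
    29940600000)])) (.mul (.g 17) (.pp [(1, 116523000000)]))))) (.add (.mul (.g 8) (.add (.add (.mul
    (.g 4) (.pp [(1, 206839200000)])) (.mul (.g 12) (.pp [(1, 46719000000)]))) (.add (.mul (.g 13)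
    (.pp [(1, 119547000000)])) (.mul (.g 16) (.pp [(1, 241633200000)]))))) (.mul (.g 18) (.add (.add
    (.mul (.g 4) (.pp [(1, 228231600000)])) (.mul (.g 11) (.pp [(1, 51499800000)]))) (.add (.mul (.g
    18) (.pp [(1, 95341800000)])) (.mul (.g 20) (.pp [(1, 2323200000)]))))))) (.add (.add (.mul (.g
    12) (.add (.pp [(1, 14332200000)]) (.add (.mul (.g 16) (.pp [(1, 78923400000)])) (.mul (.g 17)
    (.pp [(1, 2434800000)]))))) (.mul (.g 7) (.add (.pp [(1, 105919200000)]) (.mul (.g 19) (.pp [(1,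
    20077440000)]))))) (.add (.mul (.g 13) (.add (.mul (.g 3) (.pp [(1, 6860400000)])) (.mul (.g 10)
    (.pp [(1, 3583200000)])))) (.mul (.g 16) (.mul (.g 20) (.pp [(1, 854280000)])))))))) (.add (.mul
    (.g 8) (.add (.add (.add (.mul (.pp [(1, 3060660)]) (.sq [(2, 43), (3, 100), (5, -23), (7, -23),
    (11, 43), (13, -23), (19, -23), (23, -23)])) (.mul (.pp [(1, 14948460)]) (.sq [(1, -19), (2, -13),
    (3, 100), (5, -15), (7, 37), (11, -24), (13, -2), (19, 14), (23, -30)]))) (.add (.mul (.g 16)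
    (.add (.add (.add (.pp [(1, 145271400000)]) (.mul (.g 8) (.pp [(1, 90665400000)]))) (.add (.mul
    (.g 10) (.pp [(1, 84006000000)])) (.mul (.g 12) (.pp [(1, 190986600000)])))) (.add (.add (.mul (.g
    13) (.pp [(1, 101572200000)])) (.mul (.g 16) (.pp [(1, 62616000000)]))) (.add (.mul (.g 18) (.pp
    [(1, 7030200000)])) (.mul (.g 20) (.pp [(1, 5018160000)])))))) (.mul (.g 7) (.add (.add (.pp [(1,
    173229600000)]) (.mul (.g 6) (.pp [(1, 77019600000)]))) (.add (.mul (.g 8) (.pp [(1,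
    76299000000)])) (.add (.mul (.g 17) (.pp [(1, 125391000000)])) (.mul (.g 21) (.pp [(1,
    15048720000)])))))))) (.add (.add (.mul (.g 9) (.add (.add (.mul (.g 0) (.pp [(1, 573852000)]))
    (.mul (.g 8) (.pp [(1, 7827810000)]))) (.add (.mul (.g 20) (.pp [(1, 1052244000)])) (.mul (.g 21)
    (.pp [(1, 751512000)]))))) (.mul (.g 13) (.add (.mul (.g 8) (.pp [(1, 29220000000)])) (.add (.mul
    (.g 11) (.pp [(1, 24633600000)])) (.mul (.g 21) (.pp [(1, 4838160000)])))))) (.add (.mul (.g 20)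
    (.add (.mul (.g 12) (.pp [(1, 3405360000)])) (.mul (.g 20) (.pp [(1, 6265296000)])))) (.add (.mul
    (.g 2) (.mul (.g 8) (.pp [(1, 178601400000)]))) (.mul (.g 4) (.mul (.g 21) (.pp [(1,
    2267520000)])))))))) (.mul (.g 7) (.add (.add (.add (.mul (.pp [(1, 494640)]) (.sq [(2, -48), (3,
    3), (5, 9), (7, -58), (11, -76), (13, 100), (19, 47), (23, -41)])) (.mul (.pp [(1, 287280)]) (.sq
    [(1, 10), (2, 25), (3, -49), (5, 97), (7, -3), (11, 100), (13, 79), (19, -20), (23, -44)]))) (.add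
    (.mul (.pp [(1, 661320)]) (.sq [(1, 12), (2, -66), (3, -79), (5, 25), (7, 49), (11, -31), (13,
    72), (19, 18), (23, -100)])) (.mul (.pp [(1, 1932480)]) (.sq [(1, 6), (2, -35), (3, 100), (5, 8),
    (7, 12), (11, 78), (13, 27), (19, -7), (23, -53)])))) (.add (.add (.mul (.g 6) (.add (.add (.mul
    (.g 6) (.pp [(1, 24765000000)])) (.mul (.g 10) (.pp [(1, 17495400000)]))) (.add (.mul (.g 15) (.pp
    [(1, 96361200000)])) (.add (.mul (.g 16) (.pp [(1, 115095600000)])) (.mul (.g 18) (.pp [(1,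
    4555800000)])))))) (.mul (.g 7) (.add (.add (.mul (.g 15) (.pp [(1, 46368600000)])) (.mul (.g 16)
    (.pp [(1, 11956200000)]))) (.add (.mul (.g 17) (.pp [(1, 2331000000)])) (.mul (.g 18) (.pp [(1,
    39028200000)])))))) (.add (.mul (.g 16) (.add (.mul (.g 12) (.pp [(1, 42517800000)])) (.add (.mul
    (.g 18) (.pp [(1, 15312000000)])) (.mul (.g 19) (.pp [(1, 1764240000)]))))) (.add (.mul (.g 21)
    (.add (.mul (.g 11) (.pp [(1, 1757640000)])) (.mul (.g 17) (.pp [(1, 6660840000)])))) (.mul (.g 5)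
    (.pp [(1, 65506800000)])))))))))) (.add (.add (.mul (.g 5) (.add (.add (.add (.mul (.pp [(1,
    639540)]) (.sq [(1, 4), (2, 48), (3, 6), (5, 100), (7, -47), (11, -14), (13, 28), (19, -43), (23,
    -24)])) (.mul (.g 0) (.add (.add (.mul (.g 4) (.pp [(1, 1934190000)])) (.mul (.g 9) (.pp [(1,
    504667500)]))) (.add (.mul (.g 16) (.pp [(1, 8667390000)])) (.mul (.g 21) (.pp [(1,
    1808892000)])))))) (.add (.mul (.g 2) (.add (.add (.mul (.g 9) (.pp [(1, 2796480000)])) (.mul (.g
    12) (.pp [(1, 129412200000)]))) (.add (.mul (.g 17) (.pp [(1, 19800600000)])) (.mul (.g 21) (.pp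
    [(1, 920760000)]))))) (.mul (.g 12) (.add (.mul (.g 12) (.pp [(1, 502200000)])) (.mul (.g 17) (.pp
    [(1, 23959200000)])))))) (.add (.add (.mul (.g 4) (.mul (.g 20) (.pp [(1, 666840000)]))) (.mul (.g
    9) (.mul (.g 18) (.pp [(1, 1224810000)])))) (.add (.mul (.g 11) (.mul (.g 13) (.pp [(1,
    76981200000)]))) (.mul (.g 16) (.mul (.g 19) (.pp [(1, 12229320000)]))))))) (.add (.mul (.g 21)
    (.add (.add (.mul (.pp [(1, 258396)]) (.sq [(1, -20), (2, 14), (3, -100), (5, 90), (7, -75), (11,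
    -6), (13, 62), (19, -4), (23, 45)])) (.add (.mul (.pp [(1, 113424)]) (.sq [(1, -42), (2, 43), (3,
    -30), (5, 96), (7, -57), (11, 17), (13, 51), (19, -100), (23, 66)])) (.mul (.pp [(1, 83940)]) (.sq
    [(2, 17), (3, 47), (5, -77), (7, 64), (11, -100), (13, -29), (19, -27), (23, 17)])))) (.add (.add
    (.mul (.pp [(1, 384120)]) (.sq [(2, -47), (3, 73), (5, 100), (7, -3), (11, -73), (13, 41), (19,
    -14), (23, -69)])) (.mul (.g 16) (.add (.add (.pp [(1, 4998960000)]) (.mul (.g 12) (.pp [(1,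
    1505880000)]))) (.add (.mul (.g 16) (.pp [(1, 5971440000)])) (.mul (.g 21) (.pp [(1,
    464544000)])))))) (.add (.mul (.g 18) (.add (.mul (.g 12) (.pp [(1, 3424920000)])) (.mul (.g 18)
    (.pp [(1, 8277360000)])))) (.mul (.g 21) (.add (.mul (.g 0) (.pp [(1, 328740000)])) (.mul (.g 21)
    (.pp [(1, 217358400)])))))))) (.mul (.g 10) (.add (.add (.add (.mul (.pp [(1, 213240)]) (.sq [(1,
    12), (2, 29), (3, 100), (5, 18), (7, 39), (11, -62), (13, -55), (19, 26), (23, -8)])) (.mul (.pp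
    [(1, 2107980)]) (.sq [(1, -41), (2, -25), (3, 19), (5, -2), (7, -50), (11, 100), (13, 46), (19,
    -41), (23, -39)]))) (.add (.mul (.pp [(1, 779760)]) (.sq [(1, 27), (2, -46), (3, 28), (5, -100),
    (7, 69), (11, 44), (13, -55), (19, 28), (23, -52)])) (.mul (.pp [(1, 819600)]) (.sq [(1, -62), (2,
    39), (3, 100), (5, 22), (7, -43), (11, 8), (13, 7), (19, -3), (23, 62)])))) (.add (.add (.mul (.pp
    [(1, 1240740)]) (.sq [(2, 49), (3, 100), (5, -27), (7, -25), (11, 23), (13, 30), (19, 24), (23,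
    -83)])) (.mul (.g 13) (.add (.pp [(1, 78534600000)]) (.add (.mul (.g 13) (.pp [(1, 34387200000)]))
    (.mul (.g 17) (.pp [(1, 27853200000)])))))) (.add (.mul (.g 9) (.add (.pp [(1, 4457130000)]) (.mul
    (.g 9) (.pp [(1, 402537000)])))) (.mul (.g 11) (.mul (.g 12) (.pp [(1, 42985800000)])))))))))
    (.add (.mul (.g 13) (.add (.add (.mul (.pp [(1, 461880)]) (.sq [(1, 35), (2, 91), (3, -4), (5,
    -29), (7, 9), (11, 56), (13, -90), (19, 100), (23, -83)])) (.add (.mul (.pp [(1, 137668500)]) (.sq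
    [(3, -9), (7, 20), (11, 9), (19, -20)])) (.mul (.pp [(1, 469500)]) (.sq [(1, 10), (2, -56), (3,
    31), (5, -28), (7, -37), (11, 40), (13, 100), (19, 57), (23, -65)])))) (.add (.mul (.pp [(1,
    751860)]) (.sq [(1, 9), (2, 100), (3, -29), (5, -63), (7, -31), (11, -87), (13, -7), (19, 56),
    (23, 6)])) (.add (.mul (.pp [(1, 286080)]) (.sq [(2, -48), (3, -100), (5, -6), (7, -32), (11, 10),
    (13, -50), (19, 67), (23, 8)])) (.mul (.g 16) (.add (.mul (.g 12) (.pp [(1, 113254200000)])) (.add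
    (.mul (.g 18) (.pp [(1, 6370800000)])) (.mul (.g 19) (.pp [(1, 5426760000)]))))))))) (.add (.mul
    (.g 20) (.add (.add (.mul (.pp [(1, 398676)]) (.sq [(2, -34), (3, 100), (5, -5), (7, 1), (11, -9),
    (13, 13), (19, -10), (23, 3)])) (.add (.mul (.pp [(1, 328416)]) (.sq [(1, -82), (2, 10), (3, 18),
    (5, -23), (7, 16), (11, -26), (13, 100), (19, 54), (23, -26)])) (.mul (.pp [(1, 377928)]) (.sq
    [(2, -14), (3, -8), (5, -82), (7, 100), (11, -50), (13, -44), (19, -13), (23, -20)])))) (.add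
    (.add (.mul (.pp [(1, 591000)]) (.sq [(1, -24), (2, -4), (3, 100), (5, -29), (7, 3), (11, -47),
    (13, 40), (19, 13), (23, -26)])) (.mul (.pp [(1, 644964)]) (.sq [(1, -28), (2, -15), (3, 100), (5,
    -14), (7, 46), (11, -95), (13, -48), (19, -31), (23, 39)]))) (.add (.mul (.g 6) (.mul (.g 16) (.pp
    [(1, 8243040000)]))) (.mul (.g 17) (.mul (.g 17) (.pp [(1, 43736520000)]))))))) (.mul (.g 4) (.add
    (.add (.mul (.pp [(1, 23820)]) (.sq [(2, 21), (3, -30), (5, -17), (7, -20), (11, 37), (13, 100),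
    (19, 60), (23, -73)])) (.mul (.pp [(1, 4000920)]) (.sq [(2, -10), (3, -8), (5, 2), (7, -25), (11,
    28), (13, 100), (19, -35), (23, 10)]))) (.add (.mul (.pp [(1, 1689720)]) (.sq [(1, 100), (2, -16),
    (3, -33), (5, 23), (7, -19), (11, 57), (13, -25), (19, -43), (23, -32)])) (.mul (.pp [(1,
    804480)]) (.sq [(1, 16), (2, 38), (3, 100), (5, 32), (7, -26), (11, 19), (13, -62), (19, 72), (23,
    -46)]))))))))) (.add (.add (.add (.mul (.g 9) (.add (.add (.mul (.pp [(1, 255459)]) (.sq [(2, -9),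
    (3, -75), (5, 84), (7, -21), (11, 100), (13, 43), (19, 15), (23, -53)])) (.mul (.pp [(1, 32736)])
    (.sq [(1, -4), (2, 37), (3, -14), (5, -58), (7, -53), (11, 3), (13, 100), (19, -5), (23, 20)])))
    (.add (.mul (.pp [(1, 18660)]) (.sq [(1, 49), (2, 48), (5, 65), (7, -9), (11, -48), (13, 52), (19,
    -100), (23, -9)])) (.mul (.pp [(1, 110754)]) (.sq [(1, 77), (2, 15), (3, -15), (5, -19), (7, -48),
    (11, 51), (13, -100), (19, 99), (23, -56)]))))) (.mul (.g 12) (.add (.add (.mul (.pp [(1,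
    7271340)]) (.sq [(2, 100), (3, -45), (5, -3), (7, 2), (11, 25), (13, 5), (19, 4), (23, 5)])) (.mul
    (.pp [(1, 1893840)]) (.sq [(1, 24), (2, 28), (3, 10), (5, 72), (7, -84), (11, 11), (13, 100), (19,
    9), (23, -63)]))) (.add (.mul (.pp [(1, 421080)]) (.sq [(1, -55), (2, 27), (3, -3), (5, -25), (7,
    -2), (11, 18), (13, 100), (19, 23), (23, -30)])) (.mul (.pp [(1, 4138920)]) (.sq [(2, -100), (3,
    -5), (5, -22), (7, 79), (11, 73), (13, -41), (19, -25), (23, -8)])))))) (.add (.mul (.g 19) (.add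
    (.add (.mul (.pp [(1, 307680)]) (.sq [(1, -47), (2, -48), (3, -8), (5, 29), (7, 14), (11, -100),
    (13, 49), (19, -49), (23, 47)])) (.mul (.pp [(1, 77436)]) (.sq [(2, -46), (3, 81), (5, -100), (7,
    76), (11, -6), (13, -34), (19, -10), (23, -2)]))) (.add (.mul (.pp [(1, 3533640000)]) (.sq [(3,
    1), (11, -1)])) (.mul (.pp [(1, 1197648)]) (.sq [(1, -100), (2, 40), (3, 27), (5, -43), (7, 46),
    (11, -79), (13, 90), (19, -29), (23, 56)]))))) (.add (.mul (.g 2) (.add (.mul (.pp [(1, 1567680)])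
    (.sq [(2, -22), (3, 41), (5, -11), (7, 42), (11, 73), (13, -100), (19, 88), (23, -46)])) (.add
    (.mul (.pp [(1, 142200)]) (.sq [(1, -83), (2, 100), (3, -57), (5, 100), (7, 2), (13, 58), (19,
    19), (23, -12)])) (.mul (.g 6) (.mul (.g 6) (.pp [(1, 157395000000)])))))) (.mul (.g 11) (.add
    (.mul (.pp [(1, 4062000)]) (.sq [(1, -33), (2, -100), (3, 39), (5, 44), (7, -68), (11, -6), (13,
    72), (19, 50), (23, -3)])) (.add (.mul (.pp [(1, 736620)]) (.sq [(1, -11), (2, -16), (3, -7), (5,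
    100), (7, -13), (11, 64), (13, -7), (19, -18), (23, 3)])) (.mul (.g 16) (.mul (.g 17) (.pp [(1,
    2330400000)]))))))))) (.add (.add (.mul (.g 18) (.add (.mul (.pp [(1, 100860)]) (.sq [(1, -71),
    (2, 25), (3, 26), (5, 14), (7, 57), (11, 93), (13, -100), (19, 20), (23, 35)])) (.add (.mul (.pp
    [(1, 1323420)]) (.sq [(1, -17), (2, 13), (3, 6), (5, 63), (7, -41), (11, 95), (13, 100), (19,
    -23), (23, -5)])) (.mul (.pp [(1, 982920)]) (.sq [(1, 1), (2, 100), (3, -36), (5, -26), (7, -60),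
    (11, 31), (13, 54), (19, 60), (23, -26)]))))) (.add (.mul (.g 0) (.add (.mul (.pp [(1, 29844)])
    (.sq [(1, -3), (2, 77), (3, 100), (5, -67), (11, 26), (13, -9), (19, 69), (23, -33)])) (.mul (.pp
    [(1, 67236)]) (.sq [(1, 100), (2, -21), (3, -100), (5, -42), (7, -15), (11, 38), (13, -50), (19,
    70), (23, -74)])))) (.mul (.g 6) (.add (.mul (.pp [(1, 998220)]) (.sq [(1, 8), (2, 54), (3, 100),
    (5, 6), (7, -34), (11, 34), (13, 20), (19, 78), (23, -77)])) (.mul (.pp [(1, 639060)]) (.sq [(1,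
    -15), (2, 9), (3, 100), (5, 13), (7, 21), (11, -26), (13, -43), (19, 10), (23, 18)])))))) (.add
    (.mul (.g 17) (.add (.mul (.pp [(1, 1226520)]) (.sq [(2, -93), (3, -17), (5, 100), (7, -32), (11,
    31), (13, -42), (19, -1), (23, 6)])) (.mul (.pp [(1, 307020)]) (.sq [(1, -42), (2, 42), (3, -48),
    (5, -11), (7, -4), (11, -43), (13, 100), (19, 21), (23, -4)])))) (.add (.mul (.g 15) (.mul (.pp
    [(1, 316440)]) (.sq [(1, 20), (2, 13), (3, 19), (5, -29), (7, 63), (11, -100), (13, -85), (19,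
    -78), (23, 65)]))) (.mul (.g 16) (.mul (.pp [(1, 31020)]) (.sq [(1, 4), (2, -95), (3, -18), (5,
    -30), (7, -2), (11, 31), (13, -12), (19, -35), (23, 100)])))))))) (.pp [(1, 9752869674), (2,
    5732928), (3, 6203580), (4, 5959911), (5, 6210228), (6, 6148938), (7, 6339780), (8, 6083580), (9,
    6181815), (10, 6513060), (11, 5292096), (12, 5997660), (13, 6340080), (14, 5400594), (15,
    5893692), (18, 5796960), (19, 4816956), (20, 6522420), (21, 5459118), (22, 4830132), (23,
    4915488), (25, 5978886), (26, 7409226), (27, 5732520), (28, 6410820), (30, 6579120), (33,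
    6777780), (35, 5882040), (38, 4314822), (39, 5414718), (42, 5272080), (44, 5665500), (45,
    6158220), (46, 7076010), (49, 6652665), (50, 5630220), (52, 6108000), (55, 6633204), (57,
    6897570), (63, 5836320), (65, 5557128), (66, 6241440), (69, 6293814), (70, 6711000), (75,
    6066840), (76, 5929440), (77, 6801720), (78, 6073800), (91, 4244538), (92, 5689260), (95,
    5200884), (98, 6269040), (99, 5690260), (105, 6077400), (110, 5812920), (114, 6042360), (115,
    6478560), (117, 6103500), (121, 5993526), (125, 5740760), (130, 5205360), (133, 5774610), (138,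
    5974920), (143, 6631536), (147, 6592740), (154, 6626280), (161, 5950410), (165, 5873520), (169,
    5103753), (171, 6269160), (175, 6758400), (182, 5776440), (190, 6220680), (195, 6239280), (207,
    6061260), (209, 5125692), (230, 6117480), (231, 5646720), (242, 5805540), (245, 5512500), (247,
    6567306), (253, 6095088), (266, 5074440), (273, 5530680), (275, 5624880), (285, 5727960), (286,
    6194040), (299, 7315626), (322, 7205040), (325, 6120000), (338, 5056260), (343, 5917720), (345,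
    5863680), (361, 7480707), (363, 5602780), (385, 5245080), (399, 5540280), (418, 5985480), (429,
    5773320), (437, 7973730), (455, 6697680), (475, 6460920), (483, 6954480), (494, 6955560), (506,
    6548160), (507, 6224940), (529, 6060081), (539, 6523860), (575, 5615400), (598, 5235120), (605,
    6179280), (627, 6226440), (637, 5594700), (665, 5604240), (715, 5980680), (722, 6654360), (741,
    6009120), (759, 6280920), (805, 6106200), (845, 6153180), (847, 5838060), (874, 6322200), (897,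
    6116400), (931, 5777220), (1001, 4865040), (1045, 6287640), (1058, 4988700), (1083, 5907360),
    (1127, 5694240), (1183, 6719400), (1235, 6191400), (1265, 6046680), (1311, 5227920), (1331,
    5695060), (1463, 6219240), (1495, 5783760), (1573, 6691620), (1587, 5508720), (1729, 6371160),
    (1771, 5459640), (1805, 5722920), (1859, 5763960), (2093, 6374160), (2185, 6547680), (2197,
    6736500), (2299, 6403680), (2527, 6451980), (2645, 5728800), (2717, 6909960), (2783, 6209040),
    (3059, 5240400), (3211, 6145920), (3289, 5843160), (3703, 6142020), (3887, 5654640), (3971,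
    6342720), (4693, 5252340), (4807, 6083520), (5681, 5168520), (5819, 5886840), (6859, 6129740),
    (6877, 6247260), (8303, 4756320), (10051, 6275940), (12167, 5949300)])) (by norm_num)
    (by decide +kernel)

theorem l113le : Ck (gL11 3 (leB 2 5)) (pW (vL1 3 1 (hM (Ex.v 11)))) :=
  .mk' 1000000 (.add (.add (.add (.add (.add (.mul (.pp [(1, 10629060)]) (.sq [(1, -32), (2, -35), (3, 60), (5,
    -19), (7, 64), (11, -100), (13, 39), (19, -14), (23, -14)])) (.mul (.pp [(1, 1452300)]) (.sq [(2,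
    33), (3, -19), (5, -90), (7, 100), (11, -47), (13, -25), (19, -17), (23, -36)]))) (.add (.mul (.pp
    [(1, 7585920)]) (.sq [(1, 87), (2, -38), (3, 6), (5, 39), (7, 12), (11, -38), (13, -100), (19,
    -43), (23, 37)])) (.add (.mul (.g 3) (.add (.add (.add (.mul (.pp [(1, 631140)]) (.sq [(1, 33),
    (2, 93), (3, 99), (5, -44), (7, -13), (11, 100), (13, -39), (19, -13), (23, 10)])) (.mul (.pp [(1,
    454380)]) (.sq [(1, 7), (2, -21), (3, 65), (5, -84), (7, -9), (11, 77), (13, 100), (19, -75), (23,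
    61)]))) (.add (.mul (.g 8) (.add (.add (.pp [(1, 11158200000)]) (.add (.mul (.g 8) (.pp [(1,
    33165600000)])) (.mul (.g 12) (.pp [(1, 38436000000)])))) (.add (.mul (.g 13) (.pp [(1,
    104628600000)])) (.add (.mul (.g 17) (.pp [(1, 357129000000)])) (.mul (.g 18) (.pp [(1,
    11865600000)])))))) (.mul (.g 5) (.add (.add (.pp [(1, 68806800000)]) (.mul (.g 0) (.pp [(1,
    1491300000)]))) (.add (.mul (.g 6) (.pp [(1, 63677400000)])) (.mul (.g 20) (.pp [(1,
    482400000)]))))))) (.add (.add (.mul (.g 10) (.add (.add (.mul (.g 0) (.pp [(1, 2651280000)]))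
    (.mul (.g 10) (.pp [(1, 41645400000)]))) (.add (.mul (.g 18) (.pp [(1, 771000000)])) (.mul (.g 20)
    (.pp [(1, 3163200000)]))))) (.mul (.g 15) (.add (.add (.mul (.g 2) (.pp [(1, 13411560000)])) (.mul
    (.g 6) (.pp [(1, 53408640000)]))) (.add (.mul (.g 13) (.pp [(1, 7881120000)])) (.mul (.g 19) (.pp
    [(1, 188880000)])))))) (.add (.mul (.g 1) (.add (.mul (.g 4) (.pp [(1, 90745200000)])) (.mul (.g
    21) (.pp [(1, 1318920000)])))) (.add (.mul (.g 13) (.mul (.g 17) (.pp [(1, 23896200000)]))) (.mul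
    (.g 19) (.mul (.g 19) (.pp [(1, 771600000)])))))))) (.mul (.g 17) (.add (.add (.add (.mul (.pp
    [(1, 851580)]) (.sq [(2, 37), (3, -25), (5, -52), (7, -14), (11, 74), (13, 15), (19, -24), (23,
    100)])) (.mul (.pp [(1, 9810060)]) (.sq [(1, 2), (2, -45), (3, -6), (5, 100), (7, -5), (11, 5),
    (13, 12), (19, -9), (23, -18)]))) (.add (.mul (.g 13) (.add (.add (.mul (.g 8) (.pp [(1,
    23839200000)])) (.mul (.g 12) (.pp [(1, 2691000000)]))) (.add (.mul (.g 20) (.pp [(1,
    486480000)])) (.add (.mul (.g 21) (.pp [(1, 95280000)])) (.mul (.g 22) (.pp [(1,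
    4154280000)])))))) (.add (.mul (.g 11) (.add (.mul (.g 10) (.pp [(1, 19333800000)])) (.add (.mul
    (.g 12) (.pp [(1, 113754600000)])) (.mul (.g 20) (.pp [(1, 5704560000)]))))) (.mul (.g 19) (.add
    (.mul (.g 17) (.pp [(1, 14262600000)])) (.add (.mul (.g 18) (.pp [(1, 8456400000)])) (.mul (.g 22)
    (.pp [(1, 10928280000)])))))))) (.add (.add (.mul (.g 4) (.add (.mul (.g 10) (.pp [(1,
    3626400000)])) (.mul (.g 15) (.pp [(1, 8605080000)])))) (.mul (.g 7) (.add (.mul (.g 8) (.pp [(1,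
    49710600000)])) (.mul (.g 12) (.pp [(1, 304800000)]))))) (.add (.mul (.g 20) (.add (.mul (.g 16)
    (.pp [(1, 2663040000)])) (.mul (.g 22) (.pp [(1, 1483440000)])))) (.add (.mul (.g 1) (.pp [(1,
    14230200000)])) (.mul (.g 8) (.mul (.g 21) (.pp [(1, 5273160000)]))))))))))) (.add (.add (.mul (.g
    9) (.add (.add (.add (.mul (.pp [(1, 87987)]) (.sq [(2, 34), (3, 80), (5, 100), (7, -98), (11,
    -23), (13, -9), (19, 32), (23, -40)])) (.mul (.g 18) (.add (.add (.mul (.g 5) (.pp [(1,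
    1701750000)])) (.mul (.g 9) (.pp [(1, 155637000)]))) (.add (.mul (.g 12) (.pp [(1, 1248630000)]))
    (.add (.mul (.g 21) (.pp [(1, 2617650000)])) (.mul (.g 22) (.pp [(1, 5532000)]))))))) (.add (.mul
    (.g 10) (.add (.add (.pp [(1, 602880000)]) (.mul (.g 0) (.pp [(1, 925294500)]))) (.add (.mul (.g
    11) (.pp [(1, 166740000)])) (.mul (.g 20) (.pp [(1, 164310000)]))))) (.mul (.g 1) (.add (.mul (.g
    0) (.pp [(1, 900355500)])) (.add (.mul (.g 9) (.pp [(1, 27960000)])) (.mul (.g 19) (.pp [(1,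
    1807320000)]))))))) (.add (.add (.mul (.g 8) (.add (.mul (.g 8) (.pp [(1, 10676700000)])) (.add
    (.mul (.g 12) (.pp [(1, 611430000)])) (.mul (.g 20) (.pp [(1, 21132000)]))))) (.mul (.g 12) (.add
    (.mul (.g 15) (.pp [(1, 2622462000)])) (.mul (.g 19) (.pp [(1, 245160000)]))))) (.add (.mul (.g 5)
    (.mul (.g 11) (.pp [(1, 782100000)]))) (.mul (.g 13) (.mul (.g 15) (.pp [(1, 1738716000)])))))))
    (.add (.mul (.g 1) (.add (.add (.add (.mul (.pp [(1, 3691080)]) (.sq [(1, -51), (2, 15), (3, -47),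
    (5, 100), (7, 2), (11, 25), (13, 88), (19, -25), (23, 41)])) (.mul (.pp [(1, 1659240)]) (.sq [(1,
    49), (2, -44), (3, -73), (5, 50), (7, -100), (11, 39), (13, 32), (19, -41), (23, -53)]))) (.add
    (.mul (.pp [(1, 2540460)]) (.sq [(1, 7), (2, -100), (3, 9), (5, -51), (7, 94), (11, -4), (13,
    -66), (19, 34), (23, -5)])) (.mul (.pp [(1, 199440)]) (.sq [(2, 39), (3, -25), (5, 100), (7, -6),
    (11, 14), (19, 42), (23, -34)])))) (.add (.add (.mul (.pp [(1, 697740)]) (.sq [(1, 21), (2, 40),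
    (3, -100), (5, 8), (11, 45), (13, 78), (19, -63), (23, -8)])) (.mul (.pp [(1, 1475880)]) (.sq [(2,
    100), (3, 72), (5, -3), (7, 34), (11, 32), (13, -92), (19, 2), (23, -68)]))) (.add (.mul (.g 19)
    (.add (.add (.pp [(1, 23247600000)]) (.mul (.g 1) (.pp [(1, 180154800000)]))) (.add (.mul (.g 7)
    (.pp [(1, 92582400000)])) (.add (.mul (.g 12) (.pp [(1, 85693800000)])) (.mul (.g 19) (.pp [(1,
    27702600000)])))))) (.add (.mul (.g 0) (.add (.pp [(1, 7710690000)]) (.add (.mul (.g 16) (.pp [(1,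
    8421600000)])) (.mul (.g 21) (.pp [(1, 613200000)]))))) (.mul (.g 4) (.add (.mul (.g 8) (.pp [(1,
    733663200000)])) (.mul (.g 18) (.pp [(1, 38072400000)]))))))))) (.mul (.g 7) (.add (.add (.mul
    (.pp [(1, 750180)]) (.sq [(1, 35), (2, 99), (3, -100), (5, 4), (7, -3), (11, -85), (13, -10), (19,
    -10), (23, 10)])) (.add (.mul (.pp [(1, 1658520)]) (.sq [(2, 100), (3, 37), (5, 2), (7, 12), (11,
    79), (13, -59), (23, -51)])) (.mul (.pp [(1, 58860)]) (.sq [(2, -55), (3, 82), (5, 100), (7, 32),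
    (11, -14), (13, 31), (19, -37)])))) (.add (.add (.mul (.g 8) (.add (.mul (.g 15) (.pp [(1,
    49879200000)])) (.add (.mul (.g 16) (.pp [(1, 279034800000)])) (.mul (.g 22) (.pp [(1,
    660120000)]))))) (.mul (.g 15) (.add (.mul (.g 0) (.pp [(1, 265002000)])) (.mul (.g 16) (.pp [(1,
    45704400000)]))))) (.add (.mul (.g 19) (.add (.mul (.g 12) (.pp [(1, 4624200000)])) (.mul (.g 18)
    (.pp [(1, 25212600000)])))) (.mul (.g 10) (.mul (.g 21) (.pp [(1, 2138880000)]))))))))) (.add
    (.mul (.g 12) (.add (.add (.mul (.pp [(1, 2403420)]) (.sq [(1, -49), (2, -10), (3, 46), (5, 100),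
    (7, 45), (11, -36), (13, 34), (19, -42), (23, -60)])) (.add (.mul (.pp [(1, 2817180)]) (.sq [(1,
    29), (2, -22), (3, 49), (5, 5), (7, 26), (11, -25), (13, -100), (19, -2), (23, 5)])) (.mul (.pp
    [(1, 129480)]) (.sq [(2, -63), (3, 77), (5, -61), (7, -15), (11, -100), (13, -20), (19, 90), (23,
    -73)])))) (.add (.add (.mul (.pp [(1, 4452000)]) (.sq [(2, -11), (3, -4), (5, 80), (7, -100), (11,
    31), (13, 28), (19, -3), (23, 40)])) (.mul (.pp [(1, 2558700)]) (.sq [(1, -67), (2, 21), (3, 96),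
    (5, -100), (7, 68), (11, -31), (13, 48), (19, -23), (23, 71)]))) (.add (.mul (.g 12) (.add (.add
    (.mul (.g 10) (.pp [(1, 2418600000)])) (.mul (.g 12) (.pp [(1, 22087800000)]))) (.add (.mul (.g
    20) (.pp [(1, 1275480000)])) (.mul (.g 22) (.pp [(1, 1783680000)]))))) (.mul (.g 0) (.mul (.g 22)
    (.pp [(1, 739302000)]))))))) (.add (.mul (.g 4) (.add (.add (.mul (.pp [(1, 684720)]) (.sq [(1,
    -63), (2, -40), (3, 7), (5, -100), (7, -14), (11, 2), (13, 14), (19, 74), (23, -2)])) (.add (.mul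
    (.pp [(1, 1005600)]) (.sq [(1, -9), (2, -36), (3, -24), (5, 70), (7, 15), (11, -80), (13, 100),
    (19, -59), (23, 15)])) (.mul (.pp [(1, 791280)]) (.sq [(2, -57), (3, 98), (5, 100), (7, 41), (11,
    -41), (13, 12), (19, -47)])))) (.add (.add (.mul (.g 10) (.add (.pp [(1, 13977600000)]) (.add
    (.mul (.g 2) (.pp [(1, 12806400000)])) (.mul (.g 10) (.pp [(1, 13369800000)]))))) (.mul (.g 8)
    (.mul (.g 8) (.pp [(1, 5757600000)])))) (.add (.mul (.g 15) (.mul (.g 16) (.pp [(1,
    56623680000)]))) (.mul (.g 19) (.mul (.g 19) (.pp [(1, 11402400000)]))))))) (.mul (.g 13) (.add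
    (.add (.mul (.pp [(1, 94560)]) (.sq [(2, 21), (3, -12), (5, 47), (7, 3), (11, -14), (13, 100),
    (19, -27), (23, -4)])) (.add (.mul (.pp [(1, 221880)]) (.sq [(2, 10), (3, -24), (5, 44), (7, 7),
    (11, -68), (13, 94), (19, -15), (23, -100)])) (.mul (.pp [(1, 492840)]) (.sq [(1, -100), (2, -36),
    (3, -38), (5, 95), (7, -7), (11, 22), (13, 83), (19, 63), (23, -63)])))) (.add (.add (.mul (.pp
    [(1, 842400)]) (.sq [(1, -26), (2, -81), (3, -25), (5, 51), (7, 2), (11, 100), (13, -83), (19, 3),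
    (23, 64)])) (.mul (.pp [(1, 443940)]) (.sq [(1, -41), (2, -14), (3, -50), (5, 11), (7, 47), (11,
    -75), (13, -100), (19, 82), (23, -80)]))) (.add (.mul (.pp [(1, 1113600)]) (.sq [(1, -16), (2,
    69), (3, -27), (5, 32), (7, 28), (11, -33), (13, -100), (19, 71), (23, -25)])) (.mul (.g 13) (.mul
    (.g 18) (.pp [(1, 1632600000)]))))))))))) (.add (.add (.add (.mul (.g 20) (.add (.add (.mul (.pp
    [(1, 243300)]) (.sq [(1, 3), (2, -75), (3, -27), (5, 100), (7, -6), (11, -20), (13, 34), (19,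
    -27), (23, 14)])) (.add (.mul (.pp [(1, 2439840000)]) (.sq [(3, 1), (11, -1)])) (.mul (.pp [(1,
    14064)]) (.sq [(1, 44), (2, 67), (3, -100), (5, -16), (7, 14), (11, 22), (13, 57), (19, -62), (23,
    54)])))) (.add (.mul (.pp [(1, 617376)]) (.sq [(2, -19), (3, 7), (5, -85), (7, 34), (11, 29), (13,
    -100), (19, 2), (23, 80)])) (.add (.mul (.pp [(1, 200004)]) (.sq [(2, -47), (3, -35), (5, -44),
    (7, -3), (11, -20), (13, 100), (19, -54), (23, 44)])) (.mul (.pp [(1, 475452)]) (.sq [(1, 89), (2,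
    -24), (3, 27), (5, 67), (11, -61), (13, -100), (19, -36), (23, 20)])))))) (.add (.mul (.g 21)
    (.add (.add (.mul (.pp [(1, 98748)]) (.sq [(1, -1), (2, 55), (3, -84), (5, 57), (7, 33), (11, 49),
    (13, 46), (19, -60), (23, 100)])) (.mul (.pp [(1, 323124)]) (.sq [(1, 35), (2, -18), (3, 100), (5,
    16), (7, 35), (11, -56), (13, -76), (19, -34), (23, 5)]))) (.add (.mul (.pp [(1, 71880)]) (.sq
    [(1, -20), (2, -45), (3, -100), (5, -76), (7, 94), (11, 39), (13, 8), (19, -2), (23, 29)])) (.add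
    (.mul (.g 21) (.add (.mul (.g 8) (.pp [(1, 906888000)])) (.mul (.g 21) (.pp [(1, 1189675200)]))))
    (.mul (.g 18) (.mul (.g 18) (.pp [(1, 26229480000)]))))))) (.mul (.g 0) (.add (.add (.mul (.pp
    [(1, 71031)]) (.sq [(1, 67), (2, -10), (3, 4), (5, -46), (7, -47), (11, -52), (13, 100), (19,
    -21), (23, -23)])) (.mul (.pp [(1, 94977)]) (.sq [(2, -50), (3, 100), (5, -43), (7, -5), (11, 50),
    (13, -35), (19, 62), (23, -90)]))) (.add (.mul (.pp [(1, 273165)]) (.sq [(2, -81), (3, -5), (5,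
    -100), (7, 2), (11, 2), (13, 92), (19, -11), (23, 45)])) (.add (.mul (.g 10) (.pp [(1,
    334140000)])) (.mul (.g 22) (.pp [(1, 1142748000)])))))))) (.add (.mul (.g 15) (.add (.add (.mul
    (.pp [(1, 260196)]) (.sq [(1, -23), (2, 45), (3, 6), (5, -13), (7, -42), (11, 85), (13, -66), (19,
    93), (23, 100)])) (.mul (.pp [(1, 48924)]) (.sq [(1, -57), (2, -31), (3, 93), (5, 23), (7, 65),
    (11, -100), (13, -33), (19, 71), (23, 5)]))) (.add (.mul (.pp [(1, 333792)]) (.sq [(2, -51), (3,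
    45), (5, 18), (7, -40), (11, -60), (13, 45), (19, 40), (23, 100)])) (.mul (.pp [(1, 199536)]) (.sq
    [(1, -45), (2, 71), (3, -9), (5, 100), (7, -37), (11, 70), (13, 55), (19, -19), (23, -50)])))))
    (.add (.mul (.g 18) (.add (.add (.mul (.pp [(1, 264420)]) (.sq [(1, 2), (2, -30), (3, 100), (5,
    17), (7, 11), (11, 36), (13, -42), (19, -52), (23, 63)])) (.mul (.pp [(1, 60960)]) (.sq [(2, -44),
    (3, 9), (5, 83), (7, -37), (11, 100), (13, -88), (19, 24), (23, 12)]))) (.add (.mul (.pp [(1,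
    483360)]) (.sq [(1, -1), (2, 43), (3, 30), (5, -40), (7, 9), (11, -7), (13, -92), (19, 26), (23,
    100)])) (.mul (.pp [(1, 375900)]) (.sq [(2, -17), (3, -1), (5, 100), (7, 47), (11, -8), (13, 68),
    (19, -70), (23, 97)]))))) (.mul (.g 19) (.add (.add (.mul (.pp [(1, 941520)]) (.sq [(1, 19), (2,
    -46), (3, -64), (5, -16), (7, 100), (11, -99), (13, -70), (19, -6), (23, -5)])) (.mul (.pp [(1,
    297780)]) (.sq [(2, -59), (3, -53), (5, 7), (7, 27), (11, 100), (13, 2), (19, -52), (23, 34)])))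
    (.add (.mul (.pp [(1, 618060)]) (.sq [(2, -66), (3, 100), (5, 9), (7, 15), (11, 29), (13, -11),
    (19, -37), (23, 75)])) (.mul (.g 19) (.mul (.g 22) (.pp [(1, 18755880000)]))))))))) (.add (.add
    (.mul (.g 8) (.add (.mul (.pp [(1, 1751400)]) (.sq [(2, 43), (3, -100), (5, -78), (7, 11), (11,
    10), (13, 56), (19, 7), (23, -10)])) (.add (.mul (.pp [(1, 6342240)]) (.sq [(2, 43), (3, 100), (5,
    -23), (7, -23), (11, 43), (13, -23), (19, -23), (23, -23)])) (.mul (.pp [(1, 2841240)]) (.sq [(1,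
    -5), (2, -19), (3, 82), (5, 15), (7, -13), (11, -30), (13, 27), (19, -5), (23, -100)]))))) (.add
    (.mul (.g 10) (.add (.mul (.pp [(1, 972240)]) (.sq [(2, -83), (3, -25), (5, 65), (7, -57), (11,
    29), (13, 32), (19, 10), (23, 100)])) (.add (.mul (.pp [(1, 1377120)]) (.sq [(2, -100), (3, -26),
    (5, 84), (7, 55), (11, -100), (13, -16), (19, 48), (23, -17)])) (.mul (.pp [(1, 1356600)]) (.sq
    [(1, -7), (2, 12), (3, 61), (5, -33), (7, -95), (11, 82), (13, -66), (19, 100), (23, 56)])))))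
    (.mul (.g 11) (.add (.mul (.pp [(1, 3071940)]) (.sq [(1, 13), (2, 92), (3, 22), (5, -31), (7, 11),
    (11, -10), (13, -100), (19, 29), (23, -24)])) (.add (.mul (.pp [(1, 5247420)]) (.sq [(1, -9), (2,
    20), (3, -30), (5, 100), (7, -16), (11, 2), (13, -4), (19, 9), (23, -63)])) (.mul (.pp [(1,
    1968480)]) (.sq [(1, 22), (2, -51), (3, 38), (5, 100), (7, -48), (11, -38), (13, 45), (19, -39),
    (23, 67)]))))))) (.add (.mul (.g 5) (.add (.mul (.pp [(1, 1718220)]) (.sq [(2, -10), (3, -54), (5,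
    -100), (7, 96), (11, -45), (13, 7), (19, 41), (23, -13)])) (.mul (.pp [(1, 1403880)]) (.sq [(2,
    50), (3, -100), (5, -58), (7, 68), (11, 69), (13, -39), (19, 22), (23, 65)])))) (.add (.mul (.g
    22) (.add (.mul (.pp [(1, 263700)]) (.sq [(1, 82), (2, 33), (3, -57), (5, -43), (7, -16), (11,
    35), (13, -100), (19, -28), (23, 86)])) (.mul (.pp [(1, 81888)]) (.sq [(2, -69), (3, -33), (5,
    100), (11, 58), (13, -54), (19, -8), (23, -11)])))) (.mul (.g 14) (.pp [(1, 674640)]))))))) (.pp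
    [(1, 321921735), (2, 5375928), (3, 5935248), (4, 6307113), (5, 6068124), (6, 5854242), (7,
    5812302), (8, 6061920), (9, 6570501), (10, 6201636), (11, 6045264), (12, 6211440), (13, 6712728),
    (14, 6012252), (15, 6347400), (18, 5539200), (19, 6883866), (20, 6588720), (21, 5738316), (22,
    5972760), (23, 5570550), (25, 6394845), (26, 6881928), (27, 6291780), (28, 6182820), (30,
    6781440), (33, 6354468), (35, 4945098), (38, 7231026), (39, 5606784), (42, 6184560), (44,
    5665800), (45, 6108240), (46, 5370858), (49, 7529988), (50, 4974840), (52, 5405580), (55,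
    5486244), (57, 5782470), (63, 6489000), (65, 6960018), (66, 6066720), (69, 6363174), (70,
    4755840), (75, 6102360), (76, 5642640), (77, 6521352), (78, 6179880), (91, 4555962), (92,
    5285520), (95, 5406240), (98, 5062260), (99, 4951360), (105, 6532080), (110, 6175560), (114,
    5834280), (115, 6109248), (117, 5228580), (121, 5587869), (125, 6023300), (130, 6303840), (133,
    5792682), (138, 6340320), (143, 5776890), (147, 5329680), (154, 7981560), (161, 5975310), (165,
    5770560), (169, 5648202), (171, 5466720), (175, 6180720), (182, 5791560), (190, 6708000), (195,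
    6025560), (207, 5015580), (209, 6082356), (230, 7716960), (231, 6026280), (242, 5849700), (245,
    7507080), (247, 5667060), (253, 6311868), (266, 7249440), (273, 5689680), (275, 6122760), (285,
    5450880), (286, 5366760), (299, 5765196), (322, 7165440), (325, 5822220), (338, 5822220), (343,
    5654500), (345, 5058000), (361, 5403564), (363, 6464500), (385, 3733560), (399, 5991960), (418,
    4919760), (429, 6144840), (437, 7706220), (455, 4853760), (475, 5820180), (483, 6306000), (494,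
    5706000), (506, 4665120), (507, 6666240), (529, 6621084), (539, 5598360), (575, 5081280), (598,
    6190200), (605, 6539400), (627, 6475440), (637, 6620100), (665, 5855280), (715, 7033080), (722,
    4973280), (741, 6680640), (759, 6607800), (805, 5090280), (845, 6062100), (847, 7113300), (874,
    5891280), (897, 6157800), (931, 5088600), (1001, 5033520), (1045, 7203600), (1058, 5497080),
    (1083, 6295200), (1127, 6643740), (1183, 6898860), (1235, 5866320), (1265, 7159200), (1311,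
    5908680), (1331, 5844700), (1463, 6601200), (1495, 5207160), (1573, 6193260), (1587, 6285900),
    (1729, 5095320), (1771, 6722160), (1805, 6496020), (1859, 6758820), (2093, 5783400), (2185,
    6573480), (2197, 5827560), (2299, 5300580), (2527, 7090860), (2645, 6809580), (2717, 6566880),
    (2783, 4941660), (3059, 5993280), (3211, 5438280), (3289, 6535320), (3703, 5515440), (3887,
    6044460), (3971, 5471640), (4693, 6884700), (4807, 4905600), (5681, 6835440), (5819, 5286480),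
    (6859, 5728080), (6877, 6163020), (8303, 4639860), (10051, 4605900), (12167, 5512100)])) (by norm_num)
    (by decide +kernel)

theorem l113ge : Ck (gL11 3 (geB 2 5)) (pW (vL1 3 1 (hM (Ex.v 11)))) :=
  .mk' 1000000 (.add (.add (.add (.add (.add (.mul (.pp [(1, 3277740)]) (.sq [(1, -91), (2, 59), (3, -53), (5,
    -85), (7, 3), (11, 100), (13, 50), (19, 19), (23, 77)])) (.mul (.pp [(1, 3018960)]) (.sq [(1,
    -38), (2, -61), (3, -3), (5, -100), (7, 51), (11, -94), (13, 21), (19, 82), (23, -65)]))) (.add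
    (.mul (.g 8) (.add (.add (.add (.mul (.pp [(1, 3379980)]) (.sq [(1, -13), (2, -8), (3, -7), (5,
    -72), (7, -9), (11, -10), (13, -37), (19, 37), (23, 100)])) (.add (.mul (.pp [(1, 1633980)]) (.sq
    [(1, 3), (2, 12), (3, 100), (5, 57), (7, -72), (11, 85), (13, -92), (19, 40), (23, 3)])) (.mul
    (.pp [(1, 3304140)]) (.sq [(1, -2), (2, 100), (3, -97), (5, -52), (7, 46), (11, -16), (13, 17),
    (19, 13), (23, -56)])))) (.add (.add (.mul (.pp [(1, 1293600)]) (.sq [(1, -48), (2, -52), (3,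
    100), (5, -34), (7, 6), (11, 29), (13, 37), (19, -10), (23, -17)])) (.mul (.pp [(1, 1350780)])
    (.sq [(1, 58), (2, 6), (3, -99), (5, 74), (7, -100), (11, 43), (13, 34), (19, -62), (23, 85)])))
    (.add (.mul (.pp [(1, 2287740)]) (.sq [(2, 43), (3, 100), (5, -23), (7, -23), (11, 43), (13, -23),
    (19, -23), (23, -23)])) (.mul (.g 17) (.add (.add (.mul (.g 4) (.pp [(1, 49793400000)])) (.add
    (.mul (.g 8) (.pp [(1, 34097400000)])) (.mul (.g 11) (.pp [(1, 49233000000)])))) (.add (.add (.mul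
    (.g 15) (.pp [(1, 8973360000)])) (.mul (.g 18) (.pp [(1, 102490200000)]))) (.add (.mul (.g 19)
    (.pp [(1, 143400000)])) (.mul (.g 20) (.pp [(1, 10255920000)]))))))))) (.add (.add (.mul (.g 8)
    (.add (.add (.mul (.g 0) (.pp [(1, 2496870000)])) (.mul (.g 9) (.pp [(1, 9685410000)]))) (.add
    (.mul (.g 12) (.pp [(1, 318600000)])) (.add (.mul (.g 15) (.pp [(1, 10560120000)])) (.mul (.g 18)
    (.pp [(1, 52274400000)])))))) (.add (.mul (.g 12) (.add (.add (.mul (.g 1) (.pp [(1,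
    84850200000)])) (.mul (.g 7) (.pp [(1, 288093000000)]))) (.add (.mul (.g 21) (.pp [(1,
    3914880000)])) (.mul (.g 22) (.pp [(1, 2626800000)]))))) (.mul (.g 15) (.add (.add (.mul (.g 3)
    (.pp [(1, 12309600000)])) (.mul (.g 5) (.pp [(1, 61748280000)]))) (.add (.mul (.g 11) (.pp [(1,
    20077920000)])) (.mul (.g 18) (.pp [(1, 6515520000)]))))))) (.add (.add (.mul (.g 1) (.add (.pp
    [(1, 167949600000)]) (.mul (.g 19) (.pp [(1, 13752600000)])))) (.mul (.g 21) (.add (.mul (.g 6)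
    (.pp [(1, 1964760000)])) (.mul (.g 21) (.pp [(1, 10537968000)]))))) (.add (.mul (.g 7) (.mul (.g
    11) (.pp [(1, 441220800000)]))) (.mul (.g 19) (.mul (.g 22) (.pp [(1, 2535360000)])))))))) (.add
    (.mul (.g 17) (.add (.add (.add (.mul (.pp [(1, 22620)]) (.sq [(3, 100), (5, 80), (7, -6), (11,
    -54), (13, -86), (19, 35), (23, -64)])) (.add (.mul (.pp [(1, 525720)]) (.sq [(1, -45), (2, -96),
    (3, -64), (5, 100), (7, 4), (11, -50), (13, 85), (19, 38), (23, -84)])) (.mul (.pp [(1, 547260)])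
    (.sq [(1, -11), (2, 85), (3, -100), (5, -68), (7, 87), (11, 47), (13, -74), (19, 38), (23,
    -58)])))) (.add (.mul (.pp [(1, 1006380)]) (.sq [(1, -2), (2, 33), (3, 16), (5, -37), (7, 1), (11,
    11), (13, -1), (19, 64), (23, -100)])) (.add (.mul (.g 20) (.add (.add (.pp [(1, 43920000)]) (.add
    (.mul (.g 6) (.pp [(1, 4096920000)])) (.mul (.g 10) (.pp [(1, 10080720000)])))) (.add (.add (.mul
    (.g 13) (.pp [(1, 3305160000)])) (.mul (.g 19) (.pp [(1, 6990360000)]))) (.add (.mul (.g 20) (.pp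
    [(1, 721704000)])) (.mul (.g 21) (.pp [(1, 579624000)])))))) (.mul (.g 15) (.add (.mul (.g 1) (.pp
    [(1, 2684160000)])) (.add (.mul (.g 10) (.pp [(1, 2610000000)])) (.mul (.g 21) (.pp [(1,
    311352000)])))))))) (.add (.add (.mul (.g 6) (.add (.mul (.g 9) (.pp [(1, 1514340000)])) (.mul (.g
    21) (.pp [(1, 3098400000)])))) (.add (.mul (.g 7) (.add (.mul (.g 16) (.pp [(1, 65127000000)]))
    (.mul (.g 19) (.pp [(1, 67135800000)])))) (.mul (.g 13) (.add (.pp [(1, 7440600000)]) (.mul (.g 1)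
    (.pp [(1, 171299400000)])))))) (.add (.mul (.g 22) (.add (.mul (.g 9) (.pp [(1, 397674000)]))
    (.mul (.g 22) (.pp [(1, 2075568000)])))) (.add (.mul (.g 10) (.mul (.g 19) (.pp [(1,
    75847200000)]))) (.mul (.g 11) (.mul (.g 12) (.pp [(1, 48000000000)])))))))) (.mul (.g 1) (.add
    (.add (.add (.mul (.pp [(1, 1120620)]) (.sq [(2, 39), (3, -26), (5, -65), (7, 1), (11, -68), (13,
    -100), (19, 82), (23, 37)])) (.add (.mul (.pp [(1, 1141500)]) (.sq [(1, -20), (2, -39), (3, 100),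
    (5, -1), (11, -44), (13, -76), (19, 60), (23, 1)])) (.mul (.pp [(1, 3844320)]) (.sq [(2, -100),
    (3, -9), (5, -37), (7, 86), (11, 13), (13, -36), (19, 18), (23, 63)])))) (.add (.add (.mul (.pp
    [(1, 4555260)]) (.sq [(2, -88), (3, -25), (5, -51), (7, -24), (11, -9), (13, 100), (19, -24), (23,
    -2)])) (.mul (.pp [(1, 1148700)]) (.sq [(1, 5), (2, 15), (3, -27), (5, 81), (7, -14), (11, 100),
    (13, -12), (19, -17), (23, 38)]))) (.add (.mul (.pp [(1, 4546740)]) (.sq [(2, 8), (3, -16), (5,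
    -83), (7, -35), (11, 100), (13, 30), (19, 7), (23, 3)])) (.mul (.pp [(1, 811860)]) (.sq [(2, -17),
    (3, 67), (5, -20), (7, -12), (11, -100), (13, -38), (19, -48), (23, 85)]))))) (.add (.add (.mul
    (.pp [(1, 1742280)]) (.sq [(2, -98), (3, 95), (5, -62), (7, -64), (11, 20), (13, -9), (19, 44),
    (23, -100)])) (.add (.mul (.g 0) (.add (.add (.pp [(1, 4435440000)]) (.add (.mul (.g 0) (.pp [(1,
    449901000)])) (.mul (.g 2) (.pp [(1, 1155750000)])))) (.add (.mul (.g 3) (.pp [(1, 1200030000)]))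
    (.add (.mul (.g 20) (.pp [(1, 1485948000)])) (.mul (.g 22) (.pp [(1, 2893290000)])))))) (.mul (.g
    7) (.add (.pp [(1, 287853000000)]) (.mul (.g 3) (.pp [(1, 154414200000)])))))) (.add (.add (.mul
    (.g 15) (.add (.pp [(1, 42560040000)]) (.mul (.g 11) (.pp [(1, 12386400000)])))) (.mul (.g 4)
    (.mul (.g 19) (.pp [(1, 352819800000)])))) (.add (.mul (.g 12) (.pp [(1, 86049000000)])) (.mul (.g
    18) (.mul (.g 21) (.pp [(1, 4339560000)]))))))))))) (.add (.add (.mul (.g 10) (.add (.add (.add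
    (.mul (.pp [(1, 24420)]) (.sq [(2, -6), (3, 68), (5, 8), (7, -29), (11, -44), (13, 4), (19, 100),
    (23, -43)])) (.add (.mul (.pp [(1, 919440)]) (.sq [(2, -45), (3, 55), (5, -10), (7, -3), (11,
    -36), (13, 24), (19, 14), (23, 100)])) (.mul (.pp [(1, 3440220)]) (.sq [(2, -45), (3, 36), (5,
    17), (7, 100), (11, -41), (13, 54), (19, -44), (23, -57)])))) (.add (.add (.mul (.pp [(1,
    296100)]) (.sq [(2, 48), (3, 10), (5, -10), (7, 9), (11, -58), (13, 100), (19, -11), (23, -26)]))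
    (.mul (.pp [(1, 1524780)]) (.sq [(1, 9), (2, -81), (3, 46), (5, 40), (7, -2), (11, -32), (13, 49),
    (19, -100), (23, 66)]))) (.add (.mul (.pp [(1, 1968960)]) (.sq [(1, 60), (2, -28), (3, 15), (5,
    82), (7, 49), (11, -38), (13, -100), (19, 48), (23, -75)])) (.mul (.g 15) (.add (.pp [(1,
    719280000)]) (.add (.mul (.g 9) (.pp [(1, 1150104000)])) (.mul (.g 10) (.pp [(1,
    13235640000)])))))))) (.add (.add (.add (.mul (.g 0) (.mul (.g 20) (.pp [(1, 308166000)]))) (.mul
    (.g 7) (.pp [(1, 126426000000)]))) (.add (.mul (.g 9) (.pp [(1, 12776550000)])) (.mul (.g 12) (.pp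
    [(1, 13584000000)])))) (.add (.add (.mul (.g 13) (.mul (.g 18) (.pp [(1, 14139000000)]))) (.mul
    (.g 16) (.mul (.g 21) (.pp [(1, 1575480000)])))) (.add (.mul (.g 19) (.mul (.g 19) (.pp [(1,
    38991000000)]))) (.mul (.g 22) (.pp [(1, 1251120000)]))))))) (.add (.mul (.g 22) (.add (.add (.add
    (.mul (.pp [(1, 8076)]) (.sq [(1, 34), (2, 34), (3, -100), (5, -91), (7, 28), (11, 66), (13, -82),
    (19, 5), (23, 84)])) (.mul (.pp [(1, 421032)]) (.sq [(1, 1), (2, -17), (3, -35), (5, 100), (7,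
    13), (11, -19), (13, -4), (19, -7), (23, 1)]))) (.add (.mul (.pp [(1, 154860)]) (.sq [(2, 8), (3,
    30), (5, 100), (7, -34), (11, 38), (13, -64), (19, -22), (23, 1)])) (.add (.mul (.pp [(1,
    277932)]) (.sq [(2, 100), (3, 79), (5, 57), (7, -3), (11, 69), (13, 46), (19, -39), (23, -34)]))
    (.mul (.g 6) (.add (.pp [(1, 3266880000)]) (.add (.mul (.g 12) (.pp [(1, 609120000)])) (.mul (.g
    19) (.pp [(1, 4425480000)])))))))) (.add (.add (.mul (.g 5) (.add (.mul (.g 0) (.pp [(1,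
    3537642000)])) (.mul (.g 15) (.pp [(1, 921096000)])))) (.add (.mul (.g 13) (.add (.mul (.g 13)
    (.pp [(1, 2791440000)])) (.mul (.g 15) (.pp [(1, 814968000)])))) (.mul (.g 7) (.mul (.g 16) (.pp
    [(1, 6858600000)]))))) (.add (.mul (.g 12) (.mul (.g 18) (.pp [(1, 8566080000)]))) (.add (.mul (.g
    19) (.mul (.g 19) (.pp [(1, 10822320000)]))) (.mul (.g 22) (.mul (.g 22) (.pp [(1,
    176208000)])))))))) (.mul (.g 5) (.add (.add (.add (.mul (.pp [(1, 4414740)]) (.sq [(1, 1), (2,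
    57), (3, 22), (5, -27), (7, 100), (11, 37), (13, -70), (19, -58), (23, -1)])) (.mul (.pp [(1,
    67140)]) (.sq [(2, 25), (3, 5), (5, -27), (7, 2), (11, -63), (13, 100), (19, -21), (23, -27)])))
    (.add (.mul (.pp [(1, 2800560)]) (.sq [(2, 15), (3, 3), (5, 81), (7, -100), (11, -38), (13, 5),
    (19, 15), (23, 19)])) (.mul (.pp [(1, 5194740)]) (.sq [(1, -31), (2, 14), (3, 35), (5, 32), (7,
    11), (11, 70), (13, 97), (19, -32), (23, -100)])))) (.add (.add (.mul (.pp [(1, 488040)]) (.sq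
    [(2, -48), (3, -100), (5, -22), (7, 66), (11, 62), (13, -36), (19, 23), (23, -21)])) (.mul (.pp
    [(1, 1335060)]) (.sq [(1, 9), (2, 40), (3, -100), (11, 45), (13, 73), (19, -58)]))) (.add (.mul
    (.g 15) (.add (.mul (.g 11) (.pp [(1, 13028040000)])) (.mul (.g 16) (.pp [(1, 15503400000)]))))
    (.add (.mul (.g 0) (.mul (.g 4) (.pp [(1, 5554830000)]))) (.mul (.g 20) (.mul (.g 21) (.pp [(1,
    1466784000)])))))))))) (.add (.mul (.g 6) (.add (.add (.mul (.pp [(1, 762480)]) (.sq [(1, -9), (2,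
    -89), (3, 71), (5, 4), (7, -12), (11, 100), (13, 48), (19, -91), (23, 24)])) (.mul (.g 7) (.add
    (.mul (.g 15) (.pp [(1, 2509920000)])) (.add (.mul (.g 16) (.pp [(1, 17848800000)])) (.mul (.g 18)
    (.pp [(1, 56509200000)])))))) (.add (.mul (.g 6) (.add (.mul (.g 9) (.pp [(1, 251280000)])) (.mul
    (.g 15) (.pp [(1, 36642000000)])))) (.add (.mul (.g 12) (.mul (.g 13) (.pp [(1, 59010000000)])))
    (.mul (.g 18) (.mul (.g 19) (.pp [(1, 1324200000)]))))))) (.add (.mul (.g 13) (.add (.add (.mul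
    (.pp [(1, 1301820)]) (.sq [(2, 37), (3, 73), (5, -100), (7, -38), (11, 17), (13, 9), (19, 11),
    (23, 72)])) (.add (.mul (.pp [(1, 1965600)]) (.sq [(1, -1), (2, -56), (3, 20), (5, -14), (7, -45),
    (11, 28), (13, 100), (19, -1), (23, -23)])) (.mul (.pp [(1, 1312980)]) (.sq [(1, 3), (2, -8), (3,
    100), (5, -29), (7, 4), (11, 1), (13, -94), (19, -1), (23, 21)])))) (.add (.mul (.pp [(1,
    4538400000)]) (.sq [(3, 1), (11, -1)])) (.add (.mul (.pp [(1, 1034100)]) (.sq [(2, 100), (3, -1),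
    (5, -10), (7, 1), (11, -93), (13, -6), (19, 98), (23, -100)])) (.mul (.pp [(1, 1414620)]) (.sq
    [(1, -54), (2, 1), (3, -24), (5, 72), (7, -10), (11, 63), (13, -100), (19, 42), (23, 53)]))))))
    (.mul (.g 12) (.add (.add (.mul (.pp [(1, 3709860)]) (.sq [(2, -71), (3, 100), (5, -11), (7, 14),
    (11, -77), (13, -44), (19, 15), (23, 15)])) (.mul (.pp [(1, 2849100)]) (.sq [(1, -69), (2, 17),
    (3, 20), (5, -25), (7, 13), (11, -10), (13, 100), (19, -55), (23, 54)]))) (.add (.mul (.pp [(1,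
    714240)]) (.sq [(1, 31), (2, -13), (3, -36), (5, 100), (7, 4), (11, 27), (13, -89), (19, -47),
    (23, 8)])) (.add (.mul (.pp [(1, 1915920)]) (.sq [(2, -81), (3, 37), (7, -35), (11, 24), (13,
    -55), (19, -17), (23, 100)])) (.mul (.pp [(1, 3389700)]) (.sq [(1, 25), (2, -24), (3, 40), (5,
    -8), (7, 100), (11, -39), (13, -61), (19, -89), (23, 13)])))))))))) (.add (.add (.add (.mul (.g 4)
    (.add (.add (.mul (.pp [(1, 3056880)]) (.sq [(1, 25), (2, 13), (3, 47), (5, -35), (7, -8), (11,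
    -38), (13, 100), (19, -83), (23, 14)])) (.mul (.pp [(1, 1057620)]) (.sq [(2, -7), (3, -7), (5,
    89), (7, 58), (11, -7), (19, -100), (23, 1)]))) (.add (.mul (.pp [(1, 856500)]) (.sq [(1, 2), (2,
    12), (3, 100), (5, 30), (7, 4), (11, -21), (13, -5), (19, -65), (23, 37)])) (.mul (.pp [(1,
    5536080)]) (.sq [(1, -47), (2, -47), (3, 22), (5, 84), (7, -26), (11, -31), (13, 100), (19, 27),
    (23, -64)]))))) (.mul (.g 7) (.add (.mul (.pp [(1, 1855080)]) (.sq [(1, -11), (2, -2), (3, 33),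
    (5, -11), (7, -11), (11, 100), (13, -10), (19, 18), (23, 43)])) (.add (.mul (.g 18) (.add (.mul
    (.g 0) (.pp [(1, 1083780000)])) (.mul (.g 19) (.pp [(1, 29677200000)])))) (.mul (.g 7) (.mul (.g
    9) (.pp [(1, 2949030000)]))))))) (.add (.mul (.g 21) (.add (.add (.mul (.pp [(1, 1250532)]) (.sq
    [(1, -16), (2, -56), (3, 64), (5, -22), (7, 21), (11, -100), (13, 20), (19, -12), (23, 6)])) (.mul
    (.pp [(1, 98724)]) (.sq [(2, -22), (3, 100), (5, -25), (7, 2), (11, -12), (13, 9), (19, -19), (23,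
    23)]))) (.add (.mul (.pp [(1, 34836)]) (.sq [(2, 32), (3, 35), (5, -7), (7, 76), (11, 100), (13,
    5), (19, 4), (23, -81)])) (.mul (.g 18) (.mul (.g 18) (.pp [(1, 55584960000)])))))) (.add (.mul
    (.g 20) (.add (.mul (.pp [(1, 1421880)]) (.sq [(1, -18), (2, -43), (3, 47), (5, 53), (7, -24),
    (11, -26), (13, 100), (19, -10), (23, -34)])) (.add (.mul (.pp [(1, 41868)]) (.sq [(1, -12), (2,
    36), (3, -30), (5, -91), (7, 94), (11, -43), (13, -30), (19, 94), (23, -100)])) (.mul (.pp [(1,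
    753852)]) (.sq [(1, -84), (2, 58), (3, 59), (5, -79), (7, -11), (11, 18), (13, 100), (19, -1),
    (23, 56)]))))) (.mul (.g 9) (.add (.mul (.pp [(1, 69201)]) (.sq [(1, -27), (2, -9), (3, 1), (5,
    100), (7, -33), (11, -21), (13, 86), (19, -21), (23, -22)])) (.mul (.pp [(1, 132462)]) (.sq [(1,
    -27), (2, -14), (3, 80), (5, -47), (7, 13), (11, -100), (13, 25), (19, 18), (23, -11)])))))))
    (.add (.add (.mul (.g 11) (.add (.mul (.pp [(1, 2240400)]) (.sq [(1, 8), (2, 60), (3, 100), (5,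
    -35), (7, 3), (11, -63), (13, -79), (19, -19), (23, 78)])) (.mul (.pp [(1, 387120)]) (.sq [(1, 9),
    (2, 56), (3, 50), (5, 30), (7, -56), (11, 100), (13, -23), (19, -32), (23, 43)])))) (.add (.mul
    (.g 0) (.mul (.pp [(1, 217266)]) (.sq [(1, 6), (2, 1), (3, -8), (5, -11), (7, -41), (11, -57),
    (13, 100), (19, 70), (23, -80)]))) (.mul (.g 3) (.mul (.pp [(1, 2573460)]) (.sq [(1, -80), (2,
    -19), (3, -73), (5, -21), (7, 47), (11, 14), (13, 100), (19, -72), (23, 84)]))))) (.add (.mul (.g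
    16) (.mul (.pp [(1, 625860)]) (.sq [(1, -67), (3, -61), (5, 80), (7, 8), (11, 39), (13, 100), (19,
    -55), (23, 36)]))) (.add (.mul (.g 18) (.mul (.pp [(1, 1542960)]) (.sq [(1, 21), (2, -52), (3,
    75), (5, -36), (7, -10), (11, -100), (13, 63), (19, -86), (23, 69)]))) (.mul (.g 19) (.mul (.pp
    [(1, 977520)]) (.sq [(1, 11), (2, 80), (3, 23), (5, 100), (7, -9), (11, -6), (13, -98), (19, -19),
    (23, 12)])))))))) (.pp [(1, 6150716205), (2, 5388978), (3, 5929494), (4, 6144873), (5, 6495348),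
    (6, 5428050), (7, 6563130), (8, 5797560), (9, 6179031), (10, 6879084), (11, 6561606), (12,
    5929800), (13, 6311388), (14, 6939066), (15, 5713440), (18, 6032580), (19, 6145686), (20,
    7408560), (21, 5384730), (22, 5703354), (23, 5276184), (25, 6342096), (26, 5159028), (27,
    6115860), (28, 5803260), (30, 6498840), (33, 6297306), (35, 6435048), (38, 6176142), (39,
    6000396), (42, 6024720), (44, 6498840), (45, 6296220), (46, 7043604), (49, 6307995), (50,
    6110760), (52, 6186120), (55, 5200932), (57, 6997242), (63, 5461860), (65, 5504244), (66,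
    6025320), (69, 5798628), (70, 5941440), (75, 6940560), (76, 5579340), (77, 5323242), (78,
    6412320), (91, 4820832), (92, 6152400), (95, 4125312), (98, 4384560), (99, 5776960), (105,
    6113640), (110, 5962560), (114, 6214200), (115, 6433356), (117, 6132120), (121, 5311461), (125,
    6392120), (130, 4786200), (133, 7325694), (138, 5798760), (143, 5681580), (147, 6501900), (154,
    6719760), (161, 3915360), (165, 6507240), (169, 6293886), (171, 6286380), (175, 6672000), (182,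
    5296080), (190, 5508240), (195, 6426720), (207, 6201480), (209, 5738070), (230, 5926080), (231,
    5031600), (242, 6058260), (245, 6882660), (247, 5433132), (253, 6185292), (266, 7021080), (273,
    6671760), (275, 5788920), (285, 5376960), (286, 6434640), (299, 6880908), (322, 5845080), (325,
    5781660), (338, 5774160), (343, 6356140), (345, 5539800), (361, 5155239), (363, 5701600), (385,
    6381840), (399, 6146280), (418, 5929440), (429, 6462960), (437, 6209124), (455, 5793000), (475,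
    5468100), (483, 6429240), (494, 7180320), (506, 4643400), (507, 5488320), (529, 6642054), (539,
    5043060), (575, 5245020), (598, 6833400), (605, 6138420), (627, 5522280), (637, 6408000), (665,
    4950480), (715, 6406440), (722, 5627760), (741, 5542320), (759, 6467880), (805, 4661880), (845,
    6707280), (847, 6920580), (874, 5780520), (897, 5887800), (931, 5585400), (1001, 7201800), (1045,
    6503640), (1058, 5727600), (1083, 5246820), (1127, 3312120), (1183, 5351580), (1235, 6595320),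
    (1265, 5585280), (1311, 5779200), (1331, 6048400), (1463, 6145560), (1495, 5928000), (1573,
    6217200), (1587, 6058920), (1729, 5983320), (1771, 7567800), (1805, 6760320), (1859, 5664420),
    (2093, 7158720), (2185, 6968160), (2197, 6026520), (2299, 6236400), (2527, 6550740), (2645,
    6433860), (2717, 5156640), (2783, 5694840), (3059, 7522920), (3211, 6620100), (3289, 5471160),
    (3703, 8493720), (3887, 6105240), (3971, 5659440), (4693, 6096180), (4807, 6866640), (5681,
    4578360), (5819, 5532300), (6859, 6145020), (6877, 5696880), (8303, 5359140), (10051, 5820000),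
    (12167, 5436680)])) (by norm_num)
    (by decide +kernel)

theorem l114le : Ck (gL11 4 (leB 2 5)) (pW (vL1 4 1 (hM (Ex.v 11)))) :=
  .mk' 1000000 (.add (.add (.add (.add (.add (.mul (.pp [(1, 2036640)]) (.sq [(1, 80), (2, -7), (3, -36), (5,
    90), (7, -37), (11, 28), (13, -54), (19, -92), (23, 100)])) (.add (.mul (.pp [(1, 6468840)]) (.sq
    [(1, -47), (2, -34), (3, 17), (5, 68), (7, -19), (11, -40), (13, 100), (19, -18), (23, 22)]))
    (.mul (.pp [(1, 996900)]) (.sq [(1, -9), (2, 68), (3, -29), (5, -29), (7, -38), (11, 71), (13,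
    100), (19, -38)])))) (.add (.mul (.g 15) (.add (.add (.add (.mul (.pp [(1, 314976)]) (.sq [(2,
    15), (3, 52), (5, -27), (7, 18), (11, -19), (13, -96), (19, -31), (23, 100)])) (.add (.mul (.pp
    [(1, 1164384)]) (.sq [(1, -9), (2, 4), (3, -100), (5, -1), (7, 14), (11, 24), (13, -10), (19, 48),
    (23, 32)])) (.mul (.pp [(1, 251868)]) (.sq [(2, 70), (3, 2), (5, -13), (7, 2), (11, -87), (13,
    -100), (19, 13)])))) (.add (.mul (.g 12) (.add (.add (.pp [(1, 3139200000)]) (.add (.mul (.g 9)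
    (.pp [(1, 670602000)])) (.mul (.g 15) (.pp [(1, 369240000)])))) (.add (.mul (.g 19) (.pp [(1,
    6804720000)])) (.add (.mul (.g 20) (.pp [(1, 2196744000)])) (.mul (.g 21) (.pp [(1,
    2472336000)])))))) (.add (.mul (.g 0) (.add (.add (.pp [(1, 1280622000)]) (.mul (.g 3) (.pp [(1,
    281964000)]))) (.add (.mul (.g 11) (.pp [(1, 83952000)])) (.mul (.g 22) (.pp [(1, 102144000)])))))
    (.mul (.g 19) (.add (.add (.pp [(1, 668760000)]) (.mul (.g 10) (.pp [(1, 5400600000)]))) (.add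
    (.mul (.g 19) (.pp [(1, 3975600000)])) (.mul (.g 21) (.pp [(1, 846432000)])))))))) (.add (.add
    (.mul (.g 7) (.add (.mul (.g 3) (.pp [(1, 150590280000)])) (.add (.mul (.g 9) (.pp [(1,
    6354450000)])) (.mul (.g 18) (.pp [(1, 7858080000)]))))) (.add (.mul (.g 4) (.add (.mul (.g 11)
    (.pp [(1, 5106360000)])) (.mul (.g 16) (.pp [(1, 276765720000)])))) (.mul (.g 9) (.add (.mul (.g
    3) (.pp [(1, 5230518000)])) (.mul (.g 13) (.pp [(1, 558216000)])))))) (.add (.mul (.g 8) (.mul (.g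
    15) (.pp [(1, 2837760000)]))) (.add (.mul (.g 13) (.pp [(1, 15693000000)])) (.mul (.g 18) (.mul
    (.g 21) (.pp [(1, 2804328000)])))))))) (.add (.mul (.g 17) (.add (.add (.add (.mul (.pp [(1,
    3958740)]) (.sq [(2, 22), (3, -80), (5, -100), (7, 23), (11, 97), (13, -14), (19, 17), (23, 1)]))
    (.mul (.pp [(1, 3762840)]) (.sq [(1, 2), (2, -19), (3, 100), (5, -49), (7, 41), (11, -31), (13,
    -7), (19, -5), (23, 5)]))) (.add (.mul (.pp [(1, 3257400)]) (.sq [(2, -15), (3, 34), (5, -14), (7,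
    -13), (11, 100), (19, -15), (23, -17)])) (.add (.mul (.pp [(1, 1028700)]) (.sq [(2, -100), (3,
    -98), (5, 83), (7, 4), (11, -95), (13, 63), (19, 66), (23, -38)])) (.mul (.g 8) (.add (.add (.mul
    (.g 4) (.pp [(1, 11469600000)])) (.mul (.g 11) (.pp [(1, 56523000000)]))) (.add (.mul (.g 13) (.pp
    [(1, 13637400000)])) (.add (.mul (.g 17) (.pp [(1, 7960800000)])) (.mul (.g 21) (.pp [(1,
    46133640000)]))))))))) (.add (.add (.mul (.g 12) (.add (.add (.mul (.g 0) (.pp [(1, 1871880000)]))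
    (.mul (.g 10) (.pp [(1, 10326600000)]))) (.add (.mul (.g 11) (.pp [(1, 74247000000)])) (.mul (.g
    13) (.pp [(1, 79275000000)]))))) (.add (.mul (.g 4) (.add (.mul (.g 1) (.pp [(1, 27700800000)]))
    (.add (.mul (.g 11) (.pp [(1, 23852400000)])) (.mul (.g 17) (.pp [(1, 1721400000)]))))) (.mul (.g
    20) (.add (.mul (.g 6) (.pp [(1, 2917440000)])) (.add (.mul (.g 20) (.pp [(1, 522168000)])) (.mul
    (.g 22) (.pp [(1, 2293392000)]))))))) (.add (.mul (.g 19) (.add (.mul (.g 2) (.pp [(1,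
    17511000000)])) (.mul (.g 17) (.pp [(1, 12838800000)])))) (.add (.mul (.g 1) (.mul (.g 18) (.pp
    [(1, 14120400000)]))) (.mul (.g 13) (.mul (.g 13) (.pp [(1, 1765800000)])))))))) (.mul (.g 9)
    (.add (.add (.add (.mul (.pp [(1, 30795)]) (.sq [(1, 26), (2, -53), (3, -27), (5, 100), (7, 38),
    (11, -11), (13, 23), (19, -94), (23, 25)])) (.add (.mul (.pp [(1, 12144)]) (.sq [(1, -3), (2, 32),
    (3, -8), (5, 42), (7, -16), (11, 100), (19, -9), (23, -10)])) (.mul (.pp [(1, 151968)]) (.sq [(2,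
    100), (5, -1), (7, -1), (11, -100), (23, 2)])))) (.add (.mul (.pp [(1, 187980)]) (.sq [(2, 86),
    (3, -100), (5, -23), (7, -23), (11, 86), (13, -23), (19, -23), (23, -23)])) (.add (.mul (.pp [(1,
    214017)]) (.sq [(1, -39), (2, -38), (3, -59), (5, 100), (7, 30), (11, -28), (13, -1), (19, 24),
    (23, 2)])) (.mul (.pp [(1, 155547)]) (.sq [(1, -2), (2, -35), (3, -26), (5, 1), (7, 20), (11,
    -28), (13, 6), (19, -31), (23, 100)]))))) (.add (.add (.mul (.g 0) (.add (.add (.mul (.g 5) (.pp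
    [(1, 46408500)])) (.mul (.g 6) (.pp [(1, 1159996500)]))) (.add (.mul (.g 8) (.pp [(1, 297000)]))
    (.mul (.g 22) (.pp [(1, 187446900)]))))) (.add (.mul (.g 6) (.add (.pp [(1, 16422120000)]) (.add
    (.mul (.g 2) (.pp [(1, 5299290000)])) (.mul (.g 10) (.pp [(1, 4156230000)]))))) (.mul (.g 12)
    (.add (.mul (.g 4) (.pp [(1, 752010000)])) (.add (.mul (.g 7) (.pp [(1, 554910000)])) (.mul (.g
    19) (.pp [(1, 388350000)]))))))) (.add (.mul (.g 8) (.add (.mul (.g 4) (.pp [(1, 365400000)]))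
    (.mul (.g 8) (.pp [(1, 8624460000)])))) (.add (.mul (.g 18) (.add (.mul (.g 21) (.pp [(1,
    2563746000)])) (.mul (.g 22) (.pp [(1, 270648000)])))) (.mul (.g 13) (.mul (.g 21) (.pp [(1,
    180018000)]))))))))))) (.add (.add (.mul (.g 1) (.add (.add (.add (.mul (.pp [(1, 1711440)]) (.sq
    [(2, -34), (3, 50), (5, -16), (7, -15), (11, 3), (13, 39), (19, -43), (23, -11)])) (.mul (.pp [(1,
    1336860)]) (.sq [(2, -52), (3, 90), (5, 100), (7, 5), (11, -72), (13, -38), (19, -34), (23,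
    -1)]))) (.add (.mul (.pp [(1, 739380)]) (.sq [(2, 57), (3, 30), (5, 100), (7, 17), (11, -22), (13,
    37), (19, -11), (23, -42)])) (.add (.mul (.pp [(1, 2131140)]) (.sq [(2, -30), (3, 94), (7, -100),
    (11, -44), (13, 19), (19, 13), (23, -2)])) (.mul (.pp [(1, 3660)]) (.sq [(2, 2), (3, 29), (5, -1),
    (7, -31), (11, 100), (13, 1), (19, 30), (23, -32)]))))) (.add (.add (.mul (.pp [(1, 1489200)])
    (.sq [(1, -4), (2, -85), (3, -76), (5, -28), (7, -35), (11, 3), (13, 100), (19, -53), (23, 2)]))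
    (.add (.mul (.g 19) (.add (.add (.pp [(1, 55236000000)]) (.mul (.g 4) (.pp [(1, 14816400000)])))
    (.add (.mul (.g 8) (.pp [(1, 318876000000)])) (.add (.mul (.g 12) (.pp [(1, 131971200000)])) (.mul
    (.g 18) (.pp [(1, 56299200000)])))))) (.mul (.g 0) (.add (.add (.mul (.g 0) (.pp [(1,
    357360000)])) (.mul (.g 2) (.pp [(1, 1520070000)]))) (.add (.mul (.g 20) (.pp [(1, 671562000)]))
    (.mul (.g 22) (.pp [(1, 2851092000)]))))))) (.add (.mul (.g 4) (.add (.pp [(1, 96582000000)])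
    (.add (.mul (.g 4) (.pp [(1, 90873000000)])) (.mul (.g 8) (.pp [(1, 651870000000)]))))) (.add
    (.mul (.g 7) (.mul (.g 10) (.pp [(1, 18711000000)]))) (.mul (.g 12) (.mul (.g 12) (.pp [(1,
    20901600000)])))))))) (.add (.mul (.g 6) (.add (.add (.add (.mul (.pp [(1, 801420)]) (.sq [(2,
    70), (3, -84), (5, -17), (7, -12), (11, 49), (13, -85), (19, 100), (23, -44)])) (.mul (.pp [(1,
    5676720)]) (.sq [(2, -17), (3, -12), (5, 14), (7, -8), (11, -8), (13, 50), (19, 13), (23, -15)])))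
    (.add (.mul (.g 0) (.add (.pp [(1, 4272000000)]) (.add (.mul (.g 4) (.pp [(1, 32979270000)]))
    (.mul (.g 12) (.pp [(1, 2541990000)]))))) (.mul (.g 2) (.add (.mul (.g 6) (.pp [(1,
    718931400000)])) (.mul (.g 20) (.pp [(1, 6963360000)])))))) (.add (.add (.mul (.g 4) (.add (.pp
    [(1, 515562000000)]) (.mul (.g 6) (.pp [(1, 13975200000)])))) (.mul (.g 11) (.add (.mul (.g 13)
    (.pp [(1, 10632000000)])) (.mul (.g 22) (.pp [(1, 2421480000)]))))) (.add (.mul (.g 18) (.pp [(1,
    9166200000)])) (.mul (.g 22) (.pp [(1, 8726880000)])))))) (.mul (.g 22) (.add (.add (.add (.mul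
    (.pp [(1, 860340)]) (.sq [(2, -2), (3, -45), (5, 100), (7, 10), (11, -46), (13, -5), (19, 14),
    (23, -32)])) (.mul (.pp [(1, 190224)]) (.sq [(2, -83), (3, -100), (5, -11), (7, 96), (11, 74),
    (13, 20), (19, -46), (23, 49)]))) (.add (.mul (.pp [(1, 118992)]) (.sq [(2, -41), (3, -40), (5,
    -100), (7, -8), (11, -9), (13, 39), (19, 95), (23, 2)])) (.mul (.pp [(1, 303036)]) (.sq [(2, 100),
    (3, -71), (5, 5), (7, 2), (11, 26), (13, 6), (19, 7), (23, -44)])))) (.add (.add (.mul (.g 0)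
    (.add (.mul (.g 11) (.pp [(1, 657336000)])) (.mul (.g 18) (.pp [(1, 487596000)])))) (.mul (.g 13)
    (.mul (.g 21) (.pp [(1, 312576000)])))) (.add (.mul (.g 18) (.mul (.g 18) (.pp [(1,
    2847240000)]))) (.add (.mul (.g 19) (.mul (.g 19) (.pp [(1, 4299720000)]))) (.mul (.g 22) (.mul
    (.g 22) (.pp [(1, 257121600)])))))))))) (.add (.mul (.g 13) (.add (.add (.add (.mul (.pp [(1,
    291780)]) (.sq [(1, -3), (2, 100), (3, 24), (5, 10), (7, 33), (11, 34), (13, -59), (19, -12), (23,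
    -11)])) (.mul (.pp [(1, 990720)]) (.sq [(2, 59), (3, -47), (5, -39), (7, 100), (11, 3), (13, -83),
    (19, -19)]))) (.add (.mul (.pp [(1, 1068000000)]) (.sq [(3, 1), (11, -1)])) (.mul (.pp [(1,
    40486800000)]) (.sq [(7, 1), (19, -1)])))) (.add (.add (.mul (.pp [(1, 1056960)]) (.sq [(2, 23),
    (3, 97), (5, -19), (7, -29), (11, 48), (13, 100), (19, -20), (23, 3)])) (.mul (.pp [(1, 1606800)])
    (.sq [(2, -35), (3, -58), (5, -72), (7, -26), (11, 100), (13, 13), (23, 95)]))) (.add (.mul (.pp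
    [(1, 3760980)]) (.sq [(1, 14), (2, 10), (3, -18), (5, -12), (7, -16), (11, -26), (13, 100), (19,
    -18), (23, 25)])) (.mul (.g 10) (.mul (.g 13) (.pp [(1, 10835400000)]))))))) (.add (.mul (.g 12)
    (.add (.add (.mul (.pp [(1, 325740)]) (.sq [(1, -100), (2, -40), (3, 72), (5, 16), (7, 10), (11,
    -70), (13, 58), (19, 70), (23, -55)])) (.add (.mul (.pp [(1, 1183740)]) (.sq [(2, 28), (3, 59),
    (5, -70), (7, -23), (11, -100), (13, 23), (19, -9), (23, 97)])) (.mul (.pp [(1, 2165280)]) (.sq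
    [(1, -5), (2, -69), (3, -30), (5, 52), (7, 100), (11, -75), (13, -32), (19, -49), (23, 51)]))))
    (.add (.add (.mul (.pp [(1, 1327140)]) (.sq [(2, -60), (3, -5), (5, -61), (7, -20), (11, 100),
    (13, -34), (19, -38), (23, 100)])) (.mul (.pp [(1, 636600)]) (.sq [(2, -90), (3, 95), (5, -100),
    (7, 75), (11, 15), (13, -51), (19, 13), (23, -56)]))) (.add (.mul (.pp [(1, 17400)]) (.sq [(2,
    100), (3, 8), (5, 74), (7, 36), (11, -88), (13, -15), (19, -16), (23, 3)])) (.mul (.g 12) (.mul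
    (.g 12) (.pp [(1, 49428000000)]))))))) (.mul (.g 21) (.add (.add (.mul (.pp [(1, 1177308)]) (.sq
    [(1, 8), (2, -16), (3, 100), (5, -40), (7, 13), (11, -67), (13, -11), (19, 21)])) (.mul (.pp [(1,
    457524)]) (.sq [(2, 25), (3, -27), (5, -98), (7, 100), (11, 4), (13, -72), (19, -11), (23, 51)])))
    (.add (.mul (.pp [(1, 13788)]) (.sq [(1, -25), (2, -16), (3, 76), (5, -25), (7, -45), (11, -29),
    (13, 100), (19, 1), (23, -31)])) (.add (.mul (.g 21) (.add (.mul (.g 8) (.pp [(1, 3298680000)]))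
    (.mul (.g 21) (.pp [(1, 947193600)])))) (.mul (.g 18) (.mul (.g 18) (.pp [(1,
    24912600000)]))))))))))) (.add (.add (.add (.mul (.g 4) (.add (.add (.mul (.pp [(1, 525060)]) (.sq
    [(1, -30), (2, 100), (3, -93), (5, 50), (7, 38), (11, 72), (13, -82), (19, -12), (23, 98)])) (.mul
    (.pp [(1, 274020)]) (.sq [(2, 19), (3, 36), (5, -55), (7, 2), (11, -8), (13, 100), (19, -5), (23,
    -90)]))) (.add (.mul (.pp [(1, 901140)]) (.sq [(1, 44), (2, 7), (3, 100), (5, 40), (7, 8), (11,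
    32), (13, -46), (19, -97), (23, 3)])) (.mul (.pp [(1, 750540)]) (.sq [(1, -1), (2, -42), (3, -31),
    (5, 100), (7, 47), (11, -51), (13, -83), (19, 29), (23, -84)]))))) (.add (.mul (.g 20) (.add (.add
    (.mul (.pp [(1, 560388)]) (.sq [(1, 38), (2, -1), (3, 3), (5, 100), (7, -47), (11, -76), (13,
    -63), (19, 25), (23, 82)])) (.mul (.pp [(1, 171744)]) (.sq [(1, -51), (2, -64), (3, 18), (5, 29),
    (7, -50), (11, 100), (13, 84), (19, -27), (23, -5)]))) (.add (.mul (.pp [(1, 1120068)]) (.sq [(1,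
    -58), (2, 54), (3, -20), (5, 63), (7, -45), (11, 22), (13, 100), (19, 7), (23, 20)])) (.mul (.pp
    [(1, 19680960000)]) (.sq [(3, 1), (11, -1)]))))) (.mul (.g 3) (.add (.mul (.pp [(1, 1602540)])
    (.sq [(1, -7), (2, 81), (3, -45), (5, -21), (7, -9), (11, 83), (13, -24), (19, -28), (23, 100)]))
    (.add (.mul (.pp [(1, 393960)]) (.sq [(2, -45), (3, 100), (5, -75), (7, -4), (11, 64), (13, 84),
    (19, -53), (23, 11)])) (.mul (.pp [(1, 828000)]) (.sq [(2, -18), (3, -93), (5, -27), (7, 14), (11,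
    -26), (13, 72), (19, -19), (23, 100)]))))))) (.add (.mul (.g 8) (.add (.mul (.pp [(1, 2793360)])
    (.sq [(1, 41), (2, 6), (3, -10), (5, 5), (7, -82), (11, 7), (13, 27), (19, -19), (23, 100)]))
    (.add (.mul (.pp [(1, 3827040)]) (.sq [(2, 100), (3, 100), (5, -36), (7, -36), (11, 100), (19,
    -36), (23, -35)])) (.mul (.pp [(1, 310140)]) (.sq [(2, 43), (3, 100), (5, -23), (7, -23), (11,
    43), (13, -23), (19, -23), (23, -23)]))))) (.add (.mul (.g 19) (.add (.mul (.pp [(1, 1480560)])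
    (.sq [(1, -1), (2, 100), (3, -19), (5, 37), (7, -51), (11, 60), (13, 27), (19, -31), (23, 16)]))
    (.add (.mul (.pp [(1, 361260)]) (.sq [(1, -41), (2, 21), (3, -5), (5, 44), (7, 77), (11, 4), (13,
    -90), (19, 38), (23, -100)])) (.mul (.pp [(1, 723960)]) (.sq [(2, -22), (3, -77), (5, -6), (7,
    -100), (11, 20), (13, 98), (19, 46), (23, -28)]))))) (.mul (.g 7) (.add (.mul (.pp [(1, 550920)])
    (.sq [(2, 57), (3, -98), (5, -100), (7, -24), (11, 79), (13, 63), (19, 3), (23, -69)])) (.mul (.pp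
    [(1, 2948700)]) (.sq [(1, 1), (2, 40), (3, 100), (5, 1), (7, -22), (11, 26), (13, -50), (19, 19),
    (23, 10)]))))))) (.add (.add (.mul (.g 0) (.mul (.pp [(1, 32049)]) (.sq [(1, -20), (2, 9), (3,
    -22), (5, 100), (7, 55), (11, 35), (13, -70), (19, -26), (23, -58)]))) (.add (.mul (.g 5) (.mul
    (.pp [(1, 437460)]) (.sq [(2, 34), (3, -69), (5, -100), (7, -7), (11, 58), (13, 50), (19, 26),
    (23, -29)]))) (.mul (.g 10) (.mul (.pp [(1, 1176780)]) (.sq [(2, -37), (3, 76), (5, 100), (7, -1),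
    (11, -46), (13, -52), (19, -5), (23, 18)]))))) (.add (.add (.mul (.g 11) (.mul (.pp [(1, 390480)])
    (.sq [(2, 40), (3, 55), (5, -99), (7, 86), (11, 26), (13, -26), (19, -91), (23, 100)]))) (.mul (.g
    14) (.pp [(1, 2822497)]))) (.add (.mul (.g 16) (.mul (.pp [(1, 377280)]) (.sq [(1, 31), (2, 11),
    (3, -69), (5, 75), (7, 79), (11, 15), (13, -100), (19, -50), (23, -30)]))) (.mul (.g 18) (.mul
    (.pp [(1, 729540)]) (.sq [(2, -91), (3, -73), (5, -9), (7, -12), (11, 48), (13, 100), (19, -64),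
    (23, -4)])))))))) (.pp [(1, 52175700399), (2, 6482784), (3, 5743278), (4, 5112975), (5, 6044292),
    (6, 6217578), (7, 5119500), (8, 6436260), (9, 7054032), (10, 4345314), (11, 6153600), (12,
    6414120), (13, 5822178), (14, 5781426), (15, 7281852), (18, 6643140), (19, 6396708), (20,
    5724900), (21, 5309676), (22, 7076916), (23, 6980256), (25, 5605749), (26, 5850534), (27,
    5753760), (28, 5286720), (30, 5581200), (33, 5455374), (35, 5785104), (38, 5716986), (39,
    6167736), (42, 6909000), (44, 6612300), (45, 5605860), (46, 6326106), (49, 5886849), (50,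
    6086640), (52, 6793800), (55, 6168792), (57, 5643096), (63, 5576520), (65, 5874252), (66,
    5847000), (69, 6381534), (70, 6218760), (75, 5510160), (76, 5566860), (77, 5526390), (78,
    5834280), (91, 5536020), (92, 6276360), (95, 5168130), (98, 5921160), (99, 5625280), (105,
    5995080), (110, 5525640), (114, 5643360), (115, 6178656), (117, 6107640), (121, 5963490), (125,
    6016460), (130, 6802920), (133, 7580268), (138, 5163120), (143, 7080042), (147, 5965440), (154,
    5186280), (161, 7239624), (165, 6530280), (169, 6879552), (171, 5689020), (175, 6111240), (182,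
    6426120), (190, 7123920), (195, 4528800), (207, 6216480), (209, 6006648), (230, 6110640), (231,
    7394280), (242, 5591640), (245, 6487020), (247, 5968656), (253, 6324198), (266, 7074600), (273,
    7092480), (275, 5789040), (285, 5603760), (286, 4983960), (299, 4936338), (322, 5665080), (325,
    6677700), (338, 6276420), (343, 5888760), (345, 6456480), (361, 5604177), (363, 5353360), (385,
    6305520), (399, 5820600), (418, 6446520), (429, 6048360), (437, 4706076), (455, 5686080), (475,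
    6098160), (483, 6650760), (494, 5348520), (506, 6621840), (507, 5334180), (529, 5429565), (539,
    6478260), (575, 6148800), (598, 5996520), (605, 6403080), (627, 6161880), (637, 6618840), (665,
    5765760), (715, 5631240), (722, 5665980), (741, 5456280), (759, 5501280), (805, 4767960), (845,
    6490260), (847, 6120060), (874, 6089880), (897, 6121920), (931, 6520080), (1001, 5560200), (1045,
    6637560), (1058, 6107340), (1083, 6516660), (1127, 4951800), (1183, 6047580), (1235, 6101640),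
    (1265, 6284520), (1311, 5790240), (1331, 6165520), (1463, 6037320), (1495, 5635920), (1573,
    6136680), (1587, 5064360), (1729, 4752720), (1771, 5698200), (1805, 5832660), (1859, 5536260),
    (2093, 7372200), (2185, 6754440), (2197, 5450040), (2299, 5471880), (2527, 4494240), (2645,
    6845760), (2717, 5210520), (2783, 5684700), (3059, 6089640), (3211, 5965380), (3289, 6372360),
    (3703, 6720060), (3887, 6105660), (3971, 5905800), (4693, 7125900), (4807, 5953560), (5681,
    4644120), (5819, 5760000), (6859, 6610840), (6877, 5773800), (8303, 6528600), (10051, 6028560),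
    (12167, 6198880)])) (by norm_num)
    (by decide +kernel)

theorem l114ge : Ck (gL11 4 (geB 2 5)) (pW (vL1 4 1 (hM (Ex.v 11)))) :=
  .mk' 1000000 (.add (.add (.add (.add (.add (.mul (.pp [(1, 204420)]) (.sq [(1, -70), (2, -34), (3, 34), (5,
    -49), (7, 100), (11, -21), (13, -6), (19, -56), (23, 63)])) (.mul (.g 17) (.add (.add (.add (.mul
    (.g 22) (.add (.add (.add (.pp [(1, 11643000000)]) (.mul (.g 1) (.pp [(1, 25103160000)]))) (.add
    (.mul (.g 6) (.pp [(1, 19684320000)])) (.mul (.g 7) (.pp [(1, 24670920000)])))) (.add (.add (.mul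
    (.g 8) (.pp [(1, 3575160000)])) (.mul (.g 12) (.pp [(1, 5353080000)]))) (.add (.mul (.g 13) (.pp
    [(1, 5897280000)])) (.add (.mul (.g 18) (.pp [(1, 5824080000)])) (.mul (.g 22) (.pp [(1,
    304104000)]))))))) (.mul (.g 8) (.add (.add (.mul (.g 1) (.pp [(1, 59119200000)])) (.add (.mul (.g
    4) (.pp [(1, 128986800000)])) (.mul (.g 8) (.pp [(1, 6595800000)])))) (.add (.add (.mul (.g 12)
    (.pp [(1, 22897200000)])) (.mul (.g 15) (.pp [(1, 17907840000)]))) (.add (.mul (.g 20) (.pp [(1,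
    1506960000)])) (.mul (.g 21) (.pp [(1, 15249840000)]))))))) (.add (.mul (.g 13) (.add (.add (.mul
    (.g 1) (.pp [(1, 89083200000)])) (.add (.mul (.g 5) (.pp [(1, 55860600000)])) (.mul (.g 7) (.pp
    [(1, 38531400000)])))) (.add (.mul (.g 12) (.pp [(1, 12319200000)])) (.add (.mul (.g 20) (.pp [(1,
    8989920000)])) (.mul (.g 21) (.pp [(1, 3462240000)])))))) (.mul (.g 18) (.add (.add (.mul (.g 0)
    (.pp [(1, 5564970000)])) (.mul (.g 6) (.pp [(1, 10810800000)]))) (.add (.mul (.g 15) (.pp [(1,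
    720480000)])) (.add (.mul (.g 18) (.pp [(1, 1740600000)])) (.mul (.g 20) (.pp [(1,
    8870400000)])))))))) (.add (.add (.mul (.g 15) (.add (.mul (.g 1) (.pp [(1, 21599280000)])) (.add
    (.mul (.g 5) (.pp [(1, 13538640000)])) (.mul (.g 7) (.pp [(1, 6604680000)]))))) (.mul (.g 17)
    (.add (.mul (.g 1) (.pp [(1, 32169600000)])) (.add (.mul (.g 12) (.pp [(1, 41673600000)])) (.mul
    (.g 20) (.pp [(1, 1820280000)])))))) (.add (.mul (.g 6) (.mul (.g 20) (.pp [(1, 5508000000)])))
    (.mul (.g 10) (.mul (.g 12) (.pp [(1, 5418000000)])))))))) (.add (.mul (.g 4) (.add (.add (.add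
    (.mul (.pp [(1, 3535800)]) (.sq [(1, 37), (2, -18), (3, -30), (5, 39), (7, -4), (11, 100), (13,
    16), (19, -30), (23, -25)])) (.add (.mul (.pp [(1, 927360)]) (.sq [(1, 23), (2, -64), (3, 32), (5,
    -10), (7, 53), (11, -14), (13, -100), (19, -14), (23, 2)])) (.mul (.pp [(1, 144177600000)]) (.sq
    [(19, 1), (23, -1)])))) (.add (.mul (.pp [(1, 1560000)]) (.sq [(2, 2), (3, 2), (5, -30), (7, 100),
    (11, 2), (13, 2), (19, -43), (23, -43)])) (.add (.mul (.pp [(1, 4566480)]) (.sq [(1, -24), (2,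
    -10), (3, -41), (5, -56), (7, -35), (11, 6), (13, 100), (19, 11), (23, 16)])) (.mul (.g 1) (.add
    (.add (.mul (.g 4) (.pp [(1, 689400000)])) (.add (.mul (.g 8) (.pp [(1, 630766200000)])) (.mul (.g
    12) (.pp [(1, 164125800000)])))) (.add (.mul (.g 13) (.pp [(1, 76906200000)])) (.add (.mul (.g 18)
    (.pp [(1, 40980000000)])) (.mul (.g 19) (.pp [(1, 320775000000)]))))))))) (.add (.add (.mul (.g 6)
    (.add (.add (.mul (.g 5) (.pp [(1, 51916200000)])) (.mul (.g 10) (.pp [(1, 32304600000)]))) (.add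
    (.mul (.g 12) (.pp [(1, 76659000000)])) (.add (.mul (.g 16) (.pp [(1, 49444200000)])) (.mul (.g
    18) (.pp [(1, 77812200000)])))))) (.add (.mul (.g 8) (.add (.add (.mul (.g 5) (.pp [(1,
    45468000000)])) (.mul (.g 8) (.pp [(1, 136309800000)]))) (.add (.mul (.g 11) (.pp [(1,
    57400800000)])) (.add (.mul (.g 13) (.pp [(1, 17481600000)])) (.mul (.g 19) (.pp [(1,
    27827400000)])))))) (.mul (.g 7) (.add (.add (.mul (.g 0) (.pp [(1, 4893360000)])) (.mul (.g 10)
    (.pp [(1, 70195800000)]))) (.add (.mul (.g 19) (.pp [(1, 35251200000)])) (.mul (.g 20) (.pp [(1,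
    9216000000)]))))))) (.add (.mul (.g 10) (.add (.mul (.g 12) (.pp [(1, 5416800000)])) (.add (.mul
    (.g 18) (.pp [(1, 3336000000)])) (.mul (.g 19) (.pp [(1, 80556000000)]))))) (.add (.mul (.g 5)
    (.mul (.g 20) (.pp [(1, 1407480000)]))) (.mul (.g 18) (.mul (.g 18) (.pp [(1, 4402800000)]))))))))
    (.add (.mul (.g 9) (.add (.add (.add (.mul (.pp [(1, 67272)]) (.sq [(1, -12), (2, -15), (3, -36),
    (5, 100), (7, -33), (11, 33), (13, 17), (19, -41), (23, 28)])) (.mul (.pp [(1, 138540)]) (.sq [(1,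
    33), (2, -5), (3, 8), (5, 75), (7, 22), (11, 100), (13, -71), (19, 15), (23, -71)]))) (.add (.mul
    (.pp [(1, 19686)]) (.sq [(1, -46), (2, 32), (3, 26), (5, -22), (7, -43), (11, 23), (13, 100), (19,
    10), (23, 3)])) (.add (.mul (.g 1) (.add (.add (.mul (.g 9) (.pp [(1, 151258500)])) (.mul (.g 12)
    (.pp [(1, 2950740000)]))) (.add (.mul (.g 18) (.pp [(1, 870450000)])) (.mul (.g 19) (.pp [(1,
    8535930000)]))))) (.mul (.g 7) (.add (.add (.mul (.g 9) (.pp [(1, 269089500)])) (.mul (.g 12) (.pp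
    [(1, 2016300000)]))) (.add (.mul (.g 15) (.pp [(1, 823056000)])) (.mul (.g 21) (.pp [(1,
    430374000)])))))))) (.add (.add (.mul (.g 5) (.add (.mul (.g 0) (.pp [(1, 947346000)])) (.add
    (.mul (.g 12) (.pp [(1, 5080500000)])) (.mul (.g 15) (.pp [(1, 453510000)]))))) (.mul (.g 6) (.add
    (.mul (.g 9) (.pp [(1, 304141500)])) (.add (.mul (.g 15) (.pp [(1, 422736000)])) (.mul (.g 19)
    (.pp [(1, 1635750000)])))))) (.add (.mul (.g 8) (.add (.mul (.g 8) (.pp [(1, 9659100000)])) (.add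
    (.mul (.g 13) (.pp [(1, 685410000)])) (.mul (.g 21) (.pp [(1, 1865340000)]))))) (.add (.mul (.g
    10) (.add (.mul (.g 0) (.pp [(1, 257301000)])) (.mul (.g 13) (.pp [(1, 1568850000)])))) (.mul (.g
    18) (.add (.mul (.g 21) (.pp [(1, 586440000)])) (.mul (.g 22) (.pp [(1, 54012000)]))))))))) (.mul
    (.g 13) (.add (.add (.add (.mul (.pp [(1, 71280)]) (.sq [(1, 4), (2, 5), (3, -17), (5, 17), (7,
    -26), (11, -15), (13, 100), (19, -22), (23, -12)])) (.mul (.pp [(1, 132180)]) (.sq [(1, 4), (2,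
    -3), (3, -100), (5, 93), (7, 11), (11, 18), (13, -48), (19, -14), (23, -7)]))) (.add (.mul (.pp
    [(1, 4284840)]) (.sq [(1, -5), (2, -79), (3, 17), (5, -38), (7, 8), (11, -45), (13, 100), (19,
    -8), (23, -21)])) (.add (.mul (.pp [(1, 1672920)]) (.sq [(1, 14), (2, 20), (3, 54), (5, 100), (7,
    -78), (11, -13), (13, 62), (19, -51), (23, 21)])) (.mul (.pp [(1, 457434000)]) (.sq [(3, 10), (7,
    3), (11, -10), (19, -3)]))))) (.add (.add (.mul (.g 1) (.add (.add (.pp [(1, 2308200000)]) (.mul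
    (.g 0) (.pp [(1, 6395370000)]))) (.add (.mul (.g 3) (.pp [(1, 46108200000)])) (.add (.mul (.g 11)
    (.pp [(1, 19748400000)])) (.mul (.g 22) (.pp [(1, 14308320000)])))))) (.add (.mul (.g 15) (.add
    (.mul (.g 7) (.pp [(1, 563640000)])) (.add (.mul (.g 8) (.pp [(1, 10679280000)])) (.mul (.g 10)
    (.pp [(1, 11822400000)]))))) (.mul (.g 22) (.add (.mul (.g 6) (.pp [(1, 9992280000)])) (.add (.mul
    (.g 8) (.pp [(1, 7528440000)])) (.mul (.g 10) (.pp [(1, 7680720000)]))))))) (.add (.mul (.g 5)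
    (.add (.mul (.g 13) (.pp [(1, 29127000000)])) (.mul (.g 21) (.pp [(1, 4055880000)])))) (.add (.mul
    (.g 6) (.mul (.g 21) (.pp [(1, 5938920000)]))) (.mul (.g 13) (.mul (.g 18) (.pp [(1,
    22258200000)]))))))))))) (.add (.add (.mul (.g 21) (.add (.add (.add (.mul (.pp [(1, 3002688)])
    (.sq [(1, -9), (2, -26), (3, 100), (5, -1), (7, 8), (11, -50), (13, 11), (19, 11), (23, -39)]))
    (.mul (.pp [(1, 46716)]) (.sq [(1, -37), (2, 29), (3, -57), (5, -62), (7, 8), (11, -18), (13,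
    100), (19, 24), (23, -21)]))) (.add (.mul (.pp [(1, 523248)]) (.sq [(1, -37), (2, 52), (3, 100),
    (5, 23), (7, -31), (11, -25), (13, -22), (19, 45), (23, 35)])) (.mul (.pp [(1, 376176)]) (.sq [(1,
    -6), (2, -33), (3, 100), (5, -41), (7, 13), (11, 16), (13, -96), (19, 2), (23, 55)])))) (.add
    (.add (.mul (.pp [(1, 1636548)]) (.sq [(1, -59), (2, -23), (3, 100), (5, 15), (7, -19), (11, -64),
    (13, 71), (19, -6), (23, 23)])) (.mul (.pp [(1, 638064)]) (.sq [(1, -28), (2, -76), (3, -84), (5,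
    6), (7, -50), (11, 39), (13, 100), (19, 36), (23, -22)]))) (.add (.mul (.g 21) (.add (.mul (.g 6)
    (.pp [(1, 192528000)])) (.mul (.g 8) (.pp [(1, 418512000)])))) (.add (.mul (.g 0) (.mul (.g 1)
    (.pp [(1, 674982000)]))) (.mul (.g 7) (.mul (.g 15) (.pp [(1, 170496000)])))))))) (.mul (.g 22)
    (.add (.add (.mul (.pp [(1, 90276)]) (.sq [(1, -62), (2, -37), (3, 57), (5, 100), (7, -2), (11,
    -1), (13, 48), (19, -47), (23, -2)])) (.mul (.pp [(1, 2059188)]) (.sq [(2, -24), (5, 100), (7,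
    -11), (11, 2), (13, 5), (19, -9), (23, -7)]))) (.add (.mul (.g 15) (.add (.add (.mul (.g 1) (.pp
    [(1, 2885880000)])) (.mul (.g 5) (.pp [(1, 3619680000)]))) (.add (.mul (.g 6) (.pp [(1,
    2181576000)])) (.add (.mul (.g 18) (.pp [(1, 663648000)])) (.mul (.g 22) (.pp [(1,
    11467200)])))))) (.mul (.g 0) (.add (.mul (.g 1) (.pp [(1, 1566588000)])) (.mul (.g 22) (.pp [(1,
    148891200)])))))))) (.add (.mul (.g 1) (.add (.add (.mul (.pp [(1, 9785100)]) (.sq [(1, 48), (2,
    10), (3, -42), (5, 100), (7, -64), (11, 45), (13, -9), (19, -22), (23, -7)])) (.mul (.pp [(1,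
    3278700)]) (.sq [(1, -14), (2, -46), (3, -23), (5, -29), (7, -30), (11, 7), (13, 100), (19, -69),
    (23, -42)]))) (.add (.mul (.pp [(1, 4094700)]) (.sq [(1, -33), (2, 52), (3, 79), (5, 100), (7,
    -15), (11, -40), (13, 32), (19, -1), (23, -13)])) (.mul (.g 0) (.add (.mul (.g 3) (.pp [(1,
    7037040000)])) (.add (.mul (.g 11) (.pp [(1, 6696540000)])) (.mul (.g 12) (.pp [(1,
    11547630000)])))))))) (.add (.mul (.g 7) (.add (.add (.mul (.pp [(1, 191760)]) (.sq [(1, -44), (2,
    100), (3, 86), (5, -37), (7, -69), (11, 76), (13, -9), (19, 74), (23, -9)])) (.mul (.pp [(1,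
    687060)]) (.sq [(2, 100), (3, 49), (5, -1), (7, -3), (11, -23), (13, -20), (19, 52), (23, -21)])))
    (.add (.mul (.pp [(1, 111120)]) (.sq [(2, 13), (3, 29), (5, -71), (7, 45), (11, -75), (13, -48),
    (23, 100)])) (.mul (.pp [(1, 2634060)]) (.sq [(1, -20), (2, 40), (3, -76), (5, 31), (7, -30), (11,
    17), (13, 100), (19, 13), (23, -17)]))))) (.mul (.g 8) (.add (.add (.mul (.pp [(1, 1815300)]) (.sq
    [(1, 55), (2, 49), (3, -100), (5, 93), (7, -32), (11, 35), (13, -8), (19, -30), (23, -2)])) (.mul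
    (.pp [(1, 659820)]) (.sq [(1, -64), (2, -11), (3, 100), (5, -24), (7, 33), (11, -36), (13, -26),
    (19, 55), (23, 44)]))) (.add (.mul (.pp [(1, 2706960)]) (.sq [(1, -7), (2, 35), (3, -89), (5,
    -100), (7, 87), (11, -14), (13, -31), (19, 45), (23, 55)])) (.mul (.pp [(1, 7579380)]) (.sq [(1,
    82), (2, 67), (3, -19), (5, 16), (7, -68), (11, 50), (13, -100), (19, 28), (23, 7)]))))))))) (.add
    (.add (.add (.mul (.g 20) (.add (.add (.mul (.pp [(1, 905124)]) (.sq [(1, -47), (2, -7), (3, 45),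
    (5, -32), (7, -2), (11, -72), (13, 100), (19, 15), (23, -8)])) (.mul (.pp [(1, 370140)]) (.sq [(1,
    -16), (2, 19), (3, -54), (5, 98), (7, -54), (11, 14), (13, 100), (19, -65), (23, 5)]))) (.add
    (.mul (.pp [(1, 207372)]) (.sq [(1, 11), (2, -72), (3, -57), (5, 100), (7, -47), (11, 11), (13,
    66), (19, -25), (23, -29)])) (.mul (.pp [(1, 1205100)]) (.sq [(1, -64), (2, 19), (3, -28), (5,
    -4), (7, 17), (13, 100), (19, 1), (23, -5)]))))) (.mul (.g 18) (.add (.mul (.pp [(1, 486660)])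
    (.sq [(1, 6), (2, 100), (3, -14), (5, -25), (7, -9), (11, 12), (13, 18), (19, 84), (23, -86)]))
    (.add (.mul (.pp [(1, 2962080)]) (.sq [(1, 9), (2, -100), (3, -3), (5, 5), (7, 90), (11, -76),
    (13, 20), (19, -94), (23, -19)])) (.mul (.pp [(1, 141300)]) (.sq [(1, 20), (2, 31), (3, 23), (5,
    34), (7, -42), (11, 92), (13, -100), (19, 12), (23, 11)])))))) (.add (.mul (.g 19) (.add (.mul
    (.pp [(1, 1593000)]) (.sq [(2, 3), (3, 100), (5, 22), (7, -8), (11, -98), (13, -6), (19, -4), (23,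
    3)])) (.add (.mul (.pp [(1, 222000)]) (.sq [(1, -100), (2, -57), (3, -82), (5, -89), (7, 49), (11,
    96), (13, 41), (19, 40), (23, 38)])) (.mul (.pp [(1, 699780)]) (.sq [(1, -37), (2, 50), (3, -15),
    (5, -84), (7, -22), (11, 10), (13, 100), (19, 59), (23, -29)]))))) (.add (.mul (.g 5) (.add (.mul
    (.pp [(1, 9681420)]) (.sq [(1, -15), (2, 56), (3, -49), (5, 26), (7, -60), (11, 100), (13, -10),
    (19, 15), (23, 31)])) (.mul (.pp [(1, 4978020)]) (.sq [(1, 3), (2, 40), (3, 30), (5, 100), (7,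
    -65), (11, -8), (13, 53), (19, -30), (23, -35)])))) (.mul (.g 6) (.add (.mul (.pp [(1, 1007820)])
    (.sq [(1, 8), (2, -26), (3, 100), (5, 42), (7, -74), (11, -3), (13, -40), (19, 18), (23, 44)]))
    (.mul (.pp [(1, 5207820)]) (.sq [(1, -36), (2, -29), (3, -22), (5, 17), (7, -19), (11, -18), (13,
    100), (19, 25), (23, -18)]))))))) (.add (.add (.mul (.g 12) (.add (.mul (.pp [(1, 2669160)]) (.sq
    [(1, 40), (2, 24), (3, -28), (5, 100), (7, 13), (11, -41), (13, 26), (19, -82), (23, -42)])) (.mul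
    (.pp [(1, 4975200)]) (.sq [(1, -53), (2, 37), (3, -37), (5, -8), (7, -9), (11, 21), (13, 100),
    (19, 1), (23, -1)])))) (.add (.mul (.g 0) (.mul (.pp [(1, 35901)]) (.sq [(1, -38), (2, 25), (3,
    100), (5, -58), (7, -36), (11, 21), (13, -8), (19, 51), (23, 38)]))) (.mul (.g 2) (.mul (.pp [(1,
    268320)]) (.sq [(1, 15), (2, -79), (3, 100), (5, -36), (7, 63), (11, -57), (13, -59), (19, 36),
    (23, -65)]))))) (.add (.mul (.g 3) (.mul (.pp [(1, 2301000)]) (.sq [(1, -40), (2, 12), (3, -9),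
    (5, 94), (7, -60), (11, 1), (13, 100), (19, -42), (23, 29)]))) (.add (.mul (.g 11) (.mul (.pp [(1,
    3134940)]) (.sq [(1, -32), (2, 42), (3, -27), (5, -100), (7, 69), (11, 30), (13, -20), (19, 17),
    (23, 8)]))) (.mul (.g 14) (.pp [(1, 24944)]))))))) (.pp [(1, 81605352), (2, 6160908), (3,
    6514968), (4, 5672697), (5, 6037044), (6, 6800976), (7, 5617848), (8, 5771880), (9, 5362356), (10,
    6146676), (11, 5516352), (12, 5741220), (13, 5823552), (14, 6221352), (15, 5382264), (18,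
    5817720), (19, 6445896), (20, 5980740), (21, 5879904), (22, 6207234), (23, 5474868), (25,
    5090760), (26, 4618176), (27, 6007560), (28, 5813520), (30, 5091360), (33, 6373512), (35,
    7100808), (38, 6029166), (39, 5133192), (42, 5604240), (44, 6064620), (45, 5683200), (46,
    5477892), (49, 4219926), (50, 5839380), (52, 5716740), (55, 6297036), (57, 6090096), (63,
    6569640), (65, 4772304), (66, 6236640), (69, 6114192), (70, 6299040), (75, 5830320), (76,
    6221400), (77, 7363116), (78, 5453640), (91, 6303360), (92, 6877320), (95, 6982716), (98,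
    6760980), (99, 6491020), (105, 6556320), (110, 6002640), (114, 5831280), (115, 6241752), (117,
    6587820), (121, 5698863), (125, 6078320), (130, 5350680), (133, 7567368), (138, 6363120), (143,
    6629304), (147, 6729840), (154, 6148920), (161, 8998164), (165, 6429000), (169, 6324948), (171,
    5284740), (175, 6161160), (182, 6002040), (190, 6288840), (195, 7193880), (207, 6160440), (209,
    5149086), (230, 5644680), (231, 5215440), (242, 5488740), (245, 6194340), (247, 6419064), (253,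
    5654760), (266, 4139280), (273, 5720640), (275, 6485580), (285, 6346560), (286, 5852160), (299,
    6224496), (322, 5429160), (325, 6479100), (338, 6982800), (343, 6901480), (345, 5544600), (361,
    5270001), (363, 6184000), (385, 5398440), (399, 4344840), (418, 5502240), (429, 5534400), (437,
    4570764), (455, 4605360), (475, 6012240), (483, 5168040), (494, 7124400), (506, 6532320), (507,
    6142500), (529, 5653338), (539, 6531540), (575, 6464760), (598, 6097080), (605, 5724540), (627,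
    5767920), (637, 7715760), (665, 4706640), (715, 6071520), (722, 6375720), (741, 6471960), (759,
    6111120), (805, 5359680), (845, 6927060), (847, 5318040), (874, 6923040), (897, 5744280), (931,
    4496940), (1001, 5472840), (1045, 5670360), (1058, 6143640), (1083, 6472680), (1127, 4228080),
    (1183, 5131080), (1235, 6662760), (1265, 5858400), (1311, 7205760), (1331, 5578660), (1463,
    5695200), (1495, 6226080), (1573, 6765720), (1587, 6004620), (1729, 4968000), (1771, 5341440),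
    (1805, 6121260), (1859, 5901840), (2093, 4459440), (2185, 6002400), (2197, 5928960), (2299,
    6514380), (2527, 7015560), (2645, 5945640), (2717, 6222480), (2783, 6400920), (3059, 7467960),
    (3211, 5611380), (3289, 5323920), (3703, 6604320), (3887, 6559140), (3971, 6322260), (4693,
    6031020), (4807, 6741960), (5681, 6638520), (5819, 6365700), (6859, 5841840), (6877, 6096900),
    (8303, 5596560), (10051, 5515620), (12167, 6104160)])) (by norm_num)
    (by decide +kernel)

theorem g01 : Ck (gG01 []) (pW (vG1 1 (hA (Ex.v 13) (Ex.v 23)))) :=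
  .mk' 500000 (.add (.add (.add (.add (.add (.mul (.pp [(1, 969870)]) (.sq [(1, 21), (2, 100), (3, -89), (5,
    25), (7, -14), (11, -74), (13, 60), (19, -28), (23, -20)])) (.mul (.g 8) (.add (.add (.add (.mul
    (.pp [(1, 181800)]) (.sq [(2, 100), (3, 21), (5, 36), (7, -41), (11, -15), (13, 46), (19, -42),
    (23, 4)])) (.add (.mul (.pp [(1, 2966400)]) (.sq [(2, 100), (3, -18), (5, -18), (7, -18), (11,
    57), (13, -18), (19, -18), (23, -18)])) (.mul (.pp [(1, 635610)]) (.sq [(1, 3), (2, -23), (3, -6),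
    (5, -6), (7, -20), (11, -36), (13, 100), (19, -12), (23, -8)])))) (.add (.mul (.pp [(1, 389580)])
    (.sq [(2, 46), (3, -38), (5, -33), (7, -59), (11, 18), (13, -13), (19, -57), (23, 100)])) (.add
    (.mul (.pp [(1, 866580)]) (.sq [(1, 3), (2, -41), (3, -3), (5, 100), (7, -15), (11, 80), (13, 26),
    (19, 1), (23, -7)])) (.mul (.g 14) (.add (.add (.pp [(1, 52700700000)]) (.add (.mul (.g 2) (.pp
    [(1, 23281500000)])) (.mul (.g 8) (.pp [(1, 65742600000)])))) (.add (.add (.mul (.g 16) (.pp [(1,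
    28130700000)])) (.mul (.g 17) (.pp [(1, 807600000)]))) (.add (.mul (.g 18) (.pp [(1,
    6001200000)])) (.mul (.g 19) (.pp [(1, 49365900000)]))))))))) (.add (.add (.mul (.g 8) (.add (.add
    (.mul (.g 3) (.pp [(1, 103331400000)])) (.mul (.g 9) (.pp [(1, 48771000000)]))) (.add (.mul (.g
    17) (.pp [(1, 142079700000)])) (.mul (.g 19) (.pp [(1, 21386700000)]))))) (.add (.mul (.g 11)
    (.add (.mul (.g 4) (.pp [(1, 812055000)])) (.add (.mul (.g 7) (.pp [(1, 573840000)])) (.mul (.g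
    21) (.pp [(1, 223677000)]))))) (.mul (.g 20) (.add (.pp [(1, 24367080000)]) (.add (.mul (.g 9)
    (.pp [(1, 3049380000)])) (.mul (.g 22) (.pp [(1, 1133904000)]))))))) (.add (.add (.mul (.g 1)
    (.add (.pp [(1, 229236900000)]) (.mul (.g 10) (.pp [(1, 303484500000)])))) (.mul (.g 13) (.add
    (.mul (.g 0) (.pp [(1, 2175810000)])) (.mul (.g 10) (.pp [(1, 31040400000)]))))) (.add (.mul (.g
    21) (.add (.mul (.g 7) (.pp [(1, 7967100000)])) (.mul (.g 21) (.pp [(1, 365592000)])))) (.mul (.g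
    22) (.add (.mul (.g 9) (.pp [(1, 1861020000)])) (.mul (.g 18) (.pp [(1, 2270520000)]))))))))))
    (.add (.mul (.g 10) (.add (.add (.add (.mul (.pp [(1, 651270)]) (.sq [(2, 100), (3, 61), (5, 82),
    (7, -21), (11, 22), (13, 25), (19, -35), (23, -34)])) (.add (.mul (.pp [(1, 3278880)]) (.sq [(2,
    43), (3, 100), (5, -23), (7, -23), (11, -23), (13, 43), (19, -23), (23, -23)])) (.mul (.pp [(1,
    873360)]) (.sq [(1, 59), (2, 11), (3, -100), (5, 27), (7, 13), (11, 18), (13, -22), (19, -50),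
    (23, 20)])))) (.add (.add (.mul (.pp [(1, 262230)]) (.sq [(1, -42), (2, 56), (3, 29), (5, 20), (7,
    -49), (11, 81), (13, 100), (19, -7), (23, 2)])) (.mul (.pp [(1, 1840080)]) (.sq [(2, 18), (3, 16),
    (5, -8), (7, -69), (11, 1), (19, 65), (23, 100)]))) (.add (.mul (.pp [(1, 1243470)]) (.sq [(2,
    -82), (3, 31), (5, -5), (7, 11), (13, 52), (19, -39), (23, 100)])) (.mul (.pp [(1, 3600420)]) (.sq
    [(2, 100), (3, -78), (5, 6), (7, 24), (11, 6), (13, -17), (19, -7), (23, 23)]))))) (.add (.add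
    (.add (.mul (.g 3) (.add (.add (.pp [(1, 30228900000)]) (.mul (.g 1) (.pp [(1, 324351000000)])))
    (.add (.mul (.g 10) (.pp [(1, 18502800000)])) (.mul (.g 21) (.pp [(1, 2737500000)]))))) (.mul (.g
    11) (.add (.add (.mul (.g 9) (.pp [(1, 48525000)])) (.mul (.g 10) (.pp [(1, 5684970000)]))) (.add
    (.mul (.g 20) (.pp [(1, 347427000)])) (.mul (.g 22) (.pp [(1, 6183000)])))))) (.add (.mul (.g 13)
    (.add (.mul (.g 13) (.pp [(1, 15867900000)])) (.add (.mul (.g 14) (.pp [(1, 51756600000)])) (.mul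
    (.g 19) (.pp [(1, 722400000)]))))) (.mul (.g 17) (.add (.mul (.g 7) (.pp [(1, 11915400000)]))
    (.add (.mul (.g 10) (.pp [(1, 1254900000)])) (.mul (.g 14) (.pp [(1, 16948200000)]))))))) (.add
    (.add (.mul (.g 1) (.add (.pp [(1, 3204900000)]) (.mul (.g 22) (.pp [(1, 10552740000)])))) (.mul
    (.g 19) (.add (.mul (.g 14) (.pp [(1, 20170500000)])) (.mul (.g 22) (.pp [(1, 545400000)])))))
    (.add (.mul (.g 4) (.mul (.g 10) (.pp [(1, 4010400000)]))) (.mul (.g 21) (.mul (.g 21) (.pp [(1,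
    5094840000)])))))))) (.add (.mul (.g 1) (.add (.add (.add (.add (.mul (.pp [(1, 1363170)]) (.sq
    [(1, -1), (2, 100), (3, 49), (5, -11), (7, -71), (11, -9), (13, -11), (19, -5), (23, -37)])) (.mul
    (.pp [(1, 10534740)]) (.sq [(2, -5), (3, -18), (5, 31), (7, -17), (11, -76), (13, 100), (19, -8),
    (23, -81)]))) (.add (.mul (.pp [(1, 2765940)]) (.sq [(2, -93), (3, 8), (5, -24), (7, 7), (11, 20),
    (13, 12), (19, 100), (23, 2)])) (.mul (.pp [(1, 16020)]) (.sq [(1, 3), (2, -100), (3, 97), (5,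
    -6), (7, -82), (11, -17), (13, 26), (19, -58), (23, 24)])))) (.add (.add (.mul (.pp [(1,
    1408200)]) (.sq [(2, -31), (3, -96), (5, -93), (7, 3), (11, 79), (13, 100), (19, 25), (23, -13)]))
    (.mul (.pp [(1, 2086410)]) (.sq [(2, -9), (3, 3), (5, 86), (7, 100), (11, -66), (13, 28), (19, 5),
    (23, 17)]))) (.add (.mul (.pp [(1, 978870)]) (.sq [(1, 49), (2, 100), (3, -72), (5, 56), (7, -58),
    (11, -57), (13, 77), (19, -39), (23, -27)])) (.mul (.pp [(1, 1411650)]) (.sq [(1, -54), (2, 97),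
    (3, -30), (5, -100), (7, 95), (11, -84), (19, 41), (23, 48)]))))) (.add (.add (.add (.mul (.pp
    [(1, 5051130)]) (.sq [(1, 1), (2, 2), (3, 1), (5, 100), (7, -12), (11, 55), (13, 5), (19, -14),
    (23, -13)])) (.mul (.g 0) (.add (.pp [(1, 5328435000)]) (.mul (.g 22) (.pp [(1, 734355000)])))))
    (.add (.mul (.g 14) (.add (.pp [(1, 67181100000)]) (.mul (.g 17) (.pp [(1, 32539500000)])))) (.mul
    (.g 19) (.add (.pp [(1, 77114100000)]) (.mul (.g 4) (.pp [(1, 141859200000)])))))) (.add (.add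
    (.mul (.g 3) (.mul (.g 7) (.pp [(1, 87334500000)]))) (.mul (.g 6) (.mul (.g 13) (.pp [(1,
    42861300000)])))) (.add (.mul (.g 20) (.pp [(1, 7816320000)])) (.mul (.g 21) (.pp [(1,
    3011760000)]))))))) (.mul (.g 22) (.add (.add (.add (.mul (.pp [(1, 93420)]) (.sq [(1, 29), (2,
    -82), (3, 77), (5, -100), (7, 58), (13, -57), (19, -31), (23, 48)])) (.mul (.pp [(1, 68418)]) (.sq
    [(2, 14), (3, -10), (5, 100), (7, -21), (11, 57), (13, -48), (19, 7), (23, -28)]))) (.add (.mul
    (.pp [(1, 42828)]) (.sq [(2, 2), (3, 100), (5, 2), (7, -11), (11, -66), (13, 58), (19, -50), (23,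
    25)])) (.add (.mul (.pp [(1, 128826)]) (.sq [(2, 100), (3, -59), (5, -83), (7, 14), (11, -8), (13,
    -1), (23, 15)])) (.mul (.g 3) (.add (.add (.mul (.g 5) (.pp [(1, 5626380000)])) (.mul (.g 17) (.pp
    [(1, 1470060000)]))) (.add (.mul (.g 21) (.pp [(1, 269160000)])) (.mul (.g 22) (.pp [(1,
    134292000)])))))))) (.add (.add (.mul (.g 0) (.add (.mul (.g 7) (.pp [(1, 325209000)])) (.add
    (.mul (.g 11) (.pp [(1, 4920600)])) (.mul (.g 22) (.pp [(1, 172270200)]))))) (.add (.mul (.g 14)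
    (.add (.mul (.g 9) (.pp [(1, 4579200000)])) (.mul (.g 21) (.pp [(1, 587376000)])))) (.mul (.g 17)
    (.add (.mul (.g 11) (.pp [(1, 82695000)])) (.mul (.g 18) (.pp [(1, 1319040000)])))))) (.add (.mul
    (.g 13) (.mul (.g 13) (.pp [(1, 8032500000)]))) (.add (.mul (.g 20) (.mul (.g 20) (.pp [(1,
    66434400)]))) (.mul (.g 22) (.mul (.g 22) (.pp [(1, 301464000)]))))))))))) (.add (.add (.mul (.g
    20) (.add (.add (.add (.mul (.pp [(1, 21138)]) (.sq [(2, 2), (3, 10), (5, 100), (7, 1), (11, -19),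
    (13, -8), (19, -71), (23, 66)])) (.mul (.pp [(1, 1760364)]) (.sq [(1, -6), (2, -2), (3, -18), (5,
    -4), (7, 13), (11, 100), (13, -20), (19, 15), (23, -3)]))) (.add (.mul (.pp [(1, 9731664)]) (.sq
    [(2, 50), (3, -2), (5, -5), (7, -5), (11, -33), (13, -2), (19, -5), (23, -5)])) (.add (.mul (.pp
    [(1, 78486)]) (.sq [(2, 1), (3, -37), (5, 28), (7, -18), (11, 14), (13, 100), (19, 62), (23,
    -90)])) (.mul (.pp [(1, 6694320000)]) (.sq [(3, 1), (13, -1)]))))) (.add (.add (.mul (.pp [(1,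
    25062)]) (.sq [(1, -25), (2, 100), (3, -9), (5, 82), (7, -71), (11, 37), (13, 11), (19, -5), (23,
    -45)])) (.mul (.g 20) (.add (.mul (.g 11) (.pp [(1, 155115600)])) (.add (.mul (.g 20) (.pp [(1,
    244588800)])) (.mul (.g 21) (.pp [(1, 88867200)])))))) (.add (.mul (.g 7) (.add (.mul (.g 6) (.pp
    [(1, 509760000)])) (.mul (.g 11) (.pp [(1, 81282000)])))) (.add (.mul (.g 13) (.add (.pp [(1,
    10527960000)]) (.mul (.g 3) (.pp [(1, 1206720000)])))) (.mul (.g 14) (.mul (.g 17) (.pp [(1,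
    5025840000)])))))))) (.mul (.g 3) (.add (.add (.mul (.pp [(1, 2450760)]) (.sq [(1, 8), (2, -53),
    (3, 7), (5, 26), (7, -34), (11, -38), (13, -11), (19, 100), (23, -93)])) (.add (.mul (.pp [(1,
    740340)]) (.sq [(2, -26), (3, 100), (5, 2), (7, 98), (11, -1), (13, -90), (19, -100)])) (.mul (.pp
    [(1, 389640)]) (.sq [(2, -38), (3, -41), (5, 100), (7, 26), (11, -42), (13, -87), (19, -90), (23,
    51)])))) (.add (.add (.mul (.pp [(1, 1989870)]) (.sq [(2, 82), (3, 92), (5, -24), (7, -8), (11,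
    8), (13, 100), (19, -27), (23, -6)])) (.mul (.g 13) (.add (.add (.pp [(1, 144008100000)]) (.mul
    (.g 5) (.pp [(1, 17719500000)]))) (.add (.mul (.g 13) (.pp [(1, 23676000000)])) (.add (.mul (.g
    14) (.pp [(1, 25809600000)])) (.mul (.g 18) (.pp [(1, 15138900000)]))))))) (.add (.mul (.g 5)
    (.add (.mul (.g 0) (.pp [(1, 895485000)])) (.mul (.g 21) (.pp [(1, 6540540000)])))) (.mul (.g 6)
    (.mul (.g 6) (.pp [(1, 58192500000)])))))))) (.add (.mul (.g 14) (.add (.add (.mul (.pp [(1,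
    496650)]) (.sq [(1, -40), (2, -13), (3, 100), (5, -7), (7, 30), (11, 4), (13, 44), (19, 28), (23,
    11)])) (.add (.mul (.pp [(1, 615870)]) (.sq [(2, -50), (3, -100), (5, 91), (7, 63), (11, 24), (13,
    32), (19, -23), (23, -4)])) (.mul (.pp [(1, 855000)]) (.sq [(2, 100), (3, -77), (5, 13), (7, 35),
    (11, 39), (13, -82), (19, -53), (23, 5)])))) (.add (.add (.mul (.g 7) (.add (.pp [(1,
    18921900000)]) (.mul (.g 21) (.pp [(1, 5728980000)])))) (.mul (.g 14) (.add (.mul (.g 19) (.pp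
    [(1, 39713100000)])) (.mul (.g 21) (.pp [(1, 2319540000)]))))) (.add (.mul (.g 17) (.add (.pp [(1,
    77272500000)]) (.mul (.g 19) (.pp [(1, 12626700000)])))) (.mul (.g 13) (.pp [(1,
    144047100000)])))))) (.add (.mul (.g 5) (.add (.add (.add (.mul (.pp [(1, 1995240)]) (.sq [(2,
    50), (3, 32), (7, 22), (11, 24), (13, 5), (19, -18), (23, -47)])) (.mul (.pp [(1, 2493720)]) (.sq
    [(1, 80), (2, 55), (3, 34), (11, -100), (13, 61), (19, -49)]))) (.add (.mul (.pp [(1, 748110)])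
    (.sq [(2, -12), (3, -81), (5, 53), (7, -16), (11, 100), (13, 53), (19, -3), (23, 10)])) (.mul (.pp
    [(1, 818160)]) (.sq [(2, -85), (3, 100), (5, 34), (7, -66), (11, 92), (13, -41), (19, -34), (23,
    2)])))) (.add (.add (.mul (.pp [(1, 434580)]) (.sq [(1, -38), (2, -41), (3, 100), (5, -90), (7,
    6), (11, 93), (13, -14), (19, 13), (23, 37)])) (.mul (.pp [(1, 1248780)]) (.sq [(2, 100), (3, 1),
    (5, -26), (7, -13), (11, 25), (13, 43), (19, -71), (23, 32)]))) (.add (.mul (.pp [(1, 163080)])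
    (.sq [(1, -8), (2, -55), (3, -18), (5, -9), (7, -100), (11, 93), (13, -33), (19, 68), (23, -92)]))
    (.mul (.g 0) (.mul (.g 4) (.pp [(1, 277995000)]))))))) (.mul (.g 13) (.add (.add (.mul (.pp [(1,
    172140)]) (.sq [(2, -16), (3, 100), (5, 46), (7, 9), (11, 33), (13, -17), (19, 6), (23, 3)]))
    (.mul (.pp [(1, 481350)]) (.sq [(1, -2), (2, 41), (3, 66), (5, 38), (7, 100), (11, -61), (13,
    -16), (19, -55), (23, 42)]))) (.add (.mul (.g 13) (.add (.mul (.g 4) (.pp [(1, 6942900000)]))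
    (.mul (.g 21) (.pp [(1, 1333980000)])))) (.mul (.g 11) (.pp [(1, 552360000)]))))))))) (.add (.add
    (.add (.mul (.g 6) (.add (.mul (.pp [(1, 4628220)]) (.sq [(1, 70), (2, -46), (3, -2), (5, 44), (7,
    85), (11, -32), (13, -29), (19, -100), (23, -44)])) (.add (.mul (.pp [(1, 3409020)]) (.sq [(2,
    -5), (5, -1), (7, -62), (11, 60), (13, 100), (19, -10), (23, 54)])) (.mul (.pp [(1, 3668610)])
    (.sq [(1, 5), (2, 33), (3, 24), (5, 5), (7, 3), (11, 100), (13, -8), (19, -46), (23, 19)])))))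
    (.mul (.g 7) (.add (.mul (.pp [(1, 569940)]) (.sq [(2, 100), (3, 59), (5, -90), (7, -1), (11, -4),
    (13, 95), (19, 7), (23, -16)])) (.add (.mul (.pp [(1, 489840)]) (.sq [(2, -100), (3, 47), (5, 48),
    (7, -48), (11, 2), (13, 55), (19, 46), (23, -7)])) (.mul (.pp [(1, 610500)]) (.sq [(2, 18), (3,
    84), (5, 5), (7, 2), (11, 100), (13, -56), (19, -2), (23, 10)])))))) (.add (.mul (.g 18) (.add
    (.mul (.pp [(1, 1848900)]) (.sq [(2, -81), (3, -5), (5, 26), (7, 61), (11, 100), (13, 23), (19,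
    -55), (23, 40)])) (.add (.mul (.pp [(1, 62730)]) (.sq [(1, 48), (2, 35), (3, -21), (5, -100), (7,
    37), (11, 24), (13, -5), (19, -57), (23, 3)])) (.mul (.g 18) (.mul (.g 21) (.pp [(1,
    27552300000)])))))) (.add (.mul (.g 17) (.add (.mul (.pp [(1, 1715370)]) (.sq [(1, -2), (2, -6),
    (3, 100), (5, -2), (7, -6), (11, 2), (13, -45), (19, 1), (23, -7)])) (.mul (.pp [(1, 1059900)])
    (.sq [(1, -52), (2, -57), (3, 33), (5, 36), (7, 33), (11, 100), (13, -83), (19, 22), (23, -1)]))))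
    (.mul (.g 19) (.add (.mul (.pp [(1, 25320)]) (.sq [(1, 1), (2, -34), (3, 48), (5, 71), (11, -5),
    (13, 100), (19, -40), (23, 29)])) (.mul (.pp [(1, 824160)]) (.sq [(2, -14), (3, 72), (5, -10), (7,
    46), (11, 11), (13, 100), (19, -54), (23, 37)]))))))) (.add (.add (.mul (.g 21) (.add (.mul (.pp
    [(1, 236478)]) (.sq [(2, -37), (3, 100), (5, -21), (7, 6), (11, -35), (13, -22), (19, 16), (23,
    -26)])) (.mul (.pp [(1, 55722)]) (.sq [(2, -100), (3, 42), (5, 81), (7, -30), (11, 31), (13, -28),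
    (19, -59), (23, 88)])))) (.add (.mul (.g 0) (.mul (.pp [(1, 488619)]) (.sq [(2, -16), (3, -18),
    (5, -5), (7, -23), (11, 72), (13, 100), (19, -12), (23, 64)]))) (.mul (.g 2) (.mul (.pp [(1,
    1498770)]) (.sq [(2, 100), (3, -51), (5, -5), (7, -12), (11, -4), (13, 61), (19, -58), (23,
    47)]))))) (.add (.mul (.g 9) (.mul (.pp [(1, 22200)]) (.sq [(2, -66), (3, 100), (5, 81), (7, 5),
    (11, 7), (13, -6), (19, -63), (23, 2)]))) (.add (.mul (.g 11) (.mul (.pp [(1, 5229)]) (.sq [(1,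
    -6), (2, 72), (3, -73), (5, 94), (7, 6), (11, -100), (13, 46), (19, -35), (23, -26)]))) (.mul (.g
    16) (.mul (.pp [(1, 337140)]) (.sq [(1, 79), (2, 31), (3, 31), (5, -33), (11, 9), (13, 28), (19,
    -100), (23, 33)])))))))) (.pp [(1, 12992683146), (2, 3141870), (3, 3119196), (4, 3218766), (5,
    3002220), (6, 3041724), (7, 3140016), (8, 3154050), (9, 2938419), (10, 3127920), (11, 2863530),
    (12, 3199380), (13, 3382944), (14, 3291804), (15, 3208176), (18, 2641740), (19, 2799480), (20,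
    3147240), (21, 3214056), (22, 3425604), (23, 2835714), (25, 2973867), (26, 2684316), (27,
    2981610), (28, 2766810), (30, 2339460), (33, 3031980), (35, 2635266), (38, 2491764), (39,
    2675712), (42, 3319260), (44, 2896580), (45, 3351150), (46, 2942352), (49, 3115971), (50,
    2872080), (52, 3279480), (55, 2923260), (57, 2717034), (63, 2615700), (65, 2944764), (66,
    2698440), (69, 2835552), (70, 2882220), (75, 3192300), (76, 2568960), (77, 2867844), (78,
    3168600), (91, 2340972), (92, 2891520), (95, 3193500), (98, 3267960), (99, 3075180), (105,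
    2862000), (110, 2807340), (114, 3405240), (115, 3068544), (117, 3272270), (121, 2959596), (125,
    3114010), (130, 3091080), (133, 2979276), (138, 2740200), (143, 2823816), (147, 2511390), (154,
    3722400), (161, 3684708), (165, 3023640), (169, 3048108), (171, 3147840), (175, 2544990), (182,
    2804100), (190, 3120060), (195, 2770440), (207, 3284670), (209, 3124440), (230, 2878740), (231,
    3052560), (242, 3106520), (245, 3408870), (247, 3191196), (253, 2644416), (266, 2442240), (273,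
    3201420), (275, 2833620), (285, 2563020), (286, 2800620), (299, 3281868), (322, 3009360), (325,
    3621510), (338, 2872680), (343, 3167570), (345, 3125640), (361, 3229191), (363, 2940600), (385,
    3025980), (399, 3578040), (418, 2610060), (429, 3386820), (437, 2834796), (455, 2670780), (475,
    3189720), (483, 3186000), (494, 3171960), (506, 2931420), (507, 2990750), (529, 3125934), (539,
    3042570), (575, 3129240), (598, 3195480), (605, 2919090), (627, 2701380), (637, 2615370), (665,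
    3197040), (715, 2700120), (722, 3467550), (741, 3015840), (759, 2979600), (805, 2683260), (845,
    3241590), (847, 2731350), (874, 3246600), (897, 2960280), (931, 2168430), (1001, 2796240), (1045,
    3235920), (1058, 3009120), (1083, 2945400), (1127, 1726830), (1183, 2693100), (1235, 2743260),
    (1265, 2996820), (1311, 2789340), (1331, 3005240), (1463, 2872980), (1495, 2924400), (1573,
    3174690), (1587, 3133590), (1729, 3933360), (1771, 2875140), (1805, 2917950), (1859, 3087420),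
    (2093, 3478740), (2185, 3063780), (2197, 3127910), (2299, 3137730), (2527, 3483690), (2645,
    3087210), (2717, 3335460), (2783, 3200790), (3059, 3817140), (3211, 2954100), (3289, 3101400),
    (3703, 3515010), (3887, 3197610), (3971, 2925570), (4693, 2688810), (4807, 3185940), (5681,
    2565600), (5819, 3247590), (6859, 2815530), (6877, 2718060), (8303, 2927190), (10051, 2535900),
    (12167, 2911570)])) (by norm_num)
    (by decide +kernel)

theorem g11 : Ck (gG11 []) (pW (vG1 1 (hM (Ex.v 13)))) :=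
  .mk' 1000000 (.add (.add (.add (.add (.add (.mul (.g 13) (.add (.add (.add (.mul (.pp [(1, 1457460)]) (.sq [(2,
    -3), (3, 6), (5, 11), (7, 13), (11, 17), (13, 100), (19, 2), (23, 7)])) (.add (.mul (.pp [(1,
    1559820)]) (.sq [(2, -100), (3, 20), (5, -64), (7, -6), (11, -2), (13, 20), (19, 3), (23, 76)]))
    (.mul (.pp [(1, 2336760)]) (.sq [(2, 8), (3, -100), (5, -21), (7, 62), (11, 63), (13, 74), (19,
    -33), (23, -16)])))) (.add (.mul (.pp [(1, 19008240)]) (.sq [(2, 31), (11, -50)])) (.add (.mul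
    (.pp [(1, 121260)]) (.sq [(2, 10), (3, 100), (5, -100), (7, -12), (11, -4), (13, -53), (19, 4),
    (23, -85)])) (.mul (.g 16) (.add (.add (.pp [(1, 45304200000)]) (.add (.mul (.g 5) (.pp [(1,
    64693200000)])) (.mul (.g 6) (.pp [(1, 21982800000)])))) (.add (.mul (.g 10) (.pp [(1,
    29101200000)])) (.add (.mul (.g 18) (.pp [(1, 11252400000)])) (.mul (.g 19) (.pp [(1,
    10211400000)]))))))))) (.add (.add (.mul (.g 1) (.add (.add (.mul (.g 6) (.pp [(1, 1457400000)]))
    (.mul (.g 8) (.pp [(1, 182684400000)]))) (.add (.mul (.g 9) (.pp [(1, 10488600000)])) (.add (.mul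
    (.g 15) (.pp [(1, 178951200000)])) (.mul (.g 21) (.pp [(1, 31431960000)])))))) (.add (.mul (.g 7)
    (.add (.add (.mul (.g 2) (.pp [(1, 43620600000)])) (.mul (.g 9) (.pp [(1, 75313200000)]))) (.add
    (.mul (.g 10) (.pp [(1, 45259800000)])) (.mul (.g 12) (.pp [(1, 60582000000)]))))) (.mul (.g 8)
    (.add (.add (.mul (.g 2) (.pp [(1, 86596200000)])) (.mul (.g 9) (.pp [(1, 43337400000)]))) (.add
    (.mul (.g 15) (.pp [(1, 40699200000)])) (.mul (.g 18) (.pp [(1, 100737600000)]))))))) (.add (.add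
    (.mul (.g 10) (.add (.pp [(1, 234763800000)]) (.add (.mul (.g 10) (.pp [(1, 24476400000)])) (.mul
    (.g 15) (.pp [(1, 50735400000)]))))) (.mul (.g 12) (.add (.pp [(1, 247533000000)]) (.add (.mul (.g
    9) (.pp [(1, 29989800000)])) (.mul (.g 11) (.pp [(1, 6797550000)])))))) (.add (.mul (.g 17) (.add
    (.pp [(1, 12756000000)]) (.add (.mul (.g 15) (.pp [(1, 45583200000)])) (.mul (.g 20) (.pp [(1,
    5416440000)]))))) (.mul (.g 21) (.add (.pp [(1, 12532440000)]) (.mul (.g 21) (.pp [(1,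
    406896000)]))))))))) (.mul (.g 8) (.add (.add (.add (.mul (.pp [(1, 6853920)]) (.sq [(2, 100), (3,
    -18), (5, -18), (7, -18), (11, 57), (13, -18), (19, -18), (23, -18)])) (.add (.mul (.pp [(1,
    1710960)]) (.sq [(1, -3), (2, 19), (3, -9), (5, 99), (7, 16), (11, 100), (13, -65), (19, -15),
    (23, 42)])) (.mul (.pp [(1, 5601840)]) (.sq [(1, -1), (2, -34), (3, 16), (5, 23), (7, -12), (11,
    43), (13, 100), (19, -11), (23, 18)])))) (.add (.mul (.pp [(1, 517560)]) (.sq [(2, 57), (3, -89),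
    (5, 100), (7, -30), (11, 2), (13, -14), (19, -57), (23, 1)])) (.add (.mul (.g 8) (.add (.add (.mul
    (.g 4) (.pp [(1, 98440200000)])) (.mul (.g 6) (.pp [(1, 994200000)]))) (.add (.mul (.g 9) (.pp
    [(1, 139295400000)])) (.add (.mul (.g 10) (.pp [(1, 49798200000)])) (.mul (.g 16) (.pp [(1,
    22984200000)])))))) (.mul (.g 19) (.add (.add (.pp [(1, 55555200000)]) (.mul (.g 5) (.pp [(1,
    7842000000)]))) (.add (.mul (.g 11) (.pp [(1, 1583106000)])) (.add (.mul (.g 19) (.pp [(1,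
    7982256000)])) (.mul (.g 21) (.pp [(1, 3308616000)]))))))))) (.add (.add (.mul (.g 7) (.add (.mul
    (.g 6) (.pp [(1, 43860000000)])) (.add (.mul (.g 7) (.pp [(1, 36122400000)])) (.mul (.g 17) (.pp
    [(1, 24343200000)]))))) (.add (.mul (.g 21) (.add (.mul (.g 2) (.pp [(1, 2533920000)])) (.add
    (.mul (.g 9) (.pp [(1, 29801520000)])) (.mul (.g 17) (.pp [(1, 7340880000)]))))) (.mul (.g 1)
    (.add (.pp [(1, 419398800000)]) (.mul (.g 1) (.pp [(1, 29799600000)])))))) (.add (.mul (.g 3)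
    (.add (.mul (.g 6) (.pp [(1, 35892600000)])) (.mul (.g 18) (.pp [(1, 18675000000)])))) (.add (.mul
    (.g 4) (.mul (.g 10) (.pp [(1, 191430000000)]))) (.mul (.g 17) (.mul (.g 17) (.pp [(1,
    14114400000)]))))))))) (.add (.mul (.g 1) (.add (.add (.add (.mul (.pp [(1, 1630140)]) (.sq [(2,
    -100), (3, 20), (5, 62), (7, -30), (11, 85), (13, -41), (19, -67), (23, -100)])) (.add (.mul (.pp
    [(1, 1364040)]) (.sq [(1, -14), (2, 100), (3, 48), (5, -39), (7, 22), (11, 20), (13, 12), (19,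
    34), (23, 41)])) (.mul (.pp [(1, 9155160)]) (.sq [(2, 12), (3, 17), (5, 52), (7, -89), (11, -83),
    (13, -81), (19, 31), (23, -100)])))) (.add (.mul (.pp [(1, 4500420)]) (.sq [(2, -100), (3, 15),
    (5, -29), (7, 10), (11, 65), (13, -2), (19, 92), (23, 44)])) (.add (.mul (.pp [(1, 211860)]) (.sq
    [(2, 4), (3, 88), (5, 100), (7, -2), (11, -50), (13, -68), (19, -8), (23, -5)])) (.mul (.g 18)
    (.add (.add (.pp [(1, 371638200000)]) (.add (.mul (.g 4) (.pp [(1, 144248400000)])) (.mul (.g 7)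
    (.pp [(1, 105991200000)])))) (.add (.mul (.g 10) (.pp [(1, 66765600000)])) (.add (.mul (.g 18)
    (.pp [(1, 29051400000)])) (.mul (.g 19) (.pp [(1, 56280000)]))))))))) (.add (.add (.mul (.g 10)
    (.add (.pp [(1, 246198600000)]) (.add (.mul (.g 1) (.pp [(1, 135198600000)])) (.mul (.g 4) (.pp
    [(1, 229079400000)]))))) (.add (.mul (.g 17) (.add (.pp [(1, 10146000000)]) (.add (.mul (.g 3)
    (.pp [(1, 37365600000)])) (.mul (.g 4) (.pp [(1, 1727400000)]))))) (.mul (.g 19) (.add (.pp [(1,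
    17700000000)]) (.mul (.g 19) (.pp [(1, 61632000)])))))) (.add (.mul (.g 0) (.pp [(1,
    17612130000)])) (.add (.mul (.g 3) (.mul (.g 7) (.pp [(1, 304602600000)]))) (.mul (.g 5) (.mul (.g
    12) (.pp [(1, 55285200000)])))))))) (.mul (.g 10) (.add (.add (.add (.mul (.pp [(1, 11322000)])
    (.sq [(1, -27), (2, -8), (3, -30), (5, -14), (7, 100), (11, -5), (13, -60), (19, -11), (23, 11)]))
    (.mul (.pp [(1, 2395080)]) (.sq [(2, 43), (3, 100), (5, -23), (7, -23), (11, -23), (13, 43), (19,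
    -23), (23, -23)]))) (.add (.mul (.pp [(1, 14172060)]) (.sq [(1, -49), (2, -48), (3, 100), (5,
    -24), (7, 17), (11, -43), (13, 13), (19, 15), (23, -1)])) (.mul (.g 3) (.add (.add (.mul (.g 2)
    (.pp [(1, 28081800000)])) (.mul (.g 3) (.pp [(1, 72670800000)]))) (.add (.mul (.g 10) (.pp [(1,
    128100600000)])) (.add (.mul (.g 16) (.pp [(1, 75022200000)])) (.mul (.g 17) (.pp [(1,
    61351200000)])))))))) (.add (.add (.mul (.g 11) (.add (.add (.mul (.g 10) (.pp [(1, 8488350000)]))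
    (.mul (.g 19) (.pp [(1, 455406000)]))) (.add (.mul (.g 20) (.pp [(1, 412830000)])) (.mul (.g 21)
    (.pp [(1, 331248000)]))))) (.mul (.g 20) (.add (.mul (.g 4) (.pp [(1, 11483760000)])) (.add (.mul
    (.g 20) (.pp [(1, 8008944000)])) (.mul (.g 21) (.pp [(1, 429024000)])))))) (.add (.mul (.g 4)
    (.mul (.g 16) (.pp [(1, 564600000)]))) (.mul (.g 6) (.mul (.g 19) (.pp [(1, 2301720000)])))))))))
    (.add (.add (.mul (.g 21) (.add (.add (.add (.mul (.pp [(1, 574896)]) (.sq [(2, 91), (3, -100),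
    (5, 2), (7, 14), (11, 95), (13, 93), (19, -11), (23, -27)])) (.mul (.pp [(1, 371148)]) (.sq [(2,
    -6), (3, -5), (5, 100), (7, -5), (13, -5), (19, -20), (23, 3)]))) (.add (.mul (.pp [(1, 251436)])
    (.sq [(2, -97), (3, 5), (5, 2), (7, -33), (11, 100), (13, 58), (19, 40), (23, 2)])) (.mul (.g 21)
    (.add (.add (.mul (.g 2) (.pp [(1, 182760000)])) (.mul (.g 3) (.pp [(1, 2386536000)]))) (.add
    (.mul (.g 7) (.pp [(1, 56760000)])) (.mul (.g 21) (.pp [(1, 661296000)]))))))) (.add (.add (.mul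
    (.g 17) (.add (.mul (.g 11) (.pp [(1, 251580000)])) (.add (.mul (.g 16) (.pp [(1, 10177920000)]))
    (.mul (.g 20) (.pp [(1, 1422000000)]))))) (.mul (.g 0) (.mul (.g 11) (.pp [(1, 23221500)]))))
    (.add (.mul (.g 3) (.mul (.g 20) (.pp [(1, 901512000)]))) (.mul (.g 12) (.mul (.g 19) (.pp [(1,
    1025952000)]))))))) (.mul (.g 5) (.add (.add (.add (.mul (.pp [(1, 8929620)]) (.sq [(1, -15), (2,
    -18), (3, -5), (5, 34), (7, -15), (11, 100), (13, 17), (19, 6), (23, -17)])) (.mul (.pp [(1,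
    4522380)]) (.sq [(1, 66), (2, -23), (3, -3), (5, -36), (7, 100), (11, -49), (13, -68), (19, -63),
    (23, 8)]))) (.add (.mul (.pp [(1, 385860)]) (.sq [(2, -61), (3, -19), (5, -58), (7, -32), (11,
    83), (13, 50), (19, 11), (23, 100)])) (.add (.mul (.pp [(1, 2322960)]) (.sq [(2, -100), (3, -32),
    (5, -66), (7, 28), (11, -88), (13, -55), (19, 95), (23, -7)])) (.mul (.pp [(1, 210780)]) (.sq [(2,
    34), (3, -55), (5, -100), (7, 15), (11, 31), (13, 34), (19, 39), (23, -8)]))))) (.add (.add (.mul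
    (.pp [(1, 1887360)]) (.sq [(2, 51), (3, 51), (5, -100), (7, -73), (11, 51), (13, 51), (19, 51),
    (23, -33)])) (.mul (.pp [(1, 147480)]) (.sq [(1, 100), (2, -76), (3, -68), (5, 56), (7, -26), (11,
    -20), (13, -61), (19, -19), (23, -36)]))) (.add (.mul (.pp [(1, 1454160)]) (.sq [(1, -8), (2,
    -84), (3, 100), (5, 19), (7, 30), (11, 8), (13, -61), (19, 11), (23, 70)])) (.add (.mul (.g 12)
    (.add (.mul (.g 3) (.pp [(1, 98283600000)])) (.mul (.g 11) (.pp [(1, 3928350000)])))) (.mul (.g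
    19) (.pp [(1, 16680000)])))))))) (.add (.mul (.g 11) (.add (.add (.mul (.pp [(1, 257754)]) (.sq
    [(2, 6), (3, 84), (5, 24), (7, 100), (11, -38), (13, -12), (19, -81), (23, -31)])) (.add (.mul
    (.pp [(1, 12327)]) (.sq [(1, -14), (2, -27), (3, -9), (5, 100), (7, 15), (11, -8), (13, -25), (19,
    -10), (23, -16)])) (.mul (.pp [(1, 32946)]) (.sq [(2, -14), (3, -28), (5, 66), (7, 15), (11, -33),
    (13, 2), (19, -100), (23, 66)])))) (.add (.mul (.pp [(1, 384612)]) (.sq [(2, -23), (3, 18), (5,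
    10), (7, -6), (11, -41), (13, 100), (19, -4), (23, -2)])) (.add (.mul (.g 12) (.add (.pp [(1,
    3236190000)]) (.mul (.g 11) (.pp [(1, 211867500)])))) (.mul (.g 19) (.mul (.g 19) (.pp [(1,
    84279600)]))))))) (.add (.mul (.g 3) (.add (.add (.mul (.pp [(1, 595500)]) (.sq [(1, -15), (2,
    24), (3, 29), (5, 93), (7, -20), (11, -52), (13, 3), (19, 62), (23, -100)])) (.mul (.pp [(1,
    2792820)]) (.sq [(2, -88), (3, -34), (5, -4), (7, 100), (11, 88), (13, 55), (19, -50), (23,
    -8)]))) (.add (.mul (.g 6) (.add (.mul (.g 6) (.pp [(1, 110993400000)])) (.mul (.g 7) (.pp [(1,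
    204693600000)])))) (.mul (.g 12) (.add (.pp [(1, 144582000000)]) (.mul (.g 15) (.pp [(1,
    113030400000)]))))))) (.mul (.g 19) (.add (.add (.mul (.pp [(1, 16200)]) (.sq [(2, -33), (3, 14),
    (5, -7), (7, -12), (11, -9), (13, -100), (19, 60), (23, -91)])) (.mul (.pp [(1, 16483560000)])
    (.sq [(3, 1), (13, -1)]))) (.add (.mul (.pp [(1, 9426432)]) (.sq [(2, 50), (3, -2), (5, -5), (7,
    -5), (11, -33), (13, -2), (19, -5), (23, -5)])) (.add (.mul (.g 19) (.add (.mul (.g 18) (.pp [(1,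
    484608000)])) (.mul (.g 19) (.pp [(1, 1456699200)])))) (.mul (.g 16) (.mul (.g 20) (.pp [(1,
    460152000)]))))))))))) (.add (.add (.add (.mul (.g 20) (.add (.add (.mul (.pp [(1, 20592)]) (.sq
    [(2, -3), (5, -84), (7, 8), (11, 42), (13, 100), (19, 4), (23, 50)])) (.mul (.pp [(1, 465960)])
    (.sq [(1, 48), (2, -4), (3, 100), (5, 26), (7, -21), (11, 58), (13, -13), (19, -60), (23, 26)])))
    (.add (.mul (.pp [(1, 549780)]) (.sq [(1, 6), (2, 95), (3, -100), (5, 6), (7, 32), (11, -17), (13,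
    89), (19, -67), (23, 14)])) (.add (.mul (.g 17) (.mul (.g 17) (.pp [(1, 48860760000)]))) (.mul (.g
    20) (.mul (.g 20) (.pp [(1, 172516800)]))))))) (.mul (.g 4) (.add (.mul (.pp [(1, 1986180)]) (.sq
    [(2, 67), (3, -74), (5, -8), (7, -100), (11, -10), (13, 55), (19, 89), (23, -39)])) (.add (.mul
    (.pp [(1, 1118940)]) (.sq [(1, 3), (2, -4), (3, -38), (5, 100), (7, 41), (11, 47), (13, 13), (19,
    -62), (23, 6)])) (.mul (.pp [(1, 10716720)]) (.sq [(1, 6), (2, -7), (3, 21), (5, 12), (7, 2), (11,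
    100), (13, 32), (19, -18), (23, 3)])))))) (.add (.mul (.g 7) (.add (.mul (.pp [(1, 1556040)]) (.sq
    [(3, -100), (5, 12), (7, -63), (11, 37), (13, 39), (19, 65), (23, -58)])) (.add (.mul (.pp [(1,
    946320)]) (.sq [(5, -71), (7, 100), (23, -71)])) (.mul (.pp [(1, 4208580)]) (.sq [(1, 1), (2, -6),
    (3, -40), (5, 7), (7, 100), (11, 67), (13, 79), (19, -75), (23, 21)]))))) (.add (.mul (.g 2) (.add
    (.mul (.pp [(1, 1200720)]) (.sq [(1, 42), (2, 79), (3, -100), (5, -28), (7, 6), (11, -65), (13,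
    65), (19, -45), (23, 33)])) (.mul (.pp [(1, 2567580)]) (.sq [(1, -46), (2, 100), (3, 55), (5,
    -18), (7, -83), (11, 64), (13, 68), (19, 36), (23, 26)])))) (.mul (.g 6) (.add (.mul (.pp [(1,
    497460)]) (.sq [(2, 78), (3, -58), (5, 28), (7, -37), (11, 73), (13, 100), (19, -63), (23, 35)]))
    (.mul (.pp [(1, 2338020)]) (.sq [(1, -9), (2, -28), (3, 23), (5, 100), (7, -38), (11, -26), (13,
    1), (19, 20), (23, -17)]))))))) (.add (.add (.mul (.g 9) (.add (.mul (.pp [(1, 4929300)]) (.sq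
    [(1, 65), (2, -68), (3, 4), (5, -18), (7, 51), (11, -100), (13, -94), (19, -23), (23, -45)]))
    (.mul (.pp [(1, 4726860)]) (.sq [(1, -28), (2, -75), (3, 19), (5, 30), (7, 37), (11, 100), (13,
    -54), (19, 7), (23, -8)])))) (.mul (.g 12) (.mul (.pp [(1, 4717860)]) (.sq [(1, -15), (2, -27),
    (3, 15), (5, 23), (7, -4), (11, 100), (13, 7), (19, 9), (23, -15)])))) (.add (.mul (.g 15) (.mul
    (.pp [(1, 6197880)]) (.sq [(1, 79), (2, 31), (3, 31), (5, -33), (11, 9), (13, 28), (19, -100),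
    (23, 33)]))) (.add (.mul (.g 17) (.mul (.pp [(1, 1664940)]) (.sq [(1, 19), (2, 48), (3, 100), (5,
    6), (7, -40), (11, 43), (13, 25), (19, -72), (23, 33)]))) (.mul (.g 18) (.mul (.pp [(1, 192240)])
    (.sq [(1, 5), (2, 16), (3, 21), (5, -80), (7, -19), (11, 23), (13, 100), (19, 3), (23,
    35)])))))))) (.pp [(1, 21848067744), (2, 6184404), (3, 5637288), (4, 5532249), (5, 6442260), (6,
    6827694), (7, 6262380), (8, 6009000), (9, 6079557), (10, 6910416), (11, 6690276), (12, 5928180),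
    (13, 6244920), (14, 5851182), (15, 5924304), (18, 5840640), (19, 5917620), (20, 6110700), (21,
    6158226), (22, 4877184), (23, 5685072), (25, 6913440), (26, 5381094), (27, 6000000), (28,
    6737700), (30, 5559720), (33, 6052584), (35, 5910432), (38, 5697420), (39, 6284850), (42,
    6604800), (44, 6035080), (45, 6197160), (46, 5262312), (49, 6525735), (50, 6044280), (52,
    6084660), (55, 6341112), (57, 5724180), (63, 5959800), (65, 5768088), (66, 6331920), (69,
    5701848), (70, 6946920), (75, 5991120), (76, 5582220), (77, 6213156), (78, 6309120), (91,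
    4491642), (92, 5693280), (95, 5503920), (98, 6205200), (99, 5796180), (105, 5687880), (110,
    6260280), (114, 6081120), (115, 5745000), (117, 5693260), (121, 5761182), (125, 5590640), (130,
    6025200), (133, 5081892), (138, 5788680), (143, 5035920), (147, 7028760), (154, 5697120), (161,
    5214240), (165, 5505600), (169, 6026697), (171, 5644680), (175, 5118000), (182, 6313440), (190,
    4809600), (195, 5410440), (207, 5891340), (209, 5066664), (230, 5425080), (231, 6301560), (242,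
    5780080), (245, 6195240), (247, 6258540), (253, 6142536), (266, 5732400), (273, 6444840), (275,
    6008940), (285, 6414360), (286, 6375600), (299, 7433640), (322, 5784120), (325, 6062040), (338,
    5627640), (343, 6172600), (345, 6056520), (361, 6672498), (363, 6098280), (385, 6083400), (399,
    3866640), (418, 7146240), (429, 5868960), (437, 6367548), (455, 6252000), (475, 6516420), (483,
    6281760), (494, 5857200), (506, 6050760), (507, 6108280), (529, 6675390), (539, 6144060), (575,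
    6611400), (598, 5471040), (605, 7044360), (627, 5637960), (637, 5466480), (665, 5873040), (715,
    6739440), (722, 6409920), (741, 6589080), (759, 5241600), (805, 5202480), (845, 6007020), (847,
    4653600), (874, 6830520), (897, 6092280), (931, 5350860), (1001, 4501680), (1045, 5961600), (1058,
    6070200), (1083, 6869460), (1127, 6011400), (1183, 5640360), (1235, 5943360), (1265, 6134280),
    (1311, 6801840), (1331, 6327340), (1463, 6605880), (1495, 6180600), (1573, 6125220), (1587,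
    5572140), (1729, 8294880), (1771, 6115320), (1805, 5686800), (1859, 6480660), (2093, 6179640),
    (2185, 6457440), (2197, 5673640), (2299, 6454200), (2527, 6832140), (2645, 6171540), (2717,
    6813720), (2783, 7170780), (3059, 6525960), (3211, 6144000), (3289, 6826440), (3703, 6519480),
    (3887, 6445500), (3971, 5999340), (4693, 5275500), (4807, 5120280), (5681, 4393680), (5819,
    6429060), (6859, 5488020), (6877, 6041940), (8303, 6093360), (10051, 5007960), (12167, 6002780)])) (by norm_num)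
    (by decide +kernel)

end Pool.Agent.Helper52.TS
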