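import Pool.Agent.Helper52.TS.SB1C0a
import Pool.Agent.Helper52.TS.SB1C0b
import Pool.Agent.Helper52.TS.SB1C1a
import Pool.Agent.Helper52.TS.SB1C1b

/-!
# Set B1 of the column `b`: the far cell has kind B for `c` and kind A for `l`
-/

set_option autoImplicit false

namespace Pool.Agent.Helper52.TS

open Pool.Agent.Helper83.Cert Pool.Agent.Helper83.TS Pool.Agent.Helper53.TT
  Pool.Agent.Helper74.TS Pool.Agent.Helper20.TS Pool.Agent.Helper60.TS

private theorem n3_nn {x y z : ℝ} (hb : Bd x y z) : 0 ≤ TallB.n3 z := by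
  unfold TallB.n3
  linarith [hb.z1]

private theorem la_nn {x y z : ℝ} (hb : Bd x y z) : 0 ≤ TallB.la x := by
  unfold TallB.la
  linarith [hb.x0]

/-- the four regimes -/
private theorem regimes {w A B : ℝ} {p : Prop} (h1 : kv 1 w A B → p) (h2 : kv 2 w A B → p)
    (h3 : kv 3 w A B → p) (h4 : kv 4 w A B → p) : p := by
  rcases le_total A w with hA | hA
  · rcases le_total B w with hB | hB
    · exact h4 ⟨hA, hB⟩
    · exact h2 ⟨hA, hB⟩
  · rcases le_total B w with hB | hB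
    · exact h3 ⟨hB, hA⟩
    · exact h1 ⟨hA, hB⟩

private theorem le25 {x y z w s u v A B : ℝ} (h : B ≤ 2 / 5) :
    ∀ g ∈ leB 2 5, 0 ≤ exVal (yv x y z w s u v A B) g :=
  leB_nn (by push_cast; linarith)

private theorem ge25 {x y z w s u v A B : ℝ} (h : 2 / 5 ≤ B) :
    ∀ g ∈ geB 2 5, 0 ≤ exVal (yv x y z w s u v A B) g :=
  geB_nn (by push_cast; linarith)

private theorem le720 {x y z w s u v A B : ℝ} (h : B ≤ 7 / 20) :
    ∀ g ∈ leB 7 20, 0 ≤ exVal (yv x y z w s u v A B) g :=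
  leB_nn (by push_cast; linarith)

private theorem ge720 {x y z w s u v A B : ℝ} (h : 7 / 20 ≤ B) :
    ∀ g ∈ geB 7 20, 0 ≤ exVal (yv x y z w s u v A B) g :=
  geB_nn (by push_cast; linarith)

/-- **Set B1** of the column `b`, the multiplier of `c` reduced -/
theorem sB10 {x y z : ℝ} (hb : Bd x y z) :
    SB1 (TallB.n1 x - TallB.k12 x y) x (TallB.n1 y) y (TallB.la x) (TallB.n3 z) z
      (TallB.wb1 x y z) where
  n0 := n3_nn hb
  la0 := la_nn hb
  m1 := by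
    unfold TallB.n1 TallB.k12 TallB.la
    nlinarith [mul_nonneg hb.x0 hb.y0, hb.x1, hb.y0]
  m2 := by
    unfold TallB.n1
    nlinarith [hb.y0, hb.y1]
  p := by
    intro w A B u v hF hf u0 u1 ua v0 v1 va
    refine regimes (w := w) (A := A) (B := B) (fun hk => ?_) (fun hk => ?_) (fun hk => ?_)
      (fun hk => ?_)
    · exact b1_p hb (ord0 ..) p01 nil_nn hF hf hk u0 u1 ua v0 v1 va
    · exact b1_p hb (ord0 ..) p02 nil_nn hF hf hk u0 u1 ua v0 v1 va
    · rcases le_total B (2 / 5) with h | h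
      · exact b1_p hb (ord0 ..) p03le (le25 h) hF hf hk u0 u1 ua v0 v1 va
      · exact b1_p hb (ord0 ..) p03ge (ge25 h) hF hf hk u0 u1 ua v0 v1 va
    · exact b1_p hb (ord0 ..) p04 nil_nn hF hf hk u0 u1 ua v0 v1 va
  yl := by
    intro w A B u hF hf u0 u1 ua va
    exact b1_y hb (ord0 ..) y0 nil_nn hF hf u0 u1 ua va
  gc := by
    intro w A B s v hF hf s0 s1 sA hm v0 v1 va
    rcases le_total B (7 / 20) with h | h
    · exact b1_c hb (ord0 ..) c0le (le720 h) hF hf s0 s1 sA hm v0 v1 va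
    · exact b1_c hb (ord0 ..) c0ge (ge720 h) hF hf s0 s1 sA hm v0 v1 va
  gl0 := by
    intro w A B t u hF hf t0 t1 hB u0 u1 ua
    rcases le_total A w with hA | hA
    · exact b1_l0 hb (ord0 ..) l004 nil_nn hF hf ⟨hA, hB⟩ t0 t1 hB u0 u1 ua
    · exact b1_l0 hb (ord0 ..) l003 nil_nn hF hf ⟨hB, hA⟩ t0 t1 hB u0 u1 ua
  gl1 := by
    intro w A B t u hF hf t0 t1 hm u0 u1 ua
    rcases le_total A w with hA | hA
    · rcases le_total B w with hB | hB
      · exact b1_l1 hb (ord0 ..) l104 nil_nn hF hf ⟨hA, hB⟩ t0 t1 hm u0 u1 ua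
      · exact b1_l1 hb (ord0 ..) l102 nil_nn hF hf ⟨hA, hB⟩ t0 t1 hm u0 u1 ua
    · exact b1_l1 hb (ord0 ..) l103 nil_nn hF hf ⟨by linarith, hA⟩ t0 t1 hm u0 u1 ua
  gg0 := by
    intro w A B s p hF hf s0 s1 sA hm p0 p1 hB
    exact b1_g0 hb (ord0 ..) g00 nil_nn hF hf s0 s1 sA hm p0 p1 hB
  gg1 := by
    intro w A B s p hF hf s0 s1 sA hm p0 p1
    exact b1_g1 hb (ord0 ..) g10 nil_nn hF hf s0 s1 sA hm p0 p1

/-- **Set B1** of the column `b`, the multiplier of `l` reduced -/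
theorem sB11 {x y z : ℝ} (hb : Bd x y z) :
    SB1 (TallB.n1 x) x (TallB.n1 y - TallB.k12 x y) y (TallB.la x) (TallB.n3 z) z
      (TallB.wb1 x y z) where
  n0 := n3_nn hb
  la0 := la_nn hb
  m1 := by
    unfold TallB.n1 TallB.la
    linarith [hb.x1]
  m2 := by
    unfold TallB.n1 TallB.k12
    nlinarith [mul_nonneg hb.x0 hb.y0, hb.x0, hb.y0, hb.y1]
  p := by
    intro w A B u v hF hf u0 u1 ua v0 v1 va
    refine regimes (w := w) (A := A) (B := B) (fun hk => ?_) (fun hk => ?_) (fun hk => ?_)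
      (fun hk => ?_)
    · exact b1_p hb (ord1 ..) p11 nil_nn hF hf hk u0 u1 ua v0 v1 va
    · exact b1_p hb (ord1 ..) p12 nil_nn hF hf hk u0 u1 ua v0 v1 va
    · rcases le_total B (2 / 5) with h | h
      · exact b1_p hb (ord1 ..) p13le (le25 h) hF hf hk u0 u1 ua v0 v1 va
      · exact b1_p hb (ord1 ..) p13ge (ge25 h) hF hf hk u0 u1 ua v0 v1 va
    · rcases le_total B (2 / 5) with h | h
      · exact b1_p hb (ord1 ..) p14le (le25 h) hF hf hk u0 u1 ua v0 v1 va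
      · exact b1_p hb (ord1 ..) p14ge (ge25 h) hF hf hk u0 u1 ua v0 v1 va
  yl := by
    intro w A B u hF hf u0 u1 ua va
    exact b1_y hb (ord1 ..) y1 nil_nn hF hf u0 u1 ua va
  gc := by
    intro w A B s v hF hf s0 s1 sA hm v0 v1 va
    rcases le_total B (2 / 5) with h | h
    · exact b1_c hb (ord1 ..) c1le (le25 h) hF hf s0 s1 sA hm v0 v1 va
    · exact b1_c hb (ord1 ..) c1ge (ge25 h) hF hf s0 s1 sA hm v0 v1 va
  gl0 := by
    intro w A B t u hF hf t0 t1 hB u0 u1 ua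
    rcases le_total A w with hA | hA
    · exact b1_l0 hb (ord1 ..) l014 nil_nn hF hf ⟨hA, hB⟩ t0 t1 hB u0 u1 ua
    · exact b1_l0 hb (ord1 ..) l013 nil_nn hF hf ⟨hB, hA⟩ t0 t1 hB u0 u1 ua
  gl1 := by
    intro w A B t u hF hf t0 t1 hm u0 u1 ua
    rcases le_total A w with hA | hA
    · rcases le_total B w with hB | hB
      · rcases le_total B (2 / 5) with h | h
        · exact b1_l1 hb (ord1 ..) l114le (le25 h) hF hf ⟨hA, hB⟩ t0 t1 hm u0 u1 ua
        · exact b1_l1 hb (ord1 ..) l114ge (ge25 h) hF hf ⟨hA, hB⟩ t0 t1 hm u0 u1 ua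
      · exact b1_l1 hb (ord1 ..) l112 nil_nn hF hf ⟨hA, hB⟩ t0 t1 hm u0 u1 ua
    · rcases le_total B (2 / 5) with h | h
      · exact b1_l1 hb (ord1 ..) l113le (le25 h) hF hf ⟨by linarith, hA⟩ t0 t1 hm u0 u1 ua
      · exact b1_l1 hb (ord1 ..) l113ge (ge25 h) hF hf ⟨by linarith, hA⟩ t0 t1 hm u0 u1 ua
  gg0 := by
    intro w A B s p hF hf s0 s1 sA hm p0 p1 hB
    exact b1_g0 hb (ord1 ..) g01 nil_nn hF hf s0 s1 sA hm p0 p1 hB
  gg1 := by
    intro w A B s p hF hf s0 s1 sA hm p0 p1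
    exact b1_g1 hb (ord1 ..) g11 nil_nn hF hf s0 s1 sA hm p0 p1

end Pool.Agent.Helper52.TS
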