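import Pool.Agent.Helper52.TS.SB1L

/-!
# Set B1 of the column `b`: the certificates, order 0, part a
-/

set_option autoImplicit false
set_option maxRecDepth 100000

namespace Pool.Agent.Helper52.TS

open Pool.Agent.Helper83.Cert Pool.Agent.Helper83.TS Pool.Agent.Helper20.TS


theorem p01 : Ck (gP1 1 []) (pW (vP1 1 0)) :=
  .mk' 1000000 (.add (.add (.add (.add (.add (.mul (.g 13) (.add (.add (.add (.add (.mul (.pp [(1, 1307220)])
    (.sq [(1, 12), (2, -79), (3, -17), (5, -100), (7, -11), (13, -83), (17, -29), (19, 60), (23,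
    67)])) (.mul (.pp [(1, 2877360)]) (.sq [(2, -100), (3, 4), (5, 70), (7, -37), (13, -38), (17, 96),
    (19, -12), (23, 86)]))) (.add (.mul (.pp [(1, 1462800)]) (.sq [(1, 22), (2, 10), (3, -62), (5,
    46), (7, 9), (13, 100), (17, -91), (19, -21), (23, 9)])) (.mul (.pp [(1, 899040)]) (.sq [(1, -23),
    (2, -8), (3, 19), (5, 67), (7, 64), (13, 36), (17, -100), (19, 45), (23, -22)])))) (.add (.add
    (.mul (.pp [(1, 207360)]) (.sq [(2, -100), (3, 76), (5, 53), (7, -1), (13, 68), (17, -79), (19,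
    -54), (23, -90)])) (.mul (.pp [(1, 1857300)]) (.sq [(1, 23), (3, -6), (5, 100), (7, 8), (13, -91),
    (17, -44), (19, 25), (23, 8)]))) (.add (.mul (.pp [(1, 331860)]) (.sq [(2, 40), (3, 50), (5, 100),
    (7, -33), (13, -47), (17, 30), (19, 8), (23, -10)])) (.add (.mul (.g 18) (.add (.add (.pp [(1,
    59753400000)]) (.add (.mul (.g 6) (.pp [(1, 101167800000)])) (.mul (.g 7) (.pp [(1,
    164005800000)])))) (.add (.add (.mul (.g 9) (.pp [(1, 13143600000)])) (.mul (.g 10) (.pp [(1,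
    44511000000)]))) (.add (.mul (.g 20) (.pp [(1, 9608640000)])) (.mul (.g 21) (.pp [(1,
    4345680000)])))))) (.mul (.g 19) (.add (.add (.mul (.g 3) (.pp [(1, 1854960000)])) (.add (.mul (.g
    8) (.pp [(1, 180000000)])) (.mul (.g 11) (.pp [(1, 8004120000)])))) (.add (.mul (.g 13) (.pp [(1,
    13304520000)])) (.add (.mul (.g 16) (.pp [(1, 9074160000)])) (.mul (.g 20) (.pp [(1,
    3080952000)])))))))))) (.add (.add (.add (.mul (.g 0) (.add (.add (.pp [(1, 1395210000)]) (.mul
    (.g 6) (.pp [(1, 4255440000)]))) (.add (.mul (.g 15) (.pp [(1, 4538760000)])) (.mul (.g 20) (.pp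
    [(1, 2137314000)]))))) (.mul (.g 7) (.add (.add (.pp [(1, 86184600000)]) (.mul (.g 7) (.pp [(1,
    41438400000)]))) (.add (.mul (.g 10) (.pp [(1, 49251600000)])) (.mul (.g 20) (.pp [(1,
    34130760000)])))))) (.add (.mul (.g 9) (.add (.pp [(1, 23701800000)]) (.add (.mul (.g 8) (.pp [(1,
    26064600000)])) (.mul (.g 12) (.pp [(1, 36996600000)]))))) (.add (.mul (.g 11) (.add (.mul (.g 1)
    (.pp [(1, 23579400000)])) (.add (.mul (.g 3) (.pp [(1, 17470200000)])) (.mul (.g 12) (.pp [(1,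
    53845800000)]))))) (.mul (.g 4) (.add (.mul (.g 13) (.pp [(1, 20182800000)])) (.mul (.g 16) (.pp
    [(1, 76457400000)]))))))) (.add (.add (.mul (.g 17) (.add (.mul (.g 2) (.pp [(1, 50620200000)]))
    (.mul (.g 17) (.pp [(1, 22794000000)])))) (.mul (.g 20) (.add (.mul (.g 13) (.pp [(1,
    35882040000)])) (.mul (.g 20) (.pp [(1, 8187864000)]))))) (.add (.mul (.g 5) (.pp [(1,
    99618600000)])) (.add (.mul (.g 8) (.pp [(1, 1362600000)])) (.mul (.g 12) (.pp [(1,
    71001600000)])))))))) (.mul (.g 0) (.add (.add (.add (.mul (.pp [(1, 66276)]) (.sq [(1, -9), (2,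
    40), (3, -29), (5, -47), (7, -13), (13, 100), (17, -97), (19, 85), (23, -47)])) (.add (.mul (.pp
    [(1, 94434)]) (.sq [(1, 12), (2, -20), (3, -57), (5, 83), (7, 2), (13, -100), (17, 6), (19, 17),
    (23, -4)])) (.mul (.pp [(1, 57984)]) (.sq [(1, -36), (2, 7), (3, 11), (5, 100), (7, -27), (13,
    50), (17, -16), (19, -18), (23, 20)])))) (.add (.mul (.pp [(1, 37749)]) (.sq [(1, -100), (2, -24),
    (3, 17), (5, 67), (7, 47), (13, 53), (17, -28), (19, -41), (23, 68)])) (.add (.mul (.pp [(1,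
    36207)]) (.sq [(2, -100), (3, 61), (5, -5), (7, -3), (13, 63), (17, -7), (19, 100), (23, -97)]))
    (.mul (.g 20) (.add (.add (.pp [(1, 916578000)]) (.add (.mul (.g 6) (.pp [(1, 202242000)])) (.mul
    (.g 9) (.pp [(1, 145716000)])))) (.add (.mul (.g 10) (.pp [(1, 525516000)])) (.add (.mul (.g 11)
    (.pp [(1, 149052000)])) (.mul (.g 17) (.pp [(1, 250962000)]))))))))) (.add (.add (.mul (.g 7)
    (.add (.add (.mul (.g 3) (.pp [(1, 8261430000)])) (.mul (.g 8) (.pp [(1, 1567170000)]))) (.add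
    (.mul (.g 11) (.pp [(1, 7722450000)])) (.add (.mul (.g 15) (.pp [(1, 4338390000)])) (.mul (.g 21)
    (.pp [(1, 809472000)])))))) (.add (.mul (.g 5) (.add (.add (.pp [(1, 34852650000)]) (.mul (.g 8)
    (.pp [(1, 809970000)]))) (.add (.mul (.g 15) (.pp [(1, 10282860000)])) (.mul (.g 18) (.pp [(1,
    2735760000)]))))) (.mul (.g 21) (.add (.add (.pp [(1, 1935636000)]) (.mul (.g 1) (.pp [(1,
    1993680000)]))) (.add (.mul (.g 11) (.pp [(1, 591492000)])) (.mul (.g 21) (.pp [(1,
    60416400)]))))))) (.add (.mul (.g 6) (.add (.pp [(1, 2146200000)]) (.add (.mul (.g 2) (.pp [(1,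
    2545980000)])) (.mul (.g 16) (.pp [(1, 558570000)]))))) (.add (.mul (.g 1) (.mul (.g 19) (.pp [(1,
    639228000)]))) (.mul (.g 16) (.mul (.g 16) (.pp [(1, 752910000)]))))))))) (.add (.mul (.g 5) (.add
    (.add (.add (.mul (.pp [(1, 847620)]) (.sq [(1, 9), (2, -36), (3, -42), (5, 62), (7, 32), (13,
    -97), (17, -21), (19, 31), (23, 100)])) (.add (.mul (.pp [(1, 11318640)]) (.sq [(1, 2), (2, 40),
    (3, 100), (5, 80), (7, -39), (13, -22), (17, -12), (19, -10), (23, -39)])) (.mul (.pp [(1,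
    2773980)]) (.sq [(2, -82), (3, 20), (5, 8), (7, -49), (13, 36), (17, 100), (19, 14), (23,
    -34)])))) (.add (.add (.mul (.pp [(1, 2847660)]) (.sq [(2, -2), (3, 8), (5, -26), (7, -55), (13,
    -42), (17, 100), (19, -25), (23, -56)])) (.mul (.pp [(1, 1377420)]) (.sq [(1, 3), (2, 59), (3,
    -43), (5, -27), (7, -100), (13, 91), (17, -24), (19, 17), (23, -55)]))) (.add (.mul (.pp [(1,
    2373840)]) (.sq [(1, 22), (2, -38), (3, 24), (5, -20), (7, 39), (13, 4), (17, 60), (19, -100),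
    (23, -3)])) (.mul (.pp [(1, 6084240)]) (.sq [(1, 53), (2, -21), (3, -89), (5, 97), (7, -6), (13,
    5), (17, 3), (19, -9), (23, -100)]))))) (.add (.add (.add (.mul (.g 20) (.add (.add (.mul (.g 11)
    (.pp [(1, 27387600000)])) (.mul (.g 17) (.pp [(1, 6700560000)]))) (.add (.mul (.g 18) (.pp [(1,
    8088480000)])) (.mul (.g 19) (.pp [(1, 665424000)]))))) (.mul (.g 5) (.add (.pp [(1,
    37066800000)]) (.add (.mul (.g 6) (.pp [(1, 73425600000)])) (.mul (.g 16) (.pp [(1,
    10181400000)])))))) (.add (.mul (.g 7) (.add (.pp [(1, 253369800000)]) (.add (.mul (.g 11) (.pp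
    [(1, 86081400000)])) (.mul (.g 18) (.pp [(1, 8034000000)]))))) (.mul (.g 2) (.add (.mul (.g 6)
    (.pp [(1, 40341600000)])) (.mul (.g 10) (.pp [(1, 18371400000)])))))) (.add (.add (.mul (.g 21)
    (.add (.mul (.g 9) (.pp [(1, 4617600000)])) (.mul (.g 10) (.pp [(1, 2539440000)])))) (.mul (.g 8)
    (.mul (.g 18) (.pp [(1, 58692600000)])))) (.add (.mul (.g 12) (.mul (.g 17) (.pp [(1,
    28869000000)]))) (.mul (.g 16) (.mul (.g 19) (.pp [(1, 610080000)])))))))) (.mul (.g 7) (.add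
    (.add (.add (.mul (.pp [(1, 4099800000)]) (.sq [(5, -1), (7, 1)])) (.mul (.pp [(1, 5876100)]) (.sq
    [(2, -82), (3, -100), (5, 97), (7, 41), (13, 18), (17, 90), (19, -20), (23, -42)]))) (.add (.mul
    (.pp [(1, 6192300)]) (.sq [(2, -1), (3, -6), (5, 41), (7, 57), (13, 31), (17, -81), (19, -14),
    (23, 100)])) (.mul (.pp [(1, 4235220)]) (.sq [(1, 5), (2, 16), (3, 44), (5, 26), (7, 30), (13,
    -100), (17, -20), (19, -32), (23, 65)])))) (.add (.add (.mul (.g 20) (.add (.add (.pp [(1,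
    16042440000)]) (.mul (.g 3) (.pp [(1, 8530680000)]))) (.add (.mul (.g 12) (.pp [(1, 8147160000)]))
    (.add (.mul (.g 16) (.pp [(1, 5235960000)])) (.mul (.g 18) (.pp [(1, 1661640000)])))))) (.mul (.g
    7) (.add (.add (.mul (.g 2) (.pp [(1, 88570200000)])) (.mul (.g 7) (.pp [(1, 43480800000)])))
    (.add (.mul (.g 11) (.pp [(1, 280099200000)])) (.mul (.g 19) (.pp [(1, 516120000)])))))) (.add
    (.mul (.g 9) (.add (.pp [(1, 15494400000)]) (.add (.mul (.g 8) (.pp [(1, 11566200000)])) (.mul (.g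
    19) (.pp [(1, 6648120000)]))))) (.add (.mul (.g 16) (.add (.mul (.g 11) (.pp [(1, 52136400000)]))
    (.add (.mul (.g 15) (.pp [(1, 10829400000)])) (.mul (.g 18) (.pp [(1, 123310200000)]))))) (.mul
    (.g 18) (.add (.pp [(1, 29730600000)]) (.mul (.g 1) (.pp [(1, 66807600000)]))))))))))) (.add (.add
    (.mul (.g 16) (.add (.add (.add (.mul (.pp [(1, 124680)]) (.sq [(1, -7), (2, -51), (3, -100), (5,
    23), (7, -4), (13, 71), (17, -46), (19, 53), (23, -57)])) (.mul (.pp [(1, 333240)]) (.sq [(1,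
    -27), (2, 26), (3, 54), (5, 100), (7, -16), (13, 24), (17, 51), (19, -20), (23, -31)]))) (.add
    (.mul (.pp [(1, 233940)]) (.sq [(1, -20), (2, 100), (3, -10), (5, -64), (7, 87), (13, -9), (17,
    -91), (19, -3), (23, 55)])) (.mul (.pp [(1, 50400)]) (.sq [(1, -47), (2, 71), (3, -12), (5, 13),
    (7, -34), (13, -35), (17, 38), (19, 100), (23, -11)])))) (.add (.add (.mul (.g 9) (.add (.add
    (.mul (.g 3) (.pp [(1, 20505000000)])) (.mul (.g 8) (.pp [(1, 10498200000)]))) (.add (.mul (.g 10)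
    (.pp [(1, 33499800000)])) (.mul (.g 17) (.pp [(1, 151875600000)]))))) (.mul (.g 18) (.add (.mul
    (.g 6) (.pp [(1, 93169800000)])) (.add (.mul (.g 16) (.pp [(1, 1378800000)])) (.mul (.g 18) (.pp
    [(1, 15209400000)])))))) (.add (.mul (.g 20) (.add (.mul (.g 10) (.pp [(1, 2072880000)])) (.mul
    (.g 19) (.pp [(1, 678336000)])))) (.mul (.g 16) (.mul (.g 16) (.pp [(1, 17236800000)]))))))) (.mul
    (.g 20) (.add (.add (.mul (.pp [(1, 659028)]) (.sq [(1, 61), (2, 18), (3, -57), (5, 53), (7, 4),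
    (13, 100), (17, -90), (19, -32), (23, 4)])) (.add (.mul (.pp [(1, 37488)]) (.sq [(1, -71), (2,
    -9), (3, 49), (5, 51), (7, 31), (13, -100), (17, -48), (19, 67), (23, 10)])) (.mul (.pp [(1,
    792276)]) (.sq [(1, 50), (2, 8), (3, 66), (5, 68), (7, -66), (13, -21), (17, 100), (19, -34), (23,
    -70)])))) (.add (.add (.mul (.pp [(1, 1075224)]) (.sq [(1, 27), (2, -75), (3, 19), (5, -8), (7,
    -34), (13, 100), (17, -13), (19, -22), (23, 14)])) (.mul (.pp [(1, 767988)]) (.sq [(1, -56), (2,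
    -24), (3, 86), (7, 11), (13, 49), (17, 100), (19, 23), (23, -62)]))) (.add (.mul (.g 10) (.add
    (.add (.mul (.g 6) (.pp [(1, 4792200000)])) (.mul (.g 8) (.pp [(1, 4212120000)]))) (.add (.mul (.g
    11) (.pp [(1, 2918040000)])) (.add (.mul (.g 18) (.pp [(1, 10021440000)])) (.mul (.g 20) (.pp [(1,
    1736736000)])))))) (.mul (.g 18) (.add (.mul (.g 19) (.pp [(1, 1698504000)])) (.mul (.g 20) (.pp
    [(1, 2595480000)]))))))))) (.add (.mul (.g 4) (.add (.mul (.pp [(1, 1930440)]) (.sq [(1, -32), (2,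
    -49), (3, -25), (5, 51), (7, -85), (13, 34), (17, 38), (19, -18), (23, 100)])) (.add (.mul (.pp
    [(1, 661740)]) (.sq [(1, -46), (2, -22), (3, -5), (5, 100), (7, -66), (13, 99), (17, 46), (19,
    25), (23, -25)])) (.mul (.pp [(1, 10464900)]) (.sq [(1, -3), (2, -23), (3, -46), (5, 100), (7,
    -9), (13, -1), (17, 41), (19, -10), (23, -5)]))))) (.add (.mul (.g 19) (.add (.mul (.pp [(1,
    2047572)]) (.sq [(1, 3), (2, 20), (3, -20), (5, -43), (7, 19), (13, 100), (17, -36), (19, -15),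
    (23, 10)])) (.add (.mul (.pp [(1, 1721220)]) (.sq [(1, -16), (2, 24), (3, -8), (5, 48), (7, -5),
    (13, 100), (17, 31), (19, -30), (23, -20)])) (.mul (.pp [(1, 759324)]) (.sq [(1, 28), (2, -52),
    (3, -43), (5, -5), (7, -51), (13, 100), (17, -13), (19, 21), (23, -38)]))))) (.mul (.g 21) (.add
    (.mul (.pp [(1, 138636)]) (.sq [(1, -4), (2, -18), (3, -38), (5, 56), (7, -14), (13, 100), (17,
    -21), (19, 18), (23, -1)])) (.add (.mul (.pp [(1, 587448)]) (.sq [(1, 30), (2, -58), (3, 12), (5,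
    100), (7, 7), (13, -53), (17, -15), (19, -54), (23, 41)])) (.mul (.g 18) (.mul (.g 18) (.pp [(1,
    14572080000)])))))))))) (.add (.add (.add (.mul (.g 9) (.add (.mul (.pp [(1, 4470360)]) (.sq [(1,
    58), (2, -8), (3, 10), (5, 100), (7, -29), (13, -45), (17, 15), (19, -56), (23, 2)])) (.mul (.pp
    [(1, 1168200)]) (.sq [(2, -3), (3, -34), (5, 22), (7, -5), (13, 100), (17, -24), (19, 15), (23,
    -11)])))) (.mul (.g 10) (.add (.mul (.pp [(1, 1413660)]) (.sq [(1, -36), (2, -13), (3, -29), (5,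
    -13), (7, 89), (13, 45), (17, -46), (19, 85), (23, -100)])) (.mul (.pp [(1, 82860)]) (.sq [(1,
    -57), (2, -100), (3, -16), (5, 79), (7, 23), (13, 63), (17, -27), (19, 1), (23, 50)]))))) (.add
    (.mul (.g 11) (.add (.mul (.pp [(1, 4006560)]) (.sq [(1, 4), (2, -24), (3, -29), (5, 17), (7, -3),
    (13, 100), (17, -15), (23, -5)])) (.mul (.pp [(1, 2106780)]) (.sq [(1, 16), (2, 21), (3, -27), (5,
    100), (7, -42), (13, -19), (17, 29), (19, 14), (23, -31)])))) (.mul (.g 2) (.mul (.pp [(1,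
    1831560)]) (.sq [(1, -2), (2, -40), (3, -29), (5, 8), (7, -16), (13, 100), (17, -17), (19, 27),
    (23, -15)]))))) (.add (.add (.mul (.g 6) (.mul (.pp [(1, 3231660)]) (.sq [(1, 1), (2, -23), (3,
    -19), (5, -24), (7, -6), (13, 100), (17, -40), (19, 13), (23, 19)]))) (.mul (.g 8) (.mul (.pp [(1,
    1753680)]) (.sq [(1, 37), (2, -63), (3, -15), (5, -75), (7, 14), (13, 100), (17, -57), (19, -39),
    (23, 43)])))) (.add (.mul (.g 12) (.mul (.pp [(1, 638640)]) (.sq [(1, -4), (2, 40), (3, 19), (5,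
    53), (7, -21), (13, -100), (17, 64), (19, 8), (23, -23)]))) (.add (.mul (.g 17) (.mul (.pp [(1,
    9779820)]) (.sq [(1, -4), (2, -42), (3, -15), (5, 24), (7, -4), (13, 100), (17, -17), (19, 4),
    (23, -8)]))) (.mul (.g 18) (.mul (.pp [(1, 1354380)]) (.sq [(1, -52), (2, 100), (3, 53), (5, -57),
    (7, 28), (13, -73), (17, -27), (19, 80), (23, -46)])))))))) (.pp [(1, 2931678348), (2, 5808696),
    (3, 5838024), (4, 6092988), (5, 4850832), (6, 7027776), (7, 6803604), (8, 5997300), (9, 6093702),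
    (10, 6360312), (12, 5653260), (13, 6230412), (14, 5087136), (15, 6289764), (17, 6800748), (18,
    6793200), (19, 5754060), (20, 6117240), (21, 6705996), (23, 5711148), (25, 6311346), (26,
    6778776), (27, 6235500), (28, 6489840), (30, 6426960), (34, 6826872), (35, 6919500), (38,
    6063288), (39, 5716092), (42, 5525400), (45, 6380700), (46, 5592744), (49, 6746856), (50,
    5216400), (51, 5736678), (52, 5435220), (57, 5781690), (63, 5858100), (65, 5279772), (68,
    6078600), (69, 4708026), (70, 6254880), (75, 6248460), (76, 5787120), (78, 5709720), (85,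
    5625210), (91, 5312016), (92, 6518760), (95, 7232958), (98, 6080520), (102, 5536080), (105,
    6958200), (114, 5236440), (115, 7137198), (117, 6547260), (119, 5210238), (125, 6231860), (130,
    5726520), (133, 3964290), (138, 5814120), (147, 5902620), (153, 6215640), (161, 5295810), (169,
    5945304), (170, 5141280), (171, 5673720), (175, 5822820), (182, 5771640), (190, 7162320), (195,
    5172480), (207, 5716260), (221, 7020522), (230, 4944720), (238, 6953640), (245, 6106680), (247,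
    4678422), (255, 6200040), (266, 5430360), (273, 6463440), (285, 5457360), (289, 4215927), (299,
    7379502), (322, 6942360), (323, 6525096), (325, 6242640), (338, 6310980), (343, 5772420), (345,
    5066520), (357, 5578680), (361, 6164211), (391, 6226146), (399, 6585360), (425, 5396520), (437,
    7617312), (442, 5566560), (455, 5939040), (475, 5425740), (483, 5510880), (494, 6294120), (507,
    5603940), (529, 5288139), (575, 6001860), (578, 5797680), (595, 5592000), (598, 5006760), (637,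
    6315000), (646, 5982960), (663, 6736200), (665, 6151200), (722, 5932740), (741, 6441120), (782,
    5663760), (805, 5458320), (833, 5458080), (845, 6249900), (867, 5935800), (874, 6398760), (897,
    5485200), (931, 5324340), (969, 6168720), (1058, 6186420), (1083, 5798160), (1105, 6738480),
    (1127, 5622180), (1173, 5254800), (1183, 6233100), (1235, 5817000), (1311, 7010520), (1445,
    6167880), (1495, 6407280), (1547, 6130680), (1587, 6552900), (1615, 5673000), (1729, 6738120),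
    (1805, 5718840), (1955, 6698640), (2023, 5857080), (2093, 4844640), (2185, 5100000), (2197,
    6146160), (2261, 6216600), (2527, 7438920), (2645, 6094620), (2737, 7539120), (2873, 5415480),
    (3059, 6384840), (3211, 5810040), (3703, 6361800), (3757, 5885820), (3887, 5591280), (4199,
    5274360), (4693, 6395160), (4913, 6300600), (5083, 5014800), (5491, 6869100), (5681, 6487320),
    (6137, 5404740), (6647, 7372680), (6859, 5938020), (6877, 6494040), (7429, 5800800), (8303,
    5061420), (8993, 5506920), (10051, 5644680), (12167, 6595740)])) (by norm_num)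
    (by decide +kernel)

theorem p02 : Ck (gP1 2 []) (pW (vP1 2 0)) :=
  .mk' 1000000 (.add (.add (.add (.add (.add (.mul (.g 13) (.add (.add (.add (.add (.mul (.pp [(1, 84540)]) (.sq
    [(2, 49), (3, -59), (5, -93), (7, -84), (17, 27), (19, 13), (23, 100)])) (.mul (.pp [(1, 747540)])
    (.sq [(1, 12), (2, 23), (3, -68), (5, 100), (7, 8), (13, 74), (17, -92), (19, -52), (23, 8)])))
    (.add (.mul (.pp [(1, 919560)]) (.sq [(2, -61), (3, 81), (5, 23), (7, -24), (13, -2), (17, -43),
    (19, 71), (23, -100)])) (.add (.mul (.pp [(1, 2057280)]) (.sq [(2, -28), (3, -100), (5, -10), (7,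
    27), (13, -29), (17, -52), (19, 85), (23, -30)])) (.mul (.pp [(1, 1945140)]) (.sq [(2, 15), (3,
    -27), (5, 100), (7, -94), (13, 14), (17, 30), (19, 21), (23, 16)]))))) (.add (.add (.mul (.pp [(1,
    866640)]) (.sq [(1, -58), (2, 7), (3, -5), (5, -10), (7, -25), (13, 65), (17, 92), (19, -100),
    (23, -25)])) (.mul (.pp [(1, 2254920)]) (.sq [(2, 22), (3, 13), (5, 13), (7, 3), (13, -8), (17,
    100), (19, 23), (23, -48)]))) (.add (.mul (.g 8) (.add (.add (.mul (.g 0) (.pp [(1, 991740000)]))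
    (.mul (.g 10) (.pp [(1, 15518400000)]))) (.add (.mul (.g 13) (.pp [(1, 57508800000)])) (.mul (.g
    15) (.pp [(1, 42663000000)]))))) (.add (.mul (.g 9) (.add (.add (.pp [(1, 22349400000)]) (.mul (.g
    12) (.pp [(1, 62562000000)]))) (.add (.mul (.g 16) (.pp [(1, 2604600000)])) (.mul (.g 17) (.pp
    [(1, 101932200000)]))))) (.mul (.g 11) (.add (.add (.mul (.g 0) (.pp [(1, 1667310000)])) (.mul (.g
    3) (.pp [(1, 102887400000)]))) (.add (.mul (.g 12) (.pp [(1, 57476400000)])) (.mul (.g 13) (.pp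
    [(1, 29158800000)]))))))))) (.add (.add (.add (.mul (.g 6) (.add (.pp [(1, 92757000000)]) (.add
    (.mul (.g 16) (.pp [(1, 23535000000)])) (.mul (.g 20) (.pp [(1, 4879320000)]))))) (.mul (.g 10)
    (.add (.mul (.g 0) (.pp [(1, 2715300000)])) (.add (.mul (.g 19) (.pp [(1, 2841240000)])) (.mul (.g
    20) (.pp [(1, 1813800000)])))))) (.add (.mul (.g 18) (.add (.pp [(1, 21964200000)]) (.add (.mul
    (.g 3) (.pp [(1, 14970000000)])) (.mul (.g 13) (.pp [(1, 9530400000)]))))) (.add (.mul (.g 7)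
    (.add (.pp [(1, 81778200000)]) (.mul (.g 21) (.pp [(1, 5462040000)])))) (.mul (.g 1) (.pp [(1,
    6963600000)]))))) (.add (.add (.mul (.g 4) (.mul (.g 17) (.pp [(1, 1165800000)]))) (.mul (.g 12)
    (.pp [(1, 104130600000)]))) (.add (.mul (.g 13) (.mul (.g 16) (.pp [(1, 28954800000)]))) (.add
    (.mul (.g 19) (.pp [(1, 2345400000)])) (.mul (.g 20) (.pp [(1, 31516080000)])))))))) (.mul (.g 6)
    (.add (.add (.add (.mul (.pp [(1, 2375880)]) (.sq [(2, 60), (3, -54), (5, 13), (7, 2), (13, -76),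
    (17, 100), (19, 22), (23, 97)])) (.add (.mul (.pp [(1, 3541140)]) (.sq [(2, 100), (3, 1), (5, 2),
    (13, 77), (17, -20), (23, -61)])) (.mul (.pp [(1, 2123940)]) (.sq [(1, -6), (2, 1), (3, 19), (5,
    100), (7, 25), (13, -34), (17, -80), (19, -49), (23, -4)])))) (.add (.add (.mul (.pp [(1,
    1758300)]) (.sq [(2, 15), (3, -32), (5, -64), (7, -17), (13, 53), (17, -61), (19, 100), (23,
    17)])) (.mul (.g 7) (.add (.add (.pp [(1, 329160600000)]) (.mul (.g 6) (.pp [(1, 13422600000)])))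
    (.add (.mul (.g 16) (.pp [(1, 150523800000)])) (.mul (.g 21) (.pp [(1, 23048760000)])))))) (.add
    (.mul (.g 2) (.add (.mul (.g 1) (.pp [(1, 18168600000)])) (.add (.mul (.g 6) (.pp [(1,
    166942200000)])) (.mul (.g 19) (.pp [(1, 1342440000)]))))) (.mul (.g 11) (.add (.mul (.g 4) (.pp
    [(1, 39456600000)])) (.add (.mul (.g 6) (.pp [(1, 49138200000)])) (.mul (.g 12) (.pp [(1,
    11868600000)])))))))) (.add (.add (.add (.mul (.g 0) (.add (.mul (.g 8) (.pp [(1, 9511590000)]))
    (.mul (.g 18) (.pp [(1, 15882810000)])))) (.mul (.g 3) (.add (.mul (.g 19) (.pp [(1,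
    4927920000)])) (.mul (.g 20) (.pp [(1, 4109280000)]))))) (.add (.mul (.g 5) (.add (.mul (.g 4)
    (.pp [(1, 41529000000)])) (.mul (.g 21) (.pp [(1, 8190240000)])))) (.mul (.g 9) (.add (.pp [(1,
    19515000000)]) (.mul (.g 16) (.pp [(1, 43831800000)])))))) (.add (.add (.mul (.g 1) (.mul (.g 15)
    (.pp [(1, 168340800000)]))) (.mul (.g 10) (.pp [(1, 95732400000)]))) (.add (.mul (.g 16) (.mul (.g
    19) (.pp [(1, 6526680000)]))) (.mul (.g 20) (.pp [(1, 36344640000)])))))))) (.add (.mul (.g 10)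
    (.add (.add (.add (.mul (.pp [(1, 1911720)]) (.sq [(1, 15), (2, 100), (3, -32), (5, 1), (7, -11),
    (13, -23), (17, -58), (19, 28), (23, -9)])) (.mul (.pp [(1, 331200000)]) (.sq [(7, 1), (19,
    -1)]))) (.add (.mul (.pp [(1, 370860)]) (.sq [(1, -6), (2, -26), (3, 77), (5, 100), (7, 2), (13,
    7), (17, -60), (19, 37), (23, -82)])) (.add (.mul (.pp [(1, 2894220)]) (.sq [(2, 3), (3, -100),
    (5, 10), (7, 10), (17, 54), (19, 78), (23, -25)])) (.mul (.g 16) (.add (.add (.pp [(1,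
    95427000000)]) (.mul (.g 2) (.pp [(1, 9771000000)]))) (.add (.mul (.g 16) (.pp [(1,
    20027400000)])) (.mul (.g 18) (.pp [(1, 14082000000)])))))))) (.add (.add (.mul (.g 8) (.add (.mul
    (.g 1) (.pp [(1, 33214200000)])) (.add (.mul (.g 5) (.pp [(1, 15810000000)])) (.mul (.g 19) (.pp
    [(1, 12341520000)]))))) (.mul (.g 20) (.add (.pp [(1, 12084240000)]) (.add (.mul (.g 3) (.pp [(1,
    195600000)])) (.mul (.g 12) (.pp [(1, 956400000)])))))) (.add (.mul (.g 21) (.add (.mul (.g 7)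
    (.pp [(1, 11847480000)])) (.add (.mul (.g 10) (.pp [(1, 478440000)])) (.mul (.g 18) (.pp [(1,
    5639880000)]))))) (.add (.mul (.g 5) (.pp [(1, 88714800000)])) (.mul (.g 7) (.pp [(1,
    112692000000)]))))))) (.mul (.g 7) (.add (.add (.add (.mul (.pp [(1, 188040)]) (.sq [(2, -17), (3,
    100), (5, 58), (7, -40), (13, 49), (17, -73), (19, -8), (23, -23)])) (.mul (.pp [(1, 563400)])
    (.sq [(2, 100), (3, 15), (5, -42), (7, 33), (13, 13), (17, 4), (19, 39), (23, -77)]))) (.add (.mul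
    (.g 1) (.add (.mul (.g 2) (.pp [(1, 76720200000)])) (.add (.mul (.g 16) (.pp [(1, 105084600000)]))
    (.mul (.g 18) (.pp [(1, 280284600000)]))))) (.mul (.g 20) (.add (.pp [(1, 11409840000)]) (.add
    (.mul (.g 2) (.pp [(1, 15162240000)])) (.mul (.g 19) (.pp [(1, 1958928000)]))))))) (.add (.add
    (.mul (.g 7) (.add (.pp [(1, 59973600000)]) (.mul (.g 15) (.pp [(1, 19114800000)])))) (.mul (.g 8)
    (.add (.pp [(1, 56161200000)]) (.mul (.g 18) (.pp [(1, 35751000000)]))))) (.add (.mul (.g 21)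
    (.add (.mul (.g 9) (.pp [(1, 17429040000)])) (.mul (.g 11) (.pp [(1, 2248080000)])))) (.add (.mul
    (.g 5) (.pp [(1, 41857800000)])) (.mul (.g 17) (.mul (.g 17) (.pp [(1, 29320200000)]))))))))))
    (.add (.add (.mul (.g 16) (.add (.add (.mul (.pp [(1, 2108640)]) (.sq [(1, 4), (2, 31), (3, 66),
    (5, 100), (7, -9), (13, -54), (17, 76), (19, -28), (23, -54)])) (.add (.mul (.g 21) (.add (.add
    (.mul (.g 3) (.pp [(1, 1750560000)])) (.mul (.g 8) (.pp [(1, 4272120000)]))) (.add (.mul (.g 17)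
    (.pp [(1, 6450360000)])) (.add (.mul (.g 19) (.pp [(1, 223104000)])) (.mul (.g 21) (.pp [(1,
    575784000)])))))) (.mul (.g 8) (.add (.mul (.g 9) (.pp [(1, 117585600000)])) (.add (.mul (.g 19)
    (.pp [(1, 13543440000)])) (.mul (.g 20) (.pp [(1, 2883960000)]))))))) (.add (.mul (.g 11) (.add
    (.mul (.g 19) (.pp [(1, 4852800000)])) (.mul (.g 20) (.pp [(1, 3783720000)])))) (.add (.mul (.g 1)
    (.mul (.g 9) (.pp [(1, 29968800000)]))) (.mul (.g 19) (.mul (.g 19) (.pp [(1, 1547736000)])))))))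
    (.mul (.g 20) (.add (.add (.add (.mul (.pp [(1, 210540)]) (.sq [(2, 37), (3, -40), (5, 84), (7,
    -36), (13, 100), (17, 70), (19, -82), (23, 73)])) (.mul (.pp [(1, 1004268)]) (.sq [(2, 100), (3,
    1), (5, -47), (13, -2), (17, -37), (19, -1), (23, -2)]))) (.add (.mul (.pp [(1, 847896)]) (.sq
    [(1, -23), (2, 7), (3, 100), (5, -11), (7, -6), (13, -3), (17, 30), (19, -12), (23, -21)])) (.add
    (.mul (.pp [(1, 294480)]) (.sq [(2, 9), (3, 9), (5, 95), (7, 18), (13, 1), (17, -25), (19, 41),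
    (23, -100)])) (.mul (.pp [(1, 674196)]) (.sq [(1, 45), (2, -20), (3, 18), (5, 100), (7, 1), (13,
    -66), (17, -12), (19, -4), (23, -25)]))))) (.add (.add (.mul (.g 18) (.add (.pp [(1, 4197000000)])
    (.mul (.g 3) (.pp [(1, 1305960000)])))) (.mul (.g 0) (.mul (.g 2) (.pp [(1, 38766000)])))) (.add
    (.mul (.g 11) (.mul (.g 11) (.pp [(1, 19347840000)]))) (.add (.mul (.g 12) (.mul (.g 12) (.pp [(1,
    9670920000)]))) (.mul (.g 17) (.mul (.g 20) (.pp [(1, 524496000)]))))))))) (.add (.mul (.g 1)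
    (.add (.add (.mul (.pp [(1, 208200)]) (.sq [(2, 33), (3, -100), (5, 11), (7, 2), (13, 92), (17,
    30), (19, 36), (23, -57)])) (.add (.mul (.pp [(1, 1038840)]) (.sq [(1, -8), (2, 31), (3, 34), (5,
    20), (7, 21), (13, 100), (19, -93), (23, -77)])) (.mul (.pp [(1, 4375020)]) (.sq [(2, 67), (3,
    -14), (5, -20), (7, 30), (13, 12), (17, -100), (19, 52), (23, 60)])))) (.add (.mul (.pp [(1,
    10215780)]) (.sq [(2, -100), (3, -1), (5, 3), (13, 83), (17, -22), (23, -51)])) (.add (.mul (.g 0)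
    (.add (.add (.pp [(1, 8710860000)]) (.mul (.g 3) (.pp [(1, 777090000)]))) (.add (.mul (.g 15) (.pp
    [(1, 5832870000)])) (.mul (.g 17) (.pp [(1, 4489170000)]))))) (.mul (.g 18) (.add (.mul (.g 4)
    (.pp [(1, 136269600000)])) (.mul (.g 18) (.pp [(1, 54584400000)])))))))) (.add (.mul (.g 5) (.add
    (.add (.mul (.pp [(1, 1824000)]) (.sq [(2, 57), (3, -91), (5, 79), (7, -100), (13, 8), (17, 58),
    (19, -23)])) (.add (.mul (.pp [(1, 645720)]) (.sq [(2, 41), (3, 81), (5, 85), (7, -34), (13,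
    -100), (17, 49), (19, 24), (23, 26)])) (.mul (.pp [(1, 2811120)]) (.sq [(1, -27), (3, 44), (5,
    -7), (7, 66), (13, 41), (17, 50), (19, -32), (23, -100)])))) (.add (.add (.mul (.pp [(1, 25020)])
    (.sq [(1, 24), (2, -90), (3, -100), (5, 35), (7, 78), (13, -60), (17, 28), (19, 58), (23, -31)]))
    (.mul (.pp [(1, 1587660)]) (.sq [(1, -1), (2, 24), (3, 45), (5, 2), (7, 100), (13, -63), (17,
    -27), (19, -30), (23, 8)]))) (.add (.mul (.g 0) (.add (.pp [(1, 4145880000)]) (.add (.mul (.g 2)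
    (.pp [(1, 11879370000)])) (.mul (.g 21) (.pp [(1, 5670834000)]))))) (.mul (.g 15) (.mul (.g 18)
    (.pp [(1, 104461200000)]))))))) (.mul (.g 21) (.add (.add (.mul (.pp [(1, 1070952)]) (.sq [(2,
    51), (3, 31), (5, 100), (7, -59), (13, -6), (17, 6), (19, -52), (23, 4)])) (.mul (.pp [(1, 1152)])
    (.sq [(3, -84), (5, 33), (7, 5), (13, 68), (17, 23), (19, -5), (23, -100)]))) (.add (.mul (.pp
    [(1, 943188)]) (.sq [(1, 8), (2, -15), (3, -49), (5, 100), (7, -5), (13, -25), (17, -19), (19,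
    28), (23, 6)])) (.add (.mul (.g 0) (.pp [(1, 1089396000)])) (.mul (.g 18) (.mul (.g 18) (.pp [(1,
    1670520000)]))))))))))) (.add (.add (.add (.mul (.g 11) (.add (.add (.mul (.pp [(1, 1235160)])
    (.sq [(1, -25), (2, 19), (3, -30), (5, -100), (7, 71), (13, 10), (17, 24), (19, -20), (23, 3)]))
    (.mul (.pp [(1, 1021020)]) (.sq [(2, 2), (3, 13), (5, 27), (7, -24), (13, 13), (17, 5), (19,
    -100), (23, 86)]))) (.add (.mul (.pp [(1, 963000)]) (.sq [(1, -38), (2, -75), (3, -47), (5, -18),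
    (7, 5), (13, 100), (17, 2), (19, -23), (23, 34)])) (.mul (.pp [(1, 490560)]) (.sq [(2, 100), (3,
    18), (5, 64), (7, -46), (13, 40), (17, 1), (19, 1), (23, -44)]))))) (.mul (.g 9) (.add (.mul (.pp
    [(1, 3874260)]) (.sq [(2, 32), (3, -31), (5, -100), (7, 94), (13, -3), (17, 19), (19, -3), (23,
    -40)])) (.add (.mul (.pp [(1, 1000980)]) (.sq [(1, -3), (2, 41), (3, 32), (5, 13), (7, 15), (13,
    -90), (17, 100), (19, 21), (23, -57)])) (.mul (.pp [(1, 1492680)]) (.sq [(2, 98), (3, 40), (5,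
    18), (7, -5), (13, 7), (17, 37), (19, -100), (23, 17)])))))) (.add (.mul (.g 4) (.add (.mul (.pp
    [(1, 6154140)]) (.sq [(1, -9), (2, -17), (3, 19), (5, -17), (7, 54), (13, 100), (17, -47), (19,
    12), (23, -73)])) (.mul (.pp [(1, 5126040)]) (.sq [(1, 11), (2, -22), (3, -22), (5, 100), (7,
    -14), (13, 5), (17, -8), (19, 7), (23, -24)])))) (.add (.mul (.g 8) (.add (.mul (.pp [(1,
    2112960)]) (.sq [(1, 8), (2, -12), (3, -47), (5, 100), (13, -2), (17, 43), (19, -62), (23, 9)]))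
    (.mul (.pp [(1, 811680)]) (.sq [(1, -8), (2, -100), (3, -53), (5, 14), (7, -7), (13, 94), (17,
    -26), (19, 58), (23, -9)])))) (.mul (.g 12) (.add (.mul (.pp [(1, 3513360)]) (.sq [(1, -26), (2,
    5), (3, 43), (5, 26), (7, -24), (13, 11), (17, 100), (19, -11), (23, -30)])) (.mul (.pp [(1,
    755460)]) (.sq [(1, 46), (2, 31), (3, -63), (5, 100), (7, 4), (13, 62), (17, -96), (19, -41), (23,
    4)]))))))) (.add (.add (.mul (.g 15) (.add (.mul (.pp [(1, 3052860)]) (.sq [(1, 15), (2, 77), (3,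
    55), (5, 11), (7, -100), (13, -74), (17, 8), (19, 16), (23, 61)])) (.mul (.pp [(1, 8508120)]) (.sq
    [(1, -10), (2, 100), (3, 47), (5, -24), (7, 81), (13, -95), (17, -26), (19, -76), (23, 41)]))))
    (.mul (.g 0) (.mul (.pp [(1, 55695)]) (.sq [(1, -7), (2, -63), (3, -51), (5, -6), (7, 93), (13,
    64), (17, 37), (19, 19), (23, -100)])))) (.add (.mul (.g 3) (.mul (.pp [(1, 2624880)]) (.sq [(1,
    71), (2, 100), (3, 29), (5, 29), (7, -54), (13, -60), (17, -13), (19, 23), (23, -54)]))) (.add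
    (.mul (.g 18) (.mul (.pp [(1, 1610640)]) (.sq [(1, 7), (2, 72), (3, -100), (5, -75), (7, 28), (13,
    -51), (17, -49), (19, 54), (23, 8)]))) (.mul (.g 19) (.mul (.pp [(1, 2156556)]) (.sq [(1, -2), (2,
    11), (3, -33), (5, -13), (7, -11), (13, 100), (17, -24), (19, -4), (23, 8)])))))))) (.pp [(1,
    6814645575), (2, 5889798), (3, 6588930), (4, 5517699), (5, 5855316), (6, 6953526), (7, 6043950),
    (8, 6262680), (9, 6038571), (10, 4909380), (12, 5898000), (13, 7065636), (14, 7090926), (15,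
    6316956), (17, 6287118), (18, 6866280), (19, 6465594), (20, 5941620), (21, 6595182), (23,
    6110304), (25, 6003780), (26, 6834528), (27, 5506860), (28, 6330360), (30, 7338840), (34,
    6240942), (35, 6558636), (38, 6131082), (39, 7252200), (42, 5877960), (45, 5955420), (46,
    4349256), (49, 3948795), (50, 7467540), (51, 6561294), (52, 5710440), (57, 5131578), (63,
    5600460), (65, 6686112), (68, 5740800), (69, 4910664), (70, 5477520), (75, 5037720), (76,
    6102480), (78, 6149640), (85, 6011868), (91, 5980920), (92, 6428760), (95, 6670500), (98,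
    6871740), (102, 4838400), (105, 5867280), (114, 6489480), (115, 5230416), (117, 6189960), (119,
    6126966), (125, 6022640), (130, 6169440), (133, 7910922), (138, 4458000), (147, 6035100), (153,
    6162960), (161, 7394184), (169, 4979124), (170, 5957520), (171, 5719740), (175, 5994960), (182,
    5565360), (190, 6463800), (195, 5387880), (207, 7309440), (221, 5228760), (230, 5522640), (238,
    5251560), (245, 6950940), (247, 5445360), (255, 5410200), (266, 5532000), (273, 5620440), (285,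
    5702520), (289, 5223495), (299, 5259768), (322, 5859000), (323, 6036690), (325, 5213820), (338,
    5611380), (343, 5938060), (345, 6337440), (357, 6092520), (361, 5125263), (391, 6174024), (399,
    4680840), (425, 5948880), (437, 4280136), (442, 5566320), (455, 6319080), (475, 5304120), (483,
    6290760), (494, 5197080), (507, 5178360), (529, 5697864), (575, 6376500), (578, 6429000), (595,
    6544080), (598, 5951760), (637, 5230860), (646, 6159720), (663, 5075280), (665, 4666320), (722,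
    5284980), (741, 5858040), (782, 7244640), (805, 5116560), (833, 6324120), (845, 5788980), (867,
    4932120), (874, 6496680), (897, 6105480), (931, 6324120), (969, 7695960), (1058, 6595500), (1083,
    5671260), (1105, 6011760), (1127, 7710120), (1173, 5240760), (1183, 6262680), (1235, 5660760),
    (1311, 7792560), (1445, 5403060), (1495, 5846040), (1547, 6339840), (1587, 4896240), (1615,
    6938400), (1729, 6920880), (1805, 6232080), (1955, 5935680), (2023, 6687240), (2093, 6058800),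
    (2185, 6856200), (2197, 6019320), (2261, 5103840), (2527, 5537520), (2645, 6331200), (2737,
    5386080), (2873, 6913500), (3059, 5198280), (3211, 6638880), (3703, 5248920), (3757, 5678580),
    (3887, 6861060), (4199, 5992920), (4693, 5845620), (4913, 6425880), (5083, 6161400), (5491,
    5337660), (5681, 6256200), (6137, 6563340), (6647, 6843060), (6859, 6282320), (6877, 5514360),
    (7429, 5370600), (8303, 6808320), (8993, 6107280), (10051, 5924820), (12167, 6664320)])) (by norm_num)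
    (by decide +kernel)

theorem p03le : Ck (gP1 3 (leB 2 5)) (pW (vP1 3 0)) :=
  .mk' 500000 (.add (.add (.add (.add (.add (.mul (.pp [(1, 1723560)]) (.sq [(1, 91), (2, -53), (3, 8), (5, 65),
    (7, -23), (13, 46), (17, -100), (19, -19), (23, 22)])) (.mul (.g 0) (.add (.add (.add (.mul (.pp
    [(1, 11937)]) (.sq [(1, -19), (2, 74), (3, 88), (5, 64), (7, 85), (13, 51), (17, -100), (19, -56),
    (23, 11)])) (.mul (.pp [(1, 68865)]) (.sq [(1, -42), (2, -5), (3, -54), (5, 29), (7, -26), (13,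
    9), (17, -83), (19, 100), (23, -24)]))) (.add (.mul (.g 1) (.add (.add (.add (.pp [(1,
    147585000)]) (.mul (.g 0) (.pp [(1, 204919500)]))) (.add (.mul (.g 5) (.pp [(1, 325290000)]))
    (.mul (.g 6) (.pp [(1, 1077015000)])))) (.add (.add (.mul (.g 8) (.pp [(1, 1037295000)])) (.mul
    (.g 12) (.pp [(1, 1952505000)]))) (.add (.mul (.g 13) (.pp [(1, 316935000)])) (.add (.mul (.g 20)
    (.pp [(1, 376728000)])) (.mul (.g 22) (.pp [(1, 1153608000)]))))))) (.add (.mul (.g 22) (.add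
    (.add (.pp [(1, 1231956000)]) (.add (.mul (.g 7) (.pp [(1, 366015000)])) (.mul (.g 11) (.pp [(1,
    366483000)])))) (.add (.add (.mul (.g 13) (.pp [(1, 443109000)])) (.mul (.g 17) (.pp [(1,
    47070000)]))) (.add (.mul (.g 21) (.pp [(1, 35435400)])) (.mul (.g 22) (.pp [(1, 72579600)]))))))
    (.mul (.g 5) (.add (.add (.mul (.g 3) (.pp [(1, 15862755000)])) (.mul (.g 8) (.pp [(1,
    393045000)]))) (.add (.mul (.g 12) (.pp [(1, 203340000)])) (.add (.mul (.g 13) (.pp [(1,
    889995000)])) (.mul (.g 20) (.pp [(1, 586974000)]))))))))) (.add (.add (.mul (.g 8) (.add (.add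
    (.mul (.g 9) (.pp [(1, 80760000)])) (.mul (.g 12) (.pp [(1, 686250000)]))) (.add (.mul (.g 18)
    (.pp [(1, 101100000)])) (.mul (.g 19) (.pp [(1, 857955000)]))))) (.mul (.g 10) (.add (.mul (.g 10)
    (.pp [(1, 317310000)])) (.mul (.g 13) (.pp [(1, 63630000)]))))) (.add (.mul (.g 11) (.add (.mul
    (.g 11) (.pp [(1, 302550000)])) (.mul (.g 15) (.pp [(1, 622200000)])))) (.add (.mul (.g 17) (.add
    (.mul (.g 15) (.pp [(1, 680343000)])) (.mul (.g 20) (.pp [(1, 25005000)])))) (.mul (.g 21) (.add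
    (.mul (.g 9) (.pp [(1, 25500000)])) (.mul (.g 20) (.pp [(1, 49726800)])))))))))) (.add (.mul (.g
    10) (.add (.add (.add (.mul (.pp [(1, 37140)]) (.sq [(1, -31), (2, 84), (3, -8), (5, 100), (7,
    61), (13, -68), (17, -10), (19, 14), (23, -80)])) (.mul (.pp [(1, 844740)]) (.sq [(1, 74), (2,
    -32), (3, -9), (5, 44), (7, -2), (13, 55), (17, 41), (19, -100), (23, 23)]))) (.add (.mul (.pp
    [(1, 927210)]) (.sq [(1, -33), (2, -23), (3, -43), (5, 8), (7, 19), (13, 100), (17, 53), (19,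
    -26), (23, 67)])) (.add (.mul (.pp [(1, 187110)]) (.sq [(1, -25), (2, 80), (3, -21), (5, -47), (7,
    -21), (13, -36), (17, -85), (19, 58), (23, 100)])) (.mul (.pp [(1, 638160)]) (.sq [(1, 9), (2,
    -77), (3, -66), (5, -3), (7, -17), (13, 100), (17, 51), (19, -34), (23, 16)]))))) (.add (.add
    (.mul (.pp [(1, 32790)]) (.sq [(1, -3), (2, -35), (3, 13), (5, 100), (7, -33), (13, 39), (17,
    -85), (19, 24), (23, 45)])) (.add (.mul (.g 15) (.add (.add (.pp [(1, 3902280000)]) (.add (.mul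
    (.g 1) (.pp [(1, 643740000)])) (.mul (.g 8) (.pp [(1, 2293560000)])))) (.add (.mul (.g 11) (.pp
    [(1, 12961020000)])) (.add (.mul (.g 20) (.pp [(1, 299460000)])) (.mul (.g 21) (.pp [(1,
    1429728000)])))))) (.mul (.g 17) (.add (.add (.mul (.g 4) (.pp [(1, 1204500000)])) (.mul (.g 9)
    (.pp [(1, 12671700000)]))) (.add (.mul (.g 13) (.pp [(1, 9813600000)])) (.add (.mul (.g 20) (.pp
    [(1, 861780000)])) (.mul (.g 22) (.pp [(1, 3853740000)])))))))) (.add (.mul (.g 5) (.add (.add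
    (.mul (.g 7) (.pp [(1, 9030600000)])) (.mul (.g 8) (.pp [(1, 5466600000)]))) (.add (.mul (.g 11)
    (.pp [(1, 8179800000)])) (.mul (.g 21) (.pp [(1, 2793480000)]))))) (.add (.mul (.g 8) (.add (.mul
    (.g 1) (.pp [(1, 2264400000)])) (.add (.mul (.g 20) (.pp [(1, 1216020000)])) (.mul (.g 21) (.pp
    [(1, 4760760000)]))))) (.mul (.g 18) (.add (.mul (.g 10) (.pp [(1, 10027500000)])) (.add (.mul (.g
    19) (.pp [(1, 3051600000)])) (.mul (.g 21) (.pp [(1, 1250580000)])))))))))) (.add (.mul (.g 18)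
    (.add (.add (.add (.mul (.pp [(1, 406410)]) (.sq [(1, -14), (2, -47), (3, -52), (5, 32), (7, -5),
    (13, 100), (17, -22), (23, -14)])) (.add (.mul (.pp [(1, 2364900)]) (.sq [(1, -7), (2, 4), (3,
    -21), (5, -23), (7, -15), (13, 54), (17, 4), (19, -30), (23, 100)])) (.mul (.pp [(1, 483780)])
    (.sq [(1, -60), (2, -18), (3, 34), (5, 51), (7, -95), (13, 29), (17, -10), (19, 100), (23,
    -36)])))) (.add (.mul (.pp [(1, 176580)]) (.sq [(1, -1), (2, 82), (3, 100), (5, 34), (7, -29),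
    (13, -46), (17, -25), (19, 1), (23, 27)])) (.add (.mul (.pp [(1, 2988060)]) (.sq [(1, -4), (2,
    -3), (3, -8), (5, 100), (7, 11), (13, -2), (17, -5), (19, -7), (23, -2)])) (.mul (.pp [(1,
    646560)]) (.sq [(1, -64), (2, -58), (3, 20), (5, -27), (7, 62), (13, 100), (17, -76), (19, 7),
    (23, 74)]))))) (.add (.add (.mul (.g 17) (.add (.add (.mul (.g 4) (.pp [(1, 13073100000)])) (.mul
    (.g 9) (.pp [(1, 52008900000)]))) (.add (.mul (.g 18) (.pp [(1, 5876400000)])) (.add (.mul (.g 20)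
    (.pp [(1, 1912560000)])) (.mul (.g 22) (.pp [(1, 68760000)])))))) (.add (.mul (.g 12) (.add (.add
    (.mul (.g 5) (.pp [(1, 35141400000)])) (.mul (.g 8) (.pp [(1, 15037500000)]))) (.add (.mul (.g 11)
    (.pp [(1, 94214100000)])) (.mul (.g 18) (.pp [(1, 6969900000)]))))) (.mul (.g 15) (.add (.mul (.g
    3) (.pp [(1, 5534220000)])) (.add (.mul (.g 4) (.pp [(1, 1562400000)])) (.mul (.g 9) (.pp [(1,
    11593260000)]))))))) (.add (.mul (.g 5) (.mul (.g 7) (.pp [(1, 6231600000)]))) (.add (.mul (.g 18)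
    (.mul (.g 21) (.pp [(1, 2471340000)]))) (.mul (.g 19) (.mul (.g 20) (.pp [(1, 834300000)]))))))))
    (.mul (.g 13) (.add (.add (.add (.mul (.pp [(1, 137190)]) (.sq [(1, -32), (2, -19), (3, -14), (5,
    -33), (7, -17), (13, 100), (17, -23), (19, 10), (23, -16)])) (.mul (.pp [(1, 138300)]) (.sq [(1,
    -1), (2, -5), (3, -5), (5, 100), (7, -5), (13, -1), (17, 1), (19, -21)]))) (.add (.mul (.pp [(1,
    946950)]) (.sq [(1, 99), (2, 79), (3, 35), (5, 36), (7, -15), (13, -69), (17, -65), (19, -28),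
    (23, 100)])) (.add (.mul (.pp [(1, 956640)]) (.sq [(1, -9), (2, -11), (3, 100), (5, -9), (7, 23),
    (13, 24), (17, -1), (19, -47), (23, -28)])) (.mul (.pp [(1, 471330)]) (.sq [(1, 44), (2, 100), (3,
    -70), (5, -89), (7, 92), (13, -6), (17, -47), (19, -65), (23, -38)]))))) (.add (.add (.mul (.pp
    [(1, 30540)]) (.sq [(1, -100), (2, -43), (3, -15), (5, -57), (7, 3), (13, 57), (17, 78), (19, 2),
    (23, 61)])) (.add (.mul (.g 7) (.add (.add (.mul (.g 1) (.pp [(1, 2316000000)])) (.mul (.g 12)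
    (.pp [(1, 30119100000)]))) (.add (.mul (.g 17) (.pp [(1, 25237200000)])) (.add (.mul (.g 21) (.pp
    [(1, 690000000)])) (.mul (.g 22) (.pp [(1, 3476940000)])))))) (.mul (.g 12) (.add (.add (.mul (.g
    4) (.pp [(1, 22242000000)])) (.mul (.g 11) (.pp [(1, 3934800000)]))) (.add (.mul (.g 19) (.pp [(1,
    6549000000)])) (.mul (.g 21) (.pp [(1, 6086220000)]))))))) (.add (.mul (.g 3) (.add (.mul (.g 9)
    (.pp [(1, 88792800000)])) (.mul (.g 21) (.pp [(1, 1947120000)])))) (.add (.mul (.g 13) (.add (.mul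
    (.g 11) (.pp [(1, 1940400000)])) (.mul (.g 19) (.pp [(1, 381000000)])))) (.mul (.g 4) (.mul (.g 5)
    (.pp [(1, 20365500000)]))))))))))) (.add (.add (.mul (.g 3) (.add (.add (.mul (.pp [(1, 619440)])
    (.sq [(2, -38), (3, -23), (5, 32), (7, -48), (13, 100), (17, 57), (19, -24), (23, 10)])) (.add
    (.mul (.pp [(1, 804570)]) (.sq [(1, 31), (2, -100), (3, -24), (5, 76), (7, 51), (13, -8), (17,
    -19), (19, -29), (23, 12)])) (.mul (.pp [(1, 572730)]) (.sq [(1, -5), (2, -24), (3, 1), (5, 48),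
    (7, 2), (13, -10), (17, 100), (19, -48), (23, -2)])))) (.add (.add (.mul (.pp [(1, 424650)]) (.sq
    [(1, 34), (2, 63), (3, 41), (5, 100), (7, -55), (13, -57), (17, -59), (19, 10), (23, 14)])) (.mul
    (.g 15) (.add (.add (.add (.mul (.g 6) (.pp [(1, 12200400000)])) (.mul (.g 7) (.pp [(1,
    13148760000)]))) (.add (.mul (.g 8) (.pp [(1, 21022800000)])) (.mul (.g 11) (.pp [(1,
    3098340000)])))) (.add (.add (.mul (.g 12) (.pp [(1, 2560500000)])) (.mul (.g 15) (.pp [(1,
    1685592000)]))) (.add (.mul (.g 20) (.pp [(1, 1545684000)])) (.mul (.g 22) (.pp [(1,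
    742872000)]))))))) (.add (.mul (.g 5) (.mul (.g 5) (.pp [(1, 8757900000)]))) (.mul (.g 8) (.mul
    (.g 8) (.pp [(1, 9504600000)]))))))) (.add (.mul (.g 19) (.add (.mul (.pp [(1, 321840)]) (.sq [(1,
    75), (2, -64), (3, -2), (5, 74), (7, 60), (13, 26), (17, -75), (19, -81), (23, 100)])) (.add (.mul
    (.g 19) (.add (.add (.mul (.g 1) (.pp [(1, 30652200000)])) (.mul (.g 7) (.pp [(1, 17672100000)])))
    (.add (.mul (.g 8) (.pp [(1, 8518200000)])) (.add (.mul (.g 15) (.pp [(1, 1705800000)])) (.mul (.g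
    22) (.pp [(1, 540720000)])))))) (.mul (.g 17) (.mul (.g 20) (.pp [(1, 4443540000)])))))) (.mul (.g
    4) (.add (.add (.mul (.pp [(1, 117330)]) (.sq [(1, 11), (2, 4), (3, 32), (5, 27), (7, 26), (13,
    -100), (17, 56), (19, -45), (23, -19)])) (.add (.mul (.pp [(1, 1076610)]) (.sq [(1, -12), (2, -9),
    (3, 100), (5, 9), (7, 2), (13, -17), (17, 10), (19, -12), (23, 53)])) (.mul (.pp [(1, 211380)])
    (.sq [(1, 85), (2, -100), (3, 72), (5, -44), (7, 87), (13, -99), (17, -64), (19, -88), (23,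
    90)])))) (.add (.mul (.pp [(1, 65880)]) (.sq [(1, -21), (2, 1), (3, -15), (5, 100), (7, -41), (13,
    -18), (17, -12), (19, 43), (23, 10)])) (.add (.mul (.pp [(1, 228450)]) (.sq [(1, 10), (2, 42), (3,
    -15), (5, 100), (7, -81), (13, 66), (17, 42), (19, -29), (23, 62)])) (.mul (.pp [(1, 386850)])
    (.sq [(1, 50), (2, 48), (3, 88), (5, -49), (7, 99), (13, -100), (17, -4), (19, -74), (23,
    -43)])))))))) (.add (.mul (.g 21) (.add (.add (.mul (.pp [(1, 298704)]) (.sq [(1, 12), (2, -14),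
    (3, 28), (5, 100), (7, -70), (13, -25), (17, 33), (19, 20), (23, -44)])) (.mul (.pp [(1, 186090)])
    (.sq [(1, 57), (2, -51), (3, -63), (5, -2), (7, 13), (13, 100), (17, -90), (19, -41), (23, 94)])))
    (.add (.mul (.pp [(1, 33498)]) (.sq [(1, -65), (2, -39), (3, 49), (5, -100), (7, 50), (13, 38),
    (17, 54), (19, -12), (23, 50)])) (.mul (.pp [(1, 438366)]) (.sq [(1, 32), (2, -26), (3, -13), (5,
    100), (7, 4), (13, 27), (17, -50), (19, -14), (23, 7)]))))) (.add (.mul (.g 5) (.add (.mul (.pp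
    [(1, 3289350)]) (.sq [(1, -65), (2, 18), (3, -18), (5, -15), (7, -31), (13, 8), (17, 100), (19,
    -5), (23, 57)])) (.add (.mul (.pp [(1, 1550520)]) (.sq [(1, -43), (2, -14), (3, -40), (5, 100),
    (7, -63), (13, -10), (17, 94), (19, -1), (23, 35)])) (.mul (.pp [(1, 919590)]) (.sq [(1, -95), (2,
    61), (3, 7), (5, -26), (7, 100), (13, -54), (17, -19), (19, 89), (23, -58)]))))) (.mul (.g 8)
    (.add (.mul (.pp [(1, 135960)]) (.sq [(1, -49), (2, 87), (3, -22), (5, 9), (7, -17), (13, -64),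
    (17, 100), (19, -10), (23, 2)])) (.add (.mul (.pp [(1, 75450)]) (.sq [(1, -70), (2, 72), (3, -32),
    (5, -20), (7, -43), (13, -75), (17, 70), (19, 100), (23, -60)])) (.mul (.pp [(1, 708300)]) (.sq
    [(1, -27), (2, -3), (3, 9), (5, 86), (7, -64), (13, -9), (17, 53), (19, 33), (23, -100)])))))))))
    (.add (.add (.add (.mul (.g 9) (.add (.mul (.pp [(1, 3446820)]) (.sq [(1, -100), (2, -4), (3,
    -32), (5, 42), (7, -8), (13, 23), (17, 91), (19, 20), (23, 31)])) (.add (.mul (.pp [(1, 499080)])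
    (.sq [(1, 31), (2, -38), (3, 22), (5, 99), (7, -4), (13, -100), (17, 24), (19, -25), (23, 3)]))
    (.mul (.pp [(1, 1290060)]) (.sq [(1, -13), (2, 12), (3, -39), (5, 29), (7, -10), (13, 100), (17,
    -21), (19, -3), (23, 32)]))))) (.add (.mul (.g 11) (.add (.mul (.pp [(1, 312030)]) (.sq [(1, 37),
    (2, -9), (3, 46), (5, -100), (7, 51), (13, -37), (17, -91), (19, 41), (23, -98)])) (.add (.mul
    (.pp [(1, 1433250)]) (.sq [(1, -21), (2, -94), (3, -66), (5, -39), (7, 17), (13, 99), (17, -13),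
    (19, -5), (23, 100)])) (.mul (.pp [(1, 929370)]) (.sq [(1, -80), (2, 16), (3, -49), (5, -12), (7,
    -19), (13, -7), (17, 100), (19, 26), (23, -13)]))))) (.mul (.g 20) (.add (.mul (.pp [(1, 238188)])
    (.sq [(1, 27), (2, -100), (3, 12), (5, -22), (7, 25), (13, -95), (17, -9), (19, 7), (23, -27)]))
    (.add (.mul (.pp [(1, 331092)]) (.sq [(1, -40), (2, 24), (3, -2), (5, -6), (7, -4), (13, 34), (17,
    69), (19, -46), (23, 100)])) (.mul (.pp [(1, 1456338)]) (.sq [(2, 12), (3, -11), (5, -20), (7,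
    -13), (13, 100), (17, -42), (19, 16), (23, -3)]))))))) (.add (.mul (.g 22) (.add (.mul (.pp [(1,
    84540)]) (.sq [(2, 3), (3, 89), (5, 100), (7, -14), (13, -21), (17, 6), (19, 7), (23, -40)]))
    (.add (.mul (.pp [(1, 499062)]) (.sq [(2, -9), (3, -16), (5, 100), (7, -13), (13, 8), (17, -29),
    (19, 31), (23, -56)])) (.mul (.pp [(1, 397632)]) (.sq [(1, -3), (2, -13), (3, 5), (5, 100), (7,
    -8), (13, 9), (17, 7), (19, -17), (23, 26)]))))) (.add (.mul (.g 7) (.add (.mul (.pp [(1, 39420)])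
    (.sq [(2, 100), (3, -57), (5, -82), (7, -4), (13, 58), (17, -99), (19, 12), (23, 56)])) (.mul (.pp
    [(1, 673440)]) (.sq [(1, 58), (2, -61), (3, -8), (5, 25), (7, 58), (13, -100), (17, -15), (19,
    -35), (23, -27)])))) (.mul (.g 12) (.add (.mul (.pp [(1, 190950)]) (.sq [(1, 75), (2, -25), (3,
    -53), (5, 79), (7, 8), (13, 23), (17, -100), (19, -21), (23, 13)])) (.mul (.pp [(1, 1917690)])
    (.sq [(1, 66), (2, -2), (3, -7), (5, -52), (7, -17), (13, 100), (17, -75), (19, -37), (23,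
    65)]))))))) (.add (.add (.mul (.g 15) (.add (.mul (.pp [(1, 306054)]) (.sq [(1, -44), (2, 17), (3,
    -19), (5, -72), (7, -44), (13, 36), (17, 100), (19, -36)])) (.mul (.pp [(1, 316206)]) (.sq [(1,
    -42), (2, 42), (3, 3), (5, 15), (7, 31), (13, -33), (17, -40), (19, 100)])))) (.add (.mul (.g 1)
    (.mul (.pp [(1, 2670270)]) (.sq [(1, -58), (2, 44), (3, 15), (5, -78), (7, 26), (13, -32), (17,
    17), (19, 64), (23, -100)]))) (.mul (.g 2) (.mul (.pp [(1, 440010)]) (.sq [(1, 4), (2, -21), (3,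
    -24), (5, 100), (7, -34), (13, -10), (17, -15), (19, 38), (23, -34)]))))) (.add (.mul (.g 6) (.mul
    (.pp [(1, 70410)]) (.sq [(1, 19), (2, -38), (3, -35), (5, 100), (7, -1), (13, 56), (17, -31), (19,
    -30), (23, 48)]))) (.add (.mul (.g 14) (.pp [(1, 60096)])) (.mul (.g 17) (.mul (.pp [(1,
    1623810)]) (.sq [(1, -6), (2, 100), (3, 5), (7, -23), (13, 8), (17, -72), (19, 19), (23,
    43)])))))))) (.pp [(1, 722530815), (2, 2942178), (3, 2967594), (4, 2786235), (5, 2711832), (6,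
    3349680), (7, 2742666), (8, 3398400), (9, 2801844), (10, 2633754), (12, 3201570), (13, 3555132),
    (14, 3514392), (15, 3262404), (17, 3232872), (18, 2978910), (19, 3665508), (20, 3002730), (21,
    3596988), (23, 3354708), (25, 3332427), (26, 3014514), (27, 3226440), (28, 3063720), (30,
    2688600), (34, 2808126), (35, 3191064), (38, 2946084), (39, 3059988), (42, 3565440), (45,
    3354180), (46, 2885112), (49, 3907617), (50, 3129510), (51, 2661732), (52, 2868720), (57,
    2744676), (63, 2796660), (65, 2731818), (68, 2705220), (69, 2773176), (70, 3019140), (75,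
    3273660), (76, 3055290), (78, 2491560), (85, 3113814), (91, 3430302), (92, 3387660), (95,
    3151920), (98, 2649150), (102, 3013620), (105, 2502060), (114, 2417700), (115, 2750736), (117,
    2990670), (119, 2506212), (125, 2904160), (130, 3284760), (133, 2377452), (138, 2850480), (147,
    3156660), (153, 2949000), (161, 2008050), (169, 2910426), (170, 3206160), (171, 3144210), (175,
    2884140), (182, 2632200), (190, 2940240), (195, 3085380), (207, 2906640), (221, 2146110), (230,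
    3067320), (238, 2825820), (245, 2818230), (247, 2374368), (255, 2555340), (266, 2991120), (273,
    3008520), (285, 3257520), (289, 3128817), (299, 2694426), (322, 2756160), (323, 2966268), (325,
    2910630), (338, 3335370), (343, 2762780), (345, 2545380), (357, 2830680), (361, 2770278), (391,
    2781744), (399, 2427540), (425, 3104520), (437, 3025788), (442, 3408000), (455, 2757840), (475,
    2737410), (483, 3151500), (494, 3046080), (507, 3087600), (529, 3305583), (575, 2920050), (578,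
    3198990), (595, 3046620), (598, 2603520), (637, 3200580), (646, 3032640), (663, 2965980), (665,
    3384240), (722, 3029190), (741, 3033180), (782, 3419220), (805, 3271080), (833, 2756040), (845,
    3112380), (867, 3078510), (874, 2960100), (897, 3178200), (931, 2855700), (969, 3422100), (1058,
    3306060), (1083, 3186180), (1105, 3156420), (1127, 2736870), (1173, 3411300), (1183, 2934270),
    (1235, 3170700), (1311, 3059640), (1445, 3034290), (1495, 2874000), (1547, 3052020), (1587,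
    2971830), (1615, 2840340), (1729, 2588700), (1805, 2874930), (1955, 3696660), (2023, 3251490),
    (2093, 2951160), (2185, 2683740), (2197, 2955060), (2261, 3358860), (2527, 3155400), (2645,
    3104640), (2737, 3778020), (2873, 2727750), (3059, 3828060), (3211, 3106800), (3703, 3206700),
    (3757, 3334230), (3887, 3368880), (4199, 3280320), (4693, 3355560), (4913, 2972100), (5083,
    2301960), (5491, 2667870), (5681, 3393480), (6137, 3013290), (6647, 3085290), (6859, 3049320),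
    (6877, 2874540), (7429, 2818860), (8303, 2738580), (8993, 2900850), (10051, 2568900), (12167,
    2985340)])) (by norm_num)
    (by decide +kernel)

theorem p03ge : Ck (gP1 3 (geB 2 5)) (pW (vP1 3 0)) :=
  .mk' 1000000 (.add (.add (.add (.add (.add (.mul (.pp [(1, 1726020)]) (.sq [(1, -80), (2, -48), (3, -14), (5,
    -34), (7, 61), (13, 55), (17, 15), (19, 79), (23, -100)])) (.mul (.g 13) (.add (.add (.add (.mul
    (.pp [(1, 2956320)]) (.sq [(2, -23), (3, -10), (5, 54), (7, 100), (13, 12), (17, -88), (19, 3),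
    (23, 24)])) (.add (.mul (.pp [(1, 1324680)]) (.sq [(1, -29), (2, 8), (3, -24), (5, -85), (13,
    100), (17, 41), (19, -41)])) (.mul (.pp [(1, 3668040)]) (.sq [(2, 100), (3, -17), (5, 7), (7, 13),
    (13, 41), (17, -19), (19, 4), (23, -12)])))) (.add (.add (.mul (.g 7) (.add (.add (.pp [(1,
    34457400000)]) (.add (.mul (.g 5) (.pp [(1, 15114000000)])) (.mul (.g 8) (.pp [(1,
    4696800000)])))) (.add (.add (.mul (.g 13) (.pp [(1, 19758600000)])) (.mul (.g 15) (.pp [(1,
    18507000000)]))) (.add (.mul (.g 18) (.pp [(1, 29242800000)])) (.mul (.g 19) (.pp [(1,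
    55808400000)])))))) (.mul (.g 9) (.add (.add (.pp [(1, 48496200000)]) (.add (.mul (.g 1) (.pp [(1,
    7356000000)])) (.mul (.g 6) (.pp [(1, 8151000000)])))) (.add (.add (.mul (.g 8) (.pp [(1,
    29739000000)])) (.mul (.g 12) (.pp [(1, 39192600000)]))) (.add (.mul (.g 20) (.pp [(1,
    4194120000)])) (.mul (.g 22) (.pp [(1, 4335120000)]))))))) (.add (.mul (.g 15) (.add (.add (.pp
    [(1, 5085120000)]) (.add (.mul (.g 2) (.pp [(1, 7501800000)])) (.mul (.g 11) (.pp [(1,
    14600880000)])))) (.add (.mul (.g 17) (.pp [(1, 8322480000)])) (.add (.mul (.g 19) (.pp [(1,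
    751680000)])) (.mul (.g 21) (.pp [(1, 872160000)])))))) (.mul (.g 17) (.add (.add (.pp [(1,
    1710000000)]) (.mul (.g 0) (.pp [(1, 243360000)]))) (.add (.mul (.g 18) (.pp [(1, 10410000000)]))
    (.mul (.g 20) (.pp [(1, 9807960000)])))))))) (.add (.add (.mul (.g 11) (.add (.mul (.g 0) (.pp
    [(1, 1557750000)])) (.add (.mul (.g 13) (.pp [(1, 42738000000)])) (.mul (.g 18) (.pp [(1,
    16033200000)]))))) (.add (.mul (.g 12) (.add (.mul (.g 1) (.pp [(1, 38589600000)])) (.add (.mul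
    (.g 21) (.pp [(1, 28985640000)])) (.mul (.g 22) (.pp [(1, 9644760000)]))))) (.mul (.g 19) (.add
    (.mul (.g 10) (.pp [(1, 1095000000)])) (.add (.mul (.g 18) (.pp [(1, 22975200000)])) (.mul (.g 22)
    (.pp [(1, 3570840000)]))))))) (.add (.add (.mul (.g 5) (.add (.mul (.g 0) (.pp [(1, 4011450000)]))
    (.mul (.g 3) (.pp [(1, 20781000000)])))) (.mul (.g 13) (.add (.pp [(1, 12296400000)]) (.mul (.g 8)
    (.pp [(1, 24850200000)]))))) (.add (.mul (.g 2) (.mul (.g 21) (.pp [(1, 4881360000)]))) (.mul (.g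
    18) (.mul (.g 18) (.pp [(1, 69111000000)]))))))))) (.add (.mul (.g 5) (.add (.add (.add (.mul (.pp
    [(1, 2115780)]) (.sq [(1, -17), (2, 36), (3, 8), (5, -100), (7, -16), (13, -23), (17, 58), (19,
    39), (23, -64)])) (.add (.mul (.pp [(1, 3130200)]) (.sq [(1, -22), (3, -25), (5, -8), (7, -11),
    (13, 100), (17, 23), (19, -34), (23, -70)])) (.mul (.pp [(1, 739980)]) (.sq [(2, 9), (3, 7), (5,
    15), (7, -35), (13, -10), (17, -36), (19, 100), (23, -41)])))) (.add (.add (.mul (.pp [(1,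
    810420)]) (.sq [(2, -81), (3, -11), (5, -37), (7, 28), (13, 100), (17, 9), (19, -7), (23, 32)]))
    (.mul (.pp [(1, 2683440)]) (.sq [(1, 12), (2, 22), (3, -38), (13, 100), (17, -68), (19, -17)])))
    (.add (.mul (.pp [(1, 548820)]) (.sq [(1, -18), (2, 9), (3, -20), (5, 100), (7, -14), (13, -61),
    (17, 33), (19, 49), (23, -64)])) (.mul (.pp [(1, 67740)]) (.sq [(1, -29), (2, 52), (3, 32), (5,
    -67), (7, -26), (13, -20), (17, -7), (19, 100), (23, -20)]))))) (.add (.add (.mul (.g 0) (.add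
    (.add (.add (.pp [(1, 12907170000)]) (.mul (.g 2) (.pp [(1, 651600000)]))) (.add (.mul (.g 9) (.pp
    [(1, 3542790000)])) (.mul (.g 10) (.pp [(1, 950520000)])))) (.add (.add (.mul (.g 11) (.pp [(1,
    2803740000)])) (.mul (.g 15) (.pp [(1, 4049220000)]))) (.add (.mul (.g 16) (.pp [(1, 956280000)]))
    (.mul (.g 22) (.pp [(1, 653298000)])))))) (.add (.mul (.g 15) (.add (.add (.mul (.g 2) (.pp [(1,
    1634040000)])) (.add (.mul (.g 6) (.pp [(1, 32129760000)])) (.mul (.g 8) (.pp [(1,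
    11241120000)])))) (.add (.mul (.g 12) (.pp [(1, 3599640000)])) (.add (.mul (.g 20) (.pp [(1,
    624408000)])) (.mul (.g 22) (.pp [(1, 1891608000)])))))) (.mul (.g 10) (.add (.add (.mul (.g 8)
    (.pp [(1, 37152600000)])) (.mul (.g 11) (.pp [(1, 7812000000)]))) (.add (.mul (.g 16) (.pp [(1,
    13465200000)])) (.add (.mul (.g 21) (.pp [(1, 9738840000)])) (.mul (.g 22) (.pp [(1,
    3238320000)])))))))) (.add (.add (.mul (.g 20) (.add (.add (.mul (.g 8) (.pp [(1, 12323160000)]))
    (.mul (.g 12) (.pp [(1, 1883040000)]))) (.add (.mul (.g 20) (.pp [(1, 555936000)])) (.mul (.g 21)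
    (.pp [(1, 38760000)]))))) (.mul (.g 7) (.add (.mul (.g 17) (.pp [(1, 121200000)])) (.mul (.g 18)
    (.pp [(1, 33600000000)]))))) (.add (.mul (.g 12) (.mul (.g 18) (.pp [(1, 80607000000)]))) (.mul
    (.g 19) (.mul (.g 22) (.pp [(1, 761760000)])))))))) (.add (.mul (.g 1) (.add (.add (.add (.mul
    (.pp [(1, 937260)]) (.sq [(1, -8), (2, 30), (3, 3), (5, 100), (7, -7), (13, -54), (17, 15), (19,
    8), (23, -15)])) (.mul (.pp [(1, 5601960)]) (.sq [(1, 15), (2, -4), (3, 40), (5, 100), (7, -6),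
    (13, -61), (17, -17), (19, -27), (23, 36)]))) (.add (.mul (.pp [(1, 5523120)]) (.sq [(1, -20), (2,
    74), (3, 32), (5, -48), (7, 28), (13, -100), (17, 22), (19, 13), (23, -33)])) (.mul (.g 0) (.add
    (.add (.add (.mul (.g 6) (.pp [(1, 6666660000)])) (.mul (.g 7) (.pp [(1, 2844930000)]))) (.add
    (.mul (.g 9) (.pp [(1, 558840000)])) (.mul (.g 12) (.pp [(1, 1854810000)])))) (.add (.add (.mul
    (.g 16) (.pp [(1, 7204080000)])) (.mul (.g 18) (.pp [(1, 3743430000)]))) (.add (.mul (.g 20) (.pp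
    [(1, 766170000)])) (.mul (.g 22) (.pp [(1, 3188676000)])))))))) (.add (.add (.mul (.g 17) (.add
    (.mul (.g 10) (.pp [(1, 25455600000)])) (.add (.mul (.g 15) (.pp [(1, 12972960000)])) (.mul (.g
    18) (.pp [(1, 70199400000)]))))) (.mul (.g 12) (.add (.mul (.g 15) (.pp [(1, 8611560000)])) (.mul
    (.g 18) (.pp [(1, 16485000000)]))))) (.add (.mul (.g 18) (.mul (.g 21) (.pp [(1, 14318880000)])))
    (.mul (.g 19) (.mul (.g 19) (.pp [(1, 237747600000)]))))))) (.mul (.g 22) (.add (.add (.add (.mul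
    (.pp [(1, 172572)]) (.sq [(1, 49), (2, -37), (3, 6), (5, -64), (7, 18), (13, 35), (17, -68), (19,
    -54), (23, 100)])) (.mul (.pp [(1, 833112)]) (.sq [(1, -1), (2, -26), (3, -6), (5, 100), (7, -21),
    (13, 16), (17, -17), (19, 6), (23, 12)]))) (.add (.mul (.pp [(1, 124392)]) (.sq [(1, -17), (2,
    -58), (3, -36), (5, 100), (7, -11), (13, 98), (17, 25), (19, 25), (23, -75)])) (.mul (.pp [(1,
    76140)]) (.sq [(1, -14), (2, 75), (3, 65), (5, 100), (7, -11), (13, -81), (17, -23), (19, -6),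
    (23, 22)])))) (.add (.add (.mul (.pp [(1, 236976)]) (.sq [(1, 40), (2, -73), (3, -27), (5, -32),
    (7, 17), (13, 100), (19, -71), (23, 33)])) (.mul (.pp [(1, 61380)]) (.sq [(1, 21), (2, 21), (3,
    9), (5, 100), (7, 13), (13, -86), (17, 27), (19, -41), (23, -11)]))) (.add (.mul (.g 0) (.add
    (.add (.mul (.g 7) (.pp [(1, 185376000)])) (.mul (.g 17) (.pp [(1, 344472000)]))) (.add (.mul (.g
    21) (.pp [(1, 265738800)])) (.mul (.g 22) (.pp [(1, 540475200)]))))) (.add (.mul (.g 17) (.add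
    (.mul (.g 6) (.pp [(1, 1505040000)])) (.mul (.g 18) (.pp [(1, 4292160000)])))) (.mul (.g 19) (.mul
    (.g 19) (.pp [(1, 8190240000)]))))))))))) (.add (.add (.mul (.g 21) (.add (.add (.mul (.pp [(1,
    354276)]) (.sq [(1, -33), (2, 28), (3, 72), (5, -100), (7, -22), (13, 60), (17, 64), (19, 1), (23,
    -26)])) (.add (.mul (.pp [(1, 31944)]) (.sq [(1, -38), (2, 75), (3, 26), (5, -24), (7, -6), (13,
    100), (17, 83), (19, -17), (23, -52)])) (.mul (.pp [(1, 380376)]) (.sq [(1, 64), (2, -58), (3,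
    -100), (5, -73), (7, -1), (13, -27), (17, -88), (19, -5), (23, 68)])))) (.add (.add (.mul (.pp
    [(1, 928800)]) (.sq [(1, -55), (2, -28), (3, 100), (5, 11), (7, 28), (13, -34), (17, 90), (19,
    14), (23, -46)])) (.mul (.g 10) (.add (.add (.mul (.g 0) (.pp [(1, 28038000)])) (.mul (.g 10) (.pp
    [(1, 1984560000)]))) (.add (.mul (.g 17) (.pp [(1, 6688320000)])) (.mul (.g 19) (.pp [(1,
    14046000000)])))))) (.add (.mul (.g 7) (.mul (.g 18) (.pp [(1, 1862640000)]))) (.mul (.g 19) (.mul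
    (.g 20) (.pp [(1, 80184000)]))))))) (.mul (.g 17) (.add (.add (.mul (.pp [(1, 1656360)]) (.sq [(1,
    -25), (2, 100), (3, -34), (5, -35), (7, -45), (13, 4), (17, -23), (19, 57), (23, -55)])) (.mul
    (.pp [(1, 344040)]) (.sq [(1, 32), (2, -53), (3, 47), (5, -9), (7, -16), (13, -92), (17, 100),
    (19, -7), (23, 1)]))) (.add (.mul (.g 18) (.add (.mul (.g 7) (.pp [(1, 18592800000)])) (.add (.mul
    (.g 9) (.pp [(1, 31619400000)])) (.mul (.g 20) (.pp [(1, 3365280000)]))))) (.add (.mul (.g 10)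
    (.add (.mul (.g 9) (.pp [(1, 8968800000)])) (.mul (.g 20) (.pp [(1, 3734640000)])))) (.mul (.g 8)
    (.mul (.g 20) (.pp [(1, 12441000000)])))))))) (.add (.mul (.g 12) (.add (.add (.mul (.pp [(1,
    1053120)]) (.sq [(1, 78), (2, 48), (3, -25), (5, 6), (7, -51), (13, -100), (17, -30), (19, -46),
    (23, 89)])) (.mul (.pp [(1, 506340)]) (.sq [(1, -31), (2, -15), (3, 38), (5, 17), (7, -23), (13,
    15), (17, 100), (19, 15), (23, -79)]))) (.add (.mul (.pp [(1, 177600)]) (.sq [(1, 49), (2, 19),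
    (3, -39), (5, 58), (7, 1), (13, 72), (17, -100), (19, -17), (23, 7)])) (.add (.mul (.pp [(1,
    805080)]) (.sq [(1, 64), (2, -24), (3, -50), (5, 100), (7, 1), (13, 31), (17, -86), (19, -71),
    (23, 95)])) (.mul (.pp [(1, 1574880)]) (.sq [(2, 6), (3, -18), (5, 5), (7, 17), (13, 100), (17,
    -48), (19, 14), (23, -28)])))))) (.add (.mul (.g 20) (.add (.add (.mul (.pp [(1, 217440)]) (.sq
    [(1, -54), (2, -60), (3, -40), (5, 13), (7, 23), (13, 28), (17, 23), (19, 90), (23, -100)])) (.mul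
    (.pp [(1, 147420)]) (.sq [(1, -100), (2, 79), (3, 50), (5, -81), (7, 56), (13, -43), (17, -34),
    (19, 88), (23, -12)]))) (.add (.mul (.pp [(1, 1201692)]) (.sq [(1, -10), (3, -29), (5, 23), (7,
    10), (13, 100), (17, -23), (19, -1), (23, -10)])) (.add (.mul (.pp [(1, 933264)]) (.sq [(1, -5),
    (2, 22), (3, -21), (5, -27), (7, -15), (13, 100), (17, -2), (19, 16), (23, -20)])) (.mul (.pp [(1,
    101040)]) (.sq [(1, -5), (2, 9), (3, 4), (5, -10), (7, 16), (13, 100), (17, -24), (19, -24), (23,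
    29)])))))) (.mul (.g 9) (.add (.add (.mul (.pp [(1, 342720)]) (.sq [(1, -36), (2, 13), (3, -33),
    (5, 26), (7, -9), (13, 100), (17, 27), (19, 41), (23, -74)])) (.mul (.pp [(1, 316080)]) (.sq [(1,
    -1), (2, -44), (3, 11), (5, 100), (7, -40), (13, -57), (17, 35), (19, 12), (23, -29)]))) (.add
    (.mul (.pp [(1, 3360660)]) (.sq [(1, -17), (2, 75), (3, -12), (5, 3), (7, 11), (13, 100), (17,
    -23), (19, -2), (23, -6)])) (.mul (.pp [(1, 1042320)]) (.sq [(1, -11), (2, 21), (3, 19), (5, -9),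
    (7, 7), (13, 100), (17, -13), (19, -28), (23, 21)]))))))))) (.add (.add (.add (.mul (.g 18) (.add
    (.add (.mul (.pp [(1, 1753440)]) (.sq [(1, -9), (2, -61), (3, -28), (5, -29), (7, 30), (13, 100),
    (17, -34), (19, 13), (23, 4)])) (.mul (.pp [(1, 30180)]) (.sq [(1, -9), (2, -19), (3, 2), (5,
    -24), (7, -8), (13, 100), (17, 7), (19, -4), (23, -4)]))) (.add (.mul (.pp [(1, 1468920)]) (.sq
    [(1, -20), (2, 13), (3, -33), (5, 53), (7, -36), (13, 9), (17, 29), (19, 90), (23, -100)])) (.mul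
    (.pp [(1, 3748260)]) (.sq [(1, -9), (2, 100), (3, 12), (5, -74), (7, 81), (13, -80), (17, -16),
    (19, 17), (23, -28)]))))) (.mul (.g 19) (.add (.add (.mul (.pp [(1, 275160)]) (.sq [(1, -26), (2,
    -20), (3, -22), (5, 15), (7, -7), (13, 3), (17, 50), (19, 57), (23, -100)])) (.mul (.pp [(1,
    138420)]) (.sq [(1, -13), (2, 15), (3, 10), (5, 9), (7, -38), (13, 100), (17, 28), (19, 5), (23,
    -32)]))) (.add (.mul (.pp [(1, 651420)]) (.sq [(1, -74), (2, 25), (3, 13), (5, -18), (7, 29), (13,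
    -70), (17, 35), (19, 100), (23, -87)])) (.mul (.pp [(1, 277140)]) (.sq [(1, 17), (2, -52), (3,
    -22), (5, 24), (7, 6), (13, 100), (17, -8), (19, -47), (23, 17)])))))) (.add (.mul (.g 0) (.add
    (.mul (.pp [(1, 230688)]) (.sq [(1, -15), (2, 19), (3, 10), (5, -32), (7, -14), (13, 100), (17,
    33), (19, 7), (23, -35)])) (.mul (.pp [(1, 15561)]) (.sq [(1, 4), (2, -1), (3, -78), (5, -29), (7,
    -2), (13, -10), (17, 16), (19, 100), (23, -97)])))) (.add (.mul (.g 2) (.add (.mul (.pp [(1,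
    976260)]) (.sq [(1, 94), (2, -81), (3, -54), (5, -29), (7, 32), (13, 79), (17, -42), (19, -100),
    (23, 65)])) (.mul (.pp [(1, 3577500)]) (.sq [(1, 50), (2, -1), (3, -22), (5, 100), (7, -88), (13,
    16), (17, 26), (19, -24), (23, 2)])))) (.mul (.g 3) (.add (.mul (.pp [(1, 3615180)]) (.sq [(1,
    -45), (2, -39), (3, -17), (5, 30), (7, 10), (13, -8), (17, 38), (19, 71), (23, -100)])) (.mul (.pp
    [(1, 1970700)]) (.sq [(1, -36), (2, 100), (3, 62), (5, -36), (7, 37), (13, -91), (17, 48), (19,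
    16), (23, -60)]))))))) (.add (.add (.mul (.g 4) (.add (.mul (.pp [(1, 22740)]) (.sq [(1, -52), (2,
    -45), (3, -2), (5, 5), (7, 56), (13, -4), (17, 29), (19, 50), (23, -100)])) (.mul (.pp [(1,
    6807900)]) (.sq [(1, -10), (2, -28), (3, -33), (5, -29), (7, -1), (13, 100), (17, -11), (19, 23),
    (23, -16)])))) (.add (.mul (.g 10) (.add (.mul (.pp [(1, 640440)]) (.sq [(2, -29), (3, -9), (5,
    36), (7, -85), (13, 33), (17, -22), (19, -3), (23, 100)])) (.mul (.pp [(1, 4303380)]) (.sq [(1,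
    3), (2, -76), (3, -12), (5, 10), (7, -14), (13, 100), (17, -13), (19, -19), (23, 6)])))) (.mul (.g
    11) (.add (.mul (.pp [(1, 1778340)]) (.sq [(1, -39), (2, -2), (3, -13), (5, -36), (7, 100), (13,
    -35), (17, 22), (19, 12), (23, -64)])) (.mul (.pp [(1, 1239120)]) (.sq [(1, -41), (2, -66), (3,
    -34), (5, 56), (7, -19), (13, 100), (17, 13), (19, 70), (23, -85)])))))) (.add (.mul (.g 16) (.add
    (.mul (.pp [(1, 1477560)]) (.sq [(1, -63), (2, -77), (3, -30), (5, -10), (7, 36), (13, 100), (17,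
    2), (19, 79), (23, -91)])) (.mul (.pp [(1, 1674240)]) (.sq [(1, -48), (2, 51), (3, 17), (5, 10),
    (7, 19), (13, -51), (17, 49), (19, 62), (23, -100)])))) (.add (.mul (.g 8) (.mul (.pp [(1,
    800460)]) (.sq [(1, 3), (2, 100), (3, 28), (5, -45), (7, -2), (13, -77), (17, 15), (19, 4), (23,
    8)]))) (.mul (.g 15) (.mul (.pp [(1, 78636)]) (.sq [(1, -25), (2, -41), (3, -47), (5, 30), (7,
    -19), (13, -9), (17, 28), (19, 99), (23, -100)])))))))) (.pp [(1, 487907544), (2, 4818084), (3,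
    5720172), (4, 5930121), (5, 5867400), (6, 5319588), (7, 5440488), (8, 5305740), (9, 6673188), (10,
    5208210), (12, 5316540), (13, 7026732), (14, 6759708), (15, 5817468), (17, 6842664), (18,
    5819100), (19, 7093428), (20, 6688260), (21, 6009120), (23, 5821992), (25, 4986705), (26,
    6187380), (27, 5672400), (28, 6244500), (30, 6690720), (34, 5868792), (35, 6341676), (38,
    6687360), (39, 6987120), (42, 6237360), (45, 6404820), (46, 6488322), (49, 5198208), (50,
    5870880), (51, 5399448), (52, 6067620), (57, 6334728), (63, 5655360), (65, 5826924), (68,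
    6907620), (69, 6032916), (70, 6576600), (75, 5916960), (76, 5506440), (78, 6116160), (85,
    7126080), (91, 5996160), (92, 6574440), (95, 6516336), (98, 5992440), (102, 5539440), (105,
    5161920), (114, 6514920), (115, 4654746), (117, 6194760), (119, 6397560), (125, 6175940), (130,
    5710080), (133, 6703104), (138, 6003360), (147, 5609700), (153, 5015460), (161, 7782780), (169,
    4725840), (170, 6060120), (171, 6055860), (175, 6782640), (182, 5514000), (190, 6020280), (195,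
    6609480), (207, 6398460), (221, 6489840), (230, 5232840), (238, 5853600), (245, 5593740), (247,
    5438544), (255, 6423000), (266, 5286360), (273, 5534640), (285, 6243600), (289, 5195664), (299,
    5151132), (322, 5649840), (323, 4848168), (325, 5445240), (338, 5080980), (343, 5983060), (345,
    5338440), (357, 6210120), (361, 5719524), (391, 6326208), (399, 6462840), (425, 6206820), (437,
    5053824), (442, 6757680), (455, 5111520), (475, 5776320), (483, 6513720), (494, 6426720), (507,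
    5403240), (529, 5143053), (575, 6576300), (578, 5781000), (595, 6405120), (598, 6244800), (637,
    6100380), (646, 6398640), (663, 5586120), (665, 6718200), (722, 5724360), (741, 6318960), (782,
    5746800), (805, 5955840), (833, 6459540), (845, 6480120), (867, 6302940), (874, 7206960), (897,
    5762280), (931, 6453000), (969, 6544080), (1058, 5409960), (1083, 5689320), (1105, 5585280),
    (1127, 6321720), (1173, 6364080), (1183, 6705600), (1235, 6325320), (1311, 5062440), (1445,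
    5311860), (1495, 6667440), (1547, 6762600), (1587, 5842440), (1615, 5094960), (1729, 5414400),
    (1805, 5793900), (1955, 6707640), (2023, 5445000), (2093, 5821200), (2185, 5949600), (2197,
    6777420), (2261, 6271080), (2527, 5414280), (2645, 6360900), (2737, 4636440), (2873, 6335880),
    (3059, 5211000), (3211, 5804220), (3703, 6372780), (3757, 5553300), (3887, 6099720), (4199,
    5370120), (4693, 6473700), (4913, 6666960), (5083, 6154080), (5491, 6245880), (5681, 5762880),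
    (6137, 5980980), (6647, 5562780), (6859, 6000900), (6877, 6481200), (7429, 6883920), (8303,
    6612960), (8993, 6831660), (10051, 5873160), (12167, 5949740)])) (by norm_num)
    (by decide +kernel)

theorem p04 : Ck (gP1 4 []) (pW (vP1 4 0)) :=
  .mk' 1000000 (.add (.add (.add (.add (.add (.mul (.pp [(1, 1993260)]) (.sq [(1, -37), (2, -97), (3, -35), (5,
    -8), (7, -21), (13, 100), (17, 34), (19, -21), (23, 51)])) (.mul (.pp [(1, 297120)]) (.sq [(1,
    -44), (2, 19), (3, -89), (5, 100), (7, -33), (13, -1), (17, 92), (19, -31), (23, 49)]))) (.add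
    (.mul (.g 6) (.add (.add (.add (.add (.mul (.pp [(1, 1075440)]) (.sq [(2, -42), (3, -34), (5,
    -23), (7, -63), (13, 100), (17, 12), (19, -94), (23, -14)])) (.mul (.pp [(1, 11696460)]) (.sq [(2,
    100), (3, 12), (5, 4), (7, -51), (17, 4), (19, 3), (23, -8)]))) (.add (.mul (.pp [(1, 5950200)])
    (.sq [(1, -30), (2, 34), (3, 100), (5, -16), (7, 92), (13, -19), (17, -71), (19, 3), (23, 15)]))
    (.mul (.pp [(1, 3087360)]) (.sq [(1, -9), (2, -100), (3, 60), (5, 40), (7, -1), (13, -4), (19,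
    81), (23, -11)])))) (.add (.add (.mul (.pp [(1, 4480680)]) (.sq [(1, -9), (2, 32), (3, 41), (5,
    100), (7, -10), (13, 6), (17, -17), (19, -42), (23, -9)])) (.mul (.g 10) (.add (.add (.mul (.g 1)
    (.pp [(1, 167763000000)])) (.mul (.g 8) (.pp [(1, 18392400000)]))) (.add (.mul (.g 11) (.pp [(1,
    53277600000)])) (.add (.mul (.g 13) (.pp [(1, 60601800000)])) (.mul (.g 18) (.pp [(1,
    8982600000)]))))))) (.add (.mul (.g 12) (.add (.add (.pp [(1, 40585800000)]) (.mul (.g 5) (.pp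
    [(1, 7539000000)]))) (.add (.mul (.g 9) (.pp [(1, 106191600000)])) (.add (.mul (.g 16) (.pp [(1,
    13127400000)])) (.mul (.g 18) (.pp [(1, 13814400000)])))))) (.mul (.g 0) (.add (.add (.pp [(1,
    3802260000)]) (.mul (.g 2) (.pp [(1, 4251390000)]))) (.add (.mul (.g 3) (.pp [(1, 1098390000)]))
    (.mul (.g 20) (.pp [(1, 1431492000)])))))))) (.add (.add (.add (.mul (.g 4) (.add (.mul (.g 6)
    (.pp [(1, 78742200000)])) (.add (.mul (.g 8) (.pp [(1, 37458600000)])) (.mul (.g 15) (.pp [(1,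
    98587800000)]))))) (.mul (.g 9) (.add (.mul (.g 8) (.pp [(1, 8925000000)])) (.add (.mul (.g 15)
    (.pp [(1, 9502800000)])) (.mul (.g 16) (.pp [(1, 54561000000)])))))) (.add (.mul (.g 18) (.add
    (.pp [(1, 44583600000)]) (.add (.mul (.g 17) (.pp [(1, 926400000)])) (.mul (.g 21) (.pp [(1,
    2032680000)]))))) (.mul (.g 20) (.add (.mul (.g 7) (.pp [(1, 1830000000)])) (.add (.mul (.g 8)
    (.pp [(1, 26160240000)])) (.mul (.g 13) (.pp [(1, 18832200000)]))))))) (.add (.add (.mul (.g 3)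
    (.add (.mul (.g 11) (.pp [(1, 17896800000)])) (.mul (.g 16) (.pp [(1, 5614200000)])))) (.mul (.g
    6) (.add (.mul (.g 2) (.pp [(1, 52770000000)])) (.mul (.g 17) (.pp [(1, 67825200000)]))))) (.add
    (.mul (.g 7) (.mul (.g 21) (.pp [(1, 15153840000)]))) (.add (.mul (.g 11) (.mul (.g 13) (.pp [(1,
    57627000000)]))) (.mul (.g 16) (.mul (.g 19) (.pp [(1, 32315760000)]))))))))) (.add (.mul (.g 0)
    (.add (.add (.add (.mul (.pp [(1, 247872)]) (.sq [(2, 85), (3, 10), (5, 48), (7, 2), (13, -100),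
    (17, 50), (19, 4), (23, -34)])) (.mul (.pp [(1, 18129)]) (.sq [(1, -18), (2, 33), (3, 42), (5,
    -8), (7, -19), (13, 100), (17, 29), (19, -20), (23, -13)]))) (.add (.mul (.g 1) (.add (.add (.add
    (.mul (.g 0) (.pp [(1, 175588500)])) (.mul (.g 2) (.pp [(1, 2388360000)]))) (.add (.mul (.g 3)
    (.pp [(1, 12998160000)])) (.mul (.g 8) (.pp [(1, 804150000)])))) (.add (.add (.mul (.g 9) (.pp
    [(1, 13545660000)])) (.mul (.g 10) (.pp [(1, 131100000)]))) (.add (.mul (.g 11) (.pp [(1,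
    1195230000)])) (.add (.mul (.g 17) (.pp [(1, 6025320000)])) (.mul (.g 21) (.pp [(1,
    2982684000)]))))))) (.mul (.g 20) (.add (.add (.mul (.g 9) (.pp [(1, 231066000)])) (.mul (.g 11)
    (.pp [(1, 24486000)]))) (.add (.mul (.g 17) (.pp [(1, 151890000)])) (.add (.mul (.g 19) (.pp [(1,
    42117600)])) (.mul (.g 21) (.pp [(1, 102177600)])))))))) (.add (.add (.mul (.g 5) (.add (.add
    (.mul (.g 4) (.pp [(1, 706170000)])) (.mul (.g 11) (.pp [(1, 5448930000)]))) (.add (.mul (.g 19)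
    (.pp [(1, 31710000)])) (.mul (.g 21) (.pp [(1, 2930034000)]))))) (.mul (.g 7) (.add (.mul (.g 17)
    (.pp [(1, 6688020000)])) (.mul (.g 19) (.pp [(1, 703278000)]))))) (.add (.mul (.g 13) (.add (.mul
    (.g 16) (.pp [(1, 2025240000)])) (.mul (.g 21) (.pp [(1, 649872000)])))) (.mul (.g 16) (.mul (.g
    21) (.pp [(1, 921792000)]))))))) (.mul (.g 10) (.add (.add (.add (.mul (.pp [(1, 817680)]) (.sq
    [(1, -32), (2, -96), (3, 100), (5, -47), (7, -9), (13, 77), (17, -33), (19, -9), (23, 9)])) (.mul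
    (.pp [(1, 26917800000)]) (.sq [(7, 1), (19, -1)]))) (.add (.mul (.g 16) (.add (.add (.mul (.g 1)
    (.pp [(1, 135738000000)])) (.add (.mul (.g 7) (.pp [(1, 40636200000)])) (.mul (.g 9) (.pp [(1,
    100029000000)])))) (.add (.add (.mul (.g 13) (.pp [(1, 11911800000)])) (.mul (.g 18) (.pp [(1,
    23148600000)]))) (.add (.mul (.g 19) (.pp [(1, 11369640000)])) (.mul (.g 20) (.pp [(1,
    7376520000)])))))) (.mul (.g 7) (.add (.add (.mul (.g 3) (.pp [(1, 82252200000)])) (.mul (.g 10)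
    (.pp [(1, 84594600000)]))) (.add (.mul (.g 11) (.pp [(1, 25261800000)])) (.add (.mul (.g 20) (.pp
    [(1, 6120600000)])) (.mul (.g 21) (.pp [(1, 3841440000)])))))))) (.add (.add (.mul (.g 20) (.add
    (.add (.mul (.g 1) (.pp [(1, 8754840000)])) (.mul (.g 9) (.pp [(1, 721800000)]))) (.add (.mul (.g
    11) (.pp [(1, 32949240000)])) (.mul (.g 21) (.pp [(1, 641544000)]))))) (.mul (.g 13) (.add (.mul
    (.g 9) (.pp [(1, 23489400000)])) (.add (.mul (.g 11) (.pp [(1, 32491200000)])) (.mul (.g 21) (.pp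
    [(1, 1058160000)])))))) (.add (.mul (.g 1) (.add (.mul (.g 10) (.pp [(1, 175144200000)])) (.mul
    (.g 18) (.pp [(1, 27903000000)])))) (.mul (.g 5) (.mul (.g 12) (.pp [(1, 14486400000)]))))))))))
    (.add (.add (.mul (.g 17) (.add (.add (.add (.mul (.pp [(1, 429780)]) (.sq [(1, -70), (2, -6), (3,
    -40), (5, -100), (7, 45), (13, 65), (17, 2), (19, 45), (23, 33)])) (.mul (.pp [(1, 341640)]) (.sq
    [(1, -18), (2, 16), (3, -76), (5, 100), (7, -12), (13, 23), (19, -12), (23, 27)]))) (.add (.mul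
    (.g 9) (.add (.add (.mul (.g 1) (.pp [(1, 6962400000)])) (.mul (.g 13) (.pp [(1, 6393000000)])))
    (.add (.mul (.g 16) (.pp [(1, 35402400000)])) (.mul (.g 20) (.pp [(1, 3895800000)]))))) (.mul (.g
    12) (.add (.mul (.g 1) (.pp [(1, 99236400000)])) (.add (.mul (.g 5) (.pp [(1, 93831000000)]))
    (.mul (.g 7) (.pp [(1, 113783400000)]))))))) (.add (.add (.mul (.g 13) (.add (.mul (.g 11) (.pp
    [(1, 7132200000)])) (.add (.mul (.g 20) (.pp [(1, 7404360000)])) (.mul (.g 21) (.pp [(1,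
    6617880000)]))))) (.mul (.g 19) (.add (.mul (.g 7) (.pp [(1, 1747680000)])) (.mul (.g 20) (.pp
    [(1, 1929840000)]))))) (.add (.mul (.g 1) (.mul (.g 18) (.pp [(1, 762000000)]))) (.add (.mul (.g
    20) (.mul (.g 20) (.pp [(1, 764328000)]))) (.mul (.g 21) (.mul (.g 21) (.pp [(1,
    707880000)])))))))) (.add (.mul (.g 4) (.add (.add (.add (.mul (.pp [(1, 64552800000)]) (.sq [(19,
    -1), (23, 1)])) (.mul (.pp [(1, 8137860)]) (.sq [(2, 2), (3, 2), (5, -30), (7, 100), (13, 2), (17,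
    2), (19, -43), (23, -43)]))) (.add (.mul (.pp [(1, 1353420)]) (.sq [(1, -88), (2, -87), (3, -1),
    (5, -77), (7, 26), (13, 67), (17, 53), (19, 100), (23, -46)])) (.mul (.g 13) (.add (.add (.mul (.g
    2) (.pp [(1, 26682600000)])) (.add (.mul (.g 8) (.pp [(1, 79842600000)])) (.mul (.g 9) (.pp [(1,
    152384400000)])))) (.add (.mul (.g 15) (.pp [(1, 14403000000)])) (.add (.mul (.g 16) (.pp [(1,
    14996400000)])) (.mul (.g 20) (.pp [(1, 4589760000)])))))))) (.add (.add (.mul (.g 16) (.add (.add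
    (.mul (.g 1) (.pp [(1, 43531200000)])) (.mul (.g 7) (.pp [(1, 8697600000)]))) (.add (.mul (.g 16)
    (.pp [(1, 23018400000)])) (.mul (.g 21) (.pp [(1, 4106640000)]))))) (.mul (.g 1) (.mul (.g 18)
    (.pp [(1, 316252200000)])))) (.add (.mul (.g 7) (.mul (.g 7) (.pp [(1, 158032200000)]))) (.mul (.g
    20) (.mul (.g 21) (.pp [(1, 1329912000)]))))))) (.mul (.g 3) (.add (.add (.add (.mul (.pp [(1,
    2268000)]) (.sq [(1, -13), (2, -4), (3, -7), (5, 100), (7, -10), (13, 10), (17, 1), (19, -21),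
    (23, -17)])) (.mul (.pp [(1, 854880)]) (.sq [(1, -10), (2, -8), (3, -48), (5, 41), (7, 14), (13,
    100), (17, 31), (19, 11), (23, -61)]))) (.add (.mul (.pp [(1, 8626200)]) (.sq [(1, 3), (2, -41),
    (3, -13), (5, -19), (7, -7), (13, 100), (17, -16), (19, -7), (23, 5)])) (.mul (.pp [(1, 53940)])
    (.sq [(1, 8), (2, 24), (3, -46), (5, -48), (7, 8), (13, 100), (17, -47), (19, 6), (23, 28)]))))
    (.add (.add (.mul (.g 13) (.add (.mul (.g 3) (.pp [(1, 42559800000)])) (.add (.mul (.g 13) (.pp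
    [(1, 29983200000)])) (.mul (.g 18) (.pp [(1, 37446000000)]))))) (.mul (.g 1) (.mul (.g 12) (.pp
    [(1, 125572800000)])))) (.add (.mul (.g 7) (.mul (.g 18) (.pp [(1, 23975400000)]))) (.mul (.g 16)
    (.mul (.g 20) (.pp [(1, 4276200000)]))))))))) (.add (.mul (.g 16) (.add (.add (.mul (.pp [(1,
    378540)]) (.sq [(1, 27), (2, -74), (3, -52), (5, 100), (7, -18), (13, 71), (17, -50), (19, -18),
    (23, -17)])) (.mul (.pp [(1, 1150860)]) (.sq [(1, -22), (2, -73), (3, 19), (5, 17), (7, -7), (13,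
    -17), (17, 100), (19, -7), (23, -25)]))) (.add (.mul (.g 18) (.add (.mul (.g 1) (.pp [(1,
    13078200000)])) (.add (.mul (.g 20) (.pp [(1, 6767040000)])) (.mul (.g 21) (.pp [(1,
    1298760000)]))))) (.add (.mul (.g 12) (.mul (.g 13) (.pp [(1, 69864000000)]))) (.mul (.g 16) (.mul
    (.g 19) (.pp [(1, 3093000000)]))))))) (.add (.mul (.g 19) (.add (.add (.mul (.pp [(1, 1938456)])
    (.sq [(1, 21), (2, 29), (3, -23), (5, -8), (7, -10), (13, 100), (17, -47), (19, -10), (23, 8)]))
    (.mul (.pp [(1, 614724)]) (.sq [(1, 1), (2, 53), (3, 69), (5, -63), (7, -9), (13, 100), (17, -24),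
    (19, -9), (23, -6)]))) (.add (.mul (.pp [(1, 1737936)]) (.sq [(1, -84), (2, 1), (3, -38), (5, -1),
    (7, -16), (13, 48), (17, 100), (19, -16), (23, 62)])) (.add (.mul (.pp [(1, 693552)]) (.sq [(1,
    78), (2, -68), (3, -38), (5, 100), (7, -97), (13, 84), (17, -47), (19, -12), (23, -10)])) (.mul
    (.pp [(1, 319620)]) (.sq [(1, -25), (2, 76), (3, 27), (5, 100), (7, -23), (13, 58), (17, 35), (19,
    -23), (23, -47)])))))) (.mul (.g 20) (.add (.mul (.pp [(1, 2545956)]) (.sq [(1, -60), (2, 15), (5,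
    48), (7, -18), (13, -22), (17, 100), (19, -18), (23, 32)])) (.add (.mul (.pp [(1, 1021500)]) (.sq
    [(1, -51), (2, 29), (3, 14), (5, -6), (7, -29), (13, 8), (17, 100), (19, -29), (23, 31)])) (.mul
    (.pp [(1, 626088)]) (.sq [(1, -56), (2, 5), (3, 43), (5, -23), (7, -13), (13, -36), (17, 100),
    (19, -13), (23, 38)]))))))))) (.add (.add (.add (.mul (.g 21) (.add (.mul (.pp [(1, 9408)]) (.sq
    [(1, -28), (2, 78), (3, -2), (5, 28), (7, 33), (13, -100), (17, 21), (19, 33), (23, -27)])) (.add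
    (.mul (.pp [(1, 93456)]) (.sq [(1, 17), (2, -8), (3, -70), (5, 100), (7, 10), (13, 10), (17, -50),
    (19, 10), (23, 10)])) (.mul (.pp [(1, 1914360)]) (.sq [(1, -4), (2, -34), (3, 5), (5, 100), (7,
    -13), (13, 1), (17, 14), (19, -13), (23, -18)]))))) (.add (.mul (.g 1) (.add (.mul (.pp [(1,
    3831780)]) (.sq [(1, -57), (2, 14), (3, -2), (5, 53), (7, -21), (13, -23), (17, 100), (19, -21),
    (23, 3)])) (.mul (.pp [(1, 12082500)]) (.sq [(1, 44), (2, 10), (3, 20), (5, 100), (7, -14), (13,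
    -24), (17, -29), (19, -14), (23, -4)])))) (.mul (.g 7) (.add (.mul (.pp [(1, 4229640)]) (.sq [(1,
    -51), (2, 21), (3, -7), (5, -33), (7, -27), (13, 4), (17, 100), (19, -27), (23, -3)])) (.mul (.pp
    [(1, 6617100)]) (.sq [(1, 65), (2, -8), (3, 34), (5, 100), (7, -17), (17, -57), (19, -17), (23,
    -39)])))))) (.add (.mul (.g 11) (.add (.mul (.pp [(1, 2322300)]) (.sq [(1, -72), (2, 72), (3,
    -48), (5, -95), (7, 9), (13, -42), (17, 88), (19, 9), (23, 100)])) (.mul (.pp [(1, 1782660)]) (.sq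
    [(1, -38), (2, -25), (3, -48), (5, 100), (7, -24), (13, 11), (17, 69), (19, -24), (23, 10)]))))
    (.add (.mul (.g 2) (.mul (.pp [(1, 3308040)]) (.sq [(1, -7), (2, -94), (3, -23), (5, 28), (7,
    -22), (13, 100), (17, -1), (19, -22), (23, 19)]))) (.mul (.g 5) (.mul (.pp [(1, 2562540)]) (.sq
    [(1, -21), (2, -95), (3, -16), (5, -12), (7, -8), (13, 100), (17, -3), (19, -8), (23, -51)]))))))
    (.add (.add (.mul (.g 8) (.mul (.pp [(1, 1443780)]) (.sq [(1, -78), (2, -45), (3, -2), (5, 72),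
    (7, -19), (13, 32), (17, 100), (19, -19), (23, 3)]))) (.add (.mul (.g 9) (.mul (.pp [(1, 817740)])
    (.sq [(1, -60), (2, 25), (3, -73), (5, 60), (7, -49), (13, 88), (17, 100), (19, -49), (23, 75)])))
    (.mul (.g 12) (.mul (.pp [(1, 3171720)]) (.sq [(1, -23), (2, 49), (3, 100), (5, -73), (7, 6), (13,
    -64), (17, 47), (19, 6), (23, -10)]))))) (.add (.mul (.g 13) (.mul (.pp [(1, 2203560)]) (.sq [(1,
    -51), (2, 7), (3, 100), (5, 46), (7, -14), (13, -50), (17, 94), (19, -14)]))) (.add (.mul (.g 14)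
    (.pp [(1, 76261)])) (.mul (.g 18) (.mul (.pp [(1, 1458000)]) (.sq [(1, -24), (2, 41), (3, 83), (5,
    17), (7, -28), (13, -76), (17, 100), (19, -28), (23, -10)])))))))) (.pp [(1, 562023744), (2,
    5153088), (3, 5313060), (4, 4580517), (5, 5896560), (6, 6564516), (7, 6012660), (8, 5964480), (9,
    5748156), (10, 5459856), (12, 6474000), (13, 7441560), (14, 6164442), (15, 5754072), (17,
    5564796), (18, 5815860), (19, 6604452), (20, 5723280), (21, 6170172), (23, 6282396), (25,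
    5689440), (26, 8846976), (27, 6292920), (28, 7148100), (30, 6567360), (34, 5415378), (35,
    6322056), (38, 6822000), (39, 6082752), (42, 6431880), (45, 6258840), (46, 5716950), (49,
    7870893), (50, 5980680), (51, 7935084), (52, 6541440), (57, 5529144), (63, 6351420), (65,
    5908440), (68, 5994300), (69, 7029468), (70, 5106600), (75, 5488440), (76, 6622080), (78,
    4616400), (85, 6381264), (91, 5088264), (92, 5810640), (95, 6019920), (98, 6597300), (102,
    6099000), (105, 6899400), (114, 5333400), (115, 6453960), (117, 6228540), (119, 5455890), (125,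
    6317360), (130, 6774840), (133, 4061640), (138, 6876000), (147, 6114240), (153, 5592960), (161,
    4962174), (169, 4791156), (170, 5706000), (171, 6072900), (175, 6088200), (182, 3972960), (190,
    6641880), (195, 5633520), (207, 5682660), (221, 5278056), (230, 6444480), (238, 6649920), (245,
    5850000), (247, 5634264), (255, 7049760), (266, 5176920), (273, 5649000), (285, 5535000), (289,
    6523305), (299, 5694432), (322, 5881920), (323, 6375624), (325, 6021360), (338, 5475240), (343,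
    5261760), (345, 6344760), (357, 4794120), (361, 6097368), (391, 5244678), (399, 6104400), (425,
    5830380), (437, 6850080), (442, 5394360), (455, 6294960), (475, 6050340), (483, 5967840), (494,
    5157120), (507, 6304020), (529, 5666349), (575, 5601780), (578, 6528180), (595, 5682000), (598,
    6038040), (637, 5628000), (646, 6009240), (663, 6076560), (665, 6595320), (722, 5862060), (741,
    6243720), (782, 5620920), (805, 5391000), (833, 5236740), (845, 6055800), (867, 5250960), (874,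
    6494280), (897, 6284760), (931, 6979380), (969, 6346920), (1058, 5933940), (1083, 6150720), (1105,
    6336720), (1127, 6909060), (1173, 5153640), (1183, 7137960), (1235, 5527800), (1311, 5619120),
    (1445, 5209680), (1495, 5833320), (1547, 6171240), (1587, 5424000), (1615, 6324480), (1729,
    6506040), (1805, 5940840), (1955, 4951800), (2023, 6385620), (2093, 6105240), (2185, 5900400),
    (2197, 6123120), (2261, 7133520), (2527, 5182920), (2645, 6493440), (2737, 7175760), (2873,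
    6107820), (3059, 5868000), (3211, 6197100), (3703, 5335980), (3757, 6178680), (3887, 5778180),
    (4199, 5695320), (4693, 6190680), (4913, 5850180), (5083, 6162600), (5491, 5801400), (5681,
    5800320), (6137, 5515620), (6647, 6332760), (6859, 6472240), (6877, 6126840), (7429, 5660640),
    (8303, 5333040), (8993, 6703920), (10051, 5826240), (12167, 6498100)])) (by norm_num)
    (by decide +kernel)

theorem y0 : Ck (gY1 []) (pW (vY1 0)) :=
  .mk' 1000000 (.add (.add (.add (.add (.add (.mul (.g 14) (.add (.add (.add (.mul (.pp [(1, 8940)]) (.sq [(2,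
    -2), (3, -22), (5, 96), (7, 60), (13, 100), (19, -1), (23, -52)])) (.add (.mul (.pp [(1,
    2472540)]) (.sq [(2, 1), (3, -41), (5, 63), (7, -100), (13, 43), (19, -1), (23, 100)])) (.mul (.g
    7) (.add (.mul (.g 1) (.pp [(1, 25407000000)])) (.add (.mul (.g 5) (.pp [(1, 54868200000)])) (.mul
    (.g 11) (.pp [(1, 45917400000)]))))))) (.add (.mul (.g 19) (.add (.pp [(1, 13632720000)]) (.add
    (.mul (.g 2) (.pp [(1, 6327600000)])) (.mul (.g 8) (.pp [(1, 3462960000)]))))) (.add (.mul (.g 3)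
    (.add (.mul (.g 6) (.pp [(1, 1336200000)])) (.mul (.g 17) (.pp [(1, 2986320000)])))) (.mul (.g 10)
    (.add (.pp [(1, 131482800000)]) (.mul (.g 16) (.pp [(1, 6529800000)]))))))) (.add (.add (.mul (.g
    11) (.add (.pp [(1, 54444000000)]) (.mul (.g 0) (.pp [(1, 3272250000)])))) (.add (.mul (.g 15)
    (.add (.pp [(1, 255765000000)]) (.mul (.g 16) (.pp [(1, 4931400000)])))) (.mul (.g 1) (.mul (.g 5)
    (.pp [(1, 25960200000)]))))) (.add (.mul (.g 2) (.mul (.g 17) (.pp [(1, 5342280000)]))) (.add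
    (.mul (.g 8) (.mul (.g 18) (.pp [(1, 2229360000)]))) (.mul (.g 14) (.mul (.g 14) (.pp [(1,
    1290000000)])))))))) (.mul (.g 0) (.add (.add (.add (.mul (.pp [(1, 205419)]) (.sq [(2, -49), (3,
    23), (5, 7), (7, -38), (13, 100), (19, 6), (23, -38)])) (.mul (.pp [(1, 72912)]) (.sq [(2, 39),
    (3, 39), (5, -66), (7, -100), (13, 39), (19, -66), (23, 39)]))) (.add (.mul (.pp [(1, 688008)])
    (.sq [(2, 34), (3, -42), (5, -7), (7, -9), (13, 17), (19, -23), (23, 50)])) (.mul (.pp [(1,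
    50937)]) (.sq [(2, 86), (3, 65), (5, 99), (7, -100), (13, 11), (19, 91), (23, 31)])))) (.add (.add
    (.mul (.g 15) (.add (.add (.pp [(1, 36390000)]) (.mul (.g 3) (.pp [(1, 889350000)]))) (.add (.mul
    (.g 7) (.pp [(1, 1726290000)])) (.mul (.g 11) (.pp [(1, 1349580000)]))))) (.mul (.g 5) (.add (.pp
    [(1, 5574870000)]) (.add (.mul (.g 2) (.pp [(1, 4072920000)])) (.mul (.g 17) (.pp [(1,
    875610000)])))))) (.add (.mul (.g 7) (.add (.mul (.g 17) (.pp [(1, 609804000)])) (.mul (.g 19)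
    (.pp [(1, 471996000)])))) (.add (.mul (.g 16) (.add (.mul (.g 3) (.pp [(1, 4140660000)])) (.mul
    (.g 6) (.pp [(1, 1541820000)])))) (.mul (.g 19) (.pp [(1, 2771340000)])))))))) (.add (.mul (.g 1)
    (.add (.add (.add (.mul (.pp [(1, 2833800)]) (.sq [(2, -48), (3, -23), (5, -44), (7, 5), (13,
    100), (19, 33), (23, 12)])) (.mul (.pp [(1, 434220)]) (.sq [(2, 14), (3, 14), (5, -59), (7, 100),
    (13, 14), (19, -59), (23, 14)]))) (.add (.mul (.pp [(1, 1450500)]) (.sq [(1, 33), (2, -31), (3,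
    -31), (5, 100), (13, 93), (19, -100), (23, -32)])) (.add (.mul (.pp [(1, 7776900)]) (.sq [(2, 6),
    (3, -14), (5, -25), (7, 75), (13, -18), (19, 100), (23, 46)])) (.mul (.pp [(1, 1387320)]) (.sq
    [(2, 100), (3, -49), (5, 14), (7, 11), (13, 74), (19, -10), (23, 23)]))))) (.add (.add (.mul (.pp
    [(1, 195840)]) (.sq [(2, 55), (3, 100), (5, -26), (7, 65), (13, 78), (19, -37), (23, 11)])) (.add
    (.mul (.g 6) (.add (.mul (.g 13) (.pp [(1, 139509000000)])) (.mul (.g 19) (.pp [(1,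
    28254000000)])))) (.mul (.g 7) (.add (.mul (.g 2) (.pp [(1, 194586000000)])) (.mul (.g 16) (.pp
    [(1, 104182800000)])))))) (.add (.mul (.g 10) (.pp [(1, 60844800000)])) (.add (.mul (.g 11) (.pp
    [(1, 171822000000)])) (.mul (.g 16) (.pp [(1, 328718400000)]))))))) (.mul (.g 5) (.add (.add (.add
    (.mul (.pp [(1, 688380)]) (.sq [(2, -64), (3, -64), (5, 100), (7, 71), (13, -64), (19, 30), (23,
    -64)])) (.add (.mul (.pp [(1, 1987440)]) (.sq [(2, -21), (3, 9), (5, 13), (7, 31), (13, 40), (19,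
    -57), (23, 100)])) (.mul (.pp [(1, 2125560)]) (.sq [(2, 67), (3, 77), (5, 43), (7, -100), (13,
    -56), (19, 17), (23, -52)])))) (.add (.mul (.pp [(1, 4616580)]) (.sq [(2, -96), (3, 72), (5, 1),
    (7, -100), (13, -34), (19, -6), (23, 81)])) (.add (.mul (.pp [(1, 4356720)]) (.sq [(2, 88), (3,
    -66), (5, 19), (7, -58), (13, 47), (19, 29), (23, 100)])) (.mul (.pp [(1, 611460)]) (.sq [(2, 75),
    (3, 75), (5, 100), (7, 96), (13, 75), (19, 79), (23, 75)]))))) (.add (.add (.mul (.pp [(1,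
    2299320)]) (.sq [(2, -21), (3, -68), (5, 91), (7, -100), (13, 26), (19, -85), (23, -38)])) (.add
    (.mul (.g 2) (.mul (.g 6) (.pp [(1, 53724600000)]))) (.mul (.g 4) (.mul (.g 17) (.pp [(1,
    17052120000)]))))) (.add (.add (.mul (.g 9) (.pp [(1, 25305000000)])) (.mul (.g 10) (.pp [(1,
    145377000000)]))) (.add (.mul (.g 11) (.pp [(1, 105825600000)])) (.mul (.g 15) (.pp [(1,
    86204400000)]))))))))) (.add (.add (.mul (.g 19) (.add (.add (.mul (.pp [(1, 177552)]) (.sq [(1,
    -48), (2, -17), (3, -17), (5, 45), (13, 86), (19, -100), (23, 3)])) (.add (.mul (.pp [(1, 12468)])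
    (.sq [(2, -22), (3, -56), (5, -99), (7, 100), (13, -64), (19, -45), (23, -37)])) (.mul (.g 15)
    (.add (.pp [(1, 8194680000)]) (.add (.mul (.g 2) (.pp [(1, 4251000000)])) (.mul (.g 3) (.pp [(1,
    4083120000)]))))))) (.add (.add (.mul (.g 19) (.add (.pp [(1, 383856000)]) (.add (.mul (.g 8) (.pp
    [(1, 301032000)])) (.mul (.g 19) (.pp [(1, 783230400)]))))) (.mul (.g 10) (.add (.pp [(1,
    4887720000)]) (.mul (.g 10) (.pp [(1, 451920000)]))))) (.add (.mul (.g 6) (.mul (.g 16) (.pp [(1,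
    100080000)]))) (.mul (.g 11) (.pp [(1, 12818280000)])))))) (.mul (.g 6) (.add (.add (.mul (.pp
    [(1, 936240)]) (.sq [(2, -56), (3, -51), (5, -74), (7, 100), (13, -13), (19, -47), (23, -27)]))
    (.add (.mul (.pp [(1, 475200)]) (.sq [(2, -73), (3, -27), (5, 76), (7, 28), (13, 100), (19, 33),
    (23, -12)])) (.mul (.g 11) (.add (.mul (.g 8) (.pp [(1, 10252800000)])) (.mul (.g 17) (.pp [(1,
    15688080000)])))))) (.add (.add (.mul (.g 2) (.mul (.g 6) (.pp [(1, 178715400000)]))) (.mul (.g 3)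
    (.mul (.g 15) (.pp [(1, 14729400000)])))) (.add (.mul (.g 7) (.mul (.g 13) (.pp [(1,
    113665800000)]))) (.mul (.g 9) (.pp [(1, 140473800000)]))))))) (.add (.mul (.g 8) (.add (.add
    (.mul (.pp [(1, 522180)]) (.sq [(2, 47), (3, 97), (5, -40), (7, -100), (13, 13), (19, 41), (23,
    -9)])) (.mul (.g 11) (.add (.pp [(1, 149643600000)]) (.mul (.g 13) (.pp [(1, 15391200000)])))))
    (.add (.mul (.g 8) (.mul (.g 17) (.pp [(1, 54721200000)]))) (.add (.mul (.g 10) (.mul (.g 16) (.pp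
    [(1, 10534200000)]))) (.mul (.g 15) (.mul (.g 18) (.pp [(1, 594000000)]))))))) (.mul (.g 4) (.add
    (.add (.mul (.pp [(1, 4376580)]) (.sq [(2, -96), (3, 91), (5, -1), (7, 100), (13, -23), (19, 10),
    (23, -81)])) (.mul (.pp [(1, 5509740)]) (.sq [(1, 92), (2, 77), (3, 77), (13, -54), (23, -100)])))
    (.add (.mul (.pp [(1, 2057880)]) (.sq [(2, -100), (3, 16), (7, -66), (13, -53), (19, 11), (23,
    82)])) (.add (.mul (.g 7) (.mul (.g 15) (.pp [(1, 185266200000)]))) (.mul (.g 16) (.mul (.g 16)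
    (.pp [(1, 29635200000)])))))))))) (.add (.add (.add (.mul (.g 10) (.add (.add (.mul (.pp [(1,
    26280)]) (.sq [(2, 56), (3, 100), (5, 18), (7, 45), (13, 35), (19, -3), (23, 8)])) (.mul (.pp [(1,
    111000)]) (.sq [(2, 56), (3, 4), (5, 100), (7, 34), (13, -77), (19, -22), (23, 39)]))) (.add (.mul
    (.pp [(1, 109320)]) (.sq [(2, -29), (3, 100), (5, 4), (7, -77), (13, -40), (19, -84), (23, -37)]))
    (.add (.mul (.g 10) (.pp [(1, 59702400000)])) (.mul (.g 18) (.pp [(1, 1813920000)])))))) (.mul (.g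
    2) (.add (.add (.mul (.pp [(1, 1002960)]) (.sq [(1, 100), (2, 84), (3, 84), (5, -13), (13, -77),
    (23, -77)])) (.mul (.pp [(1, 2566620)]) (.sq [(2, -100), (3, -16), (5, -44), (7, -31), (13, -24),
    (19, -15), (23, 82)]))) (.add (.mul (.pp [(1, 183660)]) (.sq [(2, -1), (3, -78), (5, -78), (7,
    -20), (13, 100), (19, -1), (23, -42)])) (.mul (.g 11) (.pp [(1, 144787200000)])))))) (.add (.mul
    (.g 7) (.add (.add (.mul (.pp [(1, 2917200)]) (.sq [(1, 41), (5, 25), (19, -25), (23, -50)]))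
    (.mul (.pp [(1, 634500)]) (.sq [(2, -20), (3, 4), (5, 94), (7, -6), (13, 100), (19, 1), (23,
    8)]))) (.add (.mul (.pp [(1, 371940)]) (.sq [(2, -100), (3, 33), (5, 8), (7, -83), (13, -55), (19,
    8), (23, 73)])) (.mul (.g 7) (.mul (.g 18) (.pp [(1, 6267240000)])))))) (.mul (.g 9) (.add (.mul
    (.pp [(1, 95940)]) (.sq [(2, -73), (3, -46), (5, 27), (7, 8), (13, -100), (19, 82), (23, -38)]))
    (.add (.mul (.pp [(1, 117240)]) (.sq [(2, -68), (3, 58), (5, 100), (7, 3), (19, 41), (23, -38)]))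
    (.mul (.g 16) (.mul (.g 17) (.pp [(1, 3291720000)])))))))) (.add (.add (.mul (.g 11) (.add (.mul
    (.pp [(1, 92460)]) (.sq [(2, 71), (3, 81), (5, -29), (7, 4), (13, 93), (19, 29), (23, -100)]))
    (.add (.mul (.g 3) (.pp [(1, 125934000000)])) (.mul (.g 18) (.pp [(1, 36224160000)]))))) (.mul (.g
    15) (.add (.mul (.pp [(1, 967680)]) (.sq [(2, 37), (3, -20), (5, 20), (7, 42), (13, 34), (19,
    100), (23, 26)])) (.mul (.g 15) (.mul (.g 15) (.pp [(1, 213600000)])))))) (.add (.mul (.g 16)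
    (.add (.mul (.pp [(1, 767340)]) (.sq [(1, -1), (2, -100), (3, -32), (5, 20), (7, 5), (13, -19),
    (19, 26), (23, 36)])) (.mul (.g 16) (.pp [(1, 23662800000)])))) (.add (.mul (.g 17) (.add (.mul
    (.pp [(1, 474360)]) (.sq [(1, 9), (2, -7), (3, -7), (5, 53), (7, -34), (13, 94), (19, -100), (23,
    1)])) (.mul (.pp [(1, 1090740)]) (.sq [(2, 11), (3, 6), (5, -5), (7, 100), (13, 38), (19, -24),
    (23, -90)])))) (.mul (.g 3) (.mul (.pp [(1, 160860)]) (.sq [(2, 43), (3, 100), (5, -43), (7, 9),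
    (13, 92), (19, 62), (23, -85)])))))))) (.pp [(1, 36736811796), (2, 6792288), (3, 6346488), (4,
    5841543), (5, 5511300), (6, 5725026), (7, 5872020), (8, 6055800), (9, 5844792), (10, 5696490),
    (12, 5631300), (13, 5499576), (14, 6463740), (15, 6599556), (18, 5302020), (19, 5567040), (20,
    5663760), (21, 5316468), (23, 6212928), (25, 6639432), (26, 4925028), (27, 5958060), (28,
    6692880), (30, 6108960), (35, 5529180), (38, 4723872), (39, 5798622), (42, 4762560), (45,
    6071640), (46, 5575152), (49, 5990652), (50, 5730480), (52, 5756160), (57, 5930202), (63,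
    5911980), (65, 6649890), (69, 6447522), (70, 6671160), (75, 5835180), (76, 5618700), (78,
    5577000), (91, 6189456), (92, 5374080), (95, 6543966), (98, 5392560), (105, 6957000), (114,
    6908880), (115, 6274902), (117, 5483940), (125, 5572340), (130, 6236160), (133, 6122304), (138,
    7319880), (147, 6170280), (161, 6478896), (169, 6247833), (171, 5823060), (175, 6867120), (182,
    6919200), (190, 5980200), (195, 6105240), (207, 6359340), (230, 5378640), (245, 5885580), (247,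
    6201066), (266, 6398760), (273, 6114360), (285, 5179440), (299, 6514554), (322, 6511680), (325,
    5201700), (338, 5709180), (343, 5553820), (345, 4904640), (361, 6493545), (399, 6275280), (437,
    6148602), (455, 7305000), (475, 5576040), (483, 5397960), (494, 6744360), (507, 5734500), (529,
    5165085), (575, 5665920), (598, 5699160), (637, 6445920), (665, 6222240), (722, 6245520), (741,
    6085680), (805, 6256080), (845, 5868660), (874, 5895960), (897, 7253640), (931, 5818800), (1058,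
    5896920), (1083, 5903460), (1127, 5221380), (1183, 6345180), (1235, 5595000), (1311, 6716880),
    (1495, 5446560), (1587, 5979000), (1729, 6650640), (1805, 5205540), (2093, 5232840), (2185,
    5291520), (2197, 5927580), (2527, 6251280), (2645, 5786700), (3059, 6915120), (3211, 5868960),
    (3703, 6893460), (3887, 6002880), (4693, 5398260), (5681, 6326760), (6859, 5918540), (6877,
    5716260), (8303, 5881860), (10051, 5432700), (12167, 5964420)])) (by norm_num)
    (by decide +kernel)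

theorem c0le : Ck (gC1 (leB 7 20)) (pW (vC1 0)) :=
  .mk' 1000000 (.add (.add (.add (.add (.add (.mul (.pp [(1, 1801800)]) (.sq [(1, 9), (2, 7), (3, 23), (5, 10),
    (7, -100), (11, 61), (13, -45), (19, 72), (23, -26)])) (.mul (.g 10) (.add (.add (.add (.add (.mul
    (.pp [(1, 43078800000)]) (.sq [(2, -1), (3, 1), (11, 1)])) (.mul (.pp [(1, 9239100)]) (.sq [(2,
    74), (3, 71), (5, 18), (7, -100), (11, -26), (13, 17), (19, 12), (23, 22)]))) (.add (.mul (.pp
    [(1, 5092920)]) (.sq [(2, 40), (3, 18), (5, -47), (7, 9), (11, 100), (13, 6), (19, -5), (23, 3)]))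
    (.mul (.pp [(1, 973980)]) (.sq [(2, 72), (3, -66), (5, -1), (7, -51), (11, 4), (13, 100), (19,
    -2), (23, 29)])))) (.add (.add (.mul (.pp [(1, 1738620)]) (.sq [(1, -14), (2, 1), (3, 87), (5,
    -100), (7, 13), (11, 15), (13, -36), (19, 55), (23, -20)])) (.mul (.pp [(1, 6810720)]) (.sq [(1,
    15), (2, 4), (3, -72), (5, 6), (7, 9), (11, 100), (13, 67), (19, -20), (23, -82)]))) (.add (.mul
    (.pp [(1, 84960)]) (.sq [(2, -37), (3, -100), (5, -65), (7, 85), (11, -81), (13, 22), (19, 1),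
    (23, -62)])) (.add (.mul (.pp [(1, 749640)]) (.sq [(1, -71), (2, -31), (3, 28), (5, 46), (7, -87),
    (11, 20), (13, 24), (19, 100), (23, -37)])) (.mul (.g 18) (.add (.add (.mul (.g 1) (.pp [(1,
    25642800000)])) (.add (.mul (.g 3) (.pp [(1, 46632600000)])) (.mul (.g 5) (.pp [(1,
    17158200000)])))) (.add (.add (.mul (.g 9) (.pp [(1, 34605000000)])) (.mul (.g 12) (.pp [(1,
    58921800000)]))) (.add (.mul (.g 20) (.pp [(1, 51232200000)])) (.mul (.g 21) (.pp [(1,
    41650800000)])))))))))) (.add (.add (.add (.mul (.g 11) (.add (.add (.pp [(1, 112007400000)])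
    (.add (.mul (.g 1) (.pp [(1, 166773600000)])) (.mul (.g 10) (.pp [(1, 45228000000)])))) (.add
    (.mul (.g 13) (.pp [(1, 14936400000)])) (.add (.mul (.g 19) (.pp [(1, 81173400000)])) (.mul (.g
    23) (.pp [(1, 3514200000)])))))) (.mul (.g 13) (.add (.add (.pp [(1, 9537000000)]) (.mul (.g 1)
    (.pp [(1, 139643400000)]))) (.add (.mul (.g 8) (.pp [(1, 69471600000)])) (.add (.mul (.g 19) (.pp
    [(1, 78388800000)])) (.mul (.g 20) (.pp [(1, 26522400000)]))))))) (.add (.mul (.g 3) (.add (.add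
    (.mul (.g 14) (.pp [(1, 73555800000)])) (.mul (.g 16) (.pp [(1, 14233110000)]))) (.add (.mul (.g
    22) (.pp [(1, 17757120000)])) (.mul (.g 23) (.pp [(1, 9036120000)]))))) (.add (.mul (.g 1) (.add
    (.mul (.g 8) (.pp [(1, 317629200000)])) (.add (.mul (.g 10) (.pp [(1, 180424200000)])) (.mul (.g
    20) (.pp [(1, 69261000000)]))))) (.mul (.g 16) (.add (.mul (.g 9) (.pp [(1, 948210000)])) (.add
    (.mul (.g 10) (.pp [(1, 1822020000)])) (.mul (.g 17) (.pp [(1, 23098380000)])))))))) (.add (.add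
    (.mul (.g 23) (.add (.mul (.g 10) (.pp [(1, 2318400000)])) (.add (.mul (.g 20) (.pp [(1,
    4128240000)])) (.mul (.g 22) (.pp [(1, 125136000)]))))) (.mul (.g 2) (.add (.mul (.g 8) (.pp [(1,
    4569600000)])) (.mul (.g 14) (.pp [(1, 6219600000)]))))) (.add (.mul (.g 5) (.mul (.g 5) (.pp [(1,
    33722400000)]))) (.add (.mul (.g 7) (.mul (.g 8) (.pp [(1, 52600200000)]))) (.mul (.g 19) (.mul
    (.g 22) (.pp [(1, 22510680000)])))))))))) (.add (.mul (.g 19) (.add (.add (.add (.mul (.pp [(1,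
    1093140)]) (.sq [(1, 15), (2, -9), (3, 89), (5, 100), (7, 16), (11, 17), (13, 4), (19, -89), (23,
    59)])) (.add (.mul (.pp [(1, 4644960)]) (.sq [(1, 24), (2, -64), (3, 47), (5, -26), (7, 7), (13,
    -32), (19, -22), (23, 100)])) (.mul (.pp [(1, 1282860)]) (.sq [(2, -4), (3, -22), (5, 95), (7,
    -23), (11, -100), (13, -10), (19, -5), (23, 44)])))) (.add (.add (.mul (.g 13) (.add (.add (.mul
    (.g 8) (.pp [(1, 84521400000)])) (.add (.mul (.g 11) (.pp [(1, 167214600000)])) (.mul (.g 12) (.pp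
    [(1, 182017800000)])))) (.add (.mul (.g 16) (.pp [(1, 4261590000)])) (.add (.mul (.g 19) (.pp [(1,
    29967600000)])) (.mul (.g 21) (.pp [(1, 6326880000)])))))) (.mul (.g 3) (.add (.add (.mul (.g 11)
    (.pp [(1, 29211000000)])) (.mul (.g 12) (.pp [(1, 31715400000)]))) (.add (.mul (.g 16) (.pp [(1,
    10229250000)])) (.add (.mul (.g 20) (.pp [(1, 26227200000)])) (.mul (.g 21) (.pp [(1,
    4324080000)]))))))) (.add (.mul (.g 8) (.add (.add (.mul (.g 4) (.pp [(1, 56637000000)])) (.mul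
    (.g 14) (.pp [(1, 28479600000)]))) (.add (.mul (.g 16) (.pp [(1, 15173580000)])) (.mul (.g 23)
    (.pp [(1, 4643040000)]))))) (.mul (.g 0) (.add (.mul (.g 1) (.pp [(1, 3684090000)])) (.add (.mul
    (.g 11) (.pp [(1, 10615950000)])) (.mul (.g 21) (.pp [(1, 1568844000)])))))))) (.add (.add (.mul
    (.g 19) (.add (.mul (.g 1) (.pp [(1, 4782600000)])) (.add (.mul (.g 18) (.pp [(1, 62683800000)]))
    (.mul (.g 22) (.pp [(1, 4252680000)]))))) (.add (.mul (.g 23) (.add (.mul (.g 11) (.pp [(1,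
    951120000)])) (.add (.mul (.g 12) (.pp [(1, 8398800000)])) (.mul (.g 14) (.pp [(1,
    3813480000)]))))) (.mul (.g 16) (.add (.mul (.g 1) (.pp [(1, 2909670000)])) (.mul (.g 22) (.pp
    [(1, 1175904000)])))))) (.add (.add (.mul (.g 7) (.mul (.g 7) (.pp [(1, 15784200000)]))) (.mul (.g
    12) (.mul (.g 14) (.pp [(1, 39376200000)])))) (.add (.mul (.g 18) (.mul (.g 20) (.pp [(1,
    23033400000)]))) (.mul (.g 21) (.mul (.g 21) (.pp [(1, 1349280000)])))))))) (.add (.mul (.g 21)
    (.add (.add (.add (.mul (.pp [(1, 2048196)]) (.sq [(1, 7), (2, -100), (3, -35), (5, -9), (7, 23),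
    (11, 53), (13, -30), (19, 10), (23, 43)])) (.add (.mul (.pp [(1, 1527264)]) (.sq [(1, -16), (2,
    100), (3, -11), (5, -11), (7, 92), (11, -55), (13, 12), (19, -58), (23, -33)])) (.mul (.pp [(1,
    2174676)]) (.sq [(2, 100), (3, 3), (5, 4), (7, -5), (11, 6), (13, -28), (19, -14), (23, 23)]))))
    (.add (.mul (.pp [(1, 68532)]) (.sq [(1, -30), (2, 97), (3, 13), (5, -95), (7, 100), (11, 3), (13,
    -13), (19, -24), (23, -6)])) (.add (.mul (.pp [(1, 224976)]) (.sq [(1, 13), (2, -16), (3, -18),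
    (5, 100), (7, -24), (11, -1), (13, 1), (19, -7), (23, -17)])) (.mul (.pp [(1, 186396)]) (.sq [(1,
    8), (2, 100), (3, -83), (5, -54), (7, -5), (11, -41), (13, -1), (19, -34), (23, -1)]))))) (.add
    (.add (.mul (.pp [(1, 164820)]) (.sq [(1, -86), (2, 11), (3, 53), (5, -18), (7, 17), (11, 43),
    (13, 88), (19, -15), (23, 100)])) (.add (.mul (.g 8) (.add (.add (.mul (.g 3) (.pp [(1,
    1683840000)])) (.add (.mul (.g 5) (.pp [(1, 22297080000)])) (.mul (.g 9) (.pp [(1,
    1181880000)])))) (.add (.mul (.g 11) (.pp [(1, 2992320000)])) (.add (.mul (.g 13) (.pp [(1,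
    3903720000)])) (.mul (.g 21) (.pp [(1, 5252016000)])))))) (.mul (.g 3) (.add (.mul (.g 11) (.pp
    [(1, 20708040000)])) (.add (.mul (.g 16) (.pp [(1, 1146036000)])) (.mul (.g 21) (.pp [(1,
    17040000)]))))))) (.add (.mul (.g 14) (.add (.mul (.g 1) (.pp [(1, 14950560000)])) (.add (.mul (.g
    7) (.pp [(1, 2599800000)])) (.mul (.g 18) (.pp [(1, 6491880000)]))))) (.add (.mul (.g 0) (.add
    (.mul (.g 1) (.pp [(1, 2090910000)])) (.mul (.g 12) (.pp [(1, 304806000)])))) (.mul (.g 20) (.add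
    (.mul (.g 16) (.pp [(1, 630420000)])) (.mul (.g 21) (.pp [(1, 406680000)]))))))))) (.mul (.g 1)
    (.add (.add (.add (.mul (.pp [(1, 3042240)]) (.sq [(1, -20), (2, 56), (3, -16), (5, 100), (7,
    -73), (13, 11), (19, 37), (23, 18)])) (.mul (.pp [(1, 4645680)]) (.sq [(2, -31), (3, -17), (5,
    81), (7, -20), (11, 100), (13, 21), (19, 2), (23, -71)]))) (.add (.mul (.pp [(1, 841080)]) (.sq
    [(1, 11), (2, -49), (3, 35), (5, 34), (7, 4), (11, -15), (13, 100), (19, -82), (23, -1)])) (.mul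
    (.g 8) (.add (.add (.mul (.g 3) (.pp [(1, 353899200000)])) (.mul (.g 7) (.pp [(1,
    186828600000)]))) (.add (.mul (.g 8) (.pp [(1, 497461200000)])) (.add (.mul (.g 14) (.pp [(1,
    54259200000)])) (.mul (.g 20) (.pp [(1, 278607600000)])))))))) (.add (.add (.mul (.g 14) (.add
    (.add (.pp [(1, 30237600000)]) (.mul (.g 3) (.pp [(1, 98080800000)]))) (.add (.mul (.g 11) (.pp
    [(1, 139321200000)])) (.mul (.g 13) (.pp [(1, 239551800000)]))))) (.mul (.g 0) (.add (.mul (.g 5)
    (.pp [(1, 12232020000)])) (.add (.mul (.g 16) (.pp [(1, 502354500)])) (.mul (.g 23) (.pp [(1,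
    4841682000)])))))) (.add (.mul (.g 11) (.mul (.g 11) (.pp [(1, 41519400000)]))) (.mul (.g 20)
    (.mul (.g 20) (.pp [(1, 238756200000)])))))))))) (.add (.add (.mul (.g 3) (.add (.add (.mul (.pp
    [(1, 20955480)]) (.sq [(1, 36), (2, 10), (3, -9), (5, 37), (7, 68), (11, -100), (13, -10), (19,
    -68), (23, 11)])) (.mul (.g 14) (.add (.add (.mul (.g 4) (.pp [(1, 34804200000)])) (.mul (.g 8)
    (.pp [(1, 349961400000)]))) (.add (.mul (.g 13) (.pp [(1, 228420600000)])) (.add (.mul (.g 18)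
    (.pp [(1, 40643400000)])) (.mul (.g 22) (.pp [(1, 30587640000)]))))))) (.add (.mul (.g 16) (.add
    (.add (.mul (.g 0) (.pp [(1, 362616000)])) (.mul (.g 8) (.pp [(1, 376500000)]))) (.add (.mul (.g
    11) (.pp [(1, 16305930000)])) (.add (.mul (.g 12) (.pp [(1, 4814280000)])) (.mul (.g 20) (.pp [(1,
    6578970000)])))))) (.mul (.g 11) (.mul (.g 23) (.pp [(1, 29835840000)])))))) (.mul (.g 23) (.add
    (.add (.add (.mul (.pp [(1, 1354968)]) (.sq [(1, 19), (2, -40), (3, -13), (5, 100), (7, 21), (11,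
    -39), (13, -49), (19, -6), (23, -7)])) (.mul (.pp [(1, 839004)]) (.sq [(1, 17), (2, 2), (3, 7),
    (5, 100), (7, -13), (11, -46), (13, 26), (19, -37), (23, 6)]))) (.add (.mul (.pp [(1, 348744)])
    (.sq [(1, -7), (2, 64), (3, -15), (5, 100), (7, -39), (11, 6), (13, 6), (19, -12), (23, -27)]))
    (.mul (.pp [(1, 352344)]) (.sq [(1, -26), (2, 29), (3, -25), (5, -23), (7, -64), (11, 100), (13,
    -42), (19, 84), (23, 71)])))) (.add (.add (.mul (.pp [(1, 944592)]) (.sq [(1, -1), (2, 52), (3,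
    -25), (5, 26), (7, 100), (11, -63), (13, 21), (19, -82), (23, -12)])) (.mul (.g 14) (.add (.mul
    (.g 13) (.pp [(1, 1053120000)])) (.add (.mul (.g 18) (.pp [(1, 3771120000)])) (.mul (.g 20) (.pp
    [(1, 2628120000)])))))) (.add (.mul (.g 0) (.mul (.g 23) (.pp [(1, 309630000)]))) (.add (.mul (.g
    8) (.mul (.g 16) (.pp [(1, 752070000)]))) (.mul (.g 11) (.mul (.g 11) (.pp [(1,
    1258680000)]))))))))) (.add (.mul (.g 20) (.add (.add (.mul (.pp [(1, 1610460)]) (.sq [(1, -32),
    (2, 31), (3, -8), (5, 6), (7, -100), (11, 87), (13, 25), (19, 45), (23, 3)])) (.mul (.pp [(1,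
    2138820)]) (.sq [(1, -26), (2, -3), (3, -9), (5, -17), (7, -39), (11, 16), (13, 100), (19, -14),
    (23, 66)]))) (.add (.mul (.pp [(1, 5544120)]) (.sq [(1, 39), (2, -10), (3, -51), (5, 74), (7, 95),
    (11, -100), (13, -35), (19, -84), (23, -3)])) (.mul (.pp [(1, 1521840)]) (.sq [(1, -15), (2, -69),
    (3, 5), (5, -12), (7, 7), (11, 12), (13, 100), (19, -25), (23, 53)]))))) (.add (.mul (.g 0) (.add
    (.mul (.pp [(1, 706548)]) (.sq [(1, -66), (2, -37), (3, 12), (5, 70), (7, -69), (11, 100), (13,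
    9), (19, 54), (23, -8)])) (.add (.mul (.pp [(1, 53256)]) (.sq [(1, -46), (2, 33), (3, 1), (5, 36),
    (7, -32), (11, 75), (13, -99), (19, 78), (23, -100)])) (.mul (.pp [(1, 358611)]) (.sq [(1, 9), (2,
    -38), (3, -6), (5, -5), (7, 30), (11, -59), (13, 100), (19, -61), (23, 50)]))))) (.mul (.g 9)
    (.add (.mul (.pp [(1, 292380)]) (.sq [(1, -59), (2, 18), (5, 4), (7, -58), (11, 37), (13, 100),
    (19, 1), (23, 61)])) (.add (.mul (.pp [(1, 1369380)]) (.sq [(1, -22), (2, -58), (3, 6), (5, 61),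
    (7, 16), (11, -12), (13, 100), (19, -56), (23, 49)])) (.mul (.pp [(1, 5618880)]) (.sq [(1, -5),
    (2, 49), (3, -46), (5, -57), (7, 100), (11, -75), (13, 3), (19, -50), (23, 17)]))))))))) (.add
    (.add (.add (.mul (.g 16) (.add (.mul (.pp [(1, 232908)]) (.sq [(1, -34), (2, -48), (3, 6), (5,
    -67), (7, 24), (11, 100), (13, -41), (19, 64), (23, -24)])) (.add (.mul (.pp [(1, 725067)]) (.sq
    [(1, -28), (2, -54), (3, 4), (5, -8), (7, 16), (11, 12), (13, 100), (19, -31)])) (.mul (.pp [(1,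
    745713)]) (.sq [(1, 31), (2, -9), (3, -9), (5, 1), (7, 61), (11, -100), (13, 44), (19, -68), (23,
    11)]))))) (.mul (.g 2) (.mul (.pp [(1, 2102640)]) (.sq [(1, 100), (2, -56), (3, 29), (5, 62), (7,
    67), (11, -25), (13, -87), (19, -68), (23, -40)])))) (.add (.mul (.g 4) (.mul (.pp [(1, 3508920)])
    (.sq [(1, 46), (2, 63), (3, -7), (7, 59), (11, -100), (13, -65), (19, -38), (23, -39)]))) (.add
    (.mul (.g 5) (.mul (.pp [(1, 6400680)]) (.sq [(1, -29), (2, -81), (3, 3), (5, -57), (7, 10), (11,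
    100), (13, -2), (19, 53), (23, -31)]))) (.mul (.g 8) (.mul (.pp [(1, 7119840)]) (.sq [(1, -35),
    (2, 2), (3, 1), (5, -28), (7, -22), (11, 16), (13, 100), (19, -18), (23, 68)])))))) (.add (.add
    (.mul (.g 11) (.mul (.pp [(1, 8797200)]) (.sq [(1, 77), (2, -54), (3, -15), (5, -23), (7, 97),
    (11, -52), (13, -100), (19, -16), (23, -50)]))) (.add (.mul (.g 12) (.mul (.pp [(1, 591000)]) (.sq
    [(1, -58), (2, 13), (3, -17), (5, -9), (7, -48), (11, 49), (13, 100), (19, -2), (23, 56)]))) (.mul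
    (.g 14) (.mul (.pp [(1, 2366460)]) (.sq [(1, 63), (2, -82), (3, 27), (5, 58), (7, -49), (11, 61),
    (13, 50), (19, -49), (23, -100)]))))) (.add (.mul (.g 15) (.pp [(1, 214482)])) (.add (.mul (.g 18)
    (.mul (.pp [(1, 1334340)]) (.sq [(1, 1), (2, -18), (3, -11), (5, -57), (7, 100), (11, -6), (13,
    -57), (19, -2), (23, -47)]))) (.mul (.g 22) (.mul (.pp [(1, 1620636)]) (.sq [(1, -62), (2, 11),
    (3, 1), (5, 2), (7, -36), (11, 25), (13, 100), (19, -6), (23, 64)])))))))) (.pp [(1, 244879524),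
    (2, 6002670), (3, 6136662), (4, 5929605), (5, 6080484), (6, 5889234), (7, 6487194), (8, 6047160),
    (9, 5731917), (10, 5729130), (11, 6713130), (12, 5718840), (13, 6189516), (14, 5622126), (15,
    6812154), (18, 5939400), (19, 5149218), (20, 5428800), (21, 6104142), (22, 5352492), (23,
    5424414), (25, 5837820), (26, 5986512), (27, 5971020), (28, 7051440), (30, 5680320), (33,
    6416700), (35, 5300790), (38, 6565608), (39, 5570280), (42, 5857680), (44, 5414740), (45,
    5955000), (46, 6598266), (49, 5658993), (50, 5719260), (52, 5729280), (55, 7132938), (57,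
    5551812), (63, 6129120), (65, 5733504), (66, 6131640), (69, 6220914), (70, 6709680), (75,
    6214620), (76, 5716500), (77, 5736732), (78, 6104280), (91, 5144976), (92, 5492580), (95,
    6179118), (98, 5166840), (99, 5913120), (105, 6484440), (110, 6596280), (114, 6525000), (115,
    6241434), (117, 6209940), (121, 5470815), (125, 5629220), (130, 5953560), (133, 6025164), (138,
    6214080), (143, 5351904), (147, 5340360), (154, 5023200), (161, 6583494), (165, 6646800), (169,
    5155188), (171, 6034680), (175, 5517300), (182, 6392520), (190, 6002520), (195, 5898720), (207,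
    5292480), (209, 6159378), (230, 6700800), (231, 6232560), (242, 6750640), (245, 5698320), (247,
    7763544), (253, 4492572), (266, 6678240), (273, 6569160), (275, 5673240), (285, 5106480), (286,
    6881040), (299, 5647968), (322, 5734800), (325, 6359400), (338, 6196140), (343, 7417720), (345,
    5245320), (361, 5955654), (363, 6091140), (385, 7194480), (399, 5916120), (418, 6377160), (429,
    6381360), (437, 6561948), (455, 6924960), (475, 6694740), (483, 6392880), (494, 5217360), (506,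
    7059360), (507, 6276720), (529, 6128781), (539, 5254200), (575, 6288420), (598, 5790960), (605,
    5647260), (627, 5062560), (637, 5164620), (665, 6370920), (715, 5066040), (722, 5886780), (741,
    5846880), (759, 5704320), (805, 5621160), (845, 5681220), (847, 6121620), (874, 5664480), (897,
    5476320), (931, 4250880), (1001, 6519240), (1045, 5137320), (1058, 5986920), (1083, 6298380),
    (1127, 4547640), (1183, 6937320), (1235, 6348600), (1265, 5809320), (1311, 6348960), (1331,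
    5863240), (1463, 7727880), (1495, 6021240), (1573, 6241620), (1587, 6318660), (1729, 6363720),
    (1771, 6129360), (1805, 5581920), (1859, 6107820), (2093, 7724400), (2185, 5606880), (2197,
    6150000), (2299, 5643540), (2527, 6836340), (2645, 6379500), (2717, 5494200), (2783, 6592020),
    (3059, 7086000), (3211, 5547660), (3289, 5517600), (3703, 6716880), (3887, 6392040), (3971,
    5431080), (4693, 5569980), (4807, 6197280), (5681, 4472400), (5819, 5946060), (6859, 5957700),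
    (6877, 5752080), (8303, 6076080), (10051, 5263860), (12167, 5698700)])) (by norm_num)
    (by decide +kernel)

theorem c0ge : Ck (gC1 (geB 7 20)) (pW (vC1 0)) :=
  .mk' 1000000 (.add (.add (.add (.add (.add (.mul (.pp [(1, 95760)]) (.sq [(1, 56), (2, 66), (3, -59), (5, -55),
    (7, 48), (11, -100), (13, -48), (19, -42), (23, 16)])) (.mul (.pp [(1, 1283220)]) (.sq [(1, 72),
    (2, -16), (3, -36), (5, 27), (7, 63), (11, -17), (13, -25), (19, -100), (23, 11)]))) (.add (.mul
    (.g 14) (.add (.add (.add (.mul (.pp [(1, 295440)]) (.sq [(2, -22), (3, 8), (5, 100), (7, -1),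
    (11, -18), (13, -55), (19, 61), (23, -49)])) (.add (.mul (.pp [(1, 3658740)]) (.sq [(1, 49), (2,
    -1), (3, -30), (5, 100), (7, -63), (11, 71), (13, -23), (19, -29), (23, 23)])) (.mul (.pp [(1,
    3873720)]) (.sq [(1, 1), (2, -8), (3, 92), (5, 100), (7, -3), (11, 5), (13, 34), (19, -42), (23,
    29)])))) (.add (.add (.mul (.g 22) (.add (.add (.mul (.g 5) (.pp [(1, 1086120000)])) (.add (.mul
    (.g 9) (.pp [(1, 7579560000)])) (.mul (.g 14) (.pp [(1, 19186920000)])))) (.add (.add (.mul (.g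
    16) (.pp [(1, 1353096000)])) (.mul (.g 20) (.pp [(1, 13419360000)]))) (.add (.mul (.g 21) (.pp
    [(1, 670248000)])) (.mul (.g 22) (.pp [(1, 2253216000)])))))) (.mul (.g 8) (.add (.add (.mul (.g
    9) (.pp [(1, 85219800000)])) (.mul (.g 11) (.pp [(1, 25632000000)]))) (.add (.mul (.g 14) (.pp
    [(1, 58509600000)])) (.add (.mul (.g 18) (.pp [(1, 23392800000)])) (.mul (.g 19) (.pp [(1,
    7067400000)]))))))) (.add (.mul (.g 10) (.add (.add (.pp [(1, 7228200000)]) (.mul (.g 3) (.pp [(1,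
    9509400000)]))) (.add (.mul (.g 12) (.pp [(1, 14775600000)])) (.add (.mul (.g 14) (.pp [(1,
    80320200000)])) (.mul (.g 20) (.pp [(1, 58099800000)])))))) (.mul (.g 12) (.add (.add (.mul (.g
    11) (.pp [(1, 37584000000)])) (.mul (.g 13) (.pp [(1, 117318600000)]))) (.add (.mul (.g 20) (.pp
    [(1, 34270800000)])) (.mul (.g 21) (.pp [(1, 11247480000)])))))))) (.add (.add (.add (.mul (.g 16)
    (.add (.add (.pp [(1, 5159310000)]) (.mul (.g 6) (.pp [(1, 15765660000)]))) (.add (.mul (.g 21)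
    (.pp [(1, 72006000)])) (.mul (.g 23) (.pp [(1, 707172000)]))))) (.mul (.g 1) (.add (.pp [(1,
    175192800000)]) (.add (.mul (.g 13) (.pp [(1, 10687200000)])) (.mul (.g 20) (.pp [(1,
    49463400000)])))))) (.add (.mul (.g 14) (.add (.pp [(1, 18709800000)]) (.add (.mul (.g 5) (.pp
    [(1, 92202000000)])) (.mul (.g 11) (.pp [(1, 23190000000)]))))) (.mul (.g 18) (.add (.mul (.g 20)
    (.pp [(1, 1207800000)])) (.mul (.g 21) (.pp [(1, 1988880000)])))))) (.add (.add (.mul (.g 4) (.mul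
    (.g 7) (.pp [(1, 4922400000)]))) (.mul (.g 6) (.mul (.g 21) (.pp [(1, 2292240000)])))) (.add (.mul
    (.g 13) (.mul (.g 13) (.pp [(1, 76599000000)]))) (.mul (.g 20) (.mul (.g 23) (.pp [(1,
    12788760000)])))))))) (.add (.mul (.g 1) (.add (.add (.add (.mul (.pp [(1, 2582280)]) (.sq [(2,
    100), (3, -42), (5, -10), (7, 20), (11, 72), (13, 11), (19, -14), (23, -17)])) (.mul (.pp [(1,
    6629100)]) (.sq [(1, -24), (2, 57), (3, 3), (5, 2), (7, -16), (11, -18), (13, 100), (19, -21),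
    (23, -46)]))) (.add (.mul (.pp [(1, 6421200)]) (.sq [(2, -96), (3, 79), (5, -39), (7, -17), (11,
    100), (13, 7), (19, 55), (23, -60)])) (.add (.mul (.g 8) (.add (.add (.pp [(1, 222377400000)])
    (.add (.mul (.g 2) (.pp [(1, 21462600000)])) (.mul (.g 7) (.pp [(1, 262373400000)])))) (.add (.mul
    (.g 8) (.pp [(1, 371394600000)])) (.add (.mul (.g 12) (.pp [(1, 83623800000)])) (.mul (.g 19) (.pp
    [(1, 33823200000)])))))) (.mul (.g 10) (.add (.add (.pp [(1, 402001200000)]) (.mul (.g 6) (.pp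
    [(1, 6880800000)]))) (.add (.mul (.g 17) (.pp [(1, 132773400000)])) (.add (.mul (.g 18) (.pp [(1,
    19976400000)])) (.mul (.g 23) (.pp [(1, 22710000000)]))))))))) (.add (.add (.mul (.g 16) (.add
    (.add (.pp [(1, 12706920000)]) (.mul (.g 4) (.pp [(1, 10849290000)]))) (.add (.mul (.g 17) (.pp
    [(1, 8566050000)])) (.mul (.g 18) (.pp [(1, 2442180000)]))))) (.mul (.g 11) (.add (.pp [(1,
    32756400000)]) (.mul (.g 6) (.pp [(1, 151824000000)]))))) (.add (.mul (.g 20) (.add (.mul (.g 7)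
    (.pp [(1, 67126800000)])) (.mul (.g 20) (.pp [(1, 176349600000)])))) (.add (.mul (.g 0) (.mul (.g
    23) (.pp [(1, 1872150000)]))) (.mul (.g 19) (.pp [(1, 35854800000)]))))))) (.mul (.g 11) (.add
    (.add (.add (.mul (.pp [(1, 9119700)]) (.sq [(1, -8), (2, -16), (3, -2), (5, -8), (7, 19), (11,
    100), (13, 29), (19, -30), (23, -27)])) (.mul (.pp [(1, 4813980)]) (.sq [(1, 96), (2, 26), (3,
    -68), (5, 11), (7, 47), (11, -97), (13, 19), (19, -100), (23, 26)]))) (.add (.mul (.pp [(1,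
    5205960)]) (.sq [(1, 45), (2, 13), (3, 50), (5, -23), (7, 44), (11, -100), (13, 27), (19, -22),
    (23, -36)])) (.add (.mul (.pp [(1, 6034620)]) (.sq [(1, 59), (2, 35), (3, 26), (5, -10), (7, 41),
    (11, -66), (13, -23), (19, -61), (23, 100)])) (.mul (.g 12) (.add (.add (.mul (.g 10) (.pp [(1,
    10270800000)])) (.mul (.g 16) (.pp [(1, 2943150000)]))) (.add (.mul (.g 19) (.pp [(1,
    31167600000)])) (.mul (.g 23) (.pp [(1, 10386600000)])))))))) (.add (.add (.mul (.g 21) (.add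
    (.add (.mul (.g 2) (.pp [(1, 4612920000)])) (.mul (.g 7) (.pp [(1, 13671240000)]))) (.add (.mul
    (.g 21) (.pp [(1, 2199744000)])) (.mul (.g 23) (.pp [(1, 1382664000)]))))) (.add (.mul (.g 10)
    (.add (.pp [(1, 297901200000)]) (.mul (.g 17) (.pp [(1, 75697200000)])))) (.mul (.g 11) (.add (.pp
    [(1, 3657600000)]) (.mul (.g 20) (.pp [(1, 16557600000)])))))) (.add (.mul (.g 16) (.add (.mul (.g
    6) (.pp [(1, 3938190000)])) (.mul (.g 7) (.pp [(1, 1626780000)])))) (.add (.mul (.g 23) (.add (.pp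
    [(1, 13332600000)]) (.mul (.g 23) (.pp [(1, 3979152000)])))) (.mul (.g 19) (.mul (.g 22) (.pp [(1,
    18130320000)]))))))))))) (.add (.add (.mul (.g 10) (.add (.add (.add (.mul (.pp [(1,
    28699800000)]) (.sq [(2, 1), (3, -1), (11, -1)])) (.mul (.pp [(1, 3819060)]) (.sq [(1, -7), (2,
    -100), (3, 38), (5, -12), (7, -16), (11, -99), (13, -30), (19, -7), (23, 87)]))) (.add (.mul (.pp
    [(1, 2991720)]) (.sq [(2, -54), (3, -25), (5, 100), (7, 18), (11, 60), (13, 48), (19, -63), (23,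
    -25)])) (.add (.mul (.pp [(1, 549000)]) (.sq [(2, -100), (3, -32), (5, 5), (7, 2), (11, 63), (13,
    3), (19, -43), (23, 74)])) (.mul (.g 23) (.add (.pp [(1, 1069080000)]) (.add (.mul (.g 12) (.pp
    [(1, 10852440000)])) (.mul (.g 23) (.pp [(1, 909960000)])))))))) (.add (.add (.mul (.g 7) (.add
    (.mul (.g 7) (.pp [(1, 53026800000)])) (.mul (.g 8) (.pp [(1, 72192600000)])))) (.mul (.g 18)
    (.add (.mul (.g 5) (.pp [(1, 6798600000)])) (.mul (.g 21) (.pp [(1, 10034760000)]))))) (.add (.mul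
    (.g 22) (.add (.mul (.g 12) (.pp [(1, 638040000)])) (.mul (.g 19) (.pp [(1, 6877560000)])))) (.add
    (.mul (.g 8) (.mul (.g 8) (.pp [(1, 158211000000)]))) (.mul (.g 10) (.pp [(1, 80231400000)])))))))
    (.add (.mul (.g 19) (.add (.add (.mul (.pp [(1, 2180640)]) (.sq [(1, -2), (2, 47), (3, -29), (5,
    26), (7, -62), (11, 15), (13, 31), (19, 87), (23, -100)])) (.add (.mul (.pp [(1, 881640)]) (.sq
    [(2, -1), (3, -2), (5, -86), (7, -31), (11, 100), (13, -22), (19, 93), (23, -17)])) (.mul (.pp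
    [(1, 659040)]) (.sq [(1, -67), (2, 82), (3, 100), (5, -27), (7, -27), (11, 2), (13, -47), (19,
    43), (23, 43)])))) (.add (.add (.mul (.g 8) (.add (.add (.mul (.g 6) (.pp [(1, 136056000000)]))
    (.mul (.g 8) (.pp [(1, 84166200000)]))) (.add (.mul (.g 21) (.pp [(1, 20556480000)])) (.mul (.g
    22) (.pp [(1, 5408640000)]))))) (.mul (.g 23) (.add (.add (.pp [(1, 2752560000)]) (.mul (.g 7)
    (.pp [(1, 950400000)]))) (.add (.mul (.g 22) (.pp [(1, 1275888000)])) (.mul (.g 23) (.pp [(1,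
    104568000)])))))) (.add (.mul (.g 12) (.mul (.g 22) (.pp [(1, 3663960000)]))) (.mul (.g 13) (.mul
    (.g 19) (.pp [(1, 56793600000)]))))))) (.mul (.g 21) (.add (.add (.add (.mul (.pp [(1, 370908)])
    (.sq [(1, -2), (2, 96), (3, -45), (5, -37), (7, -58), (11, -50), (13, 100), (19, -31), (23, 38)]))
    (.mul (.pp [(1, 214260)]) (.sq [(1, -38), (2, 72), (3, -17), (5, -2), (7, 78), (11, -100), (13,
    -48), (19, -19), (23, 57)]))) (.add (.mul (.pp [(1, 96552)]) (.sq [(1, -16), (2, -86), (3, 28),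
    (5, 100), (7, -13), (11, 52), (13, 42), (23, -2)])) (.add (.mul (.pp [(1, 715104)]) (.sq [(1, 62),
    (2, -100), (3, -57), (5, 35), (7, 26), (11, -6), (13, 54), (19, -96), (23, 34)])) (.mul (.pp [(1,
    433896)]) (.sq [(1, 9), (2, 100), (3, 12), (5, 40), (7, -7), (11, 15), (13, -52), (19, -48), (23,
    58)]))))) (.add (.add (.mul (.pp [(1, 372072)]) (.sq [(1, 22), (2, 100), (3, -35), (5, 98), (7,
    -40), (11, -21), (13, 57), (19, -38), (23, -65)])) (.mul (.pp [(1, 568788)]) (.sq [(1, 40), (2,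
    -100), (3, 37), (5, 17), (7, -19), (11, 92), (13, -41), (19, -26), (23, 62)]))) (.add (.mul (.g
    21) (.add (.mul (.g 8) (.pp [(1, 12608376000)])) (.mul (.g 21) (.pp [(1, 152025600)])))) (.add
    (.mul (.g 5) (.mul (.g 23) (.pp [(1, 172296000)]))) (.mul (.g 18) (.mul (.g 18) (.pp [(1,
    30058680000)])))))))))) (.add (.mul (.g 16) (.add (.add (.mul (.pp [(1, 79671)]) (.sq [(1, 15),
    (2, -14), (3, 41), (5, -19), (7, 27), (11, -35), (13, -43), (19, -71), (23, 100)])) (.mul (.pp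
    [(1, 259974)]) (.sq [(1, 8), (2, 100), (3, 75), (5, 22), (7, -6), (11, -20), (13, -88), (19, -44),
    (23, 61)]))) (.add (.mul (.pp [(1, 99522)]) (.sq [(1, 3), (2, -10), (3, 92), (5, 50), (7, -7),
    (11, 68), (13, -100), (19, -18), (23, 24)])) (.add (.mul (.g 8) (.add (.mul (.g 5) (.pp [(1,
    1516800000)])) (.add (.mul (.g 8) (.pp [(1, 3068880000)])) (.mul (.g 23) (.pp [(1,
    264684000)]))))) (.mul (.g 23) (.add (.pp [(1, 6498000)]) (.mul (.g 23) (.pp [(1,
    135354000)])))))))) (.add (.mul (.g 5) (.add (.add (.mul (.pp [(1, 1782060)]) (.sq [(2, 100), (3,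
    80), (5, -41), (7, 4), (11, -35), (13, -24), (19, -29), (23, 72)])) (.add (.mul (.pp [(1,
    1440900)]) (.sq [(1, 21), (2, -24), (3, -2), (5, 100), (7, -22), (11, -13), (13, 33), (19, -38),
    (23, -23)])) (.mul (.pp [(1, 5382240)]) (.sq [(1, -25), (2, -27), (3, 34), (5, -11), (7, 89), (11,
    -100), (13, -53), (19, 31), (23, -17)])))) (.add (.mul (.pp [(1, 136500)]) (.sq [(2, 100), (3,
    -23), (5, 83), (7, 35), (11, -18), (13, -19), (19, -40), (23, -29)])) (.add (.mul (.pp [(1,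
    3540660)]) (.sq [(1, 45), (2, -89), (3, 10), (5, 75), (7, 56), (13, 25), (19, -95), (23, 100)]))
    (.mul (.pp [(1, 204720)]) (.sq [(1, 15), (2, 90), (3, -30), (5, 46), (7, 15), (11, 2), (13, -100),
    (19, -26), (23, 33)])))))) (.mul (.g 22) (.add (.add (.mul (.pp [(1, 1793652)]) (.sq [(2, 8), (3,
    -1), (5, -56), (7, 82), (13, -100), (19, -2)])) (.mul (.pp [(1, 21588)]) (.sq [(1, 6), (2, 86),
    (3, 74), (5, -89), (7, 16), (11, -21), (13, 100), (19, -45), (23, -28)]))) (.add (.mul (.pp [(1,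
    153888)]) (.sq [(1, -21), (2, -67), (3, 75), (5, -42), (7, -5), (11, 4), (13, 100), (19, 14), (23,
    -29)])) (.mul (.pp [(1, 3297960000)]) (.sq [(2, 1), (11, -1)]))))))))) (.add (.add (.add (.mul (.g
    13) (.add (.mul (.pp [(1, 1346760)]) (.sq [(1, -11), (2, 66), (3, 78), (5, -79), (7, 2), (11,
    -35), (13, 100), (19, -22), (23, -23)])) (.add (.mul (.pp [(1, 1978740)]) (.sq [(1, 65), (2, 36),
    (3, -100), (5, 22), (7, 2), (11, -21), (13, -93), (19, -38), (23, 46)])) (.mul (.pp [(1, 475260)])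
    (.sq [(1, -24), (2, 39), (3, 71), (5, -92), (7, -31), (11, 90), (13, -100), (19, 62), (23,
    28)]))))) (.mul (.g 23) (.add (.mul (.pp [(1, 4413168)]) (.sq [(2, 3), (5, 50), (7, -1), (11, -3),
    (13, -3), (19, 3), (23, -6)])) (.add (.mul (.pp [(1, 329436)]) (.sq [(1, 1), (2, 15), (3, 90), (5,
    18), (7, 32), (11, -11), (13, 19), (19, -100), (23, 99)])) (.mul (.pp [(1, 887760)]) (.sq [(1,
    16), (2, -45), (3, -12), (5, 100), (7, 9), (11, -60), (13, -18), (19, -39), (23, -14)])))))) (.add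
    (.mul (.g 4) (.add (.mul (.pp [(1, 1416000)]) (.sq [(1, 21), (2, 5), (3, 10), (5, -100), (7, 79),
    (11, 19), (13, -5), (19, -86), (23, 89)])) (.mul (.pp [(1, 3718740)]) (.sq [(1, -10), (2, -30),
    (3, -41), (5, 100), (7, 45), (11, -65), (13, 13), (19, -70), (23, 29)])))) (.add (.mul (.g 7)
    (.add (.mul (.pp [(1, 4673520)]) (.sq [(1, -17), (2, 100), (3, 34), (5, 7), (7, 10), (11, -31),
    (13, -75), (19, 3), (23, 10)])) (.mul (.pp [(1, 7397760)]) (.sq [(2, -100), (3, -41), (5, 13), (7,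
    -52), (11, 56), (13, -1), (19, 60), (23, 2)])))) (.mul (.g 8) (.add (.mul (.pp [(1, 6645720)])
    (.sq [(1, 54), (2, -74), (3, -4), (5, -31), (7, 46), (11, -100), (13, 15), (19, -50), (23, 26)]))
    (.mul (.pp [(1, 2431560)]) (.sq [(1, -4), (2, 9), (3, 100), (5, -15), (7, 22), (11, 53), (13, 13),
    (19, -36), (23, 43)]))))))) (.add (.add (.mul (.g 9) (.add (.mul (.pp [(1, 1887960)]) (.sq [(1,
    14), (2, 44), (3, -29), (5, 81), (7, -24), (11, -100), (13, 33), (19, -2), (23, -61)])) (.mul (.pp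
    [(1, 1712340)]) (.sq [(1, -77), (2, -49), (3, 38), (5, 25), (7, -57), (11, 100), (13, 47), (19,
    61), (23, 1)])))) (.add (.mul (.g 20) (.add (.mul (.pp [(1, 1352520)]) (.sq [(2, 13), (3, -10),
    (7, -1), (11, 17), (13, 100), (19, -76), (23, 57)])) (.mul (.pp [(1, 665700)]) (.sq [(1, 29), (2,
    -100), (3, 28), (5, -11), (7, 36), (11, 54), (13, -57), (19, 6), (23, -19)])))) (.mul (.g 2) (.mul
    (.pp [(1, 628380)]) (.sq [(1, -33), (2, 56), (3, 3), (5, 74), (7, 17), (11, -100), (13, 71), (19,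
    -38), (23, -32)]))))) (.add (.mul (.g 3) (.mul (.pp [(1, 9091380)]) (.sq [(1, -24), (2, 48), (3,
    -47), (5, -34), (7, 73), (11, -100), (13, -23), (19, -14), (23, 9)]))) (.add (.mul (.g 12) (.mul
    (.pp [(1, 766320)]) (.sq [(1, 45), (2, 100), (3, -51), (5, -84), (7, 14), (11, -13), (13, -50),
    (19, -55), (23, 81)]))) (.mul (.g 17) (.mul (.pp [(1, 4921500)]) (.sq [(1, 73), (2, -35), (3,
    -21), (5, 4), (7, 67), (11, -11), (19, -100), (23, 3)])))))))) (.pp [(1, 142329795), (2, 5900700),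
    (3, 6571170), (4, 7720212), (5, 5477910), (6, 6420204), (7, 5237970), (8, 5152800), (9, 6588063),
    (10, 4397676), (11, 5810454), (12, 5902740), (13, 5101854), (14, 6596700), (15, 5483898), (18,
    5622060), (19, 5473554), (20, 6403620), (21, 4373622), (22, 5220828), (23, 6016452), (25,
    6962145), (26, 7031484), (27, 5562660), (28, 6573060), (30, 6211440), (33, 5274978), (35,
    5255502), (38, 5413908), (39, 5709858), (42, 6610560), (44, 7501900), (45, 6196800), (46,
    5695536), (49, 8048295), (50, 6215760), (52, 5862000), (55, 6961674), (57, 6279258), (63,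
    5988480), (65, 5190234), (66, 6085560), (69, 6304836), (70, 5929200), (75, 6000420), (76,
    5029560), (77, 4918518), (78, 5567160), (91, 8132382), (92, 5851260), (95, 7418826), (98,
    6029580), (99, 5665440), (105, 6497640), (110, 6065520), (114, 5882040), (115, 5889816), (117,
    5095500), (121, 6297201), (125, 5736620), (130, 6412560), (133, 4211958), (138, 5484960), (143,
    6954930), (147, 6466740), (154, 5818080), (161, 5865432), (165, 5313240), (169, 6523485), (171,
    6263580), (175, 6534420), (182, 5618880), (190, 6041760), (195, 6102000), (207, 5888040), (209,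
    6698058), (230, 6132480), (231, 4286520), (242, 5809840), (245, 5564160), (247, 5005530), (253,
    5221512), (266, 5494680), (273, 8481120), (275, 6566100), (285, 6129600), (286, 6280320), (299,
    4809048), (322, 5578920), (325, 5937360), (338, 5050980), (343, 5801980), (345, 5494800), (361,
    6853941), (363, 6463080), (385, 6512640), (399, 4593480), (418, 5832600), (429, 7077960), (437,
    6531672), (455, 5550240), (475, 5643600), (483, 7152720), (494, 6576600), (506, 5311680), (507,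
    5434380), (529, 6286650), (539, 6040020), (575, 5444340), (598, 5976480), (605, 5582820), (627,
    7112280), (637, 5897400), (665, 6397440), (715, 6042000), (722, 6222480), (741, 5469600), (759,
    7913400), (805, 6033120), (845, 7272360), (847, 7084800), (874, 6689520), (897, 5781240), (931,
    6215760), (1001, 6715920), (1045, 5198520), (1058, 6091620), (1083, 6786600), (1127, 6236520),
    (1183, 4815840), (1235, 5171640), (1265, 5350440), (1311, 4966560), (1331, 6128020), (1463,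
    4930800), (1495, 7118640), (1573, 5953080), (1587, 5899860), (1729, 6132240), (1771, 6324720),
    (1805, 5725920), (1859, 5678340), (2093, 4011600), (2185, 5572080), (2197, 6122040), (2299,
    5559300), (2527, 6019500), (2645, 6958440), (2717, 5195880), (2783, 5680320), (3059, 5447760),
    (3211, 6603600), (3289, 5156760), (3703, 6295800), (3887, 6658200), (3971, 6968760), (4693,
    5908260), (4807, 6504960), (5681, 7080120), (5819, 6294840), (6859, 5875560), (6877, 6790500),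
    (8303, 6080220), (10051, 5596740), (12167, 5541800)])) (by norm_num)
    (by decide +kernel)

end Pool.Agent.Helper52.TS
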