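import Pool.Agent.Helper60.TS.SB2L
import Pool.Agent.Helper20.TS.SAK

/-!
# Set B1 of the column `b`: lists of constraints and polynomials

`v 2, v 3, v 5` are `x, y, z`; `v 7` is `w`; `v 11` is `s` or `t`; `v 13`, `v 17` are `u` (or `p`),
`v`; `v 19`, `v 23` are `A`, `B`. The list `X` is a split of the range of `B`.
-/

set_option autoImplicit false

namespace Pool.Agent.Helper52.TS

open Pool.Agent.Helper83.Cert Pool.Agent.Helper83.TS Pool.Agent.Helper53.TT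
  Pool.Agent.Helper74.TS Pool.Agent.Helper20.TS Pool.Agent.Helper60.TS

/-- `B ≤ p / q` -/
def leB (p q : ℤ) : List Ex := [Ex.sub (Ex.c p) (Ex.mul (Ex.c q) (Ex.v 23))]

/-- `p / q ≤ B` -/
def geB (p q : ℤ) : List Ex := [Ex.sub (Ex.mul (Ex.c q) (Ex.v 23)) (Ex.c p)]

theorem leB_nn {p q : ℤ} {x y z w s u v A B : ℝ} (h : (q : ℝ) * B ≤ p) :
    ∀ g ∈ leB p q, 0 ≤ exVal (yv x y z w s u v A B) g := by
  simp only [leB, List.forall_mem_cons, exsub, exmul, exc, exv23]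
  exact ⟨by linarith, fun _ hh => absurd hh List.not_mem_nil⟩

theorem geB_nn {p q : ℤ} {x y z w s u v A B : ℝ} (h : (p : ℝ) ≤ q * B) :
    ∀ g ∈ geB p q, 0 ≤ exVal (yv x y z w s u v A B) g := by
  simp only [geB, List.forall_mem_cons, exsub, exmul, exc, exv23]
  exact ⟨by linarith, fun _ hh => absurd hh List.not_mem_nil⟩

theorem nil_nn {Y : ℕ → ℝ} : ∀ g ∈ ([] : List Ex), 0 ≤ exVal Y g :=
  fun _ hh => absurd hh List.not_mem_nil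

/-- `100000 wb1 x y z` -/
def w1E : Ex :=
  Ex.add (Ex.add (Ex.add (Ex.c (-4417)) (Ex.mul (Ex.c (-3185)) (Ex.v 2)))
    (Ex.add (Ex.mul (Ex.c 33456) (Ex.v 3)) (Ex.mul (Ex.c 166942) (Ex.v 5))))
    (Ex.add (Ex.add (Ex.mul (Ex.mul (Ex.c 4037) (Ex.v 2)) (Ex.v 2))
      (Ex.add (Ex.mul (Ex.mul (Ex.c 6895) (Ex.v 3)) (Ex.v 3))
        (Ex.mul (Ex.mul (Ex.c (-72851)) (Ex.v 5)) (Ex.v 5))))
      (Ex.add (Ex.mul (Ex.mul (Ex.c 32789) (Ex.v 2)) (Ex.v 3))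
        (Ex.add (Ex.mul (Ex.mul (Ex.c (-10059)) (Ex.v 2)) (Ex.v 5))
          (Ex.mul (Ex.mul (Ex.c (-2279)) (Ex.v 3)) (Ex.v 5)))))

theorem dw1 (x y z : ℝ) : Dt x y z w1E (100000 * TallB.wb1 x y z) :=
  ⟨fun w s u v A B => by
    simp only [w1E, exadd, exmul, exc, exv2, exv3, exv5, TallB.wb1]; push_cast; ring⟩

/-- the multiplier of `c` in the order `i` -/
def c1E : ℕ → Ex
  | 0 => Ex.sub nxE kkE
  | _ => nxE

/-- the multiplier of `l` in the order `i` -/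
def c2E : ℕ → Ex
  | 0 => nyE
  | _ => Ex.sub nyE kkE

/-- `600000 (W - V)` -/
def pW (V : Ex) : Ex := Ex.sub (Ex.mul (Ex.c 6) w1E) V

section defs

variable (k : ℕ) (X : List Ex) (i : ℕ)

def gP1 : List Ex :=
  ffE ++ (kE k ++ (uBE (Ex.v 2) (Ex.v 13) (Ex.v 19) ++ (uAE (Ex.v 3) (Ex.v 17) (Ex.v 23) ++
    (fmE k ++ (X ++ tlE)))))

def vP1 : Ex :=
  Ex.add (Ex.add (Ex.add (Ex.add (stE (c1E i) (Ex.v 2) (Ex.v 13)) (lBE lxE (Ex.v 13)))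
    (stE (c2E i) (Ex.v 3) (Ex.v 17))) (raE nzE)) (fE k)

def gY1 : List Ex :=
  ffE ++ (kE 2 ++ (uBE (Ex.v 2) (Ex.v 13) (Ex.v 19) ++ (yAE (Ex.v 3) (Ex.v 23) ++
    (fmE 2 ++ (X ++ tlE)))))

def vY1 : Ex :=
  Ex.add (Ex.add (Ex.add (Ex.add (stE (c1E i) (Ex.v 2) (Ex.v 13)) (lBE lxE (Ex.v 13)))
    (yVE (c2E i) (Ex.v 3) (Ex.v 23))) (raE nzE)) (fE 2)

def gC1 : List Ex :=
  ffE ++ (kE 3 ++ (sE ++ (uAE (Ex.v 3) (Ex.v 13) (Ex.v 23) ++ (fmE 3 ++ (X ++ tlE)))))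

/-- the slots of `c` with the own far cell -/
def mjL : Ex :=
  Ex.add (mjE (Ex.sub (c1E i) lxE) (Ex.sub (Ex.c 1) (Ex.v 2)) (Ex.v 2) (Ex.v 11)) (lFE lxE)

def vC1 : Ex :=
  Ex.add (Ex.add (Ex.add (Ex.add (mjL i) (stE (c2E i) (Ex.v 3) (Ex.v 13))) (raE nzE)) smE) (fE 3)

def gL01 : List Ex :=
  ffE ++ (kE k ++ ((tE (Ex.v 11) ++ [Ex.sub (Ex.v 7) (Ex.v 23)]) ++
    (uBE (Ex.v 2) (Ex.v 13) (Ex.v 19) ++ (fmE k ++ (X ++ tlE)))))

def gL11 : List Ex :=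
  ffE ++ (kE k ++ ((tE (Ex.v 11) ++ [mE]) ++
    (uBE (Ex.v 2) (Ex.v 13) (Ex.v 19) ++ (fmE k ++ (X ++ tlE)))))

def mjT : Ex := mjE (c2E i) (Ex.sub (Ex.c 1) (Ex.v 3)) (Ex.v 3) (Ex.v 11)

def vL1 (H : Ex) : Ex :=
  Ex.add (Ex.add (Ex.add (Ex.add (Ex.add (mjT i) (stE (c1E i) (Ex.v 2) (Ex.v 13)))
    (lBE lxE (Ex.v 13))) (raE nzE)) H) (fE k)

def gG01 : List Ex :=
  ffE ++ (kE 3 ++ ((oE (Ex.v 11) ++ (tE (Ex.v 13) ++ [Ex.sub (Ex.v 7) (Ex.v 23), mE,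
    Ex.sub (Ex.sub (Ex.v 19) (Ex.c 1)) (Ex.v 11)])) ++ (fmE 3 ++ (X ++ tlE))))

def gG11 : List Ex :=
  ffE ++ (kE 3 ++ ((oE (Ex.v 11) ++ (tE (Ex.v 13) ++ [mE,
    Ex.sub (Ex.sub (Ex.v 19) (Ex.c 1)) (Ex.v 11)])) ++ (fmE 3 ++ (X ++ tlE))))

def mjP : Ex := mjE (c2E i) (Ex.sub (Ex.c 1) (Ex.v 3)) (Ex.v 3) (Ex.v 13)

def vG1 (H : Ex) : Ex :=
  Ex.add (Ex.add (Ex.add (Ex.add (Ex.add (mjL i) (mjP i)) (raE nzE)) smE) H) (fE 3)

end defs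

section lemmas

variable {k i : ℕ} {X : List Ex} {x y z c1 c2 : ℝ}

/-- the values of the two multipliers -/
structure Ord (i : ℕ) (x y z c1 c2 : ℝ) : Prop where
  h1 : Dt x y z (c1E i) (100000 * c1)
  h2 : Dt x y z (c2E i) (100000 * c2)

theorem ord0 (x y z : ℝ) : Ord 0 x y z (TallB.n1 x - TallB.k12 x y) (TallB.n1 y) :=
  ⟨(dnx x y z).sub (dkk x y z), dny x y z⟩

theorem ord1 (x y z : ℝ) : Ord 1 x y z (TallB.n1 x) (TallB.n1 y - TallB.k12 x y) :=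
  ⟨dnx x y z, (dny x y z).sub (dkk x y z)⟩

theorem b1_p (hb : Bd x y z) (ho : Ord i x y z c1 c2) (ck : Ck (gP1 k X) (pW (vP1 k i)))
    {w A B u v : ℝ} (hX : ∀ g ∈ X, 0 ≤ exVal (yv x y z w 0 u v A B) g)
    (hF : FF w A B) (hf : 1 / 10 ≤ vl w A B) (hk : kv k w A B) (u0 : 0 ≤ u)
    (u1 : u ≤ 1) (ua : 1 - A + x ≤ u) (v0 : 0 ≤ v) (v1 : v ≤ 1) (va : v ≤ 1 - B + y) :
    st c1 x u + TallB.la x * (1 + w - A - B - u) + st c2 y v + ra (TallB.n3 z) z w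
      + vl w A B ≤ TallB.wb1 x y z := by
  have hw : 0 ≤ w := by linarith [hF.w0]
  refine ck.fin (y := yv x y z w 0 u v A B)
    (yv_nonneg hb.x0 hb.y0 hb.z0 hw (le_refl 0) u0 v0 hF.A0 hF.B0) ?_ ((dw1 ..).h ..) ?_
  · exact nn_append (ff_nn hF) (nn_append (kE_nn hk)
      (nn_append (uB_nn (exv2 ..) (exv13 ..) (exv19 ..) u0 u1 ua)
        (nn_append (uA_nn (exv3 ..) (exv17 ..) (exv23 ..) v0 v1 va)
          (nn_append (fm_nn hk hf) (nn_append hX (tl_nn hb hw _ _ _ _ _))))))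
  · simp only [vP1, exadd, stE_val (ho.h1.h ..) (exv2 ..) (exv13 ..),
      lBE_val ((dlx ..).h ..) (exv13 ..), stE_val (ho.h2.h ..) (exv3 ..) (exv17 ..),
      raE_val (dnz ..), fE_val hk]
    ring

theorem b1_y (hb : Bd x y z) (ho : Ord i x y z c1 c2) (ck : Ck (gY1 X) (pW (vY1 i)))
    {w A B u : ℝ} (hX : ∀ g ∈ X, 0 ≤ exVal (yv x y z w 0 u 0 A B) g)
    (hF : FF w A B) (hf : 1 / 10 ≤ vl w A B) (u0 : 0 ≤ u)
    (u1 : u ≤ 1) (ua : 1 - A + x ≤ u) (va : 1 + y ≤ B) :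
    st c1 x u + TallB.la x * (1 + w - A - B - u) + c2 * (1 - B + y) + ra (TallB.n3 z) z w
      + vl w A B ≤ TallB.wb1 x y z := by
  have hw : 0 ≤ w := by linarith [hF.w0]
  have hk : kv 2 w A B := ⟨by linarith [hF.hi, hb.y0], by linarith [hF.w1, hb.y0]⟩
  refine ck.fin (y := yv x y z w 0 u 0 A B)
    (yv_nonneg hb.x0 hb.y0 hb.z0 hw (le_refl 0) u0 (le_refl 0) hF.A0 hF.B0) ?_ ((dw1 ..).h ..) ?_
  · exact nn_append (ff_nn hF) (nn_append (kE_nn hk)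
      (nn_append (uB_nn (exv2 ..) (exv13 ..) (exv19 ..) u0 u1 ua)
        (nn_append (yA_nn (exv3 ..) (exv23 ..) va)
          (nn_append (fm_nn hk hf) (nn_append hX (tl_nn hb hw _ _ _ _ _))))))
  · simp only [vY1, exadd, stE_val (ho.h1.h ..) (exv2 ..) (exv13 ..),
      lBE_val ((dlx ..).h ..) (exv13 ..), yVE_val (ho.h2.h ..) (exv3 ..) (exv23 ..),
      raE_val (dnz ..), fE_val hk]
    ring

theorem mjL_val (ho : Ord i x y z c1 c2) (w s u v A B : ℝ) :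
    exVal (yv x y z w s u v A B) (mjL i) =
      600000 * (mj (c1 - TallB.la x) (1 - x) x s + TallB.la x * (1 + w - A - B)) := by
  have e1 : exVal (yv x y z w s u v A B) (Ex.sub (c1E i) lxE) =
      100000 * (c1 - TallB.la x) := by
    rw [exsub, ho.h1.h, (dlx x y z).h]; ring
  have e2 : exVal (yv x y z w s u v A B) (Ex.sub (Ex.c 1) (Ex.v 2)) = 1 - x := by
    rw [exsub, exc, exv2]; push_cast; ring
  simp only [mjL, exadd, mjE_val e1 e2 (exv2 ..) (exv11 ..), lFE_val ((dlx x y z).h ..)]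
  ring

theorem b1_c (hb : Bd x y z) (ho : Ord i x y z c1 c2) (ck : Ck (gC1 X) (pW (vC1 i)))
    {w A B s v : ℝ} (hX : ∀ g ∈ X, 0 ≤ exVal (yv x y z w s v 0 A B) g)
    (hF : FF w A B) (hf : 1 / 10 ≤ vl w A B) (s0 : 0 ≤ s) (s1 : s ≤ 1) (sA : 1 + s ≤ A)
    (hm : A + B ≤ 2 * w) (v0 : 0 ≤ v) (v1 : v ≤ 1) (va : v ≤ 1 - B + y) :
    mj (c1 - TallB.la x) (1 - x) x s + TallB.la x * (1 + w - A - B) + st c2 y v
      + ra (TallB.n3 z) z w + s * (2 * w - A - B) + vl w A B ≤ TallB.wb1 x y z := by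
  have hw : 0 ≤ w := by linarith [hF.w0]
  have hk : kv 3 w A B := ⟨by linarith [hF.w1], by linarith [hF.w1]⟩
  refine ck.fin (y := yv x y z w s v 0 A B)
    (yv_nonneg hb.x0 hb.y0 hb.z0 hw s0 v0 (le_refl 0) hF.A0 hF.B0) ?_ ((dw1 ..).h ..) ?_
  · exact nn_append (ff_nn hF) (nn_append (kE_nn hk) (nn_append (sE_nn s0 s1 sA hm)
      (nn_append (uA_nn (exv3 ..) (exv13 ..) (exv23 ..) v0 v1 va)
        (nn_append (fm_nn hk hf) (nn_append hX (tl_nn hb hw _ _ _ _ _))))))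
  · simp only [vC1, exadd, mjL_val ho, stE_val (ho.h2.h ..) (exv3 ..) (exv13 ..),
      raE_val (dnz ..), smE_val, fE_val hk]
    ring

theorem mjT_val (ho : Ord i x y z c1 c2) (w s u v A B : ℝ) :
    exVal (yv x y z w s u v A B) (mjT i) = 600000 * mj c2 (1 - y) y s :=
  mjE_val (ho.h2.h ..) (by rw [exsub, exc, exv3]; push_cast; ring) (exv3 ..) (exv11 ..)

theorem mjP_val (ho : Ord i x y z c1 c2) (w s u v A B : ℝ) :
    exVal (yv x y z w s u v A B) (mjP i) = 600000 * mj c2 (1 - y) y u :=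
  mjE_val (ho.h2.h ..) (by rw [exsub, exc, exv3]; push_cast; ring) (exv3 ..) (exv13 ..)

theorem b1_l0 (hb : Bd x y z) (ho : Ord i x y z c1 c2)
    (ck : Ck (gL01 k X) (pW (vL1 k i (hA (Ex.v 11) (Ex.v 23)))))
    {w A B t u : ℝ} (hX : ∀ g ∈ X, 0 ≤ exVal (yv x y z w t u 0 A B) g)
    (hF : FF w A B) (hf : 1 / 10 ≤ vl w A B) (hk : kv k w A B) (t0 : 0 ≤ t) (t1 : t ≤ 13 / 20)
    (hB : B ≤ w) (u0 : 0 ≤ u) (u1 : u ≤ 1) (ua : 1 - A + x ≤ u) :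
    mj c2 (1 - y) y t + st c1 x u + TallB.la x * (1 + w - A - B - u) + ra (TallB.n3 z) z w
      + 27 / 50 * t * (w - B) + vl w A B ≤ TallB.wb1 x y z := by
  have hw : 0 ≤ w := by linarith [hF.w0]
  refine ck.fin (y := yv x y z w t u 0 A B)
    (yv_nonneg hb.x0 hb.y0 hb.z0 hw t0 u0 (le_refl 0) hF.A0 hF.B0) ?_ ((dw1 ..).h ..) ?_
  · exact nn_append (ff_nn hF) (nn_append (kE_nn hk) (nn_append (nn_append
      (tE_nn (exv11 ..) t0 t1) (one_nn (by rw [exsub, exv7, exv23]) (sub_nonneg.2 hB)))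
      (nn_append (uB_nn (exv2 ..) (exv13 ..) (exv19 ..) u0 u1 ua)
        (nn_append (fm_nn hk hf) (nn_append hX (tl_nn hb hw _ _ _ _ _))))))
  · simp only [vL1, exadd, mjT_val ho, stE_val (ho.h1.h ..) (exv2 ..) (exv13 ..),
      lBE_val ((dlx ..).h ..) (exv13 ..), raE_val (dnz ..), fE_val hk,
      hA_val (exv11 ..) (exv23 ..) (exv7 ..)]
    ring

theorem b1_l1 (hb : Bd x y z) (ho : Ord i x y z c1 c2)
    (ck : Ck (gL11 k X) (pW (vL1 k i (hM (Ex.v 11)))))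
    {w A B t u : ℝ} (hX : ∀ g ∈ X, 0 ≤ exVal (yv x y z w t u 0 A B) g)
    (hF : FF w A B) (hf : 1 / 10 ≤ vl w A B) (hk : kv k w A B) (t0 : 0 ≤ t) (t1 : t ≤ 13 / 20)
    (hm : A + B ≤ 2 * w) (u0 : 0 ≤ u) (u1 : u ≤ 1) (ua : 1 - A + x ≤ u) :
    mj c2 (1 - y) y t + st c1 x u + TallB.la x * (1 + w - A - B - u) + ra (TallB.n3 z) z w
      + t * (2 * w - A - B) + vl w A B ≤ TallB.wb1 x y z := by
  have hw : 0 ≤ w := by linarith [hF.w0]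
  refine ck.fin (y := yv x y z w t u 0 A B)
    (yv_nonneg hb.x0 hb.y0 hb.z0 hw t0 u0 (le_refl 0) hF.A0 hF.B0) ?_ ((dw1 ..).h ..) ?_
  · exact nn_append (ff_nn hF) (nn_append (kE_nn hk) (nn_append (nn_append
      (tE_nn (exv11 ..) t0 t1) (one_nn (mE_val ..) (by linarith)))
      (nn_append (uB_nn (exv2 ..) (exv13 ..) (exv19 ..) u0 u1 ua)
        (nn_append (fm_nn hk hf) (nn_append hX (tl_nn hb hw _ _ _ _ _))))))
  · simp only [vL1, exadd, mjT_val ho, stE_val (ho.h1.h ..) (exv2 ..) (exv13 ..),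
      lBE_val ((dlx ..).h ..) (exv13 ..), raE_val (dnz ..), fE_val hk,
      hM_val (exv11 ..) (mE_val ..)]
    ring

theorem b1_g0 (hb : Bd x y z) (ho : Ord i x y z c1 c2)
    (ck : Ck (gG01 X) (pW (vG1 i (hA (Ex.v 13) (Ex.v 23)))))
    {w A B s p : ℝ} (hX : ∀ g ∈ X, 0 ≤ exVal (yv x y z w s p 0 A B) g)
    (hF : FF w A B) (hf : 1 / 10 ≤ vl w A B) (s0 : 0 ≤ s) (s1 : s ≤ 1) (sA : 1 + s ≤ A)
    (hm : A + B ≤ 2 * w) (p0 : 0 ≤ p) (p1 : p ≤ 13 / 20) (hB : B ≤ w) :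
    mj (c1 - TallB.la x) (1 - x) x s + TallB.la x * (1 + w - A - B) + mj c2 (1 - y) y p
      + ra (TallB.n3 z) z w + s * (2 * w - A - B) + 27 / 50 * p * (w - B) + vl w A B
      ≤ TallB.wb1 x y z := by
  have hw : 0 ≤ w := by linarith [hF.w0]
  have hk : kv 3 w A B := ⟨hB, by linarith [hF.w1]⟩
  refine ck.fin (y := yv x y z w s p 0 A B)
    (yv_nonneg hb.x0 hb.y0 hb.z0 hw s0 p0 (le_refl 0) hF.A0 hF.B0) ?_ ((dw1 ..).h ..) ?_
  · refine nn_append (ff_nn hF) (nn_append (kE_nn hk) (nn_append (nn_append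
      (oE_nn (exv11 ..) s0 s1) (nn_append (tE_nn (exv13 ..) p0 p1) ?_))
      (nn_append (fm_nn hk hf) (nn_append hX (tl_nn hb hw _ _ _ _ _)))))
    simp only [List.forall_mem_cons, mE_val, exsub, exc, exv7, exv11, exv19, exv23]
    push_cast
    exact ⟨by linarith, by linarith, by linarith, fun _ hh => absurd hh List.not_mem_nil⟩
  · simp only [vG1, exadd, mjL_val ho, mjP_val ho, raE_val (dnz ..), smE_val, fE_val hk,
      hA_val (exv13 ..) (exv23 ..) (exv7 ..)]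
    ring

theorem b1_g1 (hb : Bd x y z) (ho : Ord i x y z c1 c2)
    (ck : Ck (gG11 X) (pW (vG1 i (hM (Ex.v 13)))))
    {w A B s p : ℝ} (hX : ∀ g ∈ X, 0 ≤ exVal (yv x y z w s p 0 A B) g)
    (hF : FF w A B) (hf : 1 / 10 ≤ vl w A B) (s0 : 0 ≤ s) (s1 : s ≤ 1) (sA : 1 + s ≤ A)
    (hm : A + B ≤ 2 * w) (p0 : 0 ≤ p) (p1 : p ≤ 13 / 20) :
    mj (c1 - TallB.la x) (1 - x) x s + TallB.la x * (1 + w - A - B) + mj c2 (1 - y) y p
      + ra (TallB.n3 z) z w + s * (2 * w - A - B) + p * (2 * w - A - B) + vl w A B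
      ≤ TallB.wb1 x y z := by
  have hw : 0 ≤ w := by linarith [hF.w0]
  have hk : kv 3 w A B := ⟨by linarith [hF.w1], by linarith [hF.w1]⟩
  refine ck.fin (y := yv x y z w s p 0 A B)
    (yv_nonneg hb.x0 hb.y0 hb.z0 hw s0 p0 (le_refl 0) hF.A0 hF.B0) ?_ ((dw1 ..).h ..) ?_
  · refine nn_append (ff_nn hF) (nn_append (kE_nn hk) (nn_append (nn_append
      (oE_nn (exv11 ..) s0 s1) (nn_append (tE_nn (exv13 ..) p0 p1) ?_))
      (nn_append (fm_nn hk hf) (nn_append hX (tl_nn hb hw _ _ _ _ _)))))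
    simp only [List.forall_mem_cons, mE_val, exsub, exc, exv11, exv19]
    push_cast
    exact ⟨by linarith, by linarith, fun _ hh => absurd hh List.not_mem_nil⟩
  · simp only [vG1, exadd, mjL_val ho, mjP_val ho, raE_val (dnz ..), smE_val, fE_val hk,
      hM_val (exv13 ..) (mE_val ..)]
    ring

end lemmas

end Pool.Agent.Helper52.TS
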